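import Pool.Agent.Lib.MP_391708_nt.QPA.C.SpecC
import Pool.Agent.Lib.MP_391708_nt.QPA.BasM

/-!
# QPA/C, module BLKC: one block of the Liouville sums over all integers
-/

set_option autoImplicit false

namespace Pool.Agent.Lib.MP391708.QPA.C

open Finset Filter Topology
open Pool.Agent.Lib.MP391708.QPA
open Pool.Agent.Lib.MP391708.QPA.H
open scoped Classical

namespace BLKCM

open BasM

lemma abs_lio_le (m : ℕ) : |lio m| ≤ 1 := by
  unfold lio
  by_cases hm : m = 0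
  · subst hm; simp
  · rw [ArithmeticFunction.liouville_apply hm]
    push_cast
    rw [abs_pow, abs_neg, abs_one, one_pow]

lemma abs_lsm_le (z S : ℝ) (s : ℕ) : |lsm z S s| ≤ 1 := by
  unfold lsm
  split_ifs
  · exact abs_lio_le s
  · simp

/-- the rough divisor with smooth complement is unique -/
lemma rough_unique {z : ℝ} {m k k' : ℕ} (_hm : m ≠ 0) (hk : k ∣ m) (hk' : k' ∣ m) (h1 : Rough z k)
    (h1' : Rough z k') (h2 : Smooth z (m / k)) (h2' : Smooth z (m / k')) : k = k' := by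
  have key : ∀ a b : ℕ, a ∣ m → b ∣ m → Rough z a → Smooth z (m / b) → a ∣ b := by
    intro a b ha hb hra hsb
    have hc : Nat.Coprime a (m / b) := by
      rw [Nat.coprime_iff_gcd_eq_one]
      by_contra hne
      obtain ⟨p, hp, hpd⟩ := Nat.exists_prime_and_dvd hne
      have h3 := hra p hp (hpd.trans (Nat.gcd_dvd_left _ _))
      have h4 := hsb p hp (hpd.trans (Nat.gcd_dvd_right _ _))
      linarith
    refine hc.dvd_of_dvd_mul_right ?_
    rw [Nat.mul_div_cancel' hb]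
    exact ha
  exact Nat.dvd_antisymm (key k k' hk hk' h1 h2') (key k' k hk' hk h1' h2)

/-- the convolution is bounded -/
lemma conv_abs_le (hFFB : SpecFFB) {e0 : ℝ} (he0 : 0 < e0) {Q : ℕ} (hQ : 1 ≤ Q) {c : Multiset ℕ}
    (hc : ∀ i ∈ c, Q ≤ i) {N : ℕ} (hN : 2 ≤ N) (S : ℝ) (m : ℕ) :
    |conv (fun m => FF N (e0 / Q) c m) (lsm ((N : ℝ) ^ e0) S) m| ≤
      ((Multiset.card c).factorial : ℝ) := by
  have hterm : ∀ k, |FF N (e0 / Q) c k * lsm ((N : ℝ) ^ e0) S (m / k)| ≤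
      ((Multiset.card c).factorial : ℝ) := by
    intro k
    obtain ⟨h1, h2⟩ := FF_facts hFFB he0 hQ hc hN k
    rw [abs_mul, abs_of_nonneg h1]
    have h3 : rInd ((N : ℝ) ^ e0) k ≤ 1 := by
      unfold rInd
      split_ifs <;> norm_num
    have h4 : (0 : ℝ) ≤ ((Multiset.card c).factorial : ℝ) := by positivity
    calc FF N (e0 / Q) c k * |lsm ((N : ℝ) ^ e0) S (m / k)|
        ≤ ((Multiset.card c).factorial : ℝ) * 1 :=
          mul_le_mul (h2.trans (by nlinarith)) (abs_lsm_le _ _ _) (abs_nonneg _) h4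
      _ = _ := mul_one _
  unfold conv
  by_cases hex : ∃ k ∈ m.divisors, FF N (e0 / Q) c k * lsm ((N : ℝ) ^ e0) S (m / k) ≠ 0
  · obtain ⟨k, hk, hk0⟩ := hex
    rw [sum_eq_single_of_mem k hk]
    · exact hterm k
    · intro k' hk' hne
      by_contra h0
      apply hne
      have hm : m ≠ 0 := (Nat.mem_divisors.1 hk).2
      have nz : ∀ j, FF N (e0 / Q) c j * lsm ((N : ℝ) ^ e0) S (m / j) ≠ 0 →
          Rough ((N : ℝ) ^ e0) j ∧ Smooth ((N : ℝ) ^ e0) (m / j) := by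
        intro j hj
        obtain ⟨h1, h2⟩ := FF_facts hFFB he0 hQ hc hN j
        constructor
        · by_contra hr
          have : rInd ((N : ℝ) ^ e0) j = 0 := by
            unfold rInd
            rw [if_neg hr]
          rw [this, mul_zero] at h2
          exact hj (by rw [le_antisymm h2 h1, zero_mul])
        · by_contra hs
          apply hj
          unfold lsm
          rw [if_neg (fun h => hs h.2.2), mul_zero]
      exact rough_unique hm (Nat.mem_divisors.1 hk').1 (Nat.mem_divisors.1 hk).1 (nz k' h0).1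
        (nz k hk0).1 (nz k' h0).2 (nz k hk0).2
  · push Not at hex
    rw [sum_eq_zero hex, abs_zero]
    positivity

lemma ev_pow {a b : ℝ} (hab : a < b) (c : ℝ) : ∀ᶠ N : ℕ in atTop, c * (N : ℝ) ^ a ≤ (N : ℝ) ^ b := by
  have hcast : Tendsto (fun N : ℕ => (N : ℝ)) atTop atTop := tendsto_natCast_atTop_atTop
  have h1 : Tendsto (fun N : ℕ => (N : ℝ) ^ (b - a)) atTop atTop :=
    (tendsto_rpow_atTop (by linarith)).comp hcast
  filter_upwards [h1.eventually_ge_atTop c, eventually_ge_atTop 1] with N h hN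
  have hN0 : (0 : ℝ) < N := by exact_mod_cast hN
  have h2 : (N : ℝ) ^ b = (N : ℝ) ^ (b - a) * (N : ℝ) ^ a := by
    rw [← Real.rpow_add hN0]
    congr 1
    ring
  rw [h2]
  exact mul_le_mul_of_nonneg_right h (by positivity)

/-- the sizes -/
lemma geo {e κ : ℝ} (he : 0 < e) (hκ : 3 / 5 < κ) : ∀ᶠ N : ℕ in atTop, ∀ K L : ℝ,
    (N : ℝ) ^ κ ≤ K → K ≤ (N : ℝ) ^ (1 - e) → (N : ℝ) ^ 2 / 2 ≤ K * L → K * L ≤ 5 * (N : ℝ) ^ 2 →
    1 ≤ K ∧ K ≤ L ∧ (N : ℝ) ≤ L ∧ 2 * L ≤ (N : ℝ) ^ 3 ∧ (N : ℝ) ^ (e / 2) ≤ √(L / K) ∧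
      √(L / K) ≤ (N : ℝ) ^ (2 / 5 : ℝ) := by
  filter_upwards [eventually_ge_atTop 10, ev_pow (show (0 : ℝ) < e by linarith) 2,
    ev_pow (show 2 - 2 * κ < (4 / 5 : ℝ) by linarith) 5] with N hN10 h1 h2 K L hK1 hK2 hl1 hl2
  have hN1 : (1 : ℝ) < N := by exact_mod_cast (by omega : 1 < N)
  have hN10' : (10 : ℝ) ≤ N := by exact_mod_cast hN10
  have hN0 : (0 : ℝ) < N := by linarith
  have hK : 1 ≤ K := (Real.one_le_rpow hN1.le (by linarith)).trans hK1
  have hK0 : 0 < K := by linarith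
  have hKL0 : 0 < K * L := lt_of_lt_of_le (by positivity) hl1
  have hL0 : 0 < L := pos_of_mul_pos_right hKL0 hK0.le
  have hKN : K ≤ N := hK2.trans (by
    calc (N : ℝ) ^ (1 - e) ≤ (N : ℝ) ^ (1 : ℝ) := Real.rpow_le_rpow_of_exponent_le hN1.le (by linarith)
      _ = N := Real.rpow_one _)
  have hLN : (N : ℝ) ≤ L := by
    have hsq : (N : ℝ) ^ 2 = (N : ℝ) ^ (1 - e) * ((N : ℝ) ^ e * N) := by
      have : (N : ℝ) ^ (1 - e) * ((N : ℝ) ^ e * N) = ((N : ℝ) ^ (1 - e) * (N : ℝ) ^ e) * N := by ring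
      rw [this, ← Real.rpow_add hN0]
      have h3 : 1 - e + e = 1 := by ring
      rw [h3, Real.rpow_one]
      ring
    have h5 : (N : ℝ) ^ (1 - e) * N ≤ (N : ℝ) ^ (1 - e) * L := by
      calc (N : ℝ) ^ (1 - e) * N ≤ (N : ℝ) ^ (1 - e) * ((N : ℝ) ^ e * N / 2) := by
            apply mul_le_mul_of_nonneg_left _ (by positivity)
            rw [Real.rpow_zero] at h1
            nlinarith
        _ = (N : ℝ) ^ 2 / 2 := by rw [hsq]; ring
        _ ≤ K * L := hl1
        _ ≤ (N : ℝ) ^ (1 - e) * L := by gcongr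
    exact le_of_mul_le_mul_left h5 (by positivity)
  refine ⟨hK, hKN.trans hLN, hLN, ?_, ?_, ?_⟩
  · have h3 : L ≤ 5 * (N : ℝ) ^ 2 := by nlinarith
    have h4 : (N : ℝ) ^ 3 = N * (N : ℝ) ^ 2 := by ring
    rw [h4]
    nlinarith [sq_nonneg (N : ℝ)]
  · rw [Real.le_sqrt (by positivity) (by positivity), le_div_iff₀ hK0]
    have h5 : ((N : ℝ) ^ (e / 2)) ^ 2 = (N : ℝ) ^ e := by
      rw [← Real.rpow_natCast, ← Real.rpow_mul hN0.le]; congr 1; push_cast; ring
    rw [h5]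
    calc (N : ℝ) ^ e * K ≤ (N : ℝ) ^ e * (N : ℝ) ^ (1 - e) := by gcongr
      _ = N := by rw [← Real.rpow_add hN0]; norm_num
      _ ≤ L := hLN
  · rw [Real.sqrt_le_left (by positivity), div_le_iff₀ hK0]
    have h5 : ((N : ℝ) ^ (2 / 5 : ℝ)) ^ 2 = (N : ℝ) ^ (4 / 5 : ℝ) := by
      rw [← Real.rpow_natCast, ← Real.rpow_mul hN0.le]; norm_num
    rw [h5]
    have h6 : L * K ≤ (N : ℝ) ^ (4 / 5 : ℝ) * K * K := by
      have h7 : (N : ℝ) ^ κ * (N : ℝ) ^ κ ≤ K * K := mul_le_mul hK1 hK1 (by positivity) hK0.le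
      have h8 : (N : ℝ) ^ κ * (N : ℝ) ^ κ * (N : ℝ) ^ (2 - 2 * κ) = (N : ℝ) ^ 2 := by
        rw [← Real.rpow_add hN0, ← Real.rpow_add hN0, ← Real.rpow_natCast]
        congr 1
        push_cast
        ring
      calc L * K = K * L := mul_comm _ _
        _ ≤ 5 * (N : ℝ) ^ 2 := hl2
        _ = ((N : ℝ) ^ κ * (N : ℝ) ^ κ) * (5 * (N : ℝ) ^ (2 - 2 * κ)) := by rw [← h8]; ring
        _ ≤ (K * K) * (N : ℝ) ^ (4 / 5 : ℝ) := mul_le_mul h7 h2 (by positivity) (by positivity)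
        _ = (N : ℝ) ^ (4 / 5 : ℝ) * K * K := by ring
    exact le_of_mul_le_mul_right h6 hK0

/-- the sums over a residue class from the prefix sums -/
lemma class_sum {f : ℕ → ℝ} {q c : ℕ} {δ : ℝ} {x y : ℕ}
    (hx : |∑ u ∈ (Icc 1 x).filter (fun u => u % q = c), f u| ≤ δ * x)
    (hy : |∑ u ∈ (Icc 1 y).filter (fun u => u % q = c), f u| ≤ δ * y) (hxy : x ≤ y) :
    |∑ u ∈ (Ioc x y).filter (fun u => u % q = c), f u| ≤ δ * x + δ * y := by
  have h1 : Icc 1 y = Icc 1 x ∪ Ioc x y := by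
    ext u
    simp only [mem_union, mem_Icc, mem_Ioc]
    omega
  have h2 : ∑ u ∈ (Icc 1 y).filter (fun u => u % q = c), f u =
      ∑ u ∈ (Icc 1 x).filter (fun u => u % q = c), f u +
      ∑ u ∈ (Ioc x y).filter (fun u => u % q = c), f u := by
    rw [h1, filter_union, sum_union]
    apply disjoint_filter_filter
    rw [disjoint_left]
    intro u hu hu2
    rw [mem_Icc] at hu
    rw [mem_Ioc] at hu2
    omega
  rw [h2] at hy
  have h5 := abs_le.1 hy
  have h6 := abs_le.1 hx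
  rw [abs_le]
  constructor <;> linarith [h5.1, h5.2, h6.1, h6.2]

/-- one parity class of the cut function -/
noncomputable def bp (L η : ℝ) (f : ℕ → ℝ) (par u : ℕ) : ℝ :=
  if u % 2 = par then cut L ((1 + η) * L) f u else 0

lemma bp_class {L η : ℝ} {f : ℕ → ℝ} {N R : ℕ} {δ : ℝ} (hη : 0 ≤ η) (hη1 : η ≤ 1) (hδ : 0 ≤ δ)
    (hNL : (N : ℝ) ≤ L) (hL3 : 2 * L ≤ (N : ℝ) ^ 3)
    (h : ∀ r c X : ℕ, 1 ≤ r → r ≤ 2 * R → N ≤ X → (X : ℝ) ≤ (N : ℝ) ^ 3 →
      |∑ u ∈ (Icc 1 X).filter (fun u => u % r = c), f u| ≤ δ * X)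
    {par r c x y : ℕ} (hr : 1 ≤ r) (hrR : r ≤ R) :
    |∑ u ∈ (Ioc x y).filter (fun u => u % r = c), bp L η f par u| ≤ 2 * R * (4 * δ * L) := by
  have hL0 : 0 ≤ L := (Nat.cast_nonneg N).trans hNL
  set x' : ℕ := max x ⌊L⌋₊ with hx'
  set y' : ℕ := min y ⌊(1 + η) * L⌋₊ with hy'
  have hset : ∑ u ∈ (Ioc x y).filter (fun u => u % r = c), bp L η f par u =
      ∑ u ∈ (Ioc x' y').filter (fun u => u % r = c ∧ u % 2 = par), f u := by
    unfold bp cut
    have e1 : ∀ u : ℕ, (if u % 2 = par then (if L < (u : ℝ) ∧ (u : ℝ) ≤ (1 + η) * L then f u else 0)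
        else 0) = if (u % 2 = par ∧ (L < (u : ℝ) ∧ (u : ℝ) ≤ (1 + η) * L)) then f u else 0 := by
      intro u
      split_ifs <;> tauto
    simp only [e1]
    rw [← sum_filter, filter_filter]
    refine sum_congr ?_ fun _ _ => rfl
    ext u
    simp only [mem_filter, mem_Ioc]
    rw [← Nat.floor_lt hL0, ← Nat.le_floor_iff (by positivity), hx', hy', max_lt_iff, le_min_iff]
    tauto
  rw [hset]
  by_cases hxy : y' ≤ x'
  · rw [Ioc_eq_empty (by omega), filter_empty, sum_empty, abs_zero]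
    positivity
  push Not at hxy
  have hNx : N ≤ x' := (Nat.le_floor hNL).trans (le_max_right _ _)
  have hy2 : (y' : ℝ) ≤ 2 * L := by
    have : (y' : ℝ) ≤ (⌊(1 + η) * L⌋₊ : ℕ) := by exact_mod_cast min_le_right _ _
    refine this.trans ((Nat.floor_le (by positivity)).trans ?_)
    nlinarith
  have hxy' : (x' : ℝ) ≤ y' := by exact_mod_cast hxy.le
  have hmaps : ∀ u ∈ (Ioc x' y').filter (fun u => u % r = c ∧ u % 2 = par), u % (2 * r) ∈ range (2 * r) :=
    fun u _ => mem_range.2 (Nat.mod_lt _ (by omega))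
  rw [← sum_fiberwise_of_maps_to hmaps]
  refine (abs_sum_le_sum_abs _ _).trans ?_
  have hone : ∀ c' ∈ range (2 * r), |∑ u ∈ ((Ioc x' y').filter
      (fun u => u % r = c ∧ u % 2 = par)).filter (fun u => u % (2 * r) = c'), f u| ≤ 4 * δ * L := by
    intro c' _
    have h1 : ∀ u, u % (2 * r) % r = u % r := fun u => Nat.mod_mod_of_dvd u ⟨2, by ring⟩
    have h2 : ∀ u, u % (2 * r) % 2 = u % 2 := fun u => Nat.mod_mod_of_dvd u ⟨r, rfl⟩
    by_cases hc : c' % r = c ∧ c' % 2 = par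
    · have h3 : ((Ioc x' y').filter (fun u => u % r = c ∧ u % 2 = par)).filter
          (fun u => u % (2 * r) = c') = (Ioc x' y').filter (fun u => u % (2 * r) = c') := by
        rw [filter_filter]
        refine filter_congr fun u _ => ?_
        constructor
        · exact fun h => h.2
        · intro h
          refine ⟨?_, h⟩
          rw [← h1 u, ← h2 u, h]
          exact hc
      rw [h3]
      have h4 := class_sum (f := f) (q := 2 * r) (c := c') (δ := δ) (x := x') (y := y')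
        (h (2 * r) c' x' (by omega) (by omega) hNx (by linarith))
        (h (2 * r) c' y' (by omega) (by omega) (by omega) (by linarith)) hxy.le
      refine h4.trans ?_
      nlinarith
    · have h3 : ((Ioc x' y').filter (fun u => u % r = c ∧ u % 2 = par)).filter
          (fun u => u % (2 * r) = c') = ∅ := by
        rw [filter_filter, filter_eq_empty_iff]
        intro u _ h
        apply hc
        rw [← h.2, h1, h2]
        exact h.1
      rw [h3, sum_empty, abs_zero]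
      positivity
  refine (sum_le_sum hone).trans ?_
  rw [sum_const, card_range, nsmul_eq_mul]
  have : ((2 * r : ℕ) : ℝ) ≤ 2 * R := by exact_mod_cast (by omega : 2 * r ≤ 2 * R)
  exact mul_le_mul_of_nonneg_right this (by positivity)

end BLKCM

open BLKCM BasM in
theorem specBLKC (hTWOP : SpecTWOP) (hWBC : SpecWBC) (hEQC : SpecEQC) (hFFB : SpecFFB) :
    SpecBLKC := by
  intro θ κ e e0 η₁ η ϖ Q c₁ c₂ hθ hκ hθκ he he0 he0' hη hη4 hη₁ hη₁4 hϖ hQ hc₁ hc₂ hc₂0
  set B : ℝ := ((Multiset.card c₁).factorial : ℝ) + ((Multiset.card c₂).factorial : ℝ) with hB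
  have hB1 : ((Multiset.card c₁).factorial : ℝ) ≤ B := by
    rw [hB]
    have : (0 : ℝ) ≤ ((Multiset.card c₂).factorial : ℝ) := by positivity
    linarith
  have hB2 : ((Multiset.card c₂).factorial : ℝ) ≤ B := by
    rw [hB]
    have : (0 : ℝ) ≤ ((Multiset.card c₁).factorial : ℝ) := by positivity
    linarith
  have hB0 : 0 < B := lt_of_lt_of_le (by exact_mod_cast Nat.factorial_pos _) hB1
  obtain ⟨C, hC, hT⟩ := hTWOP θ κ e e0 B hθ (by linarith) hθκ he he0 hB0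
  have hw : 0 < ϖ ^ 2 / (40 * C) := by positivity
  obtain ⟨N₁, hN₁⟩ := hT _ hw
  obtain ⟨R, κ', hκ', N₂, hN₂⟩ := hWBC B (ϖ ^ 2 / (40 * C)) (e / 2) η₁ hB0 hw (half_pos he) hη₁ hη₁4
  have hδ : 0 < κ' / (8 * (R + 1)) := by positivity
  obtain ⟨N₄, hN₄⟩ := hEQC e0 η (κ' / (8 * (R + 1))) Q c₂ he0 he0' hη hη4 hδ hQ hc₂0 hc₂ (2 * R)
  obtain ⟨N₃, hN₃⟩ := eventually_atTop.1 (BLKCM.geo he hκ)
  refine ⟨max (max N₁ N₂) (max (max N₃ N₄) 3), fun N A hN hA K L hK1 hK2 hKL1 hKL2 => ?_⟩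
  have hNN₁ : N₁ ≤ N := (le_max_left _ _).trans ((le_max_left _ _).trans hN)
  have hNN₂ : N₂ ≤ N := (le_max_right _ _).trans ((le_max_left _ _).trans hN)
  have hNN₃ : N₃ ≤ N := (le_max_left _ _).trans ((le_max_left _ _).trans ((le_max_right _ _).trans hN))
  have hNN₄ : N₄ ≤ N := (le_max_right _ _).trans ((le_max_left _ _).trans ((le_max_right _ _).trans hN))
  have hN3 : 3 ≤ N := (le_max_right _ _).trans ((le_max_right _ _).trans hN)
  obtain ⟨hK, hKL, hLN, hL3, hg3, hg4⟩ := hN₃ N hNN₃ K L hK1 hK2 hKL1 hKL2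
  have hN3' : (3 : ℝ) ≤ N := by exact_mod_cast hN3
  have hlog : 1 ≤ Real.log N := by
    rw [← Real.log_exp 1]
    apply Real.log_le_log (Real.exp_pos 1)
    have := Real.exp_one_lt_d9
    linarith
  have hlog0 : 0 < Real.log N := by linarith
  have hL0 : 0 < L := by linarith
  have hK0 : 0 < K := by linarith
  set f : ℕ → ℝ := conv (fun m => FF N (e0 / Q) c₂ m) (lsm ((N : ℝ) ^ e0) ((N : ℝ) ^ η)) with hf
  set α : ℕ → ℝ := cut K ((1 + η₁) * K) (fun m => FF N (e0 / Q) c₁ m) with hα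
  have hfB : ∀ u, |f u| ≤ B := fun u =>
    (conv_abs_le hFFB he0 hQ hc₂ (by omega) _ u).trans hB2
  have hbB : ∀ par u, |bp L η₁ f par u| ≤ B := by
    intro par u
    unfold bp cut
    split_ifs
    · exact hfB u
    · rw [abs_zero]; exact hB0.le
    · rw [abs_zero]; exact hB0.le
  have hbs : ∀ par u, bp L η₁ f par u ≠ 0 → u % 2 = par ∧ L < (u : ℝ) ∧ (u : ℝ) ≤ (1 + η₁) * L := by
    intro par u hu
    unfold bp cut at hu
    split_ifs at hu with h h'
    · exact ⟨h, h'⟩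
    · exact absurd rfl hu
    · exact absurd rfl hu
  have hαB : ∀ k, |α k| ≤ B * rInd ((N : ℝ) ^ e0) k := by
    intro k
    have hr : 0 ≤ rInd ((N : ℝ) ^ e0) k := rInd_nonneg _ _
    rw [hα]
    unfold cut
    split_ifs
    · obtain ⟨h1, h2⟩ := FF_facts hFFB he0 hQ hc₁ (by omega : 2 ≤ N) k
      rw [abs_of_nonneg h1]
      exact h2.trans (mul_le_mul_of_nonneg_right hB1 hr)
    · rw [abs_zero]
      exact mul_nonneg hB0.le hr
  have hαs : ∀ k, α k ≠ 0 → K < (k : ℝ) ∧ (k : ℝ) ≤ 5 / 4 * K := by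
    intro k hk
    rw [hα] at hk
    unfold cut at hk
    split_ifs at hk with h
    · refine ⟨h.1, h.2.trans ?_⟩
      nlinarith
    · exact absurd rfl hk
  have hpart : ∀ par, ∑ a ∈ IA A, |bil (8 * N) a α (bp L η₁ f par)| ≤ ϖ / 2 * A * N / Real.log N := by
    intro par
    have hW : |Wsum K L (bp L η₁ f par)| ≤ ϖ ^ 2 / (40 * C) * L := by
      refine hN₂ N K L _ hNN₂ hK hKL hLN hKL1 hKL2 hg3 hg4 (hbB par) (fun u hu => (hbs par u hu).2) ?_
      intro r c x y hr hrR _ _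
      have h1 := bp_class (L := L) (η := η₁) (f := f) (N := N) (R := R) (δ := κ' / (8 * (R + 1)))
        (par := par) (r := r) (c := c) (x := x) (y := y) hη₁.le (by linarith) hδ.le hLN hL3
        (fun r c X h1 h2 h3 h4 => hN₄ N hNN₄ r c X h1 h2 h3 h4) hr hrR
      refine h1.trans ?_
      have h2 : 2 * (R : ℝ) * (4 * (κ' / (8 * (R + 1))) * L) = κ' * L * (R / (R + 1)) := by
        field_simp
        ring
      rw [h2]
      have h3 : (R : ℝ) / (R + 1) ≤ 1 := by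
        rw [div_le_one (by positivity)]
        linarith
      have h4 : 0 ≤ κ' * L := by positivity
      calc κ' * L * (R / (R + 1)) ≤ κ' * L * 1 := by gcongr
        _ = κ' * L := mul_one _
    have hM := hN₁ N A hNN₁ hA K L hK1 hK2 hKL1 hKL2 par α (bp L η₁ f par) hαB hαs (hbB par)
      (by
        intro u hu
        obtain ⟨h1, h2, h3⟩ := hbs par u hu
        refine ⟨h1, h2, h3.trans ?_⟩
        nlinarith)
    set S := ∑ a ∈ IA A, |bil (8 * N) a α (bp L η₁ f par)| with hS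
    have hS0 : 0 ≤ S := sum_nonneg fun _ _ => abs_nonneg _
    have hR0 : 0 ≤ ϖ / 2 * A * N / Real.log N := by positivity
    rw [← sq_le_sq₀ hS0 hR0]
    refine hM.trans ?_
    have h1 : ϖ ^ 2 / (40 * C) * L / (Real.log N) ^ 2 ≤ ϖ ^ 2 / (40 * C) * L := by
      apply div_le_self (by positivity)
      nlinarith
    have h2 : |Wsum K L (bp L η₁ f par)| + ϖ ^ 2 / (40 * C) * L / (Real.log N) ^ 2
        ≤ 2 * (ϖ ^ 2 / (40 * C) * L) := by linarith
    calc C * ((A : ℝ) ^ 2 * K / (Real.log N) ^ 2) *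
          (|Wsum K L (bp L η₁ f par)| + ϖ ^ 2 / (40 * C) * L / (Real.log N) ^ 2)
        ≤ C * ((A : ℝ) ^ 2 * K / (Real.log N) ^ 2) * (2 * (ϖ ^ 2 / (40 * C) * L)) := by gcongr
      _ = ϖ ^ 2 / 4 * (A : ℝ) ^ 2 / (Real.log N) ^ 2 * (K * L / 5) := by field_simp; ring
      _ ≤ ϖ ^ 2 / 4 * (A : ℝ) ^ 2 / (Real.log N) ^ 2 * ((N : ℝ) ^ 2) := by
          gcongr
          linarith
      _ = (ϖ / 2 * A * N / Real.log N) ^ 2 := by field_simp; ring
  have hsplit : cut L ((1 + η₁) * L) f = fun u => bp L η₁ f 0 u + bp L η₁ f 1 u := by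
    funext u
    unfold bp
    rcases Nat.mod_two_eq_zero_or_one u with h | h
    · rw [if_pos h, if_neg (by omega), add_zero]
    · rw [if_neg (by omega), if_pos h, zero_add]
  rw [hsplit]
  calc ∑ a ∈ IA A, |bil (8 * N) a α (fun u => bp L η₁ f 0 u + bp L η₁ f 1 u)|
      ≤ ∑ a ∈ IA A, (|bil (8 * N) a α (bp L η₁ f 0)| + |bil (8 * N) a α (bp L η₁ f 1)|) := by
        refine sum_le_sum fun a _ => ?_
        rw [bil_add]
        exact abs_add_le _ _
    _ = ∑ a ∈ IA A, |bil (8 * N) a α (bp L η₁ f 0)| + ∑ a ∈ IA A, |bil (8 * N) a α (bp L η₁ f 1)| :=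
        sum_add_distrib
    _ ≤ ϖ / 2 * A * N / Real.log N + ϖ / 2 * A * N / Real.log N := add_le_add (hpart 0) (hpart 1)
    _ = ϖ * A * N / Real.log N := by ring

end Pool.Agent.Lib.MP391708.QPA.C
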