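import Pool.Agent.Lib.MP_391708_nt.QPA.C.SpecC
import Pool.Agent.Lib.MP_391708_nt.QPA.H.BLKE

/-!
# CHWC: the mean of the Liouville function at `n² + a` over one block, for almost all `a`
-/

set_option autoImplicit false

namespace Pool.Agent.Lib.MP391708.QPA.C

open Finset Filter Topology
open Pool.Agent.Lib.MP391708.QPA
open Pool.Agent.Lib.MP391708.QPA.H
open scoped Classical

namespace CHWCM

theorem abs_lio_le (m : ℕ) : |lio m| ≤ 1 := by
  unfold lio
  by_cases hm : m = 0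
  · subst hm
    simp
  · rw [ArithmeticFunction.liouville_apply hm]
    push_cast
    rw [abs_pow, abs_neg, abs_one, one_pow]

noncomputable section

/-- indicator of the numbers with a large smooth part -/
def bigs (N : ℕ) (e0 η : ℝ) (m : ℕ) : ℝ :=
  if (N : ℝ) ^ η < ((smp ((N : ℝ) ^ e0) m : ℕ) : ℝ) then 1 else 0

/-- indicator of the numbers with a rough divisor in a window -/
def rwin (N : ℕ) (e0 x e : ℝ) (m : ℕ) : ℝ := if RWin N e0 x e m then 1 else 0

/-- the error function -/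
def errC (N : ℕ) (e0 η κ e C : ℝ) (m : ℕ) : ℝ :=
  bigs N e0 η m + C * (BLK.nsq N e0 m + ∑ x ∈ ({κ, 1} : Finset ℝ), rwin N e0 x (2 * e) m)

theorem bigs_nonneg (N : ℕ) (e0 η : ℝ) (m : ℕ) : 0 ≤ bigs N e0 η m := by
  unfold bigs; split_ifs <;> norm_num

theorem rwin_nonneg (N : ℕ) (e0 x e : ℝ) (m : ℕ) : 0 ≤ rwin N e0 x e m := by
  unfold rwin; split_ifs <;> norm_num

theorem nsq_nonneg (N : ℕ) (e0 : ℝ) (m : ℕ) : 0 ≤ BLK.nsq N e0 m := by
  unfold BLK.nsq; split_ifs <;> norm_num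

theorem errC_nonneg (N : ℕ) (e0 η κ e : ℝ) {C : ℝ} (hC : 0 ≤ C) (m : ℕ) :
    0 ≤ errC N e0 η κ e C m := by
  unfold errC
  exact add_nonneg (bigs_nonneg _ _ _ _) (mul_nonneg hC (add_nonneg (nsq_nonneg _ _ _)
    (Finset.sum_nonneg (fun x _ => rwin_nonneg _ _ _ _ _))))

theorem cnt_errC (N : ℕ) (a : ℤ) (e0 η κ e C : ℝ) :
    cnt N a (errC N e0 η κ e C)
      = cnt N a (bigs N e0 η) + C * (cnt N a (BLK.nsq N e0)
        + ∑ x ∈ ({κ, 1} : Finset ℝ), cnt N a (rwin N e0 x (2 * e))) := by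
  unfold errC
  rw [BLK.cnt_add, BLK.cnt_smul, BLK.cnt_add, BLK.cnt_sum]

/-- the pointwise inequality -/
theorem pointwise {N A : ℕ} {a : ℤ} (F P B : ℕ → ℝ) {ι : Type*}
    (T' : Finset ι) (t : ι → ℝ) (G : ι → ℕ → ℝ)
    (ha : a ∈ IA A) (hA : (A : ℝ) ≤ (N : ℝ) ^ 2 / 2)
    (hT2 : ∀ m : ℕ, (N : ℝ) ^ 2 / 2 ≤ m → (m : ℝ) ≤ 5 * (N : ℝ) ^ 2 →
      |F m - P m - ∑ c ∈ T', t c * G c m| ≤ B m) :
    |cnt N a F| ≤ |cnt N a P| + (∑ c ∈ T', |t c| * |cnt N a (G c)| + cnt N a B) := by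
  set R : ℕ → ℝ := fun m => F m - P m - ∑ c ∈ T', t c * G c m with hR
  have hdec : F = fun m => (P m + ∑ c ∈ T', t c * G c m) + R m := by
    funext m
    simp only [hR]
    ring
  have h1 : cnt N a F = cnt N a P + ∑ c ∈ T', t c * cnt N a (G c) + cnt N a R := by
    conv_lhs => rw [hdec]
    rw [BLK.cnt_add N a (fun m => P m + ∑ c ∈ T', t c * G c m) R,
      BLK.cnt_add N a P, BLK.cnt_sum N a T' (fun c m => t c * G c m)]
    congr 2
    exact Finset.sum_congr rfl (fun c _ => BLK.cnt_smul N a (t c) _)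
  have h3 : |cnt N a R| ≤ cnt N a B := BLK.cnt_abs_le ha hA R _ hT2
  have h6 : |∑ c ∈ T', t c * cnt N a (G c)| ≤ ∑ c ∈ T', |t c| * |cnt N a (G c)| := by
    refine (Finset.abs_sum_le_sum_abs _ _).trans (Finset.sum_le_sum (fun c _ => ?_))
    rw [abs_mul]
  rw [h1]
  calc |cnt N a P + ∑ c ∈ T', t c * cnt N a (G c) + cnt N a R|
      ≤ |cnt N a P + ∑ c ∈ T', t c * cnt N a (G c)| + |cnt N a R| := abs_add_le _ _
    _ ≤ |cnt N a P| + |∑ c ∈ T', t c * cnt N a (G c)| + |cnt N a R| := by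
        linarith [abs_add_le (cnt N a P) (∑ c ∈ T', t c * cnt N a (G c))]
    _ ≤ _ := by linarith

end

end CHWCM

open CHWCM in
theorem specCHWC (hTI : SpecTIC) (hT2 : SpecT2C) (hTII : SpecTIIC) (hWIN : SpecWINC)
    (hSMT : SpecSMTC) (hNSF : SpecNSFH) : SpecCHWC := by
  intro θ ε hθ hε
  obtain ⟨CS, hCS, hSMT⟩ := hSMT
  obtain ⟨CW, hCW, hWIN⟩ := hWIN θ (by linarith)
  -- the parameters
  obtain ⟨κ, hκ1, hκ2, hθκ⟩ : ∃ κ : ℝ, 3 / 5 < κ ∧ κ < 2 / 3 ∧ 3 / 2 < θ + κ := by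
    refine ⟨(2 / 3 + max (3 / 5) (3 / 2 - θ)) / 2, ?_, ?_, ?_⟩
    · have := le_max_left (3 / 5 : ℝ) (3 / 2 - θ)
      linarith
    · have : max (3 / 5 : ℝ) (3 / 2 - θ) < 2 / 3 := max_lt (by norm_num) (by linarith)
      linarith
    · have := le_max_right (3 / 5 : ℝ) (3 / 2 - θ)
      linarith
  obtain ⟨η, hη0, hη1, hη2⟩ : ∃ η : ℝ, 0 < η ∧ η ≤ 1 / 20 ∧ 3 * κ + η < 2 := by
    refine ⟨min (1 / 20) ((2 - 3 * κ) / 2), lt_min (by norm_num) (by linarith),
      min_le_left _ _, ?_⟩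
    have := min_le_right (1 / 20 : ℝ) ((2 - 3 * κ) / 2)
    linarith
  obtain ⟨e1, he1, hTI⟩ := hTI θ κ η (ε / 2) (by linarith) hκ1 hκ2 hη0 hη1 (by positivity)
  set e0 : ℝ := min (min e1 (1 / 10)) (ε ^ 2 * η / (16 * CS)) with he0
  have he0p : 0 < e0 := lt_min (lt_min he1 (by norm_num)) (by positivity)
  have he0e1 : e0 ≤ e1 := (min_le_left _ _).trans (min_le_left _ _)
  have he0u : e0 ≤ 1 / 10 := (min_le_left _ _).trans (min_le_right _ _)
  have he0S : CS * (e0 / η) ≤ ε ^ 2 / 16 := by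
    calc CS * (e0 / η) ≤ CS * ((ε ^ 2 * η / (16 * CS)) / η) := by
          apply mul_le_mul_of_nonneg_left _ hCS.le
          exact div_le_div_of_nonneg_right (min_le_right _ _) hη0.le
      _ = ε ^ 2 / 16 := by field_simp
  obtain ⟨N1, hTI⟩ := hTI e0 he0p he0e1
  obtain ⟨C, hC, hT2⟩ := hT2 κ e0 η hκ1 hκ2 he0p he0u hη0 (by linarith) hη2
  set e : ℝ := min (min (1 / 40) ((θ - 1 / 2) / 8)) (ε ^ 2 * e0 / (64 * C * CW)) with he
  have hep : 0 < e := lt_min (lt_min (by norm_num) (by linarith)) (by positivity)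
  have heu : e ≤ 1 / 40 := (min_le_left _ _).trans (min_le_left _ _)
  have heθ : 2 * e ≤ (θ - 1 / 2) / 4 := by
    have : e ≤ (θ - 1 / 2) / 8 := (min_le_left _ _).trans (min_le_right _ _)
    linarith
  have heW : C * (2 * (CW * (2 * e / e0))) ≤ ε ^ 2 / 16 := by
    calc C * (2 * (CW * (2 * e / e0)))
        ≤ C * (2 * (CW * (2 * (ε ^ 2 * e0 / (64 * C * CW)) / e0))) := by
          apply mul_le_mul_of_nonneg_left _ hC.le
          apply mul_le_mul_of_nonneg_left _ (by norm_num)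
          apply mul_le_mul_of_nonneg_left _ hCW.le
          apply div_le_div_of_nonneg_right _ he0p.le
          exact mul_le_mul_of_nonneg_left (min_le_right _ _) (by norm_num)
      _ = ε ^ 2 / 16 := by field_simp; norm_num
  set δ : ℝ := ε ^ 2 / (16 * C) with hδ
  have hδ0 : 0 < δ := by positivity
  obtain ⟨Q, hQ, T, t, hTQ, htC, N2, hT2⟩ := hT2 e hep heu
  obtain ⟨-, hT2mid⟩ := hT2 N2 le_rfl
  set ϖ : ℝ := ε ^ 2 / (16 * (T.card + 1) * C) with hϖ
  have hϖ0 : 0 < ϖ := by positivity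
  set G : ℕ → Multiset ℕ → ℕ → ℝ := fun N c =>
    conv (fun m => FF N (e0 / Q) c m) (lsm ((N : ℝ) ^ e0) ((N : ℝ) ^ η)) with hG
  -- the Type II sums
  have hII : ∀ c ∈ T.filter (fun c => GoodC κ (e0 / Q) e c), ∀ᶠ N : ℕ in atTop, ∀ A : ℕ,
      Adm θ N A → |t c| * ∑ a ∈ IA A, |cnt N a (G N c)| ≤ C * (ϖ * (A * N)) := by
    intro c hc
    rw [Finset.mem_filter] at hc
    by_cases ht : t c = 0
    · refine Eventually.of_forall (fun N A _ => ?_)
      rw [ht, abs_zero, zero_mul]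
      positivity
    · obtain ⟨c₁, c₂, hcc, hc2, hmid⟩ := hT2mid c hc.1 hc.2 ht
      have hq1 : ∀ i ∈ c₁, Q ≤ i := fun i hi =>
        hTQ c hc.1 i (by rw [← hcc]; exact Multiset.mem_add.2 (Or.inl hi))
      have hq2 : ∀ i ∈ c₂, Q ≤ i := fun i hi =>
        hTQ c hc.1 i (by rw [← hcc]; exact Multiset.mem_add.2 (Or.inr hi))
      obtain ⟨N₀, hN⟩ := hTII θ κ e e0 η ϖ Q c₁ c₂ (by linarith) hκ1 hθκ hep he0p he0u hη0
        (by linarith) hϖ0 hQ hq1 hq2 hc2 hmid
      rw [hcc] at hN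
      refine eventually_atTop.2 ⟨N₀, fun N hNN A hA => ?_⟩
      have h1 := hN N A hNN hA
      have h2 : ϖ * A * N = ϖ * (A * N) := by ring
      rw [h2] at h1
      exact mul_le_mul (htC c hc.1) h1 (Finset.sum_nonneg (fun _ _ => abs_nonneg _)) hC.le
  have hII' := (Filter.eventually_all_finset (T.filter (fun c => GoodC κ (e0 / Q) e c))).2 hII
  obtain ⟨N3, hWIN⟩ := hWIN e0 (2 * e) he0p he0u (by positivity) heθ
  obtain ⟨N4, hSMT⟩ := hSMT θ e0 η (by linarith) he0p he0u hη0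
  obtain ⟨N5, hNSF⟩ := hNSF θ e0 δ (by linarith) he0p hδ0
  obtain ⟨N₀, hN₀⟩ := eventually_atTop.1 (hII'.and ((BLKEM.adm_ev θ (by linarith)).and
    ((eventually_ge_atTop N1).and ((eventually_ge_atTop N2).and ((eventually_ge_atTop N3).and
      ((eventually_ge_atTop N4).and ((eventually_ge_atTop N5).and (eventually_ge_atTop 3))))))))
  refine ⟨N₀, fun N A hN hA => ?_⟩
  obtain ⟨hE2, hadm, hN1, hN2, hN3, hN4, hN5, hN3'⟩ := hN₀ N hN
  obtain ⟨-, -, -, hAN⟩ := hadm A hA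
  have hN0 : (0 : ℝ) < N := by exact_mod_cast (by omega : 0 < N)
  have hlog1 : 1 ≤ Real.log N := by
    rw [Real.le_log_iff_exp_le hN0]
    have h3 : (3 : ℝ) ≤ N := by exact_mod_cast hN3'
    have := Real.exp_one_lt_d9
    linarith
  obtain ⟨hT2a, -⟩ := hT2 N hN2
  set T' : Finset (Multiset ℕ) := T.filter (fun c => GoodC κ (e0 / Q) e c) with hT'
  set P : ℕ → ℝ := fun m => lamC N e0 η m * psiC N e0 κ m with hP
  have hT2c : ∀ m : ℕ, (N : ℝ) ^ 2 / 2 ≤ m → (m : ℝ) ≤ 5 * (N : ℝ) ^ 2 →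
      |lio m - P m - ∑ c ∈ T', t c * G N c m| ≤ errC N e0 η κ e C m := by
    intro m hm1 hm2
    have h1 := hT2a m hm1 hm2
    have h2 : |lio m - (if ((smp ((N : ℝ) ^ e0) m : ℕ) : ℝ) ≤ (N : ℝ) ^ η then lio m else 0)|
        ≤ bigs N e0 η m := by
      unfold bigs
      by_cases h : ((smp ((N : ℝ) ^ e0) m : ℕ) : ℝ) ≤ (N : ℝ) ^ η
      · rw [if_pos h, if_neg (not_lt.2 h), sub_self, abs_zero]
      · rw [if_neg h, if_pos (not_le.1 h), sub_zero]
        exact abs_lio_le m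
    set x1 := (if ((smp ((N : ℝ) ^ e0) m : ℕ) : ℝ) ≤ (N : ℝ) ^ η then lio m else 0) with hx1
    have h3 : lio m - P m - ∑ c ∈ T', t c * G N c m
        = (lio m - x1) + (x1 - lamC N e0 η m * psiC N e0 κ m - ∑ c ∈ T', t c * G N c m) := by
      simp only [hP]
      ring
    rw [h3]
    refine (abs_add_le _ _).trans ?_
    unfold errC
    exact add_le_add h2 h1
  set U : ℝ := A * N with hU
  have hU0 : 0 ≤ U := by positivity
  set f : ℤ → ℝ := fun a =>
    ∑ c ∈ T', |t c| * |cnt N a (G N c)| + cnt N a (errC N e0 η κ e C) with hf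
  have hf0 : ∀ a ∈ IA A, 0 ≤ f a := by
    intro a _
    simp only [hf]
    have h1 := BLK.cnt_nonneg (N := N) (a := a) (errC_nonneg N e0 η κ e hC.le)
    have h3 : 0 ≤ ∑ c ∈ T', |t c| * |cnt N a (G N c)| :=
      Finset.sum_nonneg (fun c _ => by positivity)
    linarith
  have hS1 : ∑ a ∈ IA A, ∑ c ∈ T', |t c| * |cnt N a (G N c)| ≤ ε ^ 2 / 16 * U := by
    rw [Finset.sum_comm]
    calc ∑ c ∈ T', ∑ a ∈ IA A, |t c| * |cnt N a (G N c)|
        ≤ ∑ c ∈ T', C * (ϖ * U) := by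
          apply Finset.sum_le_sum
          intro c hc
          rw [← Finset.mul_sum]
          exact hE2 c hc A hA
      _ = T'.card * (C * (ϖ * U)) := by rw [Finset.sum_const, nsmul_eq_mul]
      _ ≤ (T.card + 1) * (C * (ϖ * U)) := by
          apply mul_le_mul_of_nonneg_right _ (by positivity)
          have : T'.card ≤ T.card := Finset.card_filter_le _ _
          have : (T'.card : ℝ) ≤ T.card := by exact_mod_cast this
          linarith
      _ = ε ^ 2 / 16 * U := by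
          rw [hϖ]
          field_simp
  have hw1 : ∀ x ∈ ({κ, 1} : Finset ℝ), ∑ a ∈ IA A, cnt N a (rwin N e0 x (2 * e))
      ≤ CW * (2 * e / e0) * U := by
    intro x hx
    have hx' : 1 / 2 ≤ x ∧ x ≤ 1 := by
      rw [Finset.mem_insert, Finset.mem_singleton] at hx
      rcases hx with rfl | rfl
      · constructor <;> linarith
      · constructor <;> norm_num
    have h1 := hWIN N A hN3 hA x hx'.1 hx'.2
    have h2 : CW * (2 * e / e0) * A * N = CW * (2 * e / e0) * U := by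
      rw [hU]; ring
    rw [h2] at h1
    exact h1
  have hS2 : ∑ a ∈ IA A, cnt N a (errC N e0 η κ e C)
      ≤ CS * (e0 / η) * U + C * (δ * U + 2 * (CW * (2 * e / e0) * U)) := by
    have h0 : ∑ a ∈ IA A, cnt N a (errC N e0 η κ e C)
        = ∑ a ∈ IA A, cnt N a (bigs N e0 η) + C * (∑ a ∈ IA A, cnt N a (BLK.nsq N e0)
          + ∑ x ∈ ({κ, 1} : Finset ℝ), ∑ a ∈ IA A, cnt N a (rwin N e0 x (2 * e))) := by
      rw [Finset.sum_comm, ← Finset.sum_add_distrib, Finset.mul_sum, ← Finset.sum_add_distrib]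
      exact Finset.sum_congr rfl (fun a _ => cnt_errC N a e0 η κ e C)
    rw [h0]
    apply add_le_add
    · have h1 := hSMT N A hN4 hA
      have h2 : CS * (e0 / η) * A * N = CS * (e0 / η) * U := by rw [hU]; ring
      rw [h2] at h1
      exact h1
    · apply mul_le_mul_of_nonneg_left _ hC.le
      apply add_le_add
      · have h1 := hNSF N A hN5 hA
        have h2 : δ * A * N / Real.log N ≤ δ * U := by
          rw [hU]
          have h3 : δ * A * N / Real.log N ≤ δ * A * N :=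
            div_le_self (by positivity) hlog1
          linarith
        exact h1.trans h2
      · calc ∑ x ∈ ({κ, 1} : Finset ℝ), ∑ a ∈ IA A, cnt N a (rwin N e0 x (2 * e))
            ≤ ∑ x ∈ ({κ, 1} : Finset ℝ), CW * (2 * e / e0) * U := Finset.sum_le_sum hw1
          _ = (({κ, 1} : Finset ℝ).card : ℝ) * (CW * (2 * e / e0) * U) := by
              rw [Finset.sum_const, nsmul_eq_mul]
          _ ≤ 2 * (CW * (2 * e / e0) * U) := by
              apply mul_le_mul_of_nonneg_right _ (by positivity)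
              have : ({κ, 1} : Finset ℝ).card ≤ 2 := Finset.card_le_two
              exact_mod_cast this
  have hSum : ∑ a ∈ IA A, f a ≤ ε ^ 2 / 4 * U := by
    have h1 : ∑ a ∈ IA A, f a
        = ∑ a ∈ IA A, ∑ c ∈ T', |t c| * |cnt N a (G N c)|
          + ∑ a ∈ IA A, cnt N a (errC N e0 η κ e C) := by
      simp only [hf]
      rw [Finset.sum_add_distrib]
    rw [h1]
    have h3 : C * δ = ε ^ 2 / 16 := by
      rw [hδ]
      field_simp
    have h4 : CS * (e0 / η) * U + C * (δ * U + 2 * (CW * (2 * e / e0) * U))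
        = (CS * (e0 / η) + C * δ + C * (2 * (CW * (2 * e / e0)))) * U := by ring
    have h5 : (CS * (e0 / η) + C * δ + C * (2 * (CW * (2 * e / e0)))) * U
        ≤ (ε ^ 2 / 16 + ε ^ 2 / 16 + ε ^ 2 / 16) * U := by
      rw [h3]
      exact mul_le_mul_of_nonneg_right (by linarith) hU0
    linarith
  have hMk := BLK.markov (IA A) f hf0 (ε / 2 * N) (ε ^ 2 / 4 * U) (by positivity) hSum
  have hcard2 : (((IA A).filter (fun a => ε / 2 * N < f a)).card : ℝ) ≤ ε / 2 * A := by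
    have hpos : 0 < ε / 2 * (N : ℝ) := by positivity
    have h2 : ε ^ 2 / 4 * U = (ε / 2 * A) * (ε / 2 * N) := by
      rw [hU]
      ring
    rw [h2] at hMk
    exact le_of_mul_le_mul_right hMk hpos
  have hcard1 := hTI N A hN1 hA
  have hsub : (IA A).filter (fun a => ε * N < |cnt N a lio|)
      ⊆ (IA A).filter (fun a => ε / 2 * N < |cnt N a P|)
        ∪ (IA A).filter (fun a => ε / 2 * N < f a) := by
    intro a ha
    rw [Finset.mem_filter] at ha
    rw [Finset.mem_union, Finset.mem_filter, Finset.mem_filter]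
    by_contra hcon
    push Not at hcon
    obtain ⟨n1, n2⟩ := hcon
    have n1 := n1 ha.1
    have n2 := n2 ha.1
    have h3 := pointwise lio P _ T' t (G N) ha.1 hAN hT2c
    have h5 := ha.2
    simp only [hf] at n2
    linarith
  calc (((IA A).filter (fun a => ε * N < |cnt N a lio|)).card : ℝ)
      ≤ (((IA A).filter (fun a => ε / 2 * N < |cnt N a P|)
        ∪ (IA A).filter (fun a => ε / 2 * N < f a)).card : ℝ) := by
        exact_mod_cast Finset.card_le_card hsub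
    _ ≤ (((IA A).filter (fun a => ε / 2 * N < |cnt N a P|)).card : ℝ)
        + (((IA A).filter (fun a => ε / 2 * N < f a)).card : ℝ) := by
        exact_mod_cast Finset.card_union_le _ _
    _ ≤ ε / 2 * A + ε / 2 * A := add_le_add hcard1 hcard2
    _ = ε * A := by ring

end Pool.Agent.Lib.MP391708.QPA.C
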