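import Pool.Agent.Lib.MP_391708_nt.QPA.C.SpecC

/-!
# Module EQC: class sums of `FF c * λ_smooth`
-/

set_option autoImplicit false

namespace Pool.Agent.Lib.MP391708.QPA.C.EQCM

open Finset Filter Topology
open Pool.Agent.Lib.MP391708.QPA
open Pool.Agent.Lib.MP391708.QPA.H
open Pool.Agent.Lib.MP391708.QPA.C
open scoped Classical

lemma abs_lio_le (m : ℕ) : |lio m| ≤ 1 := by
  unfold lio
  rcases Nat.eq_zero_or_pos m with h | h
  · subst h; simp
  · rw [ArithmeticFunction.liouville_apply h.ne']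
    push_cast
    rw [abs_pow, abs_neg, abs_one, one_pow]

/-- hyperbola rearrangement -/
lemma conv_rearr (X : ℕ) (P : ℕ → Prop) [DecidablePred P] (f g : ℕ → ℝ) :
    ∑ u ∈ (Icc 1 X).filter P, conv f g u
      = ∑ t ∈ Icc 1 X, f t * ∑ s ∈ (Icc 1 (X / t)).filter (fun s => P (t * s)), g s := by
  unfold conv
  have h1 : ∑ u ∈ (Icc 1 X).filter P, ∑ k ∈ u.divisors, f k * g (u / k)
      = ∑ t ∈ Icc 1 X, ∑ u ∈ (Icc 1 X).filter (fun u => P u ∧ t ∣ u), f t * g (u / t) := by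
    apply sum_comm'
    intro u t
    simp only [mem_filter, mem_Icc, Nat.mem_divisors]
    constructor
    · rintro ⟨⟨⟨h1, h2⟩, h3⟩, h4, h5⟩
      exact ⟨⟨⟨h1, h2⟩, h3, h4⟩, Nat.pos_of_dvd_of_pos h4 h1, (Nat.le_of_dvd h1 h4).trans h2⟩
    · rintro ⟨⟨⟨h1, h2⟩, h3, h4⟩, h5, h6⟩
      exact ⟨⟨⟨h1, h2⟩, h3⟩, h4, by omega⟩
  rw [h1]
  refine sum_congr rfl fun t ht => ?_
  have ht1 : 1 ≤ t := (mem_Icc.1 ht).1
  rw [mul_sum]
  refine sum_nbij' (fun u => u / t) (fun s => t * s) ?_ ?_ ?_ ?_ ?_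
  · intro u hu
    simp only [mem_filter, mem_Icc] at hu ⊢
    obtain ⟨⟨h1, h2⟩, h3, h4⟩ := hu
    refine ⟨⟨Nat.div_pos (Nat.le_of_dvd h1 h4) ht1, Nat.div_le_div_right h2⟩, ?_⟩
    rwa [Nat.mul_div_cancel' h4]
  · intro s hs
    simp only [mem_filter, mem_Icc] at hs ⊢
    obtain ⟨⟨h1, h2⟩, h3⟩ := hs
    refine ⟨⟨Nat.mul_pos ht1 h1, ?_⟩, h3, Dvd.intro _ rfl⟩
    calc t * s ≤ t * (X / t) := Nat.mul_le_mul_left _ h2
      _ ≤ X := Nat.mul_div_le X t
  · intro u hu
    simp only [mem_filter, mem_Icc] at hu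
    exact Nat.mul_div_cancel' hu.2.2
  · intro s hs
    exact Nat.mul_div_cancel_left s ht1
  · intro u hu
    rfl

/-- reduction to classes -/
lemma class_red (x t r c₀ : ℕ) (hr : 1 ≤ r) (f : ℕ → ℝ) (M : ℝ)
    (hM : ∀ c₁ : ℕ, |∑ s ∈ (Icc 1 x).filter (fun s => s % r = c₁), f s| ≤ M) :
    |∑ s ∈ (Icc 1 x).filter (fun s => (t * s) % r = c₀), f s| ≤ r * M := by
  have h1 : ∑ s ∈ (Icc 1 x).filter (fun s => (t * s) % r = c₀), f s
      = ∑ c₁ ∈ (range r).filter (fun c₁ => (t * c₁) % r = c₀),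
        ∑ s ∈ (Icc 1 x).filter (fun s => s % r = c₁), f s := by
    have h2 : ∑ s ∈ (Icc 1 x).filter (fun s => (t * s) % r = c₀), f s
        = ∑ c₁ ∈ (range r).filter (fun c₁ => (t * c₁) % r = c₀),
          ∑ s ∈ ((Icc 1 x).filter (fun s => (t * s) % r = c₀)).filter (fun s => s % r = c₁), f s := by
      refine (sum_fiberwise_of_maps_to (g := fun s => s % r) ?_ _).symm
      intro s hs
      simp only [mem_filter, mem_range] at hs ⊢
      refine ⟨Nat.mod_lt _ hr, ?_⟩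
      rw [← hs.2]
      simp [Nat.mul_mod]
    rw [h2]
    refine sum_congr rfl fun c₁ hc₁ => ?_
    congr 1
    ext s
    simp only [mem_filter, mem_range, mem_Icc] at hc₁ ⊢
    constructor
    · rintro ⟨⟨h3, h4⟩, h5⟩
      exact ⟨h3, h5⟩
    · rintro ⟨h3, h5⟩
      refine ⟨⟨h3, ?_⟩, h5⟩
      rw [← hc₁.2, ← h5]
      simp [Nat.mul_mod]
  rw [h1]
  have hM0 : 0 ≤ M := (abs_nonneg _).trans (hM 0)
  calc |∑ c₁ ∈ (range r).filter (fun c₁ => (t * c₁) % r = c₀),
        ∑ s ∈ (Icc 1 x).filter (fun s => s % r = c₁), f s|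
      ≤ ∑ c₁ ∈ (range r).filter (fun c₁ => (t * c₁) % r = c₀), M :=
        (abs_sum_le_sum_abs _ _).trans (sum_le_sum fun c₁ _ => hM c₁)
    _ = (((range r).filter (fun c₁ => (t * c₁) % r = c₀)).card : ℝ) * M := by
        rw [sum_const, nsmul_eq_mul]
    _ ≤ r * M := by
        refine mul_le_mul_of_nonneg_right ?_ hM0
        have := card_filter_le (range r) (fun c₁ => (t * c₁) % r = c₀)
        rw [card_range] at this
        exact_mod_cast this

/-- the trivial bound -/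
lemma class_triv (x r c₁ : ℕ) (f : ℕ → ℝ) (hf : ∀ s, |f s| ≤ 1) :
    |∑ s ∈ (Icc 1 x).filter (fun s => s % r = c₁), f s| ≤ x := by
  calc |∑ s ∈ (Icc 1 x).filter (fun s => s % r = c₁), f s|
      ≤ ∑ s ∈ (Icc 1 x).filter (fun s => s % r = c₁), (1 : ℝ) :=
        (abs_sum_le_sum_abs _ _).trans (sum_le_sum fun s _ => hf s)
    _ = (((Icc 1 x).filter (fun s => s % r = c₁)).card : ℝ) := by rw [sum_const, nsmul_eq_mul, mul_one]
    _ ≤ x := by
        have := card_filter_le (Icc 1 x) (fun s => s % r = c₁)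
        rw [Nat.card_Icc, Nat.add_sub_cancel] at this
        exact_mod_cast this

/-- the indicator of the smooth numbers by the Möbius function on the rough numbers -/
lemma smooth_mob (z : ℝ) {s : ℕ} (hs : 1 ≤ s) :
    ∑ k ∈ s.divisors, rInd z k * (ArithmeticFunction.moebius k : ℝ) = if Smooth z s then 1 else 0 := by
  set P : Finset ℕ := s.primeFactors.filter (fun p : ℕ => z ≤ (p : ℝ)) with hP
  set t : ℕ := ∏ p ∈ P, p with ht
  have hPp : ∀ p ∈ P, p.Prime := fun p hp => Nat.prime_of_mem_primeFactors (mem_filter.1 hp).1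
  have ht0 : t ≠ 0 := (prod_pos fun p hp => (hPp p hp).pos).ne'
  have hpt : t.primeFactors = P := Nat.primeFactors_prod hPp
  have hts : t ∣ s := by
    have h1 : t ∣ ∏ p ∈ s.primeFactors, p := prod_dvd_prod_of_subset _ _ _ (filter_subset _ _)
    exact h1.trans (Nat.prod_primeFactors_dvd s)
  have hrt : ∀ k, k ∣ t → Rough z k := by
    intro k hk p hp hpk
    have : p ∈ t.primeFactors := Nat.mem_primeFactors.2 ⟨hp, hpk.trans hk, ht0⟩
    rw [hpt] at this
    exact (mem_filter.1 this).2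
  have h1 : ∑ k ∈ s.divisors, rInd z k * (ArithmeticFunction.moebius k : ℝ)
      = ∑ k ∈ t.divisors, (ArithmeticFunction.moebius k : ℝ) := by
    symm
    have hsub : t.divisors ⊆ s.divisors := Nat.divisors_subset_of_dvd (by omega) hts
    have h2 : ∑ k ∈ t.divisors, (ArithmeticFunction.moebius k : ℝ)
        = ∑ k ∈ t.divisors, rInd z k * (ArithmeticFunction.moebius k : ℝ) := by
      refine sum_congr rfl fun k hk => ?_
      unfold rInd
      rw [if_pos (hrt k (Nat.dvd_of_mem_divisors hk)), one_mul]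
    rw [h2]
    refine sum_subset hsub fun k hk hkt => ?_
    by_cases hr : Rough z k
    · by_cases hsq : Squarefree k
      · exfalso
        apply hkt
        have hks := Nat.dvd_of_mem_divisors hk
        rw [Nat.mem_divisors]
        refine ⟨?_, ht0⟩
        rw [← Nat.prod_primeFactors_of_squarefree hsq]
        refine prod_dvd_prod_of_subset _ _ _ fun p hp => ?_
        have hp1 := Nat.prime_of_mem_primeFactors hp
        have hp2 := Nat.dvd_of_mem_primeFactors hp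
        exact mem_filter.2 ⟨Nat.mem_primeFactors.2 ⟨hp1, hp2.trans hks, by omega⟩, hr p hp1 hp2⟩
      · rw [ArithmeticFunction.moebius_eq_zero_of_not_squarefree hsq]
        simp
    · unfold rInd
      rw [if_neg hr, zero_mul]
  rw [h1]
  have h3 : ∑ k ∈ t.divisors, (ArithmeticFunction.moebius k : ℝ) = if t = 1 then 1 else 0 := by
    have h4 := congrArg (fun f : ArithmeticFunction ℤ => f t) ArithmeticFunction.moebius_mul_coe_zeta
    simp only [ArithmeticFunction.one_apply] at h4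
    rw [ArithmeticFunction.coe_mul_zeta_apply] at h4
    have h5 : ((∑ k ∈ t.divisors, ArithmeticFunction.moebius k : ℤ) : ℝ) = ((if t = 1 then 1 else 0 : ℤ) : ℝ) := by
      rw [h4]
    push_cast at h5
    rw [h5]
  rw [h3]
  by_cases hsm : Smooth z s
  · rw [if_pos hsm]
    have : P = ∅ := by
      rw [hP, filter_eq_empty_iff]
      intro p hp
      rw [not_le]
      exact hsm p (Nat.prime_of_mem_primeFactors hp) (Nat.dvd_of_mem_primeFactors hp)
    rw [if_pos (by rw [ht, this, prod_empty])]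
  · rw [if_neg hsm, if_neg]
    intro h
    apply hsm
    intro p hp hps
    by_contra hlt
    rw [not_lt] at hlt
    have hpP : p ∈ P := mem_filter.2 ⟨Nat.mem_primeFactors.2 ⟨hp, hps, by omega⟩, hlt⟩
    have : p ∣ t := dvd_prod_of_mem _ hpP
    rw [h] at this
    exact hp.one_lt.ne' (Nat.dvd_one.1 this)

/-- `λ` on the smooth numbers -/
noncomputable def sm (z : ℝ) (s : ℕ) : ℝ := if Smooth z s then lio s else 0

/-- the rough coefficients -/
noncomputable def fr (z : ℝ) (k : ℕ) : ℝ := rInd z k * (ArithmeticFunction.moebius k : ℝ) * lio k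

lemma rInd_nonneg (z : ℝ) (m : ℕ) : 0 ≤ rInd z m := by
  unfold rInd; split_ifs <;> norm_num

lemma abs_fr_le (z : ℝ) (k : ℕ) : |fr z k| ≤ rInd z k := by
  unfold fr
  rw [abs_mul, abs_mul, abs_of_nonneg (rInd_nonneg z k)]
  have h1 : |(ArithmeticFunction.moebius k : ℝ)| ≤ 1 := by
    have := ArithmeticFunction.abs_moebius_le_one (n := k)
    exact_mod_cast this
  have h2 := abs_lio_le k
  have h3 := rInd_nonneg z k
  calc rInd z k * |(ArithmeticFunction.moebius k : ℝ)| * |lio k| ≤ rInd z k * 1 * 1 := by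
        gcongr
    _ = rInd z k := by ring

lemma lio_mul (a b : ℕ) : lio (a * b) = lio a * lio b := by
  unfold lio
  rcases Nat.eq_zero_or_pos a with h | h
  · subst h; simp
  rcases Nat.eq_zero_or_pos b with h' | h'
  · subst h'; simp
  rw [ArithmeticFunction.liouville_apply (Nat.mul_pos h h').ne', ArithmeticFunction.liouville_apply h.ne',
    ArithmeticFunction.liouville_apply h'.ne', ArithmeticFunction.cardFactors_mul h.ne' h'.ne', pow_add]
  push_cast
  ring

lemma sm_eq (z : ℝ) {s : ℕ} (hs : 1 ≤ s) : sm z s = conv (fr z) lio s := by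
  have h := smooth_mob z hs
  unfold sm conv fr
  have h1 : ∀ k ∈ s.divisors, rInd z k * (ArithmeticFunction.moebius k : ℝ) * lio k * lio (s / k)
      = rInd z k * (ArithmeticFunction.moebius k : ℝ) * lio s := by
    intro k hk
    rw [mul_assoc _ (lio k), ← lio_mul, Nat.mul_div_cancel' (Nat.dvd_of_mem_divisors hk)]
  rw [sum_congr rfl h1, ← sum_mul, h]
  split_ifs <;> ring

lemma gen {z C B R δ X₀ : ℝ} {y : ℕ} (w I : ℕ → ℝ) (hC : 0 < C)
    (hRS : ∀ (z X₁ X₂ : ℝ), 2 ≤ z → z ≤ X₁ → X₁ ≤ X₂ →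
      ∑ k ∈ Icc ⌈X₁⌉₊ ⌊X₂⌋₊, rInd z k / (k : ℝ) ≤ C * (Real.log (X₂ / X₁) + 1) / Real.log z)
    (hz : 2 ≤ z) (hB : 0 ≤ B) (hR : 0 ≤ R) (hδ : 0 ≤ δ) (hX₀ : 1 ≤ X₀)
    (hw : ∀ k, |w k| ≤ B * rInd z k) (hw1 : ∀ k, w k ≠ 0 → z ≤ (k : ℝ))
    (hI1 : ∀ k ∈ Icc 1 y, X₀ ≤ ((y / k : ℕ) : ℝ) → |I k| ≤ R * (δ * ((y : ℝ) / k)))
    (hI2 : ∀ k ∈ Icc 1 y, |I k| ≤ R * ((y : ℝ) / k)) :
    |∑ k ∈ Icc 1 y, w k * I k|
      ≤ B * R * y * (C * (δ * ((Real.log (max 1 (y : ℝ)) + 1) / Real.log z)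
        + (Real.log (2 * X₀) + 1) / Real.log z)) := by
  have hlz : 0 < Real.log z := Real.log_pos (by linarith)
  have hly : 0 ≤ Real.log (max 1 (y : ℝ)) := Real.log_nonneg (le_max_left _ _)
  have hlX : 0 ≤ Real.log (2 * X₀) := Real.log_nonneg (by linarith)
  by_cases hyz : (y : ℝ) < z
  · have : ∑ k ∈ Icc 1 y, w k * I k = 0 := by
      refine sum_eq_zero fun k hk => ?_
      have : w k = 0 := by
        by_contra h
        have h1 := hw1 k h
        have h2 : (k : ℝ) ≤ y := by exact_mod_cast (mem_Icc.1 hk).2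
        linarith
      rw [this, zero_mul]
    rw [this, abs_zero]
    positivity
  rw [not_lt] at hyz
  have hy0 : (0 : ℝ) < y := by linarith
  set X₁ : ℝ := max z ((y : ℝ) / (2 * X₀)) with hX₁
  have hX₁z : z ≤ X₁ := le_max_left _ _
  have hX₁y : X₁ ≤ y := by
    apply max_le hyz
    exact div_le_self hy0.le (by linarith)
  have hS1 := hRS z z y hz le_rfl hyz
  have hS2 := hRS z X₁ y hz hX₁z hX₁y
  rw [Nat.floor_natCast] at hS1 hS2
  have hpt : ∀ k ∈ Icc 1 y, |w k * I k| ≤ B * R * y * (δ * (if ⌈z⌉₊ ≤ k then rInd z k / k else 0)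
      + (if ⌈X₁⌉₊ ≤ k then rInd z k / k else 0)) := by
    intro k hk
    have hk1 : 1 ≤ k := (mem_Icc.1 hk).1
    have hk0 : (0 : ℝ) < k := by exact_mod_cast hk1
    have hr0 : 0 ≤ rInd z k := by unfold rInd; split_ifs <;> norm_num
    by_cases hwk : w k = 0
    · rw [hwk, zero_mul, abs_zero]
      have : 0 ≤ rInd z k / (k : ℝ) := by positivity
      have h1 : (0 : ℝ) ≤ (if ⌈z⌉₊ ≤ k then rInd z k / k else 0) := by split_ifs <;> [exact this; exact le_rfl]
      have h2 : (0 : ℝ) ≤ (if ⌈X₁⌉₊ ≤ k then rInd z k / k else 0) := by split_ifs <;> [exact this; exact le_rfl]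
      positivity
    have hzk := hw1 k hwk
    rw [if_pos (Nat.ceil_le.2 hzk), abs_mul]
    by_cases hx : X₀ ≤ ((y / k : ℕ) : ℝ)
    · have h1 := hI1 k hk hx
      have h2 : (0 : ℝ) ≤ (if ⌈X₁⌉₊ ≤ k then rInd z k / k else 0) := by split_ifs <;> positivity
      calc |w k| * |I k| ≤ (B * rInd z k) * (R * (δ * ((y : ℝ) / k))) :=
            mul_le_mul (hw k) h1 (abs_nonneg _) (by positivity)
        _ = B * R * y * (δ * (rInd z k / k) + 0) := by ring
        _ ≤ _ := by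
            apply mul_le_mul_of_nonneg_left _ (by positivity)
            linarith
    · rw [not_le] at hx
      have h3 : (y : ℝ) / k < 2 * X₀ := by
        have h4 : (y : ℝ) / k < ((y / k : ℕ) : ℝ) + 1 := by
          rw [div_lt_iff₀ hk0]
          have h5 : y < (y / k + 1) * k := by
            have := Nat.lt_div_mul_add (a := y) hk1
            rw [add_mul, one_mul]
            exact this
          exact_mod_cast h5
        linarith
      have h6 : (y : ℝ) / (2 * X₀) ≤ k := by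
        rw [div_le_iff₀ (by linarith)]
        rw [div_lt_iff₀ hk0] at h3
        linarith
      have h7 : X₁ ≤ k := max_le hzk h6
      rw [if_pos (Nat.ceil_le.2 h7)]
      calc |w k| * |I k| ≤ (B * rInd z k) * (R * ((y : ℝ) / k)) :=
            mul_le_mul (hw k) (hI2 k hk) (abs_nonneg _) (by positivity)
        _ = B * R * y * (0 + rInd z k / k) := by ring
        _ ≤ _ := by
            apply mul_le_mul_of_nonneg_left _ (by positivity)
            have : 0 ≤ δ * (rInd z k / k) := by positivity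
            linarith
  have hfil : ∀ m : ℕ, 1 ≤ m → ∑ k ∈ Icc 1 y, (if m ≤ k then rInd z k / (k : ℝ) else 0)
      = ∑ k ∈ Icc m y, rInd z k / (k : ℝ) := by
    intro m hm
    rw [← sum_filter]
    congr 1
    ext k
    simp only [mem_filter, mem_Icc]
    omega
  have hcz : 1 ≤ ⌈z⌉₊ := Nat.one_le_ceil_iff.2 (by linarith)
  have hcX : 1 ≤ ⌈X₁⌉₊ := Nat.one_le_ceil_iff.2 (by linarith)
  calc |∑ k ∈ Icc 1 y, w k * I k| ≤ ∑ k ∈ Icc 1 y, |w k * I k| := abs_sum_le_sum_abs _ _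
    _ ≤ ∑ k ∈ Icc 1 y, B * R * y * (δ * (if ⌈z⌉₊ ≤ k then rInd z k / k else 0)
      + (if ⌈X₁⌉₊ ≤ k then rInd z k / k else 0)) := sum_le_sum hpt
    _ = B * R * y * (δ * ∑ k ∈ Icc ⌈z⌉₊ y, rInd z k / (k : ℝ) + ∑ k ∈ Icc ⌈X₁⌉₊ y, rInd z k / (k : ℝ)) := by
        rw [← mul_sum, sum_add_distrib, ← mul_sum, hfil _ hcz, hfil _ hcX]
    _ ≤ B * R * y * (δ * (C * (Real.log (max 1 (y : ℝ)) + 1) / Real.log z)
          + C * (Real.log (2 * X₀) + 1) / Real.log z) := by
        apply mul_le_mul_of_nonneg_left _ (by positivity)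
        apply add_le_add
        · apply mul_le_mul_of_nonneg_left _ hδ
          refine hS1.trans ?_
          apply div_le_div_of_nonneg_right _ hlz.le
          apply mul_le_mul_of_nonneg_left _ hC.le
          have : Real.log ((y : ℝ) / z) ≤ Real.log (max 1 (y : ℝ)) := by
            apply Real.log_le_log (by positivity)
            calc (y : ℝ) / z ≤ y := div_le_self hy0.le (by linarith)
              _ ≤ _ := le_max_right _ _
          linarith
        · refine hS2.trans ?_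
          apply div_le_div_of_nonneg_right _ hlz.le
          apply mul_le_mul_of_nonneg_left _ hC.le
          have hX₁0 : 0 < X₁ := by linarith
          have : Real.log ((y : ℝ) / X₁) ≤ Real.log (2 * X₀) := by
            apply Real.log_le_log (by positivity)
            rw [div_le_iff₀ hX₁0]
            have : (y : ℝ) / (2 * X₀) ≤ X₁ := le_max_right _ _
            rw [div_le_iff₀ (by linarith)] at this
            linarith
          linarith
    _ = _ := by ring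

/-- LAMX for all small moduli at once -/
lemma lamx (hLAMX : SpecLAMX) (R : ℕ) {δ : ℝ} (hδ : 0 < δ) : ∃ X₀ : ℕ, 1 ≤ X₀ ∧ ∀ r c X : ℕ, 1 ≤ r → r ≤ R →
    X₀ ≤ X → |∑ u ∈ (Icc 1 X).filter (fun u => u % r = c), lio u| ≤ δ * X := by
  have h1 : ∀ᶠ X : ℕ in atTop, ∀ r ∈ Icc 1 R, ∀ c ∈ range R,
      |∑ u ∈ (Icc 1 X).filter (fun u => u % r = c), lio u| ≤ δ * X := by
    rw [Filter.eventually_all_finset]
    intro r hr
    rw [Filter.eventually_all_finset]
    intro c _
    obtain ⟨X₀, h⟩ := hLAMX r c δ (mem_Icc.1 hr).1 hδ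
    exact eventually_atTop.2 ⟨X₀, h⟩
  obtain ⟨X₀, h⟩ := eventually_atTop.1 h1
  refine ⟨max X₀ 1, le_max_right _ _, fun r c X hr1 hr2 hX => ?_⟩
  by_cases hc : c < r
  · exact h X ((le_max_left _ _).trans hX) r (mem_Icc.2 ⟨hr1, hr2⟩) c (mem_range.2 (by omega))
  · have : (Icc 1 X).filter (fun u => u % r = c) = ∅ := by
      rw [filter_eq_empty_iff]
      intro u _ hu
      exact hc (hu ▸ Nat.mod_lt _ hr1)
    rw [this, sum_empty, abs_zero]
    positivity

lemma ev_logz {e0 : ℝ} (he0 : 0 < e0) (M : ℝ) : ∀ᶠ N : ℕ in atTop, M ≤ Real.log ((N : ℝ) ^ e0) := by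
  have h1 : Tendsto (fun N : ℕ => e0 * Real.log (N : ℝ)) atTop atTop :=
    (Real.tendsto_log_atTop.comp tendsto_natCast_atTop_atTop).const_mul_atTop he0
  filter_upwards [h1.eventually_ge_atTop M, eventually_ge_atTop 1] with N hN hN1
  rw [Real.log_rpow (by exact_mod_cast hN1)]
  exact hN

lemma two_le_of_log {z : ℝ} (hz : 0 < z) (h : 1 ≤ Real.log z) : 2 ≤ z := by
  have h1 := Real.add_one_le_exp (Real.log z)
  rw [Real.exp_log hz] at h1
  linarith

/-- class sums of `λ` on the smooth numbers -/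
lemma smsum (hLAMX : SpecLAMX) (hRSUM : SpecRSUM) (R : ℕ) {δ e0 η : ℝ} (hδ : 0 < δ) (he0 : 0 < e0) (hη : 0 < η) :
    ∃ X₁ : ℕ, 1 ≤ X₁ ∧ ∃ N₀ : ℕ, ∀ N : ℕ, N₀ ≤ N → ∀ r c y : ℕ, 1 ≤ r → r ≤ R → X₁ ≤ y →
      (y : ℝ) ≤ (N : ℝ) ^ η →
      |∑ s ∈ (Icc 1 y).filter (fun s => s % r = c), sm ((N : ℝ) ^ e0) s| ≤ δ * y := by
  obtain ⟨C, hC, hRS⟩ := hRSUM
  set D : ℝ := (R + 1) * (C * (η / e0 + 1) + 1) with hD
  have hD0 : 0 < D := by positivity
  set δ' : ℝ := δ / (2 * D) with hδ'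
  have hδ'0 : 0 < δ' := by positivity
  obtain ⟨X₀, hX₀, hL⟩ := lamx hLAMX R hδ'0
  set M : ℝ := max 1 (2 * (R + 1) * C * (Real.log (2 * X₀) + 1) / δ) with hM
  obtain ⟨N₀, hN₀⟩ := eventually_atTop.1 (ev_logz he0 M)
  refine ⟨X₀, hX₀, max N₀ 1, fun N hN r c y hr1 hr2 hy1 hy2 => ?_⟩
  have hN1 : 1 ≤ N := (le_max_right _ _).trans hN
  have hNR : (1 : ℝ) ≤ N := by exact_mod_cast hN1
  set z : ℝ := (N : ℝ) ^ e0 with hz
  have hz0 : 0 < z := by positivity
  have hlz := hN₀ N ((le_max_left _ _).trans hN)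
  have hlz1 : 1 ≤ Real.log z := (le_max_left _ _).trans hlz
  have hlz0 : 0 < Real.log z := by linarith
  have hz2 : 2 ≤ z := two_le_of_log hz0 hlz1
  have hy0 : (1 : ℝ) ≤ y := by exact_mod_cast hX₀.trans hy1
  have hX₀R : (1 : ℝ) ≤ X₀ := by exact_mod_cast hX₀
  have hrR : (r : ℝ) ≤ R + 1 := by
    have : (r : ℝ) ≤ R := by exact_mod_cast hr2
    linarith
  set I : ℕ → ℝ := fun k => ∑ s ∈ (Icc 1 (y / k)).filter (fun s => (k * s) % r = c), lio s with hI
  have hIM : ∀ (k : ℕ) (M : ℝ), (∀ c₁ : ℕ, |∑ s ∈ (Icc 1 (y / k)).filter (fun s => s % r = c₁), lio s| ≤ M) →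
      |I k| ≤ r * M := fun k M h => class_red (y / k) k r c hr1 lio M h
  have hdiv : ∀ k : ℕ, ((y / k : ℕ) : ℝ) ≤ (y : ℝ) / k := fun k => Nat.cast_div_le
  have e1 : ∑ s ∈ (Icc 1 y).filter (fun s => s % r = c), sm z s
      = ∑ k ∈ Icc 1 y, fr z k * I k := by
    have h0 := conv_rearr y (fun s => s % r = c) (fr z) lio
    rw [hI]
    simp only []
    refine Eq.trans ?_ h0
    refine sum_congr rfl fun s hs => ?_
    exact sm_eq z (mem_Icc.1 (mem_filter.1 hs).1).1
  set w : ℕ → ℝ := fun k => if k = 1 then 0 else fr z k with hw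
  have e2 : ∑ k ∈ Icc 1 y, fr z k * I k = fr z 1 * I 1 + ∑ k ∈ Icc 1 y, w k * I k := by
    have h1 : (1 : ℕ) ∈ Icc 1 y := mem_Icc.2 ⟨le_rfl, hX₀.trans hy1⟩
    rw [← add_sum_erase _ _ h1, ← add_sum_erase (Icc 1 y) (fun k => w k * I k) h1]
    have h2 : w 1 = 0 := by simp [hw]
    rw [h2, zero_mul, zero_add]
    congr 1
    refine sum_congr rfl fun k hk => ?_
    have : k ≠ 1 := (mem_erase.1 hk).1
    simp [hw, this]
  have hg := gen (z := z) (C := C) (B := 1) (R := (r : ℝ)) (δ := δ') (X₀ := X₀) (y := y) w I hC hRS hz2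
    zero_le_one (by positivity) hδ'0.le hX₀R
    (fun k => by
      rw [one_mul, hw]
      simp only []
      split_ifs
      · rw [abs_zero]; exact rInd_nonneg z k
      · exact abs_fr_le z k)
    (fun k hk => by
      rw [hw] at hk
      simp only [] at hk
      by_cases h1 : k = 1
      · rw [if_pos h1] at hk
        exact absurd rfl hk
      · rw [if_neg h1] at hk
        by_cases h0 : k = 0
        · exfalso; apply hk
          rw [h0]; simp [fr]
        have hr : Rough z k := by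
          by_contra h
          apply hk
          simp [fr, rInd, h]
        have h3 : z ≤ ((k.minFac : ℕ) : ℝ) := hr _ (Nat.minFac_prime h1) (Nat.minFac_dvd k)
        have h4 : ((k.minFac : ℕ) : ℝ) ≤ k := by exact_mod_cast Nat.minFac_le (by omega)
        linarith)
    (fun k hk hx => by
      refine (hIM k (δ' * ((y / k : ℕ) : ℝ)) fun c₁ => hL r c₁ _ hr1 hr2 (by exact_mod_cast hx)).trans ?_
      apply mul_le_mul_of_nonneg_left _ (by positivity)
      exact mul_le_mul_of_nonneg_left (hdiv k) hδ'0.le)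
    (fun k hk => by
      refine (hIM k (((y / k : ℕ) : ℝ)) fun c₁ => class_triv _ r c₁ lio abs_lio_le).trans ?_
      apply mul_le_mul_of_nonneg_left (hdiv k) (by positivity))
  have h1 : |fr z 1 * I 1| ≤ r * (δ' * y) := by
    rw [abs_mul]
    have h2 : |fr z 1| ≤ 1 := (abs_fr_le z 1).trans (by unfold rInd; split_ifs <;> norm_num)
    have h3 : |I 1| ≤ r * (δ' * y) := by
      have := hIM 1 (δ' * ((y / 1 : ℕ) : ℝ)) fun c₁ => hL r c₁ _ hr1 hr2 (by rw [Nat.div_one]; exact hy1)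
      rwa [Nat.div_one] at this
    calc |fr z 1| * |I 1| ≤ 1 * (r * (δ' * y)) := mul_le_mul h2 h3 (abs_nonneg _) zero_le_one
      _ = _ := one_mul _
  rw [e1, e2]
  have hly : Real.log (max 1 (y : ℝ)) ≤ η / e0 * Real.log z := by
    rw [max_eq_right hy0]
    calc Real.log y ≤ Real.log ((N : ℝ) ^ η) := Real.log_le_log (by linarith) hy2
      _ = η * Real.log N := Real.log_rpow (by linarith) _
      _ = η / e0 * Real.log z := by
        rw [hz, Real.log_rpow (by linarith)]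
        field_simp
  have hq1 : (Real.log (max 1 (y : ℝ)) + 1) / Real.log z ≤ η / e0 + 1 := by
    rw [div_le_iff₀ hlz0]
    nlinarith
  have hq2 : (Real.log (2 * X₀) + 1) / Real.log z ≤ δ / (2 * (R + 1) * C) := by
    have h2 : 2 * (R + 1) * C * (Real.log (2 * X₀) + 1) / δ ≤ Real.log z := (le_max_right _ _).trans hlz
    rw [div_le_iff₀ hδ] at h2
    rw [div_le_div_iff₀ hlz0 (by positivity)]
    linarith
  calc |fr z 1 * I 1 + ∑ k ∈ Icc 1 y, w k * I k|
      ≤ r * (δ' * y) + 1 * r * y * (C * (δ' * ((Real.log (max 1 (y : ℝ)) + 1) / Real.log z)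
        + (Real.log (2 * X₀) + 1) / Real.log z)) := (abs_add_le _ _).trans (add_le_add h1 hg)
    _ ≤ (R + 1) * (δ' * y) + (R + 1) * y * (C * (δ' * (η / e0 + 1)
        + δ / (2 * (R + 1) * C))) := by
        rw [one_mul]
        have hlz' : 0 ≤ (Real.log (max 1 (y : ℝ)) + 1) / Real.log z := by
          have := Real.log_nonneg (le_max_left 1 (y : ℝ))
          positivity
        have hlX' : 0 ≤ (Real.log (2 * X₀) + 1) / Real.log z := by
          have := Real.log_nonneg (by linarith : (1 : ℝ) ≤ 2 * X₀)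
          positivity
        gcongr
    _ = y * (δ' * D + δ / 2) := by
        rw [hD]
        field_simp
        ring
    _ = δ * y := by
        rw [hδ']
        field_simp
        ring

lemma abs_lsm_le (z S : ℝ) (s : ℕ) : |lsm z S s| ≤ 1 := by
  unfold lsm
  split_ifs
  · exact abs_lio_le s
  · simp

lemma sum_ge_of_mem {Q : ℕ} {c : Multiset ℕ} (hc : c ≠ 0) (h : ∀ i ∈ c, Q ≤ i) : Q ≤ c.sum := by
  obtain ⟨i, hi⟩ := Multiset.exists_mem_of_ne_zero hc
  exact (h i hi).trans (Multiset.single_le_sum (fun _ _ => Nat.zero_le _) i hi)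

lemma lsm_class (z S : ℝ) (hS : 0 ≤ S) (x r c₁ : ℕ) :
    ∑ s ∈ (Icc 1 x).filter (fun s => s % r = c₁), lsm z S s
      = ∑ s ∈ (Icc 1 (min x ⌊S⌋₊)).filter (fun s => s % r = c₁), sm z s := by
  have h1 : ∑ s ∈ (Icc 1 x).filter (fun s => s % r = c₁), lsm z S s
      = ∑ s ∈ ((Icc 1 x).filter (fun s => s % r = c₁)).filter (fun s => s ≤ ⌊S⌋₊), sm z s := by
    rw [sum_filter (fun s => s ≤ ⌊S⌋₊)]
    refine sum_congr rfl fun s hs => ?_
    have hs1 : 1 ≤ s := (mem_Icc.1 (mem_filter.1 hs).1).1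
    unfold lsm sm
    by_cases h2 : (s : ℝ) ≤ S
    · rw [if_pos (Nat.le_floor h2)]
      by_cases h3 : Smooth z s
      · rw [if_pos ⟨hs1, h2, h3⟩, if_pos h3]
      · rw [if_neg (fun h => h3 h.2.2), if_neg h3]
    · rw [if_neg (fun h => h2 h.2.1), if_neg (fun h => h2 ((Nat.le_floor_iff hS).1 h))]
  rw [h1]
  congr 1
  ext s
  simp only [mem_filter, mem_Icc, le_min_iff]
  tauto

end Pool.Agent.Lib.MP391708.QPA.C.EQCM

namespace Pool.Agent.Lib.MP391708.QPA.C

open Finset Filter Topology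
open Pool.Agent.Lib.MP391708.QPA
open Pool.Agent.Lib.MP391708.QPA.H
open scoped Classical

theorem specEQC (hLAMX : SpecLAMX) (hRSUM : SpecRSUM) (hFFB : SpecFFB) : SpecEQC := by
  intro e0 η κ Q c he0 he0' hη hη' hκ hQ hc hcQ R
  obtain ⟨C, hC, hRS⟩ := hRSUM
  set CF : ℝ := ((Multiset.card c).factorial : ℝ) with hCF
  have hCF1 : 1 ≤ CF := by
    rw [hCF]
    exact_mod_cast Nat.factorial_pos _
  set D : ℝ := CF * (R + 1) * (C * (3 / e0 + 1)) with hD
  have hD0 : 0 < D := by positivity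
  set δ : ℝ := κ / (2 * D) with hδ
  have hδ0 : 0 < δ := by positivity
  obtain ⟨X₁, hX₁, N₁, hsm⟩ := EQCM.smsum hLAMX ⟨C, hC, hRS⟩ R hδ0 he0 hη
  set M : ℝ := max 1 (2 * CF * (R + 1) * C * (Real.log (2 * X₁) + 1) / κ) with hM
  have hev : ∀ᶠ N : ℕ in atTop, 2 ≤ N ∧ N₁ ≤ N ∧ M ≤ Real.log ((N : ℝ) ^ e0) ∧ (X₁ : ℝ) ≤ (N : ℝ) ^ η := by
    have h1 : Tendsto (fun N : ℕ => (N : ℝ) ^ η) atTop atTop :=
      (tendsto_rpow_atTop hη).comp tendsto_natCast_atTop_atTop
    filter_upwards [eventually_ge_atTop 2, eventually_ge_atTop N₁, EQCM.ev_logz he0 M,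
      h1.eventually_ge_atTop (X₁ : ℝ)] with N a1 a2 a3 a4
    exact ⟨a1, a2, a3, a4⟩
  obtain ⟨N₀, hN₀⟩ := eventually_atTop.1 hev
  refine ⟨N₀, fun N hN r c₀ X hr1 hr2 hX1 hX2 => ?_⟩
  obtain ⟨hN2, hN1, hlz, hXη⟩ := hN₀ N hN
  have hNR : (2 : ℝ) ≤ N := by exact_mod_cast hN2
  set z : ℝ := (N : ℝ) ^ e0 with hz
  set S : ℝ := (N : ℝ) ^ η with hS
  have hS0 : 0 ≤ S := by positivity
  have hz0 : 0 < z := by positivity
  have hlz1 : 1 ≤ Real.log z := (le_max_left _ _).trans hlz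
  have hlz0 : 0 < Real.log z := by linarith
  have hz2 : 2 ≤ z := EQCM.two_le_of_log hz0 hlz1
  have hX₁R : (1 : ℝ) ≤ X₁ := by exact_mod_cast hX₁
  have hX0 : (2 : ℝ) ≤ X := by
    have : (N : ℝ) ≤ X := by exact_mod_cast hX1
    linarith
  have hrR : (r : ℝ) ≤ R + 1 := by
    have : (r : ℝ) ≤ R := by exact_mod_cast hr2
    linarith
  have hQ0 : (0 : ℝ) < Q := by exact_mod_cast hQ
  have he2 : 0 < e0 / Q := by positivity
  have hQe : e0 / Q * Q = e0 := by field_simp
  set F : ℕ → ℝ := fun m => FF N (e0 / Q) c m with hF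
  have hFw : ∀ t, |F t| ≤ CF * rInd z t := by
    intro t
    obtain ⟨b1, b2, b3⟩ := hFFB N (e0 / Q) c t hN2 he2
    by_cases h : F t = 0
    · rw [h, abs_zero]
      have := EQCM.rInd_nonneg z t
      positivity
    · have hr : Rough z t := by
        have := (b3 h).2.2.2.2 Q hcQ
        rwa [hQe] at this
      have h1 : rInd z t = 1 := by unfold rInd; rw [if_pos hr]
      rw [h1, mul_one, abs_of_nonneg b1]
      exact b2
  have hFz : ∀ t, F t ≠ 0 → z ≤ (t : ℝ) := by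
    intro t h
    obtain ⟨b1, b2, b3⟩ := hFFB N (e0 / Q) c t hN2 he2
    refine le_trans ?_ (b3 h).2.1
    rw [hz]
    apply Real.rpow_le_rpow_of_exponent_le (by linarith)
    have h1 : (Q : ℝ) ≤ c.sum := by exact_mod_cast EQCM.sum_ge_of_mem hc hcQ
    calc e0 = e0 / Q * Q := hQe.symm
      _ ≤ e0 / Q * c.sum := mul_le_mul_of_nonneg_left h1 he2.le
  set I : ℕ → ℝ := fun t => ∑ s ∈ (Icc 1 (X / t)).filter (fun s => (t * s) % r = c₀), lsm z S s with hI
  have e1 : ∑ u ∈ (Icc 1 X).filter (fun u => u % r = c₀), conv F (lsm z S) u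
      = ∑ t ∈ Icc 1 X, F t * I t := by
    exact EQCM.conv_rearr X (fun s => s % r = c₀) F (lsm z S)
  have hIM : ∀ (k : ℕ) (M : ℝ), (∀ c₁ : ℕ, |∑ s ∈ (Icc 1 (X / k)).filter (fun s => s % r = c₁),
      lsm z S s| ≤ M) → |I k| ≤ r * M := fun k M h => EQCM.class_red (X / k) k r c₀ hr1 _ M h
  have hdiv : ∀ k : ℕ, ((X / k : ℕ) : ℝ) ≤ (X : ℝ) / k := fun k => Nat.cast_div_le
  have hcl : ∀ x c₁ : ℕ, X₁ ≤ x → |∑ s ∈ (Icc 1 x).filter (fun s => s % r = c₁), lsm z S s| ≤ δ * x := by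
    intro x c₁ hx
    rw [EQCM.lsm_class z S hS0]
    have hfl : X₁ ≤ ⌊S⌋₊ := Nat.le_floor hXη
    have h1 := hsm N hN1 r c₁ (min x ⌊S⌋₊) hr1 hr2 (le_min hx hfl) (by
      have h2 : ((min x ⌊S⌋₊ : ℕ) : ℝ) ≤ (⌊S⌋₊ : ℝ) := by exact_mod_cast min_le_right _ _
      exact h2.trans (Nat.floor_le hS0))
    refine h1.trans (mul_le_mul_of_nonneg_left ?_ hδ0.le)
    exact_mod_cast min_le_left _ _
  have hg := EQCM.gen (z := z) (C := C) (B := CF) (R := (r : ℝ)) (δ := δ) (X₀ := X₁) (y := X) F I hC hRS hz2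
    (by positivity) (by positivity) hδ0.le hX₁R hFw hFz
    (fun k hk hx => by
      refine (hIM k (δ * ((X / k : ℕ) : ℝ)) fun c₁ => hcl _ c₁ (by exact_mod_cast hx)).trans ?_
      apply mul_le_mul_of_nonneg_left _ (by positivity)
      exact mul_le_mul_of_nonneg_left (hdiv k) hδ0.le)
    (fun k hk => by
      refine (hIM k (((X / k : ℕ) : ℝ)) fun c₁ => EQCM.class_triv _ r c₁ _ (EQCM.abs_lsm_le z S)).trans ?_
      apply mul_le_mul_of_nonneg_left (hdiv k) (by positivity))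
  rw [e1]
  refine hg.trans ?_
  have hly : Real.log (max 1 (X : ℝ)) ≤ 3 / e0 * Real.log z := by
    rw [max_eq_right (by linarith)]
    calc Real.log X ≤ Real.log ((N : ℝ) ^ 3) := Real.log_le_log (by linarith) hX2
      _ = 3 * Real.log N := by rw [Real.log_pow]; norm_num
      _ = 3 / e0 * Real.log z := by
        rw [hz, Real.log_rpow (by linarith)]
        field_simp
  have hq1 : (Real.log (max 1 (X : ℝ)) + 1) / Real.log z ≤ 3 / e0 + 1 := by
    rw [div_le_iff₀ hlz0]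
    nlinarith
  have hq2 : (Real.log (2 * X₁) + 1) / Real.log z ≤ κ / (2 * CF * (R + 1) * C) := by
    have h2 : 2 * CF * (R + 1) * C * (Real.log (2 * X₁) + 1) / κ ≤ Real.log z := (le_max_right _ _).trans hlz
    rw [div_le_iff₀ hκ] at h2
    rw [div_le_div_iff₀ hlz0 (by positivity)]
    linarith
  have hlz' : 0 ≤ (Real.log (max 1 (X : ℝ)) + 1) / Real.log z := by
    have := Real.log_nonneg (le_max_left 1 (X : ℝ))
    positivity
  have hlX' : 0 ≤ (Real.log (2 * X₁) + 1) / Real.log z := by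
    have := Real.log_nonneg (by linarith : (1 : ℝ) ≤ 2 * X₁)
    positivity
  calc CF * r * X * (C * (δ * ((Real.log (max 1 (X : ℝ)) + 1) / Real.log z)
        + (Real.log (2 * X₁) + 1) / Real.log z))
      ≤ CF * (R + 1) * X * (C * (δ * (3 / e0 + 1) + κ / (2 * CF * (R + 1) * C))) := by
        gcongr
    _ = X * (δ * D + κ / 2) := by
        rw [hD]
        field_simp
    _ = κ * X := by
        rw [hδ]
        field_simp
        ring

end Pool.Agent.Lib.MP391708.QPA.C
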