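import Pool.Agent.Lib.MP_391708_nt.QPA.C.SpecC

/-!
# FINC: from the blocks `(M, 2M]` to all partial sums of the Liouville function at `n² + a`
-/

set_option autoImplicit false

namespace Pool.Agent.Lib.MP391708.QPA.C

open Finset Filter Topology
open Pool.Agent.Lib.MP391708.QPA
open Pool.Agent.Lib.MP391708.QPA.H
open scoped Classical

/-- FINC, uniform in the length `M ≤ N` of the sum -/
def SpecFINCU : Prop := ∀ θ ε : ℝ, 5 / 6 < θ → 0 < ε → ∃ N₀ : ℕ, ∀ N A : ℕ, N₀ ≤ N → (N : ℝ) ^ θ ≤ A → A ≤ N →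
  (((Icc (-(A : ℤ)) A).filter (fun a : ℤ => ¬ ∀ M : ℕ, M ≤ N →
    |∑ n ∈ Icc 1 M, (ArithmeticFunction.liouville ((n : ℤ) ^ 2 + a).natAbs : ℝ)| ≤ ε * N)).card : ℝ)
      ≤ ε * A

namespace FINCM

/-- the sum over `x < n ≤ y` -/
noncomputable def S (a : ℤ) (x y : ℕ) : ℝ := ∑ n ∈ Ioc x y, lio (val a n)

theorem abs_lio_le (m : ℕ) : |lio m| ≤ 1 := by
  unfold lio
  by_cases hm : m = 0
  · subst hm
    simp
  · rw [ArithmeticFunction.liouville_apply hm]
    push_cast
    rw [abs_pow, abs_neg, abs_one, one_pow]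

theorem abs_S_le (a : ℤ) (x y : ℕ) : |S a x y| ≤ ((y - x : ℕ) : ℝ) := by
  unfold S
  calc |∑ n ∈ Ioc x y, lio (val a n)| ≤ ∑ n ∈ Ioc x y, |lio (val a n)| :=
        Finset.abs_sum_le_sum_abs _ _
    _ ≤ ∑ n ∈ Ioc x y, (1 : ℝ) := Finset.sum_le_sum (fun n _ => abs_lio_le _)
    _ = ((y - x : ℕ) : ℝ) := by rw [Finset.sum_const, nsmul_eq_mul, mul_one, Nat.card_Ioc]

theorem S_add (a : ℤ) {x y z : ℕ} (h1 : x ≤ y) (h2 : y ≤ z) : S a x y + S a y z = S a x z := by
  unfold S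
  exact Finset.sum_Ioc_consecutive _ h1 h2

theorem S_eq_cnt (a : ℤ) (M : ℕ) : S a M (2 * M) = cnt M a lio := rfl

/-- the dyadic decomposition -/
theorem chain (a : ℤ) (x I : ℕ) :
    |S a 0 x| ≤ |S a 0 (x / 2 ^ I)| + ∑ i ∈ range I, |cnt (x / 2 ^ (i + 1)) a lio| + I := by
  induction I with
  | zero => simp
  | succ I ih =>
    rw [Finset.sum_range_succ]
    set M := x / 2 ^ I with hMdef
    have hM2 : x / 2 ^ (I + 1) = M / 2 := by
      rw [hMdef, Nat.div_div_eq_div_mul, pow_succ]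
    rw [hM2]
    have h1 : S a 0 M = S a 0 (M / 2) + S a (M / 2) (2 * (M / 2)) + S a (2 * (M / 2)) M := by
      rw [S_add a (Nat.zero_le _) (by omega), S_add a (Nat.zero_le _) (by omega)]
    have h2 : |S a (2 * (M / 2)) M| ≤ 1 := by
      refine (abs_S_le a _ _).trans ?_
      have : M - 2 * (M / 2) ≤ 1 := by omega
      exact_mod_cast this
    have h3 : |S a 0 M| ≤ |S a 0 (M / 2)| + |cnt (M / 2) a lio| + 1 := by
      rw [h1, S_eq_cnt]
      calc |S a 0 (M / 2) + cnt (M / 2) a lio + S a (2 * (M / 2)) M|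
          ≤ |S a 0 (M / 2) + cnt (M / 2) a lio| + |S a (2 * (M / 2)) M| := abs_add_le _ _
        _ ≤ |S a 0 (M / 2)| + |cnt (M / 2) a lio| + 1 := add_le_add (abs_add_le _ _) h2
    push_cast
    linarith

/-- blocks of length `≥ N/K` are admissible -/
theorem ev_log (K : ℕ) (hK : 1 ≤ K) : ∀ᶠ N : ℕ in atTop, ∀ M : ℕ, N ≤ K * (M + 1) →
    (N : ℝ) ≤ M * Real.log M := by
  have h1 : Tendsto (fun M : ℕ => Real.log (M : ℝ)) atTop atTop :=
    Real.tendsto_log_atTop.comp tendsto_natCast_atTop_atTop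
  obtain ⟨M₀, hM₀⟩ := Filter.eventually_atTop.1
    ((h1.eventually_ge_atTop (2 * (K : ℝ))).and (eventually_ge_atTop 1))
  filter_upwards [eventually_ge_atTop (K * (M₀ + 2))] with N hN M hM
  have h2 : M₀ ≤ M := by
    by_contra hcon
    push Not at hcon
    have h3 : K * (M + 1) ≤ K * (M₀ + 1) := Nat.mul_le_mul_left _ (by omega)
    have h4 : K * (M₀ + 1) < K * (M₀ + 2) := Nat.mul_lt_mul_of_pos_left (by omega) (by omega)
    omega
  obtain ⟨g1, g2⟩ := hM₀ M h2
  have hM1 : (1 : ℝ) ≤ M := by exact_mod_cast g2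
  have hKr : (1 : ℝ) ≤ K := by exact_mod_cast hK
  have h5 : (N : ℝ) ≤ K * (M + 1) := by exact_mod_cast hM
  calc (N : ℝ) ≤ K * (M + 1) := h5
    _ ≤ M * (2 * K) := by nlinarith
    _ ≤ M * Real.log M := mul_le_mul_of_nonneg_left g1 (by linarith)

/-- the block estimate for all blocks `(M, 2M]` with `N/K ≤ M ≤ N` -/
theorem ev_block (h : SpecCHWC) (θ δ : ℝ) (hθ : 5 / 6 < θ) (hδ : 0 < δ) (K : ℕ) (hK : 1 ≤ K) :
    ∀ᶠ N : ℕ in atTop, ∀ M : ℕ, N ≤ K * (M + 1) → M ≤ N → ∀ A : ℕ, (N : ℝ) ^ θ ≤ A → A ≤ N →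
      (((IA A).filter (fun a => δ * M < |cnt M a lio|)).card : ℝ) ≤ δ * A := by
  obtain ⟨M₀, hM₀⟩ := h θ δ hθ hδ
  filter_upwards [ev_log K hK, eventually_ge_atTop (K * (M₀ + 1))] with N h1 h2 M h3 h4 A hA1 hA2
  have h5 : M₀ ≤ M := by
    by_contra hcon
    push Not at hcon
    have h6 : K * (M + 1) ≤ K * M₀ := Nat.mul_le_mul_left _ (by omega)
    have h7 : K * M₀ < K * (M₀ + 1) := Nat.mul_lt_mul_of_pos_left (by omega) (by omega)
    omega
  refine hM₀ M A h5 ⟨?_, ?_⟩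
  · refine le_trans ?_ hA1
    exact Real.rpow_le_rpow (Nat.cast_nonneg _) (by exact_mod_cast h4) (by linarith)
  · exact le_trans (by exact_mod_cast hA2) (h1 M h3)

theorem sum_half (I : ℕ) (x : ℕ) : ∑ i ∈ range I, ((x / 2 ^ (i + 1) : ℕ) : ℝ) ≤ x := by
  have h : ∀ I : ℕ, ∑ i ∈ range I, ((x / 2 ^ (i + 1) : ℕ) : ℝ) + ((x / 2 ^ I : ℕ) : ℝ) ≤ x := by
    intro I
    induction I with
    | zero => simp
    | succ I ih =>
      rw [Finset.sum_range_succ]
      have h1 : x / 2 ^ (I + 1) = (x / 2 ^ I) / 2 := by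
        rw [Nat.div_div_eq_div_mul, pow_succ]
      have h2 : x / 2 ^ (I + 1) + x / 2 ^ (I + 1) ≤ x / 2 ^ I := by
        rw [h1]
        omega
      have h3 : ((x / 2 ^ (I + 1) : ℕ) : ℝ) + ((x / 2 ^ (I + 1) : ℕ) : ℝ) ≤ ((x / 2 ^ I : ℕ) : ℝ) := by
        exact_mod_cast h2
      linarith
  have h2 := h I
  have h3 : (0 : ℝ) ≤ ((x / 2 ^ I : ℕ) : ℝ) := Nat.cast_nonneg _
  linarith

theorem sum_eq (a : ℤ) (M : ℕ) :
    ∑ n ∈ Icc 1 M, (ArithmeticFunction.liouville ((n : ℤ) ^ 2 + a).natAbs : ℝ) = S a 0 M := by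
  have h : Icc 1 M = Ioc 0 M := by
    ext n
    simp only [Finset.mem_Icc, Finset.mem_Ioc]
    omega
  rw [h]
  rfl

end FINCM

open FINCM in
theorem specFINCU (h : SpecCHWC) : SpecFINCU := by
  intro θ ε hθ hε
  -- the number of blocks
  obtain ⟨I, hI⟩ : ∃ I : ℕ, (1 / 2 : ℝ) ^ I < ε / 8 :=
    exists_pow_lt_of_lt_one (by positivity) (by norm_num)
  have hq1 : (1 : ℝ) / 2 ^ I ≤ ε / 8 := by
    rw [one_div_pow] at hI
    exact hI.le
  -- the number of grid points
  obtain ⟨J, hJ⟩ := exists_nat_gt (max 1 (8 / ε))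
  have hJ1 : (1 : ℝ) < J := (le_max_left _ _).trans_lt hJ
  have hJ0 : 0 < J := by
    have : (0 : ℝ) < J := by linarith
    exact_mod_cast this
  have hJr : (0 : ℝ) < J := by exact_mod_cast hJ0
  have hJ2 : (1 : ℝ) / J ≤ ε / 8 := by
    have h1 : 8 / ε < J := (le_max_right _ _).trans_lt hJ
    rw [div_le_div_iff₀ hJr (by norm_num)]
    rw [div_lt_iff₀ hε] at h1
    linarith
  set δ : ℝ := min (ε / 8) (ε / ((J + 1) * (I + 1))) with hδ
  have hIr : (0 : ℝ) ≤ I := Nat.cast_nonneg _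
  have hδ0 : 0 < δ := lt_min (by positivity) (by positivity)
  have hδ1 : δ ≤ ε / 8 := min_le_left _ _
  have hδ2 : ((J + 1) * I : ℝ) * δ ≤ ε := by
    have h1 : δ ≤ ε / ((J + 1) * (I + 1)) := min_le_right _ _
    calc ((J + 1) * I : ℝ) * δ ≤ ((J + 1) * (I + 1) : ℝ) * (ε / ((J + 1) * (I + 1))) := by
          apply mul_le_mul _ h1 hδ0.le (by positivity)
          nlinarith
      _ = ε := by field_simp
  have hev := ev_block h θ δ hθ hδ0 (J * 2 ^ I) (Nat.one_le_iff_ne_zero.2 (by positivity))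
  have hevI : ∀ᶠ N : ℕ in atTop, (I : ℝ) + 1 ≤ ε / 8 * N := by
    have h1 : Tendsto (fun N : ℕ => ε / 8 * (N : ℝ)) atTop atTop :=
      tendsto_natCast_atTop_atTop.const_mul_atTop (by positivity)
    exact h1.eventually_ge_atTop _
  obtain ⟨N₀, hN₀⟩ := Filter.eventually_atTop.1 ((hev.and hevI).and (eventually_gt_atTop 0))
  refine ⟨N₀, fun N A hN hA1 hA2 => ?_⟩
  obtain ⟨⟨hb, hIN⟩, hNpos⟩ := hN₀ N hN
  have hNr : (0 : ℝ) < N := by exact_mod_cast hNpos
  have hA0 : (0 : ℝ) ≤ A := Nat.cast_nonneg _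
  -- the grid points and the blocks
  set x : ℕ → ℕ := fun j => j * N / J with hx
  set m : ℕ → ℕ → ℕ := fun j i => x j / 2 ^ (i + 1) with hm
  have hmN : ∀ j ∈ Icc 1 J, ∀ i ∈ range I, N ≤ J * 2 ^ I * (m j i + 1) ∧ m j i ≤ N := by
    intro j hj i hi
    rw [Finset.mem_Icc] at hj
    rw [Finset.mem_range] at hi
    have h1 : m j i = j * N / (J * 2 ^ (i + 1)) := by
      rw [hm, hx]
      simp only
      rw [Nat.div_div_eq_div_mul]
    have h2 : j * N < J * 2 ^ (i + 1) * (m j i + 1) := by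
      rw [h1]
      exact Nat.lt_mul_div_succ _ (by positivity)
    have h3 : J * 2 ^ (i + 1) * (m j i + 1) ≤ J * 2 ^ I * (m j i + 1) :=
      Nat.mul_le_mul_right _ (Nat.mul_le_mul_left _ (Nat.pow_le_pow_right (by norm_num) (by omega)))
    have h4 : N ≤ j * N := Nat.le_mul_of_pos_left _ (by omega)
    refine ⟨by omega, ?_⟩
    have h5 : x j ≤ N := by
      rw [hx]
      simp only
      rw [Nat.div_le_iff_le_mul_add_pred hJ0]
      have h6 : j * N ≤ J * N := Nat.mul_le_mul_right _ hj.2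
      omega
    exact (Nat.div_le_self _ _).trans h5
  set B := (Icc 1 J ×ˢ range I).biUnion
    (fun t => (IA A).filter (fun a => δ * (m t.1 t.2 : ℕ) < |cnt (m t.1 t.2) a lio|)) with hB
  have hBc : (B.card : ℝ) ≤ ε * A := by
    calc (B.card : ℝ) ≤ ∑ t ∈ Icc 1 J ×ˢ range I,
          (((IA A).filter (fun a => δ * (m t.1 t.2 : ℕ) < |cnt (m t.1 t.2) a lio|)).card : ℝ) := by
          exact_mod_cast Finset.card_biUnion_le
      _ ≤ ∑ t ∈ Icc 1 J ×ˢ range I, δ * A := by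
          refine Finset.sum_le_sum (fun t ht => ?_)
          rw [Finset.mem_product] at ht
          obtain ⟨g1, g2⟩ := hmN t.1 ht.1 t.2 ht.2
          exact hb _ g1 g2 A hA1 hA2
      _ = (J * I * δ) * A := by
          rw [Finset.sum_const, nsmul_eq_mul, Finset.card_product, Nat.card_Icc, Finset.card_range]
          simp only [Nat.add_sub_cancel]
          push_cast
          ring
      _ ≤ ε * A := by
          refine mul_le_mul_of_nonneg_right ?_ hA0
          refine le_trans ?_ hδ2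
          nlinarith [mul_nonneg hIr hδ0.le]
  refine le_trans ?_ hBc
  have hsub : (Icc (-(A : ℤ)) A).filter (fun a : ℤ => ¬ ∀ M : ℕ, M ≤ N →
    |∑ n ∈ Icc 1 M, (ArithmeticFunction.liouville ((n : ℤ) ^ 2 + a).natAbs : ℝ)| ≤ ε * N) ⊆ B := by
    intro a ha
    rw [Finset.mem_filter] at ha
    obtain ⟨haI, hno⟩ := ha
    have haI' : a ∈ IA A := haI
    by_contra hcon
    apply hno
    intro M hM
    rw [sum_eq]
    -- the grid points
    have hgrid : ∀ j, j ≤ J → |S a 0 (x j)| ≤ 3 * (ε / 8) * N := by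
      intro j hj
      rcases Nat.eq_zero_or_pos j with h0 | hpos
      · subst h0
        have : x 0 = 0 := by rw [hx]; simp
        rw [this]
        have h1 : S a 0 0 = 0 := by unfold S; simp
        rw [h1, abs_zero]
        positivity
      · have hjm : j ∈ Icc 1 J := Finset.mem_Icc.2 ⟨hpos, hj⟩
        have hxN : ((x j : ℕ) : ℝ) ≤ N := by
          have : x j ≤ N := by
            rw [hx]
            simp only
            rw [Nat.div_le_iff_le_mul_add_pred hJ0]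
            have h6 : j * N ≤ J * N := Nat.mul_le_mul_right _ hj
            omega
          exact_mod_cast this
        have h1 := chain a (x j) I
        have h2 : |S a 0 (x j / 2 ^ I)| ≤ ε / 8 * N := by
          refine (abs_S_le a _ _).trans ?_
          rw [Nat.sub_zero]
          calc ((x j / 2 ^ I : ℕ) : ℝ) ≤ (x j : ℝ) / ((2 ^ I : ℕ) : ℝ) := Nat.cast_div_le
            _ ≤ N / ((2 ^ I : ℕ) : ℝ) := by gcongr
            _ = 1 / 2 ^ I * N := by push_cast; ring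
            _ ≤ ε / 8 * N := mul_le_mul_of_nonneg_right hq1 hNr.le
        have h3 : ∑ i ∈ range I, |cnt (x j / 2 ^ (i + 1)) a lio| ≤ ε / 8 * N := by
          calc ∑ i ∈ range I, |cnt (x j / 2 ^ (i + 1)) a lio|
              ≤ ∑ i ∈ range I, δ * ((x j / 2 ^ (i + 1) : ℕ) : ℝ) := by
                refine Finset.sum_le_sum (fun i hi => ?_)
                by_contra hlt
                push Not at hlt
                apply hcon
                rw [hB, Finset.mem_biUnion]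
                exact ⟨(j, i), Finset.mem_product.2 ⟨hjm, hi⟩, Finset.mem_filter.2 ⟨haI', hlt⟩⟩
            _ = δ * ∑ i ∈ range I, ((x j / 2 ^ (i + 1) : ℕ) : ℝ) := by rw [Finset.mul_sum]
            _ ≤ δ * x j := mul_le_mul_of_nonneg_left (sum_half I (x j)) hδ0.le
            _ ≤ ε / 8 * N := mul_le_mul hδ1 hxN (Nat.cast_nonneg _) (by positivity)
        linarith
    -- the general length
    set j : ℕ := M * J / N with hj
    have hjJ : j ≤ J := by
      rw [hj, Nat.div_le_iff_le_mul_add_pred hNpos]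
      have : M * J ≤ N * J := Nat.mul_le_mul_right _ hM
      omega
    have hj1 : j * N ≤ M * J := Nat.div_mul_le_self _ _
    have hj2 : M * J < N * (j + 1) := Nat.lt_mul_div_succ _ hNpos
    have hxM : x j ≤ M := by
      rw [hx]
      simp only
      rw [Nat.div_le_iff_le_mul_add_pred hJ0]
      have : J * M = M * J := Nat.mul_comm _ _
      omega
    have hxM2 : ((M - x j : ℕ) : ℝ) ≤ N / J + 1 := by
      rw [Nat.cast_sub hxM]
      have h1 : j * N < J * (x j + 1) := by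
        rw [hx]
        exact Nat.lt_mul_div_succ _ hJ0
      have h2 : (j : ℝ) * N < J * ((x j : ℝ) + 1) := by exact_mod_cast h1
      have h3 : (M : ℝ) * J < N * ((j : ℝ) + 1) := by exact_mod_cast hj2
      have h4 : ((M : ℝ) - x j - 1) * J ≤ N := by nlinarith
      have h5 : (M : ℝ) - x j - 1 ≤ N / J := by
        rw [le_div_iff₀ hJr]
        exact h4
      linarith
    have h1 : S a 0 M = S a 0 (x j) + S a (x j) M := (S_add a (Nat.zero_le _) hxM).symm
    rw [h1]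
    have h2 : (N : ℝ) / J ≤ ε / 8 * N := by
      calc (N : ℝ) / J = 1 / J * N := by ring
        _ ≤ ε / 8 * N := mul_le_mul_of_nonneg_right hJ2 hNr.le
    calc |S a 0 (x j) + S a (x j) M| ≤ |S a 0 (x j)| + |S a (x j) M| := abs_add_le _ _
      _ ≤ 3 * (ε / 8) * N + (N / J + 1) :=
          add_le_add (hgrid j hjJ) ((abs_S_le a _ _).trans hxM2)
      _ ≤ ε * N := by nlinarith
  exact_mod_cast Finset.card_le_card hsub

theorem specFINC (h : SpecCHWC) : SpecFINC := by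
  intro θ ε hθ hε
  obtain ⟨N₀, hN₀⟩ := specFINCU h θ ε hθ hε
  refine ⟨N₀, fun N A hN hA1 hA2 => le_trans ?_ (hN₀ N A hN hA1 hA2)⟩
  have hsub : (Icc (-(A : ℤ)) A).filter (fun a : ℤ => ε * N <
      |∑ n ∈ Icc 1 N, (ArithmeticFunction.liouville ((n : ℤ) ^ 2 + a).natAbs : ℝ)|) ⊆
      (Icc (-(A : ℤ)) A).filter (fun a : ℤ => ¬ ∀ M : ℕ, M ≤ N →
        |∑ n ∈ Icc 1 M, (ArithmeticFunction.liouville ((n : ℤ) ^ 2 + a).natAbs : ℝ)| ≤ ε * N) := by
    intro a ha
    rw [Finset.mem_filter] at ha ⊢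
    exact ⟨ha.1, fun hall => absurd (hall N le_rfl) (not_le.2 ha.2)⟩
  exact_mod_cast Finset.card_le_card hsub

end Pool.Agent.Lib.MP391708.QPA.C
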