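import Pool.Agent.Lib.MP_391708_nt.QPA.C.SpecC
import Pool.Agent.Lib.MP_391708_nt.QPA.KER

/-!
# QPA, module KERP: KER without the parity condition
-/

set_option autoImplicit false

namespace Pool.Agent.Lib.MP391708.QPA.C.KERP

open Finset Filter Topology
open Pool.Agent.Lib.MP391708.QPA
open Pool.Agent.Lib.MP391708.QPA.KER hiding step1 raw main
open scoped Classical

noncomputable section

theorem step1 {K L A δ ε Lk Lg : ℝ} {d D : ℕ} (h : Ctx K L A δ ε d D)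
    (hLk : 0 ≤ Lk) (hLg : 0 ≤ Lg) (hkB : ∀ x y : ℝ, |kB x - kB y| ≤ Lk * |x - y|)
    (hgB : ∀ x y : ℝ, |gB x - gB y| ≤ Lg * |x - y|)
    (b : ℕ → ℝ) (hb : ∀ u, |b u| ≤ 1) :
    |Sd K L A d D b - ∑ k ∈ KS K D, ∑ x ∈ prs L d, b x.1 * b x.2 *
        (kk K (δ * L) d x * gB (la A (δ * L) x * ((k : ℝ) - k0 d x.1 x.2)))|
      ≤ ((((Icc 1 ⌊4 * K⌋₊) ×ˢ (prs L d)).filter (fun t =>
        |aq d t.1 t.2.1 t.2.2| ≤ 4 * A)).card : ℝ) * ((10 * Lk + 13 * Lg) * ε) := by
  have hLp : 0 < L := by linarith [h.hL]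
  have hW : 0 < δ * L := mul_pos h.hδ hLp
  have hε0 : 0 < ε := lt_of_lt_of_le h.hδ h.hδε'
  rw [Sd_eq K L A d D b h.hK, ← sum_sub_distrib]
  have e1 : ∀ k ∈ KS K D, (∑ x ∈ prs L d, b x.1 * b x.2 *
        (kB ((k : ℝ) / K) * gB (aq d k x.1 x.2 / A)) - ∑ x ∈ prs L d, b x.1 * b x.2 *
        (kk K (δ * L) d x * gB (la A (δ * L) x * ((k : ℝ) - k0 d x.1 x.2)))) =
      ∑ x ∈ prs L d, b x.1 * b x.2 * ((kB ((k : ℝ) / K) * gB (aq d k x.1 x.2 / A)) -
        (kk K (δ * L) d x * gB (la A (δ * L) x * ((k : ℝ) - k0 d x.1 x.2)))) := by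
    intro k _
    rw [← sum_sub_distrib]
    exact sum_congr rfl fun x _ => by ring
  rw [sum_congr rfl e1]
  calc |∑ k ∈ KS K D, ∑ x ∈ prs L d, b x.1 * b x.2 * ((kB ((k : ℝ) / K) * gB (aq d k x.1 x.2 / A)) -
        (kk K (δ * L) d x * gB (la A (δ * L) x * ((k : ℝ) - k0 d x.1 x.2))))|
      ≤ ∑ k ∈ KS K D, ∑ x ∈ prs L d, |b x.1 * b x.2 * ((kB ((k : ℝ) / K) * gB (aq d k x.1 x.2 / A)) -
        (kk K (δ * L) d x * gB (la A (δ * L) x * ((k : ℝ) - k0 d x.1 x.2))))| :=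
        (abs_sum_le_sum_abs _ _).trans (sum_le_sum fun k _ => abs_sum_le_sum_abs _ _)
    _ ≤ ∑ k ∈ KS K D, ∑ x ∈ prs L d, if (|aq d k x.1 x.2| ≤ 4 * A) then
          (10 * Lk + 13 * Lg) * ε else 0 := by
        refine sum_le_sum fun k _ => sum_le_sum fun x hx => ?_
        obtain ⟨m1, m2, m3, m4, m5, m6⟩ := mem_prs hx
        by_cases hne : (kB ((k : ℝ) / K) * gB (aq d k x.1 x.2 / A)) =
            (kk K (δ * L) d x * gB (la A (δ * L) x * ((k : ℝ) - k0 d x.1 x.2)))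
        · rw [hne, sub_self, mul_zero, abs_zero]
          split_ifs <;> positivity
        by_cases hb0 : b x.1 * b x.2 = 0
        · rw [hb0, zero_mul, abs_zero]
          split_ifs <;> positivity
        have ht := touched (K := K) (L := L) (A := A) (δ := δ) (ε := ε) (Lk := Lk) (Lg := Lg)
          (c := cx (δ * L) x.1) (c' := cx (δ * L) x.2) (d := d) (k := k) (u := x.1) (v := x.2)
          h.hd h.hL h.hK h.hA h.hdd h.hδ h.hδ' h.hε h.hδε' h.hAT h.hδε m1 m2 m3 m4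
          (cx_nonneg hW _) (cx_nonneg hW _) (cx_le hW _) (lt_cx hW _).le (cx_le hW _) (lt_cx hW _).le
          hLk hLg hkB hgB hne
        rw [if_pos ht.1,
          abs_mul, abs_mul]
        calc |b x.1| * |b x.2| * _ ≤ 1 * 1 * ((10 * Lk + 13 * Lg) * ε) := by
              apply mul_le_mul _ ht.2 (abs_nonneg _) (by norm_num)
              exact mul_le_mul (hb _) (hb _) (abs_nonneg _) (by norm_num)
          _ = (10 * Lk + 13 * Lg) * ε := by ring
    _ ≤ ∑ k ∈ Icc 1 ⌊4 * K⌋₊, ∑ x ∈ prs L d, if (|aq d k x.1 x.2| ≤ 4 * A) then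
          (10 * Lk + 13 * Lg) * ε else 0 := by
        apply sum_le_sum_of_subset_of_nonneg
        · exact filter_subset _ _
        · intro k _ _
          apply sum_nonneg
          intro x _
          split_ifs <;> positivity
    _ = ((((Icc 1 ⌊4 * K⌋₊) ×ˢ (prs L d)).filter (fun t =>
        |aq d t.1 t.2.1 t.2.2| ≤ 4 * A)).card : ℝ) * ((10 * Lk + 13 * Lg) * ε) := by
        rw [← sum_product', ← sum_filter, sum_const, nsmul_eq_mul]


theorem raw {K L A δ ε Lk Lg CP CB e : ℝ} {d D : ℕ} (h : Ctx K L A δ ε d D)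
    (hLk : 0 ≤ Lk) (hLg : 0 ≤ Lg) (hkB : ∀ x y : ℝ, |kB x - kB y| ≤ Lk * |x - y|)
    (hgB : ∀ x y : ℝ, |gB x - gB y| ≤ Lg * |x - y|) {j : ℕ} (hCP : 0 < CP)
    (hPOI : ∀ (lam t : ℝ) (D H : ℕ), 0 < lam → 1 ≤ D → 1 ≤ H →
      |(∑' i : ℤ, gB (lam * (D * (2 * i + 1) - t)))
      - 1 / (2 * D * lam) * (gI + 2 * ∑ h ∈ Icc 1 H,
        gh (h / (2 * D * lam)) * (-1) ^ h * Real.cos (Real.pi * h * t / D))|
      ≤ CP * (2 * D * lam) ^ (j + 1) / (H : ℝ) ^ (j + 1)) (he : 0 < e) (hCB : 0 < CB)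
    (hBIL : BILh e CB)
    (b : ℕ → ℝ) (hb : ∀ u, |b u| ≤ 1) {H : ℕ} (hH : 1 ≤ H) :
    |Sd K L A d D b - A * gI / (2 * D) * Wd K L d b| ≤
      ((((Icc 1 ⌊4 * K⌋₊) ×ˢ (prs L d)).filter (fun t =>
        |aq d t.1 t.2.1 t.2.2| ≤ 4 * A)).card : ℝ) * ((10 * Lk + 13 * Lg) * ε) +
      (prs L d).card * (CP * (2 * D * (5 / 4 * L / A)) ^ (j + 1) / (H : ℝ) ^ (j + 1)) +
      4 / δ ^ 2 * (2 * A / (D * L) * ((gI + 1) * ((Nat.log 2 (2 * H) + 1 : ℕ) * bil1 e CB L d D H))) +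
      5 / 2 * gI * (12 * Lk + 6) * ε * (A * √(K * L)) := by
  have h1 := step1 h hLk hLg hkB hgB b hb
  have h3 := step3 h hCP hPOI b hb hH
  have h4 := step4 h he hCB hBIL b hb hH
  have h5 := step5 h hLk hkB b hb
  have e : ∑ x ∈ prs L d, b x.1 * b x.2 * (kk K (δ * L) d x * (1 / (2 * D * la A (δ * L) x) *
        (gI + 2 * osc A (δ * L) d D H x))) =
      ∑ x ∈ prs L d, b x.1 * b x.2 * (kk K (δ * L) d x * (1 / (2 * D * la A (δ * L) x) * gI)) +
      ∑ x ∈ prs L d, b x.1 * b x.2 * (kk K (δ * L) d x * (1 / (2 * D * la A (δ * L) x) *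
        (2 * osc A (δ * L) d D H x))) := by
    rw [← sum_add_distrib]
    exact sum_congr rfl fun x _ => by ring
  rw [e] at h3
  have e1 := abs_le.mp h1
  have e3 := abs_le.mp h3
  have e4 := abs_le.mp h4
  have e5 := abs_le.mp h5
  rw [abs_le]
  constructor <;> linarith [e1.1, e1.2, e3.1, e3.2, e4.1, e4.2, e5.1, e5.2]

theorem main (hBIL : SpecBIL) (hPOI : SpecPOI) (hCOUNT : SpecCOUNTP) : SpecKERP := by
  intro τ hτ
  obtain ⟨Lk, hLk, hkB⟩ := bump_lip kB
  obtain ⟨Lg, hLg, hgB⟩ := bump_lip gB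
  set c0 := min τ (1 / 16) with hc0
  have hc0p : 0 < c0 := lt_min hτ (by norm_num)
  have hc01 : c0 ≤ τ := min_le_left _ _
  have hc02 : c0 ≤ 1 / 16 := min_le_right _ _
  set s := c0 / 128 with hs
  have hs0 : 0 < s := by positivity
  have hs1 : 128 * s ≤ τ := by rw [hs]; linarith
  have hs2 : 128 * s ≤ 1 / 16 := by rw [hs]; linarith
  obtain ⟨Cc, hCc, hcount⟩ := hCOUNT s hs0
  obtain ⟨CB, hCB, hbil⟩ := hBIL (s / 4) (by positivity)
  set j := ⌈3 / (8 * s)⌉₊ with hj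
  obtain ⟨CP, hCP, hpoi⟩ := hPOI j
  have hj3 : 3 ≤ 8 * s * ((j : ℝ) + 1) := by
    have h1 := Nat.le_ceil (3 / (8 * s))
    rw [← hj] at h1
    rw [div_le_iff₀ (by positivity)] at h1
    linarith
  have hgI := gI_nonneg
  set Ctot := Cc * (10 * Lk + 13 * Lg) + 2 * CP * (5 / 2) ^ (j + 1) + 2048 * CB * (gI + 1) +
    5 / 2 * gI * (12 * Lk + 6) with hCtot
  -- large T
  have ev1 : ∀ᶠ T : ℝ in atTop, 2 ≤ T ^ s := (tendsto_rpow_atTop hs0).eventually_ge_atTop 2
  have ev2 : ∀ᶠ T : ℝ in atTop, Ctot ≤ T ^ (5 * s) :=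
    (tendsto_rpow_atTop (by positivity)).eventually_ge_atTop _
  have ev3 : ∀ᶠ T : ℝ in atTop, 4 ≤ T := eventually_ge_atTop 4
  have ev4 : ∀ᶠ T : ℝ in atTop, 3 + 2 * Real.logb 2 T ≤ T ^ s := by
    have h1 := (isLittleO_log_rpow_atTop hs0).bound (show 0 < Real.log 2 / 4 by
      have := Real.log_pos (show (1 : ℝ) < 2 by norm_num)
      positivity)
    have h2 : ∀ᶠ T : ℝ in atTop, 6 ≤ T ^ s := (tendsto_rpow_atTop hs0).eventually_ge_atTop 6
    filter_upwards [h1, h2, eventually_ge_atTop 1] with T h1 h2 h3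
    have hl2 := Real.log_pos (show (1 : ℝ) < 2 by norm_num)
    rw [Real.norm_of_nonneg (Real.log_nonneg h3),
      Real.norm_of_nonneg (Real.rpow_nonneg (by linarith) _)] at h1
    have h4 : Real.logb 2 T ≤ T ^ s / 4 := by
      rw [Real.logb, div_le_iff₀ hl2]
      linarith
    linarith
  obtain ⟨X₀, hX₀⟩ := eventually_atTop.mp (((ev1.and ev2).and ev3).and ev4)
  refine ⟨s, hs0, by linarith, X₀, ?_⟩
  intro K L A d D b hX hK hKL hA hA34 hLM hM hDo hDs hd hd' hd1 hb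
  obtain ⟨⟨⟨f1, f2⟩, f3⟩, f4⟩ := hX₀ (K * L) hX
  set T := K * L with hT
  have hL : 1 ≤ L := hK.trans hKL
  have hK0 : 0 < K := by linarith
  have hL0 : 0 < L := by linarith
  have hA0 : 0 < A := by linarith
  have hT0 : 0 < T := by positivity
  have hT1 : 1 ≤ T := by linarith
  set t := T ^ s with ht
  have ht0 : 0 < t := by linarith
  have ht1 : 1 ≤ t := by linarith
  have htn : ∀ n : ℕ, t ^ n = T ^ (n * s) := by
    intro n
    rw [ht, ← Real.rpow_natCast, ← Real.rpow_mul hT0.le, mul_comm]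
  set M := √(L / K) with hMdef
  set S := √T with hSdef
  set a := √A with hadef
  have hM1 : 1 ≤ M := by
    rw [hMdef, Real.one_le_sqrt]
    rw [le_div_iff₀ hK0]
    linarith
  have hLMS : L = M * S := by
    rw [hMdef, hSdef, ← Real.sqrt_mul (by positivity)]
    have : L / K * T = L ^ 2 := by rw [hT]; field_simp
    rw [this, Real.sqrt_sq hL0.le]
  have hAa : A = a ^ 2 := (Real.sq_sqrt hA0.le).symm
  have hSS : S ^ 2 = T := Real.sq_sqrt hT0.le
  have hS0 : 0 < S := Real.sqrt_pos.mpr hT0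
  have hτt : T ^ (-τ) * t ^ 128 ≤ 1 := by
    rw [htn, ← Real.rpow_add hT0]
    apply Real.rpow_le_one_of_one_le_of_nonpos hT1
    push_cast
    linarith
  have hLa : M ^ 2 * S * t ^ 128 ≤ a ^ 4 := by
    calc M ^ 2 * S * t ^ 128 = L * M * t ^ 128 := by rw [hLMS]; ring
      _ ≤ A ^ 2 * T ^ (-τ) * t ^ 128 := mul_le_mul_of_nonneg_right hLM (by positivity)
      _ = A ^ 2 * (T ^ (-τ) * t ^ 128) := by ring
      _ ≤ A ^ 2 * 1 := mul_le_mul_of_nonneg_left hτt (by positivity)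
      _ = a ^ 4 := by rw [hAa]; ring
  have hMa : M * t ^ 128 ≤ a := by
    calc M * t ^ 128 ≤ a * T ^ (-τ) * t ^ 128 := mul_le_mul_of_nonneg_right hM (by positivity)
      _ = a * (T ^ (-τ) * t ^ 128) := by ring
      _ ≤ a * 1 := mul_le_mul_of_nonneg_left hτt (Real.sqrt_nonneg _)
      _ = a := mul_one a
  have hAT : A ≤ T := hA34.trans (by
    calc T ^ (3 / 4 : ℝ) ≤ T ^ (1 : ℝ) := Real.rpow_le_rpow_of_exponent_le hT1 (by norm_num)
      _ = T := Real.rpow_one T)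
  have haS : a ≤ S := Real.sqrt_le_sqrt hAT
  have hS112 : t ^ 112 ≤ S := by
    rw [htn, hSdef, Real.sqrt_eq_rpow]
    apply Real.rpow_le_rpow_of_exponent_le hT1
    push_cast
    linarith
  have hAt7 : A * t ^ 7 ≤ T := by
    calc A * t ^ 7 ≤ T ^ (3 / 4 : ℝ) * T ^ (1 / 4 : ℝ) := by
          apply mul_le_mul hA34 _ (by positivity) (by positivity)
          rw [htn]
          apply Real.rpow_le_rpow_of_exponent_le hT1
          push_cast
          linarith
      _ = T := by rw [← Real.rpow_add hT0]; norm_num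
  have hMt : M / t ≤ d := by
    calc M / t = M * T ^ (-s) := by rw [Real.rpow_neg hT0.le]; rfl
      _ ≤ d := hd
  have hD1 : 1 ≤ D := hDo.pos
  have hD1r : (1 : ℝ) ≤ D := by exact_mod_cast hD1
  have hp2 : ∀ n : ℕ, (2 : ℝ) ^ n ≤ t ^ n := fun n => pow_le_pow_left₀ (by norm_num) f1 n
  have ctx : Ctx K L A (1 / t ^ 8) (1 / t ^ 7) d D := by
    refine ⟨hd1, hDo, hL, hK, hA, hd', by positivity, ?_, ?_, ?_, ?_, ?_⟩
    · rw [div_le_div_iff₀ (by positivity) (by norm_num)]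
      have := hp2 8
      norm_num at this
      linarith
    · rw [div_le_div_iff₀ (by positivity) (by norm_num)]
      have := hp2 7
      norm_num at this
      linarith
    · apply div_le_div_of_nonneg_left (by norm_num) (by positivity)
      exact pow_le_pow_right₀ ht1 (by norm_num)
    · rw [one_div, ← div_eq_inv_mul, le_div_iff₀ (by positivity)]
      exact hAt7
    · have hMK : M * √K = √L := by
        rw [hMdef, ← Real.sqrt_mul (by positivity)]
        congr 1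
        field_simp
      rw [div_le_iff₀ ht0] at hMt
      have e1 : √L * (1 / t ^ 8) = M * √K / t ^ 8 := by rw [hMK]; ring
      have e2 : (d : ℝ) * √K * (1 / t ^ 7) = d * t * √K / t ^ 8 := by field_simp
      rw [e1, e2]
      apply div_le_div_of_nonneg_right _ (by positivity)
      exact mul_le_mul_of_nonneg_right hMt (Real.sqrt_nonneg _)
  set x := (D : ℝ) * (L / A) * t ^ 8 with hx
  have hx0 : 0 < x := by positivity
  set H := ⌈x⌉₊ with hH
  have hH1 : 1 ≤ H := Nat.ceil_pos.mpr hx0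
  have hHx : x ≤ H := Nat.le_ceil x
  have hHx' : (H : ℝ) ≤ x + 1 := (Nat.ceil_lt_add_one hx0.le).le
  have hH0 : (0 : ℝ) < H := by exact_mod_cast hH1
  have hraw := raw ctx hLk.le hLg.le hkB hgB hCP hpoi (show 0 < s / 4 by positivity) hCB hbil
    b hb hH1
  refine hraw.trans ?_
  set Z := A * S with hZ
  have hZ1 : 1 ≤ Z := by
    rw [hZ]
    have : 1 ≤ S := (one_le_pow₀ (n := 112) ht1).trans hS112
    exact one_le_mul_of_one_le_of_one_le hA this
  have hZ0 : 0 < Z := by linarith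
  have hexp := expo (d := (d : ℝ)) (D := (D : ℝ)) (H := (H : ℝ)) ht1 hM1 haS hS112 hLMS hLa hMa hAa
    hMt hD1r hDs hHx' hH0.le
  -- H and L are at most powers of T
  have hLT : L ≤ T := le_mul_of_one_le_left hL0.le hK
  have ht9 : t ^ 9 ≤ T := by
    rw [htn]
    calc T ^ (((9 : ℕ) : ℝ) * s) ≤ T ^ (1 : ℝ) := by
          apply Real.rpow_le_rpow_of_exponent_le hT1
          push_cast
          linarith
      _ = T := Real.rpow_one T
  have hxT : x ≤ T ^ 2 := by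
    calc x ≤ t * L * t ^ 8 := by
          rw [hx]
          have : L / A ≤ L := div_le_self hL0.le hA
          gcongr
      _ = L * t ^ 9 := by ring
      _ ≤ T * T := mul_le_mul hLT ht9 (by positivity) hT0.le
      _ = T ^ 2 := by ring
  have hHT : 2 * (H : ℝ) ≤ 4 * T ^ 2 := by
    have h1 : 1 ≤ T ^ 2 := one_le_pow₀ hT1
    linarith only [hHx', hxT, h1]
  have hn : ((Nat.log 2 (2 * H) + 1 : ℕ) : ℝ) ≤ t := by
    have h1 : (Nat.log 2 (2 * H) : ℝ) ≤ Real.logb 2 ((2 * H : ℕ) : ℝ) := by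
      have := Real.natLog_le_logb (2 * H) 2
      exact_mod_cast this
    have h2 : Real.logb 2 ((2 * H : ℕ) : ℝ) ≤ Real.logb 2 (4 * T ^ 2) := by
      apply Real.logb_le_logb_of_le (by norm_num)
      · push_cast; positivity
      · push_cast; exact hHT
    have h3 : Real.logb 2 (4 * T ^ 2) = 2 + 2 * Real.logb 2 T := by
      rw [Real.logb_mul (by norm_num) (by positivity), Real.logb_pow]
      have : Real.logb 2 4 = 2 := by
        rw [show (4 : ℝ) = 2 ^ (2 : ℕ) by norm_num, Real.logb_pow]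
        norm_num
      rw [this]
      norm_num
    push_cast
    linarith
  have hpow : (2 * (H : ℝ) * L) ^ (s / 4) ≤ t := by
    have h1 : 2 * (H : ℝ) * L ≤ T ^ 4 := by
      calc 2 * (H : ℝ) * L ≤ 4 * T ^ 2 * T := mul_le_mul hHT hLT hL0.le (by positivity)
        _ ≤ T * T ^ 2 * T := by gcongr
        _ = T ^ 4 := by ring
    calc (2 * (H : ℝ) * L) ^ (s / 4) ≤ (T ^ 4) ^ (s / 4) :=
          Real.rpow_le_rpow (by positivity) h1 (by positivity)
      _ = t := by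
          rw [ht, ← Real.rpow_natCast, ← Real.rpow_mul hT0.le]
          congr 1
          push_cast
          ring
  have hE2 := third (e := s / 4) ht1 hA hL hCB hD1 hDs hn hpow hexp hS0.le
  -- E1
  have hE1 : ((((Icc 1 ⌊4 * K⌋₊) ×ˢ (prs L d)).filter (fun t =>
        |aq d t.1 t.2.1 t.2.2| ≤ 4 * A)).card : ℝ) * ((10 * Lk + 13 * Lg) * (1 / t ^ 7)) ≤
      Cc * (10 * Lk + 13 * Lg) * Z / t ^ 6 := by
    have h1 := hcount K L A d hK hKL hA (by
      rw [le_div_iff₀ (by norm_num)]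
      have h7 := hp2 7
      norm_num at h7
      have h8 : A * 100 ≤ A * t ^ 7 := mul_le_mul_of_nonneg_left (by linarith only [h7]) hA0.le
      exact h8.trans hAt7) hd1 hd'
    calc _ ≤ Cc * T ^ s * A * √T * ((10 * Lk + 13 * Lg) * (1 / t ^ 7)) :=
          mul_le_mul_of_nonneg_right h1 (by positivity)
      _ = Cc * (10 * Lk + 13 * Lg) * Z / t ^ 6 := by
          rw [← ht, ← hSdef, hZ]
          field_simp
  -- E3
  have hE3 : ((prs L d).card : ℝ) * (CP * (2 * D * (5 / 4 * L / A)) ^ (j + 1) / (H : ℝ) ^ (j + 1)) ≤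
      2 * CP * (5 / 2) ^ (j + 1) * Z / t ^ 6 := by
    have h1 : (2 * (D : ℝ) * (5 / 4 * L / A)) ^ (j + 1) / (H : ℝ) ^ (j + 1) ≤
        (5 / 2) ^ (j + 1) * (1 / T ^ 3) := by
      rw [← div_pow]
      have h2 : 2 * (D : ℝ) * (5 / 4 * L / A) / H ≤ 5 / 2 * (1 / t ^ 8) := by
        rw [div_le_iff₀ hH0]
        calc 2 * (D : ℝ) * (5 / 4 * L / A) = 5 / 2 * (1 / t ^ 8) * x := by rw [hx]; field_simp; norm_num
          _ ≤ 5 / 2 * (1 / t ^ 8) * H := mul_le_mul_of_nonneg_left hHx (by positivity)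
      calc (2 * (D : ℝ) * (5 / 4 * L / A) / H) ^ (j + 1) ≤ (5 / 2 * (1 / t ^ 8)) ^ (j + 1) :=
            pow_le_pow_left₀ (by positivity) h2 _
        _ = (5 / 2) ^ (j + 1) * (1 / (t ^ 8) ^ (j + 1)) := by rw [mul_pow, one_div_pow]
        _ ≤ (5 / 2) ^ (j + 1) * (1 / T ^ 3) := by
            apply mul_le_mul_of_nonneg_left _ (by positivity)
            apply one_div_le_one_div_of_le (by positivity)
            rw [← pow_mul, htn, ← Real.rpow_natCast]
            apply Real.rpow_le_rpow_of_exponent_le hT1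
            push_cast
            linarith
    have h3 := prs_card (d := d) hL
    have h6 : t ^ 6 ≤ T := (pow_le_pow_right₀ ht1 (by norm_num)).trans ht9
    calc ((prs L d).card : ℝ) * (CP * (2 * D * (5 / 4 * L / A)) ^ (j + 1) / (H : ℝ) ^ (j + 1))
        = ((prs L d).card : ℝ) * (CP * ((2 * D * (5 / 4 * L / A)) ^ (j + 1) / (H : ℝ) ^ (j + 1))) := by
          ring
      _ ≤ (2 * T ^ 2) * (CP * ((5 / 2) ^ (j + 1) * (1 / T ^ 3))) := by
          apply mul_le_mul _ _ (by positivity) (by positivity)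
          · calc ((prs L d).card : ℝ) ≤ 2 * L ^ 2 := h3
              _ ≤ 2 * T ^ 2 := by gcongr
          · exact mul_le_mul_of_nonneg_left h1 hCP.le
      _ = 2 * CP * (5 / 2) ^ (j + 1) * (1 / T) := by field_simp
      _ ≤ 2 * CP * (5 / 2) ^ (j + 1) * (Z / t ^ 6) := by
          apply mul_le_mul_of_nonneg_left _ (by positivity)
          rw [div_le_div_iff₀ hT0 (by positivity)]
          calc 1 * t ^ 6 = t ^ 6 := one_mul _
            _ ≤ T := h6
            _ ≤ Z * T := le_mul_of_one_le_left hT0.le hZ1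
      _ = _ := by ring
  -- E4
  have hE4 : 5 / 2 * gI * (12 * Lk + 6) * (1 / t ^ 7) * (A * √T) ≤
      5 / 2 * gI * (12 * Lk + 6) * Z / t ^ 6 := by
    have : 1 / t ^ 7 ≤ 1 / t ^ 6 := by
      apply div_le_div_of_nonneg_left (by norm_num) (by positivity)
      exact pow_le_pow_right₀ ht1 (by norm_num)
    calc 5 / 2 * gI * (12 * Lk + 6) * (1 / t ^ 7) * (A * √T)
        ≤ 5 / 2 * gI * (12 * Lk + 6) * (1 / t ^ 6) * (A * √T) := by gcongr
      _ = _ := by rw [← hSdef, hZ]; ring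
  have hfin : Ctot * Z / t ^ 6 ≤ A * √T * T ^ (-s) := by
    have h5 : Ctot ≤ t ^ 5 := by
      rw [htn]
      exact_mod_cast f2
    rw [Real.rpow_neg hT0.le, ← ht, ← hSdef, ← hZ, ← div_eq_mul_inv,
      div_le_div_iff₀ (by positivity) ht0]
    calc Ctot * Z * t ≤ t ^ 5 * Z * t := by gcongr
      _ = Z * t ^ 6 := by ring
  have hsum : Cc * (10 * Lk + 13 * Lg) * Z / t ^ 6 + 2 * CP * (5 / 2) ^ (j + 1) * Z / t ^ 6 +
      2048 * CB * (gI + 1) * Z / t ^ 6 + 5 / 2 * gI * (12 * Lk + 6) * Z / t ^ 6 =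
      Ctot * Z / t ^ 6 := by
    rw [hCtot]; ring
  rw [← hsum] at hfin
  linarith

end

end Pool.Agent.Lib.MP391708.QPA.C.KERP

namespace Pool.Agent.Lib.MP391708.QPA.C

open Pool.Agent.Lib.MP391708.QPA

/-- KERP -/
theorem specKERP (hBIL : SpecBIL) (hPOI : SpecPOI) (hCOUNT : SpecCOUNTP) : SpecKERP :=
  KERP.main hBIL hPOI hCOUNT

end Pool.Agent.Lib.MP391708.QPA.C
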