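import Pool.Agent.Lib.MP_391708_nt.QPA.C.SpecC
import Pool.Agent.Lib.MP_391708_nt.QPA.SEC

/-!
# QPA, module SECP: SEC for `b` supported on one parity class
-/

set_option autoImplicit false

namespace Pool.Agent.Lib.MP391708.QPA.C

open Finset Filter Topology
open Pool.Agent.Lib.MP391708.QPA

namespace SECP

open Pool.Agent.Lib.MP391708.QPA.SEC hiding pair_facts offdiag Sd_bound diag
open scoped Classical

/-- parameters of a pair in a fan -/
lemma pair_facts {a : ℤ} {k n n' u v : ℕ} (hk : Odd k) (hnn : n < n') (hmod : n % k = n' % k)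
    (hu : (n : ℤ) ^ 2 + a = k * u) (hv : (n' : ℤ) ^ 2 + a = k * v) (hpuv : u % 2 = v % 2) :
    ∃ d : ℕ, 1 ≤ d ∧ n' = n + 2 * k * d ∧ v = u + 4 * d * (n + k * d) ∧
      (n' - n) / (2 * k) = d ∧ (a : ℝ) = aq d k u v := by
  have hk0 : 0 < k := hk.pos
  have hdvd : k ∣ n' - n := by
    have : n ≡ n' [MOD k] := hmod
    exact (Nat.modEq_iff_dvd' hnn.le).mp this
  -- parity
  have hpar : 2 ∣ n' - n := by
    have h1 : Even ((v : ℤ) - u) := by
      rw [Int.even_iff]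
      omega
    have h3 : Even ((n' : ℤ) ^ 2 - (n : ℤ) ^ 2) := by
      have : (n' : ℤ) ^ 2 - (n : ℤ) ^ 2 = k * (v - u) := by linarith
      rw [this]
      exact h1.mul_left _
    have h4 : Even ((n' : ℤ) - n) := by
      by_contra h
      rw [Int.not_even_iff_odd] at h
      have h5 : Odd ((n' : ℤ) + n) := by
        have : (n' : ℤ) + n = (n' - n) + 2 * n := by ring
        rw [this]
        exact h.add_even ⟨n, by ring⟩
      have h6 := h.mul h5
      have h7 : ((n' : ℤ) - n) * (n' + n) = (n' : ℤ) ^ 2 - (n : ℤ) ^ 2 := by ring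
      rw [h7] at h6
      exact (Int.not_even_iff_odd.mpr h6) h3
    have h8 : ((n' - n : ℕ) : ℤ) = (n' : ℤ) - n := by
      push_cast [hnn.le]; ring
    have h9 : Even (n' - n) := by
      have : Even ((n' - n : ℕ) : ℤ) := by rw [h8]; exact h4
      exact_mod_cast this
    exact h9.two_dvd
  have hcop : Nat.Coprime 2 k := (Nat.coprime_two_left).mpr hk
  obtain ⟨d, hd⟩ := hcop.mul_dvd_of_dvd_of_dvd hpar hdvd
  have hn' : n' = n + 2 * k * d := by omega
  have hd1 : 1 ≤ d := by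
    rcases Nat.eq_zero_or_pos d with h | h
    · subst h
      simp at hn'
      omega
    · exact h
  have hvu : v = u + 4 * d * (n + k * d) := by
    have h1 : (k : ℤ) * v = k * (u + 4 * d * (n + k * d)) := by
      rw [← hv, hn']
      have : (n : ℤ) ^ 2 + a = k * u := hu
      push_cast
      linear_combination this
    have h2 := mul_left_cancel₀ (by exact_mod_cast hk0.ne' : (k : ℤ) ≠ 0) h1
    exact_mod_cast h2
  refine ⟨d, hd1, hn', hvu, ?_, ?_⟩
  · rw [hd]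
    exact Nat.mul_div_cancel_left d (by positivity)
  · have hd0 : (d : ℝ) ≠ 0 := by
      have : (1 : ℝ) ≤ d := by exact_mod_cast hd1
      linarith
    have hur : (n : ℝ) ^ 2 + a = k * u := by exact_mod_cast hu
    have hvr : (v : ℝ) = u + 4 * d * (n + k * d) := by rw [hvu]; push_cast; ring
    unfold aq
    rw [hvr]
    have h3 : ((u : ℝ) + 4 * d * (n + k * d) - u) / (4 * d) = n + k * d := by
      field_simp
      ring
    rw [h3]
    linear_combination hur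

/-- the bijection -/
lemma offdiag {K L A : ℝ} {X r : ℕ} {b lam : ℕ → ℝ} (hK : 1 ≤ K) (hKL : K ≤ L) (hA : 1 ≤ A)
    (hA2 : 200 * A ≤ K * L) (hX : 2 * √(K * L) ≤ X)
    (hb : ∀ u, b u ≠ 0 → u % 2 = r ∧ L < (u : ℝ) ∧ (u : ℝ) ≤ 5 / 4 * L) :
    ∑ a ∈ IA ⌊2 * A⌋₊, gB ((a : ℝ) / A) * ∑ k ∈ (Icc 1 ⌊5 / 2 * K⌋₊).filter Odd,
      kB ((k : ℝ) / K) * Th lam k * ∑ p ∈ PP X (a, k), b (val a p.1 / k) * b (val a p.2 / k)
    = ∑ d ∈ Icc 1 ⌊√(L / K) / 4⌋₊, ∑ k ∈ (Icc 1 ⌊5 / 2 * K⌋₊).filter Odd,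
      kB ((k : ℝ) / K) * Th lam k * ∑ x ∈ prs L d, b x.1 * b x.2 * gB (aq d k x.1 x.2 / A) := by
  have hK0 : 0 < K := by linarith
  have hL0 : 0 < L := by linarith
  have hA0 : 0 < A := by linarith
  set KS := (Icc 1 ⌊5 / 2 * K⌋₊).filter Odd with hKS
  -- rewrite both sides as sums over sigma types
  have e1 : ∑ a ∈ IA ⌊2 * A⌋₊, gB ((a : ℝ) / A) * ∑ k ∈ KS,
      kB ((k : ℝ) / K) * Th lam k * ∑ p ∈ PP X (a, k), b (val a p.1 / k) * b (val a p.2 / k)
      = ∑ t ∈ (IA ⌊2 * A⌋₊ ×ˢ KS).sigma (fun t => PP X t), gB ((t.1.1 : ℝ) / A) *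
        (kB ((t.1.2 : ℝ) / K) * Th lam t.1.2 *
          (b (val t.1.1 t.2.1 / t.1.2) * b (val t.1.1 t.2.2 / t.1.2))) := by
    rw [Finset.sum_sigma, Finset.sum_product]
    apply Finset.sum_congr rfl
    intro a _
    rw [Finset.mul_sum]
    apply Finset.sum_congr rfl
    intro k _
    rw [Finset.mul_sum, Finset.mul_sum]
  have e2 : ∑ d ∈ Icc 1 ⌊√(L / K) / 4⌋₊, ∑ k ∈ KS,
      kB ((k : ℝ) / K) * Th lam k * ∑ x ∈ prs L d, b x.1 * b x.2 * gB (aq d k x.1 x.2 / A)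
      = ∑ t ∈ (Icc 1 ⌊√(L / K) / 4⌋₊).sigma (fun d => KS ×ˢ prs L d),
        kB ((t.2.1 : ℝ) / K) * Th lam t.2.1 *
          (b t.2.2.1 * b t.2.2.2 * gB (aq t.1 t.2.1 t.2.2.1 t.2.2.2 / A)) := by
    rw [Finset.sum_sigma]
    apply Finset.sum_congr rfl
    intro d _
    rw [Finset.sum_product]
    apply Finset.sum_congr rfl
    intro k _
    rw [Finset.mul_sum]
  rw [e1, e2]
  -- facts on the left
  have left_facts : ∀ t : (_ : ℤ × ℕ) × (ℕ × ℕ),
      t ∈ (IA ⌊2 * A⌋₊ ×ˢ KS).sigma (fun t => PP X t) →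
      gB ((t.1.1 : ℝ) / A) * (kB ((t.1.2 : ℝ) / K) * Th lam t.1.2 *
          (b (val t.1.1 t.2.1 / t.1.2) * b (val t.1.1 t.2.2 / t.1.2))) ≠ 0 →
      ∃ d : ℕ, 1 ≤ d ∧ t.2.2 = t.2.1 + 2 * t.1.2 * d ∧
        (val t.1.1 t.2.2 / t.1.2) = (val t.1.1 t.2.1 / t.1.2) + 4 * d * (t.2.1 + t.1.2 * d) ∧
        (t.2.2 - t.2.1) / (2 * t.1.2) = d ∧
        (t.1.1 : ℝ) = aq d t.1.2 (val t.1.1 t.2.1 / t.1.2) (val t.1.1 t.2.2 / t.1.2) ∧
        16 * (d : ℝ) ^ 2 * K ≤ L ∧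
        L < ((val t.1.1 t.2.1 / t.1.2 : ℕ) : ℝ) ∧
        ((val t.1.1 t.2.2 / t.1.2 : ℕ) : ℝ) ≤ 5 / 4 * L := by
    rintro ⟨⟨a, k⟩, ⟨n, n'⟩⟩ ht hne
    simp only [mem_sigma, mem_product, PP, mem_filter, mem_Icc] at ht
    obtain ⟨⟨_, hkS⟩, ⟨⟨⟨hn1, _⟩, _, _⟩, hnn, hmod, hdvd⟩⟩ := ht
    rw [hKS, mem_filter] at hkS
    have hkodd := hkS.2
    simp only at hne
    have g1 : gB ((a : ℝ) / A) ≠ 0 := left_ne_zero_of_mul hne
    have g2 := right_ne_zero_of_mul hne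
    have g3 : b (val a n / k) * b (val a n' / k) ≠ 0 := right_ne_zero_of_mul g2
    have g4 : b (val a n / k) ≠ 0 := left_ne_zero_of_mul g3
    have g5 : b (val a n' / k) ≠ 0 := right_ne_zero_of_mul g3
    have g6 : kB ((k : ℝ) / K) ≠ 0 := left_ne_zero_of_mul (left_ne_zero_of_mul g2)
    have ha : |(a : ℝ)| < 2 * A := by
      have := gB_supp g1
      rwa [abs_div, abs_of_pos hA0, div_lt_iff₀ hA0] at this
    have hk2 : K / 2 < k := by
      have := (kB_supp g6).1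
      rw [lt_div_iff₀ hK0] at this
      linarith
    obtain ⟨huo, huL, huL2⟩ := hb _ g4
    obtain ⟨hvo, hvL, hvL2⟩ := hb _ g5
    have hdvd' : (k : ℤ) ∣ (n' : ℤ) ^ 2 + a := by
      rw [← dvd_mod_iff, ← hmod, dvd_mod_iff]
      exact hdvd
    have hu := val_facts hK hKL hA hA2 ha hk2 hdvd huL
    have hv := val_facts hK hKL hA hA2 ha hk2 hdvd' hvL
    obtain ⟨d, hd1, hd2, hd3, hd4, hd5⟩ := pair_facts hkodd hnn hmod hu hv (huo.trans hvo.symm)
    refine ⟨d, hd1, hd2, hd3, hd4, hd5, ?_, huL, hvL2⟩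
    -- size of d
    set u : ℕ := val a n / k with hudef
    set v : ℕ := val a n' / k with hvdef
    have hur : (n : ℝ) ^ 2 + a = k * u := by exact_mod_cast hu
    have hvr : (v : ℝ) = u + 4 * d * (n + k * d) := by rw [hd3]; push_cast; ring
    have h1 : 16 * (d : ℝ) * n ≤ L := by
      have : (0 : ℝ) ≤ (k : ℝ) * d * d := by positivity
      nlinarith
    have hn2 : 49 / 100 * (K * L) ≤ (n : ℝ) ^ 2 := by
      have h2 := abs_lt.mp ha
      have h3 : K / 2 * L ≤ k * u := mul_le_mul hk2.le huL.le hL0.le (by positivity)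
      nlinarith [h2.2]
    have h4 : (16 * (d : ℝ) * n) ^ 2 ≤ L ^ 2 := by
      apply pow_le_pow_left₀ (by positivity) h1
    have h5 : 256 * (d : ℝ) ^ 2 * (49 / 100 * (K * L)) ≤ L ^ 2 := by
      calc 256 * (d : ℝ) ^ 2 * (49 / 100 * (K * L)) ≤ 256 * (d : ℝ) ^ 2 * (n : ℝ) ^ 2 := by gcongr
        _ = (16 * (d : ℝ) * n) ^ 2 := by ring
        _ ≤ L ^ 2 := h4
    have h6 : (256 * 49 / 100 * (d : ℝ) ^ 2 * K) * L ≤ L * L := by nlinarith
    have h7 := le_of_mul_le_mul_right h6 hL0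
    have h8 : (0 : ℝ) ≤ (d : ℝ) ^ 2 * K := by positivity
    nlinarith
  apply Finset.sum_bij_ne_zero
    (fun t _ _ => ⟨(t.2.2 - t.2.1) / (2 * t.1.2),
      (t.1.2, (val t.1.1 t.2.1 / t.1.2, val t.1.1 t.2.2 / t.1.2))⟩)
  · -- membership
    rintro ⟨⟨a, k⟩, ⟨n, n'⟩⟩ ht hne
    obtain ⟨d, hd1, hd2, hd3, hd4, hd5, hd6, huL, hvL2⟩ := left_facts _ ht hne
    simp only [mem_sigma, mem_product, PP, mem_filter, mem_Icc] at ht
    obtain ⟨⟨_, hkS⟩, ⟨⟨⟨hn1, _⟩, _, _⟩, hnn, hmod, hdvd⟩⟩ := ht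
    simp only at hd2 hd3 hd4 huL hvL2 ⊢
    have huv : val a n / k < val a n' / k := by
      rw [hd3]
      have : 0 < 4 * d * (n + k * d) := by positivity
      omega
    have huvr : ((val a n / k : ℕ) : ℝ) < ((val a n' / k : ℕ) : ℝ) := by exact_mod_cast huv
    simp only [mem_sigma, mem_product, mem_Icc, prs, mem_filter, mem_Ioc]
    rw [hd4]
    refine ⟨⟨hd1, ?_⟩, hkS, ⟨⟨⟨?_, ?_⟩, ?_, ?_⟩, huv, ?_⟩⟩
    · apply Nat.le_floor
      rw [le_div_iff₀ (by norm_num)]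
      apply Real.le_sqrt_of_sq_le
      rw [le_div_iff₀ hK0]
      nlinarith
    · exact (Nat.floor_lt hL0.le).mpr huL
    · exact Nat.le_floor (by linarith)
    · exact (Nat.floor_lt hL0.le).mpr (by linarith)
    · exact Nat.le_floor hvL2
    · rw [hd3]
      exact ⟨n + k * d, by omega⟩
  · -- injectivity
    rintro ⟨⟨a, k⟩, ⟨n, n'⟩⟩ ht hne ⟨⟨a₂, k₂⟩, ⟨m, m'⟩⟩ ht2 hne2 heq
    obtain ⟨d, hd1, hd2, hd3, hd4, hd5, _, _, _⟩ := left_facts _ ht hne
    obtain ⟨e, he1, he2, he3, he4, he5, _, _, _⟩ := left_facts _ ht2 hne2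
    simp only at hd2 hd3 hd4 hd5 he2 he3 he4 he5 heq
    rw [hd4, he4] at heq
    simp only [Sigma.mk.injEq, heq_eq_eq, Prod.mk.injEq] at heq
    obtain ⟨h1, h2, h3, h4⟩ := heq
    subst h1 h2
    rw [← h3, ← h4] at he5
    have ha : a = a₂ := by
      have : (a : ℝ) = a₂ := by rw [hd5, he5]
      exact_mod_cast this
    subst ha
    rw [← h3, ← h4, hd3] at he3
    have h5 : 4 * d * (n + k * d) = 4 * d * (m + k * d) := by omega
    have h6 : n + k * d = m + k * d := Nat.eq_of_mul_eq_mul_left (by positivity) h5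
    have h7 : n = m := by omega
    subst h7
    rw [he2, hd2]
  · -- surjectivity
    rintro ⟨d, ⟨k, ⟨u, v⟩⟩⟩ ht hne
    simp only [mem_sigma, mem_product, mem_Icc, prs, mem_filter, mem_Ioc] at ht
    obtain ⟨⟨hd1, hdM⟩, hkS, ⟨⟨⟨hu1, hu2⟩, hv1, hv2⟩, huv, hdv⟩⟩ := ht
    simp only at hne
    have g1 := left_ne_zero_of_mul hne
    have g2 := right_ne_zero_of_mul hne
    have g3 : gB (aq d k u v / A) ≠ 0 := right_ne_zero_of_mul g2
    have g4 : b u ≠ 0 := left_ne_zero_of_mul (left_ne_zero_of_mul g2)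
    have g5 : b v ≠ 0 := right_ne_zero_of_mul (left_ne_zero_of_mul g2)
    have g6 : kB ((k : ℝ) / K) ≠ 0 := left_ne_zero_of_mul g1
    obtain ⟨huo, huL, huL2⟩ := hb _ g4
    obtain ⟨hvo, hvL, hvL2⟩ := hb _ g5
    have haq : |aq d k u v| < 2 * A := by
      have := gB_supp g3
      rwa [abs_div, abs_of_pos hA0, div_lt_iff₀ hA0] at this
    obtain ⟨hk3, hk4⟩ := kB_supp g6
    rw [lt_div_iff₀ hK0] at hk3
    rw [div_lt_iff₀ hK0] at hk4
    obtain ⟨s, hs⟩ := hdv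
    have hd0 : (0 : ℝ) < d := by exact_mod_cast hd1
    have hkpos : 0 < k := by
      rw [hKS, mem_filter, mem_Icc] at hkS
      exact hkS.1.1
    have hk0 : (0 : ℝ) < k := by exact_mod_cast hkpos
    have hdK : 16 * (d : ℝ) ^ 2 * K ≤ L := by
      have h1 : (d : ℝ) ≤ √(L / K) / 4 := (Nat.le_floor_iff (by positivity)).mp hdM
      have h2 : (4 * (d : ℝ)) ≤ √(L / K) := by linarith
      have h3 := Real.sq_sqrt (show 0 ≤ L / K by positivity)
      have h4 : (4 * (d : ℝ)) ^ 2 ≤ L / K := by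
        rw [← h3]
        apply pow_le_pow_left₀ (by positivity) h2
      rw [le_div_iff₀ hK0] at h4
      linarith
    have hvr : (v : ℝ) = u + 4 * d * s := by
      have : v = u + 4 * d * s := by omega
      rw [this]; push_cast; ring
    have haqe : aq d k u v = (k : ℝ) * (u + v) / 2 - (k : ℝ) ^ 2 * (d : ℝ) ^ 2 - (s : ℝ) ^ 2 := by
      unfold aq
      rw [hvr]
      have : ((u : ℝ) + 4 * d * s - u) / (4 * d) = s := by field_simp; ring
      rw [this]
    have hkd2 : (k : ℝ) ^ 2 * (d : ℝ) ^ 2 ≤ 5 / 32 * (k * L) := by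
      have h1 : (k : ℝ) ^ 2 * (d : ℝ) ^ 2 = k * (k * (d : ℝ) ^ 2) := by ring
      rw [h1]
      have h2 : (k : ℝ) * (d : ℝ) ^ 2 ≤ 5 / 32 * L := by nlinarith [sq_nonneg (d : ℝ)]
      nlinarith
    have habs := abs_lt.mp haq
    have hkL : 50 * (2 * A) ≤ k * L := by nlinarith
    have hs2 : (k : ℝ) ^ 2 * (d : ℝ) ^ 2 < (s : ℝ) ^ 2 := by nlinarith
    have hks : k * d < s := by
      have : ((k * d : ℕ) : ℝ) ^ 2 < (s : ℝ) ^ 2 := by push_cast; nlinarith
      have := lt_of_pow_lt_pow_left₀ 2 (by positivity) this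
      exact_mod_cast this
    obtain ⟨a, ha1, ha2⟩ := exists_pair (k := k) huv hs hks
    set n : ℕ := s - k * d with hn
    set n' : ℕ := s + k * d with hn'
    have hnn' : n' = n + 2 * k * d := by
      rw [hn', hn]
      have h9 : 2 * k * d = k * d + k * d := by ring
      omega
    have hkod : Odd k := by
      rw [hKS, mem_filter] at hkS
      exact hkS.2
    have hmod : n % k = n' % k := by
      rw [hnn']
      have : n + 2 * k * d = n + k * (2 * d) := by ring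
      rw [this, Nat.add_mul_mod_self_left]
    have hlt : n < n' := by
      rw [hnn']
      have : 0 < 2 * k * d := by positivity
      omega
    obtain ⟨d', hd'1, hd'2, hd'3, hd'4, hd'5⟩ := pair_facts hkod hlt hmod ha1 ha2 (huo.trans hvo.symm)
    have hdd : d' = d := by
      have h1 : 2 * k * d' = 2 * k * d := by omega
      exact Nat.eq_of_mul_eq_mul_left (by positivity) h1
    subst hdd
    have hvaln : val a n / k = u := by
      unfold val
      rw [ha1]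
      have : ((k : ℤ) * u).natAbs = k * u := by
        rw [← Nat.cast_mul, Int.natAbs_natCast]
      rw [this, Nat.mul_div_cancel_left _ hkpos]
    have hvaln' : val a n' / k = v := by
      unfold val
      rw [ha2]
      have : ((k : ℤ) * v).natAbs = k * v := by
        rw [← Nat.cast_mul, Int.natAbs_natCast]
      rw [this, Nat.mul_div_cancel_left _ hkpos]
    have hadef : |(a : ℝ)| < 2 * A := by rw [hd'5]; exact haq
    have hmem : (⟨(a, k), (n, n')⟩ : (_ : ℤ × ℕ) × (ℕ × ℕ)) ∈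
        (IA ⌊2 * A⌋₊ ×ˢ KS).sigma (fun t => PP X t) := by
      simp only [mem_sigma, mem_product, PP, mem_filter, mem_Icc]
      have hn'X : n' ≤ X := by
        have h1 : (n' : ℝ) ^ 2 ≤ 4 * (K * L) := by
          have h2 : (n' : ℝ) ^ 2 + a = k * v := by exact_mod_cast ha2
          have h3 : (k : ℝ) * v ≤ (5 / 2 * K) * (5 / 4 * L) := by
            apply mul_le_mul (by linarith) hvL2 (by positivity) (by positivity)
          have h4 := abs_lt.mp hadef
          nlinarith [h4.1]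
        have h2 : (n' : ℝ) ≤ 2 * √(K * L) := by
          have h3 : (n' : ℝ) ≤ √(4 * (K * L)) := Real.le_sqrt_of_sq_le h1
          rwa [Real.sqrt_mul (by norm_num), show √(4 : ℝ) = 2 by
            rw [show (4 : ℝ) = 2 ^ 2 by norm_num]; exact Real.sqrt_sq (by norm_num)] at h3
        exact_mod_cast h2.trans hX
      refine ⟨⟨?_, hkS⟩, ⟨⟨⟨by omega, by omega⟩, by omega, hn'X⟩, hlt, hmod, ⟨u, ha1⟩⟩⟩
      unfold IA
      rw [mem_Icc]
      have h5 := abs_lt.mp hadef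
      have h6 : a ≤ ((⌊2 * A⌋₊ : ℕ) : ℤ) := by
        rw [Int.natCast_floor_eq_floor (by positivity)]
        exact Int.le_floor.mpr h5.2.le
      have h7 : -a ≤ ((⌊2 * A⌋₊ : ℕ) : ℤ) := by
        rw [Int.natCast_floor_eq_floor (by positivity)]
        apply Int.le_floor.mpr
        push_cast
        linarith [h5.1]
      constructor
      · omega
      · exact h6
    refine ⟨⟨(a, k), (n, n')⟩, hmem, ?_, ?_⟩
    · simp only [hvaln, hvaln', hd'5]
      intro h0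
      apply hne
      linear_combination h0
    · simp only [hd'4, hvaln, hvaln']
  · rintro ⟨⟨a, k⟩, ⟨n, n'⟩⟩ ht hne
    obtain ⟨d, hd1, hd2, hd3, hd4, hd5, _, _, _⟩ := left_facts _ ht hne
    simp only at hd4 hd5 ⊢
    rw [hd4, ← hd5]
    ring

lemma Sd_bound {K L A e C : ℝ} {d D : ℕ} {b : ℕ → ℝ} (hK : 1 ≤ K) (hA : 1 ≤ A)
    (hb1 : ∀ u, |b u| ≤ 1)
    (hC : ((((Icc 1 ⌊4 * K⌋₊) ×ˢ (prs L d)).filter (fun t =>
      |aq d t.1 t.2.1 t.2.2| ≤ 4 * A)).card : ℝ) ≤ C * (K * L) ^ e * A * √(K * L)) :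
    |Sd K L A d D b| ≤ C * (K * L) ^ e * A * √(K * L) := by
  refine le_trans ?_ hC
  unfold Sd
  refine (Finset.abs_sum_le_sum_abs _ _).trans ?_
  have h1 : ∀ k ∈ (Icc 1 ⌊5 / 2 * K⌋₊).filter (fun k => Odd k ∧ D ∣ k),
      |kB ((k : ℝ) / K) * ∑ x ∈ prs L d, b x.1 * b x.2 * gB (aq d k x.1 x.2 / A)|
      ≤ ∑ x ∈ prs L d, (if |aq d k x.1 x.2| ≤ 4 * A then 1 else 0) := by
    intro k _
    rw [abs_mul, abs_of_nonneg (kB_nonneg _)]
    calc kB ((k : ℝ) / K) * |∑ x ∈ prs L d, b x.1 * b x.2 * gB (aq d k x.1 x.2 / A)|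
        ≤ 1 * |∑ x ∈ prs L d, b x.1 * b x.2 * gB (aq d k x.1 x.2 / A)| := by
          gcongr
          exact kB_le _
      _ ≤ ∑ x ∈ prs L d, |b x.1 * b x.2 * gB (aq d k x.1 x.2 / A)| := by
          rw [one_mul]
          exact Finset.abs_sum_le_sum_abs _ _
      _ ≤ _ := by
          apply Finset.sum_le_sum
          intro x _
          by_cases h : b x.1 * b x.2 * gB (aq d k x.1 x.2 / A) = 0
          · rw [h, abs_zero]
            split_ifs <;> norm_num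
          · have g2 : gB (aq d k x.1 x.2 / A) ≠ 0 := right_ne_zero_of_mul h
            have g3 := gB_supp g2
            have hA0 : 0 < A := by linarith
            rw [abs_div, abs_of_pos hA0, div_lt_iff₀ hA0] at g3
            rw [if_pos (by linarith)]
            rw [abs_mul, abs_mul, abs_of_nonneg (gB_nonneg _)]
            have h2 := hb1 x.1
            have h3 := hb1 x.2
            have h4 := gB_le (aq d k x.1 x.2 / A)
            have h5 := gB_nonneg (aq d k x.1 x.2 / A)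
            calc |b x.1| * |b x.2| * gB (aq d k x.1 x.2 / A) ≤ 1 * 1 * 1 := by gcongr
              _ = 1 := by norm_num
  refine (Finset.sum_le_sum h1).trans ?_
  have h2 : (Icc 1 ⌊5 / 2 * K⌋₊).filter (fun k => Odd k ∧ D ∣ k) ⊆ Icc 1 ⌊4 * K⌋₊ := by
    refine (Finset.filter_subset _ _).trans ?_
    apply Finset.Icc_subset_Icc_right
    apply Nat.floor_le_floor
    linarith
  refine (Finset.sum_le_sum_of_subset_of_nonneg h2 ?_).trans ?_
  · intro k _ _
    apply Finset.sum_nonneg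
    intro x _
    split_ifs <;> norm_num
  · rw [← Finset.sum_product', Finset.card_filter]
    push_cast
    exact le_rfl

lemma diag {K L A y e Cd : ℝ} {X r : ℕ} {b lam : ℕ → ℝ} (hK : 1 ≤ K) (hKL : K ≤ L) (hA : 1 ≤ A)
    (hA2 : 200 * A ≤ K * L) (hy : 1 ≤ y) (he : 0 ≤ e)
    (hCd : ∀ n : ℕ, 0 < n → (n.divisors.card : ℝ) ≤ Cd * (n : ℝ) ^ e) (hCd0 : 0 ≤ Cd)
    (hl1 : ∀ d, |lam d| ≤ 1) (hl : ∀ d, lam d ≠ 0 → 1 ≤ d ∧ (d : ℝ) ≤ y)
    (hb1 : ∀ u, |b u| ≤ 1)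
    (hb : ∀ u, b u ≠ 0 → u % 2 = r ∧ L < (u : ℝ) ∧ (u : ℝ) ≤ 5 / 4 * L) :
    |∑ a ∈ IA ⌊2 * A⌋₊, gB ((a : ℝ) / A) * ∑ k ∈ (Icc 1 ⌊5 / 2 * K⌋₊).filter Odd,
      kB ((k : ℝ) / K) * Th lam k *
        ∑ n ∈ Icc 1 X, (if (k : ℤ) ∣ (n : ℤ) ^ 2 + a then (b (val a n / k)) ^ 2 else 0)|
      ≤ y ^ 2 * (5 * A) * (2 * √(K * L)) * (Cd * (4 * (K * L)) ^ e) := by
  have hK0 : 0 < K := by linarith
  have hL0 : 0 < L := by linarith
  have hA0 : 0 < A := by linarith
  set S := √(K * L) with hS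
  have hS0 : 0 ≤ S := Real.sqrt_nonneg _
  have hS2 : S ^ 2 = K * L := Real.sq_sqrt (by positivity)
  set KS := (Icc 1 ⌊5 / 2 * K⌋₊).filter Odd with hKS
  refine (Finset.abs_sum_le_sum_abs _ _).trans ?_
  have h1 : ∀ a ∈ IA ⌊2 * A⌋₊, |gB ((a : ℝ) / A) * ∑ k ∈ KS, kB ((k : ℝ) / K) * Th lam k *
        ∑ n ∈ Icc 1 X, (if (k : ℤ) ∣ (n : ℤ) ^ 2 + a then (b (val a n / k)) ^ 2 else 0)|
      ≤ y ^ 2 * (2 * S) * (Cd * (4 * (K * L)) ^ e) := by
    intro a _
    have e1 : gB ((a : ℝ) / A) * ∑ k ∈ KS, kB ((k : ℝ) / K) * Th lam k *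
        ∑ n ∈ Icc 1 X, (if (k : ℤ) ∣ (n : ℤ) ^ 2 + a then (b (val a n / k)) ^ 2 else 0)
        = ∑ n ∈ Icc 1 X, ∑ k ∈ KS, gB ((a : ℝ) / A) * (kB ((k : ℝ) / K) * Th lam k *
          (if (k : ℤ) ∣ (n : ℤ) ^ 2 + a then (b (val a n / k)) ^ 2 else 0)) := by
      rw [Finset.mul_sum, Finset.sum_comm]
      apply Finset.sum_congr rfl
      intro k _
      rw [Finset.mul_sum, Finset.mul_sum]
    rw [e1]
    have h2 : ∀ n ∈ Icc 1 X, ∀ k ∈ KS, |gB ((a : ℝ) / A) * (kB ((k : ℝ) / K) * Th lam k *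
          (if (k : ℤ) ∣ (n : ℤ) ^ 2 + a then (b (val a n / k)) ^ 2 else 0))|
        ≤ if n ∈ Icc 1 ⌊2 * S⌋₊ ∧ 0 < val a n ∧ (val a n : ℝ) ≤ 4 * (K * L) ∧
            k ∈ (val a n).divisors then y ^ 2 else 0 := by
      intro n hn k hk
      rw [hKS, mem_filter, mem_Icc] at hk
      rw [mem_Icc] at hn
      obtain ⟨hT0, hT1⟩ := Th_le hy hl1 hl hk.1.1
      by_cases hz : gB ((a : ℝ) / A) * (kB ((k : ℝ) / K) * Th lam k *
          (if (k : ℤ) ∣ (n : ℤ) ^ 2 + a then (b (val a n / k)) ^ 2 else 0)) = 0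
      · rw [hz, abs_zero]
        split_ifs
        · positivity
        · exact le_rfl
      · have g1 := left_ne_zero_of_mul hz
        have g2 := right_ne_zero_of_mul hz
        have g3 : kB ((k : ℝ) / K) ≠ 0 := left_ne_zero_of_mul (left_ne_zero_of_mul g2)
        have g4 := right_ne_zero_of_mul g2
        have hdvd : (k : ℤ) ∣ (n : ℤ) ^ 2 + a := by
          by_contra h
          rw [if_neg h] at g4
          exact g4 rfl
        rw [if_pos hdvd] at g4 ⊢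
        have g5 : b (val a n / k) ≠ 0 := fun h => g4 (by rw [h]; norm_num)
        obtain ⟨huo, huL, huL2⟩ := hb _ g5
        have ha : |(a : ℝ)| < 2 * A := by
          have := gB_supp g1
          rwa [abs_div, abs_of_pos hA0, div_lt_iff₀ hA0] at this
        obtain ⟨hk2, hk3⟩ := kB_supp g3
        rw [lt_div_iff₀ hK0] at hk2
        rw [div_lt_iff₀ hK0] at hk3
        have hu := val_facts hK hKL hA hA2 ha (by linarith) hdvd huL
        set u : ℕ := val a n / k with hudef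
        have hval : val a n = k * u := by
          unfold val
          rw [hu, ← Nat.cast_mul, Int.natAbs_natCast]
        have hur : (n : ℝ) ^ 2 + a = k * u := by exact_mod_cast hu
        have hku : (k : ℝ) * u ≤ (5 / 2 * K) * (5 / 4 * L) := by
          apply mul_le_mul hk3.le huL2 (by positivity) (by positivity)
        have habs := abs_lt.mp ha
        have hn2 : (n : ℝ) ^ 2 ≤ (2 * S) ^ 2 := by nlinarith [habs.1]
        have hnS : (n : ℝ) ≤ 2 * S := le_of_sq_le_sq hn2 (by positivity)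
        have hupos : 0 < u := by
          have : (0 : ℝ) < u := by linarith
          exact_mod_cast this
        rw [if_pos]
        · rw [abs_mul, abs_mul, abs_mul, abs_of_nonneg (gB_nonneg _), abs_of_nonneg (kB_nonneg _),
            abs_of_nonneg hT0, abs_pow]
          calc gB ((a : ℝ) / A) * (kB ((k : ℝ) / K) * Th lam k * |b u| ^ 2)
              ≤ 1 * (1 * y ^ 2 * 1 ^ 2) := by
                have := gB_le ((a : ℝ) / A)
                have := gB_nonneg ((a : ℝ) / A)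
                have := kB_le ((k : ℝ) / K)
                have := kB_nonneg ((k : ℝ) / K)
                have := hb1 u
                gcongr
            _ = y ^ 2 := by ring
        · refine ⟨?_, ?_, ?_, ?_⟩
          · rw [mem_Icc]
            exact ⟨hn.1, Nat.le_floor hnS⟩
          · rw [hval]
            exact Nat.mul_pos hk.1.1 hupos
          · rw [hval]
            push_cast
            nlinarith
          · rw [Nat.mem_divisors, hval]
            exact ⟨⟨u, rfl⟩, (Nat.mul_pos hk.1.1 hupos).ne'⟩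
    refine (Finset.abs_sum_le_sum_abs _ _).trans ?_
    refine (Finset.sum_le_sum fun n hn => (Finset.abs_sum_le_sum_abs _ _).trans
      (Finset.sum_le_sum (h2 n hn))).trans ?_
    -- inner sum over k
    have h3 : ∀ n ∈ Icc 1 X, ∑ k ∈ KS, (if n ∈ Icc 1 ⌊2 * S⌋₊ ∧ 0 < val a n ∧
        (val a n : ℝ) ≤ 4 * (K * L) ∧ k ∈ (val a n).divisors then y ^ 2 else 0)
        ≤ if n ∈ Icc 1 ⌊2 * S⌋₊ then y ^ 2 * (Cd * (4 * (K * L)) ^ e) else 0 := by
      intro n _
      by_cases hn : n ∈ Icc 1 ⌊2 * S⌋₊ ∧ 0 < val a n ∧ (val a n : ℝ) ≤ 4 * (K * L)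
      · rw [if_pos hn.1]
        have h4 : ∑ k ∈ KS, (if n ∈ Icc 1 ⌊2 * S⌋₊ ∧ 0 < val a n ∧
            (val a n : ℝ) ≤ 4 * (K * L) ∧ k ∈ (val a n).divisors then y ^ 2 else 0)
            ≤ ∑ k ∈ (val a n).divisors, y ^ 2 := by
          rw [← Finset.sum_filter]
          apply Finset.sum_le_sum_of_subset_of_nonneg
          · intro k hk
            rw [mem_filter] at hk
            exact hk.2.2.2.2
          · intro k _ _
            positivity
        refine h4.trans ?_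
        rw [Finset.sum_const, nsmul_eq_mul, mul_comm]
        have h5 := hCd _ hn.2.1
        have h6 : (val a n : ℝ) ^ e ≤ (4 * (K * L)) ^ e :=
          Real.rpow_le_rpow (by positivity) hn.2.2 he
        gcongr
        refine h5.trans ?_
        gcongr
      · have h4 : ∑ k ∈ KS, (if n ∈ Icc 1 ⌊2 * S⌋₊ ∧ 0 < val a n ∧
            (val a n : ℝ) ≤ 4 * (K * L) ∧ k ∈ (val a n).divisors then y ^ 2 else 0) = 0 := by
          apply Finset.sum_eq_zero
          intro k _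
          rw [if_neg]
          rintro ⟨q1, q2, q3, _⟩
          exact hn ⟨q1, q2, q3⟩
        rw [h4]
        split_ifs
        · positivity
        · exact le_rfl
    refine (Finset.sum_le_sum h3).trans ?_
    rw [← Finset.sum_filter, Finset.sum_const, nsmul_eq_mul]
    have h4 : (((Icc 1 X).filter (fun n => n ∈ Icc 1 ⌊2 * S⌋₊)).card : ℝ) ≤ 2 * S := by
      have h5 : ((Icc 1 X).filter (fun n => n ∈ Icc 1 ⌊2 * S⌋₊)).card ≤ (Icc 1 ⌊2 * S⌋₊).card := by
        apply Finset.card_le_card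
        intro n hn
        rw [mem_filter] at hn
        exact hn.2
      rw [Nat.card_Icc, Nat.add_sub_cancel] at h5
      exact le_trans (by exact_mod_cast h5) (Nat.floor_le (by positivity))
    calc (((Icc 1 X).filter (fun n => n ∈ Icc 1 ⌊2 * S⌋₊)).card : ℝ)
          * (y ^ 2 * (Cd * (4 * (K * L)) ^ e))
        ≤ (2 * S) * (y ^ 2 * (Cd * (4 * (K * L)) ^ e)) := by gcongr
      _ = y ^ 2 * (2 * S) * (Cd * (4 * (K * L)) ^ e) := by ring
  refine (Finset.sum_le_card_nsmul _ _ _ h1).trans ?_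
  rw [nsmul_eq_mul]
  calc ((IA ⌊2 * A⌋₊).card : ℝ) * (y ^ 2 * (2 * S) * (Cd * (4 * (K * L)) ^ e))
      ≤ (5 * A) * (y ^ 2 * (2 * S) * (Cd * (4 * (K * L)) ^ e)) := by
        gcongr
        exact card_IA_le hA
    _ = _ := by ring

end SECP

open Pool.Agent.Lib.MP391708.QPA.SEC hiding pair_facts offdiag Sd_bound diag
open SECP in
theorem specSECP (hKER : SpecKERP) (hCOUNT : SpecCOUNTP) : SpecSECP := by
  intro τ hτ
  obtain ⟨σ', hσ0, hστ, X₁, hker⟩ := hKER τ hτ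
  set e : ℝ := σ' / 8 with he
  have he0 : 0 < e := by positivity
  obtain ⟨Cc, hCc0, hcount⟩ := hCOUNT e he0
  obtain ⟨Cd, hCd0, hdiv⟩ := Pool.Agent.Lib.MP_391708_nt.Div.card_divisors_le_rpow e he0
  set G : ℝ := |gI| with hG
  have hG0 : 0 ≤ G := abs_nonneg _
  set C' : ℝ := 2 * (Cc + 3 * G + 1) + 10 * (Cd * 4 ^ e) with hC'
  obtain ⟨X₂, hX₂⟩ : ∃ X₂ : ℝ, ∀ x : ℝ, X₂ ≤ x → C' ≤ x ^ (σ' / 2) := by
    have h1 : Tendsto (fun x : ℝ => x ^ (σ' / 2)) atTop atTop := tendsto_rpow_atTop (by positivity)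
    exact eventually_atTop.mp (h1.eventually_ge_atTop C')
  refine ⟨σ' / 8, by positivity, max (max X₁ X₂) (200 ^ 4), ?_⟩
  intro K L A y b lam X r hX₀ hK hKL hA hA34 hL1 hL2 hL3 hX hy1 hy2 hlam1 hlam hb1 hb
  have hN1 : X₁ ≤ K * L := ((le_max_left _ _).trans (le_max_left _ _)).trans hX₀
  have hN2 : X₂ ≤ K * L := ((le_max_right _ _).trans (le_max_left _ _)).trans hX₀
  have hN3 : (200 : ℝ) ^ 4 ≤ K * L := (le_max_right _ _).trans hX₀
  have hK0 : 0 < K := by linarith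
  have hL0 : 0 < L := by linarith
  have hA0 : 0 < A := by linarith
  set N : ℝ := K * L with hN
  have hNge1 : 1 ≤ N := le_trans (by norm_num) hN3
  have hN0 : 0 < N := by linarith
  -- A is small
  have hA2 : 200 * A ≤ N := by
    have h1 : (200 : ℝ) ≤ N ^ (1 / 4 : ℝ) := by
      have h2 : ((200 : ℝ) ^ 4) ^ (1 / 4 : ℝ) ≤ N ^ (1 / 4 : ℝ) :=
        Real.rpow_le_rpow (by norm_num) hN3 (by norm_num)
      have h3 : ((200 : ℝ) ^ 4) ^ (1 / 4 : ℝ) = 200 := by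
        rw [← Real.rpow_natCast, ← Real.rpow_mul (by norm_num)]
        norm_num
      linarith
    calc 200 * A ≤ N ^ (1 / 4 : ℝ) * N ^ (3 / 4 : ℝ) := by gcongr
      _ = N := by rw [← Real.rpow_add hN0]; norm_num
  set R : ℝ := √(L / K) with hR
  set S : ℝ := √N with hS
  have hR0 : 0 < R := Real.sqrt_pos.mpr (by positivity)
  have hS0 : 0 < S := Real.sqrt_pos.mpr hN0
  have hRS : R * S = L := by
    rw [hR, hS, ← Real.sqrt_mul (by positivity), hN]
    have : L / K * (K * L) = L ^ 2 := by field_simp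
    rw [this, Real.sqrt_sq hL0.le]
  -- the expansion
  set KS := (Icc 1 ⌊5 / 2 * K⌋₊).filter Odd with hKS
  set DG := ∑ a ∈ IA ⌊2 * A⌋₊, gB ((a : ℝ) / A) * ∑ k ∈ KS, kB ((k : ℝ) / K) * Th lam k *
        ∑ n ∈ Icc 1 X, (if (k : ℤ) ∣ (n : ℤ) ^ 2 + a then (b (val a n / k)) ^ 2 else 0) with hDG
  set OFF := ∑ a ∈ IA ⌊2 * A⌋₊, gB ((a : ℝ) / A) * ∑ k ∈ KS,
      kB ((k : ℝ) / K) * Th lam k * ∑ p ∈ PP X (a, k), b (val a p.1 / k) * b (val a p.2 / k)
      with hOFF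
  have hexp : Q2 X K A lam b = DG + 2 * OFF := by
    unfold Q2
    rw [hDG, hOFF, Finset.mul_sum, ← Finset.sum_add_distrib]
    apply Finset.sum_congr rfl
    intro a _
    have hring : ∀ g Y Z : ℝ, g * Y + 2 * (g * Z) = g * (Y + 2 * Z) := by
      intro g Y Z; ring
    rw [hring]
    congr 1
    rw [Finset.mul_sum, ← Finset.sum_add_distrib]
    apply Finset.sum_congr rfl
    intro k hk
    rw [mem_filter, mem_Icc] at hk
    rw [fan_sq X a (by omega) b]
    simp only [PP]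
    ring
  have hOFF2 := offdiag (lam := lam) hK hKL hA hA2 hX hb
  have hlam' : ∀ d, lam d ≠ 0 → 1 ≤ d ∧ (d : ℝ) ≤ y := fun d hd => ⟨(hlam d hd).1, (hlam d hd).2.1⟩
  have hOFF3 : OFF = ∑ d ∈ Icc 1 ⌊R / 4⌋₊, ∑ δ ∈ Icc 1 ⌊y⌋₊, ∑ ε ∈ Icc 1 ⌊y⌋₊,
      lam δ * lam ε * Sd K L A d (Nat.lcm δ ε) b := by
    rw [hOFF, hOFF2]
    apply Finset.sum_congr rfl
    intro d _
    exact sum_k hlam' d
  have hmain : A * gI * QF y lam * Wsum K L b = ∑ d ∈ Icc 1 ⌊R / 4⌋₊, ∑ δ ∈ Icc 1 ⌊y⌋₊,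
      ∑ ε ∈ Icc 1 ⌊y⌋₊, lam δ * lam ε * (A * gI / (Nat.lcm δ ε : ℝ) * Wd K L d b) := by
    unfold QF Wsum
    rw [Finset.mul_sum]
    apply Finset.sum_congr rfl
    intro d _
    rw [Finset.mul_sum, Finset.sum_mul]
    apply Finset.sum_congr rfl
    intro δ _
    rw [Finset.mul_sum, Finset.sum_mul]
    apply Finset.sum_congr rfl
    intro ε _
    ring
  have hdiff : Q2 X K A lam b - A * gI * QF y lam * Wsum K L b = DG
      + ∑ d ∈ Icc 1 ⌊R / 4⌋₊, ∑ δ ∈ Icc 1 ⌊y⌋₊, ∑ ε ∈ Icc 1 ⌊y⌋₊, lam δ * lam ε *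
        (2 * (Sd K L A d (Nat.lcm δ ε) b - A * gI / (2 * (Nat.lcm δ ε : ℝ)) * Wd K L d b)) := by
    rw [hexp, hOFF3, hmain, add_sub_assoc, Finset.mul_sum, ← Finset.sum_sub_distrib]
    congr 1
    apply Finset.sum_congr rfl
    intro d _
    rw [Finset.mul_sum, ← Finset.sum_sub_distrib]
    apply Finset.sum_congr rfl
    intro δ _
    rw [Finset.mul_sum, ← Finset.sum_sub_distrib]
    apply Finset.sum_congr rfl
    intro ε _
    have h3 : A * gI / (2 * (Nat.lcm δ ε : ℝ)) = A * gI / (Nat.lcm δ ε : ℝ) / 2 := by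
      rw [mul_comm 2, div_div]
    rw [h3]
    ring
  -- the bound for one term
  have hNe : 1 ≤ N ^ e := Real.one_le_rpow hNge1 he0.le
  set E : ℕ → ℝ := fun d => A * S * N ^ (-σ') +
    (if (d : ℝ) < R * N ^ (-σ') then A * S * (Cc + 3 * G) * N ^ e else 0) with hE
  have hE0 : ∀ d, 0 ≤ E d := by
    intro d
    simp only [hE]
    have : 0 ≤ (if (d : ℝ) < R * N ^ (-σ') then A * S * (Cc + 3 * G) * N ^ e else 0) := by
      split_ifs <;> positivity
    positivity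
  have hterm : ∀ d ∈ Icc 1 ⌊R / 4⌋₊, ∀ δ ∈ Icc 1 ⌊y⌋₊, ∀ ε ∈ Icc 1 ⌊y⌋₊, |lam δ * lam ε *
        (2 * (Sd K L A d (Nat.lcm δ ε) b - A * gI / (2 * (Nat.lcm δ ε : ℝ)) * Wd K L d b))|
      ≤ 2 * E d := by
    intro d hd δ _ ε _
    rw [mem_Icc] at hd
    have hdR : (d : ℝ) ≤ R / 4 := (Nat.le_floor_iff (by positivity)).mp hd.2
    by_cases hz : lam δ * lam ε = 0
    · rw [hz, zero_mul, abs_zero]
      have := hE0 d
      linarith
    · have q1 := hlam δ (left_ne_zero_of_mul hz)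
      have q2 := hlam ε (right_ne_zero_of_mul hz)
      set D := Nat.lcm δ ε with hD
      have hDpos : 0 < D := Nat.lcm_pos q1.1 q2.1
      have hD1 : (1 : ℝ) ≤ D := by exact_mod_cast hDpos
      have hDodd : Odd D := by
        have h4 : D ∣ δ * ε := Nat.lcm_dvd_mul δ ε
        exact Odd.of_dvd_nat (q1.2.2.mul q2.2.2) h4
      have hDle : (D : ℝ) ≤ N ^ σ' := by
        have h4 : D ≤ δ * ε := Nat.le_of_dvd (Nat.mul_pos q1.1 q2.1) (Nat.lcm_dvd_mul δ ε)
        have h5 : (D : ℝ) ≤ δ * ε := by exact_mod_cast h4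
        calc (D : ℝ) ≤ δ * ε := h5
          _ ≤ y * y := by
            have := q1.2.1
            have := q2.2.1
            gcongr
          _ ≤ N ^ (σ' / 8) * N ^ (σ' / 8) := by gcongr
          _ = N ^ (σ' / 4) := by rw [← Real.rpow_add hN0]; congr 1; ring
          _ ≤ N ^ σ' := Real.rpow_le_rpow_of_exponent_le hNge1 (by linarith)
      have hll : |lam δ * lam ε| ≤ 1 := by
        rw [abs_mul]
        have := hlam1 δ
        have := hlam1 ε
        calc |lam δ| * |lam ε| ≤ 1 * 1 := by gcongr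
          _ = 1 := one_mul 1
      rw [abs_mul (lam δ * lam ε), abs_mul (2 : ℝ), abs_of_pos (by norm_num : (0 : ℝ) < 2)]
      have hcore : |Sd K L A d D b - A * gI / (2 * (D : ℝ)) * Wd K L d b| ≤ E d := by
        simp only [hE]
        by_cases hsmall : (d : ℝ) < R * N ^ (-σ')
        · rw [if_pos hsmall]
          have h4 := Sd_bound (b := b) (D := D) hK hA hb1
            (hcount K L A d hK hKL hA (by linarith) hd.1 hdR)
          have h5 := Wd_bound (b := b) hK hKL hd.1 hb1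
          have h6 : |A * gI / (2 * (D : ℝ)) * Wd K L d b| ≤ A * G * (3 * S) := by
            rw [abs_mul, abs_div, abs_mul, abs_of_pos hA0, abs_of_pos (by positivity : (0 : ℝ) < 2 * D)]
            have h7 : A * |gI| / (2 * (D : ℝ)) ≤ A * G := by
              rw [div_le_iff₀ (by positivity)]
              have : 0 ≤ A * G := by positivity
              nlinarith
            calc A * |gI| / (2 * (D : ℝ)) * |Wd K L d b| ≤ (A * G) * (3 * S) := by gcongr
              _ = _ := by ring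
          have h8 : |Sd K L A d D b - A * gI / (2 * (D : ℝ)) * Wd K L d b|
              ≤ |Sd K L A d D b| + |A * gI / (2 * (D : ℝ)) * Wd K L d b| := abs_sub _ _
          have h9 : A * G * (3 * S) ≤ A * S * (3 * G) * N ^ e := by
            have : A * G * (3 * S) = A * S * (3 * G) * 1 := by ring
            rw [this]
            gcongr
          have h10 : 0 ≤ A * S * N ^ (-σ') := by positivity
          have h11 : Cc * N ^ e * A * S + A * S * (3 * G) * N ^ e = A * S * (Cc + 3 * G) * N ^ e := by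
            ring
          linarith
        · rw [if_neg hsmall, add_zero]
          push Not at hsmall
          exact hker K L A d D b hN1 hK hKL hA hA34 hL1 hL2 hDodd hDle hsmall hdR hd.1 hb1
      calc |lam δ * lam ε| * (2 * |Sd K L A d D b - A * gI / (2 * (D : ℝ)) * Wd K L d b|)
          ≤ 1 * (2 * E d) := by gcongr
        _ = 2 * E d := one_mul _
  -- sum over δ, ε
  have hy0 : 0 < y := by linarith
  have hsum1 : |∑ d ∈ Icc 1 ⌊R / 4⌋₊, ∑ δ ∈ Icc 1 ⌊y⌋₊, ∑ ε ∈ Icc 1 ⌊y⌋₊, lam δ * lam ε *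
        (2 * (Sd K L A d (Nat.lcm δ ε) b - A * gI / (2 * (Nat.lcm δ ε : ℝ)) * Wd K L d b))|
      ≤ ∑ d ∈ Icc 1 ⌊R / 4⌋₊, y ^ 2 * (2 * E d) := by
    refine (Finset.abs_sum_le_sum_abs _ _).trans (Finset.sum_le_sum ?_)
    intro d hd
    refine (Finset.abs_sum_le_sum_abs _ _).trans ?_
    have h4 : ∀ δ ∈ Icc 1 ⌊y⌋₊, |∑ ε ∈ Icc 1 ⌊y⌋₊, lam δ * lam ε *
        (2 * (Sd K L A d (Nat.lcm δ ε) b - A * gI / (2 * (Nat.lcm δ ε : ℝ)) * Wd K L d b))|
        ≤ y * (2 * E d) := by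
      intro δ hδ
      refine (Finset.abs_sum_le_sum_abs _ _).trans ?_
      refine (Finset.sum_le_card_nsmul _ _ _ (hterm d hd δ hδ)).trans ?_
      rw [nsmul_eq_mul, Nat.card_Icc, Nat.add_sub_cancel]
      have := hE0 d
      have := Nat.floor_le hy0.le
      gcongr
    refine (Finset.sum_le_card_nsmul _ _ _ h4).trans ?_
    rw [nsmul_eq_mul, Nat.card_Icc, Nat.add_sub_cancel]
    have h5 := hE0 d
    have h6 := Nat.floor_le hy0.le
    calc (⌊y⌋₊ : ℝ) * (y * (2 * E d)) ≤ y * (y * (2 * E d)) := by gcongr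
      _ = y ^ 2 * (2 * E d) := by ring
  have hsumE : ∑ d ∈ Icc 1 ⌊R / 4⌋₊, E d ≤ A * L * N ^ (-σ') * ((Cc + 3 * G + 1) * N ^ e) := by
    simp only [hE]
    rw [Finset.sum_add_distrib, ← Finset.sum_filter, Finset.sum_const, Finset.sum_const,
      nsmul_eq_mul, nsmul_eq_mul, Nat.card_Icc, Nat.add_sub_cancel]
    have h4 : (⌊R / 4⌋₊ : ℝ) ≤ R := (Nat.floor_le (by positivity)).trans (by linarith)
    have h5 : (((Icc 1 ⌊R / 4⌋₊).filter (fun d : ℕ => (d : ℝ) < R * N ^ (-σ'))).card : ℝ)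
        ≤ R * N ^ (-σ') := by
      have h6 : ((Icc 1 ⌊R / 4⌋₊).filter (fun d : ℕ => (d : ℝ) < R * N ^ (-σ'))).card
          ≤ (Icc 1 ⌊R * N ^ (-σ')⌋₊).card := by
        apply Finset.card_le_card
        intro d hd
        rw [mem_filter, mem_Icc] at hd
        rw [mem_Icc]
        exact ⟨hd.1.1, Nat.le_floor hd.2.le⟩
      rw [Nat.card_Icc, Nat.add_sub_cancel] at h6
      exact le_trans (by exact_mod_cast h6) (Nat.floor_le (by positivity))
    have h7 : (⌊R / 4⌋₊ : ℝ) * (A * S * N ^ (-σ')) ≤ A * L * N ^ (-σ') * (1 * N ^ e) := by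
      calc (⌊R / 4⌋₊ : ℝ) * (A * S * N ^ (-σ')) ≤ R * (A * S * N ^ (-σ')) * N ^ e := by
            have h8 : 0 ≤ R * (A * S * N ^ (-σ')) := by positivity
            have h9 : (⌊R / 4⌋₊ : ℝ) * (A * S * N ^ (-σ')) ≤ R * (A * S * N ^ (-σ')) := by gcongr
            nlinarith
        _ = A * (R * S) * N ^ (-σ') * (1 * N ^ e) := by ring
        _ = _ := by rw [hRS]
    have h8 : (((Icc 1 ⌊R / 4⌋₊).filter (fun d : ℕ => (d : ℝ) < R * N ^ (-σ'))).card : ℝ)
        * (A * S * (Cc + 3 * G) * N ^ e) ≤ A * L * N ^ (-σ') * ((Cc + 3 * G) * N ^ e) := by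
      calc (((Icc 1 ⌊R / 4⌋₊).filter (fun d : ℕ => (d : ℝ) < R * N ^ (-σ'))).card : ℝ)
            * (A * S * (Cc + 3 * G) * N ^ e)
          ≤ (R * N ^ (-σ')) * (A * S * (Cc + 3 * G) * N ^ e) := by gcongr
        _ = A * (R * S) * N ^ (-σ') * ((Cc + 3 * G) * N ^ e) := by ring
        _ = _ := by rw [hRS]
    calc _ ≤ A * L * N ^ (-σ') * (1 * N ^ e) + A * L * N ^ (-σ') * ((Cc + 3 * G) * N ^ e) :=
          add_le_add h7 h8
      _ = _ := by ring
  have hy2' : y ^ 2 ≤ N ^ (σ' / 4) := by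
    calc y ^ 2 = y * y := by ring
      _ ≤ N ^ (σ' / 8) * N ^ (σ' / 8) := by gcongr
      _ = N ^ (σ' / 4) := by rw [← Real.rpow_add hN0]; congr 1; ring
  have hoff : |∑ d ∈ Icc 1 ⌊R / 4⌋₊, ∑ δ ∈ Icc 1 ⌊y⌋₊, ∑ ε ∈ Icc 1 ⌊y⌋₊, lam δ * lam ε *
        (2 * (Sd K L A d (Nat.lcm δ ε) b - A * gI / (2 * (Nat.lcm δ ε : ℝ)) * Wd K L d b))|
      ≤ 2 * (Cc + 3 * G + 1) * (A * L * (N ^ (σ' / 4) * N ^ e * N ^ (-σ'))) := by
    refine hsum1.trans ?_
    rw [← Finset.mul_sum, ← Finset.mul_sum]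
    calc y ^ 2 * (2 * ∑ d ∈ Icc 1 ⌊R / 4⌋₊, E d)
        ≤ N ^ (σ' / 4) * (2 * (A * L * N ^ (-σ') * ((Cc + 3 * G + 1) * N ^ e))) := by
          have : 0 ≤ ∑ d ∈ Icc 1 ⌊R / 4⌋₊, E d := Finset.sum_nonneg (fun d _ => hE0 d)
          gcongr
      _ = _ := by ring
  -- the diagonal
  have hdiag := diag (X := X) (b := b) hK hKL hA hA2 hy1 he0.le hdiv hCd0.le hlam1 hlam' hb1 hb
  have hSle : S ≤ L * N ^ (-σ') := by
    have h4 : N ^ σ' ≤ R := (Real.rpow_le_rpow_of_exponent_le hNge1 hστ.le).trans hL3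
    have h5 : N ^ σ' * N ^ (-σ') = 1 := by rw [← Real.rpow_add hN0]; simp
    have h6 : 0 < N ^ (-σ') := Real.rpow_pos_of_pos hN0 _
    calc S = S * (N ^ σ' * N ^ (-σ')) := by rw [h5, mul_one]
      _ ≤ S * (R * N ^ (-σ')) := by gcongr
      _ = (R * S) * N ^ (-σ') := by ring
      _ = L * N ^ (-σ') := by rw [hRS]
  have hdiag2 : |DG| ≤ 10 * (Cd * 4 ^ e) * (A * L * (N ^ (σ' / 4) * N ^ e * N ^ (-σ'))) := by
    refine hdiag.trans ?_
    rw [Real.mul_rpow (by norm_num) hN0.le]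
    calc y ^ 2 * (5 * A) * (2 * S) * (Cd * (4 ^ e * N ^ e))
        ≤ N ^ (σ' / 4) * (5 * A) * (2 * (L * N ^ (-σ'))) * (Cd * (4 ^ e * N ^ e)) := by gcongr
      _ = _ := by ring
  -- conclusion
  have hpow : N ^ (σ' / 4) * N ^ e * N ^ (-σ') = N ^ (-(σ' / 2)) * N ^ (-(σ' / 8)) := by
    rw [← Real.rpow_add hN0, ← Real.rpow_add hN0, ← Real.rpow_add hN0, he]
    congr 1
    ring
  rw [hdiff]
  refine (abs_add_le _ _).trans ?_
  have htot : |DG| + |∑ d ∈ Icc 1 ⌊R / 4⌋₊, ∑ δ ∈ Icc 1 ⌊y⌋₊, ∑ ε ∈ Icc 1 ⌊y⌋₊, lam δ * lam ε *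
        (2 * (Sd K L A d (Nat.lcm δ ε) b - A * gI / (2 * (Nat.lcm δ ε : ℝ)) * Wd K L d b))|
      ≤ C' * (A * L * (N ^ (-(σ' / 2)) * N ^ (-(σ' / 8)))) := by
    rw [← hpow, hC']
    refine (add_le_add hdiag2 hoff).trans (le_of_eq ?_)
    ring
  refine htot.trans ?_
  have h12 := hX₂ N hN2
  have h13 : N ^ (σ' / 2) * N ^ (-(σ' / 2)) = 1 := by rw [← Real.rpow_add hN0]; simp
  have h14 : 0 < N ^ (-(σ' / 2)) := Real.rpow_pos_of_pos hN0 _
  have h15 : 0 < N ^ (-(σ' / 8)) := Real.rpow_pos_of_pos hN0 _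
  calc C' * (A * L * (N ^ (-(σ' / 2)) * N ^ (-(σ' / 8))))
      ≤ N ^ (σ' / 2) * (A * L * (N ^ (-(σ' / 2)) * N ^ (-(σ' / 8)))) := by gcongr
    _ = (N ^ (σ' / 2) * N ^ (-(σ' / 2))) * (A * L * N ^ (-(σ' / 8))) := by ring
    _ = A * L * N ^ (-(σ' / 8)) := by rw [h13, one_mul]

end Pool.Agent.Lib.MP391708.QPA.C
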