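import Pool.Agent.Lib.MP_391708_nt.QPA.C.SpecC
import Pool.Agent.Lib.MP_391708_nt.QPA.P3M
import Pool.Agent.Lib.MP_391708_nt.QPA.H.BLKE

/-!
# SMTC: the smooth part of `n² + a` is small
-/

set_option autoImplicit false

namespace Pool.Agent.Lib.MP391708.QPA.C

open Finset Filter Topology
open Pool.Agent.Lib.MP391708.QPA
open Pool.Agent.Lib.MP391708.QPA.H
open scoped Classical

namespace SMTCM

/-- the number of multiples of `q` in a shifted interval -/
theorem card_dvd (A : ℕ) (s : ℤ) (q : ℕ) (hq : 0 < q) :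
    (((IA A).filter (fun a => (q : ℤ) ∣ s + a)).card : ℝ) ≤ (2 * A + 1) / q + 1 := by
  have hinj : ((IA A).filter (fun a => (q : ℤ) ∣ s + a)).card
      = ((Ioc (s - A - 1) (s + A)).filter (fun x : ℤ => (q : ℤ) ∣ x)).card := by
    apply Finset.card_bij (fun a _ => s + a)
    · intro a ha
      rw [Finset.mem_filter, IA, Finset.mem_Icc] at ha
      rw [Finset.mem_filter, Finset.mem_Ioc]
      exact ⟨⟨by omega, by omega⟩, ha.2⟩
    · intro a _ b _ h
      omega
    · intro x hx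
      rw [Finset.mem_filter, Finset.mem_Ioc] at hx
      refine ⟨x - s, ?_, by ring⟩
      rw [Finset.mem_filter, IA, Finset.mem_Icc]
      refine ⟨⟨by omega, by omega⟩, ?_⟩
      have : s + (x - s) = x := by ring
      rw [this]
      exact hx.2
  rw [hinj]
  have hqZ : (0 : ℤ) < q := by exact_mod_cast hq
  have h := Int.Ioc_filter_dvd_card (s - A - 1) (s + A) hqZ
  have hqQ : (0 : ℚ) < ((q : ℤ) : ℚ) := by exact_mod_cast hq
  have h1 : ((⌊((s + A : ℤ) : ℚ) / ((q : ℤ) : ℚ)⌋ - ⌊((s - A - 1 : ℤ) : ℚ) / ((q : ℤ) : ℚ)⌋ : ℤ) : ℚ)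
      ≤ (2 * A + 1) / q + 1 := by
    have h2 : ((⌊((s + A : ℤ) : ℚ) / ((q : ℤ) : ℚ)⌋ : ℤ) : ℚ) ≤ ((s + A : ℤ) : ℚ) / ((q : ℤ) : ℚ) :=
      Int.floor_le _
    have h3 : ((s - A - 1 : ℤ) : ℚ) / ((q : ℤ) : ℚ) - 1
        < ((⌊((s - A - 1 : ℤ) : ℚ) / ((q : ℤ) : ℚ)⌋ : ℤ) : ℚ) := Int.sub_one_lt_floor _
    have h4 : ((s + A : ℤ) : ℚ) / ((q : ℤ) : ℚ) - ((s - A - 1 : ℤ) : ℚ) / ((q : ℤ) : ℚ)
        = (2 * A + 1) / q := by
      rw [← sub_div]
      push_cast
      congr 1
      ring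
    push_cast at h2 h3 h4 ⊢
    linarith
  have h5 : ((((Ioc (s - A - 1) (s + A)).filter (fun x : ℤ => (q : ℤ) ∣ x)).card : ℤ) : ℚ)
      ≤ (2 * A + 1) / q + 1 := by
    have h6 : ((((Ioc (s - A - 1) (s + A)).filter (fun x : ℤ => (q : ℤ) ∣ x)).card : ℕ) : ℤ)
        = max (⌊((s + A : ℤ) : ℚ) / ((q : ℤ) : ℚ)⌋ - ⌊((s - A - 1 : ℤ) : ℚ) / ((q : ℤ) : ℚ)⌋) 0 := by
      rw [h]
    rw [h6]
    push_cast at h1 ⊢
    exact max_le h1 (by positivity)
  have h7 : ((((Ioc (s - A - 1) (s + A)).filter (fun x : ℤ => (q : ℤ) ∣ x)).card : ℚ) : ℝ)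
      ≤ (((2 * A + 1) / q + 1 : ℚ) : ℝ) := by
    exact_mod_cast h5
  push_cast at h7
  exact h7

/-- the logarithm of the smooth part -/
theorem log_smp (z : ℝ) (m L : ℕ) (hm : m ≠ 0) (hL : m < 2 ^ L) :
    Real.log (smp z m : ℕ) ≤ ∑ p ∈ PB z, ∑ i ∈ Ico 1 L, if p ^ i ∣ m then Real.log p else 0 := by
  unfold smp
  rw [Nat.cast_prod, Real.log_prod]
  · have h1 : ∀ p ∈ PB z, ∑ i ∈ Ico 1 L, (if p ^ i ∣ m then Real.log p else 0)
        = (m.factorization p : ℝ) * Real.log p := by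
      intro p hp
      have hpp : p.Prime := by
        unfold PB at hp
        exact (Finset.mem_filter.1 hp).2
      rw [← Finset.sum_filter, Finset.sum_const, nsmul_eq_mul]
      congr 1
      rw [Nat.factorization_eq_card_pow_dvd_of_lt hpp (Nat.pos_of_ne_zero hm)
        (lt_of_lt_of_le hL (Nat.pow_le_pow_left hpp.two_le L))]
    rw [Finset.sum_congr rfl h1]
    have h2 : m.primeFactors.filter (fun p : ℕ => (p : ℝ) < z) ⊆ PB z := by
      intro p hp
      rw [Finset.mem_filter, Nat.mem_primeFactors] at hp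
      unfold PB
      rw [Finset.mem_filter, Finset.mem_range, Nat.lt_ceil]
      exact ⟨hp.2, hp.1.1⟩
    calc ∑ p ∈ m.primeFactors.filter (fun p : ℕ => (p : ℝ) < z),
          Real.log (((p ^ m.factorization p : ℕ)) : ℝ)
        = ∑ p ∈ m.primeFactors.filter (fun p : ℕ => (p : ℝ) < z),
          (m.factorization p : ℝ) * Real.log p := by
          apply Finset.sum_congr rfl
          intro p _
          rw [Nat.cast_pow, Real.log_pow]
      _ ≤ _ := by
          apply Finset.sum_le_sum_of_subset_of_nonneg h2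
          intro p _ _
          exact mul_nonneg (Nat.cast_nonneg _) (Real.log_natCast_nonneg _)
  · intro p hp
    rw [Finset.mem_filter, Nat.mem_primeFactors] at hp
    have : 0 < p := hp.1.1.pos
    positivity

/-- the geometric sum -/
theorem geo_sum {p : ℕ} (hp : 2 ≤ p) (L : ℕ) : ∑ i ∈ Ico 1 L, 1 / (p : ℝ) ^ i ≤ 2 / p := by
  have hpR : (2 : ℝ) ≤ p := by exact_mod_cast hp
  have hp0 : (0 : ℝ) < p := by linarith
  have key : ∀ L : ℕ, 1 ≤ L → ∑ i ∈ Ico 1 L, 1 / (p : ℝ) ^ i ≤ 2 / p - 1 / (p : ℝ) ^ L * 2 * p / p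
      ∨ L = 1 := by
    intro L
    induction L with
    | zero => intro h; omega
    | succ L ih =>
      intro _
      rcases Nat.eq_zero_or_pos L with rfl | hL
      · right; rfl
      · left
        rw [Finset.sum_Ico_succ_top hL]
        have e2 : 1 / (p : ℝ) ^ L = p * (1 / (p : ℝ) ^ (L + 1)) := by
          rw [pow_succ]
          field_simp
        have e3 : (0 : ℝ) < 1 / (p : ℝ) ^ (L + 1) := by positivity
        have e4 : 1 / (p : ℝ) ^ (L + 1) * 2 * p / p = 2 * (1 / (p : ℝ) ^ (L + 1)) := by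
          field_simp
        have e5 : 1 / (p : ℝ) ^ L * 2 * p / p = 2 * (1 / (p : ℝ) ^ L) := by
          field_simp
        rcases ih hL with h | h
        · rw [e4]
          rw [e5] at h
          have e6 : 2 * (1 / (p : ℝ) ^ (L + 1)) ≤ 1 / (p : ℝ) ^ L := by
            rw [e2]
            exact mul_le_mul_of_nonneg_right hpR e3.le
          linarith
        · subst h
          rw [e4]
          simp only [Finset.Ico_self, Finset.sum_empty, pow_one, zero_add]
          have e6 : 2 * (1 / (p : ℝ) ^ (1 + 1)) ≤ 1 / (p : ℝ) := by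
            rw [← pow_one (p : ℝ)] at e2
            have e2' := e2
            simp only [pow_one] at e2'
            rw [e2']
            exact mul_le_mul_of_nonneg_right hpR e3.le
          have e7 : 2 / (p : ℝ) = 1 / p + 1 / p := by ring
          linarith
  have h0 : (0 : ℝ) ≤ 2 / p := by positivity
  rcases Nat.eq_zero_or_pos L with rfl | hL
  · simpa using h0
  · rcases key L hL with h | h
    · refine h.trans ?_
      have : 0 ≤ 1 / (p : ℝ) ^ L * 2 * p / p := by positivity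
      linarith
    · subst h
      simpa using h0

/-- the sum over `a` for one `n` -/
theorem sum_a (A L n : ℕ) (z : ℝ) (hA : 1 ≤ A) (hz : 1 ≤ z) :
    ∑ a ∈ IA A, ∑ p ∈ PB z, ∑ i ∈ Ico 1 L, (if p ^ i ∣ val a n then Real.log p else 0)
      ≤ 6 * A * (Real.log z + 8) + L * ((z + 1) * Real.log z) := by
  have hAR : (1 : ℝ) ≤ A := by exact_mod_cast hA
  have h1 : ∀ p ∈ PB z, ∑ a ∈ IA A, ∑ i ∈ Ico 1 L, (if p ^ i ∣ val a n then Real.log p else 0)
      ≤ 6 * A * (Real.log p / p) + L * Real.log z := by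
    intro p hp
    unfold PB at hp
    rw [Finset.mem_filter, Finset.mem_range, Nat.lt_ceil] at hp
    have hpp := hp.2
    have hp2 : (2 : ℝ) ≤ p := by exact_mod_cast hpp.two_le
    have hp0 : (0 : ℝ) < p := by linarith
    have hlp : 0 ≤ Real.log p := Real.log_natCast_nonneg _
    have hlz : Real.log p ≤ Real.log z := Real.log_le_log hp0 hp.1.le
    rw [Finset.sum_comm]
    have h2 : ∀ i ∈ Ico 1 L, ∑ a ∈ IA A, (if p ^ i ∣ val a n then Real.log p else 0)
        ≤ (3 * A * (1 / (p : ℝ) ^ i) + 1) * Real.log p := by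
      intro i _
      rw [← Finset.sum_filter, Finset.sum_const, nsmul_eq_mul]
      apply mul_le_mul_of_nonneg_right _ hlp
      have h3 : (IA A).filter (fun a => p ^ i ∣ val a n)
          = (IA A).filter (fun a => ((p ^ i : ℕ) : ℤ) ∣ (n : ℤ) ^ 2 + a) := by
        apply Finset.filter_congr
        intro a _
        unfold val
        rw [← Int.natCast_dvd]
      rw [h3]
      refine (card_dvd A ((n : ℤ) ^ 2) (p ^ i) (pow_pos hpp.pos i)).trans ?_
      push_cast
      have h4 : (2 * (A : ℝ) + 1) / (p : ℝ) ^ i ≤ 3 * A * (1 / (p : ℝ) ^ i) := by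
        rw [mul_one_div]
        exact div_le_div_of_nonneg_right (by linarith) (by positivity)
      linarith
    calc ∑ i ∈ Ico 1 L, ∑ a ∈ IA A, (if p ^ i ∣ val a n then Real.log p else 0)
        ≤ ∑ i ∈ Ico 1 L, (3 * A * (1 / (p : ℝ) ^ i) + 1) * Real.log p := Finset.sum_le_sum h2
      _ = (3 * A * (∑ i ∈ Ico 1 L, 1 / (p : ℝ) ^ i) + (Ico 1 L).card) * Real.log p := by
          rw [← Finset.sum_mul, Finset.sum_add_distrib, ← Finset.mul_sum, Finset.sum_const,
            nsmul_eq_mul, mul_one]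
      _ ≤ (3 * A * (2 / p) + L) * Real.log p := by
          apply mul_le_mul_of_nonneg_right _ hlp
          apply add_le_add
          · exact mul_le_mul_of_nonneg_left (geo_sum hpp.two_le L) (by positivity)
          · rw [Nat.card_Ico]
            exact_mod_cast Nat.sub_le L 1
      _ = 6 * A * (Real.log p / p) + L * Real.log p := by ring
      _ ≤ 6 * A * (Real.log p / p) + L * Real.log z := by
          have := mul_le_mul_of_nonneg_left hlz (Nat.cast_nonneg (α := ℝ) L)
          linarith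
  rw [Finset.sum_comm]
  calc ∑ p ∈ PB z, ∑ a ∈ IA A, ∑ i ∈ Ico 1 L, (if p ^ i ∣ val a n then Real.log p else 0)
      ≤ ∑ p ∈ PB z, (6 * A * (Real.log p / p) + L * Real.log z) := Finset.sum_le_sum h1
    _ = 6 * A * (∑ p ∈ PB z, Real.log p / p) + (PB z).card * (L * Real.log z) := by
        rw [Finset.sum_add_distrib, ← Finset.mul_sum, Finset.sum_const, nsmul_eq_mul]
    _ ≤ 6 * A * (Real.log z + 8) + (z + 1) * (L * Real.log z) := by
        apply add_le_add
        · apply mul_le_mul_of_nonneg_left _ (by positivity)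
          have h2 : PB z ⊆ (Ioc ⌊(1 : ℝ)⌋₊ ⌊z⌋₊).filter Nat.Prime := by
            intro p hp
            unfold PB at hp
            rw [Finset.mem_filter, Finset.mem_range, Nat.lt_ceil] at hp
            rw [Finset.mem_filter, Finset.mem_Ioc, Nat.floor_one]
            exact ⟨⟨hp.2.one_lt, Nat.le_floor hp.1.le⟩, hp.2⟩
          have h3 := P3M.mert 1 z le_rfl hz
          rw [Real.log_one, sub_zero] at h3
          refine le_trans ?_ h3
          apply Finset.sum_le_sum_of_subset_of_nonneg h2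
          intro p _ _
          exact div_nonneg (Real.log_natCast_nonneg _) (Nat.cast_nonneg _)
        · apply mul_le_mul_of_nonneg_right
          · have h2 : (PB z).card ≤ ⌈z⌉₊ := by
              unfold PB
              refine (Finset.card_filter_le _ _).trans ?_
              rw [Finset.card_range]
            have h3 : (⌈z⌉₊ : ℝ) < z + 1 := Nat.ceil_lt_add_one (by linarith)
            have h4 : ((PB z).card : ℝ) ≤ ⌈z⌉₊ := by exact_mod_cast h2
            linarith
          · exact mul_nonneg (Nat.cast_nonneg _) (Real.log_nonneg hz)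
    _ = _ := by ring

/-- growth -/
theorem ev_growth (e0 : ℝ) (he0 : 0 < e0) (he1 : e0 ≤ 1 / 10) : ∀ᶠ N : ℕ in atTop,
    1 ≤ Real.log N ∧ 48 ≤ e0 / 2 * Real.log N ∧
      (3 * Real.log N + 4) * (((N : ℝ) ^ e0 + 1) * Real.log ((N : ℝ) ^ e0))
        ≤ e0 / 2 * Real.log N * (N : ℝ) ^ (1 / 2 : ℝ) := by
  have h1 : Tendsto (fun N : ℕ => Real.log (N : ℝ)) atTop atTop :=
    Real.tendsto_log_atTop.comp tendsto_natCast_atTop_atTop
  have h2 : ∀ᶠ x : ℝ in atTop, Real.log x ≤ x ^ (1 / 10 : ℝ) := by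
    have := (isLittleO_log_rpow_atTop (by norm_num : (0 : ℝ) < 1 / 10)).bound one_pos
    filter_upwards [this, eventually_ge_atTop (1 : ℝ)] with x hx hx1
    rw [one_mul, Real.norm_of_nonneg (Real.log_nonneg hx1),
      Real.norm_of_nonneg (Real.rpow_nonneg (by linarith) _)] at hx
    exact hx
  have h2' := tendsto_natCast_atTop_atTop (R := ℝ).eventually h2
  have h3 : Tendsto (fun N : ℕ => (N : ℝ) ^ (3 / 10 : ℝ)) atTop atTop :=
    (tendsto_rpow_atTop (by norm_num)).comp tendsto_natCast_atTop_atTop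
  filter_upwards [h1.eventually_ge_atTop 4, h1.eventually_ge_atTop (96 / e0), h2',
    h3.eventually_ge_atTop 16, eventually_ge_atTop 1] with N g1 g2 g3 g4 g5
  have hN1 : (1 : ℝ) ≤ N := by exact_mod_cast g5
  have hN0 : (0 : ℝ) < N := by linarith
  refine ⟨by linarith, ?_, ?_⟩
  · rw [div_le_iff₀ he0] at g2
    linarith
  · set l := Real.log (N : ℝ) with hl
    set x := (N : ℝ) ^ (1 / 10 : ℝ) with hx
    have hx1 : 1 ≤ x := Real.one_le_rpow hN1 (by norm_num)
    have ha : (N : ℝ) ^ e0 ≤ x := Real.rpow_le_rpow_of_exponent_le hN1 he1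
    have hb : Real.log ((N : ℝ) ^ e0) = e0 * l := Real.log_rpow hN0 e0
    have hc : (N : ℝ) ^ (1 / 2 : ℝ) = x ^ 2 * (N : ℝ) ^ (3 / 10 : ℝ) := by
      rw [hx, ← Real.rpow_natCast ((N : ℝ) ^ (1 / 10 : ℝ)) 2, ← Real.rpow_mul hN0.le,
        ← Real.rpow_add hN0]
      norm_num
    rw [hb, hc]
    have hl0 : 0 ≤ l := by linarith
    have h5 : 3 * l + 4 ≤ 4 * x := by linarith
    have h6 : (N : ℝ) ^ e0 + 1 ≤ 2 * x := by linarith
    have h7 : (0 : ℝ) ≤ (N : ℝ) ^ e0 := Real.rpow_nonneg hN0.le _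
    calc (3 * l + 4) * (((N : ℝ) ^ e0 + 1) * (e0 * l))
        ≤ (4 * x) * ((2 * x) * (e0 * l)) := by
          apply mul_le_mul h5 _ (by positivity) (by positivity)
          exact mul_le_mul_of_nonneg_right h6 (by positivity)
      _ = e0 / 2 * l * (x ^ 2 * 16) := by ring
      _ ≤ e0 / 2 * l * (x ^ 2 * (N : ℝ) ^ (3 / 10 : ℝ)) := by
          apply mul_le_mul_of_nonneg_left _ (by positivity)
          exact mul_le_mul_of_nonneg_left g4 (by positivity)

/-- a power of `2` above `5 N²` -/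
theorem exists_L (N : ℕ) (hN : 1 ≤ N) :
    ∃ L : ℕ, 5 * N ^ 2 < 2 ^ L ∧ (L : ℝ) ≤ 3 * Real.log N + 4 := by
  refine ⟨Nat.log 2 (5 * N ^ 2) + 1, Nat.lt_pow_succ_log_self (by norm_num) _, ?_⟩
  have hNR : (1 : ℝ) ≤ N := by exact_mod_cast hN
  have hN0 : (0 : ℝ) < N := by linarith
  have h1 : (2 : ℝ) ^ (Nat.log 2 (5 * N ^ 2)) ≤ 5 * (N : ℝ) ^ 2 := by
    have := Nat.pow_log_le_self 2 (x := 5 * N ^ 2) (by positivity)
    exact_mod_cast this
  have h2 := Real.log_le_log (by positivity) h1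
  rw [Real.log_pow, Real.log_mul (by norm_num) (by positivity), Real.log_pow] at h2
  have hl2 : (0.6931471803 : ℝ) < Real.log 2 := Real.log_two_gt_d9
  have hl5 : Real.log 5 ≤ 2 := by
    have h3 : Real.log 5 ≤ Real.log (Real.exp 1 ^ 2) := by
      apply Real.log_le_log (by norm_num)
      have := Real.exp_one_gt_d9
      nlinarith
    rw [Real.log_pow, Real.log_exp] at h3
    norm_num at h3
    exact h3
  have hlN : 0 ≤ Real.log N := Real.log_nonneg hNR
  push_cast at h2 ⊢
  set k : ℝ := (Nat.log 2 (5 * N ^ 2) : ℝ) with hk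
  have hk0 : 0 ≤ k := Nat.cast_nonneg _
  nlinarith

end SMTCM

open SMTCM in
theorem specSMTC : SpecSMTC := by
  refine ⟨7, by norm_num, ?_⟩
  intro θ e0 η hθ he0 he1 hη
  obtain ⟨N₀, hN₀⟩ := eventually_atTop.1 ((ev_growth e0 he0 he1).and
    ((BLKEM.adm_ev θ hθ).and (eventually_ge_atTop 2)))
  refine ⟨N₀, fun N A hN hA => ?_⟩
  obtain ⟨⟨g1, g2, g3⟩, hadm, hN2⟩ := hN₀ N hN
  obtain ⟨-, hα1, -, hAN⟩ := hadm A hA
  have hN0 : (0 : ℝ) < N := by exact_mod_cast (by omega : 0 < N)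
  have hN1 : (1 : ℝ) < N := by exact_mod_cast (by omega : 1 < N)
  set l := Real.log (N : ℝ) with hl
  set z : ℝ := (N : ℝ) ^ e0 with hz
  have hz1 : 1 ≤ z := Real.one_le_rpow hN1.le he0.le
  have hA0 : (0 : ℝ) < A := (Real.rpow_pos_of_pos hN0 _).trans_le hA.1
  have hA12 : (N : ℝ) ^ (1 / 2 : ℝ) ≤ A :=
    (Real.rpow_le_rpow_of_exponent_le hN1.le hθ.le).trans hA.1
  have hA1 : 1 ≤ A := by
    have : (0 : ℝ) < A := hA0
    have h : 0 < A := by exact_mod_cast this
    exact h
  obtain ⟨L, hL1, hL2⟩ := exists_L N (by omega)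
  have hlz : Real.log z = e0 * l := Real.log_rpow hN0 e0
  have hηl : 0 < η * l := by
    have : 0 < l := by linarith
    positivity
  -- pointwise
  have hpt : ∀ a ∈ IA A, ∀ n ∈ Ioc N (2 * N),
      (η * l) * (if (N : ℝ) ^ η < ((smp z (val a n) : ℕ) : ℝ) then (1 : ℝ) else 0)
      ≤ ∑ p ∈ PB z, ∑ i ∈ Ico 1 L, (if p ^ i ∣ val a n then Real.log p else 0) := by
    intro a ha n hn
    obtain ⟨v1, v2⟩ := BLK.val_range ha hAN hn
    have hv0 : val a n ≠ 0 := by
      intro h0
      rw [h0] at v1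
      have : (0 : ℝ) < (N : ℝ) ^ 2 / 2 := by positivity
      simp only [Nat.cast_zero] at v1
      linarith
    have hv5 : val a n < 2 ^ L := by
      refine lt_of_le_of_lt ?_ hL1
      exact_mod_cast v2
    have h1 := log_smp z (val a n) L hv0 hv5
    have hnn : 0 ≤ ∑ p ∈ PB z, ∑ i ∈ Ico 1 L, (if p ^ i ∣ val a n then Real.log p else 0) := by
      apply Finset.sum_nonneg
      intro p _
      apply Finset.sum_nonneg
      intro i _
      split_ifs
      · exact Real.log_natCast_nonneg _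
      · exact le_rfl
    split_ifs with h
    · rw [mul_one]
      refine le_trans ?_ h1
      have h2 := Real.log_le_log (Real.rpow_pos_of_pos hN0 _) h.le
      rw [Real.log_rpow hN0] at h2
      exact h2
    · rw [mul_zero]
      exact hnn
  have hsum : (η * l) * ∑ a ∈ IA A, cnt N a
      (fun m => if (N : ℝ) ^ η < ((smp z m : ℕ) : ℝ) then 1 else 0)
      ≤ N * (6 * A * (Real.log z + 8) + L * ((z + 1) * Real.log z)) := by
    unfold cnt
    rw [Finset.mul_sum]
    calc ∑ a ∈ IA A, (η * l) * ∑ n ∈ Ioc N (2 * N),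
          (if (N : ℝ) ^ η < ((smp z (val a n) : ℕ) : ℝ) then (1 : ℝ) else 0)
        ≤ ∑ a ∈ IA A, ∑ n ∈ Ioc N (2 * N),
          ∑ p ∈ PB z, ∑ i ∈ Ico 1 L, (if p ^ i ∣ val a n then Real.log p else 0) := by
          apply Finset.sum_le_sum
          intro a ha
          rw [Finset.mul_sum]
          exact Finset.sum_le_sum (fun n hn => hpt a ha n hn)
      _ = ∑ n ∈ Ioc N (2 * N), ∑ a ∈ IA A,
          ∑ p ∈ PB z, ∑ i ∈ Ico 1 L, (if p ^ i ∣ val a n then Real.log p else 0) :=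
          Finset.sum_comm
      _ ≤ ∑ n ∈ Ioc N (2 * N), (6 * A * (Real.log z + 8) + L * ((z + 1) * Real.log z)) :=
          Finset.sum_le_sum (fun n _ => sum_a A L n z hA1 hz1)
      _ = _ := by
          rw [Finset.sum_const, Nat.card_Ioc, nsmul_eq_mul]
          congr 1
          have : 2 * N - N = N := by omega
          rw [this]
  have hb2 : (L : ℝ) * ((z + 1) * Real.log z) ≤ e0 / 2 * l * A := by
    have h3 : 0 ≤ (z + 1) * Real.log z :=
      mul_nonneg (by linarith) (Real.log_nonneg hz1)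
    calc (L : ℝ) * ((z + 1) * Real.log z) ≤ (3 * l + 4) * ((z + 1) * Real.log z) :=
          mul_le_mul_of_nonneg_right hL2 h3
      _ ≤ e0 / 2 * l * (N : ℝ) ^ (1 / 2 : ℝ) := g3
      _ ≤ e0 / 2 * l * A := by
          apply mul_le_mul_of_nonneg_left hA12
          have : 0 ≤ l := by linarith
          positivity
  have hb1 : 6 * (A : ℝ) * (Real.log z + 8) ≤ 6 * A * (e0 * l) + e0 / 2 * l * A := by
    rw [hlz]
    have : (48 : ℝ) * A ≤ e0 / 2 * l * A := mul_le_mul_of_nonneg_right g2 hA0.le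
    linarith
  have hfin : (η * l) * ∑ a ∈ IA A, cnt N a
      (fun m => if (N : ℝ) ^ η < ((smp z m : ℕ) : ℝ) then 1 else 0)
      ≤ (η * l) * (7 * (e0 / η) * A * N) := by
    refine hsum.trans ?_
    have e1 : (η * l) * (7 * (e0 / η) * A * N) = N * (7 * e0 * l * A) := by
      field_simp
    rw [e1]
    apply mul_le_mul_of_nonneg_left _ hN0.le
    linarith
  exact le_of_mul_le_mul_left hfin hηl

end Pool.Agent.Lib.MP391708.QPA.C
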