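import Pool.Agent.Lib.MP_391708_nt.QPA.C.SpecC
import Pool.Agent.Lib.MP_391708_nt.QPA.T2
import Pool.Agent.Lib.MP_391708_nt.QPA.H.T2E

/-!
# QPA phase 4, module T2C: the combinatorial identity for the Liouville function
-/

set_option autoImplicit false

namespace Pool.Agent.Lib.MP391708.QPA.C.T2CM

open Finset
open Pool.Agent.Lib.MP391708.QPA Pool.Agent.Lib.MP391708.QPA.H
open scoped Classical
open T2

/-! ### the smooth part and the rough part -/

/-- the rough part -/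
noncomputable def rgp (z : ℝ) (m : ℕ) : ℕ :=
  ∏ p ∈ m.primeFactors.filter (fun p : ℕ => ¬ (p : ℝ) < z), p ^ m.factorization p

theorem smp_mul_rgp (z : ℝ) (m : ℕ) (hm : m ≠ 0) : smp z m * rgp z m = m := by
  unfold smp rgp
  rw [Finset.prod_filter_mul_prod_filter_not]
  have h := Nat.prod_factorization_pow_eq_self hm
  rwa [Finsupp.prod, Nat.support_factorization] at h

theorem smooth_smp (z : ℝ) (m : ℕ) : Smooth z (smp z m) := by
  intro p hp hpm
  rw [smp, hp.prime.dvd_finsetProd_iff] at hpm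
  obtain ⟨q, hq, hpq⟩ := hpm
  have hq' := mem_filter.mp hq
  have h1 := hp.dvd_of_dvd_pow hpq
  rw [(Nat.prime_dvd_prime_iff_eq hp (Nat.mem_primeFactors.mp hq'.1).1).mp h1]
  exact hq'.2

theorem rough_rgp (z : ℝ) (m : ℕ) : Rough z (rgp z m) := by
  intro p hp hpm
  rw [rgp, hp.prime.dvd_finsetProd_iff] at hpm
  obtain ⟨q, hq, hpq⟩ := hpm
  have hq' := mem_filter.mp hq
  have h1 := hp.dvd_of_dvd_pow hpq
  rw [(Nat.prime_dvd_prime_iff_eq hp (Nat.mem_primeFactors.mp hq'.1).1).mp h1]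
  exact not_lt.mp hq'.2

theorem coprime_sr (z : ℝ) (s t : ℕ) (hs : Smooth z s) (ht : Rough z t) : Nat.Coprime s t := by
  apply Nat.coprime_of_dvd
  intro p hp h1 h2
  exact absurd (hs p hp h1) (not_lt.mpr (ht p hp h2))

theorem rough_dvd (z : ℝ) (k t : ℕ) (ht : Rough z t) (h : k ∣ t) : Rough z k :=
  fun p hp hpk => ht p hp (hpk.trans h)

theorem unique_parts (z : ℝ) (m k l : ℕ) (hm : m ≠ 0) (hkl : l * k = m) (hk : Rough z k)
    (hl : Smooth z l) : k = rgp z m ∧ l = smp z m := by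
  have h := smp_mul_rgp z m hm
  have h1 : k ∣ rgp z m := by
    have h2 : k ∣ smp z m * rgp z m := by rw [h, ← hkl]; exact Dvd.intro_left l rfl
    exact ((coprime_sr z _ _ (smooth_smp z m) hk).symm).dvd_of_dvd_mul_left h2
  have h2 : rgp z m ∣ k := by
    have h3 : rgp z m ∣ l * k := by rw [hkl]; exact Dvd.intro_left _ h
    exact ((coprime_sr z _ _ hl (rough_rgp z m)).symm).dvd_of_dvd_mul_left h3
  have h3 := Nat.dvd_antisymm h1 h2
  refine ⟨h3, ?_⟩
  have hk0 : 0 < k := Nat.pos_of_ne_zero (fun h0 => hm (by rw [← hkl, h0, mul_zero]))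
  rw [← h3, ← hkl] at h
  exact (Nat.eq_of_mul_eq_mul_right hk0 (by rw [hkl] at h ⊢; exact h)).symm

theorem conv_eq (z S : ℝ) (F : ℕ → ℝ) (hF : ∀ k, F k ≠ 0 → Rough z k) (m : ℕ) (hm : m ≠ 0) :
    conv F (lsm z S) m = F (rgp z m) * lsm z S (smp z m) := by
  have h := smp_mul_rgp z m hm
  have hr0 : 0 < rgp z m := Nat.pos_of_ne_zero (fun h0 => hm (by rw [← h, h0, mul_zero]))
  rw [conv, Finset.sum_eq_single (rgp z m)]
  · congr 2
    exact Nat.div_eq_of_eq_mul_left hr0 h.symm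
  · intro k hk hne
    by_contra hcon
    have h1 := hF k (left_ne_zero_of_mul hcon)
    have h2 := right_ne_zero_of_mul hcon
    rw [lsm] at h2
    split_ifs at h2 with h3
    · have h4 := Nat.div_mul_cancel (Nat.mem_divisors.mp hk).1
      exact hne (unique_parts z m k (m / k) hm h4 h1 h3.2.2).1
    · exact h2 rfl
  · intro hn
    exact absurd (Nat.mem_divisors.mpr ⟨Dvd.intro_left _ h, hm⟩) hn

theorem psiC_eq (N : ℕ) (e0 κ : ℝ) (m : ℕ) (hm : m ≠ 0) :
    psiC N e0 κ m = psiC N e0 κ (rgp ((N : ℝ) ^ e0) m) := by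
  have h := smp_mul_rgp ((N : ℝ) ^ e0) m hm
  have hr0 : rgp ((N : ℝ) ^ e0) m ≠ 0 := fun h0 => hm (by rw [← h, h0, mul_zero])
  rw [psiC, psiC]
  congr 2
  ext k
  rw [mem_filter, mem_filter, Nat.mem_divisors, Nat.mem_divisors]
  constructor
  · rintro ⟨⟨h1, _⟩, h2, h3, h4⟩
    refine ⟨⟨?_, hr0⟩, h2, h3, h4⟩
    rw [← h] at h1
    exact ((coprime_sr _ _ _ (smooth_smp _ m) h3).symm).dvd_of_dvd_mul_left h1
  · rintro ⟨⟨h1, _⟩, h2, h3, h4⟩
    refine ⟨⟨h1.trans (Dvd.intro_left _ h), hm⟩, h2, h3, h4⟩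

theorem lio_mul (a b : ℕ) : lio (a * b) = lio a * lio b := by
  rw [lio, lio, lio, ArithmeticFunction.liouville_apply_mul]
  push_cast
  rfl

theorem lio_apply (n : ℕ) (h : n ≠ 0) : lio n = (-1 : ℝ) ^ n.primeFactorsList.length := by
  rw [lio, ArithmeticFunction.liouville_apply h, ArithmeticFunction.cardFactors_apply]
  push_cast
  rfl

theorem abs_lio_le (n : ℕ) : |lio n| ≤ 1 := by
  rcases eq_or_ne n 0 with h | h
  · subst h
    simp [lio]
  · rw [lio_apply n h, abs_pow, abs_neg, abs_one, one_pow]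

theorem abs_lio (n : ℕ) (h : n ≠ 0) : |lio n| = 1 := by
  rw [lio_apply n h, abs_pow, abs_neg, abs_one, one_pow]

/-! ### the structure lemma -/

theorem struct (t : ℕ) (ht : Squarefree t) (L U : ℝ) (hL : 1 < L)
    (h : ∀ d : ℕ, d ∣ t → (d : ℝ) < L ∨ U < d) (hU0 : 0 < U) (hU : (t : ℝ) < U ^ 2)
    (hLU : L ^ 3 ≤ U ^ 2) (htL : L ^ 3 < t) :
    ∃ D p : ℕ, p.Prime ∧ t = D * p ∧ (D : ℝ) < L ∧ L ^ 2 < p := by
  have ht0 : t ≠ 0 := ht.ne_zero
  have hL0 : 0 < L := by linarith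
  have hmem : 1 ∈ t.divisors.filter (fun d : ℕ => (d : ℝ) < L) :=
    mem_filter.mpr ⟨Nat.mem_divisors.mpr ⟨one_dvd _, ht0⟩, by simpa using hL⟩
  obtain ⟨D, hD, hmax⟩ := Finset.exists_max_image _ (fun d : ℕ => d) ⟨1, hmem⟩
  have hD' := mem_filter.mp hD
  have hDdvd := (Nat.mem_divisors.mp hD'.1).1
  obtain ⟨E, hE⟩ := hDdvd
  have hD0 : 0 < D := Nat.pos_of_ne_zero (fun h0 => ht0 (by rw [hE, h0, zero_mul]))
  have hE0 : E ≠ 0 := fun h0 => ht0 (by rw [hE, h0, mul_zero])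
  have hD0' : (0 : ℝ) < D := by exact_mod_cast hD0
  have htDE : (t : ℝ) = D * E := by exact_mod_cast hE
  -- `E > L^2`
  have hEL : L ^ 2 < E := by
    have h1 : L ^ 3 < D * E := by rw [← htDE]; exact htL
    have hE1 : (0 : ℝ) < E := by exact_mod_cast Nat.pos_of_ne_zero hE0
    have h2 : (D : ℝ) * E < L * E := mul_lt_mul_of_pos_right hD'.2 hE1
    have h3 : L * L ^ 2 < L * E := by
      calc L * L ^ 2 = L ^ 3 := by ring
        _ < _ := h1.trans h2
    exact lt_of_mul_lt_mul_left h3 hL0.le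
  -- every prime of `E` is large
  have hbig : ∀ q : ℕ, q.Prime → q ∣ E → U < (D : ℝ) * q := by
    intro q hq hqE
    have h1 : D * q ∣ t := by rw [hE]; exact Nat.mul_dvd_mul_left D hqE
    rcases h _ h1 with h2 | h2
    · exfalso
      have h3 := hmax (D * q) (mem_filter.mpr ⟨Nat.mem_divisors.mpr ⟨h1, ht0⟩, h2⟩)
      have h4 : D * 2 ≤ D * q := Nat.mul_le_mul_left D hq.two_le
      omega
    · push_cast at h2
      exact h2
  have hbig' : ∀ q : ℕ, q.Prime → q ∣ E → U < L * q := by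
    intro q hq hqE
    have hq0 : (0 : ℝ) < q := by exact_mod_cast hq.pos
    exact (hbig q hq hqE).trans (mul_lt_mul_of_pos_right hD'.2 hq0)
  have hE1 : E ≠ 1 := by
    intro h1
    rw [h1] at hEL
    push_cast at hEL
    nlinarith
  obtain ⟨q, hq, F, hF⟩ := Nat.exists_prime_and_dvd hE1
  by_cases hF1 : F = 1
  · refine ⟨D, E, ?_, hE, hD'.2, hEL⟩
    rw [hF, hF1, mul_one]
    exact hq
  exfalso
  obtain ⟨r, hr, G, hG⟩ := Nat.exists_prime_and_dvd hF1
  have hqE : q ∣ E := ⟨F, hF⟩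
  have hrE : r ∣ E := by rw [hF, hG]; exact ⟨q * G, by ring⟩
  have hG0 : G ≠ 0 := by
    intro h0
    apply hE0
    rw [hF, hG, h0, mul_zero, mul_zero]
  have htt : (t : ℝ) = D * q * (r * G) := by
    rw [htDE, hF, hG]; push_cast; ring
  have hrG0 : (0 : ℝ) < r * G := by
    have h1 : (0 : ℝ) < r := by exact_mod_cast hr.pos
    have h2 : (0 : ℝ) < G := by exact_mod_cast Nat.pos_of_ne_zero hG0
    positivity
  have hqG0 : (0 : ℝ) < q * G := by
    have h1 : (0 : ℝ) < q := by exact_mod_cast hq.pos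
    have h2 : (0 : ℝ) < G := by exact_mod_cast Nat.pos_of_ne_zero hG0
    positivity
  have hrG : ((r * G : ℕ) : ℝ) < L := by
    have h1 : ((r * G : ℕ) : ℝ) < U := by
      push_cast
      have h2 : U * (r * G) < U * U := by
        calc U * (r * G) < D * q * (r * G) := mul_lt_mul_of_pos_right (hbig q hq hqE) hrG0
          _ = t := htt.symm
          _ < U ^ 2 := hU
          _ = U * U := by ring
      exact lt_of_mul_lt_mul_left h2 hU0.le
    rcases h (r * G) (by rw [hE, hF, hG]; exact ⟨D * q, by ring⟩) with h2 | h2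
    · exact h2
    · linarith
  have hqG : ((q * G : ℕ) : ℝ) < L := by
    have h1 : ((q * G : ℕ) : ℝ) < U := by
      push_cast
      have h2 : U * (q * G) < U * U := by
        calc U * (q * G) < D * r * (q * G) := mul_lt_mul_of_pos_right (hbig r hr hrE) hqG0
          _ = t := by rw [htt]; ring
          _ < U ^ 2 := hU
          _ = U * U := by ring
      exact lt_of_mul_lt_mul_left h2 hU0.le
    rcases h (q * G) (by rw [hE, hF, hG]; exact ⟨D * r, by ring⟩) with h2 | h2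
    · exact h2
    · linarith
  push_cast at hrG hqG
  by_cases hG1 : G = 1
  · rw [hG1] at hrG hqG htt
    push_cast at hrG hqG htt
    rw [mul_one] at hrG hqG htt
    have hq0 : (0 : ℝ) < q := by exact_mod_cast hq.pos
    have hr0 : (0 : ℝ) < r := by exact_mod_cast hr.pos
    have h1 : (D : ℝ) * q < L * L := mul_lt_mul'' hD'.2 hqG hD0'.le hq0.le
    have h2 : (D : ℝ) * q * r < L * L * L := mul_lt_mul'' h1 hrG (by positivity) hr0.le
    nlinarith
  · obtain ⟨u, hu, H, hH⟩ := Nat.exists_prime_and_dvd hG1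
    have huE : u ∣ E := by rw [hF, hG, hH]; exact ⟨q * r * H, by ring⟩
    have hH0 : H ≠ 0 := fun h0 => hG0 (by rw [hH, h0, mul_zero])
    have hH1 : (1 : ℝ) ≤ H := by exact_mod_cast Nat.one_le_iff_ne_zero.mpr hH0
    have h1 := hbig' u hu huE
    have h2 := hbig' r hr hrE
    have hu0 : (0 : ℝ) < u := by exact_mod_cast hu.pos
    have hr0 : (0 : ℝ) < r := by exact_mod_cast hr.pos
    have hru : (r : ℝ) * u < L := by
      refine lt_of_le_of_lt ?_ hrG
      rw [hH]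
      push_cast
      calc (r : ℝ) * u = r * (u * 1) := by ring
        _ ≤ r * (u * H) := by gcongr
    have h3 : U * U < (L * r) * (L * u) := mul_lt_mul'' h2 h1 hU0.le hU0.le
    have h4 : (L * r) * (L * u) < L ^ 3 := by
      calc (L * r) * (L * u) = L ^ 2 * (r * u) := by ring
        _ < L ^ 2 * L := mul_lt_mul_of_pos_left hru (by positivity)
        _ = L ^ 3 := by ring
    nlinarith

/-! ### the sums over the subsets of the prime factors -/

theorem psiC_sq (N : ℕ) (e0 κ : ℝ) (t : ℕ) (ht : Squarefree t) (hr : Rough ((N : ℝ) ^ e0) t) :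
    psiC N e0 κ t = -∑ S ∈ t.primeFactors.powerset,
      if ((∏ p ∈ S, p : ℕ) : ℝ) ≤ (N : ℝ) ^ κ then (-2 : ℝ) ^ S.card else 0 := by
  rw [psiC]
  congr 1
  rw [← Finset.sum_filter]
  symm
  apply Finset.sum_nbij' (fun S => ∏ p ∈ S, p) (fun k => k.primeFactors)
  · intro S hS
    have h1 := mem_filter.mp hS
    have h2 := T1.prod_dvd t ht S (Finset.mem_powerset.mp h1.1)
    exact mem_filter.mpr ⟨Nat.mem_divisors.mpr ⟨h2, ht.ne_zero⟩, h1.2, rough_dvd _ _ _ hr h2,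
      ht.squarefree_of_dvd h2⟩
  · intro k hk
    have h1 := mem_filter.mp hk
    have h2 := Nat.mem_divisors.mp h1.1
    refine mem_filter.mpr ⟨Finset.mem_powerset.mpr (Nat.primeFactors_mono h2.1 h2.2), ?_⟩
    rw [Nat.prod_primeFactors_of_squarefree h1.2.2.2]
    exact h1.2.1
  · intro S hS
    have h1 := Finset.mem_powerset.mp (mem_filter.mp hS).1
    exact Nat.primeFactors_prod (fun p hp => (Nat.mem_primeFactors.mp (h1 hp)).1)
  · intro k hk
    exact Nat.prod_primeFactors_of_squarefree (mem_filter.mp hk).2.2.2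
  · intro S hS
    have h1 := Finset.mem_powerset.mp (mem_filter.mp hS).1
    rw [Nat.primeFactors_prod (fun p hp => (Nat.mem_primeFactors.mp (h1 hp)).1)]

theorem psi_val (D p : ℕ) (Y : ℝ) (hp : p.Prime) (hsq : Squarefree (D * p)) (hD : (D : ℝ) ≤ Y)
    (hY : Y < p) : ∑ S ∈ (D * p).primeFactors.powerset,
      (if ((∏ q ∈ S, q : ℕ) : ℝ) ≤ Y then (-2 : ℝ) ^ S.card else 0)
      = (-1 : ℝ) ^ D.primeFactors.card := by
  have hD0 : D ≠ 0 := fun h0 => hsq.ne_zero (by rw [h0, zero_mul])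
  have hDs : Squarefree D := hsq.squarefree_of_dvd (Dvd.intro _ rfl)
  have hpD : p ∉ D.primeFactors := by
    intro h
    have h1 := Nat.dvd_of_mem_primeFactors h
    have h2 : p * p ∣ D * p := Nat.mul_dvd_mul_right h1 p
    exact hp.one_lt.ne' (Nat.isUnit_iff.mp (hsq p h2))
  have h1 : (D * p).primeFactors = insert p D.primeFactors := by
    rw [Nat.primeFactors_mul hD0 hp.ne_zero, hp.primeFactors, Finset.union_comm]
    rfl
  rw [h1, Finset.sum_powerset_insert hpD]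
  have h2 : ∑ S ∈ D.primeFactors.powerset,
      (if ((∏ q ∈ insert p S, q : ℕ) : ℝ) ≤ Y then (-2 : ℝ) ^ (insert p S).card else 0) = 0 := by
    apply Finset.sum_eq_zero
    intro S hS
    have hSD := Finset.mem_powerset.mp hS
    have hpS : p ∉ S := fun h => hpD (hSD h)
    rw [if_neg]
    rw [not_le, Finset.prod_insert hpS]
    have h3 : 1 ≤ ∏ q ∈ S, q :=
      Nat.one_le_iff_ne_zero.mpr (Finset.prod_ne_zero_iff.mpr
        (fun q hq => (Nat.prime_of_mem_primeFactors (hSD hq)).ne_zero))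
    have h4 : p * 1 ≤ p * ∏ q ∈ S, q := Nat.mul_le_mul_left p h3
    rw [mul_one] at h4
    calc Y < p := hY
      _ ≤ _ := by exact_mod_cast h4
  rw [h2, add_zero]
  have h3 : ∑ S ∈ D.primeFactors.powerset,
      (if ((∏ q ∈ S, q : ℕ) : ℝ) ≤ Y then (-2 : ℝ) ^ S.card else 0)
      = ∑ S ∈ D.primeFactors.powerset, (-2 : ℝ) ^ S.card * 1 ^ (D.primeFactors.card - S.card) := by
    apply Finset.sum_congr rfl
    intro S hS
    have hSD := Finset.mem_powerset.mp hS
    have h4 : ∏ q ∈ S, q ≤ D := Nat.le_of_dvd (Nat.pos_of_ne_zero hD0) (T1.prod_dvd D hDs S hSD)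
    have h5 : ((∏ q ∈ S, q : ℕ) : ℝ) ≤ Y := by
      refine le_trans ?_ hD
      exact_mod_cast h4
    rw [if_pos h5, one_pow, mul_one]
  rw [h3, Finset.sum_pow_mul_eq_add_pow]
  norm_num

/-! ### the coefficients -/

/-- the signed indicator of the small subtypes -/
noncomputable def sgC (κ e2 : ℝ) (s : Multiset ℕ) : ℝ :=
  if e2 * (s.sum : ℝ) < κ then (-2 : ℝ) ^ Multiset.card s else 0

/-- the value of `λ - ψ` on a cube -/
noncomputable def TcC (κ e2 : ℝ) (c : Multiset ℕ) : ℝ :=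
  (-1 : ℝ) ^ Multiset.card c + (c.powerset.map (sgC κ e2)).sum

/-- the coefficients -/
noncomputable def ttC (κ e2 e : ℝ) (c : Multiset ℕ) : ℝ :=
  if ∃ c₁ c₂ : Multiset ℕ, c₁ + c₂ = c ∧ c₂ ≠ 0 ∧ MidK κ e2 e c₁ then TcC κ e2 c / vf c else 0

theorem abs_sum_map_le' (s : Multiset (Multiset ℕ)) (f : Multiset ℕ → ℝ) (B : ℝ)
    (h : ∀ x ∈ s, |f x| ≤ B) : |(s.map f).sum| ≤ Multiset.card s * B := by
  induction s using Multiset.induction with
  | empty => simp
  | cons a s ih =>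
    rw [Multiset.map_cons, Multiset.sum_cons, Multiset.card_cons]
    push_cast
    have h1 := ih (fun x hx => h x (Multiset.mem_cons_of_mem hx))
    have h2 := h a (Multiset.mem_cons_self a s)
    calc |f a + (s.map f).sum| ≤ |f a| + |(s.map f).sum| := abs_add_le _ _
      _ ≤ _ := by linarith

theorem abs_TcC_le (κ e2 : ℝ) (c : Multiset ℕ) (R : ℕ) (hc : Multiset.card c ≤ R) :
    |TcC κ e2 c| ≤ 1 + 4 ^ R := by
  unfold TcC
  have h1 := abs_sum_map_le' c.powerset (sgC κ e2) (2 ^ R) (fun x hx => by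
    have hx' := Multiset.card_le_card (Multiset.mem_powerset.mp hx)
    unfold sgC
    split_ifs
    · rw [abs_pow, abs_neg, abs_two]
      exact pow_le_pow_right₀ (by norm_num) (hx'.trans hc)
    · rw [abs_zero]; positivity)
  rw [Multiset.card_powerset] at h1
  have h2 : ((2 ^ Multiset.card c : ℕ) : ℝ) ≤ 2 ^ R := by
    push_cast
    exact pow_le_pow_right₀ (by norm_num) hc
  have h3 : |(-1 : ℝ) ^ Multiset.card c| ≤ 1 := by
    rw [abs_pow, abs_neg, abs_one, one_pow]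
  have h4 : ((2 ^ Multiset.card c : ℕ) : ℝ) * 2 ^ R ≤ 4 ^ R := by
    calc ((2 ^ Multiset.card c : ℕ) : ℝ) * 2 ^ R ≤ 2 ^ R * 2 ^ R :=
          mul_le_mul_of_nonneg_right h2 (by positivity)
      _ = 4 ^ R := by rw [← mul_pow]; norm_num
  calc _ ≤ |(-1 : ℝ) ^ Multiset.card c| + |(c.powerset.map (sgC κ e2)).sum| := abs_add_le _ _
    _ ≤ _ := by linarith

theorem abs_ttC_le (κ e2 e : ℝ) (c : Multiset ℕ) (R : ℕ) (hc : Multiset.card c ≤ R) :
    |ttC κ e2 e c| ≤ 1 + 4 ^ R := by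
  unfold ttC
  split_ifs
  · rw [abs_div, abs_of_pos (lt_of_lt_of_le one_pos (vf_pos c))]
    refine (div_le_self (abs_nonneg _) (vf_pos c)).trans (abs_TcC_le κ e2 c R hc)
  · rw [abs_zero]; positivity

/-! ### the identity on a good type -/

theorem small_iff (N : ℕ) (κ e e2 : ℝ) (hN : 10 ≤ N) (hκ : 0 < κ) (he : 0 < e) (he2 : 0 < e2)
    (t : ℕ) (ht : Squarefree t) (hg : GoodC κ e2 e (typ N e2 t)) (S : Finset ℕ)
    (hSP : S ⊆ t.primeFactors) :
    ((∏ p ∈ S, p : ℕ) : ℝ) ≤ (N : ℝ) ^ κ ↔ e2 * ((S.val.map (idx N e2)).sum : ℝ) < κ := by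
  have hN1 : (1 : ℝ) < N := by exact_mod_cast (by omega : 1 < N)
  have hb := prod_bounds N e2 (by omega) he2 S
    (fun p hp => (Nat.mem_primeFactors.mp (hSP hp)).1.one_lt.le)
  have hcard : Multiset.card (S.val.map (idx N e2)) = S.card := by
    rw [Multiset.card_map]; rfl
  rcases Finset.eq_empty_or_nonempty S with hS0 | hS0
  · subst hS0
    have h1 : (1 : ℝ) ≤ (N : ℝ) ^ κ := Real.one_le_rpow hN1.le hκ.le
    simp [h1, hκ]
  · have hsub : S.val.map (idx N e2) ≤ typ N e2 t := by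
      rw [typ_sq N e2 t ht]
      exact Multiset.map_le_map (Finset.val_le_iff.mpr hSP)
    have hne : S.val.map (idx N e2) ≠ 0 := by
      intro h0
      have := congrArg Multiset.card h0
      rw [hcard, Multiset.card_zero] at this
      exact (Finset.card_pos.mpr hS0).ne' this
    rcases hg _ hsub hne κ (by simp) with h2 | h2
    · have h3 : (N : ℝ) ^ κ < ((∏ p ∈ S, p : ℕ) : ℝ) :=
        lt_of_lt_of_le (Real.rpow_lt_rpow_of_exponent_lt hN1 (by linarith)) hb.1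
      constructor
      · intro h4; linarith
      · intro h4; linarith
    · have h3 : ((∏ p ∈ S, p : ℕ) : ℝ) ≤ (N : ℝ) ^ κ :=
        hb.2.trans (Real.rpow_le_rpow_of_exponent_le hN1.le (by linarith))
      constructor
      · intro _
        have h5 : 0 ≤ e2 * (Multiset.card (S.val.map (idx N e2)) : ℝ) := by positivity
        nlinarith
      · intro _; exact h3

theorem good_identity (N : ℕ) (e0 κ e e2 : ℝ) (hN : 10 ≤ N) (hκ : 0 < κ) (he : 0 < e)
    (he2 : 0 < e2) (t : ℕ) (ht : Squarefree t) (hr : Rough ((N : ℝ) ^ e0) t)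
    (hg : GoodC κ e2 e (typ N e2 t)) :
    lio t - psiC N e0 κ t = TcC κ e2 (typ N e2 t) := by
  rw [lio_apply t ht.ne_zero, psiC_sq N e0 κ t ht hr, TcC, card_typ, sub_neg_eq_add]
  congr 1
  rw [typ_sq N e2 t ht, ← sum_powerset]
  apply Finset.sum_congr rfl
  intro S hS
  have hSP := Finset.mem_powerset.mp hS
  have hiff := small_iff N κ e e2 hN hκ he he2 t ht hg S hSP
  have hcard : Multiset.card (S.val.map (idx N e2)) = S.card := by
    rw [Multiset.card_map]; rfl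
  rw [sgC, hcard]
  by_cases h : ((∏ p ∈ S, p : ℕ) : ℝ) ≤ (N : ℝ) ^ κ
  · rw [if_pos h, if_pos (hiff.mp h)]
  · rw [if_neg h, if_neg (fun h' => h (hiff.mpr h'))]

/-- the divisors of a number of a good type without middle subtype -/
theorem div_dich (N : ℕ) (κ e e2 : ℝ) (hN : 10 ≤ N) (hκe : 0 < κ - e) (he2 : 0 < e2)
    (t : ℕ) (ht : Squarefree t) (hg : GoodC κ e2 e (typ N e2 t))
    (hmid : ¬ ∃ c₁ ≤ typ N e2 t, MidK κ e2 e c₁) (d : ℕ) (hd : d ∣ t) :
    (d : ℝ) < (N : ℝ) ^ (κ - e) ∨ (N : ℝ) ^ (1 + e) < d := by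
  have hN1 : (1 : ℝ) < N := by exact_mod_cast (by omega : 1 < N)
  obtain ⟨hs, b1, b2⟩ := T2EM.div_sub N e2 (by omega) he2 t d ht hd
  by_cases hne : d.primeFactors.val.map (idx N e2) = 0
  · left
    have h3 := congrArg Multiset.card hne
    rw [Multiset.card_map, Multiset.card_zero] at h3
    have h4 : d.primeFactors = ∅ := Finset.card_eq_zero.mp h3
    have h5 : d = 1 := by
      rw [← Nat.prod_primeFactors_of_squarefree (ht.squarefree_of_dvd hd), h4]; simp
    rw [h5]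
    push_cast
    exact Real.one_lt_rpow hN1 hκe
  · rcases hg _ hs hne κ (by simp) with h | h
    · rcases hg _ hs hne 1 (by simp) with h' | h'
      · right
        exact lt_of_lt_of_le (Real.rpow_lt_rpow_of_exponent_lt hN1 h') b1
      · exfalso
        exact hmid ⟨_, hs, h.le, h'.le⟩
    · left
      exact lt_of_le_of_lt b2 (Real.rpow_lt_rpow_of_exponent_lt hN1 h)

/-- a bad type gives a rough divisor in a window -/
theorem bad_type (N : ℕ) (e0 κ e : ℝ) (hN : 10 ≤ N) (e2 : ℝ) (he2 : 0 < e2) (R : ℕ)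
    (hR : e2 * R ≤ e) (t : ℕ) (ht : Squarefree t) (hr : Rough ((N : ℝ) ^ e0) t)
    (htR : t.primeFactorsList.length ≤ R) (hg : ¬ GoodC κ e2 e (typ N e2 t)) :
    ∃ x ∈ ({κ, 1} : Finset ℝ), RWin N e0 x (2 * e) t := by
  have hN1 : (1 : ℝ) < N := by exact_mod_cast (by omega : 1 < N)
  unfold GoodC at hg
  push Not at hg
  obtain ⟨s, hs, hs0, x, hx, h1, h2⟩ := hg
  refine ⟨x, hx, ?_⟩
  have hs' := hs
  rw [typ_sq N e2 t ht] at hs'
  obtain ⟨S, hSP, hSs⟩ := exists_sub t.primeFactors (idx N e2) s hs'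
  have hb := prod_bounds N e2 (by omega) he2 S
    (fun p hp => (Nat.mem_primeFactors.mp (hSP hp)).1.one_lt.le)
  rw [hSs] at hb
  have hcard : (Multiset.card s : ℝ) ≤ R := by
    have := Multiset.card_le_card hs
    rw [card_typ] at this
    exact_mod_cast this.trans htR
  have hcR : e2 * (Multiset.card s : ℝ) ≤ e := (mul_le_mul_of_nonneg_left hcard he2.le).trans hR
  have hdvd := T1.prod_dvd t ht S hSP
  refine ⟨∏ p ∈ S, p, hdvd, rough_dvd _ _ _ hr hdvd, ?_, ?_⟩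
  · refine le_trans (Real.rpow_le_rpow_of_exponent_le hN1.le ?_) hb.1
    rw [mul_add] at h2
    linarith
  · refine hb.2.trans (Real.rpow_le_rpow_of_exponent_le hN1.le ?_)
    rw [mul_add]
    linarith

theorem RWin_mono (N : ℕ) (e0 x e : ℝ) (t m : ℕ) (h : t ∣ m) (hW : RWin N e0 x e t) :
    RWin N e0 x e m := by
  obtain ⟨k, hk, h1⟩ := hW
  exact ⟨k, hk.trans h, h1⟩

/-- the general bound on rough numbers -/
theorem psiC_bound (N : ℕ) (e0 κ : ℝ) (m R : ℕ) (hR : m.primeFactorsList.length ≤ R) :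
    |psiC N e0 κ m| ≤ 4 ^ R := by
  rw [psiC, abs_neg]
  have hcR : m.primeFactors.card ≤ R := (FFB.card_primeFactors_le m).trans hR
  have h1 : |∑ k ∈ m.divisors.filter
      (fun k : ℕ => (k : ℝ) ≤ (N : ℝ) ^ κ ∧ Rough ((N : ℝ) ^ e0) k ∧ Squarefree k),
      (-2 : ℝ) ^ k.primeFactors.card| ≤ ∑ k ∈ m.divisors.filter
      (fun k : ℕ => (k : ℝ) ≤ (N : ℝ) ^ κ ∧ Rough ((N : ℝ) ^ e0) k ∧ Squarefree k), (2 : ℝ) ^ R := by
    refine (Finset.abs_sum_le_sum_abs _ _).trans (Finset.sum_le_sum ?_)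
    intro k hk
    have hk2 := Nat.mem_divisors.mp (mem_filter.mp hk).1
    rw [abs_pow, abs_neg, abs_two]
    exact pow_le_pow_right₀ (by norm_num)
      ((Finset.card_le_card (Nat.primeFactors_mono hk2.1 hk2.2)).trans hcR)
  refine h1.trans ?_
  rw [Finset.sum_const, nsmul_eq_mul]
  have h2 : (m.divisors.filter
      (fun k : ℕ => (k : ℝ) ≤ (N : ℝ) ^ κ ∧ Rough ((N : ℝ) ^ e0) k ∧ Squarefree k)).card
      ≤ m.primeFactors.powerset.card := by
    apply Finset.card_le_card_of_injOn Nat.primeFactors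
    · intro k hk
      have hk' := mem_filter.mp hk
      have hk3 := Nat.mem_divisors.mp hk'.1
      exact Finset.mem_coe.mpr (Finset.mem_powerset.mpr (Nat.primeFactors_mono hk3.1 hk3.2))
    · intro j hj k hk hjk
      have hj' := (mem_filter.mp hj).2.2.2
      have hk' := (mem_filter.mp hk).2.2.2
      rw [← Nat.prod_primeFactors_of_squarefree hj', ← Nat.prod_primeFactors_of_squarefree hk', hjk]
  rw [Finset.card_powerset] at h2
  calc ((m.divisors.filter
      (fun k : ℕ => (k : ℝ) ≤ (N : ℝ) ^ κ ∧ Rough ((N : ℝ) ^ e0) k ∧ Squarefree k)).card : ℝ) * 2 ^ R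
      ≤ ((2 ^ m.primeFactors.card : ℕ) : ℝ) * 2 ^ R :=
        mul_le_mul_of_nonneg_right (by exact_mod_cast h2) (by positivity)
    _ ≤ 2 ^ R * 2 ^ R := by
        apply mul_le_mul_of_nonneg_right _ (by positivity)
        push_cast
        exact pow_le_pow_right₀ (by norm_num) hcR
    _ = 4 ^ R := by rw [← mul_pow]; norm_num

theorem gen_bound (N Q : ℕ) (e0 κ e : ℝ) (hN : 10 ≤ N) (he0 : 0 < e0) (hQ : 1 ≤ Q) (t : ℕ)
    (htR : t.primeFactorsList.length ≤ ⌊3 / e0⌋₊)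
    (T : Finset (Multiset ℕ)) (hT : ∀ c ∈ T, Multiset.card c ≤ ⌊3 / e0⌋₊) :
    |lio t - psiC N e0 κ t - ∑ c ∈ T, ttC κ (e0 / Q) e c * FF N (e0 / Q) c t|
      ≤ 1 + 4 ^ ⌊3 / e0⌋₊ + (1 + 4 ^ ⌊3 / e0⌋₊) * (⌊3 / e0⌋₊).factorial := by
  have hQ0 : (0 : ℝ) < Q := by exact_mod_cast hQ
  have he2 : 0 < e0 / Q := by positivity
  have h1 : |lio t| ≤ 1 := abs_lio_le t
  have h2 : |psiC N e0 κ t| ≤ 4 ^ ⌊3 / e0⌋₊ := psiC_bound N e0 κ t _ htR
  have h3 : |∑ c ∈ T, ttC κ (e0 / Q) e c * FF N (e0 / Q) c t|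
      ≤ (1 + 4 ^ ⌊3 / e0⌋₊) * (⌊3 / e0⌋₊).factorial := by
    rw [sum_types N Q e0 hN he2]
    split_ifs with h
    · rw [abs_mul]
      apply mul_le_mul (abs_ttC_le _ _ _ _ _ (hT _ h)) _ (abs_nonneg _) (by positivity)
      rw [abs_of_nonneg (FFB.FF_nonneg _ _ _ _)]
      refine (FFB.FF_le N _ (by omega) _ _).trans ?_
      exact_mod_cast Nat.factorial_le (hT _ h)
    · rw [abs_zero]; positivity
  calc _ ≤ |lio t - psiC N e0 κ t| + |∑ c ∈ T, ttC κ (e0 / Q) e c * FF N (e0 / Q) c t| :=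
        abs_sub _ _
    _ ≤ |lio t| + |psiC N e0 κ t| + |∑ c ∈ T, ttC κ (e0 / Q) e c * FF N (e0 / Q) c t| := by
        linarith [abs_sub (lio t) (psiC N e0 κ t)]
    _ ≤ _ := by linarith

/-- good type, no middle subtype: the identity `λ = ψ` -/
theorem no_mid (N : ℕ) (e0 κ η e e2 : ℝ) (hN : 10 ≤ N) (hκ1 : 3 / 5 < κ) (hκ2 : κ < 2 / 3)
    (he : 0 < e) (he' : e ≤ 1 / 40) (hη : 3 * κ + η < 2) (hNe : 6 ≤ (N : ℝ) ^ e)
    (he2 : 0 < e2) (t : ℕ) (ht : Squarefree t) (hr : Rough ((N : ℝ) ^ e0) t)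
    (ht1 : (N : ℝ) ^ (2 - η) / 2 ≤ t) (ht2 : (t : ℝ) ≤ 5 * (N : ℝ) ^ 2)
    (hg : GoodC κ e2 e (typ N e2 t))
    (hmid : ¬ ∃ c₁ ≤ typ N e2 t, MidK κ e2 e c₁) : lio t - psiC N e0 κ t = 0 := by
  have hN1 : (1 : ℝ) < N := by exact_mod_cast (by omega : 1 < N)
  have hN0 : (0 : ℝ) < N := by linarith
  have hL1 : 1 < (N : ℝ) ^ (κ - e) := Real.one_lt_rpow hN1 (by linarith)
  have hpowL : ((N : ℝ) ^ (κ - e)) ^ 3 = (N : ℝ) ^ (3 * κ - 3 * e) := by
    rw [← Real.rpow_natCast, ← Real.rpow_mul hN0.le]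
    congr 1
    push_cast
    ring
  have hpowU : ((N : ℝ) ^ (1 + e)) ^ 2 = (N : ℝ) ^ (2 + 2 * e) := by
    rw [← Real.rpow_natCast, ← Real.rpow_mul hN0.le]
    congr 1
    push_cast
    ring
  have hU : (t : ℝ) < ((N : ℝ) ^ (1 + e)) ^ 2 := by
    rw [hpowU, Real.rpow_add hN0, show (2 * e) = e + e by ring, Real.rpow_add hN0]
    have h1 : (N : ℝ) ^ (2 : ℝ) = (N : ℝ) ^ 2 := by
      rw [show (2 : ℝ) = ((2 : ℕ) : ℝ) by norm_num, Real.rpow_natCast]
    rw [h1]
    refine lt_of_le_of_lt ht2 ?_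
    have h2 : (6 : ℝ) * 6 ≤ (N : ℝ) ^ e * (N : ℝ) ^ e := mul_le_mul hNe hNe (by norm_num) (by positivity)
    have h3 : (0 : ℝ) < (N : ℝ) ^ 2 := by positivity
    nlinarith
  have hLU : ((N : ℝ) ^ (κ - e)) ^ 3 ≤ ((N : ℝ) ^ (1 + e)) ^ 2 := by
    rw [hpowL, hpowU]
    exact Real.rpow_le_rpow_of_exponent_le hN1.le (by linarith)
  have htL : ((N : ℝ) ^ (κ - e)) ^ 3 < t := by
    rw [hpowL]
    refine lt_of_lt_of_le ?_ ht1
    have h1 : (N : ℝ) ^ (3 * κ - 3 * e) * 2 < (N : ℝ) ^ (2 - η) := by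
      have h2 : (N : ℝ) ^ (3 * κ - 3 * e) * 2 < (N : ℝ) ^ (3 * κ - 3 * e) * (N : ℝ) ^ e :=
        mul_lt_mul_of_pos_left (by linarith) (by positivity)
      refine h2.trans_le ?_
      rw [← Real.rpow_add hN0]
      exact Real.rpow_le_rpow_of_exponent_le hN1.le (by linarith)
    linarith
  obtain ⟨D, p, hp, htDp, hDL, hLp⟩ := struct t ht _ _ hL1
    (fun d hd => div_dich N κ e e2 hN (by linarith) he2 t ht hg hmid d hd) (by positivity) hU hLU htL
  have hpY : (N : ℝ) ^ κ < p := by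
    refine lt_of_le_of_lt ?_ hLp
    rw [← Real.rpow_natCast, ← Real.rpow_mul hN0.le]
    apply Real.rpow_le_rpow_of_exponent_le hN1.le
    push_cast
    linarith
  have hDY : (D : ℝ) ≤ (N : ℝ) ^ κ :=
    hDL.le.trans (Real.rpow_le_rpow_of_exponent_le hN1.le (by linarith))
  rw [psiC_sq N e0 κ t ht hr]
  subst htDp
  rw [psi_val D p _ hp ht hDY hpY, lio_mul]
  have hDs : Squarefree D := ht.squarefree_of_dvd (Dvd.intro _ rfl)
  rw [lio_apply D hDs.ne_zero, lio_apply p hp.ne_zero, Nat.primeFactorsList_prime hp,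
    T2EM.card_pf D hDs]
  simp

end Pool.Agent.Lib.MP391708.QPA.C.T2CM

namespace Pool.Agent.Lib.MP391708.QPA.C

open Finset
open Pool.Agent.Lib.MP391708.QPA Pool.Agent.Lib.MP391708.QPA.H
open scoped Classical

theorem specT2C : SpecT2C := by
  intro κ e0 η hκ1 hκ2 he0 he1 hη hη1 hκη
  refine ⟨1 + 4 ^ ⌊3 / e0⌋₊ + (1 + 4 ^ ⌊3 / e0⌋₊) * (⌊3 / e0⌋₊).factorial, by positivity, ?_⟩
  intro e he he'
  have hQ1 : 1 ≤ ⌈3 / e⌉₊ := Nat.one_le_ceil_iff.mpr (by positivity)
  have hQe : 3 / e ≤ (⌈3 / e⌉₊ : ℝ) := Nat.le_ceil _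
  generalize ⌈3 / e⌉₊ = Q at hQ1 hQe
  have hQ0 : (0 : ℝ) < Q := by exact_mod_cast hQ1
  have he2 : 0 < e0 / Q := by positivity
  refine ⟨Q, hQ1, T2.fam Q ⌊3 * Q / e0⌋₊ ⌊3 / e0⌋₊, T2CM.ttC κ (e0 / Q) e, ?_, ?_,
    max 10 ⌈(6 : ℝ) ^ (1 / e)⌉₊, ?_⟩
  · intro c hc i hi
    exact (((T2.mem_fam _ _ _ _).mp hc).1 i hi).1
  · intro c hc
    refine (T2CM.abs_ttC_le _ _ _ _ _ ((T2.mem_fam _ _ _ _).mp hc).2).trans ?_
    have : (0 : ℝ) ≤ (1 + 4 ^ ⌊3 / e0⌋₊) * ((⌊3 / e0⌋₊).factorial : ℝ) := by positivity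
    linarith
  intro N hN0
  have hN : 10 ≤ N := le_trans (le_max_left _ _) hN0
  have hN10 : (10 : ℝ) ≤ N := by exact_mod_cast hN
  have hN1 : (1 : ℝ) < N := by linarith
  have hNp : (0 : ℝ) < N := by linarith
  have hNe : 6 ≤ (N : ℝ) ^ e := by
    have h1 : (6 : ℝ) ^ (1 / e) ≤ N := by
      refine (Nat.le_ceil _).trans ?_
      exact_mod_cast le_trans (le_max_right _ _) hN0
    calc (6 : ℝ) = ((6 : ℝ) ^ (1 / e)) ^ e := by
          rw [← Real.rpow_mul (by norm_num), one_div_mul_cancel he.ne', Real.rpow_one]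
      _ ≤ (N : ℝ) ^ e := Real.rpow_le_rpow (by positivity) h1 he.le
  have hR3 : ((⌊3 / e0⌋₊ : ℕ) : ℝ) ≤ 3 / e0 := Nat.floor_le (by positivity)
  have hRe : e0 / Q * (⌊3 / e0⌋₊ : ℝ) ≤ e := by
    calc e0 / Q * (⌊3 / e0⌋₊ : ℝ) ≤ e0 / Q * (3 / e0) := mul_le_mul_of_nonneg_left hR3 he2.le
      _ = 3 / Q := by field_simp
      _ ≤ e := by
          rw [div_le_iff₀ hQ0]
          rw [div_le_iff₀ he] at hQe
          linarith
  refine ⟨?_, ?_⟩
  · intro m hm1 hm2
    have hm0 : m ≠ 0 := by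
      intro h
      rw [h] at hm1
      have : (0 : ℝ) < (N : ℝ) ^ 2 / 2 := by positivity
      simp only [Nat.cast_zero] at hm1
      linarith
    have hRHS : ∀ x ∈ ({κ, 1} : Finset ℝ), (0 : ℝ) ≤
        (if RWin N e0 x (2 * e) m then (1 : ℝ) else 0) := by
      intro x _; split_ifs <;> norm_num
    have hRHS2 : (0 : ℝ) ≤ ∑ x ∈ ({κ, 1} : Finset ℝ),
        (if RWin N e0 x (2 * e) m then (1 : ℝ) else 0) :=
      Finset.sum_nonneg hRHS
    have hRHS3 : (0 : ℝ) ≤ (if NSq ((N : ℝ) ^ e0) m then (1 : ℝ) else 0) := by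
      split_ifs <;> norm_num
    have hst := T2CM.smp_mul_rgp ((N : ℝ) ^ e0) m hm0
    have hsm := T2CM.smooth_smp ((N : ℝ) ^ e0) m
    have hr := T2CM.rough_rgp ((N : ℝ) ^ e0) m
    have hpsi := T2CM.psiC_eq N e0 κ m hm0
    have hconv : ∀ c ∈ (T2.fam Q ⌊3 * Q / e0⌋₊ ⌊3 / e0⌋₊).filter
        (fun c => GoodC κ (e0 / Q) e c), T2CM.ttC κ (e0 / Q) e c *
        conv (fun m => FF N (e0 / Q) c m) (lsm ((N : ℝ) ^ e0) ((N : ℝ) ^ η)) m
        = (T2CM.ttC κ (e0 / Q) e c * FF N (e0 / Q) c (T2CM.rgp ((N : ℝ) ^ e0) m)) *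
          lsm ((N : ℝ) ^ e0) ((N : ℝ) ^ η) (smp ((N : ℝ) ^ e0) m) := by
      intro c hc
      rw [T2CM.conv_eq _ _ _ _ m hm0, mul_assoc]
      intro k hk
      have h5 := (FFB.FF_support N (e0 / Q) (by omega) c k hk).2.2.2.2 he2 Q
        (fun i hi => (((T2.mem_fam _ _ _ _).mp (mem_filter.mp hc).1).1 i hi).1)
      rw [div_mul_cancel₀ _ hQ0.ne'] at h5
      exact h5
    rw [Finset.sum_congr rfl hconv, ← Finset.sum_mul, hpsi]
    generalize hs : smp ((N : ℝ) ^ e0) m = s at *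
    generalize ht : T2CM.rgp ((N : ℝ) ^ e0) m = t at *
    have hs0 : s ≠ 0 := fun h0 => hm0 (by rw [← hst, h0, zero_mul])
    have ht0 : t ≠ 0 := fun h0 => hm0 (by rw [← hst, h0, mul_zero])
    have htm : t ∣ m := Dvd.intro_left _ hst
    by_cases hsN : (s : ℝ) ≤ (N : ℝ) ^ η
    · have hlsm : lsm ((N : ℝ) ^ e0) ((N : ℝ) ^ η) s = lio s := by
        rw [lsm, if_pos ⟨Nat.one_le_iff_ne_zero.mpr hs0, hsN, hsm⟩]
      rw [if_pos hsN, hlsm, lamC, hs, if_pos hsN, ← hst, T2CM.lio_mul]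
      have hfac : lio s * lio t - lio s * psiC N e0 κ t
          - (∑ c ∈ (T2.fam Q ⌊3 * Q / e0⌋₊ ⌊3 / e0⌋₊).filter (fun c => GoodC κ (e0 / Q) e c),
              T2CM.ttC κ (e0 / Q) e c * FF N (e0 / Q) c t) * lio s
          = lio s * (lio t - psiC N e0 κ t
            - ∑ c ∈ (T2.fam Q ⌊3 * Q / e0⌋₊ ⌊3 / e0⌋₊).filter (fun c => GoodC κ (e0 / Q) e c),
              T2CM.ttC κ (e0 / Q) e c * FF N (e0 / Q) c t) := by ring
      rw [hfac, abs_mul, T2CM.abs_lio s hs0, one_mul, hst]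
      -- size of `t`
      have ht2 : (t : ℝ) ≤ 5 * (N : ℝ) ^ 2 := by
        refine le_trans ?_ hm2
        exact_mod_cast Nat.le_of_dvd (Nat.pos_of_ne_zero hm0) htm
      have ht1 : (N : ℝ) ^ (2 - η) / 2 ≤ t := by
        have h1 : (m : ℝ) = s * t := by exact_mod_cast hst.symm
        have ht0' : (0 : ℝ) < t := by exact_mod_cast Nat.pos_of_ne_zero ht0
        have h2 : (N : ℝ) ^ 2 / 2 ≤ (N : ℝ) ^ η * t := by
          refine hm1.trans ?_
          rw [h1]
          exact mul_le_mul_of_nonneg_right hsN ht0'.le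
        have h3 : (N : ℝ) ^ 2 = (N : ℝ) ^ η * (N : ℝ) ^ (2 - η) := by
          rw [← Real.rpow_add hNp, show η + (2 - η) = ((2 : ℕ) : ℝ) by push_cast; ring,
            Real.rpow_natCast]
        have h4 : 0 < (N : ℝ) ^ η := by positivity
        have h5 : (N : ℝ) ^ η * ((N : ℝ) ^ (2 - η) / 2) ≤ (N : ℝ) ^ η * t := by
          rw [← mul_div_assoc, ← h3]
          exact h2
        exact le_of_mul_le_mul_left h5 h4
      have hlen := T2.length_le N e0 he0 hN t ht0 ht2 hr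
      have hgen := T2CM.gen_bound N Q e0 κ e hN he0 hQ1 t hlen
        ((T2.fam Q ⌊3 * Q / e0⌋₊ ⌊3 / e0⌋₊).filter (fun c => GoodC κ (e0 / Q) e c))
        (fun c hc => ((T2.mem_fam _ _ _ _).mp (mem_filter.mp hc).1).2)
      by_cases hsq : Squarefree t
      · by_cases hg : GoodC κ (e0 / Q) e (T2.typ N (e0 / Q) t)
        · -- good type
          have hid := T2CM.good_identity N e0 κ e (e0 / Q) hN (by linarith) he he2 t hsq hr hg
          have hmem : T2.typ N (e0 / Q) t ∈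
              (T2.fam Q ⌊3 * Q / e0⌋₊ ⌊3 / e0⌋₊).filter (fun c => GoodC κ (e0 / Q) e c) :=
            mem_filter.mpr ⟨T2.typ_mem N Q e0 hN he0 hQ1 t ht0 ht2 hr, hg⟩
          have hzero : lio t - psiC N e0 κ t
              - ∑ c ∈ (T2.fam Q ⌊3 * Q / e0⌋₊ ⌊3 / e0⌋₊).filter (fun c => GoodC κ (e0 / Q) e c),
                T2CM.ttC κ (e0 / Q) e c * FF N (e0 / Q) c t = 0 := by
            rw [T2.sum_types N Q e0 hN he2, if_pos hmem,
              T2.FF_typ N _ (by omega) he2 _ t hsq rfl, T2CM.ttC]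
            split_ifs with hmid
            · rw [hid, div_mul_cancel₀ _ (lt_of_lt_of_le one_pos (T2.vf_pos _)).ne', sub_self]
            · rw [zero_mul, sub_zero]
              apply T2CM.no_mid N e0 κ η e (e0 / Q) hN hκ1 hκ2 he he' hκη hNe he2 t hsq hr ht1 ht2 hg
              rintro ⟨c₁, hc1, hM⟩
              obtain ⟨c₂, hc2⟩ := Multiset.le_iff_exists_add.mp hc1
              rcases eq_or_ne c₂ 0 with h0 | h0
              · rw [h0, add_zero] at hc2
                rw [← hc2] at hM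
                have hb := T2EM.div_sub N (e0 / Q) (by omega) he2 t t hsq (dvd_refl t)
                rw [← T2.typ_sq N (e0 / Q) t hsq] at hb
                have h1 : (t : ℝ) ≤ (N : ℝ) ^ (1 : ℝ) :=
                  hb.2.2.trans (Real.rpow_le_rpow_of_exponent_le hN1.le (by linarith [hM.2]))
                rw [Real.rpow_one] at h1
                have h2 : (N : ℝ) ^ (1 + e) ≤ (N : ℝ) ^ (2 - η) :=
                  Real.rpow_le_rpow_of_exponent_le hN1.le (by linarith)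
                rw [Real.rpow_add hNp, Real.rpow_one] at h2
                nlinarith
              · exact hmid ⟨c₁, c₂, hc2.symm, h0, hM⟩
          rw [hzero, abs_zero]
          exact mul_nonneg (by positivity) (by linarith)
        · -- bad type
          obtain ⟨x, hx, hW⟩ := T2CM.bad_type N e0 κ e hN (e0 / Q) he2 _ hRe t hsq hr hlen hg
          refine hgen.trans (le_mul_of_one_le_right (by positivity) ?_)
          have h1 := Finset.single_le_sum hRHS hx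
          rw [if_pos (T2CM.RWin_mono N e0 x (2 * e) t m htm hW)] at h1
          linarith
      · -- not squarefree
        have hns : NSq ((N : ℝ) ^ e0) m := by
          rw [Nat.squarefree_iff_prime_squarefree] at hsq
          push Not at hsq
          obtain ⟨p, hp, hpm⟩ := hsq
          exact ⟨p, hp, hr p hp ((Dvd.intro _ rfl).trans hpm), by rw [pow_two]; exact hpm.trans htm⟩
        refine hgen.trans (le_mul_of_one_le_right (by positivity) ?_)
        rw [if_pos hns]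
        linarith
    · have hlsm : lsm ((N : ℝ) ^ e0) ((N : ℝ) ^ η) s = 0 := by
        rw [lsm, if_neg (fun h => hsN h.2.1)]
      rw [if_neg hsN, hlsm, lamC, hs, if_neg hsN, zero_mul, mul_zero, sub_zero, sub_zero, abs_zero]
      exact mul_nonneg (by positivity) (by linarith)
  · intro c _ _ hc
    by_contra hno
    apply hc
    rw [T2CM.ttC, if_neg]
    exact hno

end Pool.Agent.Lib.MP391708.QPA.C
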