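import Pool.Agent.Lib.MP_391708_nt.QPA.C.TICb
import Pool.Agent.Lib.MP_391708_nt.QPA.TI

/-!
# Module TIC: Type I for the Liouville function
-/

set_option autoImplicit false

namespace Pool.Agent.Lib.MP391708.QPA.C.TICM

open Finset Filter Topology
open Pool.Agent.Lib.MP391708.QPA
open Pool.Agent.Lib.MP391708.QPA.H
open scoped Classical
open FLCM

noncomputable section

/-- one divisor `k` -/
lemma one_k (N : ℕ) (a : ℤ) (e0 η : ℝ) (w J k : ℕ) (E R : ℝ)
    (hFL : ∀ ν : ℕ, ν < QJ w J → |∑ n ∈ (Ioc N (2 * N)).filter (fun n => n % QJ w J = ν ∧ k ∣ val a n),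
      sg ((N : ℝ) ^ η / (Nat.gcd (val a ν) (QJ w J) : ℝ)) (PW2 w ((N : ℝ) ^ e0) (val a n))|
      ≤ (N : ℝ) / (QJ w J : ℕ) * ((rho a k : ℝ) / k) * E + R) :
    |∑ n ∈ (Ioc N (2 * N)).filter (fun n => k ∣ val a n), FC N e0 η w J (val a n)|
      ≤ N * ((rho a k : ℝ) / k) * E + (QJ w J : ℕ) * R := by
  have hQ : 1 ≤ QJ w J := QJ_pos w J
  have hQ0 : (0 : ℝ) < (QJ w J : ℕ) := by exact_mod_cast hQ
  have h1 : ∑ n ∈ (Ioc N (2 * N)).filter (fun n => k ∣ val a n), FC N e0 η w J (val a n)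
      = ∑ ν ∈ range (QJ w J), ∑ n ∈ (Ioc N (2 * N)).filter (fun n => n % QJ w J = ν ∧ k ∣ val a n),
        FC N e0 η w J (val a n) := by
    rw [← sum_fiberwise_of_maps_to (g := fun n => n % QJ w J) (t := range (QJ w J))
      (fun n _ => mem_range.2 (Nat.mod_lt _ hQ))]
    refine sum_congr rfl fun ν _ => ?_
    apply sum_congr _ fun _ _ => rfl
    rw [filter_filter]
    apply filter_congr
    intro n _
    tauto
  rw [h1]
  refine (abs_sum_le_sum_abs _ _).trans ?_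
  have h2 : ∀ ν ∈ range (QJ w J), |∑ n ∈ (Ioc N (2 * N)).filter (fun n => n % QJ w J = ν ∧ k ∣ val a n),
        FC N e0 η w J (val a n)| ≤ (N : ℝ) / (QJ w J : ℕ) * ((rho a k : ℝ) / k) * E + R := by
    intro ν hν
    have h3 : ∑ n ∈ (Ioc N (2 * N)).filter (fun n => n % QJ w J = ν ∧ k ∣ val a n),
        FC N e0 η w J (val a n) = lio (Nat.gcd (val a ν) (QJ w J)) *
        ∑ n ∈ (Ioc N (2 * N)).filter (fun n => n % QJ w J = ν ∧ k ∣ val a n),
          sg ((N : ℝ) ^ η / (Nat.gcd (val a ν) (QJ w J) : ℝ)) (PW2 w ((N : ℝ) ^ e0) (val a n)) := by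
      rw [mul_sum]
      refine sum_congr rfl fun n hn => ?_
      have h4 := gcd_mod a (QJ w J) n ν (mem_filter.1 hn).2.1
      unfold FC
      rw [h4]
    rw [h3, abs_mul]
    refine le_trans ?_ (hFL ν (mem_range.1 hν))
    exact mul_le_of_le_one_left (abs_nonneg _) (abs_lio _)
  refine (sum_le_sum h2).trans (le_of_eq ?_)
  rw [sum_const, card_range, nsmul_eq_mul]
  field_simp

/-- the sum of the comparison function -/
lemma main_sum (N : ℕ) (a : ℤ) (e0 κ η : ℝ) (w J : ℕ) (E R : ℝ)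
    (hval : ∀ n ∈ Ioc N (2 * N), val a n ≠ 0)
    (hFL : ∀ k ∈ KC N e0 κ, ∀ ν : ℕ, ν < QJ w J →
      |∑ n ∈ (Ioc N (2 * N)).filter (fun n => n % QJ w J = ν ∧ k ∣ val a n),
      sg ((N : ℝ) ^ η / (Nat.gcd (val a ν) (QJ w J) : ℝ)) (PW2 w ((N : ℝ) ^ e0) (val a n))|
      ≤ (N : ℝ) / (QJ w J : ℕ) * ((rho a k : ℝ) / k) * E + R) :
    |∑ n ∈ Ioc N (2 * N), FC N e0 η w J (val a n) * psiC N e0 κ (val a n)|
      ≤ N * E * (∑ k ∈ KC N e0 κ, (2 : ℝ) ^ k.primeFactors.card * ((rho a k : ℝ) / k))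
        + (QJ w J : ℕ) * R * ∑ k ∈ KC N e0 κ, (2 : ℝ) ^ k.primeFactors.card := by
  have h1 : ∑ n ∈ Ioc N (2 * N), FC N e0 η w J (val a n) * psiC N e0 κ (val a n)
      = -∑ k ∈ KC N e0 κ, (-2 : ℝ) ^ k.primeFactors.card *
        ∑ n ∈ (Ioc N (2 * N)).filter (fun n => k ∣ val a n), FC N e0 η w J (val a n) := by
    have h2 : ∀ n ∈ Ioc N (2 * N), FC N e0 η w J (val a n) * psiC N e0 κ (val a n)
        = -∑ k ∈ KC N e0 κ, (-2 : ℝ) ^ k.primeFactors.card *
          (if k ∣ val a n then FC N e0 η w J (val a n) else 0) := by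
      intro n hn
      rw [psiC_eq N e0 κ _ (hval n hn), mul_neg, mul_sum]
      congr 1
      refine sum_congr rfl fun k _ => ?_
      split_ifs <;> ring
    rw [sum_congr rfl h2, sum_neg_distrib, sum_comm]
    congr 1
    refine sum_congr rfl fun k _ => ?_
    rw [← mul_sum, sum_filter]
  rw [h1, abs_neg]
  refine (abs_sum_le_sum_abs _ _).trans ?_
  have h2 : ∀ k ∈ KC N e0 κ, |(-2 : ℝ) ^ k.primeFactors.card *
        ∑ n ∈ (Ioc N (2 * N)).filter (fun n => k ∣ val a n), FC N e0 η w J (val a n)|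
      ≤ N * E * ((2 : ℝ) ^ k.primeFactors.card * ((rho a k : ℝ) / k))
        + (QJ w J : ℕ) * R * (2 : ℝ) ^ k.primeFactors.card := by
    intro k hk
    have h3 := one_k N a e0 η w J k E R (hFL k hk)
    rw [abs_mul, abs_pow, abs_neg, abs_of_pos (show (0 : ℝ) < 2 by norm_num)]
    calc (2 : ℝ) ^ k.primeFactors.card * _ ≤ (2 : ℝ) ^ k.primeFactors.card *
          (N * ((rho a k : ℝ) / k) * E + (QJ w J : ℕ) * R) :=
          mul_le_mul_of_nonneg_left h3 (by positivity)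
      _ = _ := by ring
  refine (sum_le_sum h2).trans (le_of_eq ?_)
  rw [sum_add_distrib, ← mul_sum, ← mul_sum]

/-- the number of divisors, with weights -/
lemma sum_two (N : ℕ) (e0 κ : ℝ) (hN : 2 ≤ N) (he0 : 0 < e0) (hκ : κ ≤ 1) :
    ∑ k ∈ KC N e0 κ, (2 : ℝ) ^ k.primeFactors.card ≤ (2 : ℝ) ^ (1 / e0) * (N : ℝ) ^ κ := by
  have h1 : ∀ k ∈ KC N e0 κ, (2 : ℝ) ^ k.primeFactors.card ≤ (2 : ℝ) ^ (1 / e0) := by
    intro k hk
    obtain ⟨hk1, hkN, hkr, hks⟩ := mem_KC.1 hk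
    have h3 := FLA.card_primeFactors_le hN he0 (by omega) hkr hkN
    have h4 : (k.primeFactors.card : ℝ) ≤ 1 / e0 := by
      rw [le_div_iff₀ he0]
      linarith
    rw [← Real.rpow_natCast]
    exact Real.rpow_le_rpow_of_exponent_le (by norm_num) h4
  refine (sum_le_card_nsmul _ _ _ h1).trans ?_
  rw [nsmul_eq_mul, mul_comm]
  refine mul_le_mul_of_nonneg_left ?_ (by positivity)
  unfold KC
  refine le_trans (Nat.cast_le.2 (Finset.card_filter_le _ _)) ?_
  rw [Nat.card_Icc, Nat.add_sub_cancel]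
  exact Nat.floor_le (by positivity)

/-- the values -/
lemma val_bounds (N A : ℕ) (hN : 5 ≤ N) (hA : (A : ℝ) ≤ N * Real.log N) (a : ℤ) (ha : a ∈ IA A) (n : ℕ)
    (hn : n ∈ Ioc N (2 * N)) : val a n ≠ 0 ∧ ((val a n : ℕ) : ℝ) ≤ (N : ℝ) ^ (3 : ℝ) := by
  have hN0 : (5 : ℝ) ≤ N := by exact_mod_cast hN
  have h1 : (A : ℝ) ≤ (N : ℝ) ^ 2 := by
    have h2 : Real.log N ≤ N := by
      have := Real.log_le_sub_one_of_pos (show (0 : ℝ) < N by linarith)
      linarith
    nlinarith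
  have h2 : (A : ℤ) ≤ (N : ℤ) ^ 2 := by
    have : A ≤ N ^ 2 := by exact_mod_cast h1
    exact_mod_cast this
  rw [IA, mem_Icc] at ha
  rw [mem_Ioc] at hn
  have h3 : (N : ℤ) + 1 ≤ n := by exact_mod_cast hn.1
  have h4 : (n : ℤ) ≤ 2 * N := by exact_mod_cast hn.2
  have h5 : 0 < (n : ℤ) ^ 2 + a := by nlinarith
  have h6 : ((val a n : ℕ) : ℤ) = (n : ℤ) ^ 2 + a := by
    unfold val
    rw [Int.natAbs_of_nonneg h5.le]
  have h7 : ((val a n : ℕ) : ℤ) ≤ (N : ℤ) ^ 3 := by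
    rw [h6]
    have : (5 : ℤ) ≤ N := by exact_mod_cast hN
    nlinarith [mul_nonneg (show (0 : ℤ) ≤ (N : ℤ) ^ 2 by positivity) (show (0 : ℤ) ≤ (N : ℤ) - 5 by linarith)]
  constructor
  · intro h
    rw [h] at h6
    push_cast at h6
    omega
  · have h8 : ((val a n : ℕ) : ℝ) ≤ (N : ℝ) ^ 3 := by exact_mod_cast h7
    calc ((val a n : ℕ) : ℝ) ≤ (N : ℝ) ^ 3 := h8
      _ = (N : ℝ) ^ (3 : ℝ) := by
        rw [← Real.rpow_natCast]
        norm_num

end

end Pool.Agent.Lib.MP391708.QPA.C.TICM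

namespace Pool.Agent.Lib.MP391708.QPA.C

open Finset Filter Topology
open Pool.Agent.Lib.MP391708.QPA
open Pool.Agent.Lib.MP391708.QPA.H
open scoped Classical
open FLCM TICM

theorem specTIC (hFLC : SpecFLC) (hPROD : SpecPRODK) (hGMAX : SpecGMAX) (hWM : SpecWMER)
    (hMER : SpecMER) (hS : SpecRHOS) : SpecTIC := by
  obtain ⟨cF, hcF, hFLC⟩ := hFLC
  obtain ⟨cW, hcW, hWM⟩ := hWM
  intro θ κ η ε hθ hκ1 hκ2 hη hη20 hε
  set Kη : ℝ := 3600000000000 + 3840 / η ^ 5 with hKη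
  have hKη0 : 0 < Kη := by positivity
  refine ⟨min (1 / 800) (ε / (8 * (1296 * (cF * Kη)))), by positivity, ?_⟩
  intro e0 he0 he1
  have he0a : e0 ≤ 1 / 800 := le_trans he1 (min_le_left _ _)
  have he0b : e0 ≤ ε / (8 * (1296 * (cF * Kη))) := le_trans he1 (min_le_right _ _)
  set b : ℕ := ⌊1 / (100 * e0)⌋₊ with hb
  have hbe : e0 * (8 * b + 16) ≤ 1 / 10 := by
    have h1 : (b : ℝ) ≤ 1 / (100 * e0) := Nat.floor_le (by positivity)
    have h2 : e0 * b ≤ 1 / 100 := by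
      calc e0 * b ≤ e0 * (1 / (100 * e0)) := mul_le_mul_of_nonneg_left h1 he0.le
        _ = 1 / 100 := by field_simp
    linarith
  -- the exponentials
  have hexs : (6 / e0) ^ 4 * (cF * Real.exp (-(b : ℝ)) + cF * Real.exp (-(η / (2 * e0)))) ≤ ε / 8 := by
    have h1 := ex_small e0 η he0 hη
    rw [← hb, ← hKη] at h1
    calc (6 / e0) ^ 4 * (cF * Real.exp (-(b : ℝ)) + cF * Real.exp (-(η / (2 * e0))))
        = (6 / e0) ^ 4 * cF * (Real.exp (-(b : ℝ)) + Real.exp (-(η / (2 * e0)))) := by ring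
      _ ≤ (6 / e0) ^ 4 * cF * (Kη * e0 ^ 5) := mul_le_mul_of_nonneg_left h1 (by positivity)
      _ = e0 * (1296 * (cF * Kη)) := by
          field_simp
          norm_num
      _ ≤ ε / 8 := by
          rw [le_div_iff₀ (by positivity)] at he0b
          linarith
  -- parameters
  set C1 : ℝ := (3 : ℝ) ^ (3 / e0) with hC1
  have hC10 : 0 < C1 := by positivity
  set δ' : ℝ := ε / (8 * C1) with hδ'
  have hδ'0 : 0 < δ' := by positivity
  obtain ⟨w1, hw1⟩ := exists_nat_ge (32 / (δ' * ε))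
  set w : ℕ := max w1 4 with hw
  have hw4 : 4 ≤ w := le_max_right _ _
  have hw4' : (4 : ℝ) ≤ w := by exact_mod_cast hw4
  have hww : 32 / (δ' * ε) ≤ w := hw1.trans (by exact_mod_cast le_max_left _ _)
  obtain ⟨J, hJ⟩ := pow_unbounded_of_one_lt (32 * w / (δ' * ε)) (show (1 : ℝ) < 2 by norm_num)
  have hQ : 1 ≤ QJ w J := QJ_pos w J
  obtain ⟨w₀, hPROD⟩ := hPROD (min (ε / 4) 1) (by positivity)
  set w' : ℕ := max w₀ 2 with hw'
  obtain ⟨N₁, hPROD⟩ := hPROD w' (le_max_left _ _) e0 he0 (by linarith)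
  obtain ⟨gc, hgc, hGM⟩ := hGMAX w' (le_max_right _ _)
  obtain ⟨N₂, hFLC⟩ := hFLC b w (QJ w J) e0 κ η hw4 hQ (fun p hp hd => prime_dvd_QJ w J p hp hd) he0 hbe
    hη hη20 hκ2.le
  obtain ⟨N₃, hMER⟩ := hMER (e0 / 2) 1 1 (by positivity) (by linarith) one_pos
  obtain ⟨N₄, hN₄, hlog⟩ := FLA.log_le ((2 : ℝ) ^ (1 / e0) * (QJ w J : ℕ) * (8 / ε)) (κ + 1 / 4) 1 (by linarith)
  obtain ⟨N₅, hN₅⟩ := eventually_atTop.1
    (((tendsto_rpow_atTop he0).comp tendsto_natCast_atTop_atTop).eventually_gt_atTop ((w : ℝ) + 2))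
  obtain ⟨N₆, hN₆⟩ := eventually_atTop.1
    (((tendsto_rpow_atTop (show (0 : ℝ) < η / 2 by positivity)).comp
      tendsto_natCast_atTop_atTop).eventually_ge_atTop ((QJ w J : ℕ) : ℝ))
  obtain ⟨N₇, hN₇⟩ := eventually_atTop.1
    (((tendsto_rpow_atTop (show (0 : ℝ) < 3 / 5 by norm_num)).comp
      tendsto_natCast_atTop_atTop).eventually_ge_atTop ((w : ℝ) ^ J))
  set D : ℝ := ((3 : ℝ) ^ (w + 1) * (2 * (w' * (cW / e0)))) ^ 2 with hD
  have hD0 : 0 ≤ D := by positivity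
  have limlog : Tendsto (fun N : ℕ => D * (6 / e0) ^ 4 * (1 / (Real.log N) ^ 2)) atTop (𝓝 0) := by
    have h1 : Tendsto (fun N : ℕ => (Real.log N) ^ 2) atTop atTop :=
      (tendsto_pow_atTop (by norm_num)).comp (Real.tendsto_log_atTop.comp tendsto_natCast_atTop_atTop)
    have h2 := h1.inv_tendsto_atTop.const_mul (D * (6 / e0) ^ 4)
    rw [mul_zero] at h2
    refine h2.congr fun N => ?_
    simp [one_div]
  obtain ⟨N₈, hN₈⟩ := eventually_atTop.1 (limlog.eventually_le_const (show (0 : ℝ) < ε / 8 by positivity))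
  refine ⟨N₁ + N₂ + N₃ + N₄ + N₅ + N₆ + N₇ + N₈ + 5, fun N A hN hadm => ?_⟩
  have hN5 : 5 ≤ N := by omega
  have hN2 : 2 ≤ N := by omega
  have hN0 : (0 : ℝ) < N := by exact_mod_cast (by omega : 0 < N)
  have hN1 : (1 : ℝ) ≤ N := by exact_mod_cast (by omega : 1 ≤ N)
  have hN1' : (1 : ℝ) < N := by exact_mod_cast (by omega : 1 < N)
  have hlogN : 0 < Real.log N := Real.log_pos hN1'
  have hNA : (N : ℝ) ^ (3 / 5 : ℝ) ≤ A :=
    le_trans (Real.rpow_le_rpow_of_exponent_le hN1 (by linarith)) hadm.1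
  have hA0 : (0 : ℝ) ≤ A := by positivity
  have hz2 : (w : ℝ) + 2 < (N : ℝ) ^ e0 := hN₅ N (by omega)
  have hQη : ((QJ w J : ℕ) : ℝ) ≤ (N : ℝ) ^ (η / 2) := hN₆ N (by omega)
  have hwJ : (w : ℝ) ^ J ≤ A := le_trans (hN₇ N (by omega)) hNA
  have hN8 : D * (6 / e0) ^ 4 * (1 / (Real.log N) ^ 2) ≤ ε / 8 := hN₈ N (by omega)
  have hPROD := hPROD N A (by omega) hNA
  have hFLC := hFLC N (by omega)
  have hMER := hMER N (by omega)
  have hlog := hlog N (by omega)
  have hmer : ∑ p ∈ PW N (e0 / 2) 1, 1 / (p : ℝ) ≤ Real.log (1 / (e0 / 2)) + 1 := by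
    have := (abs_le.1 hMER).2
    linarith
  set z : ℝ := (N : ℝ) ^ e0 with hz
  have hwz : (w : ℝ) < z := by linarith
  have hzA : z ^ 2 ≤ A := by
    refine le_trans ?_ hNA
    rw [hz, ← Real.rpow_natCast, ← Real.rpow_mul hN0.le]
    refine Real.rpow_le_rpow_of_exponent_le hN1 ?_
    push_cast
    linarith
  -- exceptional sets
  set E1 := (IA A).filter (fun a => ¬ |Wa z a - Gw w' a * Wp z| ≤ min (ε / 4) 1 * (Gw w' a * Wp z)) with hE1
  set bad : ℤ → ℝ := fun a => ∑ n ∈ Ioc N (2 * N), (if Gd w J z (val a n) then (0 : ℝ) else 1) with hbad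
  set E2 := (IA A).filter (fun a => δ' * N < bad a) with hE2
  have hc1 : (E1.card : ℝ) ≤ ε / 4 * A :=
    hPROD.trans (mul_le_mul_of_nonneg_right (min_le_left _ _) hA0)
  have hc2 : (E2.card : ℝ) ≤ ε / 4 * A := by
    have h1 : ∑ a ∈ IA A, bad a ≤ N * (4 * A * ((w : ℝ) / 2 ^ J + 1 / w)) := by
      rw [hbad, sum_comm]
      refine (sum_le_card_nsmul _ _ _ fun n _ => bad_n n A w J z (by omega) hwz.le hzA hwJ).trans ?_
      rw [nsmul_eq_mul, Nat.card_Ioc]
      have : 2 * N - N = N := by omega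
      rw [this]
    have h2 : (w : ℝ) / 2 ^ J ≤ δ' * ε / 32 := by
      rw [div_le_div_iff₀ (by positivity) (by norm_num)]
      have := hJ.le
      rw [div_le_iff₀ (by positivity)] at this
      linarith
    have h3 : 1 / (w : ℝ) ≤ δ' * ε / 32 := by
      rw [div_le_div_iff₀ (by linarith) (by norm_num)]
      have := hww
      rw [div_le_iff₀ (by positivity)] at this
      linarith
    refine (TI.markov (IA A) bad (δ' * N) _ (by positivity)
      (fun a _ => sum_nonneg fun n _ => by split_ifs <;> norm_num) h1).trans ?_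
    rw [div_le_iff₀ (by positivity)]
    calc N * (4 * A * ((w : ℝ) / 2 ^ J + 1 / w)) ≤ N * (4 * A * (δ' * ε / 32 + δ' * ε / 32)) := by
          gcongr
      _ = ε / 4 * A * (δ' * N) := by ring
  have hmain : (IA A).filter (fun a => ε * N <
      |cnt N a (fun m => lamC N e0 η m * psiC N e0 κ m)|) ⊆ E1 ∪ E2 := by
    intro a ha
    rw [Finset.mem_filter] at ha
    obtain ⟨haI, ha⟩ := ha
    by_contra hcon
    simp only [Finset.mem_union, not_or, hE1, hE2, Finset.mem_filter, not_and, not_not,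
      not_lt] at hcon
    obtain ⟨hc1, hc2⟩ := hcon
    have hV := hc1 haI
    have hB := hc2 haI
    refine absurd ha (not_lt.2 ?_)
    have hvb := fun n hn => val_bounds N A hN5 hadm.2 a haI n hn
    -- VC
    have hWp0 : 0 ≤ Wp z := by
      rw [Wp]
      refine Finset.prod_nonneg fun p hp => ?_
      rw [PB, Finset.mem_filter] at hp
      have : (1 : ℝ) ≤ p := by exact_mod_cast hp.2.one_lt.le
      have : 1 / (p : ℝ) ≤ 1 := by
        rw [div_le_one (by linarith only [this])]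
        exact this
      linarith only [this]
    have hG0 : 0 ≤ Gw w' a := hgc.le.trans (hGM a).1
    have hGW0 : 0 ≤ Gw w' a * Wp z := mul_nonneg hG0 hWp0
    have hWple : Wp z ≤ cW / (e0 * Real.log N) := by
      have := hWM z (by linarith)
      rwa [hz, Real.log_rpow hN0, ← hz] at this
    have hm1 : min (ε / 4) 1 ≤ (1 : ℝ) := min_le_right _ _
    have hWa0 : 0 ≤ Wa z a := by
      have h1 := (abs_le.1 hV).1
      nlinarith
    have hWale : Wa z a ≤ 2 * (w' * (cW / e0)) * (1 / Real.log N) := by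
      have h1 := (abs_le.1 hV).2
      have h2 : Gw w' a * Wp z ≤ w' * (cW / (e0 * Real.log N)) :=
        mul_le_mul (hGM a).2 hWple hWp0 (Nat.cast_nonneg _)
      have h3 : min (ε / 4) 1 * (Gw w' a * Wp z) ≤ 1 * (Gw w' a * Wp z) :=
        mul_le_mul_of_nonneg_right hm1 hGW0
      have h4 : 2 * ((w' : ℝ) * (cW / e0)) * (1 / Real.log N) = 2 * (w' * (cW / (e0 * Real.log N))) := by
        field_simp
      rw [h4]
      linarith
    obtain ⟨hVC0, hVCle⟩ := VC_le w z a hw4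
    have hVC : VC w z a * (6 / e0) ^ 4 ≤ ε / 8 := by
      refine le_trans ?_ hN8
      have h1 : ((3 : ℝ) ^ (w + 1) * Wa z a) ^ 2 ≤ D * (1 / (Real.log N) ^ 2) := by
        have h2 : (3 : ℝ) ^ (w + 1) * Wa z a ≤ (3 : ℝ) ^ (w + 1) * (2 * (w' * (cW / e0))) * (1 / Real.log N) := by
          rw [mul_assoc]
          exact mul_le_mul_of_nonneg_left hWale (by positivity)
        calc _ ≤ ((3 : ℝ) ^ (w + 1) * (2 * (w' * (cW / e0))) * (1 / Real.log N)) ^ 2 :=
              pow_le_pow_left₀ (by positivity) h2 2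
          _ = D * (1 / (Real.log N) ^ 2) := by rw [hD, mul_pow, one_div_pow]
      calc VC w z a * (6 / e0) ^ 4 ≤ D * (1 / (Real.log N) ^ 2) * (6 / e0) ^ 4 :=
            mul_le_mul_of_nonneg_right (hVCle.trans h1) (by positivity)
        _ = _ := by ring
    -- the main sum
    set E : ℝ := VC w z a + cF * Real.exp (-(b : ℝ)) + cF * Real.exp (-(η / (2 * e0))) with hE
    have hE0 : 0 ≤ E := by positivity
    have hms := main_sum N a e0 κ η w J E ((N : ℝ) ^ (1 / 4 : ℝ)) (fun n hn => (hvb n hn).1) (by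
      intro k hk ν hν
      obtain ⟨hk1, hkN, hkr, hks⟩ := mem_KC.1 hk
      have hg1 : 1 ≤ Nat.gcd (val a ν) (QJ w J) := Nat.gcd_pos_of_pos_right _ hQ
      have hg1' : (1 : ℝ) ≤ (Nat.gcd (val a ν) (QJ w J) : ℝ) := by exact_mod_cast hg1
      have hgQ : (Nat.gcd (val a ν) (QJ w J) : ℝ) ≤ (N : ℝ) ^ (η / 2) := by
        refine le_trans ?_ hQη
        exact_mod_cast Nat.le_of_dvd hQ (Nat.gcd_dvd_right _ _)
      refine hFLC a ν k hν hks hkr hkN ((N : ℝ) ^ η / (Nat.gcd (val a ν) (QJ w J) : ℝ)) ?_ ?_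
      · rw [le_div_iff₀ (by linarith)]
        calc (N : ℝ) ^ (η / 2) * (Nat.gcd (val a ν) (QJ w J) : ℝ) ≤ (N : ℝ) ^ (η / 2) * (N : ℝ) ^ (η / 2) :=
              mul_le_mul_of_nonneg_left hgQ (by positivity)
          _ = (N : ℝ) ^ η := by
              rw [← Real.rpow_add hN0]
              congr 1
              ring
      · exact div_le_self (by positivity) hg1')
    have hSK := sum_K hS N e0 κ hN2 he0 (by linarith) hmer a
    have hST := sum_two N e0 κ hN2 he0 (by linarith)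
    have m1 : N * E * (∑ k ∈ KC N e0 κ, (2 : ℝ) ^ k.primeFactors.card * ((rho a k : ℝ) / k))
        ≤ N * (ε / 4) := by
      calc _ ≤ N * E * (6 / e0) ^ 4 := mul_le_mul_of_nonneg_left hSK (by positivity)
        _ = N * (VC w z a * (6 / e0) ^ 4 +
            (6 / e0) ^ 4 * (cF * Real.exp (-(b : ℝ)) + cF * Real.exp (-(η / (2 * e0))))) := by
            rw [hE]; ring
        _ ≤ N * (ε / 4) := by
            apply mul_le_mul_of_nonneg_left _ hN0.le
            linarith only [hVC, hexs]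
    have m2 : (QJ w J : ℕ) * (N : ℝ) ^ (1 / 4 : ℝ) * ∑ k ∈ KC N e0 κ, (2 : ℝ) ^ k.primeFactors.card
        ≤ ε / 8 * N := by
      calc _ ≤ (QJ w J : ℕ) * (N : ℝ) ^ (1 / 4 : ℝ) * ((2 : ℝ) ^ (1 / e0) * (N : ℝ) ^ κ) :=
            mul_le_mul_of_nonneg_left hST (by positivity)
        _ = (2 : ℝ) ^ (1 / e0) * (QJ w J : ℕ) * ((N : ℝ) ^ κ * (N : ℝ) ^ (1 / 4 : ℝ)) := by ring
        _ = (2 : ℝ) ^ (1 / e0) * (QJ w J : ℕ) * (N : ℝ) ^ (κ + 1 / 4) := by
            rw [Real.rpow_add hN0]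
        _ ≤ (2 : ℝ) ^ (1 / e0) * (QJ w J : ℕ) * (1 + Real.log N) * (N : ℝ) ^ (κ + 1 / 4) := by
            refine mul_le_mul_of_nonneg_right ?_ (by positivity)
            exact le_mul_of_one_le_right (by positivity) (by linarith)
        _ = ε / 8 * ((2 : ℝ) ^ (1 / e0) * (QJ w J : ℕ) * (8 / ε) * (1 + Real.log N) *
            (N : ℝ) ^ (κ + 1 / 4)) := by
            field_simp
        _ ≤ ε / 8 * (N : ℝ) ^ (1 : ℝ) := mul_le_mul_of_nonneg_left hlog (by positivity)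
        _ = ε / 8 * N := by rw [Real.rpow_one]
    -- the difference
    have m3 : |cnt N a (fun m => lamC N e0 η m * psiC N e0 κ m)
        - ∑ n ∈ Ioc N (2 * N), FC N e0 η w J (val a n) * psiC N e0 κ (val a n)| ≤ 2 * C1 * bad a := by
      unfold cnt
      rw [← sum_sub_distrib, hbad, mul_sum]
      refine (abs_sum_le_sum_abs _ _).trans (sum_le_sum fun n hn => ?_)
      obtain ⟨hv0, hv3⟩ := hvb n hn
      rw [← sub_mul, abs_mul]
      split_ifs with hG
      · rw [lamC_eq N e0 η w J _ hv0 hwz hG, sub_self, abs_zero, zero_mul, mul_zero]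
      · have h1 : |lamC N e0 η (val a n) - FC N e0 η w J (val a n)| ≤ 2 := by
          refine (abs_sub _ _).trans ?_
          have := abs_lamC N e0 η (val a n)
          have := abs_FC N e0 η w J (val a n)
          linarith
        have h2 := abs_psiC N e0 κ (val a n) hN2 he0 hv0 hv3
        rw [mul_one]
        exact mul_le_mul h1 h2 (abs_nonneg _) (by norm_num)
    have m4 : 2 * C1 * bad a ≤ ε / 4 * N := by
      calc 2 * C1 * bad a ≤ 2 * C1 * (δ' * N) := mul_le_mul_of_nonneg_left hB (by positivity)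
        _ = ε / 4 * N := by
            rw [hδ']
            field_simp
            norm_num
    have m5 := abs_sub_abs_le_abs_sub (cnt N a (fun m => lamC N e0 η m * psiC N e0 κ m))
      (∑ n ∈ Ioc N (2 * N), FC N e0 η w J (val a n) * psiC N e0 κ (val a n))
    have m6 : 0 ≤ ε * N := by positivity
    linarith only [m1, m2, m3, m4, m5, hms, m6]
  have hfin : ((((IA A).filter (fun a => ε * N <
      |cnt N a (fun m => lamC N e0 η m * psiC N e0 κ m)|)).card : ℕ) : ℝ) ≤ E1.card + E2.card := by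
    have h1 := Finset.card_le_card hmain
    have h2 := Finset.card_union_le E1 E2
    exact_mod_cast h1.trans h2
  refine hfin.trans ?_
  have : 0 ≤ ε * A := by positivity
  linarith only [hc1, hc2, this]

end Pool.Agent.Lib.MP391708.QPA.C
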