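import Pool.Agent.Lib.MP_391708_nt.QPA.C.BLKC
import Pool.Agent.Lib.MP_391708_nt.QPA.TII

/-!
# QPA/C, module TIIC: the Type II sums with the smooth factor, from the blocks
-/

set_option autoImplicit false

namespace Pool.Agent.Lib.MP391708.QPA.C

open Finset Filter Topology
open Pool.Agent.Lib.MP391708.QPA
open Pool.Agent.Lib.MP391708.QPA.H
open scoped Classical

namespace TIICM

open BasM BLK2 TII

/-- a function as an arithmetic function -/
noncomputable def toAF (f : ℕ → ℝ) : ArithmeticFunction ℝ := ⟨fun n => if n = 0 then 0 else f n, by simp⟩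

lemma toAF_apply {f : ℕ → ℝ} {n : ℕ} (hn : n ≠ 0) : toAF f n = f n := by
  show (if n = 0 then 0 else f n) = f n
  rw [if_neg hn]

lemma conv_toAF (α β : ℕ → ℝ) (m : ℕ) : conv α β m = (toAF α * toAF β) m := by
  rw [ArithmeticFunction.mul_apply]
  unfold conv
  rw [← Nat.sum_divisorsAntidiagonal (f := fun i j => α i * β j)]
  refine sum_congr rfl fun x hx => ?_
  obtain ⟨h1, h2⟩ := Nat.mem_divisorsAntidiagonal.1 hx
  have h3 : x.1 ≠ 0 := by
    rintro h
    rw [h, zero_mul] at h1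
    exact h2 h1.symm
  have h4 : x.2 ≠ 0 := by
    rintro h
    rw [h, mul_zero] at h1
    exact h2 h1.symm
  rw [toAF_apply h3, toAF_apply h4]

lemma toAF_conv (α β : ℕ → ℝ) : toAF (conv α β) = toAF α * toAF β := by
  ext n
  by_cases hn : n = 0
  · subst hn
    simp
  · rw [toAF_apply hn, conv_toAF]

lemma conv_assoc (α β γ : ℕ → ℝ) (m : ℕ) : conv (conv α β) γ m = conv α (conv β γ) m := by
  rw [conv_toAF, conv_toAF, toAF_conv, toAF_conv, mul_assoc]

lemma conv_congr_left {α α' : ℕ → ℝ} (h : ∀ k, α k = α' k) (β : ℕ → ℝ) (m : ℕ) :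
    conv α β m = conv α' β m := by
  unfold conv
  exact sum_congr rfl fun k _ => by rw [h]

lemma abs_cut (x y : ℝ) (f : ℕ → ℝ) (m : ℕ) : |cut x y f m| = cut x y (fun u => |f u|) m := by
  unfold cut
  split_ifs
  · rfl
  · exact abs_zero

lemma abs_conv_le {g f : ℕ → ℝ} (hg : ∀ k, 0 ≤ g k) (m : ℕ) :
    |conv g f m| ≤ conv g (fun u => |f u|) m := by
  unfold conv
  refine (abs_sum_le_sum_abs _ _).trans (le_of_eq ?_)
  refine sum_congr rfl fun k _ => ?_
  rw [abs_mul, abs_of_nonneg (hg k)]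

lemma abs_conv_cut_le {g f : ℕ → ℝ} (hg : ∀ k, 0 ≤ g k) (x y : ℝ) (m : ℕ) :
    |conv g (cut x y f) m| ≤ conv g (cut x y (fun u => |f u|)) m := by
  refine (abs_conv_le hg m).trans (le_of_eq ?_)
  unfold conv
  refine sum_congr rfl fun k _ => ?_
  show g k * |cut x y f (m / k)| = g k * cut x y (fun u => |f u|) (m / k)
  rw [abs_cut]

lemma conv_mono {g f f' : ℕ → ℝ} (hg : ∀ k, 0 ≤ g k) (h : ∀ k, f k ≤ f' k) (m : ℕ) :
    conv g f m ≤ conv g f' m := by
  unfold conv
  exact sum_le_sum fun k _ => mul_le_mul_of_nonneg_left (h _) (hg k)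

/-- the convolution with `|lsm|` is bounded -/
lemma conv_abs_le (hFFB : SpecFFB) {e0 : ℝ} (he0 : 0 < e0) {Q : ℕ} (hQ : 1 ≤ Q) {c : Multiset ℕ}
    (hc : ∀ i ∈ c, Q ≤ i) {N : ℕ} (hN : 2 ≤ N) (S : ℝ) (m : ℕ) :
    conv (fun m => FF N (e0 / Q) c m) (fun s => |lsm ((N : ℝ) ^ e0) S s|) m ≤
      ((Multiset.card c).factorial : ℝ) := by
  have hterm : ∀ k, FF N (e0 / Q) c k * |lsm ((N : ℝ) ^ e0) S (m / k)| ≤
      ((Multiset.card c).factorial : ℝ) := by
    intro k
    obtain ⟨h1, h2⟩ := FF_facts hFFB he0 hQ hc hN k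
    have h3 : rInd ((N : ℝ) ^ e0) k ≤ 1 := by
      unfold rInd
      split_ifs <;> norm_num
    have h4 : (0 : ℝ) ≤ ((Multiset.card c).factorial : ℝ) := by positivity
    calc FF N (e0 / Q) c k * |lsm ((N : ℝ) ^ e0) S (m / k)|
        ≤ ((Multiset.card c).factorial : ℝ) * 1 :=
          mul_le_mul (h2.trans (by nlinarith)) (BLKCM.abs_lsm_le _ _ _) (abs_nonneg _) h4
      _ = _ := mul_one _
  unfold conv
  by_cases hex : ∃ k ∈ m.divisors, FF N (e0 / Q) c k * |lsm ((N : ℝ) ^ e0) S (m / k)| ≠ 0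
  · obtain ⟨k, hk, hk0⟩ := hex
    rw [sum_eq_single_of_mem k hk]
    · exact hterm k
    · intro k' hk' hne
      by_contra h0
      apply hne
      have hm : m ≠ 0 := (Nat.mem_divisors.1 hk).2
      have nz : ∀ j, FF N (e0 / Q) c j * |lsm ((N : ℝ) ^ e0) S (m / j)| ≠ 0 →
          Rough ((N : ℝ) ^ e0) j ∧ Smooth ((N : ℝ) ^ e0) (m / j) := by
        intro j hj
        obtain ⟨h1, h2⟩ := FF_facts hFFB he0 hQ hc hN j
        constructor
        · by_contra hr
          have : rInd ((N : ℝ) ^ e0) j = 0 := by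
            unfold rInd
            rw [if_neg hr]
          rw [this, mul_zero] at h2
          exact hj (by rw [le_antisymm h2 h1, zero_mul])
        · by_contra hs
          apply hj
          unfold lsm
          rw [if_neg (fun h => hs h.2.2), abs_zero, mul_zero]
      exact BLKCM.rough_unique hm (Nat.mem_divisors.1 hk').1 (Nat.mem_divisors.1 hk).1 (nz k' h0).1
        (nz k hk0).1 (nz k' h0).2 (nz k hk0).2
  · push Not at hex
    rw [sum_eq_zero hex]
    positivity

/-- the second factor, on `(1, 5N²]` -/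
noncomputable def f2 (N : ℕ) (F : ℕ → ℝ) (u : ℕ) : ℝ :=
  if 1 < u ∧ (u : ℝ) ≤ 5 * (N : ℝ) ^ 2 then F u else 0

lemma abs_f2_le (N : ℕ) (F : ℕ → ℝ) (u : ℕ) : |f2 N F u| ≤ |F u| := by
  unfold f2
  split_ifs
  · exact le_rfl
  · rw [abs_zero]; exact abs_nonneg _

end TIICM

open TIICM BasM BLK2 TII in
theorem specTIIC (hBLKC : SpecBLKC) (hFFB : SpecFFB) : SpecTIIC := by
  intro θ κ e e0 η₀ ϖ Q c₁ c₂ hθ hκ hθκ he he0 he1 hη₀ hη₀4 hϖ hQ hc₁ hc₂ hc0 hmid
  have hQ0 : (0 : ℝ) < Q := by exact_mod_cast hQ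
  have hc12 : ∀ i ∈ c₁ + c₂, Q ≤ i := by
    intro i hi
    rcases Multiset.mem_add.1 hi with h1 | h1
    · exact hc₁ i h1
    · exact hc₂ i h1
  set F : ℝ := ((Multiset.card (c₁ + c₂)).factorial : ℝ) with hF
  have hF0 : 0 < F := by positivity
  set η : ℝ := min (1 / 4) (ϖ / (60 * F)) with hηd
  have hη : 0 < η := lt_min (by norm_num) (by positivity)
  have hη4 : η ≤ 1 / 4 := min_le_left _ _
  have hη1 : η * (60 * F) ≤ ϖ := by
    rw [← le_div_iff₀ (by positivity)]
    exact min_le_right _ _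
  have hq : 1 < 1 + η := by linarith
  have hlq : 0 < Real.log (1 + η) := Real.log_pos hq
  obtain ⟨D, hD⟩ := pow_unbounded_of_one_lt (4 : ℝ) hq
  set CN : ℝ := ((D : ℝ) + 1) * (1 / Real.log (1 + η) + 1) with hCN
  have hCN0 : 0 < CN := by positivity
  obtain ⟨N₁, hN₁⟩ := hBLKC θ κ e e0 η η₀ (ϖ / (4 * CN)) Q c₁ c₂ hθ hκ hθκ he he0 he1 hη₀ hη₀4 hη hη4
    (by positivity) hQ hc₁ hc₂ hc0
  have hev : ∀ᶠ N : ℕ in atTop, ∀ A : ℕ, Adm θ N A →
      ∑ a ∈ IA A, |cnt N a (conv (fun m => FF N (e0 / Q) (c₁ + c₂) m)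
        (lsm ((N : ℝ) ^ e0) ((N : ℝ) ^ η₀)))| ≤ ϖ * A * N := by
    filter_upwards [eventually_ge_atTop 3, eventually_ge_atTop N₁, ev_log 1,
      ev_const (show (0 : ℝ) < θ by linarith) 1,
      ev_logpow (show (0 : ℝ) < 1 by norm_num) (8 / η),
      ev_const (show (0 : ℝ) < 1 by norm_num) (2 / η)] with N hN3 hNN₁ hl1 hNA hlp hNη A hA
    have hN1 : (1 : ℝ) < N := by exact_mod_cast (by omega : 1 < N)
    have hN3' : (3 : ℝ) ≤ N := by exact_mod_cast hN3
    have hN0 : (0 : ℝ) < N := by linarith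
    have hlog : 0 < Real.log N := by linarith
    rw [Real.rpow_one] at hlp hNη
    have hηN : 2 ≤ η * N := by
      rw [div_le_iff₀ hη] at hNη
      linarith
    have hA0 : (0 : ℝ) ≤ A := Nat.cast_nonneg A
    have hA1 : (1 : ℝ) ≤ A := hNA.trans hA.1
    have h8A : 8 * (A : ℝ) ≤ η * (N : ℝ) ^ 2 := by
      have h1 : 8 / η * Real.log N = (8 * Real.log N) / η := by ring
      rw [h1, div_le_iff₀ hη] at hlp
      nlinarith [hA.2]
    -- the functions
    set l : ℕ → ℝ := lsm ((N : ℝ) ^ e0) ((N : ℝ) ^ η₀) with hl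
    set g : ℕ → ℝ := fun m => FF N (e0 / Q) c₁ m with hg
    set g₂ : ℕ → ℝ := fun m => FF N (e0 / Q) c₂ m with hg₂
    set f : ℕ → ℝ := f2 N (conv g₂ l) with hf
    have hFg := fun m => hFFB N (e0 / Q) c₁ m (by omega) (by positivity)
    have hg0 : ∀ m, 0 ≤ g m := fun m => (hFg m).1
    have hg₂0 : ∀ m, 0 ≤ g₂ m := fun m => (hFFB N (e0 / Q) c₂ m (by omega) (by positivity)).1
    have hκe : (N : ℝ) ^ (1 - e) ≤ N := by
      calc (N : ℝ) ^ (1 - e) ≤ (N : ℝ) ^ (1 : ℝ) := Real.rpow_le_rpow_of_exponent_le hN1.le (by linarith)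
        _ = N := Real.rpow_one _
    have hgs : ∀ k, g k ≠ 0 → (N : ℝ) ^ κ < k ∧ (k : ℝ) ≤ (N : ℝ) ^ (1 - e) := by
      intro k hk
      obtain ⟨_, h1, h2, _⟩ := (hFg k).2.2 hk
      constructor
      · refine lt_of_lt_of_le (Real.rpow_lt_rpow_of_exponent_lt hN1 (by linarith : κ < κ + e)) ?_
        exact (Real.rpow_le_rpow_of_exponent_le hN1.le hmid.1).trans h1
      · exact h2.trans (Real.rpow_le_rpow_of_exponent_le hN1.le hmid.2)
    have hfs : ∀ k, f k ≠ 0 → (1 : ℝ) < k ∧ (k : ℝ) ≤ 5 * (N : ℝ) ^ 2 := by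
      intro k hk
      by_contra hc
      apply hk
      rw [hf]
      unfold f2
      rw [if_neg]
      rintro ⟨c1, c2⟩
      exact hc ⟨by exact_mod_cast c1, c2⟩
    -- the identity for the convolutions
    have hid : ∀ m : ℕ, (N : ℝ) ^ 2 / 2 ≤ m → (m : ℝ) ≤ 5 * (N : ℝ) ^ 2 →
        conv (fun m => FF N (e0 / Q) (c₁ + c₂) m) l m = conv g f m := by
      intro m h1 h2
      rw [conv_congr_left (fun k => FF_conv N (e0 / Q) c₁ c₂ k) l m, conv_assoc]
      unfold conv
      refine sum_congr rfl fun k hk => ?_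
      by_cases hk0 : g k = 0
      · show g k * _ = g k * _
        rw [hk0, zero_mul, zero_mul]
      · obtain ⟨-, h3⟩ := hgs k hk0
        have hkm := Nat.mul_div_cancel' (Nat.dvd_of_mem_divisors hk)
        have hu1 : 1 < m / k := by
          by_contra hc
          push Not at hc
          have h4 : m ≤ k := by
            calc m = k * (m / k) := hkm.symm
              _ ≤ k * 1 := Nat.mul_le_mul_left _ hc
              _ = k := mul_one _
          have h5 : (m : ℝ) ≤ k := by exact_mod_cast h4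
          have h6 : (k : ℝ) ≤ N := h3.trans hκe
          nlinarith
        have hu2 : ((m / k : ℕ) : ℝ) ≤ 5 * (N : ℝ) ^ 2 := by
          refine le_trans ?_ h2
          exact_mod_cast Nat.div_le_self m k
        have hfe : f (m / k) = conv g₂ l (m / k) := by
          rw [hf]
          unfold f2
          rw [if_pos ⟨hu1, hu2⟩]
        show g k * conv g₂ l (m / k) = g k * f (m / k)
        rw [hfe]
    -- the bound for the convolutions
    have hbd : ∀ m : ℕ, conv g (fun u => |f u|) m ≤ F := by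
      intro m
      have h1 : conv g (fun u => |f u|) m ≤ conv g (conv g₂ (fun s => |l s|)) m := by
        refine conv_mono hg0 (fun u => ?_) m
        exact (abs_f2_le N _ u).trans (abs_conv_le hg₂0 u)
      rw [← conv_assoc] at h1
      refine h1.trans ?_
      have h2 := conv_abs_le hFFB he0 hQ hc12 (by omega : 2 ≤ N) ((N : ℝ) ^ η₀) m
      rw [conv_congr_left (fun k => FF_conv N (e0 / Q) c₁ c₂ k)] at h2
      exact h2
    obtain ⟨T, hT⟩ := pow_unbounded_of_one_lt (max (N : ℝ) (5 * (N : ℝ) ^ 2)) hq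
    have hT1 : (N : ℝ) ≤ (1 + η) ^ T := (le_max_left _ _).trans hT.le
    have hT2 : 5 * (N : ℝ) ^ 2 ≤ (1 + η) ^ T := (le_max_right _ _).trans hT.le
    have hκ1 : 1 ≤ (N : ℝ) ^ κ := Real.one_le_rpow hN1.le (by linarith)
    have hκ0 : 0 < (N : ℝ) ^ κ := by linarith
    have hgd : ∀ k, g k = ∑ i ∈ range T, cut ((N : ℝ) ^ κ * (1 + η) ^ i)
        ((1 + η) * ((N : ℝ) ^ κ * (1 + η) ^ i)) g k := fun k => by
      refine cut_tele hκ0 hq T g k fun hk => ?_
      obtain ⟨h1, h2⟩ := hgs k hk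
      refine ⟨h1, h2.trans (hκe.trans ?_)⟩
      calc (N : ℝ) = 1 * N := (one_mul _).symm
        _ ≤ (N : ℝ) ^ κ * (1 + η) ^ T := mul_le_mul hκ1 hT1 hN0.le hκ0.le
    have hfd : ∀ k, f k = ∑ i ∈ range T, cut (1 * (1 + η) ^ i) ((1 + η) * (1 * (1 + η) ^ i)) f k :=
      fun k => by
      refine cut_tele one_pos hq T f k fun hk => ?_
      obtain ⟨h1, h2⟩ := hfs k hk
      exact ⟨h1, by rw [one_mul]; exact h2.trans hT2⟩
    have hfd' : ∀ k, (fun u => |f u|) k = ∑ i ∈ range T, cut (1 * (1 + η) ^ i)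
        ((1 + η) * (1 * (1 + η) ^ i)) (fun u => |f u|) k := fun k => by
      refine cut_tele one_pos hq T (fun u => |f u|) k fun hk => ?_
      obtain ⟨h1, h2⟩ := hfs k (by
        intro h0
        apply hk
        simp only [h0, abs_zero])
      exact ⟨h1, by rw [one_mul]; exact h2.trans hT2⟩
    set G : ℕ → ℕ → ℝ := fun i => cut ((N : ℝ) ^ κ * (1 + η) ^ i)
        ((1 + η) * ((N : ℝ) ^ κ * (1 + η) ^ i)) g with hGd
    set H : ℕ → ℕ → ℝ := fun i => cut (1 * (1 + η) ^ i) ((1 + η) * (1 * (1 + η) ^ i)) f with hHd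
    set H' : ℕ → ℕ → ℝ := fun i => cut (1 * (1 + η) ^ i) ((1 + η) * (1 * (1 + η) ^ i))
      (fun u => |f u|) with hHd'
    set S := SI N A T κ e (1 + η) with hS
    have hSsub : S ⊆ range T ×ˢ range T := filter_subset _ _
    have hG0 : ∀ i k, 0 ≤ G i k := fun i k => cut_nonneg hg0 k
    have hH0 : ∀ i k, 0 ≤ H' i k := fun i k => cut_nonneg (fun u => abs_nonneg _) k
    have hcle : ∀ (x : ℕ × ℕ) m, |conv (G x.1) (H x.2) m| ≤ conv (G x.1) (H' x.2) m := fun x m =>
      abs_conv_cut_le (fun k => hG0 x.1 k) _ _ m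
    have hval : ∀ a ∈ IA A, ∀ n ∈ Ioc N (2 * N), (N : ℝ) ^ 2 / 2 ≤ val a n ∧
        ((val a n : ℕ) : ℝ) ≤ 5 * (N : ℝ) ^ 2 := by
      intro a ha n hn
      obtain ⟨v1, v2⟩ := val_bounds ha n
      rw [mem_Ioc] at hn
      have hn1 : (N : ℝ) ≤ n := by exact_mod_cast hn.1.le
      have hn2 : (n : ℝ) ≤ 2 * N := by exact_mod_cast hn.2
      have h1 : (N : ℝ) ^ 2 ≤ (n : ℝ) ^ 2 := by gcongr
      have h2 : (n : ℝ) ^ 2 ≤ (2 * (N : ℝ)) ^ 2 := by gcongr
      have h3 : 8 * (A : ℝ) ≤ 1 / 4 * (N : ℝ) ^ 2 := h8A.trans (by gcongr)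
      constructor <;> nlinarith
    -- decomposition
    have hcnt : ∀ a ∈ IA A, |cnt N a (conv (fun m => FF N (e0 / Q) (c₁ + c₂) m) l)| ≤
        ∑ x ∈ S, |bil (8 * N) a (G x.1) (H x.2)| + F * ((En N η).card : ℝ) := by
      intro a ha
      have h1 : cnt N a (conv (fun m => FF N (e0 / Q) (c₁ + c₂) m) l) =
          ∑ x ∈ S, ∑ n ∈ Ioc N (2 * N), conv (G x.1) (H x.2) (val a n)
            + ∑ n ∈ Ioc N (2 * N), ∑ x ∈ (range T ×ˢ range T) \ S,
              conv (G x.1) (H x.2) (val a n) := by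
        rw [sum_comm (s := S), ← sum_add_distrib]
        unfold cnt
        refine sum_congr rfl fun n hn => ?_
        obtain ⟨v1, v2⟩ := hval a ha n hn
        rw [hid _ v1 v2, conv_sum T hgd hfd, ← sum_sdiff hSsub, add_comm]
      rw [h1]
      refine (abs_add_le _ _).trans (add_le_add ?_ ?_)
      · refine (abs_sum_le_sum_abs _ _).trans (le_of_eq ?_)
        refine sum_congr rfl fun x hx => ?_
        rw [int_cnt hN3 hη hx ha]
      · refine (abs_sum_le_sum_abs _ _).trans ?_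
        have h2 : ∀ n ∈ Ioc N (2 * N), |∑ x ∈ (range T ×ˢ range T) \ S,
            conv (G x.1) (H x.2) (val a n)| ≤ if n ∈ En N η then F else 0 := by
          intro n hn
          by_cases hb : Bd N A (1 + η) (val a n)
          · rw [if_pos (En_of hη hη4 h8A ha hn hb)]
            refine (abs_sum_le_sum_abs _ _).trans ?_
            refine (sum_le_sum fun x _ => hcle x _).trans ?_
            refine (sum_le_sum_of_subset_of_nonneg (sdiff_subset (t := S)) fun x _ _ =>
              conv_nonneg (fun k => hG0 x.1 k) (fun k => hH0 x.2 k) _).trans ?_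
            rw [← conv_sum T hgd hfd']
            exact hbd _
          · have h3 : ∑ x ∈ (range T ×ˢ range T) \ S, conv (G x.1) (H x.2) (val a n) = 0 := by
              refine sum_eq_zero fun x hx => ?_
              have hx1 := Finset.mem_sdiff.1 hx
              by_contra hne
              exact hb (bd_of hN3 hq (fun k hk => (hgs k hk).2) hx1.1 hx1.2 hne)
            rw [h3, abs_zero]
            split_ifs
            · exact hF0.le
            · exact le_rfl
        refine (sum_le_sum h2).trans ?_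
        rw [← sum_filter, sum_const, nsmul_eq_mul, mul_comm]
        have h4 : (Ioc N (2 * N)).filter (fun n => n ∈ En N η) ⊆ En N η := by
          intro n hn
          exact (mem_filter.1 hn).2
        have h5 : ((((Ioc N (2 * N)).filter (fun n => n ∈ En N η)).card : ℕ) : ℝ) ≤ (En N η).card := by
          exact_mod_cast card_le_card h4
        exact mul_le_mul_of_nonneg_left h5 hF0.le
    refine (sum_le_sum hcnt).trans ?_
    rw [sum_add_distrib, sum_const, nsmul_eq_mul, sum_comm]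
    have hint : ∀ x ∈ S, ∑ a ∈ IA A, |bil (8 * N) a (G x.1) (H x.2)| ≤
        ϖ / (4 * CN) * A * N / Real.log N := by
      intro x hx
      obtain ⟨hx1, hx2, hx3, hx4⟩ := mem_filter.1 hx
      set K : ℝ := (N : ℝ) ^ κ * (1 + η) ^ x.1 with hK
      set L : ℝ := 1 * (1 + η) ^ x.2 with hL
      have hp1 : 1 ≤ (1 + η) ^ x.1 := one_le_pow₀ hq.le
      have hp2 : 1 ≤ (1 + η) ^ x.2 := one_le_pow₀ hq.le
      have hK1 : (N : ℝ) ^ κ ≤ K := le_mul_of_one_le_right hκ0.le hp1
      have hL1 : 1 ≤ L := by rw [hL, one_mul]; exact hp2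
      have hKL0 : 0 ≤ K * L := by positivity
      have hq2 : 1 ≤ (1 + η) ^ 2 := one_le_pow₀ hq.le
      have hKL2 : K * L ≤ 5 * (N : ℝ) ^ 2 := by nlinarith
      have hKL1 : (N : ℝ) ^ 2 / 2 ≤ K * L := by nlinarith
      have hLc : (1 + η) * L ≤ 5 * (N : ℝ) ^ 2 := by
        have h1 : (1 + η) * L ≤ (1 + η) ^ 2 * (K * L) := by
          have h2 : 1 ≤ (1 + η) * K := by nlinarith [hκ1]
          calc (1 + η) * L = ((1 + η) * L) * 1 := (mul_one _).symm
            _ ≤ ((1 + η) * L) * ((1 + η) * K) := mul_le_mul_of_nonneg_left h2 (by positivity)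
            _ = _ := by ring
        nlinarith
      have hHe : H x.2 = cut L ((1 + η) * L) (conv g₂ l) := by
        funext u
        show cut L ((1 + η) * L) f u = cut L ((1 + η) * L) (conv g₂ l) u
        unfold cut
        split_ifs with hu
        · rw [hf]
          unfold f2
          rw [if_pos]
          refine ⟨?_, hu.2.trans hLc⟩
          have : (1 : ℝ) < u := lt_of_le_of_lt hL1 hu.1
          exact_mod_cast this
        · rfl
      rw [hHe]
      exact hN₁ N A hNN₁ hA K L hK1 hx4 hKL1 hKL2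
    have hcS := card_SI (A := A) (T := T) (κ := κ) (e := e) (q := 1 + η) hN3 (by linarith)
      he hq hD.le hl1
    rw [← hS, ← hCN] at hcS
    have hcE := card_En hη hη4 (by linarith : 1 ≤ η * N)
    have hcA : ((IA A).card : ℝ) ≤ 3 * A := by
      unfold IA
      rw [Int.card_Icc]
      have h1 : ((A : ℤ) + 1 - -(A : ℤ)).toNat = 2 * A + 1 := by omega
      rw [h1]
      push_cast
      linarith
    have h6 : ∑ x ∈ S, ∑ a ∈ IA A, |bil (8 * N) a (G x.1) (H x.2)| ≤ ϖ / 4 * A * N := by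
      refine (sum_le_sum hint).trans ?_
      rw [sum_const, nsmul_eq_mul]
      calc (S.card : ℝ) * (ϖ / (4 * CN) * A * N / Real.log N)
          ≤ (CN * Real.log N) * (ϖ / (4 * CN) * A * N / Real.log N) := by gcongr
        _ = ϖ / 4 * A * N := by field_simp
    have h7 : ((IA A).card : ℝ) * (F * ((En N η).card : ℝ)) ≤ ϖ / 2 * A * N := by
      have b1 : F * ((En N η).card : ℝ) ≤ F * (10 * η * N) :=
        mul_le_mul_of_nonneg_left hcE hF0.le
      have b2 : F * (10 * η * N) ≤ ϖ / 6 * N := by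
        have := mul_le_mul_of_nonneg_right hη1 hN0.le
        linarith
      have b3 : ((IA A).card : ℝ) * (F * ((En N η).card : ℝ)) ≤ (3 * A) * (ϖ / 6 * N) :=
        mul_le_mul hcA (b1.trans b2) (mul_nonneg hF0.le (Nat.cast_nonneg _))
          (mul_nonneg (by norm_num) hA0)
      refine b3.trans (le_of_eq ?_)
      ring
    have h8 : 0 ≤ ϖ * A * N := by positivity
    linarith
  obtain ⟨N₀, hN₀⟩ := eventually_atTop.1 hev
  exact ⟨N₀, fun N A hN hA => hN₀ N hN A hA⟩

end Pool.Agent.Lib.MP391708.QPA.C
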