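import Pool.Agent.Lib.MP_391708_nt.QPA.C.SpecC
import Pool.Agent.Lib.MP_391708_nt.QPA.Two

/-!
# QPA, module TWOP: TWOH for `b` supported on one parity class, `κ > 1/2`
-/

set_option autoImplicit false

namespace Pool.Agent.Lib.MP391708.QPA.C.TwoP

open Finset Filter Topology
open Pool.Agent.Lib.MP391708.QPA
open scoped Classical

/-- the numerical conditions for large `N` -/
lemma params {θ κ e : ℝ} (hθκ : 3 / 2 < θ + κ) (hκ : 1 / 2 < κ) (he : 0 < e) :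
    ∃ τ : ℝ, 0 < τ ∧ τ ≤ 1 ∧ 0 < e - 2 * τ ∧
    0 < 2 * θ - (3 - 2 * κ) - 2 * τ ∧ 0 < θ / 2 - (1 - κ) - 2 * τ := by
  refine ⟨min (1 : ℝ) (min (e / 4) (min ((2 * θ - (3 - 2 * κ)) / 4) ((θ / 2 - (1 - κ)) / 4))), ?_, ?_, ?_, ?_, ?_⟩
  · apply lt_min one_pos
    apply lt_min (by linarith)
    apply lt_min (by linarith) (by linarith)
  · exact min_le_left _ _
  · have : min (1 : ℝ) (min (e / 4) (min ((2 * θ - (3 - 2 * κ)) / 4) ((θ / 2 - (1 - κ)) / 4))) ≤ e / 4 :=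
      (min_le_right _ _).trans (min_le_left _ _)
    linarith
  · have : min (1 : ℝ) (min (e / 4) (min ((2 * θ - (3 - 2 * κ)) / 4) ((θ / 2 - (1 - κ)) / 4))) ≤
        (2 * θ - (3 - 2 * κ)) / 4 := (min_le_right _ _).trans ((min_le_right _ _).trans (min_le_left _ _))
    linarith
  · have : min (1 : ℝ) (min (e / 4) (min ((2 * θ - (3 - 2 * κ)) / 4) ((θ / 2 - (1 - κ)) / 4))) ≤
        (θ / 2 - (1 - κ)) / 4 := (min_le_right _ _).trans ((min_le_right _ _).trans (min_le_right _ _))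
    linarith

/-- sizes of `K`, `L` -/
lemma sizes {n K L θ κ e τ A : ℝ} (hn : 3 ≤ n) (hκ : 1 / 2 < κ) (hK1 : n ^ κ ≤ K) (hK2 : K ≤ n ^ (1 - e))
    (hKL1 : n ^ 2 / 2 ≤ K * L) (hKL2 : K * L ≤ 5 * n ^ 2) (hτ0 : 0 < τ) (hτ1 : τ ≤ 1)
    (h1 : 2 ≤ n ^ (2 * e)) (h2 : 75 ≤ n ^ (2 * θ - (3 - 2 * κ) - 2 * τ))
    (h3 : 15 ≤ n ^ (θ / 2 - (1 - κ) - 2 * τ)) (h4 : 10 ≤ n ^ (e - 2 * τ))
    (h5 : 2 * Real.log n ≤ n ^ (1 / 2 : ℝ)) (hA1 : n ^ θ ≤ A) (hA2 : A ≤ n * Real.log n) :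
    1 ≤ K ∧ 0 < L ∧ K ≤ L ∧ A ≤ (K * L) ^ (3 / 4 : ℝ) ∧ L * √(L / K) ≤ A ^ 2 * (K * L) ^ (-τ) ∧
    √(L / K) ≤ √A * (K * L) ^ (-τ) ∧ (K * L) ^ τ ≤ √(L / K) ∧ 2 * √(K * L) ≤ 8 * n := by
  have hn0 : 0 < n := by linarith
  set p : ℝ := n ^ κ with hp
  have hp0 : 0 < p := Real.rpow_pos_of_pos hn0 _
  set q : ℝ := n ^ (1 - κ) with hq
  have hq0 : 0 < q := Real.rpow_pos_of_pos hn0 _
  have en : n = p * q := by
    rw [hp, hq, ← Real.rpow_add hn0]
    rw [show κ + (1 - κ) = 1 by ring, Real.rpow_one]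
  have hp1 : 1 ≤ p := by
    rw [hp]; exact Real.one_le_rpow (by linarith) (by linarith)
  have hK1' : 1 ≤ K := by linarith
  have hK0 : 0 < K := by linarith
  have hn2 : 0 < n ^ 2 / 2 := by positivity
  have hKL0 : 0 < K * L := by linarith
  have hL0 : 0 < L := by
    by_contra h
    push Not at h
    nlinarith
  have hKLp : K * L ≤ 5 * (p * q) ^ 2 := by
    rw [← en]
    exact hKL2
  have hLp : L ≤ 5 * p * q ^ 2 := by
    have h6 : p * L ≤ 5 * (p * q) ^ 2 := (mul_le_mul_of_nonneg_right hK1 hL0.le).trans hKLp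
    have h7 : p * L ≤ p * (5 * p * q ^ 2) := by nlinarith
    exact le_of_mul_le_mul_left h7 hp0
  have hLK : L / K ≤ 5 * q ^ 2 := by
    rw [div_le_iff₀ hK0]
    nlinarith [mul_le_mul_of_nonneg_left hK1 (by positivity : 0 ≤ 5 * q ^ 2)]
  have hs : √(L / K) ≤ 3 * q := by
    apply Real.sqrt_le_iff.mpr
    constructor
    · positivity
    · nlinarith
  have hs0 : 0 ≤ √(L / K) := Real.sqrt_nonneg _
  set t : ℝ := n ^ τ with ht
  have ht0 : 0 < t := Real.rpow_pos_of_pos hn0 _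
  have e2t : n ^ (2 * τ) = t ^ 2 := by
    rw [ht, ← Real.rpow_natCast, ← Real.rpow_mul hn0.le]; congr 1; push_cast; ring
  have hKLt : (K * L) ^ τ ≤ 5 * t ^ 2 := by
    calc (K * L) ^ τ ≤ (5 * n ^ 2) ^ τ := Real.rpow_le_rpow hKL0.le hKL2 hτ0.le
      _ = 5 ^ τ * t ^ 2 := by
        rw [Real.mul_rpow (by norm_num) (by positivity), ← e2t, ← Real.rpow_natCast,
          ← Real.rpow_mul hn0.le]
        norm_num
      _ ≤ 5 * t ^ 2 := by
        apply mul_le_mul_of_nonneg_right _ (by positivity)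
        calc (5 : ℝ) ^ τ ≤ 5 ^ (1 : ℝ) := Real.rpow_le_rpow_of_exponent_le (by norm_num) hτ1
          _ = 5 := Real.rpow_one _
  have hKLτ0 : 0 < (K * L) ^ τ := Real.rpow_pos_of_pos hKL0 _
  have hinv : (K * L) ^ (-τ) = ((K * L) ^ τ)⁻¹ := Real.rpow_neg hKL0.le τ
  -- L/K from below
  have hLK2 : n ^ (2 * e) / 2 ≤ L / K := by
    rw [le_div_iff₀ hK0]
    have h6 : K * K ≤ n ^ (1 - e) * n ^ (1 - e) :=
      mul_le_mul hK2 hK2 hK0.le (by positivity)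
    have h7 : n ^ (1 - e) * n ^ (1 - e) * n ^ (2 * e) = n ^ 2 := by
      rw [← Real.rpow_add hn0, ← Real.rpow_add hn0, ← Real.rpow_natCast]
      congr 1
      push_cast
      ring
    have h8 : 0 ≤ n ^ (2 * e) := by positivity
    have h9 : K * (n ^ (2 * e) / 2 * K) ≤ K * L := by
      calc K * (n ^ (2 * e) / 2 * K) = K * K * n ^ (2 * e) / 2 := by ring
        _ ≤ n ^ (1 - e) * n ^ (1 - e) * n ^ (2 * e) / 2 := by
          have := mul_le_mul_of_nonneg_right h6 h8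
          linarith
        _ = n ^ 2 / 2 := by rw [h7]
        _ ≤ K * L := hKL1
    exact le_of_mul_le_mul_left h9 hK0
  have hA0 : 0 < A := lt_of_lt_of_le (Real.rpow_pos_of_pos hn0 _) hA1
  refine ⟨hK1', hL0, ?_, ?_, ?_, ?_, ?_, ?_⟩
  · have : 1 ≤ L / K := by linarith
    rwa [one_le_div₀ hK0] at this
  · -- A ≤ (KL)^(3/4)
    have h6 : (n ^ 2 / 2) ^ (3 / 4 : ℝ) ≤ (K * L) ^ (3 / 4 : ℝ) :=
      Real.rpow_le_rpow (by positivity) hKL1 (by norm_num)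
    have h7 : n ^ (3 / 2 : ℝ) / 2 ≤ (n ^ 2 / 2) ^ (3 / 4 : ℝ) := by
      rw [Real.div_rpow (by positivity) (by norm_num)]
      have h8 : (n ^ 2) ^ (3 / 4 : ℝ) = n ^ (3 / 2 : ℝ) := by
        rw [← Real.rpow_natCast, ← Real.rpow_mul hn0.le]; norm_num
      rw [h8]
      apply div_le_div_of_nonneg_left (by positivity) (by positivity)
      calc (2 : ℝ) ^ (3 / 4 : ℝ) ≤ 2 ^ (1 : ℝ) :=
            Real.rpow_le_rpow_of_exponent_le (by norm_num) (by norm_num)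
        _ = 2 := Real.rpow_one _
    have h9 : n * Real.log n ≤ n ^ (3 / 2 : ℝ) / 2 := by
      have h10 : n ^ (3 / 2 : ℝ) = n * n ^ (1 / 2 : ℝ) := by
        rw [show (3 / 2 : ℝ) = 1 + 1 / 2 by norm_num, Real.rpow_add hn0, Real.rpow_one]
      rw [h10]
      nlinarith
    linarith
  · rw [hinv, ← div_eq_mul_inv, le_div_iff₀ hKLτ0]
    have h6 : L * √(L / K) * (K * L) ^ τ ≤ 5 * p * q ^ 2 * (3 * q) * (5 * t ^ 2) := by
      apply mul_le_mul _ hKLt hKLτ0.le (by positivity)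
      apply mul_le_mul hLp hs hs0 (by positivity)
    have h7 : n ^ (2 * θ) ≤ A ^ 2 := by
      have : n ^ (2 * θ) = (n ^ θ) ^ 2 := by
        rw [← Real.rpow_natCast, ← Real.rpow_mul hn0.le]; congr 1; push_cast; ring
      rw [this]
      exact pow_le_pow_left₀ (by positivity) hA1 2
    have h8 : n ^ (2 * θ) = p * q ^ 3 * t ^ 2 * n ^ (2 * θ - (3 - 2 * κ) - 2 * τ) := by
      have e5 : p * q ^ 3 = n ^ (3 - 2 * κ) := by
        rw [hp, hq, ← Real.rpow_natCast, ← Real.rpow_mul hn0.le, ← Real.rpow_add hn0]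
        congr 1
        push_cast
        ring
      rw [e5, ← e2t, ← Real.rpow_add hn0, ← Real.rpow_add hn0]
      congr 1
      ring
    have h9 : p * q ^ 3 * t ^ 2 * 75 ≤ p * q ^ 3 * t ^ 2 * n ^ (2 * θ - (3 - 2 * κ) - 2 * τ) :=
      mul_le_mul_of_nonneg_left h2 (by positivity)
    calc L * √(L / K) * (K * L) ^ τ ≤ 5 * p * q ^ 2 * (3 * q) * (5 * t ^ 2) := h6
      _ = p * q ^ 3 * t ^ 2 * 75 := by ring
      _ ≤ A ^ 2 := by linarith
  · rw [hinv, ← div_eq_mul_inv, le_div_iff₀ hKLτ0]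
    apply Real.le_sqrt_of_sq_le
    have h6 : √(L / K) * (K * L) ^ τ ≤ 3 * q * (5 * t ^ 2) :=
      mul_le_mul hs hKLt hKLτ0.le (by positivity)
    have h8 : n ^ (θ / 2) = q * t ^ 2 * n ^ (θ / 2 - (1 - κ) - 2 * τ) := by
      rw [hq, ← e2t, ← Real.rpow_add hn0, ← Real.rpow_add hn0]
      congr 1
      ring
    have h9 : q * t ^ 2 * 15 ≤ q * t ^ 2 * n ^ (θ / 2 - (1 - κ) - 2 * τ) :=
      mul_le_mul_of_nonneg_left h3 (by positivity)
    have h10 : √(L / K) * (K * L) ^ τ ≤ n ^ (θ / 2) := by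
      calc √(L / K) * (K * L) ^ τ ≤ 3 * q * (5 * t ^ 2) := h6
        _ = q * t ^ 2 * 15 := by ring
        _ ≤ n ^ (θ / 2) := by linarith
    have h11 : (n ^ (θ / 2)) ^ 2 = n ^ θ := by
      rw [← Real.rpow_natCast, ← Real.rpow_mul hn0.le]; congr 1; push_cast; ring
    calc (√(L / K) * (K * L) ^ τ) ^ 2 ≤ (n ^ (θ / 2)) ^ 2 := pow_le_pow_left₀ (by positivity) h10 2
      _ = n ^ θ := h11
      _ ≤ A := hA1
  · apply Real.le_sqrt_of_sq_le
    have h6 : ((K * L) ^ τ) ^ 2 ≤ (5 * t ^ 2) ^ 2 := pow_le_pow_left₀ hKLτ0.le hKLt 2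
    have h7 : n ^ (2 * e) = (t ^ 2 * n ^ (e - 2 * τ)) ^ 2 := by
      rw [← e2t, ← Real.rpow_add hn0, ← Real.rpow_natCast, ← Real.rpow_mul hn0.le]
      congr 1
      push_cast
      ring
    have h8 : (t ^ 2 * 10) ^ 2 ≤ (t ^ 2 * n ^ (e - 2 * τ)) ^ 2 :=
      pow_le_pow_left₀ (by positivity) (mul_le_mul_of_nonneg_left h4 (by positivity)) 2
    have h9 : 0 ≤ t ^ 4 := by positivity
    nlinarith
  · have h6 : √(K * L) ≤ 3 * n := by
      apply Real.sqrt_le_iff.mpr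
      constructor
      · positivity
      · nlinarith
    linarith

end Pool.Agent.Lib.MP391708.QPA.C.TwoP

namespace Pool.Agent.Lib.MP391708.QPA.C

open Finset Filter Topology
open Pool.Agent.Lib.MP391708.QPA
open Pool.Agent.Lib.MP391708.QPA.H
open scoped Classical

theorem specTWOP (hSEC : SpecSECP) (hFIRST : SpecFIRSTH) (hSELB : SpecSELB) : SpecTWOP := by
  intro θ κ e e0 B hθ hκ23 hθκ he he0 hB
  obtain ⟨CF, hCF, N1, hF⟩ := hFIRST θ e0 hθ he0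
  obtain ⟨CS, hCS, hS⟩ := hSELB
  obtain ⟨τ, hτ0, hτ1, hτe, hτ2, hτ3⟩ := TwoP.params hθκ hκ23 he
  obtain ⟨σ, hσ, X0, hSECτ⟩ := hSEC τ hτ0
  set s' : ℝ := min σ (e0 / 2) with hs'
  have hs'0 : 0 < s' := lt_min hσ (by linarith)
  have hgI : 0 ≤ gI := MeasureTheory.integral_nonneg (fun x => gB.nonneg)
  refine ⟨B ^ 2 * CF * gI * (2 * CS) / s' + 1, by positivity, ?_⟩
  intro δ hδ
  have hev : ∀ᶠ N : ℕ in atTop, 3 ≤ N ∧ N1 ≤ N ∧ X0 ≤ (N : ℝ) ^ (1 : ℝ) ∧ 3 ≤ (N : ℝ) ^ e0 ∧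
      2 ≤ (N : ℝ) ^ s' ∧ 2 ≤ (N : ℝ) ^ (2 * e) ∧ 2 * Real.log N ^ 1 ≤ 1 * (N : ℝ) ^ (1 / 2 : ℝ) ∧
      75 ≤ (N : ℝ) ^ (2 * θ - (3 - 2 * κ) - 2 * τ) ∧ 15 ≤ (N : ℝ) ^ (θ / 2 - (1 - κ) - 2 * τ) ∧
      10 ≤ (N : ℝ) ^ (e - 2 * τ) ∧ B ^ 4 * CF * Real.log N ^ 3 ≤ δ * (N : ℝ) ^ σ := by
    filter_upwards [eventually_ge_atTop 3, eventually_ge_atTop N1, Two.ev_rpow (M := X0) one_pos,
      Two.ev_rpow (M := 3) he0, Two.ev_rpow (M := 2) hs'0, Two.ev_rpow (M := 2) (by linarith : 0 < 2 * e),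
      Two.ev_log (c := 1 / 2) (κ := 1) (M := 2) (by norm_num) one_pos (by norm_num) 1,
      Two.ev_rpow (M := 75) hτ2, Two.ev_rpow (M := 15) hτ3, Two.ev_rpow (M := 10) hτe,
      Two.ev_log (c := σ) (κ := δ) (M := B ^ 4 * CF) hσ hδ (by positivity) 3]
      with N a1 a2 a3 a4 a5 a6 a7 a8 a9 a10 a11
    exact ⟨a1, a2, a3, a4, a5, a6, a7, a8, a9, a10, a11⟩
  obtain ⟨N0, hN0⟩ := eventually_atTop.mp hev
  refine ⟨N0, ?_⟩
  intro N A hN hAdm K L hK1 hK2 hKL1 hKL2 r α b hα hαs hb hbs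
  obtain ⟨a1, a2, a3, a4, a5, a6, a7, a8, a9, a10, a11⟩ := hN0 N hN
  obtain ⟨hA1, hA2⟩ := hAdm
  have hn3 : (3 : ℝ) ≤ N := by exact_mod_cast a1
  have hn0 : (0 : ℝ) < N := by linarith
  rw [pow_one, one_mul] at a7
  rw [Real.rpow_one] at a3
  obtain ⟨b1, b2, b3, b4, b5, b6, b7, b8⟩ := TwoP.sizes (A := A) hn3 hκ23 hK1 hK2 hKL1 hKL2 hτ0 hτ1 a6 a8 a9
    a10 a7 hA1 hA2
  have hK0 : 0 < K := by linarith
  have hKL0 : 0 < K * L := by positivity
  have hAge : (1 : ℝ) ≤ A := by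
    have : (1 : ℝ) ≤ (N : ℝ) ^ θ := Real.one_le_rpow (by linarith) (by linarith)
    linarith
  have hAgeN : 1 ≤ A := by exact_mod_cast hAge
  set M : ℝ := Real.log N with hM
  have hM0 : 0 < M := Real.log_pos (by linarith)
  -- the sieve weights
  set y : ℝ := (N : ℝ) ^ s' with hy
  have hy0 : 0 < y := by positivity
  have hlogy : Real.log y = s' * M := by rw [hy, Real.log_rpow hn0]
  obtain ⟨lam, hlam1, hlamb, hlams, hQ0, hQ1⟩ := hS y 2 a5 (by norm_num)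
  have hQ2' : QF y lam ≤ 2 * CS / (s' * M) := by
    refine hQ1.trans (le_of_eq ?_)
    rw [hlogy, Nat.totient_two]
    push_cast
    ring
  have hyz : y < (N : ℝ) ^ e0 := by
    rw [hy]
    apply Real.rpow_lt_rpow_of_exponent_lt (by linarith)
    have : s' ≤ e0 / 2 := min_le_right _ _
    linarith
  have hyKL : y ≤ (K * L) ^ σ := by
    calc y ≤ (N : ℝ) ^ σ := Real.rpow_le_rpow_of_exponent_le (by linarith) (min_le_left _ _)
      _ ≤ (K * L) ^ σ := by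
        apply Real.rpow_le_rpow hn0.le _ hσ.le
        nlinarith
  have hNKL : (N : ℝ) ≤ K * L := by nlinarith
  -- SEC
  set b' : ℕ → ℝ := fun u => b u / B with hb'
  have hsec := hSECτ K L A y b' lam (8 * N) r (a3.trans hNKL) b1 b3 hAge b4 b5 b6 b7
    (by push_cast; exact b8) (by linarith) hyKL hlamb
    (fun d hd => by
      obtain ⟨c1, c2, _, c4⟩ := hlams d hd
      exact ⟨c1, c2, Nat.coprime_two_right.mp c4⟩)
    (fun u => by
      rw [hb']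
      simp only []
      rw [abs_div, abs_of_pos hB, div_le_one hB]
      exact hb u)
    (fun u hu => by
      apply hbs
      intro h0
      apply hu
      rw [hb']
      simp only []
      rw [h0, zero_div])
  set W : ℝ := |Wsum K L b| with hW
  have hW0 : 0 ≤ W := abs_nonneg _
  have hWb : |Wsum K L b'| * B ^ 2 = W := by
    rw [hW, Two.Wsum_div (b := b) hB.ne', abs_mul, abs_of_pos (by positivity : 0 < B ^ 2), mul_comm]
  set S : ℝ := (K * L) ^ (-σ) with hSdef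
  have hS0 : 0 < S := Real.rpow_pos_of_pos hKL0 _
  have hQ2b : Q2 (8 * N) K A lam b' ≤ A * gI * (2 * CS / (s' * M)) * |Wsum K L b'| + A * L * S := by
    have h1 := (abs_le.mp hsec).2
    have h2 : (A : ℝ) * gI * QF y lam * Wsum K L b' ≤
        A * gI * (2 * CS / (s' * M)) * |Wsum K L b'| := by
      calc (A : ℝ) * gI * QF y lam * Wsum K L b' ≤ A * gI * QF y lam * |Wsum K L b'| := by
            apply mul_le_mul_of_nonneg_left (le_abs_self _)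
            positivity
        _ ≤ A * gI * (2 * CS / (s' * M)) * |Wsum K L b'| := by
            apply mul_le_mul_of_nonneg_right _ (abs_nonneg _)
            apply mul_le_mul_of_nonneg_left hQ2'
            positivity
    linarith
  have hSsmall : B ^ 4 * CF * M ^ 3 * S ≤ δ := by
    have h1 : S ≤ ((N : ℝ) ^ σ)⁻¹ := by
      rw [hSdef, Real.rpow_neg hKL0.le]
      apply inv_anti₀ (by positivity)
      exact Real.rpow_le_rpow hn0.le hNKL hσ.le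
    calc B ^ 4 * CF * M ^ 3 * S ≤ (δ * (N : ℝ) ^ σ) * ((N : ℝ) ^ σ)⁻¹ := by
          apply mul_le_mul a11 h1 hS0.le (by positivity)
      _ = δ := by
          rw [mul_assoc, mul_inv_cancel₀ (by positivity), mul_one]
  -- first factor
  have hb0 : b 0 = 0 := by
    by_contra h
    have := (hbs 0 h).2.1
    push_cast at this
    linarith
  have hcs := Two.cauchy (X := 8 * N) (A := A) b1 hαs hb0
  have hfirst : ∑ a ∈ IA A, ∑ k ∈ Ioc ⌊K⌋₊ ⌊5 / 4 * K⌋₊, |α k| * (rho a k : ℝ) ≤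
      B * (CF * A * K / M) := by
    have h1 := hF N A a2 hA1 K (by
      refine le_trans ?_ hK1
      apply Real.rpow_le_rpow_of_exponent_le (by linarith) (by linarith)) (by
      refine hK2.trans ?_
      calc (N : ℝ) ^ (1 - e) ≤ (N : ℝ) ^ (1 : ℝ) :=
            Real.rpow_le_rpow_of_exponent_le (by linarith) (by linarith)
        _ = N := Real.rpow_one _)
    refine le_trans ?_ (mul_le_mul_of_nonneg_left h1 hB.le)
    rw [mul_sum]
    refine sum_le_sum fun a _ => ?_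
    rw [mul_sum]
    refine sum_le_sum fun k _ => ?_
    rw [← mul_assoc]
    exact mul_le_mul_of_nonneg_right (hα k) (by positivity)
  have hsecond := Two.second_le (X := 8 * N) (A := A) (K := K) (z := (N : ℝ) ^ e0) (y := y) (B := B)
    (α := α) (b := b) (lam := lam) b1 hAgeN (by linarith) hyz hB.le hα hlam1
    (fun d hd => (hlams d hd).2.1)
  rw [Two.Q2_div (b := b) hB.ne'] at hsecond
  have hsecond' : ∑ a ∈ IA A, ∑ k ∈ Ioc ⌊K⌋₊ ⌊5 / 4 * K⌋₊, |α k| *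
      ∑ ν ∈ Two.roots a k, (fan (8 * N) a k ν b) ^ 2 ≤
      B * (B ^ 2 * (A * gI * (2 * CS / (s' * M)) * |Wsum K L b'| + A * L * S)) := by
    refine hsecond.trans ?_
    apply mul_le_mul_of_nonneg_left _ hB.le
    apply mul_le_mul_of_nonneg_left hQ2b (by positivity)
  have h0 : 0 ≤ ∑ a ∈ IA A, ∑ k ∈ Ioc ⌊K⌋₊ ⌊5 / 4 * K⌋₊, |α k| *
      ∑ ν ∈ Two.roots a k, (fan (8 * N) a k ν b) ^ 2 :=
    sum_nonneg fun a _ => sum_nonneg fun k _ => mul_nonneg (abs_nonneg _)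
      (sum_nonneg fun ν _ => sq_nonneg _)
  refine hcs.trans ?_
  calc (∑ a ∈ IA A, ∑ k ∈ Ioc ⌊K⌋₊ ⌊5 / 4 * K⌋₊, |α k| * (rho a k : ℝ)) *
      (∑ a ∈ IA A, ∑ k ∈ Ioc ⌊K⌋₊ ⌊5 / 4 * K⌋₊, |α k| *
        ∑ ν ∈ Two.roots a k, (fan (8 * N) a k ν b) ^ 2)
      ≤ (B * (CF * A * K / M)) *
        (B * (B ^ 2 * (A * gI * (2 * CS / (s' * M)) * |Wsum K L b'| + A * L * S))) := by
        apply mul_le_mul hfirst hsecond' h0 (by positivity)
    _ = (A : ℝ) ^ 2 * K / M ^ 2 * (B ^ 2 * CF * gI * (2 * CS) / s' * (|Wsum K L b'| * B ^ 2)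
          + (B ^ 4 * CF * M ^ 3 * S) * (L / M ^ 2)) := by
        field_simp
    _ = (A : ℝ) ^ 2 * K / M ^ 2 * (B ^ 2 * CF * gI * (2 * CS) / s' * W
          + (B ^ 4 * CF * M ^ 3 * S) * (L / M ^ 2)) := by rw [hWb]
    _ ≤ (A : ℝ) ^ 2 * K / M ^ 2 * (B ^ 2 * CF * gI * (2 * CS) / s' * W + δ * (L / M ^ 2)) := by
        apply mul_le_mul_of_nonneg_left _ (by positivity)
        have := mul_le_mul_of_nonneg_right hSsmall (by positivity : 0 ≤ L / M ^ 2)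
        linarith
    _ ≤ (A : ℝ) ^ 2 * K / M ^ 2 * ((B ^ 2 * CF * gI * (2 * CS) / s' + 1) * (W + δ * L / M ^ 2)) := by
        apply mul_le_mul_of_nonneg_left _ (by positivity)
        have h1 : 0 ≤ B ^ 2 * CF * gI * (2 * CS) / s' := by positivity
        have h2 : 0 ≤ δ * L / M ^ 2 := by positivity
        have h3 : δ * (L / M ^ 2) = δ * L / M ^ 2 := by ring
        rw [h3]
        nlinarith [mul_nonneg h1 h2]
    _ = (B ^ 2 * CF * gI * (2 * CS) / s' + 1) * ((A : ℝ) ^ 2 * K / M ^ 2) * (W + δ * L / M ^ 2) := by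
        ring

end Pool.Agent.Lib.MP391708.QPA.C
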