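import Pool.Agent.Lib.MP_391708_nt.QPA.C.SpecC
import Pool.Agent.Lib.MP_391708_nt.QPA.H.WBL

/-!
# QPA/C, module WBC: the bound for `Wsum` for a bounded function with small sums in residue classes
-/

set_option autoImplicit false

namespace Pool.Agent.Lib.MP391708.QPA.C

open Finset Filter Topology
open Pool.Agent.Lib.MP391708.QPA
open Pool.Agent.Lib.MP391708.QPA.H
open Pool.Agent.Lib.MP391708.QPA.H.WBLM
open scoped Classical

theorem specWBC (hWB : SpecWB) (hBDHB : SpecBDHB) : SpecWBC := by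
  intro B ϖ e η hB hϖ he hη hη4
  obtain ⟨ϖ₃, hϖ₃, J, hJ1, hJ⟩ := hWB 2 (ϖ / B ^ 2) e two_pos (by positivity) he
  obtain ⟨N₁, hN₁⟩ := hJ J le_rfl
  have hJ0 : (0 : ℝ) < J := by exact_mod_cast hJ1
  obtain ⟨R, κ, hκ, L₀, hL₀⟩ := hBDHB (ϖ₃ / (J : ℝ) ^ 2) (by positivity)
  refine ⟨R, κ * B, by positivity, max (max N₁ 3) ⌈L₀⌉₊, ?_⟩
  intro N K L b hN hK1 hKL hNL h1 h2 h3 h4 hbB hbs hcl
  have hNN₁ : N₁ ≤ N := (le_max_left _ _).trans ((le_max_left _ _).trans hN)
  have hN3 : 3 ≤ N := (le_max_right _ _).trans ((le_max_left _ _).trans hN)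
  have hNL₀ : L₀ ≤ N := by
    have : ⌈L₀⌉₊ ≤ N := (le_max_right _ _).trans hN
    exact (Nat.le_ceil L₀).trans (by exact_mod_cast this)
  have hN1 : (1 : ℝ) < N := by exact_mod_cast (by omega : 1 < N)
  have hN0 : (0 : ℝ) < N := by linarith
  have hlog : 0 < Real.log N := Real.log_pos hN1
  have hL0 : 0 < L := by linarith
  set t : ℝ := B * Real.log N with ht
  have ht0 : 0 < t := by positivity
  have hmain := hN₁ N K L η (fun u => b u / t) (fun _ => 1 / Real.log N) hNN₁ hη hη4 hK1 hKL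
    h1 h2 h3 h4 ?_ ?_ ?_ ?_
  · rw [Two.Wsum_div (b := b) ht0.ne', abs_mul, abs_of_pos (by positivity : 0 < t ^ 2)]
    calc t ^ 2 * |Wsum K L (fun u => b u / t)|
        ≤ t ^ 2 * (ϖ / B ^ 2 * L / Real.log N ^ 2) := by gcongr
      _ = ϖ * L := by rw [ht]; field_simp
  · intro u
    rw [abs_div, abs_of_pos ht0, div_le_div_iff₀ ht0 hlog, one_mul, ht]
    exact mul_le_mul_of_nonneg_right (hbB u) hlog.le
  · intro u hu
    refine hbs u fun h0 => hu ?_
    show b u / t = 0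
    rw [h0, zero_div]
  · intro d c x H hd _ hH
    rw [sum_const, nsmul_eq_mul]
    have hd0 : (0 : ℝ) < d := by exact_mod_cast hd
    have h5 := card_class (x := x) (H := H) (r := 4 * d) (c := c) (by omega)
    have hsq : 1 ≤ √(N : ℝ) := by
      rw [Real.one_le_sqrt]
      exact hN1.le
    have hHd : (d : ℝ) ≤ H := by nlinarith
    have hφ : (d.totient : ℝ) ≤ d := by exact_mod_cast Nat.totient_le d
    have hφ0 : (0 : ℝ) < d.totient := by exact_mod_cast Nat.totient_pos.2 (by omega)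
    have h6 : (H : ℝ) / ((4 * d : ℕ) : ℝ) + 1 ≤ 2 * H / d := by
      push_cast
      rw [le_div_iff₀ hd0]
      have : ((H : ℝ) / (4 * d) + 1) * d = H / 4 + d := by field_simp
      rw [this]
      have : (0 : ℝ) ≤ H := Nat.cast_nonneg H
      linarith
    have h7 : 2 * (H : ℝ) / d ≤ 2 * H / d.totient := by gcongr
    calc (((Ioc x (x + H)).filter (fun u => u % (4 * d) = c)).card : ℝ) * (1 / Real.log N)
        ≤ (2 * H / d.totient) * (1 / Real.log N) := by
          gcongr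
          exact h5.trans (h6.trans h7)
      _ = 2 * H / (d.totient * Real.log N) := by field_simp
  · intro i hi D₀ hD₀ hD₁
    have hi' : (i : ℝ) + 1 ≤ J := by exact_mod_cast hi
    have hi0 : (0 : ℝ) ≤ i := Nat.cast_nonneg i
    have e2 : L * (1 + η * (i + 1) / J) ≤ (1 + η) * L := by
      have : η * ((i : ℝ) + 1) / J ≤ η := by
        rw [div_le_iff₀ hJ0]
        gcongr
      nlinarith
    have e3 : L * (1 + η * i / J) ≤ L * (1 + η * (i + 1) / J) := by
      gcongr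
      linarith
    have hxy : ⌊L * (1 + η * i / J)⌋₊ ≤ ⌊L * (1 + η * (i + 1) / J)⌋₊ := Nat.floor_le_floor e3
    have hy : ((⌊L * (1 + η * (i + 1) / J)⌋₊ : ℕ) : ℝ) ≤ 2 * L := by
      refine (Nat.floor_le (by positivity)).trans (e2.trans ?_)
      nlinarith
    have hbe : ∀ u ∈ pc L η J i, b u / t = (b u / B) / Real.log N := by
      intro u _
      rw [ht, div_div]
    rw [Vd_congr hbe, Vd_div]
    have hD2 : (D₀ : ℝ) ≤ √L := by
      refine hD₁.trans (Real.sqrt_le_sqrt ?_)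
      exact div_le_self hL0.le hK1
    have h8 := hL₀ L ⌊L * (1 + η * i / J)⌋₊ ⌊L * (1 + η * (i + 1) / J)⌋₊ (fun u => b u / B)
      (hNL₀.trans hNL) hy ?_ ?_ D₀ hD₀ hD2
    · unfold pc
      calc Vd (Ioc ⌊L * (1 + η * i / J)⌋₊ ⌊L * (1 + η * (i + 1) / J)⌋₊) (fun u => b u / B) D₀ /
            Real.log N ^ 2
          ≤ (ϖ₃ / (J : ℝ) ^ 2 * L ^ 2) / Real.log N ^ 2 := by gcongr
        _ = _ := by ring
    · intro u
      rw [abs_div, abs_of_pos hB, div_le_one hB]
      exact hbB u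
    · intro r c hr hrR
      rw [← sum_div, abs_div, abs_of_pos hB, div_le_iff₀ hB]
      refine (hcl r c _ _ hr hrR hxy hy).trans (le_of_eq ?_)
      ring

end Pool.Agent.Lib.MP391708.QPA.C
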