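import Pool.Agent.Lib.MP_391708_nt.QPA.H.All
import Pool.Agent.Lib.MP_391708_nt.QPA.C.TWOP
import Pool.Agent.Lib.MP_391708_nt.QPA.C.SECP
import Pool.Agent.Lib.MP_391708_nt.QPA.C.KERP
import Pool.Agent.Lib.MP_391708_nt.QPA.C.COUNTP
import Pool.Agent.Lib.MP_391708_nt.QPA.C.WBC
import Pool.Agent.Lib.MP_391708_nt.QPA.C.EQC
import Pool.Agent.Lib.MP_391708_nt.QPA.C.BLKC
import Pool.Agent.Lib.MP_391708_nt.QPA.C.TIIC
import Pool.Agent.Lib.MP_391708_nt.QPA.C.T2C
import Pool.Agent.Lib.MP_391708_nt.QPA.C.FLC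
import Pool.Agent.Lib.MP_391708_nt.QPA.C.TIC
import Pool.Agent.Lib.MP_391708_nt.QPA.C.WINC
import Pool.Agent.Lib.MP_391708_nt.QPA.C.SMTC
import Pool.Agent.Lib.MP_391708_nt.QPA.C.CHWC
import Pool.Agent.Lib.MP_391708_nt.QPA.C.FINC

/-!
# QPA phase 4: assembly
-/

set_option autoImplicit false

namespace Pool.Agent.Lib.MP391708.QPA.C

open Pool.Agent.Lib.MP391708.QPA
open Pool.Agent.Lib.MP391708.QPA.H

/-- the Type II sums with the smooth factor -/
theorem allTIIC : SpecTIIC := by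
  have hSELB := specSELB
  have hBT := specBT hSELB
  have hRSUM := specRSUM hBT
  have hRAV := specRAV specQG
  have hCOUNT := specCOUNTP
  have hSEC := specSECP (specKERP (specBIL specDLS) specPOI hCOUNT) hCOUNT
  have hTWOP := specTWOP hSEC (specFIRSTH hRAV hBT) hSELB
  have hEQC := specEQC specLAMX hRSUM specFFB
  exact specTIIC (specBLKC hTWOP (specWBC specWB specBDHB) hEQC specFFB) specFFB

/-- `∑_{N<n≤2N} λ(|n²+a|) = o(N)` for almost all `|a| ≤ A`, `N^θ ≤ A`, `θ > 5/6` -/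
theorem allCHWC : SpecCHWC := by
  have hSELB := specSELB
  have hBT := specBT hSELB
  have hRSUM := specRSUM hBT
  have hGMAX := specGMAX specRHO2 specRHOP
  have hFLC := specFLC specFL specRHO1 specRHOM specRHOS
  have hTIC := specTIC hFLC (specPRODK specRHOP specPVA) hGMAX specWMER specMER specRHOS
  exact specCHWC hTIC specT2C allTIIC (specWINC specQG hRSUM) specSMTC (specNSFH specQG)

/-- the sums up to `M ≤ N`, uniformly in `M` -/
theorem allFINCU : SpecFINCU := specFINCU allCHWC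

/-- the sum over `n ≤ N` -/
theorem allFINC : SpecFINC := specFINC allCHWC

end Pool.Agent.Lib.MP391708.QPA.C
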