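import Pool.Agent.Lib.MP_391708_nt.QPA.C.BLKDa

/-!
# QPA/C, module BLKD: one block with main term, for functions on all integers
-/

set_option autoImplicit false

namespace Pool.Agent.Lib.MP391708.QPA.C

open Finset Filter Topology
open Pool.Agent.Lib.MP391708.QPA
open Pool.Agent.Lib.MP391708.QPA.H
open scoped Classical

namespace BLKDM

open BasM SHM

/-- the main term -/
lemma partB (hMTB : SpecMTBH) (hSHM : SpecSHM) (hBT : SpecBT) (hFFB : SpecFFB)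
    {θ κ e e0 η₁ η ϖ : ℝ} {Q : ℕ} {c₁ c₂ : Multiset ℕ} (hθ : 1 / 2 < θ) (hκ : 3 / 5 < κ)
    (he : 0 < e) (he0 : 0 < e0) (he0' : e0 ≤ 1 / 10)
    (hη₁ : 0 < η₁) (hη₁4 : η₁ ≤ 1 / 4) (hϖ : 0 < ϖ) (hQ : 1 ≤ Q)
    (hc₁ : ∀ i ∈ c₁, Q ≤ i) (hc₂ : ∀ i ∈ c₂, Q ≤ i) :
    ∃ J₀ : ℕ, ∀ J : ℕ, J₀ ≤ J → 1 ≤ J → ∀ᶠ N : ℕ in atTop, ∀ A : ℕ, Adm θ N A →
      NearA N A (e0 / Q) e c₁ → ∀ K L : ℝ,
      (N : ℝ) ^ κ ≤ K → K ≤ (N : ℝ) ^ (1 - e) → (N : ℝ) ^ 2 / 2 ≤ K * L → K * L ≤ 5 * (N : ℝ) ^ 2 →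
      ∑ a ∈ IA A, |∑ i ∈ range J,
          Dav L η₁ J (cut L ((1 + η₁) * L)
            (conv (fun m => FF N (e0 / Q) c₂ m) (ism ((N : ℝ) ^ e0) ((N : ℝ) ^ η)))) i *
          ∑ k ∈ Ioc ⌊K⌋₊ ⌊5 / 4 * K⌋₊, cut K ((1 + η₁) * K) (fun m => FF N (e0 / Q) c₁ m) k
            * ((rho a k : ℝ) / k)
            * (√(k * (L * (1 + η₁ * (i + 1) / J))) - √(k * (L * (1 + η₁ * i / J))))
        - ∑ k ∈ Ioc ⌊K⌋₊ ⌊(1 + η₁) * K⌋₊, ∑ l ∈ Ioc ⌊L⌋₊ ⌊(1 + η₁) * L⌋₊,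
            FF N (e0 / Q) c₁ k * conv (fun m => FF N (e0 / Q) c₂ m)
              (ism ((N : ℝ) ^ e0) ((N : ℝ) ^ η)) l / (2 * √((k : ℝ) * l))|
        ≤ ϖ * A * N / Real.log N := by
  set B : ℝ := ((Multiset.card c₁).factorial : ℝ) + ((Multiset.card c₂).factorial : ℝ) with hB
  have hB1 : ((Multiset.card c₁).factorial : ℝ) ≤ B := by
    rw [hB]
    have : (0 : ℝ) ≤ ((Multiset.card c₂).factorial : ℝ) := by positivity
    linarith
  have hB2 : ((Multiset.card c₂).factorial : ℝ) ≤ B := by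
    rw [hB]
    have : (0 : ℝ) ≤ ((Multiset.card c₁).factorial : ℝ) := by positivity
    linarith
  have hB0 : 0 < B := lt_of_lt_of_le (by exact_mod_cast Nat.factorial_pos _) hB1
  obtain ⟨CH, hCH, hCH'⟩ := hSHM
  obtain ⟨CS, hCS, hCS'⟩ := rough_sum hBT he0 he0'
  obtain ⟨J₀, hJ₀⟩ := exists_nat_ge (18 * CH * B * (B * CS) / ϖ)
  refine ⟨J₀, fun J hJ hJ1 => ?_⟩
  have hJ0 : (0 : ℝ) < J := by exact_mod_cast hJ1
  set M : ℝ := (CH + 1) * B with hM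
  have hM0 : 0 < M := by positivity
  obtain ⟨N₁, hN₁⟩ := hMTB θ e e0 (ϖ / (6 * M)) η₁ Q c₁ hθ he he0 he0' (by positivity) hη₁ hη₁4 hQ hc₁
  filter_upwards [eventually_ge_atTop 3, eventually_ge_atTop N₁, BLKCM.geo he hκ, hCS', ev_log 1,
    ev_pow (show (1 / 5 : ℝ) < 3 / 5 by norm_num) (2 / η₁), ev_const one_pos (1 / η₁)] with
    N hN3 hNN₁ hgeo hcs hl1 hsz hsz2 A hA hnear K L hK1' hK2 hKL1 hKL2
  obtain ⟨hK, hKL, hLN, hL3, hg1, hg2⟩ := hgeo K L hK1' hK2 hKL1 hKL2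
  have hN1 : (1 : ℝ) < N := by exact_mod_cast (by omega : 1 < N)
  have hK1 : (N : ℝ) ^ (3 / 5 : ℝ) ≤ K :=
    (Real.rpow_le_rpow_of_exponent_le hN1.le hκ.le).trans hK1'
  have hN0 : (0 : ℝ) < N := by linarith
  have hlog : 0 < Real.log N := by linarith
  have hL0 : 0 < L := by linarith
  have hK0 : 0 < K := by linarith
  have hsK : 0 < √K := Real.sqrt_pos.2 hK0
  have hsL : 0 < √L := Real.sqrt_pos.2 hL0
  have hsK2 : √K * √K = K := Real.mul_self_sqrt hK0.le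
  have hsL2 : √L * √L = L := Real.mul_self_sqrt hL0.le
  rw [Real.rpow_one] at hsz2
  have hηL : 1 ≤ η₁ * L := by
    rw [div_le_iff₀ hη₁] at hsz2
    nlinarith
  set f : ℕ → ℝ := conv (fun m => FF N (e0 / Q) c₂ m) (ism ((N : ℝ) ^ e0) ((N : ℝ) ^ η)) with hf
  set β : ℕ → ℝ := cut L ((1 + η₁) * L) f with hβ
  set g : ℕ → ℝ := fun m => FF N (e0 / Q) c₁ m with hg
  have hf0 : ∀ u, 0 ≤ f u := convi_nonneg hFFB he0 hQ hc₂ (by omega) _
  have hfB : ∀ u, f u ≤ B := fun u => (convi_le hFFB he0 hQ hc₂ (by omega) _ u).trans hB2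
  have hgg : ∀ m, 0 ≤ g m ∧ g m ≤ B * rInd ((N : ℝ) ^ e0) m := fun m => by
    obtain ⟨h1, h2⟩ := FF_facts hFFB he0 hQ hc₁ (by omega : 2 ≤ N) m
    exact ⟨h1, h2.trans (mul_le_mul_of_nonneg_right hB1 (rInd_nonneg _ _))⟩
  have hβ0 : ∀ u, 0 ≤ β u := fun u => BLK2.cut_nonneg hf0 u
  have hsz' : 2 * (N : ℝ) ^ (1 / 5 : ℝ) ≤ η₁ * (N : ℝ) ^ (3 / 5 : ℝ) := by
    have h2 : 2 / η₁ * (N : ℝ) ^ (1 / 5 : ℝ) = (2 * (N : ℝ) ^ (1 / 5 : ℝ)) / η₁ := by ring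
    rw [h2, div_le_iff₀ hη₁] at hsz
    linarith
  -- the sums
  set S' : ℝ := ∑ i ∈ range J, Dav L η₁ J β i
    * (√(L * (1 + η₁ * (i + 1) / J)) - √(L * (1 + η₁ * i / J))) with hS'
  set S : ℝ := ∑ l ∈ Ioc ⌊L⌋₊ ⌊(1 + η₁) * L⌋₊, f l / (2 * √(l : ℝ)) with hS
  set R₁ : ℝ := ∑ k ∈ Ioc ⌊K⌋₊ ⌊(1 + η₁) * K⌋₊, g k / √(k : ℝ) with hR₁
  set R : ℤ → ℝ := fun a => ∑ k ∈ Ioc ⌊K⌋₊ ⌊(1 + η₁) * K⌋₊, g k * (rho a k : ℝ) / √(k : ℝ) with hR
  have hsumβ : ∑ l ∈ Ioc ⌊L⌋₊ ⌊(1 + η₁) * L⌋₊, f l ≤ B * L := by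
    have hcard : (((Ioc ⌊L⌋₊ ⌊(1 + η₁) * L⌋₊).card : ℕ) : ℝ) ≤ L := by
      rw [Nat.card_Ioc, Nat.cast_sub (Nat.floor_mono (by nlinarith))]
      have a1 := Nat.lt_floor_add_one L
      have a2 := Nat.floor_le (show 0 ≤ (1 + η₁) * L by positivity)
      nlinarith
    calc ∑ l ∈ Ioc ⌊L⌋₊ ⌊(1 + η₁) * L⌋₊, f l
        ≤ ∑ l ∈ Ioc ⌊L⌋₊ ⌊(1 + η₁) * L⌋₊, B := sum_le_sum fun l _ => hfB l
      _ = (((Ioc ⌊L⌋₊ ⌊(1 + η₁) * L⌋₊).card : ℕ) : ℝ) * B := by rw [sum_const, nsmul_eq_mul]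
      _ ≤ L * B := mul_le_mul_of_nonneg_right hcard hB0.le
      _ = B * L := mul_comm _ _
  have hsumg : ∑ k ∈ Ioc ⌊K⌋₊ ⌊(1 + η₁) * K⌋₊, g k ≤ B * CS * K / Real.log N := by
    calc ∑ l ∈ Ioc ⌊K⌋₊ ⌊(1 + η₁) * K⌋₊, g l
        ≤ ∑ l ∈ Ioc ⌊K⌋₊ ⌊(1 + η₁) * K⌋₊, B * rInd ((N : ℝ) ^ e0) l := sum_le_sum fun l _ => (hgg l).2
      _ = B * ∑ l ∈ Ioc ⌊K⌋₊ ⌊(1 + η₁) * K⌋₊, rInd ((N : ℝ) ^ e0) l := by rw [mul_sum]
      _ ≤ B * (CS * ((1 + η₁) * K - K) / Real.log N) := by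
          refine mul_le_mul_of_nonneg_left (hcs K ((1 + η₁) * K) hK0.le ?_) hB0.le
          nlinarith
      _ ≤ B * (CS * K / Real.log N) := by
          gcongr
          nlinarith
      _ = _ := by ring
  have hR1 : 0 ≤ R₁ ∧ R₁ ≤ B * CS * √K / Real.log N := by
    refine ⟨sum_nonneg fun k _ => div_nonneg (hgg k).1 (Real.sqrt_nonneg _), ?_⟩
    have h1 : R₁ ≤ (∑ k ∈ Ioc ⌊K⌋₊ ⌊(1 + η₁) * K⌋₊, g k) / √K := by
      rw [hR₁, sum_div]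
      refine sum_le_sum fun k hk => ?_
      obtain ⟨h3, h4⟩ := BLK2.mem_blk hK0.le hη₁.le hk
      exact div_le_div_of_nonneg_left (hgg k).1 hsK (Real.sqrt_le_sqrt h3.le)
    refine h1.trans ?_
    rw [div_le_iff₀ hsK]
    refine hsumg.trans (le_of_eq ?_)
    rw [div_mul_eq_mul_div, mul_assoc (B * CS) √K √K, hsK2]
  have hSS : 0 ≤ S ∧ S ≤ B * √L := by
    refine ⟨sum_nonneg fun k _ => div_nonneg (hf0 k) (by positivity), ?_⟩
    have h1 : S ≤ (∑ k ∈ Ioc ⌊L⌋₊ ⌊(1 + η₁) * L⌋₊, f k) / √L := by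
      rw [hS, sum_div]
      refine sum_le_sum fun k hk => ?_
      obtain ⟨h3, h4⟩ := BLK2.mem_blk hL0.le hη₁.le hk
      have h5 : √L ≤ √(k : ℝ) := Real.sqrt_le_sqrt h3.le
      exact div_le_div_of_nonneg_left (hf0 k) hsL (by linarith)
    refine h1.trans ?_
    rw [div_le_iff₀ hsL]
    refine hsumβ.trans (le_of_eq ?_)
    rw [mul_assoc B √L √L, hsL2]
  have hdiff : |S' - S| ≤ CH * B * √L / J := by
    have h1 := hCH' L η₁ J β (by linarith) hη₁ hη₁4 hJ1 hβ0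
    have h2 : ∑ l ∈ Ioc ⌊L⌋₊ ⌊(1 + η₁) * L⌋₊, β l / (2 * √(l : ℝ)) = S := by
      refine sum_congr rfl fun l hl => ?_
      obtain ⟨h3, h4⟩ := BLK2.mem_blk hL0.le hη₁.le hl
      rw [hβ, BLK2.cut_of h3 h4]
    have h3 : ∑ l ∈ Ioc ⌊L⌋₊ ⌊(1 + η₁) * L⌋₊, β l = ∑ l ∈ Ioc ⌊L⌋₊ ⌊(1 + η₁) * L⌋₊, f l := by
      refine sum_congr rfl fun l hl => ?_
      obtain ⟨h3, h4⟩ := BLK2.mem_blk hL0.le hη₁.le hl
      rw [hβ, BLK2.cut_of h3 h4]
    rw [h2, h3] at h1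
    refine h1.trans ?_
    calc CH / J * (∑ l ∈ Ioc ⌊L⌋₊ ⌊(1 + η₁) * L⌋₊, f l) / √L
        ≤ CH / J * (B * L) / √L := by gcongr
      _ = CH / J * (B * (√L * √L)) / √L := by rw [hsL2]
      _ = CH * B * √L / J := by field_simp
  have hS'b : |S'| ≤ M * √L := by
    have h1 : |S'| ≤ |S' - S| + |S| := by
      have := abs_add_le (S' - S) S
      rwa [sub_add_cancel] at this
    rw [abs_of_nonneg hSS.1] at h1
    have h2 : CH * B * √L / J ≤ CH * B * √L := by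
      apply div_le_self (by positivity)
      exact_mod_cast hJ1
    have h4 : M * √L = CH * B * √L + B * √L := by rw [hM]; ring
    linarith [hSS.2]
  have hRR : ∑ a ∈ IA A, |R a - R₁| ≤ ϖ / (6 * M) * A * √K / (Real.log N) ^ 2 := by
    have h1 := hN₁ N A hNN₁ hA hnear K ?_ hK2
    · refine le_trans (le_of_eq ?_) h1
      refine sum_congr rfl fun a _ => ?_
      congr 1
      rw [hR, hR₁]
      simp only
      rw [← sum_sub_distrib]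
      refine sum_congr rfl fun k _ => ?_
      rw [hg]
      ring
    · refine le_trans ?_ hK1
      exact Real.rpow_le_rpow_of_exponent_le hN1.le (by norm_num)
  have hsq : √K * √L ≤ 3 * N := by
    rw [← Real.sqrt_mul hK0.le]
    rw [Real.sqrt_le_left (by positivity)]
    nlinarith
  -- assembly
  have hterm : ∀ a, |∑ i ∈ range J, Dav L η₁ J β i *
          ∑ k ∈ Ioc ⌊K⌋₊ ⌊5 / 4 * K⌋₊, cut K ((1 + η₁) * K) g k * ((rho a k : ℝ) / k)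
            * (√(k * (L * (1 + η₁ * (i + 1) / J))) - √(k * (L * (1 + η₁ * i / J))))
        - ∑ k ∈ Ioc ⌊K⌋₊ ⌊(1 + η₁) * K⌋₊, ∑ l ∈ Ioc ⌊L⌋₊ ⌊(1 + η₁) * L⌋₊,
            g k * f l / (2 * √((k : ℝ) * l))|
      ≤ (M * √L) * |R a - R₁| + |S' - S| * R₁ := by
    intro a
    rw [BLK2.main_eq (g := g) hK0 hη₁.le hη₁4 β (f := f), BLK2.main_eq2, ← hS', ← hS, ← hR₁]
    have e1 : (∑ k ∈ Ioc ⌊K⌋₊ ⌊(1 + η₁) * K⌋₊, g k * (rho a k : ℝ) / √(k : ℝ)) = R a := rfl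
    rw [e1]
    have e2 : S' * R a - S * R₁ = S' * (R a - R₁) + (S' - S) * R₁ := by ring
    rw [e2]
    refine (abs_add_le _ _).trans (add_le_add ?_ (le_of_eq ?_))
    · rw [abs_mul]
      exact mul_le_mul_of_nonneg_right hS'b (abs_nonneg _)
    · rw [abs_mul, abs_of_nonneg hR1.1]
  refine (sum_le_sum fun a _ => hterm a).trans ?_
  rw [sum_add_distrib, ← mul_sum, sum_const, nsmul_eq_mul]
  have hA0 : (0 : ℝ) ≤ A := Nat.cast_nonneg A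
  have hA1 : (1 : ℝ) ≤ A := (Real.one_le_rpow hN1.le (by linarith)).trans hA.1
  have hIA : ((IA A).card : ℝ) ≤ 3 * A := by
    have h : (IA A).card = 2 * A + 1 := by
      unfold IA
      rw [Int.card_Icc]
      omega
    rw [h]
    push_cast
    linarith
  have h1 : (M * √L) * ∑ a ∈ IA A, |R a - R₁| ≤ ϖ / 2 * A * N / Real.log N := by
    calc (M * √L) * ∑ a ∈ IA A, |R a - R₁|
        ≤ (M * √L) * (ϖ / (6 * M) * A * √K / (Real.log N) ^ 2) := by gcongr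
      _ = ϖ / 6 * A / (Real.log N) ^ 2 * (√K * √L) := by field_simp
      _ ≤ ϖ / 6 * A / (Real.log N) ^ 2 * (3 * N) := by gcongr
      _ = (ϖ / 2 * A * N) / (Real.log N) ^ 2 := by ring
      _ ≤ ϖ / 2 * A * N / Real.log N := by
          apply div_le_div_of_nonneg_left (by positivity) hlog
          nlinarith
  have h2 : ((IA A).card : ℝ) * (|S' - S| * R₁) ≤ ϖ / 2 * A * N / Real.log N := by
    have h3 : 9 * CH * B * (B * CS) / J ≤ ϖ / 2 := by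
      rw [div_le_iff₀ hJ0]
      have h4 : 18 * CH * B * (B * CS) / ϖ ≤ J := hJ₀.trans (by exact_mod_cast hJ)
      rw [div_le_iff₀ hϖ] at h4
      nlinarith
    calc ((IA A).card : ℝ) * (|S' - S| * R₁)
        ≤ (3 * A) * ((CH * B * √L / J) * (B * CS * √K / Real.log N)) := by
          have := hR1.1
          have h5 : |S' - S| * R₁ ≤ (CH * B * √L / J) * (B * CS * √K / Real.log N) :=
            mul_le_mul hdiff hR1.2 hR1.1 (by positivity)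
          exact mul_le_mul hIA h5 (by positivity) (by positivity)
      _ = 3 * (CH * B * (B * CS) / J) * A / Real.log N * (√K * √L) := by field_simp
      _ ≤ 3 * (CH * B * (B * CS) / J) * A / Real.log N * (3 * N) := by gcongr
      _ = (9 * CH * B * (B * CS) / J) * A * N / Real.log N := by ring
      _ ≤ _ := by gcongr
  refine (add_le_add h1 h2).trans (le_of_eq ?_)
  ring

end BLKDM

open BLKDM BasM SHM in
theorem specBLKD (hTWOP : SpecTWOP) (hWBC : SpecWBC) (hEQD : SpecEQD) (hMTBH : SpecMTBH)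
    (hRAV : SpecRAV) (hRHOC : SpecRHOC) (hRHOM : SpecRHOM) (hSHM : SpecSHM) (hBT : SpecBT)
    (hFFB : SpecFFB) : SpecBLKD := by
  intro θ κ e e0 η₁ η ϖ Q c₁ c₂ hθ hκ hθκ he he0 he0' hη hη4 hη₁ hη₁4 hϖ hQ hc₁ hc₂ hc₂0
  obtain ⟨J₁, hJ₁⟩ := partA hTWOP hWBC hEQD hFFB (ϖ := ϖ / 3) hθ hκ hθκ he he0 he0' hη hη4 hη₁ hη₁4
    (by positivity) hQ hc₁ hc₂ hc₂0
  obtain ⟨J₂, hJ₂⟩ := partB (η := η) hMTBH hSHM hBT hFFB (ϖ := ϖ / 3) hθ hκ he he0 he0' hη₁ hη₁4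
    (by positivity) hQ hc₁ hc₂
  set B : ℝ := ((Multiset.card c₁).factorial : ℝ) + ((Multiset.card c₂).factorial : ℝ) with hB
  have hB1 : ((Multiset.card c₁).factorial : ℝ) ≤ B := by
    rw [hB]
    have : (0 : ℝ) ≤ ((Multiset.card c₂).factorial : ℝ) := by positivity
    linarith
  have hB2 : ((Multiset.card c₂).factorial : ℝ) ≤ B := by
    rw [hB]
    have : (0 : ℝ) ≤ ((Multiset.card c₁).factorial : ℝ) := by positivity
    linarith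
  have hB0 : 0 < B := lt_of_lt_of_le (by exact_mod_cast Nat.factorial_pos _) hB1
  set J : ℕ := max (max J₁ J₂) 1 with hJ
  have hJ1 : 1 ≤ J := le_max_right _ _
  have hJa : J₁ ≤ J := (le_max_left _ _).trans (le_max_left _ _)
  have hJb : J₂ ≤ J := (le_max_right _ _).trans (le_max_left _ _)
  obtain ⟨N₁, hN₁⟩ := hJ₁ J hJa hJ1
  obtain ⟨N₂, hN₂⟩ := eventually_atTop.1 (hJ₂ J hJb hJ1)
  obtain ⟨N₃, hN₃⟩ := mtad hRHOC hRHOM hRAV θ e e0 B (ϖ / 3) η₁ J hθ he he0 hB0 (by positivity)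
    hη₁ hη₁4 hJ1
  refine ⟨max (max N₁ N₂) (max N₃ 3), fun N A hN hA hnear K L hK1 hK2 hKL1 hKL2 => ?_⟩
  have hNN₁ : N₁ ≤ N := (le_max_left _ _).trans ((le_max_left _ _).trans hN)
  have hNN₂ : N₂ ≤ N := (le_max_right _ _).trans ((le_max_left _ _).trans hN)
  have hNN₃ : N₃ ≤ N := (le_max_left _ _).trans ((le_max_right _ _).trans hN)
  have hN3 : 3 ≤ N := (le_max_right _ _).trans ((le_max_right _ _).trans hN)
  have hN3' : (3 : ℝ) ≤ N := by exact_mod_cast hN3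
  have hlog : 1 ≤ Real.log N := by
    rw [← Real.log_exp 1]
    apply Real.log_le_log (Real.exp_pos 1)
    have := Real.exp_one_lt_d9
    linarith
  have hlog0 : 0 < Real.log N := by linarith
  have hK0 : 0 < K := lt_of_lt_of_le (by positivity) hK1
  set f : ℕ → ℝ := conv (fun m => FF N (e0 / Q) c₂ m) (ism ((N : ℝ) ^ e0) ((N : ℝ) ^ η)) with hf
  set α : ℕ → ℝ := cut K ((1 + η₁) * K) (fun m => FF N (e0 / Q) c₁ m) with hα
  set β : ℕ → ℝ := cut L ((1 + η₁) * L) f with hβ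
  have h1 := hN₁ N A hNN₁ hA K L hK1 hK2 hKL1 hKL2
  have h3 := hN₂ N hNN₂ A hA hnear K L hK1 hK2 hKL1 hKL2
  have h2 := hN₃ N A hNN₃ hA K L
    ((Real.rpow_le_rpow_of_exponent_le (by linarith) (by linarith)).trans hK1) hK2 hKL1 hKL2 α β
    (fun k => by
      obtain ⟨h1, h2⟩ := FF_facts hFFB he0 hQ hc₁ (by omega : 2 ≤ N) k
      rw [hα]
      unfold cut
      split_ifs
      · rw [abs_of_nonneg h1]
        exact h2.trans (mul_le_mul_of_nonneg_right hB1 (rInd_nonneg _ _))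
      · rw [abs_zero]
        exact mul_nonneg hB0.le (rInd_nonneg _ _))
    (fun k hk => by
      obtain ⟨h1, h2⟩ := BLK2.cut_ne hk
      exact ⟨h1, h2.trans (by nlinarith)⟩)
    (fun l => by
      rw [hβ]
      unfold cut
      split_ifs
      · rw [abs_of_nonneg (convi_nonneg hFFB he0 hQ hc₂ (by omega) _ l)]
        exact (convi_le hFFB he0 hQ hc₂ (by omega) _ l).trans hB2
      · rw [abs_zero]; exact hB0.le)
  have h2' : ϖ / 3 * A * N / (Real.log N) ^ 2 ≤ ϖ / 3 * A * N / Real.log N := by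
    apply div_le_div_of_nonneg_left (by positivity) hlog0
    nlinarith
  have hsplit : ∀ a, bil (8 * N) a α β = bil (8 * N) a α (fun u => β u - flat L η₁ J β u)
      + bil (8 * N) a α (flat L η₁ J β) := by
    intro a
    rw [← bil_add]
    congr 1
    funext l
    ring
  have hsum := add_le_add (add_le_add h1 (h2.trans h2')) h3
  rw [← sum_add_distrib, ← sum_add_distrib] at hsum
  have htot : ϖ / 3 * A * N / Real.log N + ϖ / 3 * A * N / Real.log N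
      + ϖ / 3 * A * N / Real.log N = ϖ * A * N / Real.log N := by ring
  rw [htot] at hsum
  refine le_trans (sum_le_sum fun a _ => ?_) hsum
  rw [hsplit a]
  refine le_trans (le_of_eq ?_) ((abs_add_le _ _).trans (add_le_add_left (abs_add_le _ _) _))
  congr 1
  ring

end Pool.Agent.Lib.MP391708.QPA.C
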