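import Pool.Agent.Lib.MP_391708_nt.QPA.C.SpecD

/-!
# QPA phase 4, stage 2, module BOXC: functions of the large prime factors are type functions up to edges
-/

set_option autoImplicit false

namespace Pool.Agent.Lib.MP391708.QPA.C.BOXCM

open Finset
open Pool.Agent.Lib.MP391708.QPA Pool.Agent.Lib.MP391708.QPA.H
open scoped Classical
open T2

/-! ### the numbers `Cn` -/

theorem Cn_eq (N : ℕ) (y : ℝ) (m : ℕ) :
    Cn N y m = m.primeFactorsList.countP (fun p : ℕ => decide ((N : ℝ) ^ y < (p : ℝ))) := by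
  rw [Cn, List.countP_eq_length_filter]

theorem Cn_mul (N : ℕ) (y : ℝ) (s t : ℕ) (hs : s ≠ 0) (ht : t ≠ 0) :
    Cn N y (s * t) = Cn N y s + Cn N y t := by
  rw [Cn_eq, Cn_eq, Cn_eq, (Nat.perm_primeFactorsList_mul hs ht).countP_eq, List.countP_append]

theorem Cn_smooth (N : ℕ) (y e0 : ℝ) (hN : 1 ≤ N) (hy : e0 ≤ y) (s : ℕ)
    (hs : Smooth ((N : ℝ) ^ e0) s) : Cn N y s = 0 := by
  rw [Cn_eq, List.countP_eq_zero]
  intro p hp
  rw [decide_eq_true_eq, not_lt]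
  have h1 := hs p (Nat.prime_of_mem_primeFactorsList hp) (Nat.dvd_of_mem_primeFactorsList hp)
  have h2 : (N : ℝ) ^ e0 ≤ (N : ℝ) ^ y :=
    Real.rpow_le_rpow_of_exponent_le (by exact_mod_cast hN) hy
  exact h1.le.trans h2

theorem Cn_prime (N : ℕ) (y : ℝ) (p : ℕ) (hp : p.Prime) :
    Cn N y p = if (N : ℝ) ^ y < (p : ℝ) then 1 else 0 := by
  rw [Cn_eq, Nat.primeFactorsList_prime hp, List.countP_cons, List.countP_nil]
  simp

/-- no prime factor in the window: `Cn` is read off the type -/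
theorem Cn_typ (N : ℕ) (e2 y w : ℝ) (hN : 2 ≤ N) (he2 : 0 < e2) (hw : e2 ≤ w) (n : ℕ)
    (h : ∀ p : ℕ, p.Prime → p ∣ n → ¬ ((N : ℝ) ^ (y - w) ≤ p ∧ (p : ℝ) ≤ (N : ℝ) ^ (y + w))) :
    Cn N y n = (typ N e2 n).countP (fun i : ℕ => y ≤ e2 * (i : ℝ)) := by
  have hN1 : (1 : ℝ) < N := by exact_mod_cast (by omega : 1 < N)
  rw [Cn_eq, typ, Multiset.countP_map, ← Multiset.countP_eq_card_filter, Multiset.coe_countP]
  apply List.countP_congr
  intro p hp
  have hpp := Nat.prime_of_mem_primeFactorsList hp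
  have hb := idx_spec N e2 hN he2 p hpp.one_lt.le
  have hw' := h p hpp (Nat.dvd_of_mem_primeFactorsList hp)
  rw [decide_eq_true_eq, decide_eq_true_eq]
  constructor
  · intro h1
    have h2 : (N : ℝ) ^ (y + w) < p := by
      by_contra h3
      rw [not_lt] at h3
      refine hw' ⟨?_, h3⟩
      exact (Real.rpow_le_rpow_of_exponent_le hN1.le (by linarith)).trans h1.le
    have h3 := (Real.rpow_lt_rpow_left_iff hN1).mp (h2.trans hb.2)
    nlinarith
  · intro h1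
    have h2 : (N : ℝ) ^ y ≤ p :=
      (Real.rpow_le_rpow_of_exponent_le hN1.le (by linarith)).trans hb.1
    by_contra h3
    rw [not_lt] at h3
    refine hw' ⟨(Real.rpow_le_rpow_of_exponent_le hN1.le (by linarith)).trans h2, ?_⟩
    exact h3.trans (Real.rpow_le_rpow_of_exponent_le hN1.le (by linarith))

/-! ### the type functions -/

/-- class II -/
noncomputable def Ph (r : ℕ) (x : Fin r → ℝ) (F : (Fin r → ℕ) → ℝ) (e2 : ℝ) (c : Multiset ℕ) : ℝ :=
  F (fun j => c.countP (fun i : ℕ => x j ≤ e2 * (i : ℝ)))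

/-- class I -/
noncomputable def Ph' (r : ℕ) (x : Fin r → ℝ) (F : (Fin r → ℕ) → ℝ) (e2 : ℝ) (c : Multiset ℕ) : ℝ :=
  F (fun j => c.countP (fun i : ℕ => x j ≤ e2 * (i : ℝ)) +
    if e2 * (c.sum : ℝ) < 2 - x j then 1 else 0)

/-- `lpf` of `D p` -/
theorem lpf_eq (D p : ℕ) (hp : p.Prime) (hD0 : D ≠ 0) (hDp : D < p) : lpf (D * p) = p := by
  rw [lpf]
  apply le_antisymm
  · apply Finset.sup_le
    intro q hq
    have h1 := Nat.mem_primeFactors.mp hq
    rcases (h1.1.dvd_mul).mp h1.2.1 with h2 | h2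
    · exact ((Nat.le_of_dvd (Nat.pos_of_ne_zero hD0) h2).trans hDp.le)
    · exact Nat.le_of_dvd hp.pos h2
  · exact Finset.le_sup (f := id) (Nat.mem_primeFactors.mpr
      ⟨hp, Dvd.intro_left _ rfl, mul_ne_zero hD0 hp.ne_zero⟩)

theorem core (r : ℕ) (x : Fin r → ℝ) (F : (Fin r → ℕ) → ℝ) (u κ e0 η e : ℝ) (Q : ℕ)
    (hx : ∀ j, u ≤ x j) (hF : ∀ v, |F v| ≤ 1) (hκ1 : 3 / 5 < κ) (hκ2 : κ < 2 / 3)
    (he0 : 0 < e0) (heu : e0 < u) (heη : e0 ≤ η) (hκη : 3 * κ + η < 2)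
    (he : 0 < e) (he' : e ≤ 1 / 40) (hee : e ≤ η / 4) (hQ : 1 ≤ Q) (hQe : 3 ≤ Q * e)
    (N : ℕ) (hN : 10 ≤ N) (hNe : 6 ≤ (N : ℝ) ^ e) (m : ℕ) (hm1 : (N : ℝ) ^ 2 / 2 ≤ m)
    (hm2 : (m : ℝ) ≤ 5 * (N : ℝ) ^ 2)
    (hsN : ((smp ((N : ℝ) ^ e0) m : ℕ) : ℝ) ≤ (N : ℝ) ^ η) (hns : ¬ NSq ((N : ℝ) ^ e0) m)
    (hW1 : ¬ RWin N e0 κ (2 * e) m) (hW2 : ¬ RWin N e0 1 (2 * e) m) :
    |cF N r x F m - tyF N Q e0 κ (Ph r x F (e0 / Q)) (Ph' r x F (e0 / Q)) m|
      ≤ 2 * ∑ j, (if PWn N (x j) (2 * η) m then 1 else 0) := by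
  have hN10 : (10 : ℝ) ≤ N := by exact_mod_cast hN
  have hN1 : (1 : ℝ) < N := by linarith
  have hNp : (0 : ℝ) < N := by linarith
  have hQ0 : (0 : ℝ) < Q := by exact_mod_cast hQ
  have he2 : 0 < e0 / Q := by positivity
  have he2' : e0 / Q ≤ 2 * η := by
    have h1 : e0 / Q ≤ e0 := div_le_self he0.le (by exact_mod_cast hQ)
    linarith
  have hη0 : 0 < η := by linarith
  by_cases hP : ∃ j, PWn N (x j) (2 * η) m
  · -- edge
    obtain ⟨j, hj⟩ := hP
    have h1 : |cF N r x F m - tyF N Q e0 κ (Ph r x F (e0 / Q)) (Ph' r x F (e0 / Q)) m| ≤ 2 := by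
      have h2 : |cF N r x F m| ≤ 1 := hF _
      have h3 : |tyF N Q e0 κ (Ph r x F (e0 / Q)) (Ph' r x F (e0 / Q)) m| ≤ 1 := by
        unfold tyF
        split_ifs
        · exact hF _
        · exact hF _
        · rw [abs_zero]; exact zero_le_one
      calc _ ≤ |cF N r x F m| + |tyF N Q e0 κ (Ph r x F (e0 / Q)) (Ph' r x F (e0 / Q)) m| :=
            abs_sub _ _
        _ ≤ 2 := by linarith
    refine h1.trans ?_
    have h2 : (1 : ℝ) ≤ ∑ j, (if PWn N (x j) (2 * η) m then 1 else 0) := by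
      calc (1 : ℝ) = (if PWn N (x j) (2 * η) m then 1 else 0) := by rw [if_pos hj]
        _ ≤ _ := Finset.single_le_sum (f := fun j => (if PWn N (x j) (2 * η) m then (1 : ℝ) else 0))
            (fun i _ => by split_ifs <;> norm_num) (mem_univ j)
    linarith
  -- no edge
  have hm0 : m ≠ 0 := by
    intro h
    rw [h] at hm1
    have : (0 : ℝ) < (N : ℝ) ^ 2 / 2 := by positivity
    simp only [Nat.cast_zero] at hm1
    linarith
  have hst := T2CM.smp_mul_rgp ((N : ℝ) ^ e0) m hm0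
  have hsm := T2CM.smooth_smp ((N : ℝ) ^ e0) m
  have hr := T2CM.rough_rgp ((N : ℝ) ^ e0) m
  have hcF : cF N r x F m = F (fun j => Cn N (x j) m) := rfl
  have htyF := tyF.eq_1 N Q e0 κ (Ph r x F (e0 / Q)) (Ph' r x F (e0 / Q)) m
  rw [htyF, hcF]
  generalize hs : smp ((N : ℝ) ^ e0) m = s at *
  generalize ht : T2CM.rgp ((N : ℝ) ^ e0) m = t at *
  have hs0 : s ≠ 0 := fun h0 => hm0 (by rw [← hst, h0, zero_mul])
  have ht0 : t ≠ 0 := fun h0 => hm0 (by rw [← hst, h0, mul_zero])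
  have htm : t ∣ m := Dvd.intro_left _ hst
  have hsq : Squarefree t := by
    rw [Nat.squarefree_iff_prime_squarefree]
    rintro p hp hpt
    exact hns ⟨p, hp, hr p hp ((Dvd.intro _ rfl).trans hpt), by rw [pow_two]; exact hpt.trans htm⟩
  rw [if_neg (not_not.mpr hsq)]
  have hCn : ∀ j, Cn N (x j) m = Cn N (x j) t := by
    intro j
    rw [← hst, Cn_mul N (x j) s t hs0 ht0,
      Cn_smooth N (x j) e0 (by omega) (by linarith [hx j]) s hsm, zero_add]
  have hwin : ∀ j, ∀ n : ℕ, n ∣ t → ∀ p : ℕ, p.Prime → p ∣ n →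
      ¬ ((N : ℝ) ^ (x j - 2 * η) ≤ p ∧ (p : ℝ) ≤ (N : ℝ) ^ (x j + 2 * η)) := by
    intro j n hn p hp hpn h
    exact hP ⟨j, p, hp, (hpn.trans hn).trans htm, h.1, h.2⟩
  have hzero : ∀ v : ℝ, v = 0 → |v| ≤ 2 * ∑ j, (if PWn N (x j) (2 * η) m then (1 : ℝ) else 0) := by
    intro v hv
    rw [hv, abs_zero]
    refine mul_nonneg (by norm_num) (Finset.sum_nonneg fun j _ => ?_)
    split_ifs <;> norm_num
  apply hzero
  rw [sub_eq_zero]
  have ht2 : (t : ℝ) ≤ 5 * (N : ℝ) ^ 2 := by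
    refine le_trans ?_ hm2
    exact_mod_cast Nat.le_of_dvd (Nat.pos_of_ne_zero hm0) htm
  have ht1 : (N : ℝ) ^ (2 - η) / 2 ≤ t := by
    have h1 : (m : ℝ) = s * t := by exact_mod_cast hst.symm
    have ht0' : (0 : ℝ) < t := by exact_mod_cast Nat.pos_of_ne_zero ht0
    have h2 : (N : ℝ) ^ 2 / 2 ≤ (N : ℝ) ^ η * t := by
      refine hm1.trans ?_
      rw [h1]
      exact mul_le_mul_of_nonneg_right hsN ht0'.le
    have h3 : (N : ℝ) ^ 2 = (N : ℝ) ^ η * (N : ℝ) ^ (2 - η) := by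
      rw [← Real.rpow_add hNp, show η + (2 - η) = ((2 : ℕ) : ℝ) by push_cast; ring,
        Real.rpow_natCast]
    have h4 : 0 < (N : ℝ) ^ η := by positivity
    have h5 : (N : ℝ) ^ η * ((N : ℝ) ^ (2 - η) / 2) ≤ (N : ℝ) ^ η * t := by
      rw [← mul_div_assoc, ← h3]
      exact h2
    exact le_of_mul_le_mul_left h5 h4
  have hN2 : (N : ℝ) ^ (2 : ℝ) = (N : ℝ) ^ 2 := by
    rw [show (2 : ℝ) = ((2 : ℕ) : ℝ) by norm_num, Real.rpow_natCast]
  by_cases hk : ∃ k : ℕ, k ∣ t ∧ (N : ℝ) ^ κ < k ∧ k ≤ N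
  · -- class II
    rw [if_pos hk, Ph]
    congr 1
    funext j
    rw [hCn j]
    exact Cn_typ N (e0 / Q) (x j) (2 * η) (by omega) he2 he2' t
      (fun p hp hpt => hwin j t dvd_rfl p hp hpt)
  · -- class I
    rw [if_neg hk, Ph']
    have hdich : ∀ d : ℕ, d ∣ t → (d : ℝ) < (N : ℝ) ^ (κ - 2 * e) ∨ (N : ℝ) ^ (1 + 2 * e) < d := by
      intro d hd
      by_contra hcon
      rw [not_or, not_lt, not_lt] at hcon
      have hrd : Rough ((N : ℝ) ^ e0) d := T2CM.rough_dvd _ _ _ hr hd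
      have h1 : (N : ℝ) ^ (κ + 2 * e) < d := by
        by_contra h2
        rw [not_lt] at h2
        exact hW1 ⟨d, hd.trans htm, hrd, hcon.1, h2⟩
      have h2 : (N : ℝ) ^ κ < d :=
        (Real.rpow_le_rpow_of_exponent_le hN1.le (by linarith)).trans_lt h1
      have h3 : (N : ℝ) < d := by
        by_contra h4
        rw [not_lt] at h4
        exact hk ⟨d, hd, h2, by exact_mod_cast h4⟩
      apply hW2
      refine ⟨d, hd.trans htm, hrd, ?_, hcon.2⟩
      calc (N : ℝ) ^ (1 - 2 * e) ≤ (N : ℝ) ^ (1 : ℝ) :=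
            Real.rpow_le_rpow_of_exponent_le hN1.le (by linarith)
        _ = N := Real.rpow_one _
        _ ≤ d := h3.le
    have hL1 : 1 < (N : ℝ) ^ (κ - 2 * e) := Real.one_lt_rpow hN1 (by linarith)
    have hpowL : ((N : ℝ) ^ (κ - 2 * e)) ^ 3 = (N : ℝ) ^ (3 * κ - 6 * e) := by
      rw [← Real.rpow_natCast, ← Real.rpow_mul hNp.le]
      congr 1
      push_cast
      ring
    have hpowU : ((N : ℝ) ^ (1 + 2 * e)) ^ 2 = (N : ℝ) ^ (2 + 4 * e) := by
      rw [← Real.rpow_natCast, ← Real.rpow_mul hNp.le]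
      congr 1
      push_cast
      ring
    have hU : (t : ℝ) < ((N : ℝ) ^ (1 + 2 * e)) ^ 2 := by
      rw [hpowU, Real.rpow_add hNp, hN2]
      refine lt_of_le_of_lt ht2 ?_
      have h1 : (N : ℝ) ^ e ≤ (N : ℝ) ^ (4 * e) :=
        Real.rpow_le_rpow_of_exponent_le hN1.le (by linarith)
      have h3 : (0 : ℝ) < (N : ℝ) ^ 2 := by positivity
      nlinarith
    have hLU : ((N : ℝ) ^ (κ - 2 * e)) ^ 3 ≤ ((N : ℝ) ^ (1 + 2 * e)) ^ 2 := by
      rw [hpowL, hpowU]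
      exact Real.rpow_le_rpow_of_exponent_le hN1.le (by linarith)
    have htL : ((N : ℝ) ^ (κ - 2 * e)) ^ 3 < t := by
      rw [hpowL]
      refine lt_of_lt_of_le ?_ ht1
      have h1 : (N : ℝ) ^ (3 * κ - 6 * e) * 2 < (N : ℝ) ^ (2 - η) := by
        have h2 : (N : ℝ) ^ (3 * κ - 6 * e) * 2 < (N : ℝ) ^ (3 * κ - 6 * e) * (N : ℝ) ^ e :=
          mul_lt_mul_of_pos_left (by linarith) (by positivity)
        refine h2.trans_le ?_
        rw [← Real.rpow_add hNp]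
        exact Real.rpow_le_rpow_of_exponent_le hN1.le (by linarith)
      linarith
    obtain ⟨D, p, hp, htDp, hDL, hLp⟩ := T2CM.struct t hsq _ _ hL1 hdich (by positivity) hU hLU htL
    have hD0 : D ≠ 0 := fun h0 => ht0 (by rw [htDp, h0, zero_mul])
    have hDp : D < p := by
      have h1 : (D : ℝ) < p := by
        have h2 : (N : ℝ) ^ (κ - 2 * e) ≤ ((N : ℝ) ^ (κ - 2 * e)) ^ 2 := by nlinarith
        linarith
      exact_mod_cast h1
    have hlpf : lpf t = p := by rw [htDp]; exact lpf_eq D p hp hD0 hDp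
    have htD : t / lpf t = D := by
      rw [hlpf, htDp, Nat.mul_div_cancel _ hp.pos]
    have hDt : D ∣ t := ⟨p, htDp⟩
    have hpt : p ∣ t := ⟨D, by rw [htDp, mul_comm]⟩
    have hDsq : Squarefree D := hsq.squarefree_of_dvd hDt
    have hDr : Rough ((N : ℝ) ^ e0) D := T2CM.rough_dvd _ _ _ hr hDt
    have hD2 : (D : ℝ) ≤ 5 * (N : ℝ) ^ 2 := by
      refine le_trans ?_ ht2
      exact_mod_cast Nat.le_of_dvd (Nat.pos_of_ne_zero ht0) hDt
    have hDlen := T2.length_le N e0 he0 hN D hD0 hD2 hDr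
    -- the size of `D`
    have hDb := T2EM.div_sub N (e0 / Q) (by omega) he2 D D hDsq (dvd_refl D)
    rw [← T2.typ_sq N (e0 / Q) D hDsq] at hDb
    rw [htD]
    generalize htyp : typ N (e0 / Q) D = c at *
    have hcard : e0 / Q * (Multiset.card c : ℝ) ≤ e := by
      have h1 : (Multiset.card c : ℝ) ≤ 3 / e0 := by
        rw [← htyp, T2.card_typ]
        calc ((D.primeFactorsList.length : ℕ) : ℝ) ≤ (⌊3 / e0⌋₊ : ℝ) := by exact_mod_cast hDlen
          _ ≤ 3 / e0 := Nat.floor_le (by positivity)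
      calc e0 / Q * (Multiset.card c : ℝ) ≤ e0 / Q * (3 / e0) :=
            mul_le_mul_of_nonneg_left h1 he2.le
        _ = 3 / Q := by field_simp
        _ ≤ e := by
            rw [div_le_iff₀ hQ0]
            linarith
    congr 1
    funext j
    rw [hCn j, htDp, Cn_mul N (x j) D p hD0 hp.ne_zero, Cn_prime N (x j) p hp,
      Cn_typ N (e0 / Q) (x j) (2 * η) (by omega) he2 he2' D
        (fun q hq hqD => hwin j D hDt q hq hqD), htyp]
    congr 1
    have hwp := hwin j p hpt p hp dvd_rfl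
    have hDr0 : (0 : ℝ) < D := by exact_mod_cast Nat.pos_of_ne_zero hD0
    have htr : (t : ℝ) = D * p := by exact_mod_cast htDp
    have hp0 : (0 : ℝ) < p := by exact_mod_cast hp.pos
    by_cases hlt : (N : ℝ) ^ (x j) < (p : ℝ)
    · have h1 : (N : ℝ) ^ (x j + 2 * η) < p := by
        by_contra h2
        rw [not_lt] at h2
        exact hwp ⟨(Real.rpow_le_rpow_of_exponent_le hN1.le (by linarith)).trans hlt.le, h2⟩
      rw [if_pos hlt, if_pos]
      -- `N ^ (x + 2η + σ) < p D ≤ 5 N^2`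
      have h2 : (N : ℝ) ^ (x j + 2 * η) * (N : ℝ) ^ (e0 / Q * (c.sum : ℝ)) < 5 * (N : ℝ) ^ 2 := by
        calc (N : ℝ) ^ (x j + 2 * η) * (N : ℝ) ^ (e0 / Q * (c.sum : ℝ)) < p * D :=
              mul_lt_mul h1 hDb.2.1 (by positivity) hp0.le
          _ = t := by rw [htr]; ring
          _ ≤ _ := ht2
      have h3 : (N : ℝ) ^ (x j + 2 * η + e0 / Q * (c.sum : ℝ)) < (N : ℝ) ^ (2 * η + 2 : ℝ) := by
        rw [Real.rpow_add hNp]
        refine h2.trans_le ?_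
        rw [Real.rpow_add hNp, hN2]
        have h4 : (N : ℝ) ^ e ≤ (N : ℝ) ^ (2 * η) :=
          Real.rpow_le_rpow_of_exponent_le hN1.le (by linarith)
        exact mul_le_mul_of_nonneg_right (by linarith) (by positivity)
      have h4 := (Real.rpow_lt_rpow_left_iff hN1).mp h3
      linarith
    · have h1 : (p : ℝ) < (N : ℝ) ^ (x j - 2 * η) := by
        by_contra h2
        rw [not_lt] at h2 hlt
        exact hwp ⟨h2, hlt.trans (Real.rpow_le_rpow_of_exponent_le hN1.le (by linarith))⟩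
      rw [if_neg hlt, if_neg]
      rw [not_lt]
      -- `N ^ (2 - η) / 2 ≤ p D < N ^ (x - 2η + σ + e)`
      have h2 : (N : ℝ) ^ (2 - η) / 2 <
          (N : ℝ) ^ (x j - 2 * η) * (N : ℝ) ^ (e0 / Q * ((c.sum : ℝ) + (Multiset.card c : ℝ))) := by
        calc (N : ℝ) ^ (2 - η) / 2 ≤ t := ht1
          _ = p * D := by rw [htr]; ring
          _ < _ := mul_lt_mul h1 hDb.2.2 hDr0 (by positivity)
      have h3 : (N : ℝ) ^ (2 - η) <
          (N : ℝ) ^ (x j - 2 * η + e0 / Q * ((c.sum : ℝ) + (Multiset.card c : ℝ)) + e) := by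
        rw [Real.rpow_add hNp, Real.rpow_add hNp]
        have h4 : (0 : ℝ) < (N : ℝ) ^ (x j - 2 * η) *
            (N : ℝ) ^ (e0 / Q * ((c.sum : ℝ) + (Multiset.card c : ℝ))) := by positivity
        nlinarith
      have h4 := (Real.rpow_lt_rpow_left_iff hN1).mp h3
      nlinarith

end Pool.Agent.Lib.MP391708.QPA.C.BOXCM

namespace Pool.Agent.Lib.MP391708.QPA.C

open Finset
open Pool.Agent.Lib.MP391708.QPA Pool.Agent.Lib.MP391708.QPA.H
open scoped Classical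

theorem specBOXC : SpecBOXC := by
  intro r x F u κ e0 η e Q hx _ hF hκ1 hκ2 he0 heu _ heη _ _ hκη he he' hee hQ hQe
  refine ⟨BOXCM.Ph r x F (e0 / Q), BOXCM.Ph' r x F (e0 / Q), fun c => hF _, fun c => hF _,
    max 10 ⌈(6 : ℝ) ^ (1 / e)⌉₊, ?_⟩
  intro N hN0 m hm1 hm2 hsN hns hW1 hW2
  have hN : 10 ≤ N := le_trans (le_max_left _ _) hN0
  have hNe : 6 ≤ (N : ℝ) ^ e := by
    have h1 : (6 : ℝ) ^ (1 / e) ≤ N := by
      refine (Nat.le_ceil _).trans ?_
      exact_mod_cast le_trans (le_max_right _ _) hN0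
    calc (6 : ℝ) = ((6 : ℝ) ^ (1 / e)) ^ e := by
          rw [← Real.rpow_mul (by norm_num), one_div_mul_cancel he.ne', Real.rpow_one]
      _ ≤ (N : ℝ) ^ e := Real.rpow_le_rpow (by positivity) h1 he.le
  exact BOXCM.core r x F u κ e0 η e Q hx hF hκ1 hκ2 he0 heu heη hκη he he' hee hQ hQe N hN hNe m
    hm1 hm2 hsN hns hW1 hW2

end Pool.Agent.Lib.MP391708.QPA.C
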