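import Pool.Agent.Lib.MP_391708_nt.QPA.C.CHWDa

/-!
# CHWD: the law of the large prime factors over one block, and the independence of the parity
-/

set_option autoImplicit false

namespace Pool.Agent.Lib.MP391708.QPA.C

open Finset Filter Topology
open Pool.Agent.Lib.MP391708.QPA
open Pool.Agent.Lib.MP391708.QPA.H
open scoped Classical

namespace CHWDM

noncomputable section

/-- `logb N A ≤ 1 + τ` for large `N` -/
theorem logb_ev (τ θ : ℝ) (hτ : 0 < τ) : ∀ᶠ N : ℕ in atTop, ∀ A : ℕ, Adm θ N A →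
    Real.logb N A ≤ 1 + τ := by
  have h1 : ∀ᶠ x : ℝ in atTop, Real.log x ≤ x ^ τ := by
    have := (isLittleO_log_rpow_atTop hτ).bound one_pos
    filter_upwards [this, eventually_ge_atTop (1 : ℝ)] with x hx hx1
    rw [one_mul, Real.norm_of_nonneg (Real.log_nonneg hx1),
      Real.norm_of_nonneg (Real.rpow_nonneg (by linarith) _)] at hx
    exact hx
  have h2 := tendsto_natCast_atTop_atTop (R := ℝ).eventually h1
  filter_upwards [h2, eventually_ge_atTop 2] with N hN hN2 A hA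
  have hN2 : (2 : ℝ) ≤ N := by exact_mod_cast hN2
  have hN0 : (0 : ℝ) < N := by linarith
  have hN1 : (1 : ℝ) < N := by linarith
  obtain ⟨hA1, hA2⟩ := hA
  have hA0 : (0 : ℝ) < A := (Real.rpow_pos_of_pos hN0 _).trans_le hA1
  rw [Real.logb_le_iff_le_rpow hN1 hA0]
  refine hA2.trans ?_
  calc (N : ℝ) * Real.log N ≤ N * (N : ℝ) ^ τ := mul_le_mul_of_nonneg_left hN hN0.le
    _ = (N : ℝ) ^ (1 + τ) := by rw [Real.rpow_add hN0, Real.rpow_one]

theorem abs_cF_le (N r : ℕ) (x : Fin r → ℝ) (F : (Fin r → ℕ) → ℝ) (hF : ∀ v, |F v| ≤ 1) (m : ℕ) :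
    |cF N r x F m| ≤ 1 := hF _

/-- sizes: for `s ≤ N^η` the rough part is not `1` -/
theorem rgp_ne_one {N m : ℕ} {e0 η : ℝ} (hN : 10 ≤ N) (hη : η ≤ 1)
    (hm1 : (N : ℝ) ^ 2 / 2 ≤ m) (hs : ((smp ((N : ℝ) ^ e0) m : ℕ) : ℝ) ≤ (N : ℝ) ^ η) :
    T2CM.rgp ((N : ℝ) ^ e0) m ≠ 1 := by
  intro h
  have hN10 : (10 : ℝ) ≤ N := by exact_mod_cast hN
  have hm0 : m ≠ 0 := by
    intro h0
    rw [h0] at hm1
    have : (0 : ℝ) < (N : ℝ) ^ 2 / 2 := by positivity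
    simp only [Nat.cast_zero] at hm1
    linarith
  have h1 := T2CM.smp_mul_rgp ((N : ℝ) ^ e0) m hm0
  rw [h, mul_one] at h1
  rw [h1] at hs
  have h2 : (N : ℝ) ^ η ≤ N := by
    calc (N : ℝ) ^ η ≤ (N : ℝ) ^ (1 : ℝ) :=
          Real.rpow_le_rpow_of_exponent_le (by linarith) hη
      _ = N := Real.rpow_one _
  nlinarith

/-- the combination of T2D and BOXC for `s ≤ N^η`, with a sign `l`, `|l| ≤ 1` -/
theorem combine {N r : ℕ} {x : Fin r → ℝ} {e0 η κ e C x₀ : ℝ} {m : ℕ} (g ty ps S l : ℝ)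
    (hl : |l| ≤ 1) (hg : |g| ≤ 1) (hty : |ty| ≤ 1)
    (h2 : |l * ty - ps - S| ≤ C * (BLK.nsq N e0 m
      + ∑ y ∈ ({κ, 1, x₀} : Finset ℝ), CHWCM.rwin N e0 y (2 * e) m))
    (hb : ¬ NSq ((N : ℝ) ^ e0) m → ¬ RWin N e0 κ (2 * e) m → ¬ RWin N e0 1 (2 * e) m →
      |g - ty| ≤ 2 * ∑ j, pwn N (x j) (2 * η) m) :
    |l * g - ps - S| ≤ (C + 2) * (BLK.nsq N e0 m
      + ∑ y ∈ ({κ, 1, x₀} : Finset ℝ), CHWCM.rwin N e0 y (2 * e) m)
        + 2 * ∑ j, pwn N (x j) (2 * η) m := by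
  set E := BLK.nsq N e0 m + ∑ y ∈ ({κ, 1, x₀} : Finset ℝ), CHWCM.rwin N e0 y (2 * e) m with hE
  set Pn := ∑ j, pwn N (x j) (2 * η) m with hPn
  have hn0 := CHWCM.nsq_nonneg N e0 m
  have hw0 : ∀ y ∈ ({κ, 1, x₀} : Finset ℝ), 0 ≤ CHWCM.rwin N e0 y (2 * e) m :=
    fun y _ => CHWCM.rwin_nonneg _ _ _ _ _
  have hws := Finset.sum_nonneg hw0
  have hP0 : 0 ≤ Pn := Finset.sum_nonneg (fun j _ => pwn_nonneg _ _ _ _)
  have hE0 : 0 ≤ E := add_nonneg hn0 hws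
  have h3 : |g - ty| ≤ 2 * E + 2 * Pn := by
    by_cases h : NSq ((N : ℝ) ^ e0) m ∨ RWin N e0 κ (2 * e) m ∨ RWin N e0 1 (2 * e) m
    · have hE1 : 1 ≤ E := by
        rcases h with h | h | h
        · have : BLK.nsq N e0 m = 1 := by unfold BLK.nsq; rw [if_pos h]
          linarith
        · have h4 : CHWCM.rwin N e0 κ (2 * e) m = 1 := by
            unfold CHWCM.rwin; rw [if_pos h]
          have h5 := Finset.single_le_sum hw0 (show κ ∈ ({κ, 1, x₀} : Finset ℝ) by simp)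
          linarith
        · have h4 : CHWCM.rwin N e0 1 (2 * e) m = 1 := by
            unfold CHWCM.rwin; rw [if_pos h]
          have h5 := Finset.single_le_sum hw0 (show (1 : ℝ) ∈ ({κ, 1, x₀} : Finset ℝ) by simp)
          linarith
      have h6 : |g - ty| ≤ 2 := (abs_sub _ _).trans (by linarith)
      linarith
    · push Not at h
      have := hb h.1 h.2.1 h.2.2
      linarith
  have h4 : l * g - ps - S = (l * ty - ps - S) + l * (g - ty) := by ring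
  rw [h4]
  have h5 : |l * (g - ty)| ≤ |g - ty| := by
    rw [abs_mul]
    exact mul_le_of_le_one_left (abs_nonneg _) hl
  calc |(l * ty - ps - S) + l * (g - ty)| ≤ |l * ty - ps - S| + |l * (g - ty)| := abs_add_le _ _
    _ ≤ C * E + (2 * E + 2 * Pn) := by linarith
    _ = (C + 2) * E + 2 * Pn := by ring

/-- from the rough part to `m`: multiplication by `w (smp m) 1_{s ≤ N^η}` -/
theorem lift {N r : ℕ} {x : Fin r → ℝ} {e0 η κ e C x₀ : ℝ} {m : ℕ} (Gm ps S w : ℝ)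
    (hC : 0 ≤ C) (hw : |w| ≤ 1) (hG : |w * Gm| ≤ 1)
    (h : ((smp ((N : ℝ) ^ e0) m : ℕ) : ℝ) ≤ (N : ℝ) ^ η → |Gm - ps - S| ≤ C * (BLK.nsq N e0 m
      + ∑ y ∈ ({κ, 1, x₀} : Finset ℝ), CHWCM.rwin N e0 y (2 * e) m)
        + 2 * ∑ j, pwn N (x j) (2 * η) m) :
    |w * Gm - (w * ismC N e0 η m) * ps - (w * ismC N e0 η m) * S| ≤ errD N r x e0 η κ e C x₀ m := by
  have hn0 := CHWCM.nsq_nonneg N e0 m
  have hws := Finset.sum_nonneg (s := ({κ, 1, x₀} : Finset ℝ))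
    (fun y _ => CHWCM.rwin_nonneg N e0 y (2 * e) m)
  have hP0 : 0 ≤ ∑ j, pwn N (x j) (2 * η) m := Finset.sum_nonneg (fun j _ => pwn_nonneg _ _ _ _)
  unfold errD ismC CHWCM.bigs
  by_cases hs : ((smp ((N : ℝ) ^ e0) m : ℕ) : ℝ) ≤ (N : ℝ) ^ η
  · rw [if_pos hs, if_neg (not_lt.2 hs)]
    have h1 : w * Gm - w * 1 * ps - w * 1 * S = w * (Gm - ps - S) := by ring
    rw [h1, abs_mul, zero_add]
    exact (mul_le_of_le_one_left (abs_nonneg _) hw).trans (h hs)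
  · rw [if_neg hs, if_pos (not_le.1 hs)]
    have h1 : w * Gm - w * 0 * ps - w * 0 * S = w * Gm := by ring
    rw [h1]
    have h2 : 0 ≤ C * (BLK.nsq N e0 m
      + ∑ y ∈ ({κ, 1, x₀} : Finset ℝ), CHWCM.rwin N e0 y (2 * e) m) :=
      mul_nonneg hC (add_nonneg hn0 hws)
    linarith

theorem lamC_eq (N : ℕ) (e0 η : ℝ) (m : ℕ) :
    lamC N e0 η m = lio (smp ((N : ℝ) ^ e0) m) * ismC N e0 η m := by
  unfold lamC ismC
  split_ifs <;> ring

theorem ism_smp (N : ℕ) (e0 η : ℝ) (m : ℕ) (hm : m ≠ 0) :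
    ism ((N : ℝ) ^ e0) ((N : ℝ) ^ η) (smp ((N : ℝ) ^ e0) m) = ismC N e0 η m := by
  have h := T2CM.smp_mul_rgp ((N : ℝ) ^ e0) m hm
  have hs0 : smp ((N : ℝ) ^ e0) m ≠ 0 := fun h0 => hm (by rw [← h, h0, zero_mul])
  unfold ism ismC
  by_cases hs : ((smp ((N : ℝ) ^ e0) m : ℕ) : ℝ) ≤ (N : ℝ) ^ η
  · rw [if_pos ⟨Nat.one_le_iff_ne_zero.mpr hs0, hs, T2CM.smooth_smp _ m⟩, if_pos hs]
  · rw [if_neg (fun h' => hs h'.2.1), if_neg hs]

theorem lsm_smp (N : ℕ) (e0 η : ℝ) (m : ℕ) (hm : m ≠ 0) :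
    lsm ((N : ℝ) ^ e0) ((N : ℝ) ^ η) (smp ((N : ℝ) ^ e0) m)
      = lio (smp ((N : ℝ) ^ e0) m) * ismC N e0 η m := by
  have h := T2CM.smp_mul_rgp ((N : ℝ) ^ e0) m hm
  have hs0 : smp ((N : ℝ) ^ e0) m ≠ 0 := fun h0 => hm (by rw [← h, h0, zero_mul])
  unfold lsm ismC
  by_cases hs : ((smp ((N : ℝ) ^ e0) m : ℕ) : ℝ) ≤ (N : ℝ) ^ η
  · rw [if_pos ⟨Nat.one_le_iff_ne_zero.mpr hs0, hs, T2CM.smooth_smp _ m⟩, if_pos hs, mul_one]
  · rw [if_neg (fun h' => hs h'.2.1), if_neg hs, mul_zero]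

theorem FF_rough {N Q : ℕ} {e0 : ℝ} (hN : 2 ≤ N) (he0 : 0 < e0) (hQ : 1 ≤ Q) {c : Multiset ℕ}
    (hc : ∀ i ∈ c, Q ≤ i) (k : ℕ) (hk : FF N (e0 / Q) c k ≠ 0) : Rough ((N : ℝ) ^ e0) k := by
  have hQ0 : (0 : ℝ) < Q := by exact_mod_cast hQ
  have h5 := (FFB.FF_support N (e0 / Q) hN c k hk).2.2.2.2 (by positivity) Q hc
  rw [div_mul_cancel₀ _ hQ0.ne'] at h5
  exact h5

/-- the pointwise identity for both halves: `l m w m = 1` or `λ(m)`, `w = 1` or `λ(smooth part)` -/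
theorem pw {N Q r : ℕ} {x : Fin r → ℝ} {F : (Fin r → ℕ) → ℝ} {e0 η κ e C x₀ : ℝ}
    (hN : 10 ≤ N) (he0 : 0 < e0) (hQ : 1 ≤ Q) (hC : 0 ≤ C) (hF : ∀ v, |F v| ≤ 1)
    (Φ Φ' Ψ Ψ' : Multiset ℕ → ℝ) (hΦ : ∀ c, |Φ c| ≤ 1) (hΦ' : ∀ c, |Φ' c| ≤ 1)
    (T' : Finset (Multiset ℕ)) (t : Multiset ℕ → ℝ) (cf : ℕ → ℝ)
    (hTQ : ∀ c ∈ T', ∀ i ∈ c, Q ≤ i) (g l w : ℕ → ℝ)
    (hg : ∀ s, g s ≠ 0 → Smooth ((N : ℝ) ^ e0) s)
    {m : ℕ} (hm1 : (N : ℝ) ^ 2 / 2 ≤ m) (hl : |l m| ≤ 1) (hw : |w m| ≤ 1)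
    (hgs : g (smp ((N : ℝ) ^ e0) m) = w m * ismC N e0 η m)
    (hsgn : ((smp ((N : ℝ) ^ e0) m : ℕ) : ℝ) ≤ (N : ℝ) ^ η →
      tyF N Q e0 κ Ψ Ψ' m = l m * tyF N Q e0 κ Φ Φ' m)
    (hT2 : ((smp ((N : ℝ) ^ e0) m : ℕ) : ℝ) ≤ (N : ℝ) ^ η →
      |tyF N Q e0 κ Ψ Ψ' m - psiD N e0 κ cf m
        - ∑ c ∈ T', t c * FF N (e0 / Q) c (T2CM.rgp ((N : ℝ) ^ e0) m)|
      ≤ C * ((if NSq ((N : ℝ) ^ e0) m then 1 else 0)
        + ∑ y ∈ ({κ, 1, x₀} : Finset ℝ), if RWin N e0 y (2 * e) m then 1 else 0))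
    (hB : ((smp ((N : ℝ) ^ e0) m : ℕ) : ℝ) ≤ (N : ℝ) ^ η → ¬ NSq ((N : ℝ) ^ e0) m →
      ¬ RWin N e0 κ (2 * e) m → ¬ RWin N e0 1 (2 * e) m →
      |cF N r x F m - tyF N Q e0 κ Φ Φ' m| ≤ 2 * ∑ j, (if PWn N (x j) (2 * η) m then 1 else 0)) :
    |w m * (l m * cF N r x F m) - (w m * ismC N e0 η m) * psiD N e0 κ cf m
        - ∑ c ∈ T', t c * conv (fun k => FF N (e0 / Q) c k) g m|
      ≤ errD N r x e0 η κ e (C + 2) x₀ m := by
  have hm0 : m ≠ 0 := by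
    intro h0
    rw [h0] at hm1
    have hN10 : (10 : ℝ) ≤ N := by exact_mod_cast hN
    have : (0 : ℝ) < (N : ℝ) ^ 2 / 2 := by positivity
    simp only [Nat.cast_zero] at hm1
    linarith
  have hconv : ∑ c ∈ T', t c * conv (fun k => FF N (e0 / Q) c k) g m
      = (w m * ismC N e0 η m)
        * ∑ c ∈ T', t c * FF N (e0 / Q) c (T2CM.rgp ((N : ℝ) ^ e0) m) := by
    rw [Finset.mul_sum]
    apply Finset.sum_congr rfl
    intro c hc
    rw [conv_eq' ((N : ℝ) ^ e0) (fun k => FF N (e0 / Q) c k) g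
      (fun k hk => FF_rough (by omega) he0 hQ (hTQ c hc) k hk) hg m hm0, hgs]
    ring
  rw [hconv]
  have hcF := abs_cF_le N r x F hF m
  have hG : |w m * (l m * cF N r x F m)| ≤ 1 := by
    rw [abs_mul, abs_mul]
    have h1 : |l m| * |cF N r x F m| ≤ 1 :=
      mul_le_one₀ hl (abs_nonneg _) hcF
    exact mul_le_one₀ hw (by positivity) h1
  apply lift (N := N) (r := r) (x := x) (e0 := e0) (η := η) (κ := κ) (e := e) (C := C + 2)
    (x₀ := x₀) (m := m) (l m * cF N r x F m) (psiD N e0 κ cf m)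
    (∑ c ∈ T', t c * FF N (e0 / Q) c (T2CM.rgp ((N : ℝ) ^ e0) m)) (w m) (by linarith) hw hG
  intro hs
  have h2 := hT2 hs
  rw [hsgn hs] at h2
  apply combine (C := C) (cF N r x F m) (tyF N Q e0 κ Φ Φ' m) _ _ (l m) hl hcF
    (T2DM.abs_tyF_le N Q e0 κ Φ Φ' hΦ hΦ' m)
  · exact h2
  · intro h3 h4 h5
    exact hB hs h3 h4 h5

theorem sum3_le (κ x₀ : ℝ) (f : ℝ → ℝ) (M : ℝ) (hM0 : 0 ≤ M)
    (h : ∀ y ∈ ({κ, 1, x₀} : Finset ℝ), f y ≤ M) : ∑ y ∈ ({κ, 1, x₀} : Finset ℝ), f y ≤ 3 * M := by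
  calc ∑ y ∈ ({κ, 1, x₀} : Finset ℝ), f y ≤ ∑ y ∈ ({κ, 1, x₀} : Finset ℝ), M :=
        Finset.sum_le_sum h
    _ = (({κ, 1, x₀} : Finset ℝ).card : ℝ) * M := by rw [Finset.sum_const, nsmul_eq_mul]
    _ ≤ 3 * M := by
        apply mul_le_mul_of_nonneg_right _ hM0
        have h1 : ({κ, 1, x₀} : Finset ℝ).card ≤ 3 := Finset.card_le_three
        exact_mod_cast h1

/-- the sum of the errors over `a` -/
theorem err_cnt {N A r : ℕ} {x : Fin r → ℝ} {e0 η κ e C x₀ b1 b2 b3 b4 : ℝ} (hC : 0 ≤ C)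
    (hb3 : 0 ≤ b3)
    (h1 : ∑ a ∈ IA A, cnt N a (CHWCM.bigs N e0 η) ≤ b1)
    (h2 : ∑ a ∈ IA A, cnt N a (BLK.nsq N e0) ≤ b2)
    (h3 : ∀ y ∈ ({κ, 1, x₀} : Finset ℝ), ∑ a ∈ IA A, cnt N a (CHWCM.rwin N e0 y (2 * e)) ≤ b3)
    (h4 : ∀ j, ∑ a ∈ IA A, cnt N a (pwn N (x j) (2 * η)) ≤ b4) :
    ∑ a ∈ IA A, cnt N a (errD N r x e0 η κ e C x₀) ≤ b1 + C * (b2 + 3 * b3) + 2 * (r * b4) := by
  have h0 : ∑ a ∈ IA A, cnt N a (errD N r x e0 η κ e C x₀)
      = (∑ a ∈ IA A, cnt N a (CHWCM.bigs N e0 η) + C * (∑ a ∈ IA A, cnt N a (BLK.nsq N e0)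
        + ∑ y ∈ ({κ, 1, x₀} : Finset ℝ), ∑ a ∈ IA A, cnt N a (CHWCM.rwin N e0 y (2 * e))))
        + 2 * ∑ j, ∑ a ∈ IA A, cnt N a (pwn N (x j) (2 * η)) := by
    rw [Finset.sum_comm (s := ({κ, 1, x₀} : Finset ℝ)), Finset.sum_comm (s := (univ : Finset (Fin r))),
      ← Finset.sum_add_distrib, Finset.mul_sum, ← Finset.sum_add_distrib, Finset.mul_sum,
      ← Finset.sum_add_distrib]
    exact Finset.sum_congr rfl (fun a _ => cnt_errD N r a x e0 η κ e C x₀)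
  rw [h0]
  have h5 := sum3_le κ x₀ (fun y => ∑ a ∈ IA A, cnt N a (CHWCM.rwin N e0 y (2 * e))) b3 hb3 h3
  have h6 : ∑ j : Fin r, ∑ a ∈ IA A, cnt N a (pwn N (x j) (2 * η)) ≤ r * b4 := by
    calc ∑ j : Fin r, ∑ a ∈ IA A, cnt N a (pwn N (x j) (2 * η)) ≤ ∑ _j : Fin r, b4 :=
          Finset.sum_le_sum (fun j _ => h4 j)
      _ = r * b4 := by rw [Finset.sum_const, nsmul_eq_mul, Finset.card_univ, Fintype.card_fin]
  have h7 := mul_le_mul_of_nonneg_left (add_le_add h2 h5) hC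
  linarith

/-- the model of the errors -/
theorem err_model {N r : ℕ} {x : Fin r → ℝ} {e0 η κ e C x₀ b1 b2 b3 b4 : ℝ} (hC : 0 ≤ C)
    (hb3 : 0 ≤ b3)
    (h1 : model N (CHWCM.bigs N e0 η) ≤ b1)
    (h2 : model N (BLK.nsq N e0) ≤ b2)
    (h3 : ∀ y ∈ ({κ, 1, x₀} : Finset ℝ), model N (CHWCM.rwin N e0 y (2 * e)) ≤ b3)
    (h4 : ∀ j, model N (pwn N (x j) (2 * η)) ≤ b4) :
    model N (errD N r x e0 η κ e C x₀) ≤ b1 + C * (b2 + 3 * b3) + 2 * (r * b4) := by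
  rw [model_errD]
  have h5 := sum3_le κ x₀ (fun y => model N (CHWCM.rwin N e0 y (2 * e))) b3 hb3 h3
  have h6 : ∑ j : Fin r, model N (pwn N (x j) (2 * η)) ≤ r * b4 := by
    calc ∑ j : Fin r, model N (pwn N (x j) (2 * η)) ≤ ∑ _j : Fin r, b4 :=
          Finset.sum_le_sum (fun j _ => h4 j)
      _ = r * b4 := by rw [Finset.sum_const, nsmul_eq_mul, Finset.card_univ, Fintype.card_fin]
  have h7 := mul_le_mul_of_nonneg_left (add_le_add h2 h5) hC
  linarith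

end

end CHWDM

open CHWDM in
theorem specCHWD (hTICG : SpecTICG) (hTID : SpecTID) (hT2D : SpecT2D) (hBOXC : SpecBOXC)
    (hTIIC : SpecTIIC) (hTIID : SpecTIID) (hWIND : SpecWIND) (hSMTC : SpecSMTC) (hNSF : SpecNSFH)
    (hPWIN : SpecPWIN) (hPWINM : SpecPWINM) (hWINM2 : SpecWINM2) : SpecCHWD := by
  intro θ ε r x F hθ hε hx hF
  obtain ⟨u, hu0, hux⟩ : ∃ u : ℝ, 0 < u ∧ ∀ j, u ≤ x j := by
    rcases isEmpty_or_nonempty (Fin r) with h | h
    · exact ⟨1, one_pos, fun j => (h.false j).elim⟩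
    · obtain ⟨j, hj⟩ := Finite.exists_min x
      exact ⟨x j, hx j, hj⟩
  obtain ⟨CP, hCP, hPWIN⟩ := hPWIN θ u hθ hu0
  obtain ⟨CPM, hCPM, hPWINM⟩ := hPWINM u hu0
  obtain ⟨CS, hCS, hSMTC⟩ := hSMTC
  obtain ⟨CM, hCM, hWINM2⟩ := hWINM2
  obtain ⟨CW, hCW, hWIND⟩ := hWIND θ (by linarith)
  -- the parameters
  obtain ⟨κ, hκ1, hκ2, hθκ⟩ : ∃ κ : ℝ, 3 / 5 < κ ∧ κ < 2 / 3 ∧ 3 / 2 < θ + κ := by
    refine ⟨(2 / 3 + max (3 / 5) (3 / 2 - θ)) / 2, ?_, ?_, ?_⟩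
    · have := le_max_left (3 / 5 : ℝ) (3 / 2 - θ)
      linarith
    · have : max (3 / 5 : ℝ) (3 / 2 - θ) < 2 / 3 := max_lt (by norm_num) (by linarith)
      linarith
    · have := le_max_right (3 / 5 : ℝ) (3 / 2 - θ)
      linarith
  set D1 : ℝ := 4 * r * (CP + 3 * CPM) + 1 with hD1
  have hD10 : 0 < D1 := by positivity
  obtain ⟨η, hη0, hηu, hη1, hη2, hηD⟩ : ∃ η : ℝ, 0 < η ∧ 2 * η ≤ u / 4 ∧ 2 * η ≤ 1 / 1000 ∧
      3 * κ + η < 2 ∧ D1 * η ≤ ε ^ 2 / 48 := by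
    refine ⟨min (min (u / 8) (1 / 2000)) (min ((2 - 3 * κ) / 2) (ε ^ 2 / (48 * D1))),
      lt_min (lt_min (by linarith) (by norm_num)) (lt_min (by linarith) (by positivity)),
      ?_, ?_, ?_, ?_⟩
    · have : min (min (u / 8) (1 / 2000)) (min ((2 - 3 * κ) / 2) (ε ^ 2 / (48 * D1))) ≤ u / 8 :=
        (min_le_left _ _).trans (min_le_left _ _)
      linarith
    · have : min (min (u / 8) (1 / 2000)) (min ((2 - 3 * κ) / 2) (ε ^ 2 / (48 * D1)))
          ≤ 1 / 2000 := (min_le_left _ _).trans (min_le_right _ _)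
      linarith
    · have : min (min (u / 8) (1 / 2000)) (min ((2 - 3 * κ) / 2) (ε ^ 2 / (48 * D1)))
          ≤ (2 - 3 * κ) / 2 := (min_le_right _ _).trans (min_le_left _ _)
      linarith
    · calc D1 * min (min (u / 8) (1 / 2000)) (min ((2 - 3 * κ) / 2) (ε ^ 2 / (48 * D1)))
          ≤ D1 * (ε ^ 2 / (48 * D1)) :=
            mul_le_mul_of_nonneg_left ((min_le_right _ _).trans (min_le_right _ _)) hD10.le
        _ = ε ^ 2 / 48 := by field_simp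
  obtain ⟨e1, he1, hTICG⟩ := hTICG θ κ η (ε / 2) (by linarith) hκ1 hκ2 hη0 (by linarith)
    (by positivity)
  obtain ⟨e1', he1', hTID⟩ := hTID θ κ η (ε / 2) hθ hκ1 hκ2 hη0 (by linarith) (by positivity)
  set D2 : ℝ := CS + 3 * CM with hD2
  have hD20 : 0 < D2 := by positivity
  set e0 : ℝ := min (min (min e1 e1') (min (1 / 10) η)) (min (u / 2) (ε ^ 2 * η / (48 * D2)))
    with he0
  have he0p : 0 < e0 := lt_min (lt_min (lt_min he1 he1') (lt_min (by norm_num) hη0))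
    (lt_min (by linarith) (by positivity))
  have he0e1 : e0 ≤ e1 := ((min_le_left _ _).trans (min_le_left _ _)).trans (min_le_left _ _)
  have he0e1' : e0 ≤ e1' := ((min_le_left _ _).trans (min_le_left _ _)).trans (min_le_right _ _)
  have he0u : e0 ≤ 1 / 10 := ((min_le_left _ _).trans (min_le_right _ _)).trans (min_le_left _ _)
  have he0η : e0 ≤ η := ((min_le_left _ _).trans (min_le_right _ _)).trans (min_le_right _ _)
  have he0x : e0 < u := by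
    have : e0 ≤ u / 2 := (min_le_right _ _).trans (min_le_left _ _)
    linarith
  have he0S : D2 * (e0 / η) ≤ ε ^ 2 / 48 := by
    calc D2 * (e0 / η) ≤ D2 * ((ε ^ 2 * η / (48 * D2)) / η) := by
          apply mul_le_mul_of_nonneg_left _ hD20.le
          exact div_le_div_of_nonneg_right ((min_le_right _ _).trans (min_le_right _ _)) hη0.le
      _ = ε ^ 2 / 48 := by field_simp
  obtain ⟨NI, hTICG⟩ := hTICG e0 he0p he0e1
  obtain ⟨NI', hTID⟩ := hTID e0 he0p he0e1'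
  obtain ⟨C, hC, hT2D⟩ := hT2D κ e0 η hκ1 hκ2 he0p he0u hη0 (by linarith) hη2
  set C' : ℝ := C + 2 with hC'
  have hC'0 : 0 < C' := by positivity
  set D3 : ℝ := C' * 6 * (CW + 3 * CM) / e0 with hD3
  have hD30 : 0 < D3 := by positivity
  obtain ⟨e, hep, heu, heθ, heη, heD⟩ : ∃ e : ℝ, 0 < e ∧ e ≤ 1 / 40 ∧ 2 * e ≤ (θ - 1 / 2) / 8 ∧
      e ≤ η / 4 ∧ D3 * e ≤ ε ^ 2 / 48 := by
    refine ⟨min (min (1 / 40) ((θ - 1 / 2) / 16)) (min (η / 4) (ε ^ 2 / (48 * D3))),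
      lt_min (lt_min (by norm_num) (by linarith)) (lt_min (by linarith) (by positivity)),
      (min_le_left _ _).trans (min_le_left _ _), ?_,
      (min_le_right _ _).trans (min_le_left _ _), ?_⟩
    · have : min (min (1 / 40) ((θ - 1 / 2) / 16)) (min (η / 4) (ε ^ 2 / (48 * D3)))
          ≤ (θ - 1 / 2) / 16 := (min_le_left _ _).trans (min_le_right _ _)
      linarith
    · calc D3 * min (min (1 / 40) ((θ - 1 / 2) / 16)) (min (η / 4) (ε ^ 2 / (48 * D3)))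
          ≤ D3 * (ε ^ 2 / (48 * D3)) :=
            mul_le_mul_of_nonneg_left ((min_le_right _ _).trans (min_le_right _ _)) hD30.le
        _ = ε ^ 2 / 48 := by field_simp
  obtain ⟨Q, hQ, hQe⟩ : ∃ Q : ℕ, 1 ≤ Q ∧ 3 ≤ Q * e := by
    refine ⟨⌈3 / e⌉₊, Nat.one_le_ceil_iff.mpr (by positivity), ?_⟩
    have := Nat.le_ceil (3 / e)
    rwa [div_le_iff₀ hep] at this
  set δ : ℝ := ε ^ 2 / (144 * C') with hδ
  have hδ0 : 0 < δ := by positivity
  obtain ⟨Φ, Φ', hΦ, hΦ', NB, hBOX⟩ := hBOXC r x F u κ e0 η e Q hux hu0 hF hκ1 hκ2 he0p he0x he0u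
    he0η hη0 (by linarith) hη2 hep heu heη hQ hQe
  set Ψ : Multiset ℕ → ℝ := fun c => (-1) ^ Multiset.card c * Φ c with hΨd
  set Ψ' : Multiset ℕ → ℝ := fun c => -((-1) ^ Multiset.card c * Φ' c) with hΨd'
  have hΨ : ∀ c, |Ψ c| ≤ 1 := by
    intro c
    rw [hΨd]
    simp only [abs_mul, abs_pow, abs_neg, abs_one, one_pow, one_mul]
    exact hΦ c
  have hΨ' : ∀ c, |Ψ' c| ≤ 1 := by
    intro c
    rw [hΨd']
    simp only [abs_mul, abs_pow, abs_neg, abs_one, one_pow, one_mul]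
    exact hΦ' c
  have hT2 := hT2D e hep heu Q hQ hQe
  obtain ⟨T, t, cf, hTQ, htC, hcf, NT, hT⟩ := hT2 Φ Φ' hΦ hΦ'
  obtain ⟨T₂, t₂, cf₂, hTQ₂, htC₂, hcf₂, NT₂, hT₂⟩ := hT2 Ψ Ψ' hΨ hΨ'
  obtain ⟨NW, hWIND⟩ := hWIND e0 (2 * e) he0p he0u (by positivity) heθ
  obtain ⟨hM1, hM2, hM3⟩ := hWINM2 e0 he0p he0u
  obtain ⟨NM1, hM1⟩ := hM1 (2 * e) (by positivity) (by linarith)
  obtain ⟨NM2, hM2⟩ := hM2 η hη0
  obtain ⟨NM3, hM3⟩ := hM3 δ hδ0
  obtain ⟨NS, hSMTC⟩ := hSMTC θ e0 η (by linarith) he0p he0u hη0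
  obtain ⟨NF, hNSF⟩ := hNSF θ e0 δ (by linarith) he0p hδ0
  obtain ⟨NP, hPWIN⟩ := hPWIN (2 * η) (by positivity) hηu hη1
  obtain ⟨NPM, hPWINM⟩ := hPWINM (2 * η) (by positivity) hηu hη1
  -- the errors
  have hE : ∃ N₀ : ℕ, ∀ N A : ℕ, N₀ ≤ N → Adm θ N A →
      ∑ a ∈ IA A, cnt N a (errD N r x e0 η κ e C' (Real.logb N A)) ≤ ε ^ 2 / 12 * (A * N) ∧
      3 * A * model N (errD N r x e0 η κ e C' (Real.logb N A)) ≤ ε ^ 2 / 12 * (A * N) := by
    obtain ⟨N₀, hN₀⟩ := eventually_atTop.1 ((BLKEM.adm_ev θ (by linarith)).and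
      ((logb_ev ((θ - 1 / 2) / 8) θ (by linarith)).and ((eventually_ge_atTop NW).and
      ((eventually_ge_atTop NM1).and ((eventually_ge_atTop NM2).and ((eventually_ge_atTop NM3).and
      ((eventually_ge_atTop NS).and ((eventually_ge_atTop NF).and ((eventually_ge_atTop NP).and
      ((eventually_ge_atTop NPM).and (eventually_ge_atTop 3)))))))))))
    refine ⟨N₀, fun N A hN hA => ?_⟩
    obtain ⟨hadm, hlb, h1, h2, h3, h4, h5, h6, h7, h8, h9⟩ := hN₀ N hN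
    obtain ⟨-, hα1, hα2, hAN⟩ := hadm A hA
    have hα3 := hlb A hA
    have hN0 : (0 : ℝ) < N := by exact_mod_cast (by omega : 0 < N)
    have hlog1 : 1 ≤ Real.log N := by
      rw [Real.le_log_iff_exp_le hN0]
      have h3 : (3 : ℝ) ≤ N := by exact_mod_cast h9
      have := Real.exp_one_lt_d9
      linarith
    set U : ℝ := A * N with hU
    have hU0 : 0 ≤ U := by positivity
    have hcrit : ∀ y ∈ ({κ, 1, Real.logb N A} : Finset ℝ), 1 / 2 ≤ y ∧ y ≤ 1 + (θ - 1 / 2) / 8 ∧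
        y ≤ 5 / 4 := by
      intro y hy
      rw [Finset.mem_insert, Finset.mem_insert, Finset.mem_singleton] at hy
      rcases hy with rfl | rfl | rfl
      · exact ⟨by linarith, by linarith, by linarith⟩
      · exact ⟨by norm_num, by linarith, by norm_num⟩
      · exact ⟨hα1, hα3, hα2⟩
    have hb1 : ∑ a ∈ IA A, cnt N a (CHWCM.bigs N e0 η) ≤ CS * (e0 / η) * U := by
      have := hSMTC N A h5 hA
      have h' : CS * (e0 / η) * A * N = CS * (e0 / η) * U := by rw [hU]; ring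
      rw [h'] at this
      exact this
    have hb2 : ∑ a ∈ IA A, cnt N a (BLK.nsq N e0) ≤ δ * U := by
      have h10 := hNSF N A h6 hA
      have h11 : δ * A * N / Real.log N ≤ δ * U := by
        rw [hU]
        have h12 : δ * A * N / Real.log N ≤ δ * A * N := div_le_self (by positivity) hlog1
        linarith
      exact h10.trans h11
    have hb3 : ∀ y ∈ ({κ, 1, Real.logb N A} : Finset ℝ),
        ∑ a ∈ IA A, cnt N a (CHWCM.rwin N e0 y (2 * e)) ≤ CW * (2 * e / e0) * U := by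
      intro y hy
      have h10 := hWIND N A h1 hA y (hcrit y hy).1 (hcrit y hy).2.1
      have h' : CW * (2 * e / e0) * A * N = CW * (2 * e / e0) * U := by rw [hU]; ring
      rw [h'] at h10
      exact h10
    have hb4 : ∀ j, ∑ a ∈ IA A, cnt N a (pwn N (x j) (2 * η)) ≤ CP * (2 * η) * U := by
      intro j
      have h10 := hPWIN N A h7 hA (x j) (hux j)
      have h' : CP * (2 * η) * A * N = CP * (2 * η) * U := by rw [hU]; ring
      rw [h'] at h10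
      exact h10
    have hm1 : model N (CHWCM.bigs N e0 η) ≤ CM * (e0 / η) * N := hM2 N h3
    have hm2 : model N (BLK.nsq N e0) ≤ δ * N := hM3 N h4
    have hm3 : ∀ y ∈ ({κ, 1, Real.logb N A} : Finset ℝ),
        model N (CHWCM.rwin N e0 y (2 * e)) ≤ CM * (2 * e / e0) * N :=
      fun y hy => hM1 N h2 y (hcrit y hy).1 (hcrit y hy).2.2
    have hm4 : ∀ j, model N (pwn N (x j) (2 * η)) ≤ CPM * (2 * η) * N :=
      fun j => hPWINM N h8 (x j) (hux j)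
    have hr1 := err_cnt (r := r) (x := x) hC'0.le (by positivity) hb1 hb2 hb3 hb4
    have hr2 := err_model (r := r) (x := x) hC'0.le (by positivity) hm1 hm2 hm3 hm4
    have hCδ : C' * δ = ε ^ 2 / 144 := by
      rw [hδ]
      field_simp
    have hr0 : (0 : ℝ) ≤ r := Nat.cast_nonneg r
    have hD3e : D3 * e = C' * (3 * (CW * (2 * e / e0))) + 3 * (C' * (3 * (CM * (2 * e / e0)))) := by
      rw [hD3]
      field_simp
      ring
    have hq1 : 0 ≤ C' * (3 * (CW * (2 * e / e0))) := by positivity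
    have hq2 : 0 ≤ C' * (3 * (CM * (2 * e / e0))) := by positivity
    have hq3 : 0 ≤ CS * (e0 / η) := by positivity
    have hq4 : 0 ≤ CM * (e0 / η) := by positivity
    have hq5 : 0 ≤ r * (CP * (2 * η)) := by positivity
    have hq6 : 0 ≤ r * (CPM * (2 * η)) := by positivity
    have hD1e : D1 * η = 2 * (r * (CP * (2 * η))) + 3 * (2 * (r * (CPM * (2 * η)))) + η := by
      rw [hD1]
      ring
    have hD2e : D2 * (e0 / η) = CS * (e0 / η) + 3 * (CM * (e0 / η)) := by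
      rw [hD2]
      ring
    refine ⟨hr1.trans ?_, ?_⟩
    · have h10 : CS * (e0 / η) * U + C' * (δ * U + 3 * (CW * (2 * e / e0) * U))
          + 2 * (r * (CP * (2 * η) * U))
          = (CS * (e0 / η) + C' * δ + C' * (3 * (CW * (2 * e / e0)))
            + 2 * (r * (CP * (2 * η)))) * U := by ring
      rw [h10]
      apply mul_le_mul_of_nonneg_right _ hU0
      rw [hCδ]
      nlinarith [sq_nonneg ε]
    · have h10 : 3 * A * model N (errD N r x e0 η κ e C' (Real.logb N A))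
          ≤ 3 * A * (CM * (e0 / η) * N + C' * (δ * N + 3 * (CM * (2 * e / e0) * N))
            + 2 * (r * (CPM * (2 * η) * N))) :=
        mul_le_mul_of_nonneg_left hr2 (by positivity)
      refine h10.trans ?_
      have h11 : 3 * A * (CM * (e0 / η) * N + C' * (δ * N + 3 * (CM * (2 * e / e0) * N))
            + 2 * (r * (CPM * (2 * η) * N)))
          = (3 * (CM * (e0 / η)) + 3 * (C' * δ) + 3 * (C' * (3 * (CM * (2 * e / e0))))
            + 3 * (2 * (r * (CPM * (2 * η))))) * U := by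
        rw [hU]
        ring
      rw [h11]
      apply mul_le_mul_of_nonneg_right _ hU0
      rw [hCδ]
      nlinarith [sq_nonneg ε]
  obtain ⟨NE, hE⟩ := hE
  have hismS : ∀ (z S : ℝ) (s : ℕ), ism z S s ≠ 0 → Smooth z s := by
    intro z S s hs
    unfold ism at hs
    split_ifs at hs with h
    · exact h.2.2
    · exact absurd rfl hs
  have hlsmS : ∀ (z S : ℝ) (s : ℕ), lsm z S s ≠ 0 → Smooth z s := by
    intro z S s hs
    unfold lsm at hs
    split_ifs at hs with h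
    · exact h.2.2
    · exact absurd rfl hs
  -- first half
  have half1 := half θ κ (e0 / Q) e ε 1 C (by linarith) hε hC zero_le_one T t htC
    (fun N => cF N r x F) (fun N m => ismC N e0 η m * psiD N e0 κ (cf N) m)
    (fun N x₀ => errD N r x e0 η κ e C' x₀)
    (fun N c => conv (fun m => FF N (e0 / Q) c m) (ism ((N : ℝ) ^ e0) ((N : ℝ) ^ η)))
    (by
      refine ⟨max NT (max NB 10), fun N hN x₀ hx1 hx2 => ?_⟩
      have hN1 : NT ≤ N := (le_max_left _ _).trans hN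
      have hN2 : NB ≤ N := (le_max_left _ _).trans ((le_max_right _ _).trans hN)
      have hN3 : 10 ≤ N := (le_max_right _ _).trans ((le_max_right _ _).trans hN)
      obtain ⟨hTa, hTb⟩ := hT N hN1 x₀ hx1 hx2
      refine ⟨fun m hm1 hm2 => ?_, hTb⟩
      have hm0 : m ≠ 0 := by
        intro h0
        rw [h0] at hm1
        have hN10 : (10 : ℝ) ≤ N := by exact_mod_cast hN3
        have : (0 : ℝ) < (N : ℝ) ^ 2 / 2 := by positivity
        simp only [Nat.cast_zero] at hm1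
        linarith
      have h := pw (N := N) (Q := Q) (r := r) (x := x) (F := F) (e0 := e0) (η := η) (κ := κ)
        (e := e) (C := C) (x₀ := x₀) hN3 he0p hQ hC.le hF Φ Φ' Φ Φ' hΦ hΦ'
        (T.filter (fun c => GoodD κ x₀ (e0 / Q) e c)) t (cf N)
        (fun c hc => hTQ c (Finset.mem_filter.1 hc).1)
        (ism ((N : ℝ) ^ e0) ((N : ℝ) ^ η)) (fun _ => 1) (fun _ => 1) (hismS _ _) hm1
        (by simp) (by simp) (by rw [ism_smp N e0 η m hm0, one_mul]) (fun _ => (one_mul _).symm)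
        (fun hs => hTa m hm1 hm2 hs) (fun hs h3 h4 h5 => hBOX N hN2 m hm1 hm2 hs h3 h4 h5)
      simp only [one_mul] at h
      exact h)
    (fun N x₀ m => errD_nonneg N r x e0 η κ e x₀ hC'0.le m)
    (by
      refine ⟨NI', fun N A hN hA => ?_⟩
      have h := hTID N A hN hA (cf N) (hcf N)
      simp only [dv_one]
      exact h)
    (by
      rintro c hc ⟨c₁, c₂, hcc, hc2, hmid⟩
      have hq1 : ∀ i ∈ c₁, Q ≤ i := fun i hi =>
        hTQ c hc i (by rw [← hcc]; exact Multiset.mem_add.2 (Or.inl hi))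
      have hq2 : ∀ i ∈ c₂, Q ≤ i := fun i hi =>
        hTQ c hc i (by rw [← hcc]; exact Multiset.mem_add.2 (Or.inr hi))
      obtain ⟨N₀, hN⟩ := hTIID θ κ e e0 η (ε ^ 2 / (12 * (T.card + 1) * C)) Q c₁ c₂
        (by linarith) hκ1 hθκ hep he0p he0u hη0 (by linarith) (by positivity) hQ hq1 hq2 hc2 hmid
      rw [hcc] at hN
      refine ⟨N₀, fun N A hNN hA hg => ?_⟩
      have h1 := hN N A hNN hA (nearA_of_good hg (by rw [← hcc]; exact Multiset.le_add_right _ _))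
      simp only [dv_one]
      have h2 : ε ^ 2 / (12 * (T.card + 1) * C) * A * N
          = ε ^ 2 / (12 * (T.card + 1) * C) * (A * N) := by ring
      rw [h2] at h1
      exact h1)
    (by
      refine ⟨NE, fun N A hN hA => ?_⟩
      obtain ⟨h1, h2⟩ := hE N A hN hA
      refine ⟨h1, ?_⟩
      rw [one_mul]
      exact h2)
  -- second half
  have half2 := half θ κ (e0 / Q) e ε 0 C (by linarith) hε hC le_rfl T₂ t₂ htC₂
    (fun N m => lio m * cF N r x F m) (fun N m => lamC N e0 η m * psiD N e0 κ (cf₂ N) m)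
    (fun N x₀ => errD N r x e0 η κ e C' x₀)
    (fun N c => conv (fun m => FF N (e0 / Q) c m) (lsm ((N : ℝ) ^ e0) ((N : ℝ) ^ η)))
    (by
      refine ⟨max NT₂ (max NB 10), fun N hN x₀ hx1 hx2 => ?_⟩
      have hN1 : NT₂ ≤ N := (le_max_left _ _).trans hN
      have hN2 : NB ≤ N := (le_max_left _ _).trans ((le_max_right _ _).trans hN)
      have hN3 : 10 ≤ N := (le_max_right _ _).trans ((le_max_right _ _).trans hN)
      obtain ⟨hTa, hTb⟩ := hT₂ N hN1 x₀ hx1 hx2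
      refine ⟨fun m hm1 hm2 => ?_, hTb⟩
      have hm0 : m ≠ 0 := by
        intro h0
        rw [h0] at hm1
        have hN10 : (10 : ℝ) ≤ N := by exact_mod_cast hN3
        have : (0 : ℝ) < (N : ℝ) ^ 2 / 2 := by positivity
        simp only [Nat.cast_zero] at hm1
        linarith
      have h := pw (N := N) (Q := Q) (r := r) (x := x) (F := F) (e0 := e0) (η := η) (κ := κ)
        (e := e) (C := C) (x₀ := x₀) hN3 he0p hQ hC.le hF Φ Φ' Ψ Ψ' hΦ hΦ'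
        (T₂.filter (fun c => GoodD κ x₀ (e0 / Q) e c)) t₂ (cf₂ N)
        (fun c hc => hTQ₂ c (Finset.mem_filter.1 hc).1)
        (lsm ((N : ℝ) ^ e0) ((N : ℝ) ^ η)) (fun m => lio (T2CM.rgp ((N : ℝ) ^ e0) m))
        (fun m => lio (smp ((N : ℝ) ^ e0) m)) (hlsmS _ _) hm1
        (T2CM.abs_lio_le _) (T2CM.abs_lio_le _) (lsm_smp N e0 η m hm0)
        (fun hs => tyF_sign N Q e0 κ Φ Φ' m (rgp_ne_one hN3 (by linarith) hm1 hs))
        (fun hs => hTa m hm1 hm2 hs) (fun hs h3 h4 h5 => hBOX N hN2 m hm1 hm2 hs h3 h4 h5)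
      have h6 : lio m = lio (smp ((N : ℝ) ^ e0) m) * lio (T2CM.rgp ((N : ℝ) ^ e0) m) := by
        rw [← T2CM.lio_mul, T2CM.smp_mul_rgp _ m hm0]
      rw [h6, lamC_eq, mul_assoc (lio (smp ((N : ℝ) ^ e0) m))]
      exact h)
    (fun N x₀ m => errD_nonneg N r x e0 η κ e x₀ hC'0.le m)
    (by
      refine ⟨NI, fun N A hN hA => ?_⟩
      have h := hTICG N A hN hA (cf₂ N) (hcf₂ N)
      simp only [dv_zero]
      exact h)
    (by
      rintro c hc ⟨c₁, c₂, hcc, hc2, hmid⟩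
      have hq1 : ∀ i ∈ c₁, Q ≤ i := fun i hi =>
        hTQ₂ c hc i (by rw [← hcc]; exact Multiset.mem_add.2 (Or.inl hi))
      have hq2 : ∀ i ∈ c₂, Q ≤ i := fun i hi =>
        hTQ₂ c hc i (by rw [← hcc]; exact Multiset.mem_add.2 (Or.inr hi))
      obtain ⟨N₀, hN⟩ := hTIIC θ κ e e0 η (ε ^ 2 / (12 * (T₂.card + 1) * C)) Q c₁ c₂
        (by linarith) hκ1 hθκ hep he0p he0u hη0 (by linarith) (by positivity) hQ hq1 hq2 hc2 hmid
      rw [hcc] at hN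
      refine ⟨N₀, fun N A hNN hA _ => ?_⟩
      have h1 := hN N A hNN hA
      simp only [dv_zero]
      have h2 : ε ^ 2 / (12 * (T₂.card + 1) * C) * A * N
          = ε ^ 2 / (12 * (T₂.card + 1) * C) * (A * N) := by ring
      rw [h2] at h1
      exact h1)
    (by
      refine ⟨NE, fun N A hN hA => ?_⟩
      obtain ⟨h1, -⟩ := hE N A hN hA
      refine ⟨h1, ?_⟩
      rw [zero_mul, mul_zero]
      positivity)
  obtain ⟨N1, half1⟩ := half1
  obtain ⟨N2, half2⟩ := half2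
  refine ⟨max N1 N2, fun N A hN hA => ⟨?_, ?_⟩⟩
  · have h := half1 N A ((le_max_left _ _).trans hN) hA
    simp only [dv_one] at h
    exact h
  · have h := half2 N A ((le_max_right _ _).trans hN) hA
    simp only [dv_zero] at h
    exact h

end Pool.Agent.Lib.MP391708.QPA.C
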