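import Pool.Agent.Lib.MP_391708_nt.QPA.C.SpecD
import Pool.Agent.Lib.MP_391708_nt.QPA.C.EQC

/-!
# Module EQD: `FF c * 1_smooth` is equidistributed in the residue classes
-/

set_option autoImplicit false

namespace Pool.Agent.Lib.MP391708.QPA.C.EQDM

open Finset Filter Topology
open Pool.Agent.Lib.MP391708.QPA
open Pool.Agent.Lib.MP391708.QPA.H
open Pool.Agent.Lib.MP391708.QPA.C
open scoped Classical

/-- members of a residue class up to `x` -/
lemma card_class {x r c : ℕ} (hr : 0 < r) (hc : c < r) :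
    |(((Icc 1 x).filter (fun u => u % r = c)).card : ℝ) - (x : ℝ) / r| ≤ 1 := by
  have h0 : Icc 1 x = Ioc 0 x := by ext u; simp [Nat.lt_iff_add_one_le]
  have h1 : (Icc 1 x).filter (fun u => u % r = c) =
      (Ioc 0 x).filter (fun u => u ≡ c [MOD r]) := by
    rw [h0]
    refine filter_congr fun u _ => ?_
    unfold Nat.ModEq
    rw [Nat.mod_eq_of_lt hc]
  rw [h1]
  have h2 := Nat.Ioc_filter_modEq_card 0 x hr c
  have hr' : (0 : ℝ) < r := by exact_mod_cast hr
  have hrq : (0 : ℚ) < r := by exact_mod_cast hr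
  set n : ℕ := #{u ∈ Ioc 0 x | u ≡ c [MOD r]} with hn
  have hcr : ((c : ℚ)) / r < 1 := by
    rw [div_lt_one hrq]
    exact_mod_cast hc
  have hc0 : 0 ≤ ((c : ℚ)) / r := by positivity
  have a1 := Int.floor_le (((x : ℚ) - c) / r)
  have a2 := Int.lt_floor_add_one (((x : ℚ) - c) / r)
  have a1' := Int.floor_le ((((0 : ℕ) : ℚ) - c) / r)
  have a2' := Int.lt_floor_add_one ((((0 : ℕ) : ℚ) - c) / r)
  have e1 : ((x : ℚ) - c) / r = (x : ℚ) / r - (c : ℚ) / r := by ring
  have e2 : ((((0 : ℕ) : ℚ) - c) / r) = - ((c : ℚ) / r) := by push_cast; ring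
  rw [e1] at a1 a2
  rw [e2] at a1' a2'
  have hx0 : (0 : ℚ) ≤ (x : ℚ) / r := by positivity
  have hf0 : ⌊((((0 : ℕ) : ℚ) - c) / r)⌋ = if c = 0 then 0 else -1 := by
    rw [e2]
    split_ifs with h
    · subst h; simp
    · rw [Int.floor_eq_iff]
      have : (0 : ℚ) < (c : ℚ) / r := by
        have : (0 : ℚ) < c := by exact_mod_cast Nat.pos_of_ne_zero h
        positivity
      push_cast
      constructor <;> linarith
  have h3 : ((n : ℤ) : ℚ) = max (((⌊((x : ℚ) - c) / r⌋ - ⌊((((0 : ℕ) : ℚ) - c) / r)⌋ : ℤ) : ℚ)) 0 := by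
    rw [h2]
    push_cast
    rfl
  have h4 : |((n : ℤ) : ℚ) - (x : ℚ) / r| ≤ 1 := by
    rw [h3, abs_le]
    rw [hf0, e1]
    split_ifs with h
    · subst h
      push_cast
      simp only [CharP.cast_eq_zero, zero_div, sub_zero] at *
      constructor
      · have := le_max_left ((⌊(x : ℚ) / r⌋ : ℤ) : ℚ) 0
        linarith
      · have : max ((⌊(x : ℚ) / r⌋ : ℤ) : ℚ) 0 ≤ (x : ℚ) / r := max_le a1 hx0
        linarith
    · push_cast
      have h9 : ((⌊(x : ℚ) / r - (c : ℚ) / r⌋ : ℤ) - -1 : ℚ) = ((⌊(x : ℚ) / r - (c : ℚ) / r⌋ : ℤ) + 1 : ℚ) := by ring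
      rw [h9]
      constructor
      · have := le_max_left ((⌊(x : ℚ) / r - (c : ℚ) / r⌋ : ℤ) + 1 : ℚ) 0
        linarith
      · have : max ((⌊(x : ℚ) / r - (c : ℚ) / r⌋ : ℤ) + 1 : ℚ) 0 ≤ (x : ℚ) / r + 1 :=
          max_le (by linarith) (by linarith)
        linarith
  have h5 : |(((n : ℤ) : ℚ) - (x : ℚ) / r : ℚ)| ≤ (1 : ℚ) := h4
  have h6 : ((|(((n : ℤ) : ℚ) - (x : ℚ) / r)| : ℚ) : ℝ) ≤ ((1 : ℚ) : ℝ) := by exact_mod_cast h5
  push_cast at h6
  exact h6

/-- a coprime multiplier permutes the classes -/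
lemma card_mul_class {x r c k : ℕ} (hr : 0 < r) (hc : c < r) (hk : Nat.Coprime k r) :
    |(((Icc 1 x).filter (fun u => (k * u) % r = c)).card : ℝ) - (x : ℝ) / r| ≤ 1 := by
  obtain ⟨j, hj⟩ : ∃ j : ℕ, (k * j) % r = 1 % r := by
    rcases Nat.lt_or_ge 1 r with h | h
    · obtain ⟨j, -, hj⟩ := Nat.exists_mul_mod_eq_one_of_coprime hk h
      exact ⟨j, by rw [hj, Nat.mod_eq_of_lt h]⟩
    · have : r = 1 := by omega
      subst this
      exact ⟨0, by simp⟩
  have h1 : (Icc 1 x).filter (fun u => (k * u) % r = c) = (Icc 1 x).filter (fun u => u % r = (j * c) % r) := by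
    refine filter_congr fun u _ => ?_
    constructor
    · intro h
      rw [← h]
      have h2 : j * (k * u % r) ≡ j * (k * u) [MOD r] := (Nat.mod_modEq _ _).mul_left _
      have h3 : j * (k * u) ≡ u [MOD r] := by
        have h4 : k * j ≡ 1 [MOD r] := hj
        have h5 : (k * j) * u ≡ 1 * u [MOD r] := h4.mul_right _
        have h6 : j * (k * u) = (k * j) * u := by ring
        rw [h6]
        rwa [one_mul] at h5
      exact (h2.trans h3).symm
    · intro h
      have h4 : k * j ≡ 1 [MOD r] := hj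
      have h5 : u ≡ j * c [MOD r] := h
      have h6 : k * u ≡ k * (j * c) [MOD r] := h5.mul_left _
      have h7 : k * (j * c) ≡ c [MOD r] := by
        have h8 : (k * j) * c ≡ 1 * c [MOD r] := h4.mul_right _
        rw [one_mul] at h8
        rwa [← mul_assoc]
      have h9 : (k * u) % r = c % r := h6.trans h7
      rw [h9, Nat.mod_eq_of_lt hc]
  rw [h1]
  exact card_class hr (Nat.mod_lt _ hr)

/-- the rough coefficients -/
noncomputable def fm (z : ℝ) (k : ℕ) : ℝ := rInd z k * (ArithmeticFunction.moebius k : ℝ)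

/-- indicator of the smooth numbers -/
noncomputable def si (z : ℝ) (s : ℕ) : ℝ := if Smooth z s then 1 else 0

lemma abs_fm_le (z : ℝ) (k : ℕ) : |fm z k| ≤ rInd z k := by
  unfold fm
  rw [abs_mul, abs_of_nonneg (EQCM.rInd_nonneg z k)]
  have h1 : |(ArithmeticFunction.moebius k : ℝ)| ≤ 1 := by
    have := ArithmeticFunction.abs_moebius_le_one (n := k)
    exact_mod_cast this
  calc rInd z k * |(ArithmeticFunction.moebius k : ℝ)| ≤ rInd z k * 1 :=
        mul_le_mul_of_nonneg_left h1 (EQCM.rInd_nonneg z k)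
    _ = rInd z k := mul_one _

lemma si_eq (z : ℝ) {s : ℕ} (hs : 1 ≤ s) : si z s = conv (fm z) (fun _ => 1) s := by
  have h := EQCM.smooth_mob z hs
  unfold si conv fm
  simp only [mul_one]
  rw [h]

lemma rough_coprime {z : ℝ} {R k r : ℕ} (hzR : (R : ℝ) < z) (hr1 : 1 ≤ r) (hr : r ≤ R) (hk : Rough z k) :
    Nat.Coprime k r := by
  apply Nat.coprime_of_dvd
  intro p hp h1 h2
  have h3 := hk p hp h1
  have h4 : p ≤ r := Nat.le_of_dvd hr1 h2
  have h5 : (p : ℝ) ≤ R := by exact_mod_cast h4.trans hr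
  linarith

/-- the discrepancy of a function in a class -/
noncomputable def disc (f : ℕ → ℝ) (x k r c : ℕ) : ℝ :=
  (∑ s ∈ (Icc 1 x).filter (fun s => (k * s) % r = c), f s) - (∑ s ∈ Icc 1 x, f s) / r

lemma disc_one (x : ℕ) {k r c : ℕ} (hr : 0 < r) (hc : c < r) (hk : Nat.Coprime k r) :
    |disc (fun _ => 1) x k r c| ≤ 1 := by
  unfold disc
  rw [sum_const, sum_const, Nat.card_Icc, Nat.add_sub_cancel, nsmul_eq_mul, nsmul_eq_mul, mul_one, mul_one]
  exact card_mul_class hr hc hk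

lemma disc_triv (f : ℕ → ℝ) (hf0 : ∀ s, 0 ≤ f s) (hf : ∀ s, f s ≤ 1) (x k : ℕ) {r c : ℕ} (hr : 0 < r) :
    |disc f x k r c| ≤ x := by
  have h1 : ∑ s ∈ (Icc 1 x).filter (fun s => (k * s) % r = c), f s ≤ ∑ s ∈ Icc 1 x, f s :=
    sum_le_sum_of_subset_of_nonneg (filter_subset _ _) fun s _ _ => hf0 s
  have h2 : ∑ s ∈ Icc 1 x, f s ≤ x := by
    calc ∑ s ∈ Icc 1 x, f s ≤ ∑ s ∈ Icc 1 x, (1 : ℝ) := sum_le_sum fun s _ => hf s
      _ = x := by rw [sum_const, Nat.card_Icc, Nat.add_sub_cancel, nsmul_eq_mul, mul_one]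
  have h3 : 0 ≤ ∑ s ∈ (Icc 1 x).filter (fun s => (k * s) % r = c), f s := sum_nonneg fun s _ => hf0 s
  have h4 : 0 ≤ ∑ s ∈ Icc 1 x, f s := sum_nonneg fun s _ => hf0 s
  have hr1 : (1 : ℝ) ≤ r := by exact_mod_cast hr
  have h5 : (∑ s ∈ Icc 1 x, f s) / r ≤ ∑ s ∈ Icc 1 x, f s := div_le_self h4 hr1
  have h6 : 0 ≤ (∑ s ∈ Icc 1 x, f s) / r := by positivity
  unfold disc
  rw [abs_le]
  constructor <;> linarith

lemma disc_conv (f g : ℕ → ℝ) (X k r c : ℕ) :
    disc (conv f g) X k r c = ∑ t ∈ Icc 1 X, f t * disc g (X / t) (k * t) r c := by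
  unfold disc
  rw [EQCM.conv_rearr X (fun s => (k * s) % r = c) f g]
  have h1 : ∑ s ∈ Icc 1 X, conv f g s = ∑ t ∈ Icc 1 X, f t * ∑ s ∈ Icc 1 (X / t), g s := by
    have := EQCM.conv_rearr X (fun _ => True) f g
    simpa using this
  rw [h1, sum_div, ← sum_sub_distrib]
  refine sum_congr rfl fun t _ => ?_
  rw [mul_sub, mul_div_assoc]
  simp only [mul_assoc]

lemma disc_congr {f g : ℕ → ℝ} (x k r c : ℕ) (h : ∀ s, 1 ≤ s → f s = g s) :
    disc f x k r c = disc g x k r c := by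
  unfold disc
  rw [sum_congr rfl fun s hs => h s (mem_Icc.1 (mem_filter.1 hs).1).1,
    sum_congr (g := g) rfl fun s hs => h s (mem_Icc.1 hs).1]

/-- discrepancy of the smooth numbers -/
lemma smdisc (hRSUM : SpecRSUM) (R : ℕ) {δ e0 η : ℝ} (hδ : 0 < δ) (he0 : 0 < e0) (hη : 0 < η) :
    ∃ X₁ : ℕ, 1 ≤ X₁ ∧ ∃ N₀ : ℕ, ∀ N : ℕ, N₀ ≤ N → ∀ r c y k : ℕ, 1 ≤ r → r ≤ R → c < r → Nat.Coprime k r →
      X₁ ≤ y → (y : ℝ) ≤ (N : ℝ) ^ η → |disc (si ((N : ℝ) ^ e0)) y k r c| ≤ δ * y := by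
  obtain ⟨C, hC, hRS⟩ := hRSUM
  set D : ℝ := C * (η / e0 + 1) + 1 with hD
  have hD0 : 0 < D := by positivity
  set δ' : ℝ := δ / (2 * D) with hδ'
  have hδ'0 : 0 < δ' := by positivity
  obtain ⟨X₀, hX₀⟩ := exists_nat_ge (max 1 (1 / δ'))
  have hX₀R : (1 : ℝ) ≤ X₀ := (le_max_left _ _).trans hX₀
  have hX₀1 : 1 ≤ X₀ := by exact_mod_cast hX₀R
  have hX₀d : 1 ≤ δ' * X₀ := by
    have := (le_max_right 1 (1 / δ')).trans hX₀
    rwa [div_le_iff₀ hδ'0, mul_comm] at this
  set M : ℝ := max (max 1 (2 * C * (Real.log (2 * X₀) + 1) / δ)) (Real.log (R + 1)+ 1) with hM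
  obtain ⟨N₀, hN₀⟩ := eventually_atTop.1 (EQCM.ev_logz he0 M)
  refine ⟨X₀, hX₀1, max N₀ 1, fun N hN r c y k hr1 hr2 hc hk hy1 hy2 => ?_⟩
  have hN1 : 1 ≤ N := (le_max_right _ _).trans hN
  have hNR : (1 : ℝ) ≤ N := by exact_mod_cast hN1
  set z : ℝ := (N : ℝ) ^ e0 with hz
  have hz0 : 0 < z := by positivity
  have hlz := hN₀ N ((le_max_left _ _).trans hN)
  have hlz1 : 1 ≤ Real.log z := ((le_max_left _ _).trans (le_max_left _ _)).trans hlz
  have hlz0 : 0 < Real.log z := by linarith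
  have hz2 : 2 ≤ z := EQCM.two_le_of_log hz0 hlz1
  have hzR : (R : ℝ) < z := by
    have h1 : Real.log (R + 1) < Real.log z := by
      have := (le_max_right _ _).trans hlz
      linarith
    have h2 := (Real.log_lt_log_iff (by positivity) hz0).1 h1
    linarith
  have hy0 : (1 : ℝ) ≤ y := by exact_mod_cast hX₀1.trans hy1
  rw [disc_congr y k r c (fun s hs => si_eq z hs), disc_conv]
  set I : ℕ → ℝ := fun t => if Rough z t then disc (fun _ => 1) (y / t) (k * t) r c else 0 with hI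
  have hI1 : ∀ t, |I t| ≤ 1 := by
    intro t
    rw [hI]
    simp only []
    split_ifs with h
    · exact disc_one _ hr1 hc (Nat.Coprime.mul_left hk (rough_coprime hzR hr1 hr2 h))
    · rw [abs_zero]; exact zero_le_one
  have hfI : ∀ t, fm z t * disc (fun _ => 1) (y / t) (k * t) r c = fm z t * I t := by
    intro t
    rw [hI]
    simp only []
    split_ifs with h
    · rfl
    · have : fm z t = 0 := by simp [fm, rInd, h]
      rw [this, zero_mul, zero_mul]
  rw [sum_congr rfl fun t _ => hfI t]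
  have hdiv : ∀ t : ℕ, ((y / t : ℕ) : ℝ) ≤ (y : ℝ) / t := fun t => Nat.cast_div_le
  set w : ℕ → ℝ := fun t => if t = 1 then 0 else fm z t with hw
  have e2 : ∑ t ∈ Icc 1 y, fm z t * I t = fm z 1 * I 1 + ∑ t ∈ Icc 1 y, w t * I t := by
    have h1 : (1 : ℕ) ∈ Icc 1 y := mem_Icc.2 ⟨le_rfl, hX₀1.trans hy1⟩
    rw [← add_sum_erase _ _ h1, ← add_sum_erase (Icc 1 y) (fun t => w t * I t) h1]
    have h2 : w 1 = 0 := by simp [hw]
    rw [h2, zero_mul, zero_add]
    congr 1
    refine sum_congr rfl fun t ht => ?_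
    have : t ≠ 1 := (mem_erase.1 ht).1
    simp [hw, this]
  have hg := EQCM.gen (z := z) (C := C) (B := 1) (R := 1) (δ := δ') (X₀ := X₀) (y := y) w I hC hRS hz2
    zero_le_one zero_le_one hδ'0.le hX₀R
    (fun t => by
      rw [one_mul, hw]
      simp only []
      split_ifs
      · rw [abs_zero]; exact EQCM.rInd_nonneg z t
      · exact abs_fm_le z t)
    (fun t ht => by
      rw [hw] at ht
      simp only [] at ht
      by_cases h1 : t = 1
      · rw [if_pos h1] at ht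
        exact absurd rfl ht
      · rw [if_neg h1] at ht
        by_cases h0 : t = 0
        · exfalso; apply ht
          rw [h0]; simp [fm]
        have hr : Rough z t := by
          by_contra h
          apply ht
          simp [fm, rInd, h]
        have h3 : z ≤ ((t.minFac : ℕ) : ℝ) := hr _ (Nat.minFac_prime h1) (Nat.minFac_dvd t)
        have h4 : ((t.minFac : ℕ) : ℝ) ≤ t := by exact_mod_cast Nat.minFac_le (by omega)
        linarith)
    (fun t ht hx => by
      rw [one_mul]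
      refine (hI1 t).trans (hX₀d.trans ?_)
      exact mul_le_mul_of_nonneg_left (hx.trans (hdiv t)) hδ'0.le)
    (fun t ht => by
      rw [one_mul]
      refine (hI1 t).trans (le_trans ?_ (hdiv t))
      have h1 := (mem_Icc.1 ht)
      exact_mod_cast Nat.div_pos h1.2 h1.1)
  have h1 : |fm z 1 * I 1| ≤ δ' * y := by
    rw [abs_mul]
    have h2 : |fm z 1| ≤ 1 := (abs_fm_le z 1).trans (by unfold rInd; split_ifs <;> norm_num)
    calc |fm z 1| * |I 1| ≤ 1 * 1 := mul_le_mul h2 (hI1 1) (abs_nonneg _) zero_le_one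
      _ ≤ δ' * X₀ := by rw [one_mul]; exact hX₀d
      _ ≤ δ' * y := by
        apply mul_le_mul_of_nonneg_left _ hδ'0.le
        exact_mod_cast hy1
  rw [e2]
  have hly : Real.log (max 1 (y : ℝ)) ≤ η / e0 * Real.log z := by
    rw [max_eq_right hy0]
    calc Real.log y ≤ Real.log ((N : ℝ) ^ η) := Real.log_le_log (by linarith) hy2
      _ = η * Real.log N := Real.log_rpow (by linarith) _
      _ = η / e0 * Real.log z := by
        rw [hz, Real.log_rpow (by linarith)]
        field_simp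
  have hq1 : (Real.log (max 1 (y : ℝ)) + 1) / Real.log z ≤ η / e0 + 1 := by
    rw [div_le_iff₀ hlz0]
    nlinarith
  have hq2 : (Real.log (2 * X₀) + 1) / Real.log z ≤ δ / (2 * C) := by
    have h2 : 2 * C * (Real.log (2 * X₀) + 1) / δ ≤ Real.log z :=
      ((le_max_right _ _).trans (le_max_left _ _)).trans hlz
    rw [div_le_iff₀ hδ] at h2
    rw [div_le_div_iff₀ hlz0 (by positivity)]
    linarith
  have hlz' : 0 ≤ (Real.log (max 1 (y : ℝ)) + 1) / Real.log z := by
    have := Real.log_nonneg (le_max_left 1 (y : ℝ))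
    positivity
  have hlX' : 0 ≤ (Real.log (2 * X₀) + 1) / Real.log z := by
    have := Real.log_nonneg (by linarith : (1 : ℝ) ≤ 2 * X₀)
    positivity
  calc |fm z 1 * I 1 + ∑ t ∈ Icc 1 y, w t * I t|
      ≤ δ' * y + 1 * 1 * y * (C * (δ' * ((Real.log (max 1 (y : ℝ)) + 1) / Real.log z)
        + (Real.log (2 * X₀) + 1) / Real.log z)) := (abs_add_le _ _).trans (add_le_add h1 hg)
    _ ≤ δ' * y + 1 * 1 * y * (C * (δ' * (η / e0 + 1) + δ / (2 * C))) := by
        gcongr
    _ = y * (δ' * D + δ / 2) := by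
        rw [hD]
        field_simp
        ring
    _ = δ * y := by
        rw [hδ']
        field_simp
        ring

lemma ism_le (z S : ℝ) (s : ℕ) : ism z S s ≤ 1 := by
  unfold ism
  split_ifs <;> norm_num

lemma ism_nonneg (z S : ℝ) (s : ℕ) : 0 ≤ ism z S s := by
  unfold ism
  split_ifs <;> norm_num

lemma ism_sum (z S : ℝ) (hS : 0 ≤ S) (x : ℕ) (P : ℕ → Prop) [DecidablePred P] :
    ∑ s ∈ (Icc 1 x).filter P, ism z S s
      = ∑ s ∈ (Icc 1 (min x ⌊S⌋₊)).filter P, si z s := by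
  have h1 : ∑ s ∈ (Icc 1 x).filter P, ism z S s
      = ∑ s ∈ ((Icc 1 x).filter P).filter (fun s => s ≤ ⌊S⌋₊), si z s := by
    rw [sum_filter (fun s => s ≤ ⌊S⌋₊)]
    refine sum_congr rfl fun s hs => ?_
    have hs1 : 1 ≤ s := (mem_Icc.1 (mem_filter.1 hs).1).1
    unfold ism si
    by_cases h2 : (s : ℝ) ≤ S
    · rw [if_pos (Nat.le_floor h2)]
      by_cases h3 : Smooth z s
      · rw [if_pos ⟨hs1, h2, h3⟩, if_pos h3]
      · rw [if_neg (fun h => h3 h.2.2), if_neg h3]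
    · rw [if_neg (fun h => h2 h.2.1), if_neg (fun h => h2 ((Nat.le_floor_iff hS).1 h))]
  rw [h1]
  congr 1
  ext s
  simp only [mem_filter, mem_Icc, le_min_iff]
  tauto

lemma disc_ism (z S : ℝ) (hS : 0 ≤ S) (x k r c : ℕ) :
    disc (ism z S) x k r c = disc (si z) (min x ⌊S⌋₊) k r c := by
  unfold disc
  rw [ism_sum z S hS x (fun s => (k * s) % r = c)]
  have := ism_sum z S hS x (fun _ => True)
  simp only [filter_true] at this
  rw [this]

end Pool.Agent.Lib.MP391708.QPA.C.EQDM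

namespace Pool.Agent.Lib.MP391708.QPA.C

open Finset Filter Topology
open Pool.Agent.Lib.MP391708.QPA
open Pool.Agent.Lib.MP391708.QPA.H
open scoped Classical

theorem specEQD (hRSUM : SpecRSUM) (hFFB : SpecFFB) : SpecEQD := by
  intro e0 η κ Q c he0 he0' hη hη' hκ hQ hc hcQ R
  obtain ⟨C, hC, hRS⟩ := hRSUM
  set CF : ℝ := ((Multiset.card c).factorial : ℝ) with hCF
  have hCF1 : 1 ≤ CF := by
    rw [hCF]
    exact_mod_cast Nat.factorial_pos _
  set D : ℝ := CF * (C * (3 / e0 + 1)) with hD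
  have hD0 : 0 < D := by positivity
  set δ : ℝ := κ / (2 * D) with hδ
  have hδ0 : 0 < δ := by positivity
  obtain ⟨X₁, hX₁, N₁, hsm⟩ := EQDM.smdisc ⟨C, hC, hRS⟩ R hδ0 he0 hη
  set M : ℝ := max (max 1 (2 * CF * C * (Real.log (2 * X₁) + 1) / κ)) (Real.log (R + 1) + 1) with hM
  have hev : ∀ᶠ N : ℕ in atTop, 2 ≤ N ∧ N₁ ≤ N ∧ M ≤ Real.log ((N : ℝ) ^ e0) ∧ (X₁ : ℝ) ≤ (N : ℝ) ^ η := by
    have h1 : Tendsto (fun N : ℕ => (N : ℝ) ^ η) atTop atTop :=
      (tendsto_rpow_atTop hη).comp tendsto_natCast_atTop_atTop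
    filter_upwards [eventually_ge_atTop 2, eventually_ge_atTop N₁, EQCM.ev_logz he0 M,
      h1.eventually_ge_atTop (X₁ : ℝ)] with N a1 a2 a3 a4
    exact ⟨a1, a2, a3, a4⟩
  obtain ⟨N₀, hN₀⟩ := eventually_atTop.1 hev
  refine ⟨N₀, fun N hN r c₀ X hr1 hr2 hc₀ hX1 hX2 => ?_⟩
  obtain ⟨hN2, hN1, hlz, hXη⟩ := hN₀ N hN
  have hNR : (2 : ℝ) ≤ N := by exact_mod_cast hN2
  set z : ℝ := (N : ℝ) ^ e0 with hz
  set S : ℝ := (N : ℝ) ^ η with hS
  have hS0 : 0 ≤ S := by positivity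
  have hz0 : 0 < z := by positivity
  have hlz1 : 1 ≤ Real.log z := ((le_max_left _ _).trans (le_max_left _ _)).trans hlz
  have hlz0 : 0 < Real.log z := by linarith
  have hz2 : 2 ≤ z := EQCM.two_le_of_log hz0 hlz1
  have hzR : (R : ℝ) < z := by
    have h1 : Real.log (R + 1) < Real.log z := by
      have := (le_max_right _ _).trans hlz
      linarith
    have h2 := (Real.log_lt_log_iff (by positivity) hz0).1 h1
    linarith
  have hX₁R : (1 : ℝ) ≤ X₁ := by exact_mod_cast hX₁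
  have hX0 : (2 : ℝ) ≤ X := by
    have : (N : ℝ) ≤ X := by exact_mod_cast hX1
    linarith
  have hQ0 : (0 : ℝ) < Q := by exact_mod_cast hQ
  have he2 : 0 < e0 / Q := by positivity
  have hQe : e0 / Q * Q = e0 := by field_simp
  set F : ℕ → ℝ := fun m => FF N (e0 / Q) c m with hF
  have hFr : ∀ t, F t ≠ 0 → Rough z t := by
    intro t h
    obtain ⟨b1, b2, b3⟩ := hFFB N (e0 / Q) c t hN2 he2
    have := (b3 h).2.2.2.2 Q hcQ
    rwa [hQe] at this
  have hFw : ∀ t, |F t| ≤ CF * rInd z t := by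
    intro t
    obtain ⟨b1, b2, b3⟩ := hFFB N (e0 / Q) c t hN2 he2
    by_cases h : F t = 0
    · rw [h, abs_zero]
      have := EQCM.rInd_nonneg z t
      positivity
    · have h1 : rInd z t = 1 := by unfold rInd; rw [if_pos (hFr t h)]
      rw [h1, mul_one, abs_of_nonneg b1]
      exact b2
  have hFz : ∀ t, F t ≠ 0 → z ≤ (t : ℝ) := by
    intro t h
    obtain ⟨b1, b2, b3⟩ := hFFB N (e0 / Q) c t hN2 he2
    refine le_trans ?_ (b3 h).2.1
    rw [hz]
    apply Real.rpow_le_rpow_of_exponent_le (by linarith)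
    have h1 : (Q : ℝ) ≤ c.sum := by exact_mod_cast EQCM.sum_ge_of_mem hc hcQ
    calc e0 = e0 / Q * Q := hQe.symm
      _ ≤ e0 / Q * c.sum := mul_le_mul_of_nonneg_left h1 he2.le
  have e0' : (∑ u ∈ (Icc 1 X).filter (fun u => u % r = c₀), conv F (ism z S) u)
      - (∑ u ∈ Icc 1 X, conv F (ism z S) u) / r = EQDM.disc (conv F (ism z S)) X 1 r c₀ := by
    unfold EQDM.disc
    simp only [one_mul]
  rw [e0', EQDM.disc_conv]
  simp only [one_mul]
  set I : ℕ → ℝ := fun t => if Rough z t then EQDM.disc (ism z S) (X / t) t r c₀ else 0 with hI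
  have hfI : ∀ t, F t * EQDM.disc (ism z S) (X / t) t r c₀ = F t * I t := by
    intro t
    rw [hI]
    simp only []
    split_ifs with h
    · rfl
    · have : F t = 0 := by
        by_contra h2
        exact h (hFr t h2)
      rw [this, zero_mul, zero_mul]
  rw [sum_congr rfl fun t _ => hfI t]
  have hdiv : ∀ k : ℕ, ((X / k : ℕ) : ℝ) ≤ (X : ℝ) / k := fun k => Nat.cast_div_le
  have hg := EQCM.gen (z := z) (C := C) (B := CF) (R := 1) (δ := δ) (X₀ := X₁) (y := X) F I hC hRS hz2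
    (by positivity) zero_le_one hδ0.le hX₁R hFw hFz
    (fun k hk hx => by
      rw [one_mul, hI]
      simp only []
      split_ifs with h
      · rw [EQDM.disc_ism z S hS0]
        have hfl : X₁ ≤ ⌊S⌋₊ := Nat.le_floor hXη
        have hx' : X₁ ≤ X / k := by exact_mod_cast hx
        refine (hsm N hN1 r c₀ (min (X / k) ⌊S⌋₊) k hr1 hr2 hc₀ (EQDM.rough_coprime hzR hr1 hr2 h)
          (le_min hx' hfl) ?_).trans ?_
        · have h2 : ((min (X / k) ⌊S⌋₊ : ℕ) : ℝ) ≤ (⌊S⌋₊ : ℝ) := by exact_mod_cast min_le_right _ _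
          exact h2.trans (Nat.floor_le hS0)
        · refine mul_le_mul_of_nonneg_left (le_trans ?_ (hdiv k)) hδ0.le
          exact_mod_cast min_le_left _ _
      · rw [abs_zero]
        positivity)
    (fun k hk => by
      rw [one_mul, hI]
      simp only []
      split_ifs with h
      · exact (EQDM.disc_triv _ (EQDM.ism_nonneg z S) (EQDM.ism_le z S) _ _ hr1).trans (hdiv k)
      · rw [abs_zero]
        positivity)
  refine hg.trans ?_
  have hly : Real.log (max 1 (X : ℝ)) ≤ 3 / e0 * Real.log z := by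
    rw [max_eq_right (by linarith)]
    calc Real.log X ≤ Real.log ((N : ℝ) ^ 3) := Real.log_le_log (by linarith) hX2
      _ = 3 * Real.log N := by rw [Real.log_pow]; norm_num
      _ = 3 / e0 * Real.log z := by
        rw [hz, Real.log_rpow (by linarith)]
        field_simp
  have hq1 : (Real.log (max 1 (X : ℝ)) + 1) / Real.log z ≤ 3 / e0 + 1 := by
    rw [div_le_iff₀ hlz0]
    nlinarith
  have hq2 : (Real.log (2 * X₁) + 1) / Real.log z ≤ κ / (2 * CF * C) := by
    have h2 : 2 * CF * C * (Real.log (2 * X₁) + 1) / κ ≤ Real.log z :=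
      ((le_max_right _ _).trans (le_max_left _ _)).trans hlz
    rw [div_le_iff₀ hκ] at h2
    rw [div_le_div_iff₀ hlz0 (by positivity)]
    linarith
  have hlz' : 0 ≤ (Real.log (max 1 (X : ℝ)) + 1) / Real.log z := by
    have := Real.log_nonneg (le_max_left 1 (X : ℝ))
    positivity
  have hlX' : 0 ≤ (Real.log (2 * X₁) + 1) / Real.log z := by
    have := Real.log_nonneg (by linarith : (1 : ℝ) ≤ 2 * X₁)
    positivity
  calc CF * 1 * X * (C * (δ * ((Real.log (max 1 (X : ℝ)) + 1) / Real.log z)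
        + (Real.log (2 * X₁) + 1) / Real.log z))
      ≤ CF * 1 * X * (C * (δ * (3 / e0 + 1) + κ / (2 * CF * C))) := by
        gcongr
    _ = X * (δ * D + κ / 2) := by
        rw [hD]
        field_simp
    _ = κ * X := by
        rw [hδ]
        field_simp
        ring

end Pool.Agent.Lib.MP391708.QPA.C
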