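import Pool.Agent.Lib.MP_391708_nt.QPA.C.FINC
import Pool.Agent.Lib.MP_391708_nt.QPA.H.All1

/-!
# QPA phase 4: the two final theorems in one form
-/

set_option autoImplicit false

namespace Pool.Agent.Lib.MP391708.QPA.C

open Finset Filter Topology
open Pool.Agent.Lib.MP391708.QPA
open Pool.Agent.Lib.MP391708.QPA.H
open scoped Classical

/-- the constant: `1/2` for `θ > 5/6`, `(1/8) log (1/(3/2-θ))` for `1/2 < θ ≤ 5/6` -/
noncomputable def cth (θ : ℝ) : ℝ := if 5 / 6 < θ then 1 / 2 else -(1 / 8) * Real.log (3 / 2 - θ)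

namespace AllM

/-- monotonicity of the number of exceptions, for all decidability instances -/
theorem card_mono (S : Finset ℤ) {p q : ℤ → Prop} {hp : DecidablePred p} {hq : DecidablePred q}
    (h : ∀ a ∈ S, p a → q a) : (@Finset.filter _ p hp S).card ≤ (@Finset.filter _ q hq S).card := by
  refine Finset.card_le_card (fun a ha => ?_)
  rw [Finset.mem_filter] at ha ⊢
  exact ⟨ha.1, h a ha.1 ha.2⟩

/-- the number of `1 ≤ n ≤ N` with `λ(|n²+a|) = s` -/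
noncomputable def cs (a s : ℤ) (N : ℕ) : ℝ :=
  (((Icc 1 N).filter (fun n : ℕ =>
    ArithmeticFunction.liouville ((n : ℤ) ^ 2 + a).natAbs = s)).card : ℝ)

theorem zeros (a : ℤ) (N : ℕ) :
    ((Icc 1 N).filter (fun n : ℕ => ((n : ℤ) ^ 2 + a) = 0)).card ≤ 1 := by
  rw [Finset.card_le_one]
  intro x hx y hy
  rw [Finset.mem_filter] at hx hy
  have h : (x : ℤ) ^ 2 = (y : ℤ) ^ 2 := by linarith [hx.2, hy.2]
  have h2 : x ^ 2 = y ^ 2 := by exact_mod_cast h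
  exact Nat.pow_left_injective (by norm_num : (2 : ℕ) ≠ 0) h2

/-- `N = #(λ=1) + #(λ=-1) + #(zeros)` and the sum is the difference -/
theorem cs_ge (a s : ℤ) (hs : s = 1 ∨ s = -1) (N : ℕ) (ε : ℝ)
    (h : |∑ n ∈ Icc 1 N, (ArithmeticFunction.liouville ((n : ℤ) ^ 2 + a).natAbs : ℝ)| ≤ ε * N) :
    (1 / 2 - ε / 2) * N - 1 / 2 ≤ cs a s N := by
  have hpt : ∀ n ∈ Icc 1 N,
      (1 : ℝ) + s * (ArithmeticFunction.liouville ((n : ℤ) ^ 2 + a).natAbs : ℝ)
        - (if ((n : ℤ) ^ 2 + a) = 0 then 1 else 0) =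
      2 * (if ArithmeticFunction.liouville ((n : ℤ) ^ 2 + a).natAbs = s then 1 else 0) := by
    intro n _
    by_cases h0 : ((n : ℤ) ^ 2 + a) = 0
    · have h1 : ((n : ℤ) ^ 2 + a).natAbs = 0 := by rw [h0]; rfl
      rw [h1, if_pos h0]
      have h2 : ArithmeticFunction.liouville 0 = 0 := by simp
      rw [h2, if_neg]
      · simp
      · rcases hs with rfl | rfl <;> norm_num
    · have hm : ((n : ℤ) ^ 2 + a).natAbs ≠ 0 := Int.natAbs_ne_zero.2 h0
      rw [if_neg h0]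
      rcases FINLM.lio_or hm with h1 | h1 <;> rcases hs with h2 | h2 <;> rw [h1, h2] <;> norm_num
  have hsum := Finset.sum_congr (rfl : Icc 1 N = Icc 1 N) hpt
  rw [Finset.sum_sub_distrib, Finset.sum_add_distrib, ← Finset.mul_sum, ← Finset.mul_sum,
    Finset.sum_const, Nat.card_Icc, nsmul_eq_mul, mul_one, Nat.add_sub_cancel] at hsum
  have h1 : ∑ n ∈ Icc 1 N, (if ArithmeticFunction.liouville ((n : ℤ) ^ 2 + a).natAbs = s
      then (1 : ℝ) else 0) = cs a s N := by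
    rw [← Finset.sum_filter, Finset.sum_const, nsmul_eq_mul, mul_one]
    rfl
  have h2 : ∑ n ∈ Icc 1 N, (if ((n : ℤ) ^ 2 + a) = 0 then (1 : ℝ) else 0) ≤ 1 := by
    rw [← Finset.sum_filter, Finset.sum_const, nsmul_eq_mul, mul_one]
    exact_mod_cast zeros a N
  rw [h1] at hsum
  obtain ⟨g1, g2⟩ := abs_le.1 h
  have h3 : -(ε * N) ≤ (s : ℝ) * ∑ n ∈ Icc 1 N,
      (ArithmeticFunction.liouville ((n : ℤ) ^ 2 + a).natAbs : ℝ) := by
    rcases hs with h | h <;> rw [h] <;> push_cast <;> linarith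
  linarith

end AllM

open AllM in
/-- both parts -/
theorem final (hC : SpecFINCU) (θ ε : ℝ) (hθ : 1 / 2 < θ) (hε : 0 < ε) :
    ∃ N₀ : ℕ, ∀ N A : ℕ, N₀ ≤ N → (N : ℝ) ^ θ ≤ A → A ≤ N →
      (((Icc (-(A : ℤ)) A).filter (fun a : ℤ => ¬ (
        (5 / 6 < θ → ∀ M : ℕ, M ≤ N →
          |∑ n ∈ Icc 1 M, (ArithmeticFunction.liouville ((n : ℤ) ^ 2 + a).natAbs : ℝ)| ≤ ε * N) ∧
        ∀ s : ℤ, (s = 1 ∨ s = -1) → (cth θ - ε) * N ≤
          (((Icc 1 N).filter (fun n : ℕ =>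
            ArithmeticFunction.liouville ((n : ℤ) ^ 2 + a).natAbs = s)).card : ℝ)))).card : ℝ)
      ≤ ε * A := by
  by_cases h56 : 5 / 6 < θ
  · obtain ⟨N₀, hN₀⟩ := hC θ ε h56 hε
    obtain ⟨N₁, hN₁⟩ := exists_nat_gt (1 / ε)
    refine ⟨max N₀ N₁, fun N A hN hA1 hA2 => ?_⟩
    refine le_trans ?_ (hN₀ N A ((le_max_left _ _).trans hN) hA1 hA2)
    have hNε : 1 ≤ ε * N := by
      have h1 : (N₁ : ℝ) ≤ N := by exact_mod_cast (le_max_right _ _).trans hN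
      have h2 : 1 / ε < N := hN₁.trans_le h1
      rw [div_lt_iff₀ hε] at h2
      linarith
    have hsub : (Icc (-(A : ℤ)) A).filter (fun a : ℤ => ¬ (
        (5 / 6 < θ → ∀ M : ℕ, M ≤ N →
          |∑ n ∈ Icc 1 M, (ArithmeticFunction.liouville ((n : ℤ) ^ 2 + a).natAbs : ℝ)| ≤ ε * N) ∧
        ∀ s : ℤ, (s = 1 ∨ s = -1) → (cth θ - ε) * N ≤
          (((Icc 1 N).filter (fun n : ℕ =>
            ArithmeticFunction.liouville ((n : ℤ) ^ 2 + a).natAbs = s)).card : ℝ))) ⊆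
        (Icc (-(A : ℤ)) A).filter (fun a : ℤ => ¬ ∀ M : ℕ, M ≤ N →
          |∑ n ∈ Icc 1 M, (ArithmeticFunction.liouville ((n : ℤ) ^ 2 + a).natAbs : ℝ)|
            ≤ ε * N) := by
      intro a ha
      rw [Finset.mem_filter] at ha ⊢
      refine ⟨ha.1, fun hall => ha.2 ⟨fun _ => hall, fun s hs => ?_⟩⟩
      have h1 := cs_ge a s hs N ε (hall N le_rfl)
      rw [cth, if_pos h56]
      refine le_trans ?_ h1
      linarith
    exact_mod_cast Finset.card_le_card hsub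
  · obtain ⟨N₀, hN₀⟩ := allH.2.2 θ ε hθ hε
    refine ⟨N₀, fun N A hN hA1 hA2 => le_trans ?_ (hN₀ N A hN hA1 hA2)⟩
    have hmax : max (2 / 3 : ℝ) (3 / 2 - θ) = 3 / 2 - θ := max_eq_right (by linarith)
    have hsub : (Icc (-(A : ℤ)) A).filter (fun a : ℤ => ¬ (
        (5 / 6 < θ → ∀ M : ℕ, M ≤ N →
          |∑ n ∈ Icc 1 M, (ArithmeticFunction.liouville ((n : ℤ) ^ 2 + a).natAbs : ℝ)| ≤ ε * N) ∧
        ∀ s : ℤ, (s = 1 ∨ s = -1) → (cth θ - ε) * N ≤
          (((Icc 1 N).filter (fun n : ℕ =>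
            ArithmeticFunction.liouville ((n : ℤ) ^ 2 + a).natAbs = s)).card : ℝ))) ⊆
        (Icc (-(A : ℤ)) A).filter (fun a : ℤ => ¬ ∀ s : ℤ, (s = 1 ∨ s = -1) →
          (-(1 / 8) * Real.log (max (2 / 3) (3 / 2 - θ)) - ε) * N
            ≤ (((Icc 1 N).filter (fun n : ℕ =>
              ArithmeticFunction.liouville ((n : ℤ) ^ 2 + a).natAbs = s)).card : ℝ)) := by
      intro a ha
      rw [Finset.mem_filter] at ha ⊢
      refine ⟨ha.1, fun hall => ha.2 ⟨fun h => absurd h h56, fun s hs => ?_⟩⟩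
      have h1 := hall s hs
      rw [hmax] at h1
      rw [cth, if_neg h56]
      exact h1
    exact_mod_cast Finset.card_le_card hsub

end Pool.Agent.Lib.MP391708.QPA.C
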