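import Pool.Agent.Lib.MP_391708_nt.QPA.C.SpecD
import Pool.Agent.Lib.MP_391708_nt.QPA.C.AllT

/-!
# Module EXTD: from `SpecFIND` to the joint law in its final form

One exceptional set of `a` for all sets `E` of vectors of counts and both signs of the Liouville function.
-/

set_option autoImplicit false

namespace Pool.Agent.Lib.MP391708.QPA.C

open Finset Filter Topology
open Pool.Agent.Lib.MP391708.QPA
open Pool.Agent.Lib.MP391708.QPA.H
open scoped Classical

/-- the joint law of the numbers of prime factors `> N^(x_j)` and the Liouville function -/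
def SpecJOINT : Prop := ∀ (θ ε : ℝ) (r : ℕ) (x : Fin r → ℝ), 5 / 6 < θ → 0 < ε → (∀ j, 0 < x j) →
  ∃ N₀ : ℕ, ∀ N A : ℕ, N₀ ≤ N → (N : ℝ) ^ θ ≤ A → A ≤ N →
  ∃ B : Finset ℤ, (B.card : ℝ) ≤ ε * A ∧ ∀ a ∈ IA A, a ∉ B →
    ∀ (E : Set (Fin r → ℕ)) (s : ℤ), (s = 1 ∨ s = -1) →
    |(((Icc 1 N).filter (fun n : ℕ => (fun j => Cn N (x j) (val a n)) ∈ E ∧
        ArithmeticFunction.liouville (val a n) = s)).card : ℝ) / N
      - (((Icc 1 (N ^ 2)).filter (fun m : ℕ => (fun j => Cn N (x j) m) ∈ E)).card : ℝ)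
        / (2 * (N : ℝ) ^ 2)| ≤ ε

namespace EXTDM

/-- a list of numbers `> c ≥ 0` -/
theorem list_pow_le (c : ℝ) (hc : 0 ≤ c) : ∀ l : List ℕ, (∀ p ∈ l, c < (p : ℝ)) →
    c ^ l.length ≤ ((l.prod : ℕ) : ℝ) := by
  intro l
  induction l with
  | nil => intro _; simp
  | cons q l ih =>
    intro h
    have h1 : c < (q : ℝ) := h q (by simp)
    have h2 := ih (fun p hp => h p (by simp [hp]))
    rw [List.length_cons, List.prod_cons, Nat.cast_mul, pow_succ, mul_comm]
    exact mul_le_mul h1.le h2 (pow_nonneg hc _) (by positivity)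

/-- the number of prime factors `> N^y` of `m ≤ N^3` is at most `3/y` -/
theorem cn_le {N : ℕ} (hN : 2 ≤ N) {y : ℝ} (hy : 0 < y) {m : ℕ} (hm : m ≤ N ^ 3) :
    (Cn N y m : ℝ) ≤ 3 / y := by
  have hN1 : (1 : ℝ) < N := by exact_mod_cast (by omega : 1 < N)
  rcases Nat.eq_zero_or_pos m with rfl | hpos
  · simp only [Cn, Nat.primeFactorsList_zero, List.filter_nil, List.length_nil, Nat.cast_zero]
    positivity
  set l := m.primeFactorsList.filter (fun p : ℕ => decide ((N : ℝ) ^ y < (p : ℝ))) with hl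
  have hdvd : l.prod ∣ m := by
    have h1 : l.Sublist m.primeFactorsList := List.filter_sublist
    have h2 := h1.prod_dvd_prod
    rwa [Nat.prod_primeFactorsList hpos.ne'] at h2
  have hle : ((l.prod : ℕ) : ℝ) ≤ (N : ℝ) ^ 3 := by
    have : l.prod ≤ N ^ 3 := le_trans (Nat.le_of_dvd hpos hdvd) hm
    exact_mod_cast this
  have h3 : ((N : ℝ) ^ y) ^ l.length ≤ ((l.prod : ℕ) : ℝ) := by
    apply list_pow_le _ (by positivity)
    intro p hp
    rw [hl, List.mem_filter] at hp
    simpa using hp.2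
  have h4 : (N : ℝ) ^ (y * (l.length : ℝ)) ≤ (N : ℝ) ^ (3 : ℝ) := by
    rw [Real.rpow_mul (by positivity), Real.rpow_natCast]
    refine le_trans (le_trans h3 hle) (le_of_eq ?_)
    norm_cast
  have h5 := (Real.rpow_le_rpow_left_iff hN1).1 h4
  have h6 : (Cn N y m : ℝ) = (l.length : ℝ) := rfl
  rw [h6, le_div_iff₀ hy]
  linarith

/-- pointwise expansion over the finitely many vectors -/
theorem expand {r : ℕ} (V : Finset (Fin r → ℕ)) (E : Set (Fin r → ℕ)) (c : Fin r → ℕ) (hc : c ∈ V)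
    (y : ℝ) : (if c ∈ E then y else 0) = ∑ v ∈ V.filter (fun v => v ∈ E), y * (if c = v then 1 else 0) := by
  by_cases h : c ∈ E
  · rw [if_pos h, Finset.sum_eq_single c]
    · simp
    · intro v _ hv
      rw [if_neg (fun h => hv h.symm), mul_zero]
    · intro hn
      exact absurd (Finset.mem_filter.2 ⟨hc, h⟩) hn
  · rw [if_neg h, Finset.sum_eq_zero]
    intro v hv
    rw [if_neg, mul_zero]
    rintro rfl
    exact h (Finset.mem_filter.1 hv).2

/-- the combination -/
theorem combine {r : ℕ} (N : ℕ) (hN : 2 ≤ N) (x : Fin r → ℝ) (a : ℤ) (V : Finset (Fin r → ℕ)) (δ : ℝ)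
    (hV1 : ∀ n ∈ Icc 1 N, (fun j => Cn N (x j) (val a n)) ∈ V)
    (hV2 : ∀ m ∈ Icc 1 (N ^ 2), (fun j => Cn N (x j) m) ∈ V)
    (h1 : ∀ v ∈ V, |∑ n ∈ Icc 1 N, cF N r x (fun w => if w = v then 1 else 0) (val a n)
      - (∑ m ∈ Icc 1 (N ^ 2), cF N r x (fun w => if w = v then 1 else 0) m) / N| ≤ δ * N)
    (h2 : ∀ v ∈ V, |∑ n ∈ Icc 1 N, lio (val a n) * cF N r x (fun w => if w = v then 1 else 0) (val a n)|
      ≤ δ * N)
    (E : Set (Fin r → ℕ)) (s : ℤ) (hs : s = 1 ∨ s = -1) :
    |(((Icc 1 N).filter (fun n : ℕ => (fun j => Cn N (x j) (val a n)) ∈ E ∧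
        ArithmeticFunction.liouville (val a n) = s)).card : ℝ) / N
      - (((Icc 1 (N ^ 2)).filter (fun m : ℕ => (fun j => Cn N (x j) m) ∈ E)).card : ℝ)
        / (2 * (N : ℝ) ^ 2)| ≤ V.card * δ + 1 / (2 * N) := by
  have hN0 : (0 : ℝ) < N := by exact_mod_cast (by omega : 0 < N)
  set W := V.filter (fun v => v ∈ E) with hW
  -- the model
  have hM : (((Icc 1 (N ^ 2)).filter (fun m : ℕ => (fun j => Cn N (x j) m) ∈ E)).card : ℝ)
      = ∑ v ∈ W, ∑ m ∈ Icc 1 (N ^ 2), cF N r x (fun w => if w = v then 1 else 0) m := by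
    rw [Finset.sum_comm, Finset.card_filter, Nat.cast_sum]
    refine Finset.sum_congr rfl (fun m hm => ?_)
    have h := expand V E (fun j => Cn N (x j) m) (hV2 m hm) 1
    simp only [one_mul] at h
    rw [Nat.cast_ite, Nat.cast_one, Nat.cast_zero, h]
    rfl
  -- the values
  have hpt : ∀ n ∈ Icc 1 N,
      |(if ((fun j => Cn N (x j) (val a n)) ∈ E ∧ ArithmeticFunction.liouville (val a n) = s)
          then (1 : ℝ) else 0)
        - ∑ v ∈ W, (1 / 2 * cF N r x (fun w => if w = v then 1 else 0) (val a n)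
          + s / 2 * (lio (val a n) * cF N r x (fun w => if w = v then 1 else 0) (val a n)))|
      ≤ 1 / 2 * (if ((n : ℤ) ^ 2 + a) = 0 then 1 else 0) := by
    intro n hn
    have hex := expand V E (fun j => Cn N (x j) (val a n)) (hV1 n hn) (1 / 2 + s / 2 * lio (val a n))
    have hsum : ∑ v ∈ W, (1 / 2 * cF N r x (fun w => if w = v then 1 else 0) (val a n)
          + s / 2 * (lio (val a n) * cF N r x (fun w => if w = v then 1 else 0) (val a n)))
        = (if (fun j => Cn N (x j) (val a n)) ∈ E then (1 / 2 + s / 2 * lio (val a n)) else 0) := by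
      rw [hex]
      refine Finset.sum_congr rfl (fun v _ => ?_)
      simp only [cF]
      ring
    rw [hsum]
    by_cases hE : (fun j => Cn N (x j) (val a n)) ∈ E
    · rw [if_pos hE]
      by_cases h0 : ((n : ℤ) ^ 2 + a) = 0
      · have hv : val a n = 0 := by rw [val, h0]; rfl
        have hl : ArithmeticFunction.liouville 0 = 0 := by simp
        rw [if_pos h0, if_neg, hv, lio, hl]
        · norm_num
        · rintro ⟨-, h⟩
          rw [hv, hl] at h
          rcases hs with h' | h' <;> rw [h'] at h <;> norm_num at h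
      · have hm : val a n ≠ 0 := Int.natAbs_ne_zero.2 h0
        rw [if_neg h0, mul_zero]
        refine le_of_eq (abs_eq_zero.2 ?_)
        rcases FINLM.lio_or hm with h | h <;> rcases hs with h' | h' <;>
          simp [h, h', hE, lio] <;> norm_num
    · rw [if_neg hE, if_neg (fun h => hE h.1)]
      simp only [sub_zero, abs_zero]
      split_ifs <;> norm_num
  have hS := Finset.sum_le_sum hpt
  have hS1 := le_trans (Finset.abs_sum_le_sum_abs _ _) hS
  have hz : ∑ n ∈ Icc 1 N, (1 / 2 * (if ((n : ℤ) ^ 2 + a) = 0 then (1 : ℝ) else 0)) ≤ 1 / 2 := by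
    rw [← Finset.mul_sum, ← Finset.sum_filter, Finset.sum_const, nsmul_eq_mul, mul_one]
    have := AllM.zeros a N
    have h' : (((Icc 1 N).filter (fun n : ℕ => ((n : ℤ) ^ 2 + a) = 0)).card : ℝ) ≤ 1 := by
      exact_mod_cast this
    linarith
  have hC : (((Icc 1 N).filter (fun n : ℕ => (fun j => Cn N (x j) (val a n)) ∈ E ∧
        ArithmeticFunction.liouville (val a n) = s)).card : ℝ)
      = ∑ n ∈ Icc 1 N, (if ((fun j => Cn N (x j) (val a n)) ∈ E ∧
        ArithmeticFunction.liouville (val a n) = s) then (1 : ℝ) else 0) := by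
    rw [Finset.card_filter, Nat.cast_sum]
    refine Finset.sum_congr rfl (fun n _ => ?_)
    rw [Nat.cast_ite, Nat.cast_one, Nat.cast_zero]
  rw [Finset.sum_sub_distrib, ← hC, Finset.sum_comm] at hS1
  have hsplit : ∀ v, ∑ n ∈ Icc 1 N, (1 / 2 * cF N r x (fun w => if w = v then 1 else 0) (val a n)
          + s / 2 * (lio (val a n) * cF N r x (fun w => if w = v then 1 else 0) (val a n)))
      = 1 / 2 * ∑ n ∈ Icc 1 N, cF N r x (fun w => if w = v then 1 else 0) (val a n)
        + s / 2 * ∑ n ∈ Icc 1 N, lio (val a n) * cF N r x (fun w => if w = v then 1 else 0) (val a n) := by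
    intro v
    rw [Finset.sum_add_distrib, Finset.mul_sum, Finset.mul_sum]
  have hone : ∀ v ∈ W, |(1 / 2 * ∑ n ∈ Icc 1 N, cF N r x (fun w => if w = v then 1 else 0) (val a n)
        + s / 2 * ∑ n ∈ Icc 1 N, lio (val a n) * cF N r x (fun w => if w = v then 1 else 0) (val a n))
      - 1 / 2 * ((∑ m ∈ Icc 1 (N ^ 2), cF N r x (fun w => if w = v then 1 else 0) m) / N)| ≤ δ * N := by
    intro v hv
    have hvV := (Finset.mem_filter.1 hv).1
    have g1 := abs_le.1 (h1 v hvV)
    have g2 := abs_le.1 (h2 v hvV)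
    rw [abs_le]
    rcases hs with h | h <;> rw [h] <;> push_cast <;> constructor <;> linarith [g1.1, g1.2, g2.1, g2.2]
  have hall := le_trans (Finset.abs_sum_le_sum_abs
    (fun v => (1 / 2 * ∑ n ∈ Icc 1 N, cF N r x (fun w => if w = v then 1 else 0) (val a n)
        + s / 2 * ∑ n ∈ Icc 1 N, lio (val a n) * cF N r x (fun w => if w = v then 1 else 0) (val a n))
      - 1 / 2 * ((∑ m ∈ Icc 1 (N ^ 2), cF N r x (fun w => if w = v then 1 else 0) m) / N)) W)
    (Finset.sum_le_sum hone)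
  rw [Finset.sum_const, nsmul_eq_mul, Finset.sum_sub_distrib] at hall
  rw [Finset.sum_congr rfl (fun v _ => hsplit v)] at hS1
  have hmod : ∑ v ∈ W, 1 / 2 * ((∑ m ∈ Icc 1 (N ^ 2), cF N r x (fun w => if w = v then 1 else 0) m) / N)
      = (((Icc 1 (N ^ 2)).filter (fun m : ℕ => (fun j => Cn N (x j) m) ∈ E)).card : ℝ) / (2 * N) := by
    rw [hM, ← Finset.mul_sum, ← Finset.sum_div]
    field_simp
  rw [hmod] at hall
  have hWV : (W.card : ℝ) ≤ V.card := by exact_mod_cast Finset.card_filter_le _ _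
  have hδ : W.card * (δ * N) ≤ V.card * (δ * N) := by
    rcases W.eq_empty_or_nonempty with h | ⟨v, hv⟩
    · have hVc : (0 : ℝ) ≤ V.card := by positivity
      rcases V.eq_empty_or_nonempty with h' | ⟨v, hv⟩
      · rw [h, h']
      · have := le_trans (abs_nonneg _) (h2 v hv)
        rw [h, Finset.card_empty, Nat.cast_zero, zero_mul]
        positivity
    · have := le_trans (abs_nonneg _) (h2 v (Finset.mem_filter.1 hv).1)
      exact mul_le_mul_of_nonneg_right hWV this
  have htot : |(((Icc 1 N).filter (fun n : ℕ => (fun j => Cn N (x j) (val a n)) ∈ E ∧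
        ArithmeticFunction.liouville (val a n) = s)).card : ℝ)
      - (((Icc 1 (N ^ 2)).filter (fun m : ℕ => (fun j => Cn N (x j) m) ∈ E)).card : ℝ) / (2 * N)|
      ≤ V.card * (δ * N) + 1 / 2 := by
    have g1 := abs_le.1 (le_trans hS1 hz)
    have g2 := abs_le.1 (le_trans hall hδ)
    rw [abs_le]
    constructor <;> linarith [g1.1, g1.2, g2.1, g2.2]
  have hdiv : (((Icc 1 N).filter (fun n : ℕ => (fun j => Cn N (x j) (val a n)) ∈ E ∧
        ArithmeticFunction.liouville (val a n) = s)).card : ℝ) / N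
      - (((Icc 1 (N ^ 2)).filter (fun m : ℕ => (fun j => Cn N (x j) m) ∈ E)).card : ℝ)
        / (2 * (N : ℝ) ^ 2)
      = ((((Icc 1 N).filter (fun n : ℕ => (fun j => Cn N (x j) (val a n)) ∈ E ∧
        ArithmeticFunction.liouville (val a n) = s)).card : ℝ)
      - (((Icc 1 (N ^ 2)).filter (fun m : ℕ => (fun j => Cn N (x j) m) ∈ E)).card : ℝ) / (2 * N)) / N := by
    field_simp
  rw [hdiv, abs_div, abs_of_pos hN0, div_le_iff₀ hN0]
  refine le_trans htot (le_of_eq ?_)
  field_simp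

end EXTDM

open EXTDM in
theorem specEXTD (h : SpecFIND) : SpecJOINT := by
  intro θ ε r x hθ hε hx
  -- the finite set of vectors
  obtain ⟨K, hK⟩ : ∃ K : ℕ, ∀ j, 3 / x j < K := by
    refine ⟨∑ j, (⌈3 / x j⌉₊ + 1), fun j => ?_⟩
    have h1 : (⌈3 / x j⌉₊ + 1) ≤ ∑ j, (⌈3 / x j⌉₊ + 1) :=
      Finset.single_le_sum (f := fun j => ⌈3 / x j⌉₊ + 1) (fun _ _ => Nat.zero_le _) (Finset.mem_univ j)
    have h2 : 3 / x j ≤ ⌈3 / x j⌉₊ := Nat.le_ceil _
    have h3 : ((⌈3 / x j⌉₊ + 1 : ℕ) : ℝ) ≤ ((∑ j, (⌈3 / x j⌉₊ + 1) : ℕ) : ℝ) := by exact_mod_cast h1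
    push_cast at h3 ⊢
    linarith
  set V : Finset (Fin r → ℕ) := Fintype.piFinset (fun _ => range K) with hV
  have hmem : ∀ N : ℕ, 2 ≤ N → ∀ m : ℕ, m ≤ N ^ 3 → (fun j => Cn N (x j) m) ∈ V := by
    intro N hN m hm
    rw [hV, Fintype.mem_piFinset]
    intro j
    rw [Finset.mem_range]
    have h1 := cn_le hN (hx j) hm
    have h2 : (Cn N (x j) m : ℝ) < K := lt_of_le_of_lt h1 (hK j)
    exact_mod_cast h2
  have hVpos : 0 < V.card := by
    refine Finset.card_pos.2 ⟨_, hmem 2 le_rfl 0 (by norm_num)⟩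
  have hVR : (0 : ℝ) < V.card := by exact_mod_cast hVpos
  set δ : ℝ := ε / (2 * V.card) with hδ
  have hδ0 : 0 < δ := by positivity
  choose N0 hN0 using fun v : Fin r → ℕ => h θ δ r x (fun w => if w = v then 1 else 0) hθ hδ0 hx
    (fun w => by
      show |(if w = v then (1 : ℝ) else 0)| ≤ 1
      split_ifs <;> simp)
  refine ⟨V.sup N0 + ⌈1 / ε⌉₊ + 2, fun N A hN hA hAN => ?_⟩
  have hN2 : 2 ≤ N := by omega
  have hNv : ∀ v ∈ V, N0 v ≤ N := fun v hv => by
    have := Finset.le_sup (f := N0) hv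
    omega
  have hN1 : (1 : ℝ) / ε ≤ N := by
    have h1 : 1 / ε ≤ ⌈1 / ε⌉₊ := Nat.le_ceil _
    have h2 : ((⌈1 / ε⌉₊ : ℕ) : ℝ) ≤ N := by exact_mod_cast (by omega : ⌈1 / ε⌉₊ ≤ N)
    linarith
  have hNpos : (0 : ℝ) < N := by exact_mod_cast (by omega : 0 < N)
  refine ⟨V.biUnion (fun v =>
    ((IA A).filter (fun a => δ * N < |∑ n ∈ Icc 1 N, cF N r x (fun w => if w = v then 1 else 0) (val a n)
      - (∑ m ∈ Icc 1 (N ^ 2), cF N r x (fun w => if w = v then 1 else 0) m) / N|)) ∪
    ((IA A).filter (fun a => δ * N <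
      |∑ n ∈ Icc 1 N, lio (val a n) * cF N r x (fun w => if w = v then 1 else 0) (val a n)|))), ?_, ?_⟩
  · have h1 : ∀ v ∈ V, ((((IA A).filter (fun a => δ * N <
        |∑ n ∈ Icc 1 N, cF N r x (fun w => if w = v then 1 else 0) (val a n)
      - (∑ m ∈ Icc 1 (N ^ 2), cF N r x (fun w => if w = v then 1 else 0) m) / N|)) ∪
    ((IA A).filter (fun a => δ * N <
      |∑ n ∈ Icc 1 N, lio (val a n) * cF N r x (fun w => if w = v then 1 else 0) (val a n)|))).card : ℝ)
        ≤ 2 * (δ * A) := by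
      intro v hv
      obtain ⟨g1, g2⟩ := hN0 v N A (hNv v hv) hA hAN
      have g3 := Finset.card_union_le ((IA A).filter (fun a => δ * N <
        |∑ n ∈ Icc 1 N, cF N r x (fun w => if w = v then 1 else 0) (val a n)
      - (∑ m ∈ Icc 1 (N ^ 2), cF N r x (fun w => if w = v then 1 else 0) m) / N|))
        ((IA A).filter (fun a => δ * N <
      |∑ n ∈ Icc 1 N, lio (val a n) * cF N r x (fun w => if w = v then 1 else 0) (val a n)|))
      have g4 : ((((IA A).filter (fun a => δ * N <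
        |∑ n ∈ Icc 1 N, cF N r x (fun w => if w = v then 1 else 0) (val a n)
      - (∑ m ∈ Icc 1 (N ^ 2), cF N r x (fun w => if w = v then 1 else 0) m) / N|)) ∪
        ((IA A).filter (fun a => δ * N <
      |∑ n ∈ Icc 1 N, lio (val a n) * cF N r x (fun w => if w = v then 1 else 0) (val a n)|))).card : ℝ)
        ≤ (((IA A).filter (fun a => δ * N <
        |∑ n ∈ Icc 1 N, cF N r x (fun w => if w = v then 1 else 0) (val a n)
      - (∑ m ∈ Icc 1 (N ^ 2), cF N r x (fun w => if w = v then 1 else 0) m) / N|)).card : ℝ)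
        + (((IA A).filter (fun a => δ * N <
      |∑ n ∈ Icc 1 N, lio (val a n) * cF N r x (fun w => if w = v then 1 else 0) (val a n)|)).card : ℝ) := by
        exact_mod_cast g3
      linarith
    have h2 : ((V.biUnion (fun v =>
    ((IA A).filter (fun a => δ * N < |∑ n ∈ Icc 1 N, cF N r x (fun w => if w = v then 1 else 0) (val a n)
      - (∑ m ∈ Icc 1 (N ^ 2), cF N r x (fun w => if w = v then 1 else 0) m) / N|)) ∪
    ((IA A).filter (fun a => δ * N <
      |∑ n ∈ Icc 1 N, lio (val a n) * cF N r x (fun w => if w = v then 1 else 0) (val a n)|)))).card : ℝ)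
        ≤ ∑ v ∈ V, 2 * (δ * A) := by
      refine le_trans ?_ (Finset.sum_le_sum h1)
      exact_mod_cast Finset.card_biUnion_le
    refine le_trans h2 (le_of_eq ?_)
    rw [Finset.sum_const, nsmul_eq_mul, hδ]
    field_simp
  · intro a ha haB E s hs
    have hnot : ∀ v ∈ V, (|∑ n ∈ Icc 1 N, cF N r x (fun w => if w = v then 1 else 0) (val a n)
      - (∑ m ∈ Icc 1 (N ^ 2), cF N r x (fun w => if w = v then 1 else 0) m) / N| ≤ δ * N) ∧
      |∑ n ∈ Icc 1 N, lio (val a n) * cF N r x (fun w => if w = v then 1 else 0) (val a n)| ≤ δ * N := by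
      intro v hv
      constructor
      · by_contra hc
        apply haB
        rw [Finset.mem_biUnion]
        exact ⟨v, hv, Finset.mem_union_left _ (Finset.mem_filter.2 ⟨ha, not_le.1 hc⟩)⟩
      · by_contra hc
        apply haB
        rw [Finset.mem_biUnion]
        exact ⟨v, hv, Finset.mem_union_right _ (Finset.mem_filter.2 ⟨ha, not_le.1 hc⟩)⟩
    have haA : |a| ≤ (A : ℤ) := by
      rw [IA, Finset.mem_Icc] at ha
      exact abs_le.2 ha
    have hval : ∀ n ∈ Icc 1 N, val a n ≤ N ^ 3 := by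
      intro n hn
      have hnN := (Finset.mem_Icc.1 hn).2
      have h1 : |(n : ℤ) ^ 2 + a| ≤ (N : ℤ) ^ 2 + N := by
        refine le_trans (abs_add_le _ _) ?_
        have h2 : |(n : ℤ) ^ 2| ≤ (N : ℤ) ^ 2 := by
          rw [abs_of_nonneg (by positivity)]
          exact pow_le_pow_left₀ (by positivity) (by exact_mod_cast hnN) 2
        have h3 : (A : ℤ) ≤ N := by exact_mod_cast hAN
        linarith
      have h2 : (val a n : ℤ) ≤ (N : ℤ) ^ 3 := by
        rw [val, Int.natCast_natAbs]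
        refine le_trans h1 ?_
        have h3 : (2 : ℤ) ≤ N := by exact_mod_cast hN2
        nlinarith [sq_nonneg ((N : ℤ)), mul_nonneg (sq_nonneg ((N : ℤ))) (by linarith : (0 : ℤ) ≤ N - 2),
          mul_nonneg (by linarith : (0 : ℤ) ≤ (N : ℤ)) (by linarith : (0 : ℤ) ≤ (N : ℤ) - 1)]
      exact_mod_cast h2
    have hfin := combine N hN2 x a V δ (fun n hn => hmem N hN2 _ (hval n hn))
      (fun m hm => hmem N hN2 _ (le_trans (Finset.mem_Icc.1 hm).2
        (Nat.pow_le_pow_right (by omega) (by norm_num))))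
      (fun v hv => (hnot v hv).1) (fun v hv => (hnot v hv).2) E s hs
    refine le_trans hfin ?_
    have h1 : (V.card : ℝ) * δ = ε / 2 := by
      rw [hδ]
      field_simp
    have h2 : 1 / (2 * (N : ℝ)) ≤ ε / 2 := by
      rw [div_le_iff₀ hε] at hN1
      rw [div_le_div_iff₀ (by positivity) (by norm_num)]
      linarith
    linarith

end Pool.Agent.Lib.MP391708.QPA.C
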