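import Pool.Agent.Lib.MP_391708_nt.QPA.C.SpecD
import Pool.Agent.Lib.MP_391708_nt.QPA.C.FINC
import Pool.Agent.Lib.MP_391708_nt.QPA.WIN
import Pool.Agent.Lib.MP_391708_nt.QPA.TI

/-!
# FIND: from the blocks `(M, 2M]` to the sums over `n ≤ N`
-/

set_option autoImplicit false

namespace Pool.Agent.Lib.MP391708.QPA.C

open Finset Filter Topology
open Pool.Agent.Lib.MP391708.QPA
open Pool.Agent.Lib.MP391708.QPA.H
open scoped Classical

noncomputable section

namespace FINDM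

/-- `∑_{n≤x} g(|n²+a|) - t ∑_{m≤x²} g(m)/(2√m)` -/
def DD (t : ℝ) (g : ℕ → ℝ) (a : ℤ) (x : ℕ) : ℝ :=
  ∑ n ∈ Ioc 0 x, g (val a n) - t * ∑ m ∈ Ioc 0 (x ^ 2), g m / (2 * √(m : ℝ))

/-- the numbers between `4q²` and `M²`, `q = ⌊M/2⌋` -/
lemma gap (g : ℕ → ℝ) (hg : ∀ m, |g m| ≤ 1) (M : ℕ) :
    |∑ m ∈ Ioc (4 * (M / 2) ^ 2) (M ^ 2), g m / (2 * √(m : ℝ))| ≤ 2 := by
  set q := M / 2 with hq
  have hcard : M ^ 2 - 4 * q ^ 2 ≤ 4 * q + 1 := by
    have h1 : M ≤ 2 * q + 1 := by omega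
    have h2 : M ^ 2 ≤ (2 * q + 1) ^ 2 := Nat.pow_le_pow_left h1 2
    have h3 : (2 * q + 1) ^ 2 = 4 * q ^ 2 + (4 * q + 1) := by ring
    omega
  have hterm : ∀ m ∈ Ioc (4 * q ^ 2) (M ^ 2), |g m / (2 * √(m : ℝ))| ≤ 1 / (2 * max (2 * (q : ℝ)) 1) := by
    intro m hm
    rw [mem_Ioc] at hm
    have h1 : max (2 * (q : ℝ)) 1 ≤ √(m : ℝ) := by
      apply max_le
      · apply Real.le_sqrt_of_sq_le
        have : 4 * q ^ 2 ≤ m := hm.1.le
        have h2 : (4 : ℝ) * q ^ 2 ≤ m := by exact_mod_cast this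
        nlinarith
      · apply Real.le_sqrt_of_sq_le
        have : 1 ≤ m := by omega
        have h2 : (1 : ℝ) ≤ m := by exact_mod_cast this
        linarith
    have h2 : (0 : ℝ) < max (2 * (q : ℝ)) 1 := lt_max_of_lt_right one_pos
    rw [abs_div, abs_of_pos (show (0 : ℝ) < 2 * √(m : ℝ) by linarith)]
    exact div_le_div₀ zero_le_one (hg m) (by positivity) (by linarith)
  refine (abs_sum_le_sum_abs _ _).trans ((sum_le_card_nsmul _ _ _ hterm).trans ?_)
  rw [nsmul_eq_mul, Nat.card_Ioc]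
  have h1 : ((M ^ 2 - 4 * q ^ 2 : ℕ) : ℝ) ≤ 4 * q + 1 := by exact_mod_cast hcard
  have h2 : (0 : ℝ) < max (2 * (q : ℝ)) 1 := lt_max_of_lt_right one_pos
  have h3 : (2 * (q : ℝ)) ≤ max (2 * (q : ℝ)) 1 := le_max_left _ _
  have h4 : (1 : ℝ) ≤ max (2 * (q : ℝ)) 1 := le_max_right _ _
  rw [mul_one_div, div_le_iff₀ (by positivity)]
  linarith

lemma step (t : ℝ) (ht0 : 0 ≤ t) (ht1 : t ≤ 1) (g : ℕ → ℝ) (hg : ∀ m, |g m| ≤ 1) (a : ℤ) (M : ℕ) :
    |DD t g a M| ≤ |DD t g a (M / 2)| + |cnt (M / 2) a g - t * model (M / 2) g| + 3 := by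
  set q := M / 2 with hq
  have e1 : ∑ n ∈ Ioc 0 M, g (val a n) = ∑ n ∈ Ioc 0 q, g (val a n) + cnt q a g
      + ∑ n ∈ Ioc (2 * q) M, g (val a n) := by
    unfold cnt
    rw [sum_Ioc_consecutive _ (Nat.zero_le _) (by omega), sum_Ioc_consecutive _ (Nat.zero_le _) (by omega)]
  have hqM : 4 * q ^ 2 ≤ M ^ 2 := by
    have h1 : 2 * q ≤ M := by omega
    have h2 : (2 * q) ^ 2 ≤ M ^ 2 := Nat.pow_le_pow_left h1 2
    have h3 : (2 * q) ^ 2 = 4 * q ^ 2 := by ring
    omega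
  have e2 : ∑ m ∈ Ioc 0 (M ^ 2), g m / (2 * √(m : ℝ)) = ∑ m ∈ Ioc 0 (q ^ 2), g m / (2 * √(m : ℝ))
      + model q g + ∑ m ∈ Ioc (4 * q ^ 2) (M ^ 2), g m / (2 * √(m : ℝ)) := by
    unfold model
    rw [sum_Ioc_consecutive _ (Nat.zero_le _) (by omega), sum_Ioc_consecutive _ (Nat.zero_le _) hqM]
  have h1 : |∑ n ∈ Ioc (2 * q) M, g (val a n)| ≤ 1 := by
    refine (abs_sum_le_sum_abs _ _).trans ?_
    refine (sum_le_card_nsmul _ _ 1 (fun n _ => hg _)).trans ?_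
    rw [nsmul_eq_mul, mul_one, Nat.card_Ioc]
    have : M - 2 * q ≤ 1 := by omega
    exact_mod_cast this
  have h2 := gap g hg M
  rw [← hq] at h2
  have e3 : DD t g a M = DD t g a q + (cnt q a g - t * model q g) + (∑ n ∈ Ioc (2 * q) M, g (val a n)
      - t * ∑ m ∈ Ioc (4 * q ^ 2) (M ^ 2), g m / (2 * √(m : ℝ))) := by
    unfold DD
    rw [e1, e2]
    ring
  rw [e3]
  have h3 : |t * ∑ m ∈ Ioc (4 * q ^ 2) (M ^ 2), g m / (2 * √(m : ℝ))| ≤ 2 := by
    rw [abs_mul, abs_of_nonneg ht0]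
    calc t * |∑ m ∈ Ioc (4 * q ^ 2) (M ^ 2), g m / (2 * √(m : ℝ))| ≤ 1 * 2 :=
          mul_le_mul ht1 h2 (abs_nonneg _) (by norm_num)
      _ = 2 := by norm_num
  have h4 := abs_sub (∑ n ∈ Ioc (2 * q) M, g (val a n))
    (t * ∑ m ∈ Ioc (4 * q ^ 2) (M ^ 2), g m / (2 * √(m : ℝ)))
  have h5 := abs_add_le (DD t g a q + (cnt q a g - t * model q g)) (∑ n ∈ Ioc (2 * q) M, g (val a n)
      - t * ∑ m ∈ Ioc (4 * q ^ 2) (M ^ 2), g m / (2 * √(m : ℝ)))
  have h6 := abs_add_le (DD t g a q) (cnt q a g - t * model q g)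
  linarith

lemma chain (t : ℝ) (ht0 : 0 ≤ t) (ht1 : t ≤ 1) (g : ℕ → ℝ) (hg : ∀ m, |g m| ≤ 1) (a : ℤ) (x I : ℕ) :
    |DD t g a x| ≤ |DD t g a (x / 2 ^ I)|
      + ∑ i ∈ range I, |cnt (x / 2 ^ (i + 1)) a g - t * model (x / 2 ^ (i + 1)) g| + 3 * I := by
  induction I with
  | zero => simp
  | succ I ih =>
    rw [sum_range_succ]
    have hM2 : x / 2 ^ (I + 1) = x / 2 ^ I / 2 := by
      rw [Nat.div_div_eq_div_mul, pow_succ]
    rw [hM2]
    have h3 := step t ht0 ht1 g hg a (x / 2 ^ I)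
    push_cast
    linarith

lemma base (t : ℝ) (ht0 : 0 ≤ t) (ht1 : t ≤ 1) (g : ℕ → ℝ) (hg : ∀ m, |g m| ≤ 1) (a : ℤ) (y : ℕ) :
    |DD t g a y| ≤ 2 * y := by
  unfold DD
  have h1 : |∑ n ∈ Ioc 0 y, g (val a n)| ≤ y := by
    refine (abs_sum_le_sum_abs _ _).trans ?_
    refine (sum_le_card_nsmul _ _ 1 (fun n _ => hg _)).trans ?_
    rw [nsmul_eq_mul, mul_one, Nat.card_Ioc, Nat.sub_zero]
  have h2 : |∑ m ∈ Ioc 0 (y ^ 2), g m / (2 * √(m : ℝ))| ≤ y := by
    refine (abs_sum_le_sum_abs _ _).trans ?_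
    have h3 : ∀ m ∈ Ioc 0 (y ^ 2), |g m / (2 * √(m : ℝ))| ≤ 1 / 2 * (1 / √(m : ℝ)) := by
      intro m _
      rw [abs_div, abs_of_nonneg (show (0 : ℝ) ≤ 2 * √(m : ℝ) by positivity), div_mul_div_comm, one_mul]
      exact div_le_div_of_nonneg_right (hg m) (by positivity)
    refine (sum_le_sum h3).trans ?_
    rw [← mul_sum]
    have h4 := WIN.sum_inv_sqrt (y ^ 2)
    have h5 : Ioc 0 (y ^ 2) = Icc 1 (y ^ 2) := by
      ext n
      simp only [mem_Icc, mem_Ioc]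
      omega
    have h6 : √((y ^ 2 : ℕ) : ℝ) = y := by
      push_cast
      exact Real.sqrt_sq (Nat.cast_nonneg y)
    rw [h5]
    rw [h6] at h4
    linarith
  have h3 : |t * ∑ m ∈ Ioc 0 (y ^ 2), g m / (2 * √(m : ℝ))| ≤ y := by
    rw [abs_mul, abs_of_nonneg ht0]
    calc t * |∑ m ∈ Ioc 0 (y ^ 2), g m / (2 * √(m : ℝ))| ≤ 1 * (y : ℝ) :=
          mul_le_mul ht1 h2 (abs_nonneg _) (by norm_num)
      _ = y := by ring
  have h4 := abs_sub (∑ n ∈ Ioc 0 y, g (val a n)) (t * ∑ m ∈ Ioc 0 (y ^ 2), g m / (2 * √(m : ℝ)))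
  linarith

/-- different numbers of prime factors: a prime factor in a window -/
lemma Cn_diff (N M : ℕ) (y w : ℝ) (m : ℕ) (hMN : M ≤ N) (hM : 1 ≤ M) (hy : 0 ≤ y) (hw : 0 ≤ w)
    (hNM : (N : ℝ) ^ y ≤ (M : ℝ) ^ (y + w)) (hne : ¬ PWn M y w m) : Cn N y m = Cn M y m := by
  unfold Cn
  congr 1
  apply List.filter_congr
  intro p hp
  have hpp := Nat.prime_of_mem_primeFactorsList hp
  have hpd := Nat.dvd_of_mem_primeFactorsList hp
  have hM1 : (1 : ℝ) ≤ M := by exact_mod_cast hM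
  have hle : (M : ℝ) ^ y ≤ (N : ℝ) ^ y :=
    Real.rpow_le_rpow (Nat.cast_nonneg _) (by exact_mod_cast hMN) hy
  have key : (N : ℝ) ^ y < (p : ℝ) ↔ (M : ℝ) ^ y < (p : ℝ) := by
    constructor
    · intro h
      linarith
    · intro h
      by_contra hcon
      push Not at hcon
      apply hne
      refine ⟨p, hpp, hpd, ?_, hcon.trans hNM⟩
      have : (M : ℝ) ^ (y - w) ≤ (M : ℝ) ^ y := Real.rpow_le_rpow_of_exponent_le hM1 (by linarith)
      linarith
  simp only [key]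

lemma cF_diff (N M r : ℕ) (x : Fin r → ℝ) (F : (Fin r → ℕ) → ℝ) (hF : ∀ v, |F v| ≤ 1) (w : ℝ) (m : ℕ)
    (hMN : M ≤ N) (hM : 1 ≤ M) (hx : ∀ j, 0 ≤ x j) (hw : 0 ≤ w)
    (hNM : ∀ j, (N : ℝ) ^ (x j) ≤ (M : ℝ) ^ (x j + w)) :
    |cF N r x F m - cF M r x F m| ≤ 2 * ∑ j, (if PWn M (x j) w m then 1 else 0) := by
  by_cases h : ∃ j, PWn M (x j) w m
  · obtain ⟨j, hj⟩ := h
    have h1 : (1 : ℝ) ≤ ∑ j, (if PWn M (x j) w m then 1 else 0) := by
      have := single_le_sum (f := fun j => if PWn M (x j) w m then (1 : ℝ) else 0)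
        (fun i _ => by positivity) (mem_univ j)
      simp only [hj, if_true] at this
      exact this
    unfold cF
    refine (abs_sub _ _).trans ?_
    have h2 := hF (fun j => Cn N (x j) m)
    have h3 := hF (fun j => Cn M (x j) m)
    linarith
  · push Not at h
    have h1 : (fun j => Cn N (x j) m) = fun j => Cn M (x j) m := by
      funext j
      exact Cn_diff N M (x j) w m hMN hM (hx j) hw (hNM j) (h j)
    unfold cF
    rw [h1, sub_self, abs_zero]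
    positivity

/-- a lower bound for the thresholds -/
lemma exists_u (r : ℕ) (x : Fin r → ℝ) (hx : ∀ j, 0 < x j) : ∃ u : ℝ, 0 < u ∧ ∀ j, u ≤ x j := by
  by_cases hr : Nonempty (Fin r)
  · obtain ⟨j, _, hj⟩ := Finset.exists_min_image (univ : Finset (Fin r)) x univ_nonempty
    exact ⟨x j, hx j, fun i => hj i (mem_univ i)⟩
  · refine ⟨1, one_pos, fun j => ?_⟩
    exact absurd ⟨j⟩ hr

/-- `model` of a difference -/
lemma model_sub (M : ℕ) (f g : ℕ → ℝ) : model M f - model M g = model M (fun m => f m - g m) := by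
  unfold model
  rw [← sum_sub_distrib]
  refine sum_congr rfl fun m _ => ?_
  rw [sub_div]

lemma model_abs (M : ℕ) (f g : ℕ → ℝ) (h : ∀ m, |f m| ≤ g m) : |model M f| ≤ model M g := by
  unfold model
  refine (abs_sum_le_sum_abs _ _).trans (sum_le_sum fun m _ => ?_)
  rw [abs_div, abs_of_nonneg (show (0 : ℝ) ≤ 2 * √(m : ℝ) by positivity)]
  exact div_le_div_of_nonneg_right (h m) (by positivity)

lemma cnt_sub (M : ℕ) (a : ℤ) (f g : ℕ → ℝ) : cnt M a f - cnt M a g = cnt M a (fun m => f m - g m) := by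
  unfold cnt
  rw [← sum_sub_distrib]

lemma cnt_abs (M : ℕ) (a : ℤ) (f g : ℕ → ℝ) (h : ∀ m, |f m| ≤ g m) : |cnt M a f| ≤ cnt M a g := by
  unfold cnt
  exact (abs_sum_le_sum_abs _ _).trans (sum_le_sum fun n _ => h _)

/-- the edge function -/
def ed (M r : ℕ) (x : Fin r → ℝ) (w : ℝ) (m : ℕ) : ℝ := ∑ j, (if PWn M (x j) w m then 1 else 0)

lemma cnt_ed (M r : ℕ) (x : Fin r → ℝ) (w : ℝ) (a : ℤ) :
    cnt M a (ed M r x w) = ∑ j, cnt M a (fun m => if PWn M (x j) w m then 1 else 0) := by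
  unfold cnt ed
  rw [sum_comm]

lemma model_ed (M r : ℕ) (x : Fin r → ℝ) (w : ℝ) :
    model M (ed M r x w) = ∑ j, model M (fun m => if PWn M (x j) w m then 1 else 0) := by
  unfold model ed
  rw [sum_comm]
  refine sum_congr rfl fun m _ => ?_
  rw [sum_div]

/-- one block, comparison of the thresholds -/
lemma block (N M r : ℕ) (x : Fin r → ℝ) (F : (Fin r → ℕ) → ℝ) (hF : ∀ v, |F v| ≤ 1) (w : ℝ)
    (hMN : M ≤ N) (hM : 1 ≤ M) (hx : ∀ j, 0 ≤ x j) (hw : 0 ≤ w)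
    (hNM : ∀ j, (N : ℝ) ^ (x j) ≤ (M : ℝ) ^ (x j + w)) (s : ℕ → ℝ) (hs : ∀ m, |s m| ≤ 1)
    (t : ℝ) (ht0 : 0 ≤ t) (ht1 : t ≤ 1) (a : ℤ) :
    |cnt M a (fun m => s m * cF N r x F m) - t * model M (fun m => s m * cF N r x F m)|
      ≤ |cnt M a (fun m => s m * cF M r x F m) - t * model M (fun m => s m * cF M r x F m)|
        + 2 * cnt M a (ed M r x w) + 2 * model M (ed M r x w) := by
  have hpt : ∀ m, |s m * cF N r x F m - s m * cF M r x F m| ≤ 2 * ed M r x w m := by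
    intro m
    rw [← mul_sub, abs_mul]
    calc |s m| * |cF N r x F m - cF M r x F m| ≤ 1 * (2 * ∑ j, (if PWn M (x j) w m then 1 else 0)) :=
          mul_le_mul (hs m) (cF_diff N M r x F hF w m hMN hM hx hw hNM) (abs_nonneg _) (by norm_num)
      _ = 2 * ed M r x w m := by rw [one_mul]; rfl
  have h1 : |cnt M a (fun m => s m * cF N r x F m) - cnt M a (fun m => s m * cF M r x F m)|
      ≤ 2 * cnt M a (ed M r x w) := by
    rw [cnt_sub]
    refine (cnt_abs M a _ _ hpt).trans (le_of_eq ?_)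
    unfold cnt
    rw [mul_sum]
  have h2 : |model M (fun m => s m * cF N r x F m) - model M (fun m => s m * cF M r x F m)|
      ≤ 2 * model M (ed M r x w) := by
    rw [model_sub]
    refine (model_abs M _ _ hpt).trans (le_of_eq ?_)
    unfold model
    rw [mul_sum]
    refine sum_congr rfl fun m _ => ?_
    ring
  have h3 : |t * (model M (fun m => s m * cF N r x F m) - model M (fun m => s m * cF M r x F m))|
      ≤ 2 * model M (ed M r x w) := by
    rw [abs_mul, abs_of_nonneg ht0]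
    refine le_trans ?_ h2
    exact mul_le_of_le_one_left (abs_nonneg _) ht1
  set A1 := cnt M a (fun m => s m * cF N r x F m)
  set A2 := cnt M a (fun m => s m * cF M r x F m)
  set B1 := model M (fun m => s m * cF N r x F m)
  set B2 := model M (fun m => s m * cF M r x F m)
  have e : A1 - t * B1 = (A2 - t * B2) + (A1 - A2) - t * (B1 - B2) := by ring
  rw [e]
  have h4 := abs_sub ((A2 - t * B2) + (A1 - A2)) (t * (B1 - B2))
  have h5 := abs_add_le (A2 - t * B2) (A1 - A2)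
  linarith

/-- all blocks together -/
theorem gen (hP : SpecPWIN) (hPM : SpecPWINM) (θ : ℝ) (r : ℕ) (x : Fin r → ℝ) (F : (Fin r → ℕ) → ℝ)
    (hθ : 5 / 6 < θ) (hx : ∀ j, 0 < x j) (hF : ∀ v, |F v| ≤ 1) (s : ℕ → ℝ) (hs : ∀ m, |s m| ≤ 1)
    (t : ℝ) (ht0 : 0 ≤ t) (ht1 : t ≤ 1)
    (hCH : ∀ δ : ℝ, 0 < δ → ∃ N₀ : ℕ, ∀ M A : ℕ, N₀ ≤ M → Adm θ M A →
      (((IA A).filter (fun a => δ * M < |cnt M a (fun m => s m * cF M r x F m)
        - t * model M (fun m => s m * cF M r x F m)|)).card : ℝ) ≤ δ * A) :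
    ∀ ε : ℝ, 0 < ε → ∃ N₀ : ℕ, ∀ N A : ℕ, N₀ ≤ N → (N : ℝ) ^ θ ≤ A → A ≤ N →
      (((IA A).filter (fun a => ε * N < |DD t (fun m => s m * cF N r x F m) a N|)).card : ℝ) ≤ ε * A := by
  intro ε hε
  obtain ⟨u, hu0, hu⟩ := exists_u r x hx
  obtain ⟨C1, hC1, hP⟩ := hP θ u hθ hu0
  obtain ⟨C2, hC2, hPM⟩ := hPM u hu0
  -- the number of blocks
  obtain ⟨I, hI⟩ : ∃ I : ℕ, (1 / 2 : ℝ) ^ I < ε / 32 :=
    exists_pow_lt_of_lt_one (by positivity) (by norm_num)
  have hq1 : (1 : ℝ) / 2 ^ I ≤ ε / 32 := by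
    rw [one_div_pow] at hI
    exact hI.le
  have hIr : (0 : ℝ) ≤ I := Nat.cast_nonneg _
  set δ : ℝ := min (ε / 32) (ε / (4 * (I + 1))) with hδ
  have hδ0 : 0 < δ := lt_min (by positivity) (by positivity)
  have hδ1 : δ ≤ ε / 32 := min_le_left _ _
  have hδ2 : (I : ℝ) * δ ≤ ε / 4 := by
    have h1 : δ ≤ ε / (4 * (I + 1)) := min_le_right _ _
    calc (I : ℝ) * δ ≤ (I + 1 : ℝ) * (ε / (4 * (I + 1))) := by
          apply mul_le_mul _ h1 hδ0.le (by positivity)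
          linarith
      _ = ε / 4 := by field_simp
  set w : ℝ := min (min (u / 4) (1 / 1000)) (min (δ ^ 2 / (r * C1 + 1)) (δ / (r * C2 + 1))) with hw
  have hw0 : 0 < w := lt_min (lt_min (by positivity) (by norm_num)) (lt_min (by positivity) (by positivity))
  have hw1 : w ≤ u / 4 := (min_le_left _ _).trans (min_le_left _ _)
  have hw2 : w ≤ 1 / 1000 := (min_le_left _ _).trans (min_le_right _ _)
  have hw3 : r * C1 * w ≤ δ ^ 2 := by
    have h1 : w ≤ δ ^ 2 / (r * C1 + 1) := (min_le_right _ _).trans (min_le_left _ _)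
    rw [le_div_iff₀ (by positivity)] at h1
    nlinarith
  have hw4 : r * C2 * w ≤ δ := by
    have h1 : w ≤ δ / (r * C2 + 1) := (min_le_right _ _).trans (min_le_right _ _)
    rw [le_div_iff₀ (by positivity)] at h1
    nlinarith
  set K : ℕ := 2 ^ I with hK
  have hK1 : 1 ≤ K := Nat.one_le_two_pow
  obtain ⟨M₁, hCH⟩ := hCH δ hδ0
  obtain ⟨M₂, hP⟩ := hP w hw0 hw1 hw2
  obtain ⟨M₃, hPM⟩ := hPM w hw0 hw1 hw2
  have hev : ∀ᶠ M : ℕ in atTop, ∀ j, (2 * K : ℝ) ^ (x j) ≤ (M : ℝ) ^ w :=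
    eventually_all.2 fun j => ((tendsto_rpow_atTop hw0).comp tendsto_natCast_atTop_atTop).eventually_ge_atTop _
  obtain ⟨M₄, hM₄⟩ := eventually_atTop.1 hev
  set M₀ : ℕ := M₁ + M₂ + M₃ + M₄ + 1 with hM₀
  have hevI : ∀ᶠ N : ℕ in atTop, 3 * (I : ℝ) ≤ ε / 8 * N := by
    have h1 : Tendsto (fun N : ℕ => ε / 8 * (N : ℝ)) atTop atTop :=
      tendsto_natCast_atTop_atTop.const_mul_atTop (by positivity)
    exact h1.eventually_ge_atTop _
  obtain ⟨N₀, hN₀⟩ := Filter.eventually_atTop.1 (((FINCM.ev_log K hK1).and hevI).and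
    (eventually_ge_atTop (K * (M₀ + 1) + 1)))
  refine ⟨N₀, fun N A hN hA1 hA2 => ?_⟩
  obtain ⟨⟨hlog, hIN⟩, hNK⟩ := hN₀ N hN
  have hNpos : 0 < N := by omega
  have hNr : (0 : ℝ) < N := by exact_mod_cast hNpos
  have hA0 : (0 : ℝ) ≤ A := Nat.cast_nonneg _
  set m : ℕ → ℕ := fun i => N / 2 ^ (i + 1) with hm
  have hmN : ∀ i ∈ range I, N ≤ K * (m i + 1) ∧ m i ≤ N ∧ M₀ ≤ m i := by
    intro i hi
    rw [mem_range] at hi
    have h2 : N < 2 ^ (i + 1) * (m i + 1) := Nat.lt_mul_div_succ _ (by positivity)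
    have h3 : 2 ^ (i + 1) * (m i + 1) ≤ K * (m i + 1) :=
      Nat.mul_le_mul_right _ (Nat.pow_le_pow_right (by norm_num) (by omega))
    refine ⟨by omega, Nat.div_le_self _ _, ?_⟩
    by_contra hcon
    push Not at hcon
    have h6 : K * (m i + 1) ≤ K * M₀ := Nat.mul_le_mul_left _ (by omega)
    have h7 : K * M₀ ≤ K * (M₀ + 1) := Nat.mul_le_mul_left _ (by omega)
    omega
  have hadm : ∀ i ∈ range I, Adm θ (m i) A := by
    intro i hi
    obtain ⟨g1, g2, _⟩ := hmN i hi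
    refine ⟨le_trans ?_ hA1, le_trans (by exact_mod_cast hA2) (hlog (m i) g1)⟩
    exact Real.rpow_le_rpow (Nat.cast_nonneg _) (by exact_mod_cast g2) (by linarith)
  set E1 : ℕ → Finset ℤ := fun i => (IA A).filter (fun a => δ * (m i : ℕ) <
    |cnt (m i) a (fun k => s k * cF (m i) r x F k) - t * model (m i) (fun k => s k * cF (m i) r x F k)|) with hE1
  set E2 : ℕ → Finset ℤ := fun i => (IA A).filter (fun a => δ * (m i : ℕ) < cnt (m i) a (ed (m i) r x w)) with hE2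
  have hc1 : ∀ i ∈ range I, ((E1 i).card : ℝ) ≤ δ * A := by
    intro i hi
    obtain ⟨_, _, g3⟩ := hmN i hi
    exact hCH (m i) A (by omega) (hadm i hi)
  have hc2 : ∀ i ∈ range I, ((E2 i).card : ℝ) ≤ δ * A := by
    intro i hi
    obtain ⟨_, _, g3⟩ := hmN i hi
    have hm0 : (0 : ℝ) < (m i : ℕ) := by exact_mod_cast (by omega : 0 < m i)
    have h1 : ∑ a ∈ IA A, cnt (m i) a (ed (m i) r x w) ≤ r * C1 * w * A * (m i : ℕ) := by
      simp only [cnt_ed]
      rw [sum_comm]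
      have h2 : ∀ j ∈ (univ : Finset (Fin r)), ∑ a ∈ IA A, cnt (m i) a (fun k => if PWn (m i) (x j) w k then 1 else 0)
          ≤ C1 * w * A * (m i : ℕ) := fun j _ => hP (m i) A (by omega) (hadm i hi) (x j) (hu j)
      refine (sum_le_sum h2).trans (le_of_eq ?_)
      rw [sum_const, card_univ, Fintype.card_fin, nsmul_eq_mul]
      ring
    refine (TI.markov (IA A) (fun a => cnt (m i) a (ed (m i) r x w)) (δ * (m i : ℕ)) _ (by positivity)
      (fun a _ => ?_) h1).trans ?_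
    · unfold cnt ed
      exact sum_nonneg fun _ _ => sum_nonneg fun _ _ => by positivity
    · rw [div_le_iff₀ (by positivity)]
      calc r * C1 * w * A * (m i : ℕ) ≤ δ ^ 2 * A * (m i : ℕ) := by gcongr
        _ = δ * A * (δ * (m i : ℕ)) := by ring
  have hmod : ∀ i ∈ range I, model (m i) (ed (m i) r x w) ≤ δ * (m i : ℕ) := by
    intro i hi
    obtain ⟨_, _, g3⟩ := hmN i hi
    rw [model_ed]
    have h2 : ∀ j ∈ (univ : Finset (Fin r)), model (m i) (fun k => if PWn (m i) (x j) w k then 1 else 0)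
        ≤ C2 * w * (m i : ℕ) := fun j _ => hPM (m i) (by omega) (x j) (hu j)
    refine (sum_le_sum h2).trans ?_
    rw [sum_const, card_univ, Fintype.card_fin, nsmul_eq_mul]
    calc (r : ℝ) * (C2 * w * (m i : ℕ)) = r * C2 * w * (m i : ℕ) := by ring
      _ ≤ δ * (m i : ℕ) := by gcongr
  set B := (range I).biUnion (fun i => E1 i ∪ E2 i) with hB
  have hBc : (B.card : ℝ) ≤ ε * A := by
    calc (B.card : ℝ) ≤ ∑ i ∈ range I, ((E1 i ∪ E2 i).card : ℝ) := by
          exact_mod_cast card_biUnion_le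
      _ ≤ ∑ i ∈ range I, (δ * A + δ * A) := by
          refine sum_le_sum fun i hi => ?_
          have h1 : ((E1 i ∪ E2 i).card : ℝ) ≤ (E1 i).card + (E2 i).card := by
            exact_mod_cast card_union_le _ _
          linarith [hc1 i hi, hc2 i hi]
      _ = 2 * (I * δ) * A := by
          rw [sum_const, card_range, nsmul_eq_mul]
          ring
      _ ≤ ε * A := by
          refine mul_le_mul_of_nonneg_right ?_ hA0
          linarith
  refine le_trans ?_ hBc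
  apply Nat.cast_le.2
  apply card_le_card
  intro a ha
  rw [mem_filter] at ha
  obtain ⟨haI, hlt⟩ := ha
  by_contra hcon
  refine absurd hlt (not_lt.2 ?_)
  have hg : ∀ k, |s k * cF N r x F k| ≤ 1 := by
    intro k
    rw [abs_mul]
    exact mul_le_one₀ (hs k) (abs_nonneg _) (hF _)
  have h1 := chain t ht0 ht1 (fun k => s k * cF N r x F k) hg a N I
  have h2 := base t ht0 ht1 (fun k => s k * cF N r x F k) hg a (N / 2 ^ I)
  have h3 : ((N / 2 ^ I : ℕ) : ℝ) ≤ ε / 32 * N := by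
    calc ((N / 2 ^ I : ℕ) : ℝ) ≤ (N : ℝ) / ((2 ^ I : ℕ) : ℝ) := Nat.cast_div_le
      _ = 1 / 2 ^ I * N := by push_cast; ring
      _ ≤ ε / 32 * N := mul_le_mul_of_nonneg_right hq1 hNr.le
  have h4 : ∑ i ∈ range I, |cnt (N / 2 ^ (i + 1)) a (fun k => s k * cF N r x F k)
      - t * model (N / 2 ^ (i + 1)) (fun k => s k * cF N r x F k)| ≤ 5 * (ε / 32) * N := by
    calc _ ≤ ∑ i ∈ range I, 5 * δ * ((N / 2 ^ (i + 1) : ℕ) : ℝ) := by
          refine sum_le_sum fun i hi => ?_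
          obtain ⟨g1, g2, g3⟩ := hmN i hi
          have hM1 : 1 ≤ m i := by omega
          have hMr : (1 : ℝ) ≤ (m i : ℕ) := by exact_mod_cast hM1
          have hMp : (0 : ℝ) < (m i : ℕ) := by linarith
          have hNM : ∀ j, (N : ℝ) ^ (x j) ≤ ((m i : ℕ) : ℝ) ^ (x j + w) := by
            intro j
            have e1 : (N : ℝ) ≤ 2 * K * (m i : ℕ) := by
              have : (N : ℝ) ≤ K * ((m i : ℕ) + 1) := by exact_mod_cast g1
              have hKr : (1 : ℝ) ≤ K := by exact_mod_cast hK1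
              nlinarith
            calc (N : ℝ) ^ (x j) ≤ (2 * K * (m i : ℕ) : ℝ) ^ (x j) :=
                  Real.rpow_le_rpow hNr.le e1 (hx j).le
              _ = (2 * K : ℝ) ^ (x j) * ((m i : ℕ) : ℝ) ^ (x j) := by
                  rw [Real.mul_rpow (by positivity) hMp.le]
              _ ≤ ((m i : ℕ) : ℝ) ^ w * ((m i : ℕ) : ℝ) ^ (x j) :=
                  mul_le_mul_of_nonneg_right (hM₄ (m i) (by omega) j) (by positivity)
              _ = ((m i : ℕ) : ℝ) ^ (x j + w) := by rw [← Real.rpow_add hMp, add_comm]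
          have h5 := block N (m i) r x F hF w g2 hM1 (fun j => (hx j).le) hw0.le hNM s hs t ht0 ht1 a
          have h6 : |cnt (m i) a (fun k => s k * cF (m i) r x F k)
              - t * model (m i) (fun k => s k * cF (m i) r x F k)| ≤ δ * (m i : ℕ) := by
            by_contra hlt
            push Not at hlt
            apply hcon
            rw [hB, mem_biUnion]
            exact ⟨i, hi, mem_union_left _ (mem_filter.2 ⟨haI, hlt⟩)⟩
          have h7 : cnt (m i) a (ed (m i) r x w) ≤ δ * (m i : ℕ) := by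
            by_contra hlt
            push Not at hlt
            apply hcon
            rw [hB, mem_biUnion]
            exact ⟨i, hi, mem_union_right _ (mem_filter.2 ⟨haI, hlt⟩)⟩
          have h8 := hmod i hi
          have h9 : N / 2 ^ (i + 1) = m i := rfl
          rw [h9]
          linarith
      _ = 5 * δ * ∑ i ∈ range I, ((N / 2 ^ (i + 1) : ℕ) : ℝ) := by rw [mul_sum]
      _ ≤ 5 * δ * N := mul_le_mul_of_nonneg_left (FINCM.sum_half I N) (by positivity)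
      _ ≤ 5 * (ε / 32) * N := by gcongr
  have h5 : 0 ≤ ε * N := by positivity
  linarith

end FINDM

open FINDM in
theorem specFIND (hC : SpecCHWD) (hP : SpecPWIN) (hPM : SpecPWINM) (hS : SpecSLOW) : SpecFIND := by
  intro θ ε r x F hθ hε hx hF
  have hIcc : ∀ X : ℕ, Icc 1 X = Ioc 0 X := fun X => by
    ext n
    simp only [mem_Icc, mem_Ioc]
    omega
  obtain ⟨N₁, h1⟩ := gen hP hPM θ r x F hθ hx hF (fun _ => 1) (fun _ => by simp) 1 zero_le_one le_rfl
    (fun δ hδ => by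
      obtain ⟨N₀, h⟩ := hC θ δ r x F hθ hδ hx hF
      refine ⟨N₀, fun M A hM hA => ?_⟩
      have h2 := (h M A hM hA).1
      simp only [one_mul]
      exact h2) (ε / 2) (by positivity)
  obtain ⟨N₂, h2⟩ := gen hP hPM θ r x F hθ hx hF lio FINCM.abs_lio_le 0 le_rfl zero_le_one
    (fun δ hδ => by
      obtain ⟨N₀, h⟩ := hC θ δ r x F hθ hδ hx hF
      refine ⟨N₀, fun M A hM hA => ?_⟩
      have h2 := (h M A hM hA).2
      simp only [zero_mul, sub_zero]
      exact h2) ε hε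
  obtain ⟨N₃, h3⟩ := hS (ε / 2) r x F (by positivity) hx hF
  refine ⟨N₁ + N₂ + N₃, fun N A hN hA1 hA2 => ⟨?_, ?_⟩⟩
  · have hA0 : (0 : ℝ) ≤ A := Nat.cast_nonneg _
    refine le_trans ?_ ((h1 N A (by omega) hA1 hA2).trans (mul_le_mul_of_nonneg_right (by linarith) hA0))
    apply Nat.cast_le.2
    apply card_le_card
    intro a ha
    rw [mem_filter] at ha ⊢
    refine ⟨ha.1, ?_⟩
    by_contra hcon
    push Not at hcon
    have h4 := h3 N (by omega)
    have h5 : ∑ n ∈ Icc 1 N, cF N r x F (val a n) - (∑ m ∈ Icc 1 (N ^ 2), cF N r x F m) / N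
        = DD 1 (fun m => 1 * cF N r x F m) a N
          + ((∑ m ∈ Icc 1 (N ^ 2), cF N r x F m / (2 * √(m : ℝ))) - (∑ m ∈ Icc 1 (N ^ 2), cF N r x F m) / N) := by
      unfold DD
      simp only [one_mul]
      rw [hIcc N, hIcc (N ^ 2)]
      ring
    have h6 := ha.2
    rw [h5] at h6
    have h7 := abs_add_le (DD 1 (fun m => 1 * cF N r x F m) a N)
      ((∑ m ∈ Icc 1 (N ^ 2), cF N r x F m / (2 * √(m : ℝ))) - (∑ m ∈ Icc 1 (N ^ 2), cF N r x F m) / N)
    linarith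
  · refine le_trans ?_ (h2 N A (by omega) hA1 hA2)
    apply Nat.cast_le.2
    apply card_le_card
    intro a ha
    rw [mem_filter] at ha ⊢
    refine ⟨ha.1, ?_⟩
    have h6 := ha.2
    have h7 : DD 0 (fun m => lio m * cF N r x F m) a N = ∑ n ∈ Icc 1 N, lio (val a n) * cF N r x F (val a n) := by
      unfold DD
      rw [hIcc N, zero_mul, sub_zero]
    rw [h7]
    exact h6

end

end Pool.Agent.Lib.MP391708.QPA.C
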