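import Pool.Agent.Lib.MP_391708_nt.QPA.Mob

/-!
# MOBD0: the sum `∑ w(k) (ρ_a(k) - 1)/k` over rough squarefree `k ≤ N^κ` is small for almost all `a`, `κ < θ`
-/

set_option autoImplicit false

namespace Pool.Agent.Lib.MP391708.QPA.C

open Pool.Agent.Lib.MP391708.QPA

namespace MOBDM

open Finset Filter Topology
open scoped Classical

noncomputable section

/-- the coefficient of `χ_a(e)` -/
def cf (w : ℕ → ℝ) (z : ℝ) (Y e : ℕ) : ℝ :=
  ∑ k ∈ (Icc 1 Y).filter (fun k => Rough z k ∧ Squarefree k), if e ∣ k then w k / k else 0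

/-- the sum -/
def FS (w : ℕ → ℝ) (z : ℝ) (Y : ℕ) (a : ℤ) : ℝ :=
  ∑ k ∈ (Icc 1 Y).filter (fun k => Rough z k ∧ Squarefree k), w k * ((rho a k : ℝ) - 1) / k

lemma cf_ne {w : ℕ → ℝ} {z : ℝ} (hz : 2 < z) {Y e : ℕ} (he : cf w z Y e ≠ 0) :
    Odd e ∧ Squarefree e ∧ (1 < e → z ≤ e) ∧ e ≤ Y := by
  obtain ⟨k, hk, hne⟩ := exists_ne_zero_of_sum_ne_zero he
  rw [mem_filter, mem_Icc] at hk
  have hd : e ∣ k := by
    by_contra hcon
    rw [if_neg hcon] at hne
    exact hne rfl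
  refine ⟨Odd.of_dvd_nat (Mob.odd_of_rough hz hk.2.1) hd, hk.2.2.squarefree_of_dvd hd,
    fun h1 => ?_, (Nat.le_of_dvd (by omega) hd).trans hk.1.2⟩
  obtain ⟨p, hp, hpe⟩ := Nat.exists_prime_and_dvd (show e ≠ 1 by omega)
  have h2 := hk.2.1 p hp (hpe.trans hd)
  have h3 : p ≤ e := Nat.le_of_dvd (by omega) hpe
  have h4 : (p : ℝ) ≤ e := by exact_mod_cast h3
  linarith

lemma abs_cf_le {w : ℕ → ℝ} (hw : ∀ k, |w k| ≤ 1) {z : ℝ} {Y e : ℕ} (he : 1 ≤ e) :
    |cf w z Y e| ≤ (1 + Real.log Y) / e := by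
  unfold cf
  have he0 : (0 : ℝ) < e := by exact_mod_cast he
  calc _ ≤ ∑ k ∈ (Icc 1 Y).filter (fun k => Rough z k ∧ Squarefree k),
        |if e ∣ k then w k / k else 0| := abs_sum_le_sum_abs _ _
    _ ≤ ∑ k ∈ (Icc 1 Y).filter (fun k => Rough z k ∧ Squarefree k),
        if e ∣ k then 1 / (k : ℝ) else 0 := by
        refine sum_le_sum fun k _ => ?_
        split_ifs with h
        · rw [abs_div, Nat.abs_cast]
          exact div_le_div_of_nonneg_right (hw k) (Nat.cast_nonneg k)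
        · simp
    _ ≤ ∑ k ∈ Icc 1 Y, if e ∣ k then 1 / (k : ℝ) else 0 := by
        apply sum_le_sum_of_subset_of_nonneg (filter_subset _ _)
        intro k _ _
        split_ifs <;> positivity
    _ = ∑ k ∈ (Icc 1 Y).filter (fun k => e ∣ k), 1 / (k : ℝ) := by rw [sum_filter]
    _ ≤ ∑ k ∈ (Icc 1 Y).image (fun g => e * g), 1 / (k : ℝ) := by
        apply sum_le_sum_of_subset_of_nonneg
        · intro k hk
          rw [mem_filter, mem_Icc] at hk
          obtain ⟨g, rfl⟩ := hk.2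
          rw [mem_image]
          refine ⟨g, ?_, rfl⟩
          rw [mem_Icc]
          constructor
          · by_contra hcon
            have : g = 0 := by omega
            subst this
            simp at hk
          · nlinarith [hk.1.2]
        · intro k _ _
          positivity
    _ = ∑ g ∈ Icc 1 Y, 1 / ((e : ℝ) * g) := by
        rw [sum_image]
        · push_cast
          rfl
        · intro x _ y _ h
          exact Nat.eq_of_mul_eq_mul_left (by omega) h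
    _ = (∑ g ∈ Icc 1 Y, 1 / (g : ℝ)) / e := by
        rw [sum_div]
        refine sum_congr rfl fun g _ => ?_
        rw [div_div, mul_comm]
    _ ≤ _ := div_le_div_of_nonneg_right (Mob.sum_inv_le Y) he0.le

lemma FS_eq (hD : SpecRHOD) (w : ℕ → ℝ) {z : ℝ} (hz : 2 < z) {Y J : ℕ} (hJ : Y ≤ 2 ^ J) (a : ℤ) :
    FS w z Y a = ∑ e ∈ Ioc 1 (2 ^ J), cf w z Y e * (jacobiSym (-a) e : ℝ) := by
  have h1 : ∀ k ∈ (Icc 1 Y).filter (fun k => Rough z k ∧ Squarefree k),
      w k * ((rho a k : ℝ) - 1) / k =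
        ∑ e ∈ Ioc 1 (2 ^ J), (if e ∣ k then w k / k else 0) * (jacobiSym (-a) e : ℝ) := by
    intro k hk
    rw [mem_filter, mem_Icc] at hk
    have h2 : (rho a k : ℝ) = ∑ e ∈ k.divisors, (jacobiSym (-a) e : ℝ) := by
      have := hD a k (Mob.odd_of_rough hz hk.2.1) hk.2.2
      exact_mod_cast this
    have h3 : k.divisors = insert 1 ((Ioc 1 (2 ^ J)).filter (fun e => e ∣ k)) := by
      ext e
      rw [Nat.mem_divisors, mem_insert, mem_filter, mem_Ioc]
      constructor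
      · rintro ⟨h4, h5⟩
        have h6 : e ≤ k := Nat.le_of_dvd (by omega) h4
        have h7 : 0 < e := Nat.pos_of_dvd_of_pos h4 (by omega)
        by_cases h8 : e = 1
        · exact Or.inl h8
        · exact Or.inr ⟨⟨by omega, by omega⟩, h4⟩
      · rintro (h4 | h4)
        · subst h4
          exact ⟨one_dvd _, by omega⟩
        · exact ⟨h4.2, by omega⟩
    have h4 : (rho a k : ℝ) - 1 = ∑ e ∈ (Ioc 1 (2 ^ J)).filter (fun e => e ∣ k),
        (jacobiSym (-a) e : ℝ) := by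
      rw [h2, h3, sum_insert (by simp)]
      simp
    rw [h4, sum_filter, mul_sum, sum_div]
    refine sum_congr rfl fun e _ => ?_
    split_ifs <;> ring
  unfold FS
  rw [sum_congr rfl h1, sum_comm]
  refine sum_congr rfl fun e _ => ?_
  rw [cf, sum_mul]

lemma moment (hS : SpecSML) (hD : SpecRHOD) {ε : ℝ} (hε : 0 < ε) : ∃ C : ℝ, 0 < C ∧
    ∀ (w : ℕ → ℝ) (z : ℝ) (Y A : ℕ), (∀ k, |w k| ≤ 1) → 2 < z → 1 ≤ Y → 1 ≤ A →
    ∑ a ∈ IA A, (FS w z Y a) ^ 2 ≤
      C * (1 + Real.log Y) ^ 4 * (A / z + (Y : ℝ) ^ (1 + ε)) := by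
  obtain ⟨C, hC0, hC⟩ := hS ε hε
  refine ⟨8 * C, by positivity, fun w z Y A hw hz hY hA => ?_⟩
  set L : ℝ := 1 + Real.log Y with hL
  have hY1 : (1 : ℝ) ≤ Y := by exact_mod_cast hY
  have hlog : 0 ≤ Real.log Y := Real.log_nonneg hY1
  have hL1 : 1 ≤ L := by linarith
  set J : ℕ := Nat.log 2 Y + 1 with hJ
  have hJY : Y ≤ 2 ^ J := (Nat.lt_pow_succ_log_self (by norm_num) Y).le
  have hJL : (J : ℝ) ≤ 2 * L := by
    have h1 : 2 ^ Nat.log 2 Y ≤ Y := Nat.pow_log_le_self 2 (by omega)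
    have h2 : ((2 : ℝ) ^ Nat.log 2 Y) ≤ Y := by exact_mod_cast h1
    have h3 := Real.log_le_log (by positivity) h2
    rw [Real.log_pow] at h3
    have h4 : (1 : ℝ) / 2 ≤ Real.log 2 := by
      have := Real.log_two_gt_d9
      linarith
    have h5 : (Nat.log 2 Y : ℝ) * (1 / 2) ≤ Nat.log 2 Y * Real.log 2 :=
      mul_le_mul_of_nonneg_left h4 (Nat.cast_nonneg _)
    rw [hJ]
    push_cast
    linarith
  have hA0 : (0 : ℝ) ≤ A := Nat.cast_nonneg A
  set B : ℝ := C * L ^ 2 * (2 * A / z + (Y : ℝ) ^ (1 + ε)) with hB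
  have hB0 : 0 ≤ B := by
    have : 0 ≤ (Y : ℝ) ^ (1 + ε) := by positivity
    have : 0 ≤ 2 * A / z := div_nonneg (by linarith) (by linarith)
    positivity
  have hblock : ∀ j ∈ range J,
      ∑ a ∈ IA A, (∑ e ∈ Ioc (2 ^ j) (2 * 2 ^ j), cf w z Y e * (jacobiSym (-a) e : ℝ)) ^ 2
        ≤ B := by
    intro j _
    by_cases hz0 : ∃ e ∈ Ioc (2 ^ j) (2 * 2 ^ j), cf w z Y e ≠ 0
    · obtain ⟨e₀, he₀, hne⟩ := hz0
      rw [mem_Ioc] at he₀
      have hE1 : 1 ≤ 2 ^ j := Nat.one_le_two_pow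
      obtain ⟨_, _, h3, h4⟩ := cf_ne hz hne
      have h5 : z ≤ 2 * (2 : ℝ) ^ j := by
        have h6 := h3 (by omega)
        have h7 : (e₀ : ℝ) ≤ 2 * (2 : ℝ) ^ j := by exact_mod_cast he₀.2
        linarith
      have h6 : (2 : ℝ) ^ j ≤ Y := by
        have : 2 ^ j ≤ Y := by omega
        exact_mod_cast this
      have hEpos : (0 : ℝ) < (2 : ℝ) ^ j := by positivity
      have hcb : ∀ k ∈ Ioc (2 ^ j) (2 * 2 ^ j), |cf w z Y k| ≤ L / 2 ^ j := by
        intro k hk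
        rw [mem_Ioc] at hk
        refine (abs_cf_le hw (by omega)).trans ?_
        apply div_le_div_of_nonneg_left (by linarith) hEpos
        have : 2 ^ j ≤ k := hk.1.le
        exact_mod_cast this
      have h7 := hC A (2 ^ j) (cf w z Y) hA hE1
        (fun k hk => ⟨(cf_ne hz hk).1, (cf_ne hz hk).2.1⟩)
      have hcard : ((Ioc (2 ^ j) (2 * 2 ^ j)).card : ℝ) = 2 ^ j := by
        rw [Nat.card_Ioc, show 2 * 2 ^ j - 2 ^ j = 2 ^ j by omega]
        push_cast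
        rfl
      have h8 : ∑ k ∈ Ioc (2 ^ j) (2 * 2 ^ j), (cf w z Y k) ^ 2 ≤ L ^ 2 / 2 ^ j := by
        calc _ ≤ ∑ k ∈ Ioc (2 ^ j) (2 * 2 ^ j), (L / 2 ^ j) ^ 2 := by
              refine sum_le_sum fun k hk => ?_
              rw [← sq_abs (cf w z Y k)]
              exact pow_le_pow_left₀ (abs_nonneg _) (hcb k hk) 2
          _ = _ := by
              rw [sum_const, nsmul_eq_mul, hcard]
              field_simp
      have h9 : ∑ k ∈ Ioc (2 ^ j) (2 * 2 ^ j), |cf w z Y k| ≤ L := by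
        calc _ ≤ ∑ k ∈ Ioc (2 ^ j) (2 * 2 ^ j), L / 2 ^ j := sum_le_sum hcb
          _ = _ := by
              rw [sum_const, nsmul_eq_mul, hcard]
              field_simp
      refine h7.trans ?_
      rw [hB, mul_assoc C]
      apply mul_le_mul_of_nonneg_left _ hC0.le
      have h11 : (A : ℝ) * ∑ k ∈ Ioc (2 ^ j) (2 * 2 ^ j), (cf w z Y k) ^ 2
          ≤ L ^ 2 * (2 * A / z) := by
        calc _ ≤ (A : ℝ) * (L ^ 2 / 2 ^ j) := mul_le_mul_of_nonneg_left h8 hA0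
          _ ≤ (A : ℝ) * (L ^ 2 / (z / 2)) := by
              apply mul_le_mul_of_nonneg_left _ hA0
              apply div_le_div_of_nonneg_left (by positivity) (by linarith)
              linarith
          _ = _ := by
              field_simp
      have h12 : (((2 ^ j : ℕ)) : ℝ) ^ (1 + ε)
          * (∑ k ∈ Ioc (2 ^ j) (2 * 2 ^ j), |cf w z Y k|) ^ 2 ≤ L ^ 2 * (Y : ℝ) ^ (1 + ε) := by
        rw [mul_comm]
        apply mul_le_mul
        · exact pow_le_pow_left₀ (sum_nonneg fun k _ => abs_nonneg _) h9 2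
        · apply Real.rpow_le_rpow (Nat.cast_nonneg _)
          · push_cast
            exact h6
          · linarith
        · positivity
        · positivity
      rw [mul_add]
      exact add_le_add h11 h12
    · push Not at hz0
      have : ∑ a ∈ IA A, (∑ e ∈ Ioc (2 ^ j) (2 * 2 ^ j), cf w z Y e * (jacobiSym (-a) e : ℝ)) ^ 2
          = 0 := by
        apply sum_eq_zero
        intro a _
        rw [sum_eq_zero]
        · simp
        · intro e he
          rw [hz0 e he, zero_mul]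
      rw [this]
      exact hB0
  have hF : ∀ a : ℤ, (FS w z Y a) ^ 2 ≤ J * ∑ j ∈ range J,
      (∑ e ∈ Ioc (2 ^ j) (2 * 2 ^ j), cf w z Y e * (jacobiSym (-a) e : ℝ)) ^ 2 := by
    intro a
    rw [FS_eq hD w hz hJY, Mob.dyadic]
    have := sq_sum_le_card_mul_sum_sq (s := range J)
      (f := fun j => ∑ e ∈ Ioc (2 ^ j) (2 * 2 ^ j), cf w z Y e * (jacobiSym (-a) e : ℝ))
    rwa [card_range] at this
  calc _ ≤ ∑ a ∈ IA A, J * ∑ j ∈ range J,
        (∑ e ∈ Ioc (2 ^ j) (2 * 2 ^ j), cf w z Y e * (jacobiSym (-a) e : ℝ)) ^ 2 :=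
        sum_le_sum fun a _ => hF a
    _ = J * ∑ j ∈ range J, ∑ a ∈ IA A,
        (∑ e ∈ Ioc (2 ^ j) (2 * 2 ^ j), cf w z Y e * (jacobiSym (-a) e : ℝ)) ^ 2 := by
        rw [← mul_sum, sum_comm]
    _ ≤ J * ∑ j ∈ range J, B :=
        mul_le_mul_of_nonneg_left (sum_le_sum hblock) (Nat.cast_nonneg _)
    _ = (J : ℝ) ^ 2 * B := by
        rw [sum_const, card_range, nsmul_eq_mul]
        ring
    _ ≤ (2 * L) ^ 2 * B :=
        mul_le_mul_of_nonneg_right (pow_le_pow_left₀ (Nat.cast_nonneg _) hJL 2) hB0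
    _ = 4 * C * L ^ 4 * (2 * A / z + (Y : ℝ) ^ (1 + ε)) := by
        rw [hB]; ring
    _ ≤ 4 * C * L ^ 4 * (2 * (A / z + (Y : ℝ) ^ (1 + ε))) := by
        apply mul_le_mul_of_nonneg_left _ (by positivity)
        have : 0 ≤ (Y : ℝ) ^ (1 + ε) := by positivity
        rw [mul_add, mul_div_assoc]
        linarith
    _ = _ := by ring

/-- bounded coefficients -/
lemma main (hS : SpecSML) (hD : SpecRHOD) {θ κ e0 δ : ℝ} (B : ℝ) (hκ0 : 0 ≤ κ) (hκ1 : κ ≤ 1)
    (hκ : κ < θ) (he0 : 0 < e0) (hδ : 0 < δ) : ∃ N₀ : ℕ, ∀ N A : ℕ, N₀ ≤ N → Adm θ N A →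
    ∀ w : ℕ → ℝ, (∀ k, |w k| ≤ B) →
    (((IA A).filter (fun a => ¬ |∑ k ∈ (Icc 1 ⌊(N : ℝ) ^ κ⌋₊).filter
      (fun k => Rough ((N : ℝ) ^ e0) k ∧ Squarefree k), w k * ((rho a k : ℝ) - 1) / k|
        ≤ δ)).card : ℝ) ≤ δ * A := by
  obtain ⟨C, hC0, hC⟩ := moment hS hD (show 0 < (θ - κ) / 2 by linarith)
  set B' : ℝ := |B| + 1 with hB'
  have hB'0 : 0 < B' := by positivity
  have hη : 0 < δ ^ 3 / (2 * (C * B' ^ 2)) := by positivity
  have lim1 : Tendsto (fun N : ℕ => (N : ℝ) ^ e0) atTop atTop :=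
    (tendsto_rpow_atTop he0).comp tendsto_natCast_atTop_atTop
  obtain ⟨N₀, hN₀⟩ := eventually_atTop.1 ((((lim1.eventually_ge_atTop 3).and
    (Mob.log_pow_small he0 hη)).and
    (Mob.log_pow_small (show (0 : ℝ) < (θ - κ) / 2 by linarith) hη)).and (eventually_ge_atTop 2))
  refine ⟨N₀, fun N A hN hA w hw => ?_⟩
  obtain ⟨⟨⟨hz, hs1⟩, hs2⟩, hN2⟩ := hN₀ N hN
  have hNr : (2 : ℝ) ≤ N := by exact_mod_cast hN2
  have hN0 : (0 : ℝ) < N := by linarith
  have hN1 : (1 : ℝ) ≤ N := by linarith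
  set z : ℝ := (N : ℝ) ^ e0 with hzdef
  have hAA : (N : ℝ) ^ θ ≤ A := hA.1
  have hA1 : (1 : ℝ) ≤ A := (Real.one_le_rpow hN1 (by linarith)).trans hAA
  have hA1' : 1 ≤ A := by exact_mod_cast hA1
  have hYY1 : 1 ≤ (N : ℝ) ^ κ := Real.one_le_rpow hN1 hκ0
  set Y : ℕ := ⌊(N : ℝ) ^ κ⌋₊ with hY
  have hY1 : 1 ≤ Y := Nat.le_floor (by exact_mod_cast hYY1)
  have hYN : (Y : ℝ) ≤ (N : ℝ) ^ κ := Nat.floor_le (by linarith)
  have hYr1 : (1 : ℝ) ≤ Y := by exact_mod_cast hY1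
  have hYN' : (Y : ℝ) ≤ N := by
    refine hYN.trans ?_
    calc (N : ℝ) ^ κ ≤ (N : ℝ) ^ (1 : ℝ) := Real.rpow_le_rpow_of_exponent_le hN1 hκ1
      _ = N := Real.rpow_one _
  have hLL : 1 + Real.log Y ≤ 1 + Real.log N := by
    have := Real.log_le_log (by linarith) hYN'
    linarith
  have hL0 : 0 ≤ 1 + Real.log Y := by
    have := Real.log_nonneg hYr1
    linarith
  -- the normalised coefficients
  set v : ℕ → ℝ := fun k => w k / B' with hv
  have hv1 : ∀ k, |v k| ≤ 1 := by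
    intro k
    rw [hv]
    simp only
    rw [abs_div, abs_of_pos hB'0, div_le_one hB'0]
    have h1 := hw k
    have h2 := le_abs_self B
    linarith
  have hFw : ∀ a, FS w z Y a = B' * FS v z Y a := by
    intro a
    unfold FS
    rw [mul_sum]
    refine sum_congr rfl fun k _ => ?_
    rw [hv]
    simp only
    field_simp
  have hmom := hC v z Y A hv1 (by linarith) hY1 hA1'
  have h1 : (A : ℝ) / z + (Y : ℝ) ^ (1 + (θ - κ) / 2)
      ≤ A * ((N : ℝ) ^ (-e0) + (N : ℝ) ^ (-((θ - κ) / 2))) := by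
    rw [mul_add]
    apply add_le_add
    · rw [Real.rpow_neg hN0.le, ← hzdef, div_eq_mul_inv]
    · calc (Y : ℝ) ^ (1 + (θ - κ) / 2) ≤ ((N : ℝ) ^ κ) ^ (1 + (θ - κ) / 2) :=
            Real.rpow_le_rpow (by linarith) hYN (by linarith)
        _ = (N : ℝ) ^ (κ * (1 + (θ - κ) / 2)) := by rw [← Real.rpow_mul hN0.le]
        _ ≤ (N : ℝ) ^ (θ + -((θ - κ) / 2)) := by
            apply Real.rpow_le_rpow_of_exponent_le hN1
            nlinarith
        _ = (N : ℝ) ^ θ * (N : ℝ) ^ (-((θ - κ) / 2)) := Real.rpow_add hN0 _ _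
        _ ≤ _ := mul_le_mul_of_nonneg_right hAA (by positivity)
  have h2 : ∑ a ∈ IA A, (FS w z Y a) ^ 2 ≤ δ ^ 3 * A := by
    have h20 : ∑ a ∈ IA A, (FS w z Y a) ^ 2 = B' ^ 2 * ∑ a ∈ IA A, (FS v z Y a) ^ 2 := by
      rw [mul_sum]
      refine sum_congr rfl fun a _ => ?_
      rw [hFw]
      ring
    rw [h20]
    calc B' ^ 2 * ∑ a ∈ IA A, (FS v z Y a) ^ 2
        ≤ B' ^ 2 * (C * (1 + Real.log Y) ^ 4 * (A / z + (Y : ℝ) ^ (1 + (θ - κ) / 2))) :=
          mul_le_mul_of_nonneg_left hmom (by positivity)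
      _ ≤ B' ^ 2 * (C * (1 + Real.log N) ^ 4 *
            (A * ((N : ℝ) ^ (-e0) + (N : ℝ) ^ (-((θ - κ) / 2))))) := by
          apply mul_le_mul_of_nonneg_left _ (by positivity)
          apply mul_le_mul
          · exact mul_le_mul_of_nonneg_left (pow_le_pow_left₀ hL0 hLL 4) hC0.le
          · exact h1
          · have : 0 ≤ (Y : ℝ) ^ (1 + (θ - κ) / 2) := by positivity
            have : 0 ≤ (A : ℝ) / z := by positivity
            linarith
          · have : 0 ≤ 1 + Real.log N := hL0.trans hLL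
            positivity
      _ = C * B' ^ 2 * A * ((1 + Real.log N) ^ 4 * (N : ℝ) ^ (-e0)
            + (1 + Real.log N) ^ 4 * (N : ℝ) ^ (-((θ - κ) / 2))) := by ring
      _ ≤ C * B' ^ 2 * A * (δ ^ 3 / (2 * (C * B' ^ 2)) + δ ^ 3 / (2 * (C * B' ^ 2))) := by
          apply mul_le_mul_of_nonneg_left _ (by positivity)
          exact add_le_add hs1 hs2
      _ = δ ^ 3 * A := by
          field_simp
          ring
  have h3 : (((IA A).filter (fun a => ¬ |FS w z Y a| ≤ δ)).card : ℝ) * δ ^ 2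
      ≤ ∑ a ∈ IA A, (FS w z Y a) ^ 2 := by
    calc _ = ∑ a ∈ (IA A).filter (fun a => ¬ |FS w z Y a| ≤ δ), δ ^ 2 := by
          rw [sum_const, nsmul_eq_mul]
      _ ≤ ∑ a ∈ (IA A).filter (fun a => ¬ |FS w z Y a| ≤ δ), (FS w z Y a) ^ 2 := by
          refine sum_le_sum fun a ha => ?_
          have h4 := (mem_filter.1 ha).2
          rw [not_le] at h4
          rw [← sq_abs (FS w z Y a)]
          exact pow_le_pow_left₀ hδ.le h4.le 2
      _ ≤ _ := sum_le_sum_of_subset_of_nonneg (filter_subset _ _) fun a _ _ => sq_nonneg _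
  have h4 := h3.trans h2
  have h5 : δ ^ 3 * (A : ℝ) = (δ * A) * δ ^ 2 := by ring
  rw [h5] at h4
  exact le_of_mul_le_mul_right h4 (by positivity)

end

end MOBDM

end Pool.Agent.Lib.MP391708.QPA.C
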