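import Pool.Agent.Lib.MP_391708_nt.QPA.C.SpecD
import Pool.Agent.Lib.MP_391708_nt.QPA.C.MOBD0

/-!
# MOBD
-/

set_option autoImplicit false

namespace Pool.Agent.Lib.MP391708.QPA.C

open Finset Filter Topology
open Pool.Agent.Lib.MP391708.QPA
open scoped Classical

namespace MOBDM

lemma omega_le {N k : ℕ} {e0 κ : ℝ} (hN : 2 ≤ N)
    (hr : Rough ((N : ℝ) ^ e0) k) (hk0 : k ≠ 0) (hk : (k : ℝ) ≤ (N : ℝ) ^ κ) :
    e0 * (k.primeFactors.card : ℝ) ≤ κ := by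
  have hN1 : (1 : ℝ) < N := by exact_mod_cast (by omega : 1 < N)
  have hN0 : (0 : ℝ) < N := by linarith
  have h1 : ((N : ℝ) ^ e0) ^ k.primeFactors.card ≤ ∏ p ∈ k.primeFactors, (p : ℝ) := by
    rw [← prod_const]
    apply Finset.prod_le_prod
    · intro p _
      positivity
    · intro p hp
      rw [Nat.mem_primeFactors] at hp
      exact hr p hp.1 hp.2.1
  have h2 : ∏ p ∈ k.primeFactors, (p : ℝ) ≤ k := by
    have h := Nat.le_of_dvd (Nat.pos_of_ne_zero hk0) (Nat.prod_primeFactors_dvd k)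
    have h' : ((∏ p ∈ k.primeFactors, p : ℕ) : ℝ) ≤ k := Nat.cast_le.2 h
    rwa [Nat.cast_prod] at h'
  have h3 : (N : ℝ) ^ (e0 * (k.primeFactors.card : ℝ)) ≤ (N : ℝ) ^ κ := by
    rw [Real.rpow_mul hN0.le, Real.rpow_natCast]
    exact h1.trans (h2.trans hk)
  exact (Real.rpow_le_rpow_left_iff hN1).1 h3

end MOBDM

theorem specMOBD (hS : SpecSML) (hD : SpecRHOD) : SpecMOBD := by
  intro θ κ e0 δ hθ hκ0 hκ he0 _ hδ
  obtain ⟨N₁, hN₁⟩ := MOBDM.main hS hD ((2 : ℝ) ^ (κ / e0)) hκ0.le (by linarith)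
    (show κ < θ by linarith) he0 hδ
  refine ⟨max N₁ 2, fun N A hN hA cf hcf => ?_⟩
  have hN2 : 2 ≤ N := (le_max_right _ _).trans hN
  set w : ℕ → ℝ := fun k => if Rough ((N : ℝ) ^ e0) k ∧ k ≠ 0 ∧ (k : ℝ) ≤ (N : ℝ) ^ κ
    then cf k else 0 with hw
  have hwb : ∀ k, |w k| ≤ (2 : ℝ) ^ (κ / e0) := by
    intro k
    rw [hw]
    simp only
    split_ifs with h
    · refine (hcf k).trans ?_
      rw [← Real.rpow_natCast]
      apply Real.rpow_le_rpow_of_exponent_le one_le_two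
      rw [le_div_iff₀ he0]
      have := MOBDM.omega_le hN2 h.1 h.2.1 h.2.2
      linarith
    · rw [abs_zero]
      positivity
  have h1 := hN₁ N A ((le_max_left _ _).trans hN) hA w hwb
  have h2 : ∀ a : ℤ, ∑ k ∈ (Icc 1 ⌊(N : ℝ) ^ κ⌋₊).filter
      (fun k => Rough ((N : ℝ) ^ e0) k ∧ Squarefree k), w k * ((rho a k : ℝ) - 1) / k =
      ∑ k ∈ (Icc 1 ⌊(N : ℝ) ^ κ⌋₊).filter
      (fun k => Rough ((N : ℝ) ^ e0) k ∧ Squarefree k), cf k * ((rho a k : ℝ) - 1) / k := by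
    intro a
    refine sum_congr rfl fun k hk => ?_
    rw [mem_filter, mem_Icc] at hk
    have h3 : (k : ℝ) ≤ (N : ℝ) ^ κ := by
      have h4 : (0 : ℝ) ≤ (N : ℝ) ^ κ := by positivity
      exact (Nat.le_floor_iff h4).1 hk.1.2
    rw [hw]
    simp only
    rw [if_pos ⟨hk.2.1, by omega, h3⟩]
  simp only [h2] at h1
  exact h1

end Pool.Agent.Lib.MP391708.QPA.C
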