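import Pool.Agent.Lib.MP_391708_nt.QPA.C.PWINb

/-!
# PWIN, PWINM: prime factors in a window
-/

set_option autoImplicit false

namespace Pool.Agent.Lib.MP391708.QPA.C

open Finset Filter Topology
open Pool.Agent.Lib.MP391708.QPA
open scoped Classical

noncomputable section

/-- PWIN -/
theorem specPWIN (hQ : SpecQG) (hB : SpecBT) : SpecPWIN := by
  intro θ u hθ hu
  obtain ⟨C, hC, h⟩ := PWINM.values hQ hB u hu
  refine ⟨C, hC, fun w hw hwu hw1 => ?_⟩
  obtain ⟨N₁, hN₁⟩ := h w hw (by linarith) (by linarith)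
  obtain ⟨N₂, hN₂⟩ := NSFM.eventually_rpow 1 (1 / 2) one_pos (by norm_num)
  refine ⟨max (max N₁ N₂) 1, fun N A hN hAdm x hx => ?_⟩
  have hN1 : 1 ≤ N := (le_max_right _ _).trans hN
  have hNr : (1 : ℝ) ≤ N := by exact_mod_cast hN1
  have hlog := hN₂ N ((le_max_right _ _).trans ((le_max_left _ _).trans hN))
  rw [Real.rpow_one] at hlog
  apply hN₁ N A ((le_max_left _ _).trans ((le_max_left _ _).trans hN)) _ _ x hx
  · exact le_trans (Real.rpow_le_rpow_of_exponent_le hNr hθ.le) hAdm.1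
  · calc (A : ℝ) ≤ N * Real.log N := hAdm.2
      _ ≤ N * (1 / 2 * N) := by gcongr
      _ = (N : ℝ) ^ 2 / 2 := by ring

/-- PWINM -/
theorem specPWINM : SpecPWINM := by
  intro u hu
  refine ⟨10 / u, by positivity, fun w hw hwu hw1 => ?_⟩
  exact PWINM.model_le u w hu hw (by linarith)

end

end Pool.Agent.Lib.MP391708.QPA.C
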