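import Pool.Agent.Lib.MP_391708_nt.QPA.C.SpecD

/-!
# SLOW: the harmonic and the natural mean of a function of the large prime factors agree

`f = G * 1` with `G = μ * f` supported on the rough numbers, so `H(M) = ∑_{n ≤ M} G(n) ⌊M/n⌋` and
`|a H(Y) - H(aY)| ≤ a ∑_{n ≤ aY} |G(n)|`; then blocks `((bn)², ((b+1)n)²]`.
-/

set_option autoImplicit false

namespace Pool.Agent.Lib.MP391708.QPA.C

open Finset Filter Topology
open Pool.Agent.Lib.MP391708.QPA
open Pool.Agent.Lib.MP391708.QPA.H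
open scoped Classical

noncomputable section

namespace SLOWM

/-- `μ * f` -/
def Gf (f : ℕ → ℝ) (n : ℕ) : ℝ :=
  ∑ x ∈ n.divisorsAntidiagonal, (ArithmeticFunction.moebius x.1 : ℝ) * f x.2

theorem inv (f : ℕ → ℝ) (m : ℕ) (hm : 0 < m) : ∑ d ∈ m.divisors, Gf f d = f m :=
  (ArithmeticFunction.sum_eq_iff_sum_mul_moebius_eq (f := Gf f) (g := f)).2 (fun _ _ => rfl) m hm

theorem abs_Gf (f : ℕ → ℝ) (hf : ∀ m, |f m| ≤ 1) (n : ℕ) : |Gf f n| ≤ n.divisors.card := by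
  unfold Gf
  refine (Finset.abs_sum_le_sum_abs _ _).trans ?_
  refine (Finset.sum_le_card_nsmul _ _ 1 fun x _ => ?_).trans ?_
  · rw [abs_mul]
    have h1 : |(ArithmeticFunction.moebius x.1 : ℝ)| ≤ 1 := by
      exact_mod_cast ArithmeticFunction.abs_moebius_le_one
    calc _ ≤ (1 : ℝ) * 1 := mul_le_mul h1 (hf _) (abs_nonneg _) (by norm_num)
      _ = 1 := by norm_num
  · rw [nsmul_eq_mul, mul_one]
    rw [← Nat.map_div_right_divisors, Finset.card_map]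

theorem Gf_zero (f : ℕ → ℝ) (p : ℕ) (hp : p.Prime) (hf : ∀ m, 0 < m → f (p * m) = f m) :
    ∀ n : ℕ, 0 < n → p ∣ n → Gf f n = 0 := by
  intro n
  induction n using Nat.strong_induction_on with
  | _ n ih =>
    intro hn hpn
    obtain ⟨k, rfl⟩ := hpn
    have hk : 0 < k := Nat.pos_of_ne_zero (by rintro rfl; simp at hn)
    have h1 := inv f (p * k) hn
    have h2 := inv f k hk
    have hsub : k.divisors ⊆ (p * k).divisors := Nat.divisors_subset_of_dvd hn.ne' (Dvd.intro_left p rfl)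
    have h3 : ∑ d ∈ (p * k).divisors \ k.divisors, Gf f d = 0 := by
      have := Finset.sum_sdiff (f := Gf f) hsub
      rw [h1, h2, hf k hk] at this
      linarith
    have hmem : p * k ∈ (p * k).divisors \ k.divisors := by
      rw [Finset.mem_sdiff, Nat.mem_divisors, Nat.mem_divisors]
      refine ⟨⟨dvd_rfl, hn.ne'⟩, fun h => ?_⟩
      have := Nat.le_of_dvd hk h.1
      have h5 := hp.two_le
      nlinarith
    rw [Finset.sum_eq_single_of_mem _ hmem] at h3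
    · exact h3
    · intro d hd hne
      rw [Finset.mem_sdiff, Nat.mem_divisors, Nat.mem_divisors] at hd
      have hd0 : 0 < d := Nat.pos_of_dvd_of_pos hd.1.1 hn
      have hlt : d < p * k := lt_of_le_of_ne (Nat.le_of_dvd hn hd.1.1) hne
      refine ih d hlt hd0 ?_
      by_contra hnd
      apply hd.2
      refine ⟨?_, hk.ne'⟩
      have hc : Nat.Coprime d p := ((Nat.Prime.coprime_iff_not_dvd hp).2 hnd).symm
      exact hc.dvd_of_dvd_mul_left hd.1.1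

theorem H_eq (f : ℕ → ℝ) (M X : ℕ) (h : M ≤ X) :
    ∑ m ∈ Icc 1 M, f m = ∑ n ∈ Icc 1 X, Gf f n * ((M / n : ℕ) : ℝ) := by
  have h1 : ∑ m ∈ Icc 1 M, f m = ∑ m ∈ Icc 1 M, ∑ d ∈ Icc 1 X, if d ∣ m then Gf f d else 0 := by
    refine Finset.sum_congr rfl fun m hm => ?_
    rw [Finset.mem_Icc] at hm
    rw [← inv f m (by omega), ← Finset.sum_filter]
    refine Finset.sum_congr ?_ fun _ _ => rfl
    ext d
    rw [Nat.mem_divisors, Finset.mem_filter, Finset.mem_Icc]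
    constructor
    · rintro ⟨hd, _⟩
      have := Nat.le_of_dvd (by omega) hd
      have h0 := Nat.pos_of_dvd_of_pos hd (by omega)
      exact ⟨⟨by omega, by omega⟩, hd⟩
    · rintro ⟨_, hd⟩
      exact ⟨hd, by omega⟩
  rw [h1, Finset.sum_comm]
  refine Finset.sum_congr rfl fun n _ => ?_
  rw [← Finset.sum_filter, Finset.sum_const, nsmul_eq_mul, mul_comm]
  congr 2
  have : Icc 1 M = Ioc 0 M := rfl
  rw [this, Nat.Ioc_filter_dvd_card_eq_div]

theorem scale (f : ℕ → ℝ) (a Y : ℕ) (ha : 1 ≤ a) :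
    |(a : ℝ) * (∑ m ∈ Icc 1 Y, f m) - ∑ m ∈ Icc 1 (a * Y), f m| ≤
      a * ∑ n ∈ Icc 1 (a * Y), |Gf f n| := by
  rw [H_eq f Y (a * Y) (Nat.le_mul_of_pos_left Y ha), H_eq f (a * Y) (a * Y) le_rfl,
    Finset.mul_sum, ← Finset.sum_sub_distrib, Finset.mul_sum]
  refine (Finset.abs_sum_le_sum_abs _ _).trans (Finset.sum_le_sum fun n hn => ?_)
  rw [Finset.mem_Icc] at hn
  have e : (a : ℝ) * (Gf f n * ((Y / n : ℕ) : ℝ)) - Gf f n * ((a * Y / n : ℕ) : ℝ) =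
      Gf f n * ((a : ℝ) * ((Y / n : ℕ) : ℝ) - ((a * Y / n : ℕ) : ℝ)) := by ring
  rw [e, abs_mul, mul_comm]
  refine mul_le_mul_of_nonneg_right ?_ (abs_nonneg _)
  have h1 : a * (Y / n) ≤ a * Y / n := Nat.mul_div_le_mul_div_assoc a Y n
  have h2 : a * Y / n ≤ a * (Y / n) + a := by
    have hn0 : 0 < n := by omega
    have h3 := Nat.lt_div_mul_add (a := Y) hn0
    have h4 : a * Y ≤ (a * (Y / n) + a) * n := by nlinarith
    calc a * Y / n ≤ ((a * (Y / n) + a) * n) / n := Nat.div_le_div_right h4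
      _ = a * (Y / n) + a := Nat.mul_div_cancel _ hn0
  have h1' : (a : ℝ) * ((Y / n : ℕ) : ℝ) ≤ ((a * Y / n : ℕ) : ℝ) := by exact_mod_cast h1
  have h2' : ((a * Y / n : ℕ) : ℝ) ≤ (a : ℝ) * ((Y / n : ℕ) : ℝ) + a := by exact_mod_cast h2
  rw [abs_le]
  constructor <;> linarith

/-! ### the blocks -/

theorem sum_inv_le' (R : ℕ) : ∑ b ∈ Ico 1 (R + 1), (1 : ℝ) / b ≤ 2 * √(R : ℝ) := by
  induction R with
  | zero => simp
  | succ R ih =>
    rw [Finset.sum_Ico_succ_top (by omega)]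
    have e1 : √((R + 1 : ℕ) : ℝ) ^ 2 = R + 1 := by
      rw [Real.sq_sqrt (by positivity)]; push_cast; ring
    have e2 : √(R : ℝ) ^ 2 = R := Real.sq_sqrt (by positivity)
    set s : ℝ := √((R + 1 : ℕ) : ℝ) with hs
    set t : ℝ := √(R : ℝ) with ht
    have hs1 : 1 ≤ s := by
      rw [hs]; exact Real.one_le_sqrt.2 (by push_cast; linarith [Nat.cast_nonneg (α := ℝ) R])
    have ht0 : 0 ≤ t := Real.sqrt_nonneg _
    have hts : t ≤ s := Real.sqrt_le_sqrt (by push_cast; linarith)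
    have h1 : (1 : ℝ) / ((R + 1 : ℕ) : ℝ) ≤ 2 * (s - t) := by
      have e3 : ((R + 1 : ℕ) : ℝ) = s ^ 2 := by rw [e1]; push_cast; ring
      rw [e3, div_le_iff₀ (by positivity)]
      have e4 : (s - t) * (s + t) = 1 := by nlinarith
      have h5 : s + t ≤ 2 * s ^ 2 := by nlinarith
      have h6 : (s - t) * (s + t) ≤ (s - t) * (2 * s ^ 2) :=
        mul_le_mul_of_nonneg_left h5 (by linarith)
      linarith
    linarith

theorem sum_inv_le (R : ℕ) : ∑ b ∈ Ico 1 R, (1 : ℝ) / b ≤ 2 * √(R : ℝ) := by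
  refine le_trans ?_ (sum_inv_le' R)
  refine Finset.sum_le_sum_of_subset_of_nonneg (Finset.Ico_subset_Ico le_rfl (by omega)) ?_
  intro i _ _
  positivity

theorem sum_w_le (M : ℕ) : ∑ m ∈ Icc 1 M, 1 / (2 * √(m : ℝ)) ≤ √(M : ℝ) := by
  induction M with
  | zero => simp
  | succ R ih =>
    rw [Finset.sum_Icc_succ_top (by omega)]
    have e1 : √((R + 1 : ℕ) : ℝ) ^ 2 = R + 1 := by
      rw [Real.sq_sqrt (by positivity)]; push_cast; ring
    have e2 : √(R : ℝ) ^ 2 = R := Real.sq_sqrt (by positivity)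
    set s : ℝ := √((R + 1 : ℕ) : ℝ) with hs
    set t : ℝ := √(R : ℝ) with ht
    have hs1 : 1 ≤ s := by
      rw [hs]; exact Real.one_le_sqrt.2 (by push_cast; linarith [Nat.cast_nonneg (α := ℝ) R])
    have ht0 : 0 ≤ t := Real.sqrt_nonneg _
    have hts : t ≤ s := Real.sqrt_le_sqrt (by push_cast; linarith)
    have h1 : 1 / (2 * s) ≤ s - t := by
      rw [div_le_iff₀ (by positivity)]
      nlinarith
    linarith

/-- one block -/
theorem block (f : ℕ → ℝ) (hf : ∀ m, |f m| ≤ 1) (u v : ℕ) (huv : u ≤ v) (c l L : ℝ)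
    (hl : 0 < l) (hlc : l ≤ c) (hcL : c ≤ L) (hu : l ^ 2 ≤ u) (hv : (v : ℝ) ≤ L ^ 2) :
    |(∑ m ∈ Icc 1 v, f m / (2 * √(m : ℝ))) - (∑ m ∈ Icc 1 u, f m / (2 * √(m : ℝ)))
      - (1 / (2 * c)) * ((∑ m ∈ Icc 1 v, f m) - ∑ m ∈ Icc 1 u, f m)| ≤
      ((v : ℝ) - u) * (1 / (2 * l) - 1 / (2 * L)) := by
  have e : ∀ g : ℕ → ℝ, (∑ m ∈ Icc 1 v, g m) - ∑ m ∈ Icc 1 u, g m = ∑ m ∈ Ioc u v, g m := by
    intro g
    have h1 : (Icc 1 v : Finset ℕ) = Ioc 0 v := rfl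
    have h2 : (Icc 1 u : Finset ℕ) = Ioc 0 u := rfl
    rw [h1, h2, ← Finset.sum_Ioc_consecutive g (Nat.zero_le u) huv]
    ring
  rw [e, e, Finset.mul_sum, ← Finset.sum_sub_distrib]
  have hc : 0 < c := lt_of_lt_of_le hl hlc
  have hL : 0 < L := lt_of_lt_of_le hc hcL
  refine (Finset.abs_sum_le_sum_abs _ _).trans ?_
  refine (Finset.sum_le_card_nsmul _ _ (1 / (2 * l) - 1 / (2 * L)) fun m hm => ?_).trans ?_
  · rw [Finset.mem_Ioc] at hm
    have hm1 : (u : ℝ) < m := by exact_mod_cast hm.1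
    have hm2 : (m : ℝ) ≤ v := by exact_mod_cast hm.2
    have h1 : l ≤ √(m : ℝ) := Real.le_sqrt_of_sq_le (by linarith)
    have h2 : √(m : ℝ) ≤ L := by
      rw [Real.sqrt_le_left hL.le]; linarith
    have h0 : 0 < √(m : ℝ) := lt_of_lt_of_le hl h1
    have e2 : f m / (2 * √(m : ℝ)) - 1 / (2 * c) * f m =
        f m * (1 / (2 * √(m : ℝ)) - 1 / (2 * c)) := by ring
    rw [e2, abs_mul]
    have a1 : 1 / (2 * √(m : ℝ)) ≤ 1 / (2 * l) := one_div_le_one_div_of_le (by positivity) (by linarith)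
    have a2 : 1 / (2 * L) ≤ 1 / (2 * √(m : ℝ)) := one_div_le_one_div_of_le (by positivity) (by linarith)
    have a3 : 1 / (2 * c) ≤ 1 / (2 * l) := one_div_le_one_div_of_le (by positivity) (by linarith)
    have a4 : 1 / (2 * L) ≤ 1 / (2 * c) := one_div_le_one_div_of_le (by positivity) (by linarith)
    have a5 : |1 / (2 * √(m : ℝ)) - 1 / (2 * c)| ≤ 1 / (2 * l) - 1 / (2 * L) := by
      rw [abs_le]; constructor <;> linarith
    calc |f m| * |1 / (2 * √(m : ℝ)) - 1 / (2 * c)| ≤ 1 * (1 / (2 * l) - 1 / (2 * L)) :=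
          mul_le_mul (hf m) a5 (abs_nonneg _) (by norm_num)
      _ = _ := one_mul _
  · rw [Nat.card_Ioc, nsmul_eq_mul, Nat.cast_sub huv]

/-- the blocks `((bn)², ((b+1)n)²]` -/
theorem blocks (f : ℕ → ℝ) (hf : ∀ m, |f m| ≤ 1) (n : ℕ) (hn : 1 ≤ n) (E h : ℝ) (hE0 : 0 ≤ E)
    (R : ℕ) (hR : 1 ≤ R)
    (hE : ∀ b : ℕ, 1 ≤ b → b ≤ R → |(b : ℝ) ^ 2 * h - ∑ m ∈ Icc 1 (b ^ 2 * n ^ 2), f m| ≤ E) :
    |(∑ m ∈ Icc 1 (R ^ 2 * n ^ 2), f m / (2 * √(m : ℝ)))
      - (∑ m ∈ Icc 1 (n ^ 2), f m / (2 * √(m : ℝ))) - ((R : ℝ) - 1) * (h / n)| ≤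
      n * (∑ b ∈ Ico 1 R, (1 : ℝ) / b) + ((R : ℝ) - 1) * (E / n) := by
  have hn' : (0 : ℝ) < n := by exact_mod_cast hn
  induction R, hR using Nat.le_induction with
  | base => simp
  | succ R hR ih =>
    have ih' := ih (fun b hb hb' => hE b hb (by omega))
    rw [Finset.sum_Ico_succ_top (by omega)]
    have hR' : (1 : ℝ) ≤ R := by exact_mod_cast hR
    have hR0 : (0 : ℝ) < R := by linarith
    have hb := block f hf (R ^ 2 * n ^ 2) ((R + 1) ^ 2 * n ^ 2)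
      (Nat.mul_le_mul_right _ (Nat.pow_le_pow_left (by omega) 2))
      (((2 * R + 1) * n) / 2) (R * n) ((R + 1) * n) (by positivity)
      (by nlinarith) (by nlinarith) (by push_cast; nlinarith) (by push_cast; nlinarith)
    have h1 := hE (R + 1) (by omega) le_rfl
    have h2 := hE R hR (by omega)
    set W1 := ∑ m ∈ Icc 1 ((R + 1) ^ 2 * n ^ 2), f m / (2 * √(m : ℝ)) with hW1
    set W0 := ∑ m ∈ Icc 1 (R ^ 2 * n ^ 2), f m / (2 * √(m : ℝ)) with hW0
    set H1 := ∑ m ∈ Icc 1 ((R + 1) ^ 2 * n ^ 2), f m with hH1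
    set H0 := ∑ m ∈ Icc 1 (R ^ 2 * n ^ 2), f m with hH0
    set Wn := ∑ m ∈ Icc 1 (n ^ 2), f m / (2 * √(m : ℝ)) with hWn
    push_cast at hb h1 ⊢
    have e1 : (((R : ℝ) + 1) ^ 2 * n ^ 2 - (R : ℝ) ^ 2 * n ^ 2) *
        (1 / (2 * (R * n)) - 1 / (2 * ((R + 1) * n))) ≤ n * (1 / (R : ℝ)) := by
      have : (((R : ℝ) + 1) ^ 2 * n ^ 2 - (R : ℝ) ^ 2 * n ^ 2) *
        (1 / (2 * (R * n)) - 1 / (2 * ((R + 1) * n))) =
        n * ((2 * R + 1) / (2 * (R + 1))) * (1 / (R : ℝ)) := by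
        field_simp
        ring
      rw [this]
      refine mul_le_mul_of_nonneg_right ?_ (by positivity)
      have : (2 * (R : ℝ) + 1) / (2 * (R + 1)) ≤ 1 := by
        rw [div_le_one (by positivity)]; linarith
      nlinarith
    have e2 : |1 / (2 * (((2 * (R : ℝ) + 1) * n) / 2)) * (H1 - H0) - h / n| ≤ E / n := by
      have : 1 / (2 * (((2 * (R : ℝ) + 1) * n) / 2)) * (H1 - H0) - h / n =
          ((R : ℝ) ^ 2 * h - H0 - (((R : ℝ) + 1) ^ 2 * h - H1)) / ((2 * R + 1) * n) := by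
        field_simp
        ring
      rw [this, abs_div, abs_of_pos (by positivity : (0 : ℝ) < (2 * R + 1) * n)]
      rw [div_le_div_iff₀ (by positivity) hn']
      have h3 : |(R : ℝ) ^ 2 * h - H0 - (((R : ℝ) + 1) ^ 2 * h - H1)| ≤ 2 * E := by
        refine (abs_sub _ _).trans ?_
        linarith
      calc |(R : ℝ) ^ 2 * h - H0 - (((R : ℝ) + 1) ^ 2 * h - H1)| * n ≤ 2 * E * n :=
            mul_le_mul_of_nonneg_right h3 hn'.le
        _ ≤ E * ((2 * R + 1) * n) := by nlinarith [mul_nonneg hE0 hn'.le]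
    have e3 : W1 - Wn - ((R : ℝ) + 1 - 1) * (h / n) =
        (W0 - Wn - ((R : ℝ) - 1) * (h / n)) +
        (W1 - W0 - 1 / (2 * (((2 * (R : ℝ) + 1) * n) / 2)) * (H1 - H0)) +
        (1 / (2 * (((2 * (R : ℝ) + 1) * n) / 2)) * (H1 - H0) - h / n) := by ring
    rw [e3]
    refine (abs_add_three _ _ _).trans ?_
    have : n * (∑ b ∈ Ico 1 R, (1 : ℝ) / b + 1 / R) + ((R : ℝ) + 1 - 1) * (E / n) =
      (n * (∑ b ∈ Ico 1 R, (1 : ℝ) / b) + ((R : ℝ) - 1) * (E / n)) + n * (1 / R) + E / n := by ring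
    rw [this]
    have hb' := hb.trans e1
    linarith

set_option maxHeartbeats 1000000 in
theorem assemble (f : ℕ → ℝ) (hf : ∀ m, |f m| ≤ 1) (N R : ℕ) (hR : 1 ≤ R) (hN : R ≤ N) (E : ℝ)
    (hE0 : 0 ≤ E)
    (hE : ∀ b : ℕ, 1 ≤ b → b ≤ R →
      |(b : ℝ) ^ 2 * (∑ m ∈ Icc 1 ((N / R) ^ 2), f m) - ∑ m ∈ Icc 1 (b ^ 2 * (N / R) ^ 2), f m| ≤ E) :
    |(∑ m ∈ Icc 1 (N ^ 2), f m / (2 * √(m : ℝ))) - (∑ m ∈ Icc 1 (N ^ 2), f m) / N| ≤
      4 * N / √(R : ℝ) + 4 * R ^ 2 * E / N + 5 * R := by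
  obtain ⟨n, hn⟩ : ∃ n : ℕ, n = N / R := ⟨_, rfl⟩
  rw [← hn] at hE
  have hn1 : 1 ≤ n := by rw [hn]; exact Nat.div_pos hN hR
  have hRn : R * n ≤ N := by rw [hn]; exact Nat.mul_div_le N R
  have hRn2 : N < R * n + R := by
    rw [hn]
    have := Nat.lt_div_mul_add (a := N) (b := R) hR
    linarith [Nat.mul_comm (N / R) R]
  have hn' : (1 : ℝ) ≤ n := by exact_mod_cast hn1
  have hR' : (1 : ℝ) ≤ R := by exact_mod_cast hR
  have hN' : (R : ℝ) ≤ N := by exact_mod_cast hN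
  have hN0 : (0 : ℝ) < N := by linarith
  have hRn' : (R : ℝ) * n ≤ N := by exact_mod_cast hRn
  have hRn2' : (N : ℝ) < R * n + R := by exact_mod_cast hRn2
  have hle : R ^ 2 * n ^ 2 ≤ N ^ 2 := by nlinarith
  have hB := blocks f hf n hn1 E (∑ m ∈ Icc 1 (n ^ 2), f m) hE0 R hR hE
  have hS := sum_inv_le R
  have e : ∀ (g : ℕ → ℝ) (u v : ℕ), u ≤ v → (∑ m ∈ Icc 1 v, g m) - ∑ m ∈ Icc 1 u, g m = ∑ m ∈ Ioc u v, g m := by
    intro g u v huv
    have h1 : (Icc 1 v : Finset ℕ) = Ioc 0 v := rfl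
    have h2 : (Icc 1 u : Finset ℕ) = Ioc 0 u := rfl
    rw [h1, h2, ← Finset.sum_Ioc_consecutive g (Nat.zero_le u) huv]
    ring
  -- the number of terms in the last part
  have hcard : ((N ^ 2 : ℕ) : ℝ) - ((R ^ 2 * n ^ 2 : ℕ) : ℝ) ≤ 2 * R * N := by
    push_cast
    nlinarith
  -- the last part
  have hlast : |(∑ m ∈ Icc 1 (N ^ 2), f m / (2 * √(m : ℝ))) -
      ∑ m ∈ Icc 1 (R ^ 2 * n ^ 2), f m / (2 * √(m : ℝ))| ≤ 2 * R := by
    rw [e _ _ _ hle]
    refine (Finset.abs_sum_le_sum_abs _ _).trans ?_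
    refine (Finset.sum_le_card_nsmul _ _ (1 / (2 * ((R : ℝ) * n))) fun m hm => ?_).trans ?_
    · rw [Finset.mem_Ioc] at hm
      have hm1 : ((R ^ 2 * n ^ 2 : ℕ) : ℝ) < m := by exact_mod_cast hm.1
      push_cast at hm1
      have h1 : (R : ℝ) * n ≤ √(m : ℝ) := Real.le_sqrt_of_sq_le (by nlinarith)
      have h0 : (0 : ℝ) < R * n := by positivity
      have hs : 0 < √(m : ℝ) := by linarith
      rw [abs_div, abs_of_pos (by positivity : (0 : ℝ) < 2 * √(m : ℝ))]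
      exact div_le_div₀ (by norm_num) (hf m) (by positivity) (by linarith)
    · rw [Nat.card_Ioc, nsmul_eq_mul, Nat.cast_sub hle]
      have h1 : (((N ^ 2 : ℕ) : ℝ) - ((R ^ 2 * n ^ 2 : ℕ) : ℝ)) * (1 / (2 * (R * n))) ≤
          (2 * R * N) * (1 / (2 * (R * n))) := mul_le_mul_of_nonneg_right hcard (by positivity)
      refine h1.trans ?_
      rw [mul_one_div, div_le_iff₀ (by positivity)]
      have h2 : (N : ℝ) ≤ 2 * (R * n) := by nlinarith
      have h3 := mul_le_mul_of_nonneg_left h2 (by linarith : (0 : ℝ) ≤ 2 * R)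
      linarith
  have hlastH : |(∑ m ∈ Icc 1 (N ^ 2), f m) - ∑ m ∈ Icc 1 (R ^ 2 * n ^ 2), f m| ≤ 2 * R * N := by
    rw [e _ _ _ hle]
    refine (Finset.abs_sum_le_sum_abs _ _).trans ?_
    refine (Finset.sum_le_card_nsmul _ _ 1 fun m _ => hf m).trans ?_
    rw [Nat.card_Ioc, nsmul_eq_mul, Nat.cast_sub hle, mul_one]
    exact hcard
  have hfirst : |∑ m ∈ Icc 1 (n ^ 2), f m / (2 * √(m : ℝ))| ≤ n := by
    refine (Finset.abs_sum_le_sum_abs _ _).trans ?_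
    have h1 : ∑ m ∈ Icc 1 (n ^ 2), |f m / (2 * √(m : ℝ))| ≤ ∑ m ∈ Icc 1 (n ^ 2), 1 / (2 * √(m : ℝ)) := by
      refine Finset.sum_le_sum fun m _ => ?_
      rw [abs_div, abs_of_nonneg (by positivity : (0 : ℝ) ≤ 2 * √(m : ℝ))]
      exact div_le_div_of_nonneg_right (hf m) (by positivity)
    refine h1.trans ((sum_w_le _).trans ?_)
    push_cast
    rw [Real.sqrt_sq (by positivity)]
  have hh : |∑ m ∈ Icc 1 (n ^ 2), f m| ≤ (n : ℝ) ^ 2 := by
    refine (Finset.abs_sum_le_sum_abs _ _).trans ?_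
    refine (Finset.sum_le_card_nsmul _ _ 1 fun m _ => hf m).trans ?_
    rw [Nat.card_Icc, nsmul_eq_mul]
    push_cast
    simp
  have hER := hE R hR le_rfl
  set WN := ∑ m ∈ Icc 1 (N ^ 2), f m / (2 * √(m : ℝ)) with hWN
  set WR := ∑ m ∈ Icc 1 (R ^ 2 * n ^ 2), f m / (2 * √(m : ℝ)) with hWR
  set Wn := ∑ m ∈ Icc 1 (n ^ 2), f m / (2 * √(m : ℝ)) with hWn
  set HN := ∑ m ∈ Icc 1 (N ^ 2), f m with hHN
  set HR := ∑ m ∈ Icc 1 (R ^ 2 * n ^ 2), f m with hHR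
  set h := ∑ m ∈ Icc 1 (n ^ 2), f m with hhdef
  have d1 : |(-h) / n| ≤ n := by
    rw [abs_div, abs_neg, abs_of_pos (by linarith : (0 : ℝ) < n), div_le_iff₀ (by linarith)]
    calc |h| ≤ (n : ℝ) ^ 2 := hh
      _ = n * n := by ring
  have d2 : |R * h * (N - R * n) / (N * n)| ≤ R := by
    rw [abs_div, abs_mul, abs_mul, abs_of_pos (by positivity : (0 : ℝ) < N * n),
      abs_of_nonneg (by linarith : (0 : ℝ) ≤ N - R * n), abs_of_nonneg (by linarith : (0 : ℝ) ≤ R),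
      div_le_iff₀ (by positivity)]
    have h1 : (R : ℝ) * |h| * (N - R * n) ≤ R * (n : ℝ) ^ 2 * R :=
      mul_le_mul (mul_le_mul_of_nonneg_left hh (by linarith)) (by linarith) (by linarith) (by positivity)
    have h2 : (R : ℝ) * (n : ℝ) ^ 2 * R ≤ R * (N * n) := by
      calc (R : ℝ) * (n : ℝ) ^ 2 * R = (R * n) * (R * n) := by ring
        _ ≤ (R * n) * N := mul_le_mul_of_nonneg_left hRn' (by positivity)
        _ = R * (N * n) := by ring
    linarith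
  have d3 : |(R ^ 2 * h - HR) / N| ≤ E / n := by
    rw [abs_div, abs_of_pos hN0]
    have hnN : (n : ℝ) ≤ N := by nlinarith
    exact div_le_div₀ hE0 hER (by linarith) hnN
  have d4 : |(HR - HN) / N| ≤ 2 * R := by
    rw [abs_div, abs_of_pos hN0, div_le_iff₀ hN0, abs_sub_comm]
    exact hlastH
  have key : WN - HN / N = (WN - WR) + (WR - Wn - ((R : ℝ) - 1) * (h / n)) + Wn
      + (-h) / n + R * h * (N - R * n) / (N * n) + (R ^ 2 * h - HR) / N + (HR - HN) / N := by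
    field_simp
    ring
  have tri : |WN - HN / N| ≤ 2 * R + (n * (∑ b ∈ Ico 1 R, (1 : ℝ) / b) + ((R : ℝ) - 1) * (E / n))
      + n + n + R + E / n + 2 * R := by
    rw [key]
    have t1 := abs_add_le ((WN - WR) + (WR - Wn - ((R : ℝ) - 1) * (h / n)) + Wn
      + (-h) / n + R * h * (N - R * n) / (N * n) + (R ^ 2 * h - HR) / N) ((HR - HN) / N)
    have t2 := abs_add_le ((WN - WR) + (WR - Wn - ((R : ℝ) - 1) * (h / n)) + Wn
      + (-h) / n + R * h * (N - R * n) / (N * n)) ((R ^ 2 * h - HR) / N)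
    have t3 := abs_add_le ((WN - WR) + (WR - Wn - ((R : ℝ) - 1) * (h / n)) + Wn
      + (-h) / n) (R * h * (N - R * n) / (N * n))
    have t4 := abs_add_le ((WN - WR) + (WR - Wn - ((R : ℝ) - 1) * (h / n)) + Wn) ((-h) / n)
    have t5 := abs_add_le ((WN - WR) + (WR - Wn - ((R : ℝ) - 1) * (h / n))) Wn
    have t6 := abs_add_le (WN - WR) (WR - Wn - ((R : ℝ) - 1) * (h / n))
    linarith
  have hsq : √(R : ℝ) ^ 2 = R := Real.sq_sqrt (by linarith)
  have hsq1 : 1 ≤ √(R : ℝ) := Real.one_le_sqrt.2 hR'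
  have c1 : (n : ℝ) * (∑ b ∈ Ico 1 R, (1 : ℝ) / b) + n + n ≤ 4 * N / √(R : ℝ) := by
    rw [le_div_iff₀ (by linarith)]
    have h1 : (n : ℝ) * (∑ b ∈ Ico 1 R, (1 : ℝ) / b) + n + n ≤ 4 * √(R : ℝ) * n := by nlinarith
    calc ((n : ℝ) * (∑ b ∈ Ico 1 R, (1 : ℝ) / b) + n + n) * √(R : ℝ)
        ≤ (4 * √(R : ℝ) * n) * √(R : ℝ) := mul_le_mul_of_nonneg_right h1 (by linarith)
      _ = 4 * (√(R : ℝ) ^ 2 * n) := by ring
      _ ≤ 4 * N := by rw [hsq]; linarith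
  have c2 : ((R : ℝ) - 1) * (E / n) + E / n ≤ 4 * R ^ 2 * E / N := by
    have h1 : ((R : ℝ) - 1) * (E / n) + E / n = R * E / n := by ring
    rw [h1, div_le_div_iff₀ (by linarith) hN0]
    have h2 : (N : ℝ) ≤ 2 * R * n := by nlinarith
    have h3 : (0 : ℝ) ≤ R * E := by positivity
    calc (R : ℝ) * E * N ≤ R * E * (2 * R * n) := mul_le_mul_of_nonneg_left h2 h3
      _ = 2 * (R * E * R * n) := by ring
      _ ≤ 4 * (R * E * R * n) := by
          have : 0 ≤ (R : ℝ) * E * R * n := by positivity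
          linarith
      _ = 4 * R ^ 2 * E * n := by ring
  linarith

/-! ### divisors of rough numbers, the functions `cF` -/

theorem card_div_le (m : ℕ) : m.divisors.card ≤ 2 ^ m.primeFactorsList.length := by
  induction m using induction_on_primes with
  | zero => simp
  | one => simp
  | prime_mul p a hp ih =>
    rcases Nat.eq_zero_or_pos a with rfl | ha
    · simp
    have h1 : (p * a).divisors ⊆ a.divisors ∪ a.divisors.image (fun d => p * d) := by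
      intro d hd
      rw [Nat.mem_divisors] at hd
      rw [Finset.mem_union, Finset.mem_image]
      by_cases hpd : p ∣ d
      · right
        obtain ⟨e, rfl⟩ := hpd
        refine ⟨e, ?_, rfl⟩
        rw [Nat.mem_divisors]
        exact ⟨Nat.dvd_of_mul_dvd_mul_left hp.pos hd.1, ha.ne'⟩
      · left
        rw [Nat.mem_divisors]
        have hc : Nat.Coprime d p := ((Nat.Prime.coprime_iff_not_dvd hp).2 hpd).symm
        exact ⟨hc.dvd_of_dvd_mul_left hd.1, ha.ne'⟩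
    have h2 : (p * a).primeFactorsList.length = 1 + a.primeFactorsList.length := by
      rw [(Nat.perm_primeFactorsList_mul hp.ne_zero ha.ne').length_eq, List.length_append,
        Nat.primeFactorsList_prime hp]
      rfl
    calc (p * a).divisors.card ≤ (a.divisors ∪ a.divisors.image (fun d => p * d)).card :=
          Finset.card_le_card h1
      _ ≤ a.divisors.card + (a.divisors.image (fun d => p * d)).card := Finset.card_union_le _ _
      _ ≤ a.divisors.card + a.divisors.card := Nat.add_le_add_left Finset.card_image_le _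
      _ ≤ 2 ^ (1 + a.primeFactorsList.length) := by rw [pow_add, pow_one]; omega
      _ = _ := by rw [h2]

theorem Cn_mul (N : ℕ) (y : ℝ) (p m : ℕ) (hp : p.Prime) (hm : 0 < m) (h : (p : ℝ) ≤ (N : ℝ) ^ y) :
    Cn N y (p * m) = Cn N y m := by
  unfold Cn
  rw [((Nat.perm_primeFactorsList_mul hp.ne_zero hm.ne').filter _).length_eq, List.filter_append,
    List.length_append, Nat.primeFactorsList_prime hp]
  simp [not_lt.2 h]

theorem sum_G (C : ℝ) (hB : ∀ (y z : ℝ) (q c x H : ℕ), 2 ≤ y → y < z → 1 ≤ q →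
    (((Ioc x (x + H)).filter (fun u => u % q = c ∧ Rough z u)).card : ℝ)
    ≤ C * H / ((q.totient : ℝ) * Real.log y) + C * y ^ 2) (N : ℕ) (u : ℝ) (hu : 0 < u)
    (hN : 10 ≤ N) (hy : 2 ≤ (N : ℝ) ^ (u / 2)) (f : ℕ → ℝ) (hf : ∀ m, |f m| ≤ 1)
    (hfp : ∀ p : ℕ, p.Prime → (p : ℝ) < (N : ℝ) ^ u → ∀ m, 0 < m → f (p * m) = f m) :
    ∑ n ∈ Icc 1 (N ^ 2), |Gf f n| ≤ 2 ^ ⌊3 / u⌋₊ *
      (C * N ^ 2 / (u / 2 * Real.log N) + C * (N : ℝ) ^ u) := by
  have hN0 : (0 : ℝ) < N := by exact_mod_cast (by omega : 0 < N)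
  have hN1 : (1 : ℝ) < N := by exact_mod_cast (by omega : 1 < N)
  have hyz : (N : ℝ) ^ (u / 2) < (N : ℝ) ^ u := Real.rpow_lt_rpow_of_exponent_lt hN1 (by linarith)
  have h1 := hB ((N : ℝ) ^ (u / 2)) ((N : ℝ) ^ u) 1 0 0 (N ^ 2) hy hyz le_rfl
  rw [zero_add, Nat.totient_one, Nat.cast_one, one_mul, Real.log_rpow hN0] at h1
  have e1 : ((N : ℝ) ^ (u / 2)) ^ 2 = (N : ℝ) ^ u := by
    rw [← Real.rpow_natCast, ← Real.rpow_mul hN0.le]; congr 1; push_cast; ring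
  rw [e1] at h1
  push_cast at h1
  have e2 : (Icc 1 (N ^ 2) : Finset ℕ) = Ioc 0 (N ^ 2) := rfl
  have h2 : ∑ n ∈ Icc 1 (N ^ 2), |Gf f n| =
      ∑ n ∈ (Ioc 0 (N ^ 2)).filter (fun v => v % 1 = 0 ∧ Rough ((N : ℝ) ^ u) v), |Gf f n| := by
    rw [e2]
    symm
    refine Finset.sum_subset (Finset.filter_subset _ _) fun n hn hn' => ?_
    rw [Finset.mem_filter] at hn'
    have hnr : ¬ Rough ((N : ℝ) ^ u) n := fun h => hn' ⟨hn, Nat.mod_one n, h⟩
    unfold Rough at hnr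
    push Not at hnr
    obtain ⟨p, hp, hpn, hpz⟩ := hnr
    rw [Finset.mem_Ioc] at hn
    rw [Gf_zero f p hp (hfp p hp hpz) n hn.1 hpn, abs_zero]
  rw [h2]
  refine (Finset.sum_le_card_nsmul _ _ (2 ^ ⌊3 / u⌋₊) fun n hn => ?_).trans ?_
  · rw [Finset.mem_filter, Finset.mem_Ioc] at hn
    obtain ⟨⟨hn0, hnN⟩, _, hr⟩ := hn
    have hle : (n : ℝ) ≤ 5 * (N : ℝ) ^ 2 := by
      have : (n : ℝ) ≤ (N : ℝ) ^ 2 := by exact_mod_cast hnN
      nlinarith [sq_nonneg (N : ℝ)]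
    have h3 := T2.length_le N u hu hN n (by omega) hle hr
    refine (abs_Gf f hf n).trans ?_
    have h4 : n.divisors.card ≤ 2 ^ ⌊3 / u⌋₊ :=
      (card_div_le n).trans (Nat.pow_le_pow_right (by norm_num) h3)
    exact_mod_cast h4
  · rw [nsmul_eq_mul, mul_comm]
    exact mul_le_mul_of_nonneg_left h1 (by positivity)

end SLOWM

open SLOWM in
theorem specSLOW (hBT : SpecBT) : SpecSLOW := by
  intro ε r x F hε hx hF
  obtain ⟨C, hC, hB⟩ := hBT
  obtain ⟨u, hu0, hu1, hux⟩ : ∃ u : ℝ, 0 < u ∧ u ≤ 1 / 10 ∧ ∀ j, u ≤ x j := by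
    have hne : (insert (1 / 10 : ℝ) (Finset.univ.image x)).Nonempty := Finset.insert_nonempty _ _
    refine ⟨(insert (1 / 10 : ℝ) (Finset.univ.image x)).min' hne, ?_, ?_, fun j => ?_⟩
    · have h := Finset.min'_mem _ hne
      rcases Finset.mem_insert.1 h with h | h
      · rw [h]; norm_num
      · obtain ⟨j, _, hj⟩ := Finset.mem_image.1 h
        rw [← hj]; exact hx j
    · exact Finset.min'_le _ _ (Finset.mem_insert_self _ _)
    · exact Finset.min'_le _ _ (Finset.mem_insert_of_mem (Finset.mem_image_of_mem _ (Finset.mem_univ j)))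
  obtain ⟨R, hR1, hRε⟩ : ∃ R : ℕ, 1 ≤ R ∧ 12 / ε ≤ √(R : ℝ) := by
    refine ⟨⌈(12 / ε) ^ 2⌉₊ + 1, by omega, ?_⟩
    refine Real.le_sqrt_of_sq_le ?_
    have := Nat.le_ceil ((12 / ε) ^ 2)
    push_cast
    linarith
  have hR' : (1 : ℝ) ≤ R := by exact_mod_cast hR1
  set D : ℝ := 2 ^ ⌊3 / u⌋₊ with hD
  have hD0 : 0 < D := by positivity
  have hlog : Tendsto (fun N : ℕ => Real.log (N : ℝ)) atTop atTop :=
    Real.tendsto_log_atTop.comp tendsto_natCast_atTop_atTop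
  have t1 : Tendsto (fun N : ℕ => C / (u / 2 * Real.log N)) atTop (𝓝 0) :=
    (hlog.const_mul_atTop (by positivity)).const_div_atTop C
  have t2 : Tendsto (fun N : ℕ => C / (N : ℝ)) atTop (𝓝 0) :=
    tendsto_natCast_atTop_atTop.const_div_atTop C
  have t3 : Tendsto (fun N : ℕ => (R : ℝ) ^ 2 * (D * (C / (u / 2 * Real.log N) + C / (N : ℝ)))) atTop (𝓝 0) := by
    have := ((t1.add t2).const_mul D).const_mul ((R : ℝ) ^ 2)
    simpa using this
  have ev1 : ∀ᶠ N : ℕ in atTop,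
      (R : ℝ) ^ 2 * (D * (C / (u / 2 * Real.log N) + C / (N : ℝ))) ≤ ε / (12 * R ^ 2) :=
    (t3.eventually (gt_mem_nhds (by positivity))).mono fun _ h => le_of_lt h
  have ev2 : ∀ᶠ N : ℕ in atTop, 2 ≤ (N : ℝ) ^ (u / 2) :=
    ((tendsto_rpow_atTop (by positivity : 0 < u / 2)).comp tendsto_natCast_atTop_atTop).eventually_ge_atTop 2
  have ev3 : ∀ᶠ N : ℕ in atTop, 15 * R / ε ≤ (N : ℝ) := tendsto_natCast_atTop_atTop.eventually_ge_atTop _
  obtain ⟨N₀, hN₀⟩ := Filter.eventually_atTop.1 (ev1.and (ev2.and (ev3.and (eventually_ge_atTop (10 + R)))))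
  refine ⟨N₀, fun N hN => ?_⟩
  obtain ⟨g1, g2, g3, g4⟩ := hN₀ N hN
  have hN10 : 10 ≤ N := by omega
  have hNR : R ≤ N := by omega
  have hN1 : (1 : ℝ) ≤ N := by exact_mod_cast (by omega : 1 ≤ N)
  have hN0 : (0 : ℝ) < N := by linarith
  have hf : ∀ m, |cF N r x F m| ≤ 1 := fun m => hF _
  have hfp : ∀ p : ℕ, p.Prime → (p : ℝ) < (N : ℝ) ^ u → ∀ m, 0 < m →
      cF N r x F (p * m) = cF N r x F m := by
    intro p hp hpu m hm
    unfold cF
    congr 1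
    funext j
    refine Cn_mul N (x j) p m hp hm (hpu.le.trans ?_)
    exact Real.rpow_le_rpow_of_exponent_le hN1 (hux j)
  have hG := sum_G C hB N u hu0 hN10 g2 (cF N r x F) hf hfp
  rw [← hD] at hG
  set E : ℝ := (R : ℝ) ^ 2 * (D * (C * N ^ 2 / (u / 2 * Real.log N) + C * (N : ℝ) ^ u)) with hE
  have hlogN : 0 < Real.log N := Real.log_pos (by exact_mod_cast (by omega : 1 < N))
  have hE0 : 0 ≤ E := by positivity
  have hEb : ∀ b : ℕ, 1 ≤ b → b ≤ R →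
      |(b : ℝ) ^ 2 * (∑ m ∈ Icc 1 ((N / R) ^ 2), cF N r x F m)
        - ∑ m ∈ Icc 1 (b ^ 2 * (N / R) ^ 2), cF N r x F m| ≤ E := by
    intro b hb hbR
    have h1 := scale (cF N r x F) (b ^ 2) ((N / R) ^ 2) (Nat.one_le_pow _ _ (by omega))
    push_cast at h1
    refine h1.trans ?_
    have h2 : b ^ 2 * (N / R) ^ 2 ≤ N ^ 2 := by
      rw [← mul_pow]
      refine Nat.pow_le_pow_left ?_ 2
      calc b * (N / R) ≤ R * (N / R) := Nat.mul_le_mul_right _ hbR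
        _ ≤ N := Nat.mul_div_le N R
    have h3 : ∑ n ∈ Icc 1 (b ^ 2 * (N / R) ^ 2), |Gf (cF N r x F) n| ≤
        ∑ n ∈ Icc 1 (N ^ 2), |Gf (cF N r x F) n| :=
      Finset.sum_le_sum_of_subset_of_nonneg (Finset.Icc_subset_Icc le_rfl h2)
        (fun _ _ _ => abs_nonneg _)
    have hb' : (b : ℝ) ^ 2 ≤ (R : ℝ) ^ 2 := by
      have : (b : ℝ) ≤ R := by exact_mod_cast hbR
      exact pow_le_pow_left₀ (by positivity) this 2
    have h4 : 0 ≤ ∑ n ∈ Icc 1 (b ^ 2 * (N / R) ^ 2), |Gf (cF N r x F) n| :=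
      Finset.sum_nonneg fun _ _ => abs_nonneg _
    exact mul_le_mul hb' (h3.trans hG) h4 (by positivity)
  have hfin := assemble (cF N r x F) hf N R hR1 hNR E hE0 hEb
  refine hfin.trans ?_
  have k1 : 4 * N / √(R : ℝ) ≤ ε / 3 * N := by
    have hs : 0 < √(R : ℝ) := Real.sqrt_pos.2 (by linarith)
    rw [div_le_iff₀ hs]
    have h1 : 12 ≤ √(R : ℝ) * ε := by
      rwa [div_le_iff₀ hε] at hRε
    nlinarith
  have k2 : 4 * (R : ℝ) ^ 2 * E / N ≤ ε / 3 * N := by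
    have h1 : E ≤ ε / (12 * R ^ 2) * N ^ 2 := by
      have h2 : (N : ℝ) ^ u ≤ N := by
        calc (N : ℝ) ^ u ≤ (N : ℝ) ^ (1 : ℝ) := Real.rpow_le_rpow_of_exponent_le hN1 (by linarith)
          _ = N := Real.rpow_one _
      have h3 : C * (N : ℝ) ^ u ≤ C / N * N ^ 2 := by
        have : C / N * (N : ℝ) ^ 2 = C * N := by field_simp
        rw [this]
        exact mul_le_mul_of_nonneg_left h2 hC.le
      have h4 : E ≤ (R : ℝ) ^ 2 * (D * (C / (u / 2 * Real.log N) + C / (N : ℝ))) * N ^ 2 := by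
        rw [hE]
        have : (R : ℝ) ^ 2 * (D * (C / (u / 2 * Real.log N) + C / (N : ℝ))) * N ^ 2 =
          (R : ℝ) ^ 2 * (D * (C * N ^ 2 / (u / 2 * Real.log N) + C / (N : ℝ) * N ^ 2)) := by ring
        rw [this]
        have h5 : C * (N : ℝ) ^ 2 / (u / 2 * Real.log N) + C * (N : ℝ) ^ u ≤
          C * N ^ 2 / (u / 2 * Real.log N) + C / (N : ℝ) * N ^ 2 := by linarith
        exact mul_le_mul_of_nonneg_left (mul_le_mul_of_nonneg_left h5 hD0.le) (by positivity)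
      exact h4.trans (mul_le_mul_of_nonneg_right g1 (by positivity))
    rw [div_le_iff₀ hN0]
    have h6 : 4 * (R : ℝ) ^ 2 * E ≤ 4 * R ^ 2 * (ε / (12 * R ^ 2) * N ^ 2) :=
      mul_le_mul_of_nonneg_left h1 (by positivity)
    have h7 : 4 * (R : ℝ) ^ 2 * (ε / (12 * R ^ 2) * N ^ 2) = ε / 3 * N * N := by
      field_simp
      ring
    linarith
  have k3 : 5 * (R : ℝ) ≤ ε / 3 * N := by
    rw [div_le_iff₀ hε] at g3
    linarith
  linarith

end

end Pool.Agent.Lib.MP391708.QPA.C
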