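import Pool.Agent.Lib.MP_391708_nt.QPA.C.SMKa

/-!
# Module SMK, second part: the count
-/

set_option autoImplicit false

namespace Pool.Agent.Lib.MP391708.QPA.C.SMKM

open Finset Filter Topology
open Pool.Agent.Lib.MP391708.QPA
open Pool.Agent.Lib.MP391708.QPA.H
open scoped Classical

noncomputable section

/-- the number of multiples in an interval -/
lemma card_dvd (k x H : ℕ) (hk : 1 ≤ k) :
    |(((Ioc x (x + H)).filter (fun n => k ∣ n)).card : ℝ) - (H : ℝ) / k| ≤ 1 := by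
  have hk' : 0 < k := hk
  have hc := Nat.Ioc_filter_modEq_card (a := x) (b := x + H) hk' 0
  have he : (Ioc x (x + H)).filter (fun n => k ∣ n) = (Ioc x (x + H)).filter (fun n => n ≡ 0 [MOD k]) := by
    refine filter_congr fun n _ => ?_
    rw [Nat.modEq_zero_iff_dvd]
  rw [he]
  set n := ((Ioc x (x + H)).filter (fun n => n ≡ 0 [MOD k])).card with hcdef
  set u : ℚ := (((x + H : ℕ) : ℚ) - ((0 : ℕ) : ℚ)) / k with hu
  set v : ℚ := ((x : ℚ) - ((0 : ℕ) : ℚ)) / k with hv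
  have huv : v ≤ u := by
    rw [hu, hv]
    gcongr
    push_cast
    linarith [(Nat.cast_nonneg H : (0 : ℚ) ≤ H)]
  have hfl : ⌊v⌋ ≤ ⌊u⌋ := Int.floor_mono huv
  have hc2 : (n : ℤ) = ⌊u⌋ - ⌊v⌋ := by
    rw [hcdef, hc]
    exact max_eq_left (by linarith)
  have hd : u - v = (H : ℚ) / k := by
    rw [hu, hv]
    push_cast
    ring
  have h4 : |((n : ℤ) : ℚ) - (H : ℚ) / k| ≤ 1 := by
    rw [hc2, ← hd]
    push_cast
    rw [abs_le]
    have e1 := Int.floor_le u
    have e2 := Int.lt_floor_add_one u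
    have e3 := Int.floor_le v
    have e4 := Int.lt_floor_add_one v
    constructor <;> linarith
  have h5 : ((|((n : ℤ) : ℚ) - (H : ℚ) / k| : ℚ) : ℝ) ≤ ((1 : ℚ) : ℝ) := by exact_mod_cast h4
  push_cast at h5
  exact h5

lemma log_small (K ε : ℝ) (hε : 0 < ε) :
    ∃ N₁ : ℕ, ∀ N : ℕ, N₁ ≤ N → K * (1 + Real.log N) ≤ (N : ℝ) ^ ε := by
  have h := (isLittleO_log_rpow_atTop hε).def (c := 1 / (2 * |K| + 1)) (by positivity)
  have h2 := tendsto_natCast_atTop_atTop.eventually h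
  obtain ⟨N₁, hN₁⟩ := eventually_atTop.1 h2
  refine ⟨max N₁ 3, fun N hN => ?_⟩
  have h3 := hN₁ N (le_trans (le_max_left _ _) hN)
  have hN3 : (3 : ℝ) ≤ N := by exact_mod_cast le_trans (le_max_right _ _) hN
  have hlog : 1 ≤ Real.log N := by
    rw [Real.le_log_iff_exp_le (by linarith)]
    linarith [Real.exp_one_lt_d9]
  rw [Real.norm_of_nonneg (by linarith), Real.norm_of_nonneg (by positivity), one_div, inv_mul_eq_div,
    le_div_iff₀ (by positivity)] at h3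
  have h4 : K * (1 + Real.log N) ≤ |K| * (1 + Real.log N) :=
    mul_le_mul_of_nonneg_right (le_abs_self K) (by linarith)
  have h5 : 0 ≤ |K| := abs_nonneg K
  nlinarith

/-- the fundamental lemma for the multiples of `s` -/
lemma fl_s (C : ℝ) (hC : 0 < C) (hFL : ∀ (b : ℕ) (z : ℝ), 2 ≤ z →
    ∀ (S : Finset ℕ) (v : ℕ → ℕ) (om : ℕ → ℝ) (X : ℝ) (g : ℕ → ℝ), 0 ≤ X → (∀ i ∈ S, 0 ≤ om i) →
    (∀ p : ℕ, p.Prime → 0 ≤ g p ∧ g p ≤ 2 / (p : ℝ) ∧ g p ≤ 2 / 3) →
    |(∑ i ∈ S, om i * rInd z (v i)) - X * ∏ p ∈ PB z, (1 - g p)|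
      ≤ C * Real.exp (-(b : ℝ)) * X * (∏ p ∈ PB z, (1 - g p))
        + C * (1 + Real.log z) *
          ∑ δ ∈ (Icc 1 ⌊z ^ (8 * b + 16)⌋₊).filter
            (fun δ => Squarefree δ ∧ ∀ p : ℕ, p.Prime → p ∣ δ → (p : ℝ) < z),
            |(∑ i ∈ S.filter (fun i => δ ∣ v i), om i) - X * ∏ p ∈ δ.primeFactors, g p|)
    (b : ℕ) (z : ℝ) (hz : 2 ≤ z) (x H s : ℕ) (hs : 1 ≤ s) :
    (1 - C * Real.exp (-(b : ℝ))) * (H * (Wp z * (1 / (s : ℝ)))) - C * (1 + Real.log z) * z ^ (8 * b + 16)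
      ≤ ∑ i ∈ (Ioc x (x + H)).filter (fun i => s ∣ i), rInd z (i / s) := by
  have hs0 : (0 : ℝ) < s := by exact_mod_cast hs
  have hg : ∀ p : ℕ, p.Prime → 0 ≤ 1 / (p : ℝ) ∧ 1 / (p : ℝ) ≤ 2 / (p : ℝ) ∧ 1 / (p : ℝ) ≤ 2 / 3 := by
    intro p hp
    have hp2 : (2 : ℝ) ≤ p := by exact_mod_cast hp.two_le
    refine ⟨by positivity, by gcongr; norm_num, ?_⟩
    rw [div_le_div_iff₀ (by linarith) (by norm_num)]
    linarith
  have k1 := hFL b z hz ((Ioc x (x + H)).filter (fun i => s ∣ i)) (fun i => i / s) (fun _ => 1)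
    ((H : ℝ) / s) (fun p => 1 / (p : ℝ)) (by positivity) (fun _ _ => zero_le_one) hg
  have hlz : 0 ≤ Real.log z := Real.log_nonneg (by linarith)
  have hsum : ∑ δ ∈ (Icc 1 ⌊z ^ (8 * b + 16)⌋₊).filter
      (fun δ => Squarefree δ ∧ ∀ p : ℕ, p.Prime → p ∣ δ → (p : ℝ) < z),
      |(∑ i ∈ ((Ioc x (x + H)).filter (fun i => s ∣ i)).filter (fun i => δ ∣ i / s), (1 : ℝ))
        - (H : ℝ) / s * ∏ p ∈ δ.primeFactors, 1 / (p : ℝ)| ≤ z ^ (8 * b + 16) := by
    have hterm : ∀ δ ∈ (Icc 1 ⌊z ^ (8 * b + 16)⌋₊).filter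
      (fun δ => Squarefree δ ∧ ∀ p : ℕ, p.Prime → p ∣ δ → (p : ℝ) < z),
      |(∑ i ∈ ((Ioc x (x + H)).filter (fun i => s ∣ i)).filter (fun i => δ ∣ i / s), (1 : ℝ))
        - (H : ℝ) / s * ∏ p ∈ δ.primeFactors, 1 / (p : ℝ)| ≤ 1 := by
      intro δ hδ
      rw [Finset.mem_filter, Finset.mem_Icc] at hδ
      obtain ⟨⟨hδ1, hδ2⟩, hδs, hδz⟩ := hδ
      have e1 : ∏ p ∈ δ.primeFactors, 1 / (p : ℝ) = 1 / (δ : ℝ) := by
        rw [Finset.prod_div_distrib, Finset.prod_const_one]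
        congr 1
        rw [← Nat.cast_prod, Nat.prod_primeFactors_of_squarefree hδs]
      have e2 : ((Ioc x (x + H)).filter (fun i => s ∣ i)).filter (fun i => δ ∣ i / s)
          = (Ioc x (x + H)).filter (fun i => s * δ ∣ i) := by
        rw [filter_filter]
        refine filter_congr fun i _ => ?_
        constructor
        · rintro ⟨h1, h2⟩
          exact (Nat.dvd_div_iff_mul_dvd h1).1 h2
        · intro h
          have h1 : s ∣ i := (Dvd.intro δ rfl).trans h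
          exact ⟨h1, (Nat.dvd_div_iff_mul_dvd h1).2 h⟩
      rw [e1, e2, sum_const, nsmul_eq_mul, mul_one]
      have e3 := card_dvd (s * δ) x H (Nat.mul_pos hs hδ1)
      have e4 : (H : ℝ) / s * (1 / (δ : ℝ)) = (H : ℝ) / ((s * δ : ℕ) : ℝ) := by
        push_cast
        rw [div_mul_div_comm, mul_one]
      rw [e4]
      exact e3
    refine (sum_le_sum hterm).trans ?_
    rw [sum_const, nsmul_eq_mul, mul_one]
    refine le_trans (Nat.cast_le.2 (Finset.card_filter_le _ _)) ?_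
    rw [Nat.card_Icc, Nat.add_sub_cancel]
    exact Nat.floor_le (by positivity)
  have k2 : C * (1 + Real.log z) * ∑ δ ∈ (Icc 1 ⌊z ^ (8 * b + 16)⌋₊).filter
      (fun δ => Squarefree δ ∧ ∀ p : ℕ, p.Prime → p ∣ δ → (p : ℝ) < z),
      |(∑ i ∈ ((Ioc x (x + H)).filter (fun i => s ∣ i)).filter (fun i => δ ∣ i / s), (1 : ℝ))
        - (H : ℝ) / s * ∏ p ∈ δ.primeFactors, 1 / (p : ℝ)| ≤ C * (1 + Real.log z) * z ^ (8 * b + 16) :=
    mul_le_mul_of_nonneg_left hsum (by positivity)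
  have k3 := (abs_le.1 (k1.trans (add_le_add le_rfl k2))).1
  simp only [one_mul] at k3
  have k4 : (H : ℝ) / s * ∏ p ∈ PB z, (1 - 1 / (p : ℝ)) = H * (Wp z * (1 / (s : ℝ))) := by
    unfold Wp
    ring
  have k5 : C * Real.exp (-(b : ℝ)) * ((H : ℝ) / s) * ∏ p ∈ PB z, (1 - 1 / (p : ℝ))
      = C * Real.exp (-(b : ℝ)) * (H * (Wp z * (1 / (s : ℝ)))) := by
    rw [← k4]
    ring
  rw [k4, k5] at k3
  linarith

/-- every integer is counted at most once -/
lemma count_le (z S : ℝ) (x H : ℕ) :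
    ∑ s ∈ sm z S, ∑ i ∈ (Ioc x (x + H)).filter (fun i => s ∣ i), rInd z (i / s)
      ≤ (((Ioc x (x + H)).filter (fun m => ((smp z m : ℕ) : ℝ) ≤ S)).card : ℝ) := by
  have e1 : ∀ s ∈ sm z S, ∑ i ∈ (Ioc x (x + H)).filter (fun i => s ∣ i), rInd z (i / s)
      = ∑ i ∈ Ioc x (x + H), if s ∣ i then rInd z (i / s) else 0 := fun s _ => sum_filter _ _
  rw [sum_congr rfl e1, sum_comm, card_eq_sum_ones, Nat.cast_sum, sum_filter]
  refine sum_le_sum fun i hi => ?_
  have hi0 : i ≠ 0 := by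
    rw [mem_Ioc] at hi
    omega
  have e2 : ∀ s ∈ sm z S, (if s ∣ i then rInd z (i / s) else 0)
      ≤ if smp z i = s then (1 : ℝ) else 0 := by
    intro s hs
    by_cases h1 : s ∣ i
    · rw [if_pos h1]
      unfold rInd
      by_cases h2 : Rough z (i / s)
      · have hs' : Smooth z s := (mem_filter.1 hs).2
        have h3 := unique_smp z i (i / s) s hi0 (Nat.mul_div_cancel' h1) h2 hs'
        rw [if_pos h2, if_pos h3.symm]
      · rw [if_neg h2]
        split_ifs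
        · exact zero_le_one
        · exact le_rfl
    · rw [if_neg h1]
      split_ifs
      · exact zero_le_one
      · exact le_rfl
  refine (sum_le_sum e2).trans ?_
  rw [sum_ite_eq]
  by_cases h1 : smp z i ∈ sm z S
  · rw [if_pos h1, if_pos]
    · simp
    · unfold sm at h1
      rw [mem_filter, mem_Icc] at h1
      exact (Nat.le_floor_iff' (by omega)).1 h1.1.2
  · rw [if_neg h1]
    split_ifs
    · simp
    · exact le_rfl

lemma card_sm_le (z S : ℝ) (hS : 0 ≤ S) : ((sm z S).card : ℝ) ≤ S := by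
  unfold sm
  refine le_trans (Nat.cast_le.2 (Finset.card_filter_le _ _)) ?_
  rw [Nat.card_Icc, Nat.add_sub_cancel]
  exact Nat.floor_le hS

/-- the integers of an interval with a large smooth part -/
theorem core (hFL : SpecFL) : ∃ C : ℝ, 0 < C ∧ ∀ (b : ℕ) (e0 η h : ℝ), 0 < e0 → 0 < η →
    η + e0 * (8 * b + 16) < h → ∃ N₀ : ℕ, ∀ N : ℕ, N₀ ≤ N → ∀ x H : ℕ, (N : ℝ) ^ h ≤ H →
    (((Ioc x (x + H)).filter (fun m => (N : ℝ) ^ η < ((smp ((N : ℝ) ^ e0) m : ℕ) : ℝ))).card : ℝ)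
      ≤ C * (Real.exp (-(b : ℝ)) + Real.exp (-(η / (2 * e0)))) * H := by
  obtain ⟨C, hC, hFL⟩ := hFL
  refine ⟨C + 1 + Real.exp 40, by positivity, ?_⟩
  intro b e0 η h he0 hη hh
  obtain ⟨N₁, hN₁⟩ := log_small (C * (1 + e0) * Real.exp b) (h - (η + e0 * (8 * b + 16))) (by linarith)
  obtain ⟨N₂, hN₂⟩ := eventually_atTop.1
    (((tendsto_rpow_atTop he0).comp tendsto_natCast_atTop_atTop).eventually_ge_atTop (Real.exp 2))
  refine ⟨max (max N₁ N₂) 2, ?_⟩
  intro N hN x H hH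
  have hNN₁ : N₁ ≤ N := le_trans (le_trans (le_max_left _ _) (le_max_left _ _)) hN
  have hze : Real.exp 2 ≤ (N : ℝ) ^ e0 := hN₂ N (le_trans (le_trans (le_max_right _ _) (le_max_left _ _)) hN)
  have hN2 : 2 ≤ N := le_trans (le_max_right _ _) hN
  have hN1 : (1 : ℝ) < N := by exact_mod_cast (by omega : 1 < N)
  have hN0 : (0 : ℝ) < N := by linarith
  have hl := hN₁ N hNN₁
  set z : ℝ := (N : ℝ) ^ e0 with hz
  set S : ℝ := (N : ℝ) ^ η with hS
  have hS0 : 0 < S := by positivity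
  have hz2 : (2 : ℝ) ≤ z := le_trans (by have := Real.add_one_le_exp (2 : ℝ); linarith) hze
  have hlN : 0 < Real.log N := Real.log_pos hN1
  have hlz : Real.log z = e0 * Real.log N := by rw [hz, Real.log_rpow hN0]
  have hlz0 : 0 < Real.log z := by rw [hlz]; positivity
  set T : ℝ := Wp z * ∑ s ∈ sm z S, (1 : ℝ) / s with hT
  have hT1 : T ≤ 1 := upper z S
  have hT2 : 1 - Real.exp 40 * S ^ (-(1 / Real.log z)) ≤ T := lower z S hze hS0
  have hT0 : 0 ≤ T := by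
    rw [hT]
    exact mul_nonneg (Wp_pos z).le (sum_nonneg fun _ _ => by positivity)
  have hSR : S ^ (-(1 / Real.log z)) ≤ Real.exp (-(η / (2 * e0))) := by
    have e1 : S ^ (-(1 / Real.log z)) = Real.exp (-(η / e0)) := by
      rw [hS, ← Real.rpow_mul hN0.le, Real.rpow_def_of_pos hN0, hlz]
      congr 1
      field_simp
    rw [e1, Real.exp_le_exp, neg_le_neg_iff]
    exact div_le_div_of_nonneg_left hη.le he0 (by linarith)
  set E : ℝ := C * (1 + Real.log z) * z ^ (8 * b + 16) with hE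
  have hE0 : 0 ≤ E := by positivity
  have hH0 : (0 : ℝ) ≤ H := Nat.cast_nonneg H
  -- the sum over s
  have h1 : (1 - C * Real.exp (-(b : ℝ))) * (H * T) - S * E
      ≤ (((Ioc x (x + H)).filter (fun m => ((smp z m : ℕ) : ℝ) ≤ S)).card : ℝ) := by
    refine le_trans ?_ (count_le z S x H)
    have h2 : ∀ s ∈ sm z S, (1 - C * Real.exp (-(b : ℝ))) * (H * (Wp z * (1 / (s : ℝ)))) - E
        ≤ ∑ i ∈ (Ioc x (x + H)).filter (fun i => s ∣ i), rInd z (i / s) := by
      intro s hs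
      unfold sm at hs
      rw [mem_filter, mem_Icc] at hs
      exact fl_s C hC hFL b z hz2 x H s hs.1.1
    refine le_trans ?_ (sum_le_sum h2)
    rw [sum_sub_distrib, sum_const, nsmul_eq_mul, ← mul_sum, ← mul_sum, ← mul_sum, ← hT]
    have h3 := mul_le_mul_of_nonneg_right (card_sm_le z S hS0.le) hE0
    linarith
  -- the error
  have h2 : S * E ≤ Real.exp (-(b : ℝ)) * H := by
    have e1 : 1 + Real.log z ≤ (1 + e0) * (1 + Real.log N) := by
      rw [hlz]
      nlinarith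
    have e2 : z ^ (8 * b + 16) = (N : ℝ) ^ (e0 * (8 * b + 16)) := by
      rw [hz, ← Real.rpow_natCast, ← Real.rpow_mul hN0.le]
      push_cast
      rfl
    have e3 : S * E ≤ Real.exp (-(b : ℝ)) * ((C * (1 + e0) * Real.exp b * (1 + Real.log N)) *
        (N : ℝ) ^ (η + e0 * (8 * b + 16))) := by
      rw [hE, e2, Real.rpow_add hN0, ← hS]
      have e4 : Real.exp (-(b : ℝ)) * Real.exp b = 1 := by rw [← Real.exp_add]; simp
      calc S * (C * (1 + Real.log z) * (N : ℝ) ^ (e0 * (8 * b + 16)))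
          ≤ S * (C * ((1 + e0) * (1 + Real.log N)) * (N : ℝ) ^ (e0 * (8 * b + 16))) := by gcongr
        _ = (Real.exp (-(b : ℝ)) * Real.exp b) *
            (S * (C * ((1 + e0) * (1 + Real.log N)) * (N : ℝ) ^ (e0 * (8 * b + 16)))) := by
              rw [e4, one_mul]
        _ = _ := by ring
    refine e3.trans ?_
    refine mul_le_mul_of_nonneg_left ?_ (Real.exp_pos _).le
    calc C * (1 + e0) * Real.exp b * (1 + Real.log N) * (N : ℝ) ^ (η + e0 * (8 * b + 16))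
        ≤ (N : ℝ) ^ (h - (η + e0 * (8 * b + 16))) * (N : ℝ) ^ (η + e0 * (8 * b + 16)) := by gcongr
      _ = (N : ℝ) ^ h := by
          rw [← Real.rpow_add hN0]
          congr 1
          ring
      _ ≤ H := hH
  -- the complement
  have h3 : (((Ioc x (x + H)).filter (fun m => S < ((smp z m : ℕ) : ℝ))).card : ℝ)
      + (((Ioc x (x + H)).filter (fun m => ((smp z m : ℕ) : ℝ) ≤ S)).card : ℝ) = H := by
    have e1 := card_filter_add_card_filter_not (s := Ioc x (x + H)) (fun m => S < ((smp z m : ℕ) : ℝ))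
    have e2 : (Ioc x (x + H)).filter (fun m => ¬ S < ((smp z m : ℕ) : ℝ))
        = (Ioc x (x + H)).filter (fun m => ((smp z m : ℕ) : ℝ) ≤ S) := by
      refine filter_congr fun m _ => ?_
      exact not_lt
    rw [e2, Nat.card_Ioc, Nat.add_sub_cancel_left] at e1
    exact_mod_cast e1
  have h4 : H * (1 - T) ≤ H * (Real.exp 40 * Real.exp (-(η / (2 * e0)))) := by
    refine mul_le_mul_of_nonneg_left ?_ hH0
    have := mul_le_mul_of_nonneg_left hSR (Real.exp_pos 40).le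
    linarith
  have h5 : C * Real.exp (-(b : ℝ)) * (H * T) ≤ C * Real.exp (-(b : ℝ)) * H := by
    refine mul_le_mul_of_nonneg_left ?_ (by positivity)
    nlinarith
  have h6 : 0 ≤ Real.exp 40 * Real.exp (-(b : ℝ)) * H := by positivity
  have h7 : 0 ≤ (C + 1) * Real.exp (-(η / (2 * e0))) * H := by positivity
  nlinarith

end

end Pool.Agent.Lib.MP391708.QPA.C.SMKM
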