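import Pool.Agent.Lib.MP_391708_nt.QPA.C.SpecD
import Pool.Agent.Lib.MP_391708_nt.QPA.C.SMKb

/-!
# Module SMK: integers in an interval with a large smooth part
-/

set_option autoImplicit false

namespace Pool.Agent.Lib.MP391708.QPA.C

open Finset Filter Topology
open Pool.Agent.Lib.MP391708.QPA
open Pool.Agent.Lib.MP391708.QPA.H
open scoped Classical

theorem specSMK (hFL : SpecFL) : SpecSMK := by
  obtain ⟨C, hC, h⟩ := SMKM.core hFL
  refine ⟨C, hC, ?_⟩
  intro b e0 η he0 heb hη hη20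
  obtain ⟨N₀, hN₀⟩ := h b e0 η (1 / 8) he0 hη (by linarith)
  exact ⟨N₀, fun N hN x H hH _ => hN₀ N hN x H hH⟩

end Pool.Agent.Lib.MP391708.QPA.C
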