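import Pool.Agent.Lib.MP_391708_nt.QPA.C.SpecD
import Pool.Agent.Lib.MP_391708_nt.QPA.C.T2C

/-!
# QPA phase 4, stage 2, module T2D: the combinatorial identity for functions of the type
-/

set_option autoImplicit false

namespace Pool.Agent.Lib.MP391708.QPA.C.T2DM

open Finset
open Pool.Agent.Lib.MP391708.QPA Pool.Agent.Lib.MP391708.QPA.H Pool.Agent.Lib.MP391708.QPA.C
open scoped Classical
open T2

/-- the Moebius transform of a function `Φ` of the type -/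
noncomputable def cD (N : ℕ) (e2 : ℝ) (Φ : Multiset ℕ → ℝ) (k : ℕ) : ℝ :=
  ∑ d ∈ k.divisors, (ArithmeticFunction.moebius (k / d) : ℝ) * Φ (typ N e2 d)

/-- the Moebius transform on types -/
noncomputable def cT (Φ : Multiset ℕ → ℝ) (s : Multiset ℕ) : ℝ :=
  (s.powerset.map (fun d => (-1 : ℝ) ^ (Multiset.card s + Multiset.card d) * Φ d)).sum

/-- Moebius inversion -/
theorem cD_sum (N : ℕ) (e2 : ℝ) (Φ : Multiset ℕ → ℝ) (D : ℕ) (hD : 0 < D) :
    ∑ k ∈ D.divisors, cD N e2 Φ k = Φ (typ N e2 D) := by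
  have h := (ArithmeticFunction.sum_eq_iff_sum_mul_moebius_eq (R := ℝ)
    (f := cD N e2 Φ) (g := fun d => Φ (typ N e2 d))).mpr ?_
  · exact h D hD
  · intro n _
    rw [cD]
    rw [Nat.sum_divisorsAntidiagonal' (f := fun a b => (ArithmeticFunction.moebius a : ℝ) * Φ (typ N e2 b))]

theorem moebius_div (k : ℕ) (hk : Squarefree k) (S : Finset ℕ) (hS : S ⊆ k.primeFactors) :
    (ArithmeticFunction.moebius (k / ∏ p ∈ S, p) : ℝ) = (-1 : ℝ) ^ (k.primeFactors.card + S.card) := by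
  have hd := T1.prod_dvd k hk S hS
  obtain ⟨l, hl⟩ := hd
  have hS0 : 0 < ∏ p ∈ S, p :=
    Nat.pos_of_ne_zero (fun h0 => hk.ne_zero (by rw [hl, h0, zero_mul]))
  have hkl : k / ∏ p ∈ S, p = l := by
    conv_lhs => rw [hl]
    exact Nat.mul_div_cancel_left l hS0
  have hsq := hk
  rw [hl] at hsq
  have hcop : Nat.Coprime (∏ p ∈ S, p) l := Nat.coprime_of_squarefree_mul hsq
  have hSsq : Squarefree (∏ p ∈ S, p) := hk.squarefree_of_dvd (T1.prod_dvd k hk S hS)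
  have h1 : (ArithmeticFunction.moebius k : ℝ) = (ArithmeticFunction.moebius (∏ p ∈ S, p) : ℝ) *
      (ArithmeticFunction.moebius l : ℝ) := by
    rw [hl, ArithmeticFunction.isMultiplicative_moebius.map_mul_of_coprime hcop]
    push_cast
    rfl
  have h2 : ∀ n : ℕ, Squarefree n → (ArithmeticFunction.moebius n : ℝ) = (-1 : ℝ) ^ n.primeFactors.card := by
    intro n hn
    rw [ArithmeticFunction.moebius_apply_of_squarefree hn, ArithmeticFunction.cardFactors_apply,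
      H.T2EM.card_pf n hn]
    push_cast
    rfl
  have h3 : (∏ p ∈ S, p).primeFactors = S :=
    Nat.primeFactors_prod (fun p hp => (Nat.mem_primeFactors.mp (hS hp)).1)
  rw [h2 k hk, h2 _ hSsq, h3] at h1
  rw [hkl, pow_add, h1]
  have h4 : (-1 : ℝ) ^ S.card * (-1 : ℝ) ^ S.card = 1 := by
    rw [← mul_pow]; norm_num
  calc (ArithmeticFunction.moebius l : ℝ) = ((-1 : ℝ) ^ S.card * (-1 : ℝ) ^ S.card) *
        (ArithmeticFunction.moebius l : ℝ) := by rw [h4, one_mul]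
    _ = _ := by ring

/-- divisors of a squarefree number and subsets of its prime factors -/
theorem sum_divisors_subsets (k : ℕ) (hk : Squarefree k) (f : ℕ → ℝ) :
    ∑ d ∈ k.divisors, f d = ∑ S ∈ k.primeFactors.powerset, f (∏ p ∈ S, p) := by
  symm
  apply Finset.sum_nbij' (fun S => ∏ p ∈ S, p) (fun k => k.primeFactors)
  · intro S hS
    exact Nat.mem_divisors.mpr ⟨T1.prod_dvd k hk S (Finset.mem_powerset.mp hS), hk.ne_zero⟩
  · intro d hd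
    have h2 := Nat.mem_divisors.mp hd
    exact Finset.mem_powerset.mpr (Nat.primeFactors_mono h2.1 h2.2)
  · intro S hS
    have h1 := Finset.mem_powerset.mp hS
    exact Nat.primeFactors_prod (fun p hp => (Nat.mem_primeFactors.mp (h1 hp)).1)
  · intro d hd
    exact Nat.prod_primeFactors_of_squarefree (hk.squarefree_of_dvd (Nat.mem_divisors.mp hd).1)
  · intro S _
    rfl

theorem typ_prod (N : ℕ) (e2 : ℝ) (k : ℕ) (hk : Squarefree k) (S : Finset ℕ)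
    (hS : S ⊆ k.primeFactors) : typ N e2 (∏ p ∈ S, p) = S.val.map (idx N e2) := by
  have hSsq : Squarefree (∏ p ∈ S, p) := hk.squarefree_of_dvd (T1.prod_dvd k hk S hS)
  rw [typ_sq N e2 _ hSsq, Nat.primeFactors_prod (fun p hp => (Nat.mem_primeFactors.mp (hS hp)).1)]

theorem card_map_idx (N : ℕ) (e2 : ℝ) (S : Finset ℕ) :
    Multiset.card (S.val.map (idx N e2)) = S.card := by
  rw [Multiset.card_map]; rfl

/-- on squarefree numbers the Moebius transform is a function of the type -/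
theorem cD_typ (N : ℕ) (e2 : ℝ) (Φ : Multiset ℕ → ℝ) (k : ℕ) (hk : Squarefree k) :
    cD N e2 Φ k = cT Φ (typ N e2 k) := by
  have hcard : Multiset.card (typ N e2 k) = k.primeFactors.card := by
    rw [card_typ, H.T2EM.card_pf k hk]
  rw [cD, sum_divisors_subsets k hk
    (fun d => (ArithmeticFunction.moebius (k / d) : ℝ) * Φ (typ N e2 d)), cT, hcard,
    typ_sq N e2 k hk, ← sum_powerset]
  apply Finset.sum_congr rfl
  intro S hS
  have hSP := Finset.mem_powerset.mp hS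
  rw [moebius_div k hk S hSP, typ_prod N e2 k hk S hSP, card_map_idx]

theorem abs_cT_le (Φ : Multiset ℕ → ℝ) (hΦ : ∀ c, |Φ c| ≤ 1) (s : Multiset ℕ) :
    |cT Φ s| ≤ 2 ^ Multiset.card s := by
  unfold cT
  have h := T2CM.abs_sum_map_le' s.powerset
    (fun d => (-1 : ℝ) ^ (Multiset.card s + Multiset.card d) * Φ d) 1 (fun d _ => by
      rw [abs_mul, abs_pow, abs_neg, abs_one, one_pow, one_mul]
      exact hΦ d)
  rw [Multiset.card_powerset, mul_one] at h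
  push_cast at h
  exact h

theorem abs_cD_le (N : ℕ) (e2 : ℝ) (Φ : Multiset ℕ → ℝ) (hΦ : ∀ c, |Φ c| ≤ 1) (k : ℕ)
    (hk : Squarefree k) : |cD N e2 Φ k| ≤ 2 ^ k.primeFactors.card := by
  have hcard : Multiset.card (typ N e2 k) = k.primeFactors.card := by
    rw [card_typ, H.T2EM.card_pf k hk]
  rw [cD_typ N e2 Φ k hk, ← hcard]
  exact abs_cT_le Φ hΦ _

theorem psiD_eq (N : ℕ) (e0 κ : ℝ) (c : ℕ → ℝ) (m : ℕ) (hm : m ≠ 0) :
    psiD N e0 κ c m = psiD N e0 κ c (T2CM.rgp ((N : ℝ) ^ e0) m) := by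
  have h := T2CM.smp_mul_rgp ((N : ℝ) ^ e0) m hm
  have hr0 : T2CM.rgp ((N : ℝ) ^ e0) m ≠ 0 := fun h0 => hm (by rw [← h, h0, mul_zero])
  rw [psiD, psiD]
  congr 1
  ext k
  rw [mem_filter, mem_filter, Nat.mem_divisors, Nat.mem_divisors]
  constructor
  · rintro ⟨⟨h1, _⟩, h2, h3, h4⟩
    refine ⟨⟨?_, hr0⟩, h2, h3, h4⟩
    rw [← h] at h1
    exact ((T2CM.coprime_sr _ _ _ (T2CM.smooth_smp _ m) h3).symm).dvd_of_dvd_mul_left h1
  · rintro ⟨⟨h1, _⟩, h2, h3, h4⟩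
    refine ⟨⟨h1.trans (Dvd.intro_left _ h), hm⟩, h2, h3, h4⟩

theorem psiD_sq (N : ℕ) (e0 κ : ℝ) (c : ℕ → ℝ) (t : ℕ) (ht : Squarefree t)
    (hr : Rough ((N : ℝ) ^ e0) t) :
    psiD N e0 κ c t = ∑ S ∈ t.primeFactors.powerset,
      if ((∏ p ∈ S, p : ℕ) : ℝ) ≤ (N : ℝ) ^ κ then c (∏ p ∈ S, p) else 0 := by
  have h1 : t.divisors.filter
      (fun k : ℕ => (k : ℝ) ≤ (N : ℝ) ^ κ ∧ Rough ((N : ℝ) ^ e0) k ∧ Squarefree k)
      = t.divisors.filter (fun k : ℕ => (k : ℝ) ≤ (N : ℝ) ^ κ) := by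
    ext k
    rw [mem_filter, mem_filter, Nat.mem_divisors]
    constructor
    · rintro ⟨h2, h3, _⟩
      exact ⟨h2, h3⟩
    · rintro ⟨h2, h3⟩
      exact ⟨h2, h3, T2CM.rough_dvd _ _ _ hr h2.1, ht.squarefree_of_dvd h2.1⟩
  rw [psiD, h1, Finset.sum_filter,
    sum_divisors_subsets t ht (fun k => if (k : ℝ) ≤ (N : ℝ) ^ κ then c k else 0)]

/-- `t = D p` with `D ≤ Y < p`: the Type I sum is the sum over all divisors of `D` -/
theorem psiD_val (N : ℕ) (e0 κ : ℝ) (c : ℕ → ℝ) (D p : ℕ) (hp : p.Prime)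
    (hsq : Squarefree (D * p)) (hr : Rough ((N : ℝ) ^ e0) (D * p)) (hD : (D : ℝ) ≤ (N : ℝ) ^ κ)
    (hY : (N : ℝ) ^ κ < p) : psiD N e0 κ c (D * p) = ∑ k ∈ D.divisors, c k := by
  have hD0 : D ≠ 0 := fun h0 => hsq.ne_zero (by rw [h0, zero_mul])
  rw [psiD]
  congr 1
  ext k
  rw [mem_filter, Nat.mem_divisors, Nat.mem_divisors]
  constructor
  · rintro ⟨⟨h1, _⟩, h2, _⟩
    refine ⟨?_, hD0⟩
    have hpk : ¬ p ∣ k := by
      intro h
      rcases Nat.eq_zero_or_pos k with hk | hk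
      · rw [hk, zero_dvd_iff] at h1
        exact hsq.ne_zero h1
      have h3 : (p : ℝ) ≤ k := by exact_mod_cast Nat.le_of_dvd hk h
      linarith
    have hcop : Nat.Coprime k p := ((Nat.Prime.coprime_iff_not_dvd hp).mpr hpk).symm
    exact hcop.dvd_of_dvd_mul_right h1
  · rintro ⟨h1, _⟩
    have h2 : k ∣ D * p := h1.trans (Dvd.intro _ rfl)
    refine ⟨⟨h2, hsq.ne_zero⟩, ?_, T2CM.rough_dvd _ _ _ hr h2, hsq.squarefree_of_dvd h2⟩
    refine le_trans ?_ hD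
    exact_mod_cast Nat.le_of_dvd (Nat.pos_of_ne_zero hD0) h1

/-- the Type I function on a type -/
noncomputable def psT (κ e2 : ℝ) (Φ : Multiset ℕ → ℝ) (c : Multiset ℕ) : ℝ :=
  (c.powerset.map (fun s : Multiset ℕ => if e2 * (s.sum : ℝ) < κ then cT Φ s else 0)).sum

theorem abs_psT_le (κ e2 : ℝ) (Φ : Multiset ℕ → ℝ) (hΦ : ∀ c, |Φ c| ≤ 1) (c : Multiset ℕ) (R : ℕ)
    (hc : Multiset.card c ≤ R) : |psT κ e2 Φ c| ≤ 4 ^ R := by
  unfold psT
  have h1 := T2CM.abs_sum_map_le' c.powerset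
    (fun s : Multiset ℕ => if e2 * (s.sum : ℝ) < κ then cT Φ s else 0) (2 ^ R) (fun x hx => by
    have hx' := Multiset.card_le_card (Multiset.mem_powerset.mp hx)
    split_ifs
    · exact (abs_cT_le Φ hΦ x).trans (pow_le_pow_right₀ (by norm_num) (hx'.trans hc))
    · rw [abs_zero]; positivity)
  rw [Multiset.card_powerset] at h1
  have h2 : ((2 ^ Multiset.card c : ℕ) : ℝ) ≤ 2 ^ R := by
    push_cast
    exact pow_le_pow_right₀ (by norm_num) hc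
  have h4 : ((2 ^ Multiset.card c : ℕ) : ℝ) * 2 ^ R ≤ 4 ^ R := by
    calc ((2 ^ Multiset.card c : ℕ) : ℝ) * 2 ^ R ≤ 2 ^ R * 2 ^ R :=
          mul_le_mul_of_nonneg_right h2 (by positivity)
      _ = 4 ^ R := by rw [← mul_pow]; norm_num
  exact h1.trans h4

theorem psiD_typ (N : ℕ) (e0 κ e e2 : ℝ) (hN : 10 ≤ N) (hκ : 0 < κ) (he : 0 < e)
    (he2 : 0 < e2) (Φ : Multiset ℕ → ℝ) (t : ℕ) (ht : Squarefree t)
    (hr : Rough ((N : ℝ) ^ e0) t) (hg : GoodC κ e2 e (typ N e2 t)) :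
    psiD N e0 κ (cD N e2 Φ) t = psT κ e2 Φ (typ N e2 t) := by
  rw [psiD_sq N e0 κ _ t ht hr, psT, typ_sq N e2 t ht, ← sum_powerset]
  apply Finset.sum_congr rfl
  intro S hS
  have hSP := Finset.mem_powerset.mp hS
  have hiff := T2CM.small_iff N κ e e2 hN hκ he he2 t ht hg S hSP
  have hsq : Squarefree (∏ p ∈ S, p) := ht.squarefree_of_dvd (T1.prod_dvd t ht S hSP)
  rw [cD_typ N e2 Φ _ hsq, typ_prod N e2 t ht S hSP]
  by_cases h : ((∏ p ∈ S, p : ℕ) : ℝ) ≤ (N : ℝ) ^ κ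
  · rw [if_pos h, if_pos (hiff.mp h)]
  · rw [if_neg h, if_neg (fun h' => h (hiff.mpr h'))]

theorem psiD_bound (N : ℕ) (e0 κ : ℝ) (c : ℕ → ℝ) (hc : ∀ k, Squarefree k → |c k| ≤ 2 ^ k.primeFactors.card)
    (m R : ℕ) (hR : m.primeFactorsList.length ≤ R) : |psiD N e0 κ c m| ≤ 4 ^ R := by
  rw [psiD]
  have hcR : m.primeFactors.card ≤ R := (FFB.card_primeFactors_le m).trans hR
  have h1 : |∑ k ∈ m.divisors.filter
      (fun k : ℕ => (k : ℝ) ≤ (N : ℝ) ^ κ ∧ Rough ((N : ℝ) ^ e0) k ∧ Squarefree k),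
      c k| ≤ ∑ k ∈ m.divisors.filter
      (fun k : ℕ => (k : ℝ) ≤ (N : ℝ) ^ κ ∧ Rough ((N : ℝ) ^ e0) k ∧ Squarefree k), (2 : ℝ) ^ R := by
    refine (Finset.abs_sum_le_sum_abs _ _).trans (Finset.sum_le_sum ?_)
    intro k hk
    have hk1 := mem_filter.mp hk
    have hk2 := Nat.mem_divisors.mp hk1.1
    exact (hc k hk1.2.2.2).trans (pow_le_pow_right₀ (by norm_num)
      ((Finset.card_le_card (Nat.primeFactors_mono hk2.1 hk2.2)).trans hcR))
  refine h1.trans ?_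
  rw [Finset.sum_const, nsmul_eq_mul]
  have h2 : (m.divisors.filter
      (fun k : ℕ => (k : ℝ) ≤ (N : ℝ) ^ κ ∧ Rough ((N : ℝ) ^ e0) k ∧ Squarefree k)).card
      ≤ m.primeFactors.powerset.card := by
    apply Finset.card_le_card_of_injOn Nat.primeFactors
    · intro k hk
      have hk' := mem_filter.mp hk
      have hk3 := Nat.mem_divisors.mp hk'.1
      exact Finset.mem_coe.mpr (Finset.mem_powerset.mpr (Nat.primeFactors_mono hk3.1 hk3.2))
    · intro j hj k hk hjk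
      have hj' := (mem_filter.mp hj).2.2.2
      have hk' := (mem_filter.mp hk).2.2.2
      rw [← Nat.prod_primeFactors_of_squarefree hj', ← Nat.prod_primeFactors_of_squarefree hk', hjk]
  rw [Finset.card_powerset] at h2
  calc ((m.divisors.filter
      (fun k : ℕ => (k : ℝ) ≤ (N : ℝ) ^ κ ∧ Rough ((N : ℝ) ^ e0) k ∧ Squarefree k)).card : ℝ) * 2 ^ R
      ≤ ((2 ^ m.primeFactors.card : ℕ) : ℝ) * 2 ^ R :=
        mul_le_mul_of_nonneg_right (by exact_mod_cast h2) (by positivity)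
    _ ≤ 2 ^ R * 2 ^ R := by
        apply mul_le_mul_of_nonneg_right _ (by positivity)
        push_cast
        exact pow_le_pow_right₀ (by norm_num) hcR
    _ = 4 ^ R := by rw [← mul_pow]; norm_num

/-- the structure of the rough numbers of a good type without middle subtype -/
theorem no_mid_struct (N : ℕ) (κ η e e2 : ℝ) (hN : 10 ≤ N) (hκ1 : 3 / 5 < κ) (hκ2 : κ < 2 / 3)
    (he : 0 < e) (he' : e ≤ 1 / 40) (hη : 3 * κ + η < 2) (hNe : 6 ≤ (N : ℝ) ^ e)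
    (he2 : 0 < e2) (t : ℕ) (ht : Squarefree t)
    (ht1 : (N : ℝ) ^ (2 - η) / 2 ≤ t) (ht2 : (t : ℝ) ≤ 5 * (N : ℝ) ^ 2)
    (hg : GoodC κ e2 e (typ N e2 t))
    (hmid : ¬ ∃ c₁ ≤ typ N e2 t, MidK κ e2 e c₁) :
    ∃ D p : ℕ, p.Prime ∧ t = D * p ∧ (D : ℝ) < (N : ℝ) ^ (κ - e) ∧ (N : ℝ) ^ (2 * κ - 2 * e) < p := by
  have hN1 : (1 : ℝ) < N := by exact_mod_cast (by omega : 1 < N)
  have hN0 : (0 : ℝ) < N := by linarith
  have hL1 : 1 < (N : ℝ) ^ (κ - e) := Real.one_lt_rpow hN1 (by linarith)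
  have hpowL : ((N : ℝ) ^ (κ - e)) ^ 3 = (N : ℝ) ^ (3 * κ - 3 * e) := by
    rw [← Real.rpow_natCast, ← Real.rpow_mul hN0.le]
    congr 1
    push_cast
    ring
  have hpowU : ((N : ℝ) ^ (1 + e)) ^ 2 = (N : ℝ) ^ (2 + 2 * e) := by
    rw [← Real.rpow_natCast, ← Real.rpow_mul hN0.le]
    congr 1
    push_cast
    ring
  have hU : (t : ℝ) < ((N : ℝ) ^ (1 + e)) ^ 2 := by
    rw [hpowU, Real.rpow_add hN0, show (2 * e) = e + e by ring, Real.rpow_add hN0]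
    have h1 : (N : ℝ) ^ (2 : ℝ) = (N : ℝ) ^ 2 := by
      rw [show (2 : ℝ) = ((2 : ℕ) : ℝ) by norm_num, Real.rpow_natCast]
    rw [h1]
    refine lt_of_le_of_lt ht2 ?_
    have h2 : (6 : ℝ) * 6 ≤ (N : ℝ) ^ e * (N : ℝ) ^ e := mul_le_mul hNe hNe (by norm_num) (by positivity)
    have h3 : (0 : ℝ) < (N : ℝ) ^ 2 := by positivity
    nlinarith
  have hLU : ((N : ℝ) ^ (κ - e)) ^ 3 ≤ ((N : ℝ) ^ (1 + e)) ^ 2 := by
    rw [hpowL, hpowU]
    exact Real.rpow_le_rpow_of_exponent_le hN1.le (by linarith)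
  have htL : ((N : ℝ) ^ (κ - e)) ^ 3 < t := by
    rw [hpowL]
    refine lt_of_lt_of_le ?_ ht1
    have h1 : (N : ℝ) ^ (3 * κ - 3 * e) * 2 < (N : ℝ) ^ (2 - η) := by
      have h2 : (N : ℝ) ^ (3 * κ - 3 * e) * 2 < (N : ℝ) ^ (3 * κ - 3 * e) * (N : ℝ) ^ e :=
        mul_lt_mul_of_pos_left (by linarith) (by positivity)
      refine h2.trans_le ?_
      rw [← Real.rpow_add hN0]
      exact Real.rpow_le_rpow_of_exponent_le hN1.le (by linarith)
    linarith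
  obtain ⟨D, p, hp, htDp, hDL, hLp⟩ := T2CM.struct t ht _ _ hL1
    (fun d hd => T2CM.div_dich N κ e e2 hN (by linarith) he2 t ht hg hmid d hd) (by positivity) hU hLU htL
  refine ⟨D, p, hp, htDp, hDL, ?_⟩
  rw [← Real.rpow_natCast, ← Real.rpow_mul hN0.le] at hLp
  have h1 : (κ - e) * ((2 : ℕ) : ℝ) = 2 * κ - 2 * e := by push_cast; ring
  rwa [h1] at hLp

/-! ### the coefficients -/

/-- the coefficients of the Type II part -/
noncomputable def ttD (κ e2 e : ℝ) (Φ Φ' : Multiset ℕ → ℝ) (c : Multiset ℕ) : ℝ :=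
  if ∃ c₁ c₂ : Multiset ℕ, c₁ + c₂ = c ∧ c₂ ≠ 0 ∧ MidK κ e2 e c₁ then (Φ c - psT κ e2 Φ' c) / vf c
  else 0

/-- the coefficients of the Type I part -/
noncomputable def cfD (e2 : ℝ) (Φ' : Multiset ℕ → ℝ) (N k : ℕ) : ℝ :=
  if Squarefree k then cD N e2 Φ' k else 0

theorem abs_cfD_le (e2 : ℝ) (Φ' : Multiset ℕ → ℝ) (hΦ : ∀ c, |Φ' c| ≤ 1) (N k : ℕ) :
    |cfD e2 Φ' N k| ≤ 2 ^ k.primeFactors.card := by
  unfold cfD
  split_ifs with h
  · exact abs_cD_le N e2 Φ' hΦ k h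
  · rw [abs_zero]; positivity

theorem abs_ttD_le (κ e2 e : ℝ) (Φ Φ' : Multiset ℕ → ℝ) (hΦ : ∀ c, |Φ c| ≤ 1)
    (hΦ' : ∀ c, |Φ' c| ≤ 1) (c : Multiset ℕ) (R : ℕ) (hc : Multiset.card c ≤ R) :
    |ttD κ e2 e Φ Φ' c| ≤ 1 + 4 ^ R := by
  unfold ttD
  split_ifs
  · rw [abs_div, abs_of_pos (lt_of_lt_of_le one_pos (vf_pos c))]
    refine (div_le_self (abs_nonneg _) (vf_pos c)).trans ?_
    calc |Φ c - psT κ e2 Φ' c| ≤ |Φ c| + |psT κ e2 Φ' c| := abs_sub _ _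
      _ ≤ 1 + 4 ^ R := add_le_add (hΦ c) (abs_psT_le κ e2 Φ' hΦ' c R hc)
  · rw [abs_zero]; positivity

theorem psiD_cfD (N : ℕ) (e0 κ e2 : ℝ) (Φ' : Multiset ℕ → ℝ) (t : ℕ) :
    psiD N e0 κ (cfD e2 Φ' N) t = psiD N e0 κ (cD N e2 Φ') t := by
  rw [psiD, psiD]
  apply Finset.sum_congr rfl
  intro k hk
  have hk' := (mem_filter.mp hk).2.2.2
  rw [cfD, if_pos hk']

theorem abs_tyF_le (N Q : ℕ) (e0 κ : ℝ) (Φ Φ' : Multiset ℕ → ℝ) (hΦ : ∀ c, |Φ c| ≤ 1)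
    (hΦ' : ∀ c, |Φ' c| ≤ 1) (m : ℕ) : |tyF N Q e0 κ Φ Φ' m| ≤ 1 := by
  unfold tyF
  by_cases h1 : ¬ Squarefree (T2CM.rgp ((N : ℝ) ^ e0) m)
  · rw [if_pos h1, abs_zero]; norm_num
  · rw [if_neg h1]
    split_ifs
    · exact hΦ _
    · exact hΦ' _

theorem gen_bound (N Q : ℕ) (e0 κ e : ℝ) (hN : 10 ≤ N) (he0 : 0 < e0) (hQ : 1 ≤ Q)
    (Φ Φ' : Multiset ℕ → ℝ) (hΦ : ∀ c, |Φ c| ≤ 1) (hΦ' : ∀ c, |Φ' c| ≤ 1) (m t : ℕ)
    (htR : t.primeFactorsList.length ≤ ⌊3 / e0⌋₊)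
    (T : Finset (Multiset ℕ)) (hT : ∀ c ∈ T, Multiset.card c ≤ ⌊3 / e0⌋₊) :
    |tyF N Q e0 κ Φ Φ' m - psiD N e0 κ (cfD (e0 / Q) Φ' N) t
        - ∑ c ∈ T, ttD κ (e0 / Q) e Φ Φ' c * FF N (e0 / Q) c t|
      ≤ 1 + 4 ^ ⌊3 / e0⌋₊ + (1 + 4 ^ ⌊3 / e0⌋₊) * (⌊3 / e0⌋₊).factorial := by
  have hQ0 : (0 : ℝ) < Q := by exact_mod_cast hQ
  have he2 : 0 < e0 / Q := by positivity
  have h1 := abs_tyF_le N Q e0 κ Φ Φ' hΦ hΦ' m
  have h2 : |psiD N e0 κ (cfD (e0 / Q) Φ' N) t| ≤ 4 ^ ⌊3 / e0⌋₊ :=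
    psiD_bound N e0 κ _ (fun k _ => abs_cfD_le _ Φ' hΦ' N k) t _ htR
  have h3 : |∑ c ∈ T, ttD κ (e0 / Q) e Φ Φ' c * FF N (e0 / Q) c t|
      ≤ (1 + 4 ^ ⌊3 / e0⌋₊) * (⌊3 / e0⌋₊).factorial := by
    rw [sum_types N Q e0 hN he2]
    split_ifs with h
    · rw [abs_mul]
      apply mul_le_mul (abs_ttD_le _ _ _ _ _ hΦ hΦ' _ _ (hT _ h)) _ (abs_nonneg _) (by positivity)
      rw [abs_of_nonneg (FFB.FF_nonneg _ _ _ _)]
      refine (FFB.FF_le N _ (by omega) _ _).trans ?_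
      exact_mod_cast Nat.factorial_le (hT _ h)
    · rw [abs_zero]; positivity
  calc _ ≤ |tyF N Q e0 κ Φ Φ' m - psiD N e0 κ (cfD (e0 / Q) Φ' N) t|
        + |∑ c ∈ T, ttD κ (e0 / Q) e Φ Φ' c * FF N (e0 / Q) c t| := abs_sub _ _
    _ ≤ |tyF N Q e0 κ Φ Φ' m| + |psiD N e0 κ (cfD (e0 / Q) Φ' N) t|
        + |∑ c ∈ T, ttD κ (e0 / Q) e Φ Φ' c * FF N (e0 / Q) c t| := by
        linarith [abs_sub (tyF N Q e0 κ Φ Φ' m) (psiD N e0 κ (cfD (e0 / Q) Φ' N) t)]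
    _ ≤ _ := by linarith

/-- good types for the three exponents are good types -/
theorem goodC_of_goodD (κ x₀ e2 e : ℝ) (c : Multiset ℕ) (h : GoodD κ x₀ e2 e c) :
    GoodC κ e2 e c := by
  intro s hs hs0 x hx
  apply h s hs hs0 x
  simp only [mem_insert, mem_singleton] at hx ⊢
  rcases hx with hx | hx
  · exact Or.inl hx
  · exact Or.inr (Or.inl hx)

/-- a bad type gives a rough divisor in a window -/
theorem bad_type (N : ℕ) (e0 κ x₀ e : ℝ) (hN : 10 ≤ N) (e2 : ℝ) (he2 : 0 < e2) (R : ℕ)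
    (hR : e2 * R ≤ e) (t : ℕ) (ht : Squarefree t) (hr : Rough ((N : ℝ) ^ e0) t)
    (htR : t.primeFactorsList.length ≤ R) (hg : ¬ GoodD κ x₀ e2 e (typ N e2 t)) :
    ∃ x ∈ ({κ, 1, x₀} : Finset ℝ), RWin N e0 x (2 * e) t := by
  have hN1 : (1 : ℝ) < N := by exact_mod_cast (by omega : 1 < N)
  unfold GoodD at hg
  push Not at hg
  obtain ⟨s, hs, hs0, x, hx, h1, h2⟩ := hg
  refine ⟨x, hx, ?_⟩
  have hs' := hs
  rw [typ_sq N e2 t ht] at hs'
  obtain ⟨S, hSP, hSs⟩ := exists_sub t.primeFactors (idx N e2) s hs'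
  have hb := prod_bounds N e2 (by omega) he2 S
    (fun p hp => (Nat.mem_primeFactors.mp (hSP hp)).1.one_lt.le)
  rw [hSs] at hb
  have hcard : (Multiset.card s : ℝ) ≤ R := by
    have := Multiset.card_le_card hs
    rw [card_typ] at this
    exact_mod_cast this.trans htR
  have hcR : e2 * (Multiset.card s : ℝ) ≤ e := (mul_le_mul_of_nonneg_left hcard he2.le).trans hR
  have hdvd := T1.prod_dvd t ht S hSP
  refine ⟨∏ p ∈ S, p, hdvd, T2CM.rough_dvd _ _ _ hr hdvd, ?_, ?_⟩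
  · refine le_trans (Real.rpow_le_rpow_of_exponent_le hN1.le ?_) hb.1
    rw [mul_add] at h2
    linarith
  · refine hb.2.trans (Real.rpow_le_rpow_of_exponent_le hN1.le ?_)
    rw [mul_add]
    linarith

/-- the largest prime factor of `D p`, `D < p` -/
theorem lpf_mul (D p : ℕ) (hp : p.Prime) (hD0 : D ≠ 0) (hDp : D < p) : lpf (D * p) = p := by
  rw [lpf, Nat.primeFactors_mul hD0 hp.ne_zero, hp.primeFactors]
  apply le_antisymm
  · apply Finset.sup_le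
    intro q hq
    rcases Finset.mem_union.mp hq with h | h
    · exact ((Nat.le_of_dvd (Nat.pos_of_ne_zero hD0) (Nat.dvd_of_mem_primeFactors h)).trans hDp.le)
    · exact (Finset.mem_singleton.mp h).le
  · exact Finset.le_sup (f := id) (Finset.mem_union_right _ (Finset.mem_singleton_self p))

/-- the value of `tyF` in class II -/
theorem tyF_mid (N Q : ℕ) (e0 κ e : ℝ) (hN : 10 ≤ N) (he : 0 < e) (he2 : 0 < e0 / Q)
    (Φ Φ' : Multiset ℕ → ℝ) (m : ℕ)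
    (ht : Squarefree (T2CM.rgp ((N : ℝ) ^ e0) m)) (c₁ : Multiset ℕ)
    (hc₁ : c₁ ≤ typ N (e0 / Q) (T2CM.rgp ((N : ℝ) ^ e0) m)) (hM : MidK κ (e0 / Q) e c₁) :
    tyF N Q e0 κ Φ Φ' m = Φ (typ N (e0 / Q) (T2CM.rgp ((N : ℝ) ^ e0) m)) := by
  have hN1 : (1 : ℝ) < N := by exact_mod_cast (by omega : 1 < N)
  rw [tyF, if_neg (not_not.mpr ht), if_pos]
  rw [typ_sq N _ _ ht] at hc₁
  obtain ⟨S, hSP, hSs⟩ := exists_sub _ (idx N (e0 / Q)) c₁ hc₁
  have hb := prod_bounds N (e0 / Q) (by omega) he2 S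
    (fun p hp => (Nat.mem_primeFactors.mp (hSP hp)).1.one_lt.le)
  rw [hSs] at hb
  refine ⟨∏ p ∈ S, p, T1.prod_dvd _ ht S hSP, ?_, ?_⟩
  · refine lt_of_lt_of_le (Real.rpow_lt_rpow_of_exponent_lt hN1 ?_) hb.1
    linarith [hM.1]
  · have h1 : ((∏ p ∈ S, p : ℕ) : ℝ) ≤ (N : ℝ) ^ (1 : ℝ) :=
      hb.2.trans (Real.rpow_le_rpow_of_exponent_le hN1.le (by linarith [hM.2]))
    rw [Real.rpow_one] at h1
    exact_mod_cast h1

end Pool.Agent.Lib.MP391708.QPA.C.T2DM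

namespace Pool.Agent.Lib.MP391708.QPA.C

open Finset
open Pool.Agent.Lib.MP391708.QPA Pool.Agent.Lib.MP391708.QPA.H
open scoped Classical

theorem specT2D : SpecT2D := by
  intro κ e0 η hκ1 hκ2 he0 he1 hη hη1 hκη
  refine ⟨1 + 4 ^ ⌊3 / e0⌋₊ + (1 + 4 ^ ⌊3 / e0⌋₊) * (⌊3 / e0⌋₊).factorial, by positivity, ?_⟩
  intro e he he' Q hQ1 hQe Φ Φ' hΦ hΦ'
  have hQ0 : (0 : ℝ) < Q := by exact_mod_cast hQ1
  have he2 : 0 < e0 / Q := by positivity
  refine ⟨T2.fam Q ⌊3 * Q / e0⌋₊ ⌊3 / e0⌋₊, T2DM.ttD κ (e0 / Q) e Φ Φ', T2DM.cfD (e0 / Q) Φ',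
    ?_, ?_, fun N k => T2DM.abs_cfD_le _ Φ' hΦ' N k, max 10 ⌈(6 : ℝ) ^ (1 / e)⌉₊, ?_⟩
  · intro c hc i hi
    exact (((T2.mem_fam _ _ _ _).mp hc).1 i hi).1
  · intro c hc
    refine (T2DM.abs_ttD_le _ _ _ _ _ hΦ hΦ' _ _ ((T2.mem_fam _ _ _ _).mp hc).2).trans ?_
    have : (0 : ℝ) ≤ (1 + 4 ^ ⌊3 / e0⌋₊) * ((⌊3 / e0⌋₊).factorial : ℝ) := by positivity
    linarith
  intro N hN0 x₀ _ _
  have hN : 10 ≤ N := le_trans (le_max_left _ _) hN0
  have hN10 : (10 : ℝ) ≤ N := by exact_mod_cast hN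
  have hN1 : (1 : ℝ) < N := by linarith
  have hNp : (0 : ℝ) < N := by linarith
  have hNe : 6 ≤ (N : ℝ) ^ e := by
    have h1 : (6 : ℝ) ^ (1 / e) ≤ N := by
      refine (Nat.le_ceil _).trans ?_
      exact_mod_cast le_trans (le_max_right _ _) hN0
    calc (6 : ℝ) = ((6 : ℝ) ^ (1 / e)) ^ e := by
          rw [← Real.rpow_mul (by norm_num), one_div_mul_cancel he.ne', Real.rpow_one]
      _ ≤ (N : ℝ) ^ e := Real.rpow_le_rpow (by positivity) h1 he.le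
  have hR3 : ((⌊3 / e0⌋₊ : ℕ) : ℝ) ≤ 3 / e0 := Nat.floor_le (by positivity)
  have hRe : e0 / Q * (⌊3 / e0⌋₊ : ℝ) ≤ e := by
    calc e0 / Q * (⌊3 / e0⌋₊ : ℝ) ≤ e0 / Q * (3 / e0) := mul_le_mul_of_nonneg_left hR3 he2.le
      _ = 3 / Q := by field_simp
      _ ≤ e := by
          rw [div_le_iff₀ hQ0]
          linarith
  refine ⟨?_, ?_⟩
  · intro m hm1 hm2 hsN
    have hm0 : m ≠ 0 := by
      intro h
      rw [h] at hm1
      have : (0 : ℝ) < (N : ℝ) ^ 2 / 2 := by positivity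
      simp only [Nat.cast_zero] at hm1
      linarith
    have hRHS : ∀ x ∈ ({κ, 1, x₀} : Finset ℝ), (0 : ℝ) ≤
        (if RWin N e0 x (2 * e) m then (1 : ℝ) else 0) := by
      intro x _; split_ifs <;> norm_num
    have hRHS2 : (0 : ℝ) ≤ ∑ x ∈ ({κ, 1, x₀} : Finset ℝ),
        (if RWin N e0 x (2 * e) m then (1 : ℝ) else 0) :=
      Finset.sum_nonneg hRHS
    have hRHS3 : (0 : ℝ) ≤ (if NSq ((N : ℝ) ^ e0) m then (1 : ℝ) else 0) := by
      split_ifs <;> norm_num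
    have hst := T2CM.smp_mul_rgp ((N : ℝ) ^ e0) m hm0
    have hr := T2CM.rough_rgp ((N : ℝ) ^ e0) m
    rw [T2DM.psiD_eq N e0 κ _ m hm0]
    have htm : T2CM.rgp ((N : ℝ) ^ e0) m ∣ m := Dvd.intro_left _ hst
    have ht0 : T2CM.rgp ((N : ℝ) ^ e0) m ≠ 0 := fun h0 => hm0 (by rw [← hst, h0, mul_zero])
    have ht2 : ((T2CM.rgp ((N : ℝ) ^ e0) m : ℕ) : ℝ) ≤ 5 * (N : ℝ) ^ 2 := by
      refine le_trans ?_ hm2
      exact_mod_cast Nat.le_of_dvd (Nat.pos_of_ne_zero hm0) htm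
    have ht1 : (N : ℝ) ^ (2 - η) / 2 ≤ ((T2CM.rgp ((N : ℝ) ^ e0) m : ℕ) : ℝ) := by
      have h1 : (m : ℝ) = ((smp ((N : ℝ) ^ e0) m : ℕ) : ℝ) * ((T2CM.rgp ((N : ℝ) ^ e0) m : ℕ) : ℝ) := by
        exact_mod_cast hst.symm
      have ht0' : (0 : ℝ) < ((T2CM.rgp ((N : ℝ) ^ e0) m : ℕ) : ℝ) := by
        exact_mod_cast Nat.pos_of_ne_zero ht0
      have h2 : (N : ℝ) ^ 2 / 2 ≤ (N : ℝ) ^ η * ((T2CM.rgp ((N : ℝ) ^ e0) m : ℕ) : ℝ) := by
        refine hm1.trans ?_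
        rw [h1]
        exact mul_le_mul_of_nonneg_right hsN ht0'.le
      have h3 : (N : ℝ) ^ 2 = (N : ℝ) ^ η * (N : ℝ) ^ (2 - η) := by
        rw [← Real.rpow_add hNp, show η + (2 - η) = ((2 : ℕ) : ℝ) by push_cast; ring,
          Real.rpow_natCast]
      have h4 : 0 < (N : ℝ) ^ η := by positivity
      have h5 : (N : ℝ) ^ η * ((N : ℝ) ^ (2 - η) / 2)
          ≤ (N : ℝ) ^ η * ((T2CM.rgp ((N : ℝ) ^ e0) m : ℕ) : ℝ) := by
        rw [← mul_div_assoc, ← h3]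
        exact h2
      exact le_of_mul_le_mul_left h5 h4
    have hlen := T2.length_le N e0 he0 hN _ ht0 ht2 hr
    have hgen := T2DM.gen_bound N Q e0 κ e hN he0 hQ1 Φ Φ' hΦ hΦ' m _ hlen
      ((T2.fam Q ⌊3 * Q / e0⌋₊ ⌊3 / e0⌋₊).filter (fun c => GoodD κ x₀ (e0 / Q) e c))
      (fun c hc => ((T2.mem_fam _ _ _ _).mp (mem_filter.mp hc).1).2)
    have hmemT := fun hg => mem_filter.mpr (⟨T2.typ_mem N Q e0 hN he0 hQ1 _ ht0 ht2 hr, hg⟩ :
      T2.typ N (e0 / Q) (T2CM.rgp ((N : ℝ) ^ e0) m) ∈ T2.fam Q ⌊3 * Q / e0⌋₊ ⌊3 / e0⌋₊ ∧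
      GoodD κ x₀ (e0 / Q) e (T2.typ N (e0 / Q) (T2CM.rgp ((N : ℝ) ^ e0) m)))
    have hmidT := T2DM.tyF_mid N Q e0 κ e hN he he2 Φ Φ' m
    have hty : tyF N Q e0 κ Φ Φ' m = if ¬ Squarefree (T2CM.rgp ((N : ℝ) ^ e0) m) then 0
      else if ∃ k : ℕ, k ∣ T2CM.rgp ((N : ℝ) ^ e0) m ∧ (N : ℝ) ^ κ < k ∧ k ≤ N then
        Φ (T2.typ N (e0 / Q) (T2CM.rgp ((N : ℝ) ^ e0) m))
      else Φ' (T2.typ N (e0 / Q) (T2CM.rgp ((N : ℝ) ^ e0) m / lpf (T2CM.rgp ((N : ℝ) ^ e0) m))) := rfl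
    generalize hF : tyF N Q e0 κ Φ Φ' m = f at *
    generalize ht : T2CM.rgp ((N : ℝ) ^ e0) m = t at *
    by_cases hsq : Squarefree t
    · by_cases hg : GoodD κ x₀ (e0 / Q) e (T2.typ N (e0 / Q) t)
      · -- good type
        have hgC := T2DM.goodC_of_goodD _ _ _ _ _ hg
        have hmem := hmemT hg
        have hzero : f - psiD N e0 κ (T2DM.cfD (e0 / Q) Φ' N) t
            - ∑ c ∈ (T2.fam Q ⌊3 * Q / e0⌋₊ ⌊3 / e0⌋₊).filter (fun c => GoodD κ x₀ (e0 / Q) e c),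
              T2DM.ttD κ (e0 / Q) e Φ Φ' c * FF N (e0 / Q) c t = 0 := by
          rw [T2.sum_types N Q e0 hN he2, if_pos hmem, T2DM.psiD_cfD N e0 κ _ Φ' t,
            T2.FF_typ N _ (by omega) he2 _ t hsq rfl, T2DM.ttD]
          split_ifs with hmid
          · obtain ⟨c₁, c₂, hc, hc2, hM⟩ := hmid
            rw [hmidT hsq c₁ (by rw [← hc]; exact Multiset.le_add_right _ _) hM,
              T2DM.psiD_typ N e0 κ e (e0 / Q) hN (by linarith) he he2 Φ' t hsq hr hgC,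
              div_mul_cancel₀ _ (lt_of_lt_of_le one_pos (T2.vf_pos _)).ne', sub_self]
          · rw [zero_mul, sub_zero]
            have hno : ¬ ∃ c₁ ≤ T2.typ N (e0 / Q) t, MidK κ (e0 / Q) e c₁ := by
              rintro ⟨c₁, hc1, hM⟩
              obtain ⟨c₂, hc2⟩ := Multiset.le_iff_exists_add.mp hc1
              rcases eq_or_ne c₂ 0 with h0 | h0
              · rw [h0, add_zero] at hc2
                rw [← hc2] at hM
                have hb := T2EM.div_sub N (e0 / Q) (by omega) he2 t t hsq (dvd_refl t)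
                rw [← T2.typ_sq N (e0 / Q) t hsq] at hb
                have h1 : (t : ℝ) ≤ (N : ℝ) ^ (1 : ℝ) :=
                  hb.2.2.trans (Real.rpow_le_rpow_of_exponent_le hN1.le (by linarith [hM.2]))
                rw [Real.rpow_one] at h1
                have h2 : (N : ℝ) ^ (1 + e) ≤ (N : ℝ) ^ (2 - η) :=
                  Real.rpow_le_rpow_of_exponent_le hN1.le (by linarith)
                rw [Real.rpow_add hNp, Real.rpow_one] at h2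
                nlinarith
              · exact hmid ⟨c₁, c₂, hc2.symm, h0, hM⟩
            obtain ⟨D, p, hp, htDp, hDL, hLp⟩ := T2DM.no_mid_struct N κ η e (e0 / Q) hN hκ1 hκ2 he he'
              hκη hNe he2 t hsq ht1 ht2 hgC hno
            have hpY : (N : ℝ) ^ κ < p :=
              lt_of_le_of_lt (Real.rpow_le_rpow_of_exponent_le hN1.le (by linarith)) hLp
            have hDY : (D : ℝ) ≤ (N : ℝ) ^ κ :=
              hDL.le.trans (Real.rpow_le_rpow_of_exponent_le hN1.le (by linarith))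
            have hDp : D < p := by
              have : (D : ℝ) < p := lt_of_le_of_lt hDY hpY
              exact_mod_cast this
            have hD0 : D ≠ 0 := fun h0 => ht0 (by rw [htDp, h0, zero_mul])
            have hnk : ¬ ∃ k : ℕ, k ∣ t ∧ (N : ℝ) ^ κ < k ∧ k ≤ N := by
              rintro ⟨k, hk, h1, h2⟩
              rcases T2CM.div_dich N κ e (e0 / Q) hN (by linarith) he2 t hsq hgC hno k hk with h3 | h3
              · have h4 : (N : ℝ) ^ (κ - e) ≤ (N : ℝ) ^ κ :=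
                  Real.rpow_le_rpow_of_exponent_le hN1.le (by linarith)
                linarith
              · have h4 : (N : ℝ) ^ (1 : ℝ) ≤ (N : ℝ) ^ (1 + e) :=
                  Real.rpow_le_rpow_of_exponent_le hN1.le (by linarith)
                rw [Real.rpow_one] at h4
                have h5 : (k : ℝ) ≤ N := by exact_mod_cast h2
                linarith
            rw [hty, if_neg (not_not.mpr hsq), if_neg hnk]
            subst htDp
            rw [T2DM.lpf_mul D p hp hD0 hDp, Nat.mul_div_cancel _ hp.pos,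
              T2DM.psiD_val N e0 κ _ D p hp hsq hr hDY hpY,
              T2DM.cD_sum N (e0 / Q) Φ' D (Nat.pos_of_ne_zero hD0), sub_self]
        rw [hzero, abs_zero]
        exact mul_nonneg (by positivity) (by linarith)
      · -- bad type
        obtain ⟨x, hx, hW⟩ := T2DM.bad_type N e0 κ x₀ e hN (e0 / Q) he2 _ hRe t hsq hr hlen hg
        refine hgen.trans (le_mul_of_one_le_right (by positivity) ?_)
        have h1 := Finset.single_le_sum hRHS hx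
        rw [if_pos (T2CM.RWin_mono N e0 x (2 * e) t m htm hW)] at h1
        linarith
    · -- not squarefree
      have hns : NSq ((N : ℝ) ^ e0) m := by
        rw [Nat.squarefree_iff_prime_squarefree] at hsq
        push Not at hsq
        obtain ⟨p, hp, hpm⟩ := hsq
        exact ⟨p, hp, hr p hp ((Dvd.intro _ rfl).trans hpm), by rw [pow_two]; exact hpm.trans htm⟩
      refine hgen.trans (le_mul_of_one_le_right (by positivity) ?_)
      rw [if_pos hns]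
      linarith
  · intro c _ _ hc
    by_contra hno
    apply hc
    rw [T2DM.ttD, if_neg]
    exact hno

end Pool.Agent.Lib.MP391708.QPA.C
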