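import Pool.Agent.Lib.MP_391708_nt.QPA.C.SpecD
import Pool.Agent.Lib.MP_391708_nt.QPA.C.TICU

/-!
# Module TICG: Type I for the Liouville function, general coefficients
-/

set_option autoImplicit false

namespace Pool.Agent.Lib.MP391708.QPA.C

open Finset Filter Topology
open Pool.Agent.Lib.MP391708.QPA
open Pool.Agent.Lib.MP391708.QPA.H
open scoped Classical

theorem specTICG (hFLC : SpecFLC) (hPROD : SpecPRODK) (hGMAX : SpecGMAX) (hWM : SpecWMER)
    (hMER : SpecMER) (hS : SpecRHOS) : SpecTICG := by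
  intro θ κ η ε hθ _ hκ2 hη hη20 hε
  obtain ⟨e1, he1, h⟩ := specTICU hFLC hPROD hGMAX hWM hMER hS θ κ η ε hθ hκ2.le hη hη20 hε
  refine ⟨e1, he1, fun e0 he0 he => ?_⟩
  obtain ⟨N₀, h⟩ := h e0 he0 he
  refine ⟨N₀, fun N A hN hA cf hcf => ?_⟩
  obtain ⟨E, hE, h⟩ := h N A hN hA
  refine le_trans ?_ hE
  apply Nat.cast_le.2
  apply Finset.card_le_card
  intro a ha
  rw [Finset.mem_filter] at ha
  by_contra hcon
  have h1 := h a ha.1 hcon cf hcf
  have h2 : (fun m => lamC N e0 η m * TICUM.psiG N e0 κ cf m) = fun m => lamC N e0 η m * psiD N e0 κ cf m := rfl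
  rw [h2] at h1
  linarith [ha.2]

end Pool.Agent.Lib.MP391708.QPA.C
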