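import Pool.Agent.Lib.MP_391708_nt.QPA.C.TIDa

/-!
# Module TID: Type I without parity
-/

set_option autoImplicit false

namespace Pool.Agent.Lib.MP391708.QPA.C.TIDM

open Finset Filter Topology
open Pool.Agent.Lib.MP391708.QPA
open Pool.Agent.Lib.MP391708.QPA.H
open scoped Classical
open TICM

lemma cnt_diff (N : ℕ) (a : ℤ) (f g E : ℕ → ℝ) (h : ∀ m, |f m - g m| ≤ E m) :
    |cnt N a f - cnt N a g| ≤ cnt N a E := by
  unfold cnt
  rw [← sum_sub_distrib]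
  exact (abs_sum_le_sum_abs _ _).trans (sum_le_sum fun n _ => h _)

lemma model_diff (N : ℕ) (f g E : ℕ → ℝ) (h : ∀ m, |f m - g m| ≤ E m) :
    |model N f - model N g| ≤ model N E := by
  unfold model
  rw [← sum_sub_distrib]
  refine (abs_sum_le_sum_abs _ _).trans (sum_le_sum fun m _ => ?_)
  rw [← sub_div, abs_div, abs_of_nonneg (show (0 : ℝ) ≤ 2 * √(m : ℝ) by positivity)]
  exact div_le_div_of_nonneg_right (h m) (by positivity)

/-- the growth conditions -/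
lemma growth (N A : ℕ) (θ κ : ℝ) (hN : 8 ≤ N) (hθ : 5 / 6 < θ) (hκ : κ < 2 / 3) (hadm : Adm θ N A) :
    (N : ℝ) ^ κ * ((N : ℝ) ^ (1 / 8 : ℝ) + 1) ≤ ((2 * A + 1 : ℕ) : ℝ) ∧ 1 ≤ A ∧
    ((4 * N ^ 2 + (2 * A + 1) : ℕ) : ℝ) ≤ (N : ℝ) ^ 3 ∧
    (N : ℝ) ^ κ * ((N : ℝ) ^ (1 / 8 : ℝ) + 1) ≤ ((3 * N ^ 2 : ℕ) : ℝ) ∧
    ((N ^ 2 + 3 * N ^ 2 : ℕ) : ℝ) ≤ (N : ℝ) ^ 3 := by
  have hN8 : (8 : ℝ) ≤ N := by exact_mod_cast hN
  have hN1 : (1 : ℝ) ≤ N := by linarith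
  have hN0 : (0 : ℝ) < N := by linarith
  have h1 : (1 : ℝ) ≤ (N : ℝ) ^ (1 / 8 : ℝ) := Real.one_le_rpow hN1 (by norm_num)
  have h2 : (N : ℝ) ^ κ * ((N : ℝ) ^ (1 / 8 : ℝ) + 1) ≤ 2 * (N : ℝ) ^ (5 / 6 : ℝ) := by
    calc (N : ℝ) ^ κ * ((N : ℝ) ^ (1 / 8 : ℝ) + 1) ≤ (N : ℝ) ^ κ * (2 * (N : ℝ) ^ (1 / 8 : ℝ)) :=
          mul_le_mul_of_nonneg_left (by linarith) (by positivity)
      _ = 2 * (N : ℝ) ^ (κ + 1 / 8) := by
          rw [Real.rpow_add hN0]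
          ring
      _ ≤ 2 * (N : ℝ) ^ (5 / 6 : ℝ) :=
          mul_le_mul_of_nonneg_left (Real.rpow_le_rpow_of_exponent_le hN1 (by linarith)) (by norm_num)
  have h3 : (N : ℝ) ^ (5 / 6 : ℝ) ≤ A :=
    (Real.rpow_le_rpow_of_exponent_le hN1 hθ.le).trans hadm.1
  have h4 : (1 : ℝ) ≤ A := (Real.one_le_rpow hN1 (by norm_num)).trans h3
  have h5 : (A : ℝ) ≤ (N : ℝ) ^ 2 := by
    have h6 : Real.log N ≤ N := by
      have := Real.log_le_sub_one_of_pos hN0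
      linarith
    have := hadm.2
    nlinarith
  have h7 : (8 : ℝ) * (N : ℝ) ^ 2 ≤ (N : ℝ) ^ 3 := by
    rw [pow_succ (N : ℝ) 2, mul_comm]
    exact mul_le_mul_of_nonneg_left hN8 (by positivity)
  have h8 : (1 : ℝ) ≤ (N : ℝ) ^ 2 := one_le_pow₀ hN1
  have h9 : (N : ℝ) ^ (5 / 6 : ℝ) ≤ (N : ℝ) ^ 2 := by
    rw [← Real.rpow_natCast]
    exact Real.rpow_le_rpow_of_exponent_le hN1 (by norm_num)
  refine ⟨?_, by exact_mod_cast h4, ?_, ?_, ?_⟩
  · push_cast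
    linarith
  · push_cast
    linarith
  · push_cast
    linarith
  · push_cast
    linarith

end Pool.Agent.Lib.MP391708.QPA.C.TIDM

namespace Pool.Agent.Lib.MP391708.QPA.C

open Finset Filter Topology
open Pool.Agent.Lib.MP391708.QPA
open Pool.Agent.Lib.MP391708.QPA.H
open scoped Classical
open TICM TIDM

theorem specTID (hSMK : SpecSMK) (hMOBD : SpecMOBD) (hC : SpecRHOC) (hS : SpecRHOS)
    (hMER : SpecMER) : SpecTID := by
  obtain ⟨C, hC0, hSMK⟩ := hSMK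
  intro θ κ η ε hθ hκ1 hκ2 hη hη20 hε
  set Kη : ℝ := 115200000000000 + 3840 / η ^ 5 with hKη
  have hKη0 : 0 < Kη := by positivity
  set ε1 : ℝ := min ε 1 with hε1
  have hε10 : 0 < ε1 := by positivity
  have hε11 : ε1 ≤ 1 := min_le_right _ _
  have hε1ε : ε1 ≤ ε := min_le_left _ _
  refine ⟨min (1 / 1600) (ε1 ^ 2 / 8 / (432 * (C * Kη))), by positivity, ?_⟩
  intro e0 he0 he1
  have he0a : e0 ≤ 1 / 1600 := le_trans he1 (min_le_left _ _)
  have he0b : e0 ≤ ε1 ^ 2 / 8 / (432 * (C * Kη)) := le_trans he1 (min_le_right _ _)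
  set b : ℕ := ⌊1 / (200 * e0)⌋₊ with hb
  have hbe : e0 * (8 * b + 16) ≤ 1 / 20 := by
    have h1 : (b : ℝ) ≤ 1 / (200 * e0) := Nat.floor_le (by positivity)
    have h2 : e0 * b ≤ 1 / 200 := by
      calc e0 * b ≤ e0 * (1 / (200 * e0)) := mul_le_mul_of_nonneg_left h1 he0.le
        _ = 1 / 200 := by field_simp
    linarith
  set B : ℝ := C * (Real.exp (-(b : ℝ)) + Real.exp (-(η / (2 * e0)))) with hB
  have hB0 : 0 ≤ B := by positivity
  set S : ℝ := (6 / e0) ^ 2 with hSdef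
  have hS0 : 0 ≤ S := by positivity
  have hBS : 12 * B * S ≤ ε1 ^ 2 / 8 := by
    have h1 := ex_small2 e0 η he0 hη
    rw [← hb, ← hKη] at h1
    have h2 : e0 ^ 3 ≤ e0 := by
      have h3 : e0 ^ 2 ≤ 1 := by nlinarith
      calc e0 ^ 3 = e0 ^ 2 * e0 := by ring
        _ ≤ 1 * e0 := mul_le_mul_of_nonneg_right h3 he0.le
        _ = e0 := one_mul _
    calc 12 * B * S = 12 * C * S * (Real.exp (-(b : ℝ)) + Real.exp (-(η / (2 * e0)))) := by
          rw [hB]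
          ring
      _ ≤ 12 * C * S * (Kη * e0 ^ 5) := mul_le_mul_of_nonneg_left h1 (by positivity)
      _ = 432 * (C * Kη) * e0 ^ 3 := by
          rw [hSdef]
          field_simp
          norm_num
      _ ≤ 432 * (C * Kη) * e0 := mul_le_mul_of_nonneg_left h2 (by positivity)
      _ ≤ ε1 ^ 2 / 8 := by
          rw [le_div_iff₀ (by positivity)] at he0b
          linarith
  obtain ⟨N₁, hSMK⟩ := hSMK b e0 η he0 hbe hη hη20
  obtain ⟨N₂, hMOBD⟩ := hMOBD θ κ e0 (ε1 / 4) hθ (by linarith) hκ2 he0 (by linarith) (by positivity)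
  obtain ⟨N₃, hMER⟩ := hMER (e0 / 2) 1 1 (by positivity) (by linarith) one_pos
  obtain ⟨N₄, hN₄, hlog⟩ := FLA.log_le ((2 : ℝ) ^ (1 / e0) * ((2 : ℝ) ^ (1 / e0) + 1) * (8 / ε1)) κ 1 (by linarith)
  refine ⟨N₁ + N₂ + N₃ + N₄ + 8, fun N A hN hadm cf hcf => ?_⟩
  have hN8 : 8 ≤ N := by omega
  have hN2 : 2 ≤ N := by omega
  have hN5 : 5 ≤ N := by omega
  have hN1n : 1 ≤ N := by omega
  have hN0 : (0 : ℝ) < N := by exact_mod_cast (by omega : 0 < N)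
  have hN1 : (1 : ℝ) ≤ N := by exact_mod_cast (by omega : 1 ≤ N)
  have hlogN : 0 ≤ Real.log N := Real.log_nonneg hN1
  have hSMK := hSMK N (by omega)
  have hMOBD := hMOBD N A (by omega) hadm cf hcf
  have hMER := hMER N (by omega)
  have hlog := hlog N (by omega)
  obtain ⟨g1, g2, g3, g4, g5⟩ := growth N A θ κ hN8 hθ hκ2 hadm
  have hmer : ∑ p ∈ PW N (e0 / 2) 1, 1 / (p : ℝ) ≤ Real.log (1 / (e0 / 2)) + 1 := by
    have := (abs_le.1 hMER).2
    linarith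
  have hSK := sum_K2 N e0 κ hN2 he0 (by linarith) hmer
  have hA0 : (0 : ℝ) ≤ A := Nat.cast_nonneg _
  have hcE := cnt_EE N A e0 η κ B S hN1n hη.le hB0 hS0 hSMK hSK g1 g2 g3
  have hmE := model_EE N e0 η κ B S hN1n hB0 hSMK hSK g4 g5
  -- the small terms
  have hsm : (2 : ℝ) ^ (1 / e0) * ((2 : ℝ) ^ (1 / e0) * (N : ℝ) ^ κ) + (2 : ℝ) ^ (1 / e0) * (N : ℝ) ^ κ
      ≤ ε1 / 8 * N := by
    have h1 : (2 : ℝ) ^ (1 / e0) * ((2 : ℝ) ^ (1 / e0) + 1) * (8 / ε1) * (N : ℝ) ^ κ ≤ N := by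
      refine le_trans ?_ (hlog.trans (le_of_eq (Real.rpow_one _)))
      apply mul_le_mul_of_nonneg_right _ (by positivity)
      have h2 : 0 ≤ (2 : ℝ) ^ (1 / e0) * ((2 : ℝ) ^ (1 / e0) + 1) * (8 / ε1) := by positivity
      nlinarith
    calc (2 : ℝ) ^ (1 / e0) * ((2 : ℝ) ^ (1 / e0) * (N : ℝ) ^ κ) + (2 : ℝ) ^ (1 / e0) * (N : ℝ) ^ κ
        = ε1 / 8 * ((2 : ℝ) ^ (1 / e0) * ((2 : ℝ) ^ (1 / e0) + 1) * (8 / ε1) * (N : ℝ) ^ κ) := by
          field_simp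
      _ ≤ ε1 / 8 * N := mul_le_mul_of_nonneg_left h1 (by positivity)
  -- the exceptional sets
  set E1 := (IA A).filter (fun a => ¬ |∑ k ∈ (Icc 1 ⌊(N : ℝ) ^ κ⌋₊).filter
        (fun k => Rough ((N : ℝ) ^ e0) k ∧ Squarefree k), cf k * ((rho a k : ℝ) - 1) / k| ≤ ε1 / 4) with hE1
  set E2 := (IA A).filter (fun a => ε1 / 4 * N < cnt N a (EE N e0 η κ)) with hE2
  have hc2 : (E2.card : ℝ) ≤ ε1 / 2 * A := by
    refine (TI.markov (IA A) (fun a => cnt N a (EE N e0 η κ)) (ε1 / 4 * N) _ (by positivity)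
      (fun a _ => sum_nonneg fun n _ => EE_nonneg N e0 η κ _) hcE).trans ?_
    rw [div_le_iff₀ (by positivity)]
    calc 12 * B * S * A * N ≤ ε1 ^ 2 / 8 * A * N := by gcongr
      _ = ε1 / 2 * A * (ε1 / 4 * N) := by ring
  have hmain : (IA A).filter (fun a => ε * N <
      |cnt N a (fun m => ismC N e0 η m * psiD N e0 κ cf m)
        - model N (fun m => ismC N e0 η m * psiD N e0 κ cf m)|) ⊆ E1 ∪ E2 := by
    intro a ha
    rw [Finset.mem_filter] at ha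
    obtain ⟨haI, ha⟩ := ha
    by_contra hcon
    simp only [Finset.mem_union, not_or, hE1, hE2, Finset.mem_filter, not_and, not_not,
      not_lt] at hcon
    obtain ⟨hc1, hc2⟩ := hcon
    have hM := hc1 haI
    have hE := hc2 haI
    refine absurd ha (not_lt.2 ?_)
    have hvb := fun n hn => (val_bounds N A hN5 hadm.2 a haI n hn).1
    have m1 := cnt_diff N a _ _ _ (diff_le N e0 η κ cf hcf)
    have m2 := model_diff N _ _ _ (diff_le N e0 η κ cf hcf)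
    have m3 := cnt_psiD hC hS N a e0 κ hN2 he0 (by linarith) cf hcf hvb
    have m4 := model_psiD N e0 κ hN2 he0 (by linarith) cf hcf
    have m5 : |N * (∑ k ∈ KC N e0 κ, cf k * (rho a k : ℝ) / k) - N * ∑ k ∈ KC N e0 κ, cf k / k|
        ≤ ε1 / 4 * N := by
      have h1 : N * (∑ k ∈ KC N e0 κ, cf k * (rho a k : ℝ) / k) - N * ∑ k ∈ KC N e0 κ, cf k / k
          = N * ∑ k ∈ KC N e0 κ, cf k * ((rho a k : ℝ) - 1) / k := by
        rw [← mul_sub, ← sum_sub_distrib]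
        congr 1
        refine sum_congr rfl fun k _ => ?_
        ring
      rw [h1, abs_mul, abs_of_pos hN0, mul_comm]
      exact mul_le_mul_of_nonneg_right hM hN0.le
    have hmE' : model N (EE N e0 η κ) ≤ ε1 / 8 * N := by
      refine hmE.trans ?_
      apply mul_le_mul_of_nonneg_right _ hN0.le
      have h1 : ε1 ^ 2 ≤ ε1 := by
        rw [sq]
        exact mul_le_of_le_one_left hε10.le hε11
      have h2 : 0 ≤ B * S := mul_nonneg hB0 hS0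
      linarith
    have hεN : ε1 * N ≤ ε * N := mul_le_mul_of_nonneg_right hε1ε hN0.le
    have hεN0 : 0 ≤ ε1 * N := by positivity
    refine le_trans ?_ hεN
    obtain ⟨m1a, m1b⟩ := abs_le.1 m1
    obtain ⟨m2a, m2b⟩ := abs_le.1 m2
    obtain ⟨m3a, m3b⟩ := abs_le.1 m3
    obtain ⟨m4a, m4b⟩ := abs_le.1 m4
    obtain ⟨m5a, m5b⟩ := abs_le.1 m5
    rw [abs_le]
    constructor <;> linarith
  have hfin : ((((IA A).filter (fun a => ε * N <
      |cnt N a (fun m => ismC N e0 η m * psiD N e0 κ cf m)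
        - model N (fun m => ismC N e0 η m * psiD N e0 κ cf m)|)).card : ℕ) : ℝ) ≤ E1.card + E2.card := by
    have h1 := Finset.card_le_card hmain
    have h2 := Finset.card_union_le E1 E2
    exact_mod_cast h1.trans h2
  refine hfin.trans ?_
  have h1 : ε1 * A ≤ ε * A := mul_le_mul_of_nonneg_right hε1ε hA0
  have h2 : 0 ≤ ε1 * A := by positivity
  linarith

end Pool.Agent.Lib.MP391708.QPA.C
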