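import Pool.Agent.Lib.MP_391708_nt.QPA.C.SpecD
import Pool.Agent.Lib.MP_391708_nt.QPA.C.TIIC

/-!
# QPA/C, module TIID: the Type II sums with main term, from the blocks
-/

set_option autoImplicit false

namespace Pool.Agent.Lib.MP391708.QPA.C

open Finset Filter Topology
open Pool.Agent.Lib.MP391708.QPA
open Pool.Agent.Lib.MP391708.QPA.H
open scoped Classical

namespace TIIDM

open BasM BLK2 TII TIICM

lemma ism_nonneg (z S : ℝ) (s : ℕ) : 0 ≤ ism z S s := by
  unfold ism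
  split_ifs <;> norm_num

lemma ism_le (z S : ℝ) (s : ℕ) : ism z S s ≤ 1 := by
  unfold ism
  split_ifs <;> norm_num

/-- the convolution with `ism` is bounded -/
lemma conv_le (hFFB : SpecFFB) {e0 : ℝ} (he0 : 0 < e0) {Q : ℕ} (hQ : 1 ≤ Q) {c : Multiset ℕ}
    (hc : ∀ i ∈ c, Q ≤ i) {N : ℕ} (hN : 2 ≤ N) (S : ℝ) (m : ℕ) :
    conv (fun m => FF N (e0 / Q) c m) (ism ((N : ℝ) ^ e0) S) m ≤
      ((Multiset.card c).factorial : ℝ) := by
  have hterm : ∀ k, FF N (e0 / Q) c k * ism ((N : ℝ) ^ e0) S (m / k) ≤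
      ((Multiset.card c).factorial : ℝ) := by
    intro k
    obtain ⟨h1, h2⟩ := FF_facts hFFB he0 hQ hc hN k
    have h3 : rInd ((N : ℝ) ^ e0) k ≤ 1 := by
      unfold rInd
      split_ifs <;> norm_num
    have h4 : (0 : ℝ) ≤ ((Multiset.card c).factorial : ℝ) := by positivity
    calc FF N (e0 / Q) c k * ism ((N : ℝ) ^ e0) S (m / k)
        ≤ ((Multiset.card c).factorial : ℝ) * 1 :=
          mul_le_mul (h2.trans (by nlinarith)) (ism_le _ _ _) (ism_nonneg _ _ _) h4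
      _ = _ := mul_one _
  unfold conv
  by_cases hex : ∃ k ∈ m.divisors, FF N (e0 / Q) c k * ism ((N : ℝ) ^ e0) S (m / k) ≠ 0
  · obtain ⟨k, hk, hk0⟩ := hex
    rw [sum_eq_single_of_mem k hk]
    · exact hterm k
    · intro k' hk' hne
      by_contra h0
      apply hne
      have hm : m ≠ 0 := (Nat.mem_divisors.1 hk).2
      have nz : ∀ j, FF N (e0 / Q) c j * ism ((N : ℝ) ^ e0) S (m / j) ≠ 0 →
          Rough ((N : ℝ) ^ e0) j ∧ Smooth ((N : ℝ) ^ e0) (m / j) := by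
        intro j hj
        obtain ⟨h1, h2⟩ := FF_facts hFFB he0 hQ hc hN j
        constructor
        · by_contra hr
          have : rInd ((N : ℝ) ^ e0) j = 0 := by
            unfold rInd
            rw [if_neg hr]
          rw [this, mul_zero] at h2
          exact hj (by rw [le_antisymm h2 h1, zero_mul])
        · by_contra hs
          apply hj
          unfold ism
          rw [if_neg (fun h => hs h.2.2), mul_zero]
      exact BLKCM.rough_unique hm (Nat.mem_divisors.1 hk').1 (Nat.mem_divisors.1 hk).1 (nz k' h0).1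
        (nz k hk0).1 (nz k' h0).2 (nz k hk0).2
  · push Not at hex
    rw [sum_eq_zero hex]
    positivity

lemma f2_nonneg {N : ℕ} {F : ℕ → ℝ} (hF : ∀ u, 0 ≤ F u) (u : ℕ) : 0 ≤ f2 N F u := by
  unfold f2
  split_ifs
  · exact hF u
  · exact le_rfl

lemma f2_le {N : ℕ} {F : ℕ → ℝ} (hF : ∀ u, 0 ≤ F u) (u : ℕ) : f2 N F u ≤ F u := by
  unfold f2
  split_ifs
  · exact le_rfl
  · exact hF u

/-- the number of integers in a real interval -/
lemma card_Ioc_le {x y : ℝ} (hx : 0 ≤ x) (hxy : x ≤ y) : ((Ioc ⌊x⌋₊ ⌊y⌋₊).card : ℝ) ≤ y - x + 1 := by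
  rw [Nat.card_Ioc, Nat.cast_sub (Nat.floor_le_floor hxy)]
  have h1 : (⌊y⌋₊ : ℝ) ≤ y := Nat.floor_le (hx.trans hxy)
  have h2 : x < ⌊x⌋₊ + 1 := Nat.lt_floor_add_one x
  linarith

end TIIDM

open TIIDM TIICM BasM BLK2 TII in
theorem specTIID (hBLKD : SpecBLKD) (hFFB : SpecFFB) : SpecTIID := by
  intro θ κ e e0 η₀ ϖ Q c₁ c₂ hθ hκ hθκ he he0 he1 hη₀ hη₀4 hϖ hQ hc₁ hc₂ hc0 hmid
  have hQ0 : (0 : ℝ) < Q := by exact_mod_cast hQ
  have hc12 : ∀ i ∈ c₁ + c₂, Q ≤ i := by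
    intro i hi
    rcases Multiset.mem_add.1 hi with h1 | h1
    · exact hc₁ i h1
    · exact hc₂ i h1
  set F : ℝ := ((Multiset.card (c₁ + c₂)).factorial : ℝ) with hF
  have hF0 : 0 < F := by positivity
  set η : ℝ := min (1 / 4) (ϖ / (120 * F)) with hηd
  have hη : 0 < η := lt_min (by norm_num) (by positivity)
  have hη4 : η ≤ 1 / 4 := min_le_left _ _
  have hη1 : η * (120 * F) ≤ ϖ := by
    rw [← le_div_iff₀ (by positivity)]
    exact min_le_right _ _
  have hq : 1 < 1 + η := by linarith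
  have hlq : 0 < Real.log (1 + η) := Real.log_pos hq
  obtain ⟨D, hD⟩ := pow_unbounded_of_one_lt (4 : ℝ) hq
  set CN : ℝ := ((D : ℝ) + 1) * (1 / Real.log (1 + η) + 1) with hCN
  have hCN0 : 0 < CN := by positivity
  obtain ⟨N₁, hN₁⟩ := hBLKD θ κ e e0 η η₀ (ϖ / (4 * CN)) Q c₁ c₂ hθ hκ hθκ he he0 he1 hη₀ hη₀4 hη hη4
    (by positivity) hQ hc₁ hc₂ hc0
  have hev : ∀ᶠ N : ℕ in atTop, ∀ A : ℕ, Adm θ N A → NearA N A (e0 / Q) e c₁ →
      ∑ a ∈ IA A, |cnt N a (conv (fun m => FF N (e0 / Q) (c₁ + c₂) m)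
          (ism ((N : ℝ) ^ e0) ((N : ℝ) ^ η₀)))
        - model N (conv (fun m => FF N (e0 / Q) (c₁ + c₂) m)
          (ism ((N : ℝ) ^ e0) ((N : ℝ) ^ η₀)))| ≤ ϖ * A * N := by
    filter_upwards [eventually_ge_atTop 3, eventually_ge_atTop N₁, ev_log 1,
      ev_const (show (0 : ℝ) < θ by linarith) 1,
      ev_logpow (show (0 : ℝ) < 1 by norm_num) (8 / η),
      ev_const (show (0 : ℝ) < 1 by norm_num) (2 / η)] with N hN3 hNN₁ hl1 hNA hlp hNη A hA hnear
    have hN1 : (1 : ℝ) < N := by exact_mod_cast (by omega : 1 < N)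
    have hN3' : (3 : ℝ) ≤ N := by exact_mod_cast hN3
    have hN0 : (0 : ℝ) < N := by linarith
    have hlog : 0 < Real.log N := by linarith
    rw [Real.rpow_one] at hlp hNη
    have hηN : 2 ≤ η * N := by
      rw [div_le_iff₀ hη] at hNη
      linarith
    have hA0 : (0 : ℝ) ≤ A := Nat.cast_nonneg A
    have hA1 : (1 : ℝ) ≤ A := hNA.trans hA.1
    have h8A : 8 * (A : ℝ) ≤ η * (N : ℝ) ^ 2 := by
      have h1 : 8 / η * Real.log N = (8 * Real.log N) / η := by ring
      rw [h1, div_le_iff₀ hη] at hlp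
      nlinarith [hA.2]
    -- the functions
    set l : ℕ → ℝ := ism ((N : ℝ) ^ e0) ((N : ℝ) ^ η₀) with hl
    set g : ℕ → ℝ := fun m => FF N (e0 / Q) c₁ m with hg
    set g₂ : ℕ → ℝ := fun m => FF N (e0 / Q) c₂ m with hg₂
    set f : ℕ → ℝ := f2 N (conv g₂ l) with hf
    set h : ℕ → ℝ := conv (fun m => FF N (e0 / Q) (c₁ + c₂) m) l with hh
    have hl0 : ∀ s, 0 ≤ l s := fun s => ism_nonneg _ _ s
    have hFg := fun m => hFFB N (e0 / Q) c₁ m (by omega) (by positivity)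
    have hg0 : ∀ m, 0 ≤ g m := fun m => (hFg m).1
    have hg₂0 : ∀ m, 0 ≤ g₂ m := fun m => (hFFB N (e0 / Q) c₂ m (by omega) (by positivity)).1
    have hc20 : ∀ u, 0 ≤ conv g₂ l u := fun u => conv_nonneg hg₂0 hl0 u
    have hf0 : ∀ u, 0 ≤ f u := fun u => f2_nonneg hc20 u
    have hκe : (N : ℝ) ^ (1 - e) ≤ N := by
      calc (N : ℝ) ^ (1 - e) ≤ (N : ℝ) ^ (1 : ℝ) := Real.rpow_le_rpow_of_exponent_le hN1.le (by linarith)
        _ = N := Real.rpow_one _
    have hgs : ∀ k, g k ≠ 0 → (N : ℝ) ^ κ < k ∧ (k : ℝ) ≤ (N : ℝ) ^ (1 - e) := by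
      intro k hk
      obtain ⟨_, h1, h2, _⟩ := (hFg k).2.2 hk
      constructor
      · refine lt_of_lt_of_le (Real.rpow_lt_rpow_of_exponent_lt hN1 (by linarith : κ < κ + e)) ?_
        exact (Real.rpow_le_rpow_of_exponent_le hN1.le hmid.1).trans h1
      · exact h2.trans (Real.rpow_le_rpow_of_exponent_le hN1.le hmid.2)
    have hfs : ∀ k, f k ≠ 0 → (1 : ℝ) < k ∧ (k : ℝ) ≤ 5 * (N : ℝ) ^ 2 := by
      intro k hk
      by_contra hc
      apply hk
      rw [hf]
      unfold f2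
      rw [if_neg]
      rintro ⟨c1, c2⟩
      exact hc ⟨by exact_mod_cast c1, c2⟩
    -- the identity for the convolutions
    have hid : ∀ m : ℕ, (N : ℝ) ^ 2 / 2 ≤ m → (m : ℝ) ≤ 5 * (N : ℝ) ^ 2 → h m = conv g f m := by
      intro m h1 h2
      rw [hh, conv_congr_left (fun k => FF_conv N (e0 / Q) c₁ c₂ k) l m, conv_assoc]
      unfold conv
      refine sum_congr rfl fun k hk => ?_
      by_cases hk0 : g k = 0
      · show g k * _ = g k * _
        rw [hk0, zero_mul, zero_mul]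
      · obtain ⟨-, h3⟩ := hgs k hk0
        have hkm := Nat.mul_div_cancel' (Nat.dvd_of_mem_divisors hk)
        have hu1 : 1 < m / k := by
          by_contra hc
          push Not at hc
          have h4 : m ≤ k := by
            calc m = k * (m / k) := hkm.symm
              _ ≤ k * 1 := Nat.mul_le_mul_left _ hc
              _ = k := mul_one _
          have h5 : (m : ℝ) ≤ k := by exact_mod_cast h4
          have h6 : (k : ℝ) ≤ N := h3.trans hκe
          nlinarith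
        have hu2 : ((m / k : ℕ) : ℝ) ≤ 5 * (N : ℝ) ^ 2 := by
          refine le_trans ?_ h2
          exact_mod_cast Nat.div_le_self m k
        have hfe : f (m / k) = conv g₂ l (m / k) := by
          rw [hf]
          unfold f2
          rw [if_pos ⟨hu1, hu2⟩]
        show g k * conv g₂ l (m / k) = g k * f (m / k)
        rw [hfe]
    -- the bound for the convolutions
    have hbd : ∀ m : ℕ, conv g f m ≤ F := by
      intro m
      have h1 : conv g f m ≤ conv g (conv g₂ l) m := conv_mono hg0 (fun u => f2_le hc20 u) m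
      rw [← conv_assoc] at h1
      refine h1.trans ?_
      have h2 := conv_le hFFB he0 hQ hc12 (by omega : 2 ≤ N) ((N : ℝ) ^ η₀) m
      rw [conv_congr_left (fun k => FF_conv N (e0 / Q) c₁ c₂ k)] at h2
      exact h2
    obtain ⟨T, hT⟩ := pow_unbounded_of_one_lt (max (N : ℝ) (5 * (N : ℝ) ^ 2)) hq
    have hT1 : (N : ℝ) ≤ (1 + η) ^ T := (le_max_left _ _).trans hT.le
    have hT2 : 5 * (N : ℝ) ^ 2 ≤ (1 + η) ^ T := (le_max_right _ _).trans hT.le
    have hκ1 : 1 ≤ (N : ℝ) ^ κ := Real.one_le_rpow hN1.le (by linarith)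
    have hκ0 : 0 < (N : ℝ) ^ κ := by linarith
    have hgd : ∀ k, g k = ∑ i ∈ range T, cut ((N : ℝ) ^ κ * (1 + η) ^ i)
        ((1 + η) * ((N : ℝ) ^ κ * (1 + η) ^ i)) g k := fun k => by
      refine cut_tele hκ0 hq T g k fun hk => ?_
      obtain ⟨h1, h2⟩ := hgs k hk
      refine ⟨h1, h2.trans (hκe.trans ?_)⟩
      calc (N : ℝ) = 1 * N := (one_mul _).symm
        _ ≤ (N : ℝ) ^ κ * (1 + η) ^ T := mul_le_mul hκ1 hT1 hN0.le hκ0.le
    have hfd : ∀ k, f k = ∑ i ∈ range T, cut (1 * (1 + η) ^ i) ((1 + η) * (1 * (1 + η) ^ i)) f k :=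
      fun k => by
      refine cut_tele one_pos hq T f k fun hk => ?_
      obtain ⟨h1, h2⟩ := hfs k hk
      exact ⟨h1, by rw [one_mul]; exact h2.trans hT2⟩
    set G : ℕ → ℕ → ℝ := fun i => cut ((N : ℝ) ^ κ * (1 + η) ^ i)
        ((1 + η) * ((N : ℝ) ^ κ * (1 + η) ^ i)) g with hGd
    set H : ℕ → ℕ → ℝ := fun i => cut (1 * (1 + η) ^ i) ((1 + η) * (1 * (1 + η) ^ i)) f with hHd
    set S := SI N A T κ e (1 + η) with hS
    have hSsub : S ⊆ range T ×ˢ range T := filter_subset _ _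
    have hext := ext_le (A := A) (T := T) (κ := κ) (e := e) hN3 hη hg0 hf0 (fun k hk => (hgs k hk).2)
      hgd hfd
    have hval : ∀ a ∈ IA A, ∀ n ∈ Ioc N (2 * N), (N : ℝ) ^ 2 / 2 ≤ val a n ∧
        ((val a n : ℕ) : ℝ) ≤ 5 * (N : ℝ) ^ 2 := by
      intro a ha n hn
      obtain ⟨v1, v2⟩ := val_bounds ha n
      rw [mem_Ioc] at hn
      have hn1 : (N : ℝ) ≤ n := by exact_mod_cast hn.1.le
      have hn2 : (n : ℝ) ≤ 2 * N := by exact_mod_cast hn.2
      have h1 : (N : ℝ) ^ 2 ≤ (n : ℝ) ^ 2 := by gcongr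
      have h2 : (n : ℝ) ^ 2 ≤ (2 * (N : ℝ)) ^ 2 := by gcongr
      have h3 : 8 * (A : ℝ) ≤ 1 / 4 * (N : ℝ) ^ 2 := h8A.trans (by gcongr)
      constructor <;> nlinarith
    have hmval : ∀ m ∈ Ioc (N ^ 2) (4 * N ^ 2), (N : ℝ) ^ 2 / 2 ≤ m ∧ (m : ℝ) ≤ 5 * (N : ℝ) ^ 2 ∧
        (N : ℝ) ^ 2 ≤ m := by
      intro m hm
      rw [mem_Ioc] at hm
      have h1 : ((N ^ 2 : ℕ) : ℝ) ≤ m := by exact_mod_cast hm.1.le
      have h2 : (m : ℝ) ≤ ((4 * N ^ 2 : ℕ) : ℝ) := by exact_mod_cast hm.2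
      push_cast at h1 h2
      refine ⟨?_, ?_, h1⟩ <;> nlinarith [sq_nonneg (N : ℝ)]
    -- decomposition of the two sums
    set EC : ℤ → ℝ := fun a => ∑ n ∈ Ioc N (2 * N), ∑ x ∈ (range T ×ˢ range T) \ S,
      conv (G x.1) (H x.2) (val a n) with hEC
    set EM : ℝ := ∑ m ∈ Ioc (N ^ 2) (4 * N ^ 2), (∑ x ∈ (range T ×ˢ range T) \ S,
      conv (G x.1) (H x.2) m) * (1 / (2 * √(m : ℝ))) with hEM
    have hcnt : ∀ a ∈ IA A, cnt N a h =
        ∑ x ∈ S, ∑ n ∈ Ioc N (2 * N), conv (G x.1) (H x.2) (val a n) + EC a := by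
      intro a ha
      show cnt N a h = ∑ x ∈ S, ∑ n ∈ Ioc N (2 * N), conv (G x.1) (H x.2) (val a n) +
        ∑ n ∈ Ioc N (2 * N), ∑ x ∈ (range T ×ˢ range T) \ S, conv (G x.1) (H x.2) (val a n)
      rw [sum_comm (s := S), ← sum_add_distrib]
      unfold cnt
      refine sum_congr rfl fun n hn => ?_
      obtain ⟨v1, v2⟩ := hval a ha n hn
      rw [hid _ v1 v2, conv_sum T hgd hfd, ← sum_sdiff hSsub, add_comm]
    have hmod : model N h = ∑ x ∈ S, ∑ m ∈ Ioc (N ^ 2) (4 * N ^ 2),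
          conv (G x.1) (H x.2) m * (1 / (2 * √(m : ℝ))) + EM := by
      rw [hEM, sum_comm (s := S), ← sum_add_distrib]
      unfold model
      refine sum_congr rfl fun m hm => ?_
      obtain ⟨v1, v2, -⟩ := hmval m hm
      rw [hid _ v1 v2, conv_sum T hgd hfd, ← sum_sdiff hSsub, ← sum_mul, ← add_mul, add_comm,
        mul_one_div]
    have hEC0 : ∀ a, 0 ≤ EC a := fun a => sum_nonneg fun n _ => (hext (val a n)).1
    have hEM0 : 0 ≤ EM := sum_nonneg fun m _ => mul_nonneg (hext m).1 (by positivity)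
    have hECs : ∀ a ∈ IA A, EC a ≤ F * (10 * η * N) := by
      intro a ha
      have h2 : ∀ n ∈ Ioc N (2 * N), ∑ x ∈ (range T ×ˢ range T) \ S, conv (G x.1) (H x.2) (val a n)
          ≤ if n ∈ En N η then F else 0 := by
        intro n hn
        refine (hext (val a n)).2.trans ?_
        by_cases hb : Bd N A (1 + η) (val a n)
        · rw [if_pos hb, if_pos (En_of hη hη4 h8A ha hn hb)]
          exact hbd _
        · rw [if_neg hb]
          split_ifs
          · exact hF0.le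
          · exact le_rfl
      refine (sum_le_sum h2).trans ?_
      rw [← sum_filter, sum_const, nsmul_eq_mul, mul_comm]
      have h4 : (Ioc N (2 * N)).filter (fun n => n ∈ En N η) ⊆ En N η := by
        intro n hn
        exact (mem_filter.1 hn).2
      have h5 : ((((Ioc N (2 * N)).filter (fun n => n ∈ En N η)).card : ℕ) : ℝ) ≤ (En N η).card := by
        exact_mod_cast card_le_card h4
      have h6 := card_En hη hη4 (by linarith : 1 ≤ η * N)
      exact mul_le_mul_of_nonneg_left (h5.trans h6) hF0.le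
    have hEMs : EM ≤ F * (8 * η * N) := by
      set U := Ioc ⌊(N : ℝ) ^ 2⌋₊ ⌊(1 + 3 * η) * (N : ℝ) ^ 2⌋₊ ∪
          Ioc ⌊(1 - 3 * η) * (4 * (N : ℝ) ^ 2)⌋₊ ⌊4 * (N : ℝ) ^ 2⌋₊ with hU
      have h1 : EM ≤ ∑ m ∈ U, F * (1 / (2 * N)) := by
        have h2 : ∀ m ∈ Ioc (N ^ 2) (4 * N ^ 2), (∑ x ∈ (range T ×ˢ range T) \ S,
            conv (G x.1) (H x.2) m) * (1 / (2 * √(m : ℝ)))
            ≤ if m ∈ U then F * (1 / (2 * N)) else 0 := by
          intro m hm
          have hmN : (N : ℝ) ≤ √(m : ℝ) := by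
            rw [Real.le_sqrt hN0.le (Nat.cast_nonneg m)]
            exact (hmval m hm).2.2
          have h3 : 1 / (2 * √(m : ℝ)) ≤ 1 / (2 * (N : ℝ)) := by gcongr
          by_cases hb : Bd N A (1 + η) m
          · rw [if_pos (Em_of hη hη4 h8A hm hb)]
            have h4 := (hext m).2
            rw [if_pos hb] at h4
            exact mul_le_mul (h4.trans (hbd m)) h3 (by positivity) hF0.le
          · have h4 := (hext m).2
            rw [if_neg hb] at h4
            have h5 := le_antisymm h4 (hext m).1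
            rw [h5, zero_mul]
            split_ifs
            · positivity
            · exact le_rfl
        refine (sum_le_sum h2).trans ?_
        rw [← sum_filter]
        refine sum_le_sum_of_subset_of_nonneg ?_ ?_
        · intro m hm
          exact (mem_filter.1 hm).2
        · intro m _ _
          positivity
      have hη2N : 2 * (N : ℝ) ≤ η * (N : ℝ) ^ 2 := by nlinarith
      have h5 : ((Ioc ⌊(N : ℝ) ^ 2⌋₊ ⌊(1 + 3 * η) * (N : ℝ) ^ 2⌋₊).card : ℝ)
          ≤ (1 + 3 * η) * (N : ℝ) ^ 2 - (N : ℝ) ^ 2 + 1 :=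
        card_Ioc_le (by positivity) (by nlinarith)
      have h6 : ((Ioc ⌊(1 - 3 * η) * (4 * (N : ℝ) ^ 2)⌋₊ ⌊4 * (N : ℝ) ^ 2⌋₊).card : ℝ)
          ≤ 4 * (N : ℝ) ^ 2 - (1 - 3 * η) * (4 * (N : ℝ) ^ 2) + 1 :=
        card_Ioc_le (mul_nonneg (by linarith) (by positivity)) (by nlinarith)
      have h7 : (U.card : ℝ) ≤ 16 * η * (N : ℝ) ^ 2 := by
        have h8 : (U.card : ℝ) ≤ (((Ioc ⌊(N : ℝ) ^ 2⌋₊ ⌊(1 + 3 * η) * (N : ℝ) ^ 2⌋₊).card
            + (Ioc ⌊(1 - 3 * η) * (4 * (N : ℝ) ^ 2)⌋₊ ⌊4 * (N : ℝ) ^ 2⌋₊).card : ℕ) : ℝ) :=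
          Nat.cast_le.2 (card_union_le _ _)
        rw [Nat.cast_add] at h8
        nlinarith
      refine h1.trans ?_
      rw [sum_const, nsmul_eq_mul]
      calc (U.card : ℝ) * (F * (1 / (2 * N))) ≤ (16 * η * (N : ℝ) ^ 2) * (F * (1 / (2 * N))) := by gcongr
        _ = F * (8 * η * N) := by field_simp; ring
    -- the interior blocks
    have hint : ∀ x ∈ S, ∑ a ∈ IA A, |∑ n ∈ Ioc N (2 * N), conv (G x.1) (H x.2) (val a n)
        - ∑ m ∈ Ioc (N ^ 2) (4 * N ^ 2), conv (G x.1) (H x.2) m * (1 / (2 * √(m : ℝ)))|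
        ≤ ϖ / (4 * CN) * A * N / Real.log N := by
      intro x hx
      obtain ⟨hx1, hx2, hx3, hx4⟩ := mem_filter.1 hx
      have hcn : ∀ a ∈ IA A, ∑ n ∈ Ioc N (2 * N), conv (G x.1) (H x.2) (val a n) =
          bil (8 * N) a (G x.1) (H x.2) := fun a ha => int_cnt hN3 hη hx ha
      set K : ℝ := (N : ℝ) ^ κ * (1 + η) ^ x.1 with hK
      set L : ℝ := 1 * (1 + η) ^ x.2 with hL
      have hp1 : 1 ≤ (1 + η) ^ x.1 := one_le_pow₀ hq.le
      have hp2 : 1 ≤ (1 + η) ^ x.2 := one_le_pow₀ hq.le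
      have hK1 : (N : ℝ) ^ κ ≤ K := le_mul_of_one_le_right hκ0.le hp1
      have hL1 : 1 ≤ L := by rw [hL, one_mul]; exact hp2
      have hKL0 : 0 ≤ K * L := by positivity
      have hq2 : 1 ≤ (1 + η) ^ 2 := one_le_pow₀ hq.le
      have hKL2 : K * L ≤ 5 * (N : ℝ) ^ 2 := by nlinarith
      have hKL1 : (N : ℝ) ^ 2 / 2 ≤ K * L := by nlinarith
      have hLc : (1 + η) * L ≤ 5 * (N : ℝ) ^ 2 := by
        have h1 : (1 + η) * L ≤ (1 + η) ^ 2 * (K * L) := by
          have h2 : 1 ≤ (1 + η) * K := by nlinarith [hκ1]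
          calc (1 + η) * L = ((1 + η) * L) * 1 := (mul_one _).symm
            _ ≤ ((1 + η) * L) * ((1 + η) * K) := mul_le_mul_of_nonneg_left h2 (by positivity)
            _ = _ := by ring
        nlinarith
      have hHe : H x.2 = cut L ((1 + η) * L) (conv g₂ l) := by
        funext u
        show cut L ((1 + η) * L) f u = cut L ((1 + η) * L) (conv g₂ l) u
        unfold cut
        split_ifs with hu
        · rw [hf]
          unfold f2
          rw [if_pos]
          refine ⟨?_, hu.2.trans hLc⟩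
          have : (1 : ℝ) < u := lt_of_le_of_lt hL1 hu.1
          exact_mod_cast this
        · rfl
      have hGe : G x.1 = cut K ((1 + η) * K) g := rfl
      have h6 := hN₁ N A hNN₁ hA hnear K L hK1 hx4 hKL1 hKL2
      refine le_trans (le_of_eq ?_) h6
      refine sum_congr rfl fun a ha => ?_
      rw [hcn a ha, hHe, hGe, int_model hN3 hη hx hK hL]
    have hcS := card_SI (A := A) (T := T) (κ := κ) (e := e) (q := 1 + η) hN3 (by linarith)
      he hq hD.le hl1
    rw [← hS, ← hCN] at hcS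
    have hcA : ((IA A).card : ℝ) ≤ 3 * A := by
      unfold IA
      rw [Int.card_Icc]
      have h1 : ((A : ℤ) + 1 - -(A : ℤ)).toNat = 2 * A + 1 := by omega
      rw [h1]
      push_cast
      linarith
    have hsum1 : ∑ a ∈ IA A, ∑ x ∈ S, |∑ n ∈ Ioc N (2 * N), conv (G x.1) (H x.2) (val a n)
        - ∑ m ∈ Ioc (N ^ 2) (4 * N ^ 2), conv (G x.1) (H x.2) m * (1 / (2 * √(m : ℝ)))|
        ≤ ϖ / 4 * A * N := by
      rw [sum_comm]
      refine (sum_le_sum hint).trans ?_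
      rw [sum_const, nsmul_eq_mul]
      calc (S.card : ℝ) * (ϖ / (4 * CN) * A * N / Real.log N)
          ≤ (CN * Real.log N) * (ϖ / (4 * CN) * A * N / Real.log N) := by gcongr
        _ = ϖ / 4 * A * N := by field_simp
    have hfin : ∀ a ∈ IA A, |cnt N a h - model N h|
        ≤ ∑ x ∈ S, |∑ n ∈ Ioc N (2 * N), conv (G x.1) (H x.2) (val a n)
        - ∑ m ∈ Ioc (N ^ 2) (4 * N ^ 2), conv (G x.1) (H x.2) m * (1 / (2 * √(m : ℝ)))|
        + F * (18 * η * N) := by
      intro a ha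
      rw [hcnt a ha, hmod]
      have e1 : (∑ x ∈ S, ∑ n ∈ Ioc N (2 * N), conv (G x.1) (H x.2) (val a n) + EC a)
          - (∑ x ∈ S, ∑ m ∈ Ioc (N ^ 2) (4 * N ^ 2),
            conv (G x.1) (H x.2) m * (1 / (2 * √(m : ℝ))) + EM)
          = ∑ x ∈ S, (∑ n ∈ Ioc N (2 * N), conv (G x.1) (H x.2) (val a n)
            - ∑ m ∈ Ioc (N ^ 2) (4 * N ^ 2), conv (G x.1) (H x.2) m * (1 / (2 * √(m : ℝ))))
            + (EC a - EM) := by
        rw [sum_sub_distrib]
        ring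
      rw [e1]
      refine (abs_add_le _ _).trans (add_le_add (abs_sum_le_sum_abs _ _) ?_)
      have h1 := hECs a ha
      have h2 := hEC0 a
      rw [abs_le]
      have h3 : F * (18 * η * N) = F * (10 * η * N) + F * (8 * η * N) := by ring
      rw [h3]
      have h4 : 0 ≤ F * (10 * η * N) := by positivity
      have h5 : 0 ≤ F * (8 * η * N) := by positivity
      constructor <;> linarith
    refine (sum_le_sum hfin).trans ?_
    rw [sum_add_distrib, sum_const, nsmul_eq_mul]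
    have h7 : ((IA A).card : ℝ) * (F * (18 * η * N)) ≤ ϖ / 2 * A * N := by
      have b2 : F * (18 * η * N) ≤ ϖ / 6 * N := by
        have := mul_le_mul_of_nonneg_right hη1 hN0.le
        have h0 : 0 ≤ ϖ * N := by positivity
        linarith
      have b3 : ((IA A).card : ℝ) * (F * (18 * η * N)) ≤ (3 * A) * (ϖ / 6 * N) :=
        mul_le_mul hcA b2 (by positivity) (mul_nonneg (by norm_num) hA0)
      refine b3.trans (le_of_eq ?_)
      ring
    have h8 : 0 ≤ ϖ * A * N := by positivity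
    linarith
  obtain ⟨N₀, hN₀⟩ := eventually_atTop.1 hev
  exact ⟨N₀, fun N A hN hA hnear => hN₀ N hN A hA hnear⟩

end Pool.Agent.Lib.MP391708.QPA.C
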