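import Pool.Agent.Lib.MP_391708_nt.QPA.C.SpecD
import Pool.Agent.Lib.MP_391708_nt.QPA.WIN

/-!
# WIND: the values `n² + a` with a rough divisor in a window, `θ > 1/2`, `x ≤ 1 + (θ - 1/2)/8`
-/

set_option autoImplicit false

namespace Pool.Agent.Lib.MP391708.QPA.C

open Finset Filter Topology
open Pool.Agent.Lib.MP391708.QPA
open Pool.Agent.Lib.MP391708.QPA.H
open scoped Classical

noncomputable section

namespace WINDM

/-- the case `θ ≤ 1` -/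
theorem main (hQ : SpecQG) (hR : SpecRSUM) :
    ∀ θ : ℝ, 1 / 2 < θ → θ ≤ 1 → ∃ C : ℝ, 0 < C ∧ ∀ e0 e : ℝ, 0 < e0 → e0 ≤ 1 / 10 →
  0 < e → e ≤ (θ - 1 / 2) / 8 → ∃ N₀ : ℕ, ∀ N A : ℕ, N₀ ≤ N → Adm θ N A → ∀ x : ℝ, 1 / 2 ≤ x →
    x ≤ 1 + (θ - 1 / 2) / 8 →
    ∑ a ∈ IA A, cnt N a (fun m => if RWin N e0 x e m then 1 else 0) ≤ C * (e / e0) * A * N := by
  intro θ hθ hθ1
  set τ : ℝ := (θ - 1 / 2) / 4 with hτdef
  have hτ : 0 < τ := by rw [hτdef]; linarith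
  have hτ1 : τ ≤ 1 / 8 := by rw [hτdef]; linarith
  obtain ⟨CR, hCR, hRS⟩ := hR
  obtain ⟨CQ, hCQ, hQG⟩ := hQ (τ / 2) (by positivity)
  refine ⟨9 * CR + 1, by positivity, ?_⟩
  intro e0 e he0 he0' he he'
  have ht : Tendsto (fun N : ℕ => (N : ℝ)) atTop atTop := tendsto_natCast_atTop_atTop
  have hlt : Tendsto (fun N : ℕ => Real.log (N : ℝ)) atTop atTop :=
    Real.tendsto_log_atTop.comp ht
  have hev : ∀ᶠ N : ℕ in atTop, 2 ≤ (N : ℝ) ^ e0 ∧ 3 * CQ * e0 / e ≤ (N : ℝ) ^ (3 * τ / 2) ∧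
      1 / e ≤ Real.log N ∧ 3 ≤ (N : ℝ) :=
    (ht.eventually ((tendsto_rpow_atTop (by positivity)).eventually_ge_atTop _)).and
      ((ht.eventually ((tendsto_rpow_atTop (by positivity)).eventually_ge_atTop _)).and
        ((hlt.eventually_ge_atTop _).and (ht.eventually_ge_atTop _)))
  obtain ⟨N₀, hN₀⟩ := eventually_atTop.1 hev
  refine ⟨N₀, fun N A hN hAdm x hx1 hx2 => ?_⟩
  obtain ⟨hz2, hbig, hlog, hN3⟩ := hN₀ N hN
  have hNp : (0 : ℝ) < N := by linarith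
  have hN1 : (1 : ℝ) < N := by linarith
  have hlogp : 0 < Real.log N := Real.log_pos hN1
  obtain ⟨hA1, hA2⟩ := hAdm
  have hAp : (0 : ℝ) < A := lt_of_lt_of_le (Real.rpow_pos_of_pos hNp _) hA1
  have hAone : (1 : ℝ) ≤ A := by
    have : 0 < A := by exact_mod_cast hAp
    exact_mod_cast this
  set z : ℝ := (N : ℝ) ^ e0 with hz
  set X₁ : ℝ := (N : ℝ) ^ (x - e) with hX₁
  set X₂ : ℝ := (N : ℝ) ^ (x + e) with hX₂
  have hzX : z ≤ X₁ := Real.rpow_le_rpow_of_exponent_le hN1.le (by linarith)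
  have hXX : X₁ ≤ X₂ := Real.rpow_le_rpow_of_exponent_le hN1.le (by linarith)
  have hX1p : 0 < X₁ := by positivity
  have hX2p : 0 < X₂ := by positivity
  have hlogz : Real.log z = e0 * Real.log N := Real.log_rpow hNp _
  have hlogXX : Real.log (X₂ / X₁) = 2 * e * Real.log N := by
    rw [Real.log_div hX2p.ne' hX1p.ne', hX₁, hX₂, Real.log_rpow hNp, Real.log_rpow hNp]
    ring
  have helog : 1 ≤ e * Real.log N := by
    rw [div_le_iff₀ he] at hlog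
    linarith
  have hRS1 := hRS z X₁ X₂ hz2 hzX hXX
  rw [hlogXX, hlogz] at hRS1
  have hRS2 : ∑ k ∈ Icc ⌈X₁⌉₊ ⌊X₂⌋₊, rInd z k / (k : ℝ) ≤ 3 * CR * (e / e0) := by
    refine hRS1.trans ?_
    rw [div_le_iff₀ (by positivity)]
    calc CR * (2 * e * Real.log N + 1) ≤ CR * (3 * (e * Real.log N)) := by
          have : 2 * e * Real.log N + 1 ≤ 3 * (e * Real.log N) := by linarith
          gcongr
      _ = 3 * CR * (e / e0) * (e0 * Real.log N) := by field_simp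
  set S := (Icc ⌈X₁⌉₊ ⌊X₂⌋₊).filter (fun k => Rough z k) with hSdef
  set P := (Ioc N (N + N)) ×ˢ (IA A) with hP
  set E : ℕ → ℝ := fun k => CQ * X₂ ^ (τ / 2) * (N * (1 / √(k : ℝ)) + √X₂) with hEdef
  have hone : ∀ k ∈ S, ((P.filter (fun t => k ∣ val t.2 t.1)).card : ℝ)
      ≤ 3 * A * N * (1 / (k : ℝ)) + E k := by
    intro k hk
    rw [hSdef, mem_filter, mem_Icc] at hk
    obtain ⟨⟨hk1, hk2⟩, _⟩ := hk
    have hk1' : X₁ ≤ k := (Nat.le_ceil _).trans (by exact_mod_cast hk1)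
    have hkp : (0 : ℝ) < k := lt_of_lt_of_le hX1p hk1'
    have hk0 : 1 ≤ k := by
      have : 0 < k := by exact_mod_cast hkp
      omega
    have hk2' : (k : ℝ) ≤ X₂ := le_trans (by exact_mod_cast hk2) (Nat.floor_le hX2p.le)
    have h := hQG k N N A hk0
    rw [abs_le] at h
    have h1 := h.2
    have h2 : CQ * (k : ℝ) ^ (τ / 2) * (N / √(k : ℝ) + √(k : ℝ)) ≤ E k := by
      show _ ≤ CQ * X₂ ^ (τ / 2) * (N * (1 / √(k : ℝ)) + √X₂)
      have h3 : (k : ℝ) ^ (τ / 2) ≤ X₂ ^ (τ / 2) :=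
        Real.rpow_le_rpow hkp.le hk2' (by positivity)
      have h4 : √(k : ℝ) ≤ √X₂ := Real.sqrt_le_sqrt hk2'
      have h5 : (N : ℝ) / √(k : ℝ) = N * (1 / √(k : ℝ)) := by ring
      rw [h5]
      gcongr
    have h3 : (2 * (A : ℝ) + 1) * N / k ≤ 3 * A * N * (1 / (k : ℝ)) := by
      rw [mul_one_div]
      have h4 : (2 * (A : ℝ) + 1) * N ≤ 3 * A * N := by gcongr; linarith
      exact div_le_div_of_nonneg_right h4 hkp.le
    linarith
  have hred : ∑ a ∈ IA A, cnt N a (fun m => if RWin N e0 x e m then 1 else 0)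
      ≤ ∑ k ∈ S, ((P.filter (fun t => k ∣ val t.2 t.1)).card : ℝ) := by
    have h1 : ∑ a ∈ IA A, cnt N a (fun m => if RWin N e0 x e m then 1 else 0)
        = ∑ t ∈ P, (if RWin N e0 x e (val t.2 t.1) then (1 : ℝ) else 0) := by
      rw [hP, sum_product_right]
      unfold cnt
      rw [two_mul]
    rw [h1]
    simp_rw [card_filter, Nat.cast_sum]
    rw [sum_comm]
    refine sum_le_sum fun t _ => ?_
    have hnn : ∀ k ∈ S, (0 : ℝ) ≤ (((if k ∣ val t.2 t.1 then 1 else 0 : ℕ)) : ℝ) := by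
      intro k _
      positivity
    split_ifs with hc
    · obtain ⟨k, hk1, hk2, hk3, hk4⟩ := hc
      have hkS : k ∈ S := by
        rw [hSdef, mem_filter, mem_Icc]
        exact ⟨⟨Nat.ceil_le.2 hk3, Nat.le_floor hk4⟩, hk2⟩
      have h2 := single_le_sum hnn hkS
      refine le_trans ?_ h2
      rw [if_pos hk1]
      norm_num
    · exact sum_nonneg hnn
  have hsum1 : ∑ k ∈ S, 1 / (k : ℝ) ≤ 3 * CR * (e / e0) := by
    refine le_trans (le_of_eq ?_) hRS2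
    rw [hSdef, sum_filter]
    refine sum_congr rfl fun k _ => ?_
    unfold rInd
    split_ifs <;> simp
  have hn1 : (⌊X₂⌋₊ : ℝ) ≤ X₂ := Nat.floor_le hX2p.le
  have hsub : S ⊆ Icc 1 ⌊X₂⌋₊ := by
    intro k hk
    rw [hSdef, mem_filter, mem_Icc] at hk
    rw [mem_Icc]
    refine ⟨?_, hk.1.2⟩
    have h1 : 0 < ⌈X₁⌉₊ := Nat.ceil_pos.2 hX1p
    omega
  have hsq : ∑ k ∈ S, 1 / √(k : ℝ) ≤ 2 * √X₂ := by
    calc ∑ k ∈ S, 1 / √(k : ℝ) ≤ ∑ k ∈ Icc 1 ⌊X₂⌋₊, 1 / √(k : ℝ) :=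
          sum_le_sum_of_subset_of_nonneg hsub fun _ _ _ => by positivity
      _ ≤ 2 * √((⌊X₂⌋₊ : ℕ) : ℝ) := WIN.sum_inv_sqrt _
      _ ≤ 2 * √X₂ := by
          have := Real.sqrt_le_sqrt hn1
          linarith
  have hcard : (S.card : ℝ) ≤ X₂ := by
    have h1 : S.card ≤ ⌊X₂⌋₊ := by
      have := card_le_card hsub
      simpa using this
    exact le_trans (by exact_mod_cast h1) hn1
  -- the exponents
  have hX2a : X₂ ≤ (N : ℝ) ^ (1 + τ) := Real.rpow_le_rpow_of_exponent_le hN1.le (by linarith)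
  have hX2b : √X₂ ≤ (N : ℝ) ^ (1 / 2 + τ / 2) := by
    rw [Real.sqrt_le_left (by positivity)]
    refine hX2a.trans (le_of_eq ?_)
    rw [← Real.rpow_natCast, ← Real.rpow_mul hNp.le]
    congr 1
    push_cast
    ring
  have hX2c : X₂ ^ (τ / 2) ≤ (N : ℝ) ^ τ := by
    calc X₂ ^ (τ / 2) ≤ ((N : ℝ) ^ (1 + τ)) ^ (τ / 2) := by gcongr
      _ = (N : ℝ) ^ ((1 + τ) * (τ / 2)) := by rw [← Real.rpow_mul hNp.le]
      _ ≤ (N : ℝ) ^ τ := Real.rpow_le_rpow_of_exponent_le hN1.le (by nlinarith)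
  have hsumE : ∑ k ∈ S, E k ≤ 3 * CQ * (N : ℝ) ^ (3 / 2 + 5 * τ / 2) := by
    have h1 : ∑ k ∈ S, E k = CQ * X₂ ^ (τ / 2) * (N * ∑ k ∈ S, 1 / √(k : ℝ) + S.card * √X₂) := by
      rw [hEdef, ← mul_sum, sum_add_distrib, ← mul_sum, sum_const, nsmul_eq_mul]
    rw [h1]
    have h2 : (N : ℝ) ≤ (N : ℝ) ^ (1 + τ) := by
      calc (N : ℝ) = (N : ℝ) ^ (1 : ℝ) := (Real.rpow_one _).symm
        _ ≤ _ := Real.rpow_le_rpow_of_exponent_le hN1.le (by linarith)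
    calc CQ * X₂ ^ (τ / 2) * (N * ∑ k ∈ S, 1 / √(k : ℝ) + S.card * √X₂)
        ≤ CQ * (N : ℝ) ^ τ * ((N : ℝ) ^ (1 + τ) * (2 * (N : ℝ) ^ (1 / 2 + τ / 2))
            + (N : ℝ) ^ (1 + τ) * (N : ℝ) ^ (1 / 2 + τ / 2)) := by
          have hS1 : ∑ k ∈ S, 1 / √(k : ℝ) ≤ 2 * (N : ℝ) ^ (1 / 2 + τ / 2) :=
            hsq.trans (by linarith)
          have hS2 : (S.card : ℝ) ≤ (N : ℝ) ^ (1 + τ) := hcard.trans hX2a
          have hS3 : 0 ≤ ∑ k ∈ S, 1 / √(k : ℝ) := sum_nonneg fun _ _ => by positivity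
          gcongr
      _ = 3 * CQ * ((N : ℝ) ^ τ * (N : ℝ) ^ (1 + τ) * (N : ℝ) ^ (1 / 2 + τ / 2)) := by ring
      _ = 3 * CQ * (N : ℝ) ^ (3 / 2 + 5 * τ / 2) := by
          rw [← Real.rpow_add hNp, ← Real.rpow_add hNp]
          congr 2
          ring
  have hfin : 3 * CQ * (N : ℝ) ^ (3 / 2 + 5 * τ / 2) ≤ e / e0 * A * N := by
    have h1 : 3 * CQ ≤ e / e0 * (N : ℝ) ^ (3 * τ / 2) := by
      rw [div_le_iff₀ he] at hbig
      rw [div_mul_eq_mul_div, le_div_iff₀ he0]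
      linarith
    calc 3 * CQ * (N : ℝ) ^ (3 / 2 + 5 * τ / 2)
        ≤ e / e0 * (N : ℝ) ^ (3 * τ / 2) * (N : ℝ) ^ (3 / 2 + 5 * τ / 2) := by gcongr
      _ = e / e0 * ((N : ℝ) ^ θ * N) := by
          rw [mul_assoc, ← Real.rpow_add hNp]
          nth_rw 3 [← Real.rpow_one (N : ℝ)]
          rw [← Real.rpow_add hNp]
          congr 2
          rw [hτdef]
          ring
      _ ≤ e / e0 * (A * N) := by gcongr
      _ = e / e0 * A * N := by ring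
  calc ∑ a ∈ IA A, cnt N a (fun m => if RWin N e0 x e m then 1 else 0)
      ≤ ∑ k ∈ S, (3 * A * N * (1 / (k : ℝ)) + E k) := hred.trans (sum_le_sum hone)
    _ = 3 * A * N * ∑ k ∈ S, 1 / (k : ℝ) + ∑ k ∈ S, E k := by rw [sum_add_distrib, ← mul_sum]
    _ ≤ 3 * A * N * (3 * CR * (e / e0)) + e / e0 * A * N := by
        have := hsumE.trans hfin
        gcongr
    _ = (9 * CR + 1) * (e / e0) * A * N := by ring

end WINDM

/-- WIND -/
theorem specWIND (hQ : SpecQG) (hR : SpecRSUM) : SpecWIND := by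
  intro θ hθ
  by_cases h : θ ≤ 1
  · exact WINDM.main hQ hR θ hθ h
  · push Not at h
    refine ⟨1, one_pos, fun e0 e _ _ _ _ => ?_⟩
    obtain ⟨N₁, hN₁⟩ := NSFM.eventually_rpow (θ - 1) (1 / 2) (by linarith) (by norm_num)
    refine ⟨max N₁ 1, fun N A hN hAdm x _ _ => ?_⟩
    exfalso
    have h1 := hN₁ N ((le_max_left _ _).trans hN)
    have hN1 : 1 ≤ N := (le_max_right _ _).trans hN
    have hNp : (0 : ℝ) < N := by exact_mod_cast hN1
    have h2 : (N : ℝ) ^ θ ≤ N * Real.log N := hAdm.1.trans hAdm.2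
    have h3 : (N : ℝ) ^ θ = N * (N : ℝ) ^ (θ - 1) := by
      nth_rw 2 [← Real.rpow_one (N : ℝ)]
      rw [← Real.rpow_add hNp]
      congr 1
      ring
    have h4 : 0 < (N : ℝ) ^ (θ - 1) := by positivity
    rw [h3] at h2
    have h5 : (N : ℝ) ^ (θ - 1) ≤ Real.log N := le_of_mul_le_mul_left h2 hNp
    linarith

end

end Pool.Agent.Lib.MP391708.QPA.C
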