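import Pool.Agent.Lib.MP_391708_nt.QPA.C.AllC
import Pool.Agent.Lib.MP_391708_nt.QPA.C.EQD
import Pool.Agent.Lib.MP_391708_nt.QPA.C.BLKD
import Pool.Agent.Lib.MP_391708_nt.QPA.C.TIID
import Pool.Agent.Lib.MP_391708_nt.QPA.C.TICG
import Pool.Agent.Lib.MP_391708_nt.QPA.C.MOBD
import Pool.Agent.Lib.MP_391708_nt.QPA.C.SMK
import Pool.Agent.Lib.MP_391708_nt.QPA.C.TID
import Pool.Agent.Lib.MP_391708_nt.QPA.C.T2D
import Pool.Agent.Lib.MP_391708_nt.QPA.C.BOXC
import Pool.Agent.Lib.MP_391708_nt.QPA.C.PWIN
import Pool.Agent.Lib.MP_391708_nt.QPA.C.WINM2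
import Pool.Agent.Lib.MP_391708_nt.QPA.C.WIND
import Pool.Agent.Lib.MP_391708_nt.QPA.C.CHWD
import Pool.Agent.Lib.MP_391708_nt.QPA.C.SLOW
import Pool.Agent.Lib.MP_391708_nt.QPA.C.FIND
import Pool.Agent.Lib.MP_391708_nt.QPA.C.EXTD

/-!
# QPA phase 4, stage 2: assembly
-/

set_option autoImplicit false

namespace Pool.Agent.Lib.MP391708.QPA.C

open Pool.Agent.Lib.MP391708.QPA
open Pool.Agent.Lib.MP391708.QPA.H

/-- the Type II sums with main term -/
theorem allTIID : SpecTIID := by
  have hSELB := specSELB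
  have hBT := specBT hSELB
  have hRSUM := specRSUM hBT
  have hRAV := specRAV specQG
  have hCOUNT := specCOUNTP
  have hSEC := specSECP (specKERP (specBIL specDLS) specPOI hCOUNT) hCOUNT
  have hTWOP := specTWOP hSEC (specFIRSTH hRAV hBT) hSELB
  have hEQD := specEQD hRSUM specFFB
  have hBKH := specBKH (specSML specPVA) (specLRG specPVE)
  exact specTIID (specBLKD hTWOP (specWBC specWB specBDHB) hEQD
    (specMTBH hBKH hRAV specRHOD) hRAV specRHOC specRHOM specSHM hBT specFFB) specFFB

/-- the Type I sums without parity -/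
theorem allTID : SpecTID :=
  specTID (specSMK specFL) (specMOBD (specSML specPVA) specRHOD) specRHOC specRHOS specMER

/-- the Type I sums with parity -/
theorem allTICG : SpecTICG :=
  specTICG (specFLC specFL specRHO1 specRHOM specRHOS) (specPRODK specRHOP specPVA)
    (specGMAX specRHO2 specRHOP) specWMER specMER specRHOS

theorem allPWIN : SpecPWIN := specPWIN specQG (specBT specSELB)

theorem allPWINM : SpecPWINM := specPWINM

theorem allSLOW : SpecSLOW := specSLOW (specBT specSELB)

/-- both statements on one block -/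
theorem allCHWD : SpecCHWD := by
  have hRSUM := specRSUM (specBT specSELB)
  exact specCHWD allTICG allTID specT2D specBOXC allTIIC allTIID (specWIND specQG hRSUM) specSMTC
    (specNSFH specQG) allPWIN allPWINM (specWINM2 hRSUM specNSFM)

/-- both statements for `n ≤ N` -/
theorem allFIND : SpecFIND := specFIND allCHWD allPWIN allPWINM allSLOW

/-- the joint law for one vector of thresholds -/
theorem allJOINT : SpecJOINT := specEXTD allFIND

end Pool.Agent.Lib.MP391708.QPA.C
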