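import Pool.Agent.Lib.MP_391708_nt.QPA.C.SpecD

/-!
# QPA/C, module UNID: the joint law uniformly in the thresholds

`vec N x m` = the numbers of prime factors `> N^(x_j)` of `m`.  From the law for one vector of thresholds (`SpecEXTV`) to
the law for all thresholds `≥ δ` at the same time (`SpecUNID`): thresholds on the grid `δ + i/J`, the edges are events for
the grid vector itself.
-/

set_option autoImplicit false

namespace Pool.Agent.Lib.MP391708.QPA.C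

open Finset Filter Topology
open Pool.Agent.Lib.MP391708.QPA
open Pool.Agent.Lib.MP391708.QPA.H
open scoped Classical

noncomputable section

/-- the numbers of prime factors `> N^(x_j)` of `m` -/
def vec (N r : ℕ) (x : Fin r → ℝ) (m : ℕ) : Fin r → ℕ := fun j => Cn N (x j) m

/-- `#{n ≤ N : vec (|n²+a|) ∈ E, λ(|n²+a|) = s}` -/
def cW (N : ℕ) (a : ℤ) (r : ℕ) (x : Fin r → ℝ) (E : Set (Fin r → ℕ)) (s : ℤ) : ℕ :=
  ((Icc 1 N).filter (fun n : ℕ => vec N r x (val a n) ∈ E ∧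
    ArithmeticFunction.liouville (val a n) = s)).card

/-- `#{m ≤ N² : vec m ∈ E}` -/
def cV (N r : ℕ) (x : Fin r → ℝ) (E : Set (Fin r → ℕ)) : ℕ :=
  ((Icc 1 (N ^ 2)).filter (fun m : ℕ => vec N r x m ∈ E)).card

/-- the law for one vector of thresholds, all sets `E`, both signs, for `A ≤ K₀ N` -/
def SpecEXTV : Prop := ∀ (θ ε : ℝ) (r : ℕ) (x : Fin r → ℝ) (K₀ : ℕ), 5 / 6 < θ → 0 < ε →
  (∀ j, 0 < x j) → 1 ≤ K₀ →
  ∃ N₀ : ℕ, ∀ N A : ℕ, N₀ ≤ N → (N : ℝ) ^ θ ≤ A → A ≤ K₀ * N →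
  (((IA A).filter (fun a => ¬ ∀ (E : Set (Fin r → ℕ)) (s : ℤ), (s = 1 ∨ s = -1) →
    |(cW N a r x E s : ℝ) - (cV N r x E : ℝ) / (2 * N)| ≤ ε * N)).card : ℝ) ≤ ε * A

/-- the law for all thresholds `≥ δ`, all sets `E`, both signs -/
def SpecUNID : Prop := ∀ (θ δ ε : ℝ) (r K₀ : ℕ), 5 / 6 < θ → 0 < δ → 0 < ε → 1 ≤ K₀ →
  ∃ N₀ : ℕ, ∀ N A : ℕ, N₀ ≤ N → (N : ℝ) ^ θ ≤ A → A ≤ K₀ * N →
  (((IA A).filter (fun a => ¬ ∀ (x : Fin r → ℝ), (∀ j, δ ≤ x j) →
    ∀ (E : Set (Fin r → ℕ)) (s : ℤ), (s = 1 ∨ s = -1) →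
    |(cW N a r x E s : ℝ) - (cV N r x E : ℝ) / (2 * N)| ≤ ε * N)).card : ℝ) ≤ ε * A

namespace UNIDM

/-! ### the counts -/

lemma Cn_anti {N : ℕ} {y y' : ℝ} (m : ℕ) (hN : 1 ≤ N) (h : y ≤ y') : Cn N y' m ≤ Cn N y m := by
  unfold Cn
  apply List.Sublist.length_le
  apply List.monotone_filter_right
  intro p hp
  rw [decide_eq_true_eq] at hp ⊢
  exact lt_of_le_of_lt (Real.rpow_le_rpow_of_exponent_le (by exact_mod_cast hN) h) hp

lemma Cn_zero {N m : ℕ} {y : ℝ} (hN : 1 ≤ N) (hy : 3 ≤ y) (hm : m < N ^ 3) : Cn N y m = 0 := by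
  unfold Cn
  rw [List.length_eq_zero_iff, List.filter_eq_nil_iff]
  intro p hp
  rw [decide_eq_true_eq, not_lt]
  have h1 : p ≤ m := Nat.le_of_mem_primeFactorsList hp
  have h2 : (p : ℝ) ≤ (N : ℝ) ^ 3 := by exact_mod_cast (h1.trans hm.le)
  refine h2.trans ?_
  rw [← Real.rpow_natCast]
  exact Real.rpow_le_rpow_of_exponent_le (by exact_mod_cast hN) (by push_cast; exact hy)

lemma Cn_ne {N m : ℕ} {y y' : ℝ} (hN : 1 ≤ N) (h : y ≤ y') (hne : Cn N y m ≠ Cn N y' m) :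
    ∃ p ∈ PW N y y', p ∣ m := by
  by_contra hcon
  push Not at hcon
  apply hne
  unfold Cn
  congr 1
  apply List.filter_congr
  intro p hp
  rw [decide_eq_decide]
  constructor
  · intro h1
    by_contra h2
    rw [not_lt] at h2
    refine hcon p ?_ (Nat.dvd_of_mem_primeFactorsList hp)
    unfold PW
    rw [mem_filter, mem_Ioc]
    refine ⟨⟨(Nat.floor_lt (by positivity)).2 h1, Nat.le_floor h2⟩,
      Nat.prime_of_mem_primeFactorsList hp⟩
  · intro h1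
    exact lt_of_le_of_lt (Real.rpow_le_rpow_of_exponent_le (by exact_mod_cast hN) h) h1

/-! ### the grid -/

/-- the grid points -/
def gr (δ : ℝ) (J i : ℕ) : ℝ := δ + i / J

/-- the index of a threshold -/
def ix (δ : ℝ) (J : ℕ) (x : ℝ) : ℕ := min ⌊(x - δ) * J⌋₊ (3 * J)

lemma gr_mono {δ : ℝ} {J : ℕ} : Monotone (gr δ J) := by
  intro i j hij
  unfold gr
  have h : (i : ℝ) ≤ j := by exact_mod_cast hij
  gcongr

lemma gr_ix_le {δ x : ℝ} {J : ℕ} (hJ : 1 ≤ J) (hx : δ ≤ x) : gr δ J (ix δ J x) ≤ x := by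
  have hJ0 : (0 : ℝ) < J := by exact_mod_cast hJ
  have h1 : ((ix δ J x : ℕ) : ℝ) ≤ (x - δ) * J := by
    have h2 : ((ix δ J x : ℕ) : ℝ) ≤ (⌊(x - δ) * J⌋₊ : ℝ) := by
      exact_mod_cast min_le_left _ _
    exact h2.trans (Nat.floor_le (mul_nonneg (by linarith) hJ0.le))
  unfold gr
  have h2 : ((ix δ J x : ℕ) : ℝ) / J ≤ x - δ := by
    rw [div_le_iff₀ hJ0]
    exact h1
  linarith

lemma le_gr_ix {δ x : ℝ} {J : ℕ} (hJ : 1 ≤ J) (h : ix δ J x < 3 * J) :
    x ≤ gr δ J (ix δ J x + 1) := by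
  have hJ0 : (0 : ℝ) < J := by exact_mod_cast hJ
  have h1 : ix δ J x = ⌊(x - δ) * J⌋₊ := by
    unfold ix at h ⊢
    rcases min_choice ⌊(x - δ) * J⌋₊ (3 * J) with h2 | h2
    · exact h2
    · omega
  have h2 := Nat.lt_floor_add_one ((x - δ) * J)
  rw [← h1] at h2
  unfold gr
  push_cast
  have h3 : x - δ ≤ ((ix δ J x : ℝ) + 1) / J := by
    rw [le_div_iff₀ hJ0]
    exact h2.le
  linarith

lemma ix_le {δ x : ℝ} {J : ℕ} : ix δ J x ≤ 3 * J := min_le_right _ _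

/-- off the edges the count is the count of the grid point -/
lemma Cn_grid {N m J : ℕ} {δ x : ℝ} (hN : 1 ≤ N) (hJ : 1 ≤ J) (hδ : 0 < δ) (hx : δ ≤ x)
    (hm : m < N ^ 3) (h : Cn N (gr δ J (ix δ J x)) m = Cn N (gr δ J (ix δ J x + 1)) m) :
    Cn N x m = Cn N (gr δ J (ix δ J x)) m := by
  have h1 := Cn_anti m hN (gr_ix_le hJ hx)
  rcases Nat.lt_or_ge (ix δ J x) (3 * J) with h2 | h2
  · have h3 := Cn_anti m hN (le_gr_ix hJ h2)
    omega
  · have h3 : ix δ J x = 3 * J := le_antisymm ix_le h2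
    have h4 : 3 ≤ gr δ J (ix δ J x) := by
      rw [h3]
      unfold gr
      push_cast
      have hJ0 : (0 : ℝ) < J := by exact_mod_cast hJ
      rw [mul_div_assoc, div_self hJ0.ne']
      linarith
    have h5 := Cn_zero hN h4 hm
    omega

/-- the grid vector -/
def yy (δ : ℝ) (J : ℕ) : Fin (3 * J + 2) → ℝ := fun i => gr δ J i

/-- the set of grid vectors -/
def EE (δ : ℝ) (J r : ℕ) (x : Fin r → ℝ) (E : Set (Fin r → ℕ)) : Set (Fin (3 * J + 2) → ℕ) :=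
  {v | (fun j => v ⟨ix δ J (x j), by have := ix_le (δ := δ) (x := x j) (J := J); omega⟩) ∈ E}

/-- the edges -/
def DD (δ : ℝ) (J r : ℕ) (x : Fin r → ℝ) : Set (Fin (3 * J + 2) → ℕ) :=
  {v | ∃ j : Fin r, v ⟨ix δ J (x j), by have := ix_le (δ := δ) (x := x j) (J := J); omega⟩
    ≠ v ⟨ix δ J (x j) + 1, by have := ix_le (δ := δ) (x := x j) (J := J); omega⟩}

lemma mem_iff {N m J r : ℕ} {δ : ℝ} {x : Fin r → ℝ} {E : Set (Fin r → ℕ)} (hN : 1 ≤ N)
    (hJ : 1 ≤ J) (hδ : 0 < δ) (hx : ∀ j, δ ≤ x j) (hm : m < N ^ 3)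
    (hD : ¬ vec N (3 * J + 2) (yy δ J) m ∈ DD δ J r x) :
    (vec N r x m ∈ E ↔ vec N (3 * J + 2) (yy δ J) m ∈ EE δ J r x E) := by
  have h1 : vec N r x m = fun j => vec N (3 * J + 2) (yy δ J) m
      ⟨ix δ J (x j), by have := ix_le (δ := δ) (x := x j) (J := J); omega⟩ := by
    funext j
    have h2 : vec N (3 * J + 2) (yy δ J) m ⟨ix δ J (x j), by
        have := ix_le (δ := δ) (x := x j) (J := J); omega⟩
        = vec N (3 * J + 2) (yy δ J) m ⟨ix δ J (x j) + 1, by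
        have := ix_le (δ := δ) (x := x j) (J := J); omega⟩ := by
      by_contra h
      exact hD ⟨j, h⟩
    exact Cn_grid hN hJ hδ (hx j) hm h2
  rw [h1]
  exact Iff.rfl

lemma card_diff {T : Finset ℕ} {P Q D : ℕ → Prop} {hP : DecidablePred P} {hQ : DecidablePred Q}
    {hD : DecidablePred D} (h : ∀ t ∈ T, ¬ D t → (P t ↔ Q t)) :
    |(((@Finset.filter _ P hP T)).card : ℝ) - ((@Finset.filter _ Q hQ T).card : ℝ)|
      ≤ ((@Finset.filter _ D hD T).card : ℝ) := by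
  have h1 : (T.filter P).card ≤ (T.filter Q).card + (T.filter D).card := by
    refine (card_le_card (t := T.filter Q ∪ T.filter D) ?_).trans (card_union_le _ _)
    intro t ht
    rw [mem_filter] at ht
    rw [mem_union, mem_filter, mem_filter]
    by_cases hd : D t
    · exact Or.inr ⟨ht.1, hd⟩
    · exact Or.inl ⟨ht.1, (h t ht.1 hd).1 ht.2⟩
  have h2 : (T.filter Q).card ≤ (T.filter P).card + (T.filter D).card := by
    refine (card_le_card (t := T.filter P ∪ T.filter D) ?_).trans (card_union_le _ _)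
    intro t ht
    rw [mem_filter] at ht
    rw [mem_union, mem_filter, mem_filter]
    by_cases hd : D t
    · exact Or.inr ⟨ht.1, hd⟩
    · exact Or.inl ⟨ht.1, (h t ht.1 hd).2 ht.2⟩
  have h1' : ((T.filter P).card : ℝ) ≤ (T.filter Q).card + (T.filter D).card := by exact_mod_cast h1
  have h2' : ((T.filter Q).card : ℝ) ≤ (T.filter P).card + (T.filter D).card := by exact_mod_cast h2
  rw [abs_le]
  constructor <;> linarith

/-- the edges for the integers `m ≤ N²` -/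
lemma cV_DD {N J r : ℕ} {δ κ : ℝ} {x : Fin r → ℝ} (hN : 1 ≤ N)
    (hs : ∀ i ≤ 3 * J, ∑ p ∈ PW N (gr δ J i) (gr δ J (i + 1)), 1 / (p : ℝ) ≤ κ) :
    (cV N (3 * J + 2) (yy δ J) (DD δ J r x) : ℝ) ≤ r * κ * (N : ℝ) ^ 2 := by
  unfold cV
  set T : Finset ℕ := Icc 1 (N ^ 2) with hT
  have hsub : T.filter (fun m : ℕ => vec N (3 * J + 2) (yy δ J) m ∈ DD δ J r x) ⊆
      (univ : Finset (Fin r)).biUnion (fun j =>
        (PW N (gr δ J (ix δ J (x j))) (gr δ J (ix δ J (x j) + 1))).biUnion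
          (fun p => T.filter (fun m => p ∣ m))) := by
    intro m hm
    rw [mem_filter] at hm
    obtain ⟨hmT, j, hj⟩ := hm
    obtain ⟨p, hp, hpm⟩ := Cn_ne hN (gr_mono (Nat.le_succ (ix δ J (x j)))) hj
    rw [mem_biUnion]
    refine ⟨j, mem_univ j, ?_⟩
    rw [mem_biUnion]
    exact ⟨p, hp, mem_filter.2 ⟨hmT, hpm⟩⟩
  have hmul : ∀ p : ℕ, ((T.filter (fun m => p ∣ m)).card : ℝ) ≤ (N : ℝ) ^ 2 * (1 / (p : ℝ)) := by
    intro p
    have h1 : T = Ioc 0 (N ^ 2) := by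
      ext u
      rw [hT, mem_Icc, mem_Ioc]
      omega
    rw [h1, Nat.Ioc_filter_dvd_card_eq_div]
    refine (Nat.cast_div_le).trans (le_of_eq ?_)
    push_cast
    ring
  have h1 := (card_le_card hsub).trans card_biUnion_le
  have h2 : (((T.filter (fun m : ℕ => vec N (3 * J + 2) (yy δ J) m ∈ DD δ J r x)).card : ℕ) : ℝ)
      ≤ ∑ j : Fin r, ((((PW N (gr δ J (ix δ J (x j))) (gr δ J (ix δ J (x j) + 1))).biUnion
          (fun p => T.filter (fun m => p ∣ m))).card : ℕ) : ℝ) := by exact_mod_cast h1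
  refine h2.trans ?_
  have h3 : ∀ j ∈ (univ : Finset (Fin r)),
      ((((PW N (gr δ J (ix δ J (x j))) (gr δ J (ix δ J (x j) + 1))).biUnion
          (fun p => T.filter (fun m => p ∣ m))).card : ℕ) : ℝ) ≤ κ * (N : ℝ) ^ 2 := by
    intro j _
    have h4 : ((((PW N (gr δ J (ix δ J (x j))) (gr δ J (ix δ J (x j) + 1))).biUnion
          (fun p => T.filter (fun m => p ∣ m))).card : ℕ) : ℝ) ≤
        ∑ p ∈ PW N (gr δ J (ix δ J (x j))) (gr δ J (ix δ J (x j) + 1)),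
          ((T.filter (fun m => p ∣ m)).card : ℝ) := by exact_mod_cast card_biUnion_le
    refine h4.trans ((sum_le_sum fun p _ => hmul p).trans ?_)
    rw [← mul_sum, mul_comm]
    exact mul_le_mul_of_nonneg_right (hs _ ix_le) (by positivity)
  refine (sum_le_sum h3).trans (le_of_eq ?_)
  rw [sum_const, card_univ, Fintype.card_fin, nsmul_eq_mul]
  ring

/-- all `n ≤ N` with a property -/
lemma card_le_signs (N : ℕ) (a : ℤ) (P : ℕ → Prop) :
    (((Icc 1 N).filter (fun n => P (val a n))).card : ℝ) ≤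
      (((Icc 1 N).filter (fun n => P (val a n) ∧ ArithmeticFunction.liouville (val a n) = 1)).card : ℝ)
      + (((Icc 1 N).filter (fun n => P (val a n) ∧
          ArithmeticFunction.liouville (val a n) = -1)).card : ℝ) + 1 := by
  have hz : ((Icc 1 N).filter (fun n : ℕ => val a n = 0)).card ≤ 1 := by
    rw [Finset.card_le_one]
    intro u hu v hv
    rw [Finset.mem_filter] at hu hv
    have h1 : (u : ℤ) ^ 2 + a = 0 := Int.natAbs_eq_zero.1 hu.2
    have h2 : (v : ℤ) ^ 2 + a = 0 := Int.natAbs_eq_zero.1 hv.2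
    have h : (u : ℤ) ^ 2 = (v : ℤ) ^ 2 := by linarith
    have h3 : u ^ 2 = v ^ 2 := by exact_mod_cast h
    exact Nat.pow_left_injective (by norm_num : (2 : ℕ) ≠ 0) h3
  have hsub : (Icc 1 N).filter (fun n => P (val a n)) ⊆
      ((Icc 1 N).filter (fun n => P (val a n) ∧ ArithmeticFunction.liouville (val a n) = 1) ∪
        (Icc 1 N).filter (fun n => P (val a n) ∧ ArithmeticFunction.liouville (val a n) = -1)) ∪
        (Icc 1 N).filter (fun n : ℕ => val a n = 0) := by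
    intro n hn
    rw [mem_filter] at hn
    rw [mem_union, mem_union, mem_filter, mem_filter, mem_filter]
    by_cases h0 : val a n = 0
    · exact Or.inr ⟨hn.1, h0⟩
    · left
      have h1 : ArithmeticFunction.liouville (val a n) = 1 ∨
          ArithmeticFunction.liouville (val a n) = -1 := by
        rw [ArithmeticFunction.liouville_apply h0]
        exact neg_one_pow_eq_or ℤ _
      rcases h1 with h1 | h1
      · exact Or.inl ⟨hn.1, hn.2, h1⟩
      · exact Or.inr ⟨hn.1, hn.2, h1⟩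
  have h1 := (card_le_card hsub).trans ((card_union_le _ _).trans
    (add_le_add (card_union_le _ _) hz))
  exact_mod_cast h1

lemma val_lt {N A K₀ : ℕ} {a : ℤ} (hN : K₀ + 2 ≤ N) (hA : A ≤ K₀ * N) (ha : a ∈ IA A) {n : ℕ}
    (hn : n ≤ N) : val a n < N ^ 3 := by
  unfold IA at ha
  rw [mem_Icc] at ha
  have h1 : (val a n : ℤ) ≤ (N : ℤ) ^ 2 + K₀ * N := by
    unfold val
    rw [Int.natCast_natAbs, abs_le]
    have h2 : (n : ℤ) ≤ N := by exact_mod_cast hn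
    have h3 : (0 : ℤ) ≤ n := by positivity
    have h4 : (n : ℤ) ^ 2 ≤ (N : ℤ) ^ 2 := pow_le_pow_left₀ h3 h2 2
    have h5 : (A : ℤ) ≤ K₀ * N := by exact_mod_cast hA
    have h6 : (0 : ℤ) ≤ (n : ℤ) ^ 2 := by positivity
    have h7 : (0 : ℤ) ≤ (N : ℤ) ^ 2 := by positivity
    constructor <;> linarith [ha.1, ha.2]
  have h7 : val a n ≤ N ^ 2 + K₀ * N := by exact_mod_cast h1
  have h8 : N ^ 2 + K₀ * N < N ^ 3 := by
    have h9 : N ^ 3 = N * N ^ 2 := by ring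
    have h10 : (K₀ + 2) * N ^ 2 ≤ N * N ^ 2 := Nat.mul_le_mul_right _ hN
    have h11 : (K₀ + 2) * N ^ 2 = N ^ 2 + K₀ * N ^ 2 + N ^ 2 := by ring
    have h12 : K₀ * N ≤ K₀ * N ^ 2 := Nat.mul_le_mul_left _ (by nlinarith)
    have h13 : 0 < N ^ 2 := by
      have : 0 < N := by omega
      positivity
    omega
  omega

/-- the deterministic part -/
lemma core {N A K₀ J r : ℕ} {a : ℤ} {δ κ ε : ℝ} (hNK : K₀ + 2 ≤ N) (hA : A ≤ K₀ * N) (ha : a ∈ IA A)
    (hJ : 1 ≤ J) (hδ : 0 < δ)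
    (hs : ∀ i ≤ 3 * J, ∑ p ∈ PW N (gr δ J i) (gr δ J (i + 1)), 1 / (p : ℝ) ≤ κ)
    (hlaw : ∀ (E : Set (Fin (3 * J + 2) → ℕ)) (s : ℤ), (s = 1 ∨ s = -1) →
      |(cW N a (3 * J + 2) (yy δ J) E s : ℝ) - (cV N (3 * J + 2) (yy δ J) E : ℝ) / (2 * N)| ≤ ε * N)
    (x : Fin r → ℝ) (hx : ∀ j, δ ≤ x j) (E : Set (Fin r → ℕ)) (s : ℤ) (hs1 : s = 1 ∨ s = -1) :
    |(cW N a r x E s : ℝ) - (cV N r x E : ℝ) / (2 * N)| ≤ 3 / 2 * (r * κ * N) + 3 * (ε * N) + 1 := by
  have hN : 2 ≤ N := by omega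
  have hN1 : 1 ≤ N := by omega
  have hNr : (2 : ℝ) ≤ N := by exact_mod_cast hN
  have hN0 : (0 : ℝ) < N := by linarith
  have hcube : ∀ n ∈ Icc 1 N, val a n < N ^ 3 := fun n hn => val_lt hNK hA ha (mem_Icc.1 hn).2
  have hcube2 : ∀ m ∈ Icc 1 (N ^ 2), m < N ^ 3 := by
    intro m hm
    rw [mem_Icc] at hm
    have h9 : N ^ 3 = N * N ^ 2 := by ring
    have h10 : 2 * N ^ 2 ≤ N * N ^ 2 := Nat.mul_le_mul_right _ hN
    have h11 : 0 < N ^ 2 := by positivity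
    omega
  set D := DD δ J r x with hD
  set E' := EE δ J r x E with hE'
  have hVD := cV_DD (x := x) hN1 hs
  rw [← hD] at hVD
  have hVD2 : (cV N (3 * J + 2) (yy δ J) D : ℝ) / (2 * N) ≤ 1 / 2 * (r * κ * N) := by
    rw [div_le_iff₀ (by positivity)]
    refine hVD.trans (le_of_eq ?_)
    ring
  -- the values `n² + a`
  have h1 : |(cW N a r x E s : ℝ) - (cW N a (3 * J + 2) (yy δ J) E' s : ℝ)| ≤
      (((Icc 1 N).filter (fun n => vec N (3 * J + 2) (yy δ J) (val a n) ∈ D)).card : ℝ) := by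
    unfold cW
    refine card_diff (fun n hn hnD => ?_)
    have := mem_iff (E := E) hN1 hJ hδ hx (hcube n hn) hnD
    rw [this]
  have h2 : (((Icc 1 N).filter (fun n => vec N (3 * J + 2) (yy δ J) (val a n) ∈ D)).card : ℝ) ≤
      (cW N a (3 * J + 2) (yy δ J) D 1 : ℝ) + (cW N a (3 * J + 2) (yy δ J) D (-1) : ℝ) + 1 :=
    card_le_signs N a (fun m => vec N (3 * J + 2) (yy δ J) m ∈ D)
  have h3 := (abs_le.1 (hlaw D 1 (Or.inl rfl))).2
  have h4 := (abs_le.1 (hlaw D (-1) (Or.inr rfl))).2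
  -- the integers
  have h5 : |(cV N (3 * J + 2) (yy δ J) E' : ℝ) / (2 * N) - (cV N r x E : ℝ) / (2 * N)| ≤
      1 / 2 * (r * κ * N) := by
    rw [← sub_div, abs_div, abs_of_pos (show (0 : ℝ) < 2 * N by positivity)]
    refine le_trans ?_ hVD2
    apply div_le_div_of_nonneg_right _ (by positivity)
    unfold cV
    refine card_diff (fun m hm hmD => ?_)
    exact (mem_iff (E := E) hN1 hJ hδ hx (hcube2 m hm) hmD).symm
  have h6 := hlaw E' s hs1
  have h7 : (cW N a r x E s : ℝ) - (cV N r x E : ℝ) / (2 * N)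
      = ((cW N a r x E s : ℝ) - (cW N a (3 * J + 2) (yy δ J) E' s : ℝ))
        + ((cW N a (3 * J + 2) (yy δ J) E' s : ℝ) - (cV N (3 * J + 2) (yy δ J) E' : ℝ) / (2 * N))
        + ((cV N (3 * J + 2) (yy δ J) E' : ℝ) / (2 * N) - (cV N r x E : ℝ) / (2 * N)) := by ring
  rw [h7]
  refine (abs_add_le _ _).trans ?_
  have h8 := abs_add_le ((cW N a r x E s : ℝ) - (cW N a (3 * J + 2) (yy δ J) E' s : ℝ))
    ((cW N a (3 * J + 2) (yy δ J) E' s : ℝ) - (cV N (3 * J + 2) (yy δ J) E' : ℝ) / (2 * N))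
  linarith

end UNIDM

open UNIDM in
theorem specUNID (hE : SpecEXTV) (hM : SpecMER) : SpecUNID := by
  intro θ δ ε r K₀ hθ hδ hε hK₀
  obtain ⟨J, hJ⟩ := exists_nat_gt (max 1 (12 * (r + 1) / (δ * ε)))
  have hJ1' : (1 : ℝ) < J := (le_max_left _ _).trans_lt hJ
  have hJ1 : 1 ≤ J := by exact_mod_cast hJ1'.le
  have hJ0 : (0 : ℝ) < J := by linarith
  have hJε : (r : ℝ) * (2 / (J * δ)) ≤ ε / 6 := by
    have h1 : 12 * ((r : ℝ) + 1) / (δ * ε) < J := (le_max_right _ _).trans_lt hJ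
    rw [div_lt_iff₀ (by positivity)] at h1
    have h2 : (r : ℝ) * (2 / (J * δ)) = (2 * r) / (J * δ) := by ring
    rw [h2, div_le_iff₀ (by positivity)]
    have hr : (0 : ℝ) ≤ r := Nat.cast_nonneg r
    nlinarith
  have hκ0 : (0 : ℝ) < 1 / (J * δ) := by positivity
  have hlogs : ∀ i : ℕ, Real.log (gr δ J (i + 1) / gr δ J i) ≤ 1 / (J * δ) := by
    intro i
    have hg : δ ≤ gr δ J i := by unfold gr; have : (0 : ℝ) ≤ (i : ℝ) / J := by positivity
                                 linarith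
    have hg0 : 0 < gr δ J i := by linarith
    have h1 : gr δ J (i + 1) = gr δ J i + 1 / J := by unfold gr; push_cast; ring
    have h2 : gr δ J (i + 1) / gr δ J i - 1 = 1 / (J * gr δ J i) := by
      rw [h1]
      field_simp
      ring
    have h3 : 0 < gr δ J (i + 1) / gr δ J i := by
      rw [h1]; positivity
    refine (Real.log_le_sub_one_of_pos h3).trans ?_
    rw [h2]
    apply one_div_le_one_div_of_le (by positivity)
    gcongr
  have hmer : ∀ᶠ N : ℕ in atTop, ∀ i ∈ range (3 * J + 1),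
      ∑ p ∈ PW N (gr δ J i) (gr δ J (i + 1)), 1 / (p : ℝ) ≤ 2 / (J * δ) := by
    rw [Filter.eventually_all_finset]
    intro i _
    have hg : δ ≤ gr δ J i := by unfold gr; have : (0 : ℝ) ≤ (i : ℝ) / J := by positivity
                                 linarith
    have hlt : gr δ J i < gr δ J (i + 1) := by
      unfold gr
      push_cast
      have : (i : ℝ) / J < ((i : ℝ) + 1) / J := by gcongr; linarith
      linarith
    obtain ⟨N₀, hN₀⟩ := hM (gr δ J i) (gr δ J (i + 1)) (1 / (J * δ)) (by linarith) hlt hκ0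
    filter_upwards [eventually_ge_atTop N₀] with N hN
    have h1 := (abs_le.1 (hN₀ N hN)).2
    have h2 := hlogs i
    have h3 : (2 : ℝ) / (J * δ) = 1 / (J * δ) + 1 / (J * δ) := by ring
    linarith
  obtain ⟨N₁, hN₁⟩ := hE θ (ε / 6) (3 * J + 2) (yy δ J) K₀ hθ (by positivity) (fun i => by
    unfold yy gr
    have : (0 : ℝ) ≤ (i : ℝ) / J := by positivity
    linarith) hK₀
  obtain ⟨N₂, hN₂⟩ := eventually_atTop.1 hmer
  obtain ⟨N₃, hN₃⟩ := exists_nat_gt (4 / ε)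
  refine ⟨max (max N₁ N₂) (max N₃ (K₀ + 2)), fun N A hN hA1 hA2 => ?_⟩
  have hNN₁ : N₁ ≤ N := (le_max_left _ _).trans ((le_max_left _ _).trans hN)
  have hNN₂ : N₂ ≤ N := (le_max_right _ _).trans ((le_max_left _ _).trans hN)
  have hNN₃ : N₃ ≤ N := (le_max_left _ _).trans ((le_max_right _ _).trans hN)
  have hNK : K₀ + 2 ≤ N := (le_max_right _ _).trans ((le_max_right _ _).trans hN)
  have hN2 : 2 ≤ N := by omega
  have hNε : 1 ≤ ε / 4 * N := by
    have h1 : (N₃ : ℝ) ≤ N := by exact_mod_cast hNN₃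
    have h2 : 4 / ε < N := hN₃.trans_le h1
    rw [div_lt_iff₀ hε] at h2
    linarith
  have hNr : (2 : ℝ) ≤ N := by exact_mod_cast hN2
  have h1 := hN₁ N A hNN₁ hA1 hA2
  have hA0 : (0 : ℝ) ≤ A := Nat.cast_nonneg A
  refine le_trans ?_ (h1.trans (mul_le_mul_of_nonneg_right (by linarith) hA0))
  have hsub : (IA A).filter (fun a => ¬ ∀ (x : Fin r → ℝ), (∀ j, δ ≤ x j) →
      ∀ (E : Set (Fin r → ℕ)) (s : ℤ), (s = 1 ∨ s = -1) →
      |(cW N a r x E s : ℝ) - (cV N r x E : ℝ) / (2 * N)| ≤ ε * N) ⊆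
      (IA A).filter (fun a => ¬ ∀ (E : Set (Fin (3 * J + 2) → ℕ)) (s : ℤ), (s = 1 ∨ s = -1) →
        |(cW N a (3 * J + 2) (yy δ J) E s : ℝ) - (cV N (3 * J + 2) (yy δ J) E : ℝ) / (2 * N)|
          ≤ ε / 6 * N) := by
    intro a ha
    rw [mem_filter] at ha ⊢
    refine ⟨ha.1, fun hlaw => ha.2 (fun x hx E s hs => ?_)⟩
    have h2 := core hNK hA2 ha.1 hJ1 hδ
      (fun i hi => hN₂ N hNN₂ i (mem_range.2 (by omega))) hlaw x hx E s hs
    refine h2.trans ?_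
    have h3 : 3 / 2 * ((r : ℝ) * (2 / (J * δ)) * N) ≤ 3 / 2 * (ε / 6 * N) := by
      gcongr
    linarith
  exact_mod_cast card_le_card hsub

end

end Pool.Agent.Lib.MP391708.QPA.C
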