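import Pool.Agent.Lib.MP_391708_nt.QPA.C.FINDK
import Pool.Agent.Lib.MP_391708_nt.QPA.C.UNID

/-!
# QPA/C, module EXTV: one exceptional set for all sets of vectors and both signs
-/

set_option autoImplicit false

namespace Pool.Agent.Lib.MP391708.QPA.C

open Finset Filter Topology
open Pool.Agent.Lib.MP391708.QPA
open Pool.Agent.Lib.MP391708.QPA.H
open scoped Classical

noncomputable section

namespace EXTVM

lemma prod_ge (y : ℝ) (hy : 1 ≤ y) (l : List ℕ) (hl : ∀ p ∈ l, 1 ≤ p) :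
    y ^ (l.filter (fun p : ℕ => decide (y < (p : ℝ)))).length ≤ (l.prod : ℝ) := by
  induction l with
  | nil => simp
  | cons p l ih =>
    have h1 := ih (fun q hq => hl q (List.mem_cons_of_mem _ hq))
    have h2 : (1 : ℝ) ≤ p := by exact_mod_cast hl p List.mem_cons_self
    have h0 : (0 : ℝ) ≤ y ^ (l.filter (fun p : ℕ => decide (y < (p : ℝ)))).length := by positivity
    rw [List.filter_cons, List.prod_cons, Nat.cast_mul]
    by_cases hp : y < (p : ℝ)
    · rw [if_pos (by simpa using hp), List.length_cons, pow_succ, mul_comm]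
      exact mul_le_mul hp.le h1 h0 (by linarith)
    · rw [if_neg (by simpa using hp)]
      calc y ^ (l.filter (fun p : ℕ => decide (y < (p : ℝ)))).length ≤ (l.prod : ℝ) := h1
        _ = 1 * (l.prod : ℝ) := (one_mul _).symm
        _ ≤ (p : ℝ) * (l.prod : ℝ) := mul_le_mul_of_nonneg_right h2 (h0.trans h1)

/-- the counts are bounded -/
lemma Cn_lt {N m K : ℕ} {u y : ℝ} (hN : 2 ≤ N) (hu : 0 < u) (huy : u ≤ y) (hK : 3 / u < K)
    (hm : m < N ^ 3) : Cn N y m < K := by
  have hK0 : 0 < K := by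
    have : (0 : ℝ) < K := lt_trans (by positivity) hK
    exact_mod_cast this
  rcases Nat.eq_zero_or_pos m with h0 | hpos
  · subst h0
    unfold Cn
    rw [Nat.primeFactorsList_zero, List.filter_nil, List.length_nil]
    exact hK0
  · have hN1 : (1 : ℝ) < N := by exact_mod_cast (by omega : 1 < N)
    have hN0 : (0 : ℝ) < N := by linarith
    have h1 := prod_ge ((N : ℝ) ^ y) (Real.one_le_rpow hN1.le (by linarith)) m.primeFactorsList
      (fun p hp => (Nat.prime_of_mem_primeFactorsList hp).one_le)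
    have h2 : (Nat.cast (m.primeFactorsList.prod) : ℝ) = m := by
      rw [Nat.prod_primeFactorsList hpos.ne']
    have h3 : ((N : ℝ) ^ y) ^ (Cn N y m) < (N : ℝ) ^ (3 : ℕ) := by
      have h4 : (m : ℝ) < (N : ℝ) ^ (3 : ℕ) := by exact_mod_cast hm
      have h5 : ((N : ℝ) ^ y) ^ (Cn N y m) ≤ (m : ℝ) := by
        unfold Cn
        exact h1.trans (le_of_eq h2)
      linarith
    rw [← Real.rpow_natCast, ← Real.rpow_natCast, ← Real.rpow_mul hN0.le] at h3
    have h4 : y * (Cn N y m : ℝ) < ((3 : ℕ) : ℝ) := (Real.rpow_lt_rpow_left_iff hN1).1 h3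
    have h5 : (Cn N y m : ℝ) < 3 / u := by
      rw [lt_div_iff₀ hu]
      have h6 : (Cn N y m : ℝ) * u ≤ y * (Cn N y m : ℝ) := by
        rw [mul_comm]
        exact mul_le_mul_of_nonneg_right huy (Nat.cast_nonneg _)
      push_cast at h4
      linarith
    have h6 : (Cn N y m : ℝ) < K := h5.trans hK
    exact_mod_cast h6

/-- pointwise: one sign -/
lemma pointwise (m : ℕ) (P : Prop) (s : ℤ) (hs : s = 1 ∨ s = -1) :
    (if P ∧ ArithmeticFunction.liouville m = s then (1 : ℝ) else 0)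
      = 1 / 2 * (if P then 1 else 0) + (s : ℝ) / 2 * (lio m * (if P then 1 else 0))
        - 1 / 2 * (if P ∧ m = 0 then 1 else 0) := by
  by_cases hP : P
  · by_cases hm : m = 0
    · subst hm
      have h2 : ArithmeticFunction.liouville 0 = 0 := by simp
      have h3 : ¬ (P ∧ ArithmeticFunction.liouville 0 = s) := by
        rintro ⟨_, h⟩
        rw [h2] at h
        rcases hs with rfl | rfl <;> norm_num at h
      rw [if_neg h3, if_pos hP, if_pos ⟨hP, rfl⟩]
      unfold lio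
      rw [h2]
      push_cast
      ring
    · have h1 : ArithmeticFunction.liouville m = 1 ∨ ArithmeticFunction.liouville m = -1 := by
        rw [ArithmeticFunction.liouville_apply hm]
        exact neg_one_pow_eq_or ℤ _
      rw [if_pos hP, if_neg (fun h : P ∧ m = 0 => hm h.2)]
      unfold lio
      rcases h1 with h1 | h1 <;> rcases hs with h2 | h2 <;> rw [h1, h2]
      · rw [if_pos ⟨hP, rfl⟩]; push_cast; ring
      · rw [if_neg (by rintro ⟨_, h⟩; norm_num at h)]; push_cast; ring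
      · rw [if_neg (by rintro ⟨_, h⟩; norm_num at h)]; push_cast; ring
      · rw [if_pos ⟨hP, rfl⟩]; push_cast; ring
  · rw [if_neg (fun h => hP h.1), if_neg hP, if_neg (fun h => hP h.1)]
    ring

lemma zeros (a : ℤ) (N : ℕ) (P : ℕ → Prop) :
    ∑ n ∈ Icc 1 N, (if P n ∧ val a n = 0 then (1 : ℝ) else 0) ≤ 1 := by
  rw [← sum_filter, sum_const, nsmul_eq_mul, mul_one]
  have h : ((Icc 1 N).filter (fun n : ℕ => P n ∧ val a n = 0)).card ≤ 1 := by
    rw [Finset.card_le_one]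
    intro u hu v hv
    rw [Finset.mem_filter] at hu hv
    have h1 : (u : ℤ) ^ 2 + a = 0 := Int.natAbs_eq_zero.1 hu.2.2
    have h2 : (v : ℤ) ^ 2 + a = 0 := Int.natAbs_eq_zero.1 hv.2.2
    have h : (u : ℤ) ^ 2 = (v : ℤ) ^ 2 := by linarith
    have h3 : u ^ 2 = v ^ 2 := by exact_mod_cast h
    exact Nat.pow_left_injective (by norm_num : (2 : ℕ) ≠ 0) h3
  exact_mod_cast h

end EXTVM

open EXTVM in
theorem specEXTV (h : SpecFINDK) : SpecEXTV := by
  intro θ ε r x K₀ hθ hε hx hK₀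
  obtain ⟨u, hu0, hu⟩ := FINDM.exists_u r x hx
  obtain ⟨Kc, hKc⟩ := exists_nat_gt (3 / u)
  set V : Finset (Fin r → ℕ) := Fintype.piFinset (fun _ => range Kc) with hV
  set P := V.powerset with hP
  set ε' : ℝ := ε / (4 * (P.card + 1)) with hε'
  have hPr : (0 : ℝ) ≤ P.card := Nat.cast_nonneg _
  have hε'0 : 0 < ε' := by positivity
  have hε'1 : ε' ≤ ε / 4 := by
    rw [hε']
    apply div_le_div_of_nonneg_left hε.le (by norm_num)
    linarith
  have hε'2 : (P.card : ℝ) * (2 * ε') ≤ ε := by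
    calc (P.card : ℝ) * (2 * ε') ≤ (P.card + 1 : ℝ) * (2 * (ε / (4 * (P.card + 1)))) := by
          rw [hε']
          apply mul_le_mul_of_nonneg_right (by linarith) (by positivity)
      _ = ε / 2 := by field_simp; ring
      _ ≤ ε := by linarith
  have hW : ∀ W : Finset (Fin r → ℕ), ∃ N₀ : ℕ, ∀ N A : ℕ, N₀ ≤ N → (N : ℝ) ^ θ ≤ A → A ≤ K₀ * N →
      (((IA A).filter (fun a => ε' * N < |∑ n ∈ Icc 1 N, cF N r x (fun v => if v ∈ W then 1 else 0) (val a n)
          - (∑ m ∈ Icc 1 (N ^ 2), cF N r x (fun v => if v ∈ W then 1 else 0) m) / N|)).card : ℝ) ≤ ε' * A ∧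
      (((IA A).filter (fun a => ε' * N < |∑ n ∈ Icc 1 N, lio (val a n) *
          cF N r x (fun v => if v ∈ W then 1 else 0) (val a n)|)).card : ℝ) ≤ ε' * A := by
    intro W
    refine h θ ε' r x (fun v => if v ∈ W then 1 else 0) K₀ hθ hε'0 hx (fun v => ?_) hK₀
    split_ifs <;> norm_num
  choose N₁ hN₁ using hW
  obtain ⟨N₂, hN₂⟩ := exists_nat_gt (1 / ε)
  refine ⟨max (P.sup N₁) (max N₂ (K₀ + 2)), fun N A hN hA1 hA2 => ?_⟩
  have hNN₂ : N₂ ≤ N := (le_max_left _ _).trans ((le_max_right _ _).trans hN)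
  have hNK : K₀ + 2 ≤ N := (le_max_right _ _).trans ((le_max_right _ _).trans hN)
  have hN2 : 2 ≤ N := by omega
  have hNP : ∀ W ∈ P, N₁ W ≤ N := fun W hW =>
    (Finset.le_sup (f := N₁) hW).trans ((le_max_left _ _).trans hN)
  have hNε : 1 ≤ ε * N := by
    have h1 : (N₂ : ℝ) ≤ N := by exact_mod_cast hNN₂
    have h2 : 1 / ε < N := hN₂.trans_le h1
    rw [div_lt_iff₀ hε] at h2
    linarith
  have hNr : (2 : ℝ) ≤ N := by exact_mod_cast hN2
  have hA0 : (0 : ℝ) ≤ A := Nat.cast_nonneg _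
  set F : Finset (Fin r → ℕ) → (Fin r → ℕ) → ℝ := fun W v => if v ∈ W then 1 else 0 with hF
  set B1 : Finset (Fin r → ℕ) → Finset ℤ := fun W => (IA A).filter (fun a => ε' * N <
    |∑ n ∈ Icc 1 N, cF N r x (F W) (val a n) - (∑ m ∈ Icc 1 (N ^ 2), cF N r x (F W) m) / N|) with hB1
  set B2 : Finset (Fin r → ℕ) → Finset ℤ := fun W => (IA A).filter (fun a => ε' * N <
    |∑ n ∈ Icc 1 N, lio (val a n) * cF N r x (F W) (val a n)|) with hB2
  have hB : (((P.biUnion (fun W => B1 W ∪ B2 W)).card : ℕ) : ℝ) ≤ ε * A := by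
    calc (((P.biUnion (fun W => B1 W ∪ B2 W)).card : ℕ) : ℝ)
        ≤ ∑ W ∈ P, (((B1 W ∪ B2 W).card : ℕ) : ℝ) := by exact_mod_cast card_biUnion_le
      _ ≤ ∑ W ∈ P, (ε' * A + ε' * A) := by
          refine sum_le_sum fun W hW => ?_
          have h1 : (((B1 W ∪ B2 W).card : ℕ) : ℝ) ≤ (B1 W).card + (B2 W).card := by
            exact_mod_cast card_union_le _ _
          obtain ⟨h2, h3⟩ := hN₁ W N A (hNP W hW) hA1 hA2
          exact h1.trans (add_le_add h2 h3)
      _ = (P.card * (2 * ε')) * A := by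
          rw [sum_const, nsmul_eq_mul]
          ring
      _ ≤ ε * A := mul_le_mul_of_nonneg_right hε'2 hA0
  refine le_trans ?_ hB
  apply Nat.cast_le.2
  apply card_le_card
  intro a ha
  rw [mem_filter] at ha
  by_contra hcon
  apply ha.2
  intro E s hs
  set W : Finset (Fin r → ℕ) := V.filter (fun v => v ∈ E) with hWdef
  have hWP : W ∈ P := mem_powerset.2 (filter_subset _ _)
  have hvec : ∀ m : ℕ, m < N ^ 3 → vec N r x m ∈ V := by
    intro m hm
    rw [hV, Fintype.mem_piFinset]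
    intro j
    rw [mem_range]
    exact Cn_lt hN2 hu0 (hu j) hKc hm
  have hFE : ∀ m : ℕ, m < N ^ 3 → cF N r x (F W) m = if vec N r x m ∈ E then 1 else 0 := by
    intro m hm
    have h1 := hvec m hm
    show (if vec N r x m ∈ W then (1 : ℝ) else 0) = _
    by_cases hE : vec N r x m ∈ E
    · rw [if_pos hE, if_pos]
      rw [hWdef, mem_filter]
      exact ⟨h1, hE⟩
    · rw [if_neg hE, if_neg]
      rw [hWdef, mem_filter]
      exact fun h => hE h.2
  rw [mem_biUnion] at hcon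
  push Not at hcon
  have hnot := hcon W hWP
  rw [mem_union, not_or] at hnot
  obtain ⟨n1, n2⟩ := hnot
  have g1 : |∑ n ∈ Icc 1 N, cF N r x (F W) (val a n)
      - (∑ m ∈ Icc 1 (N ^ 2), cF N r x (F W) m) / N| ≤ ε' * N := by
    by_contra hlt
    push Not at hlt
    exact n1 (mem_filter.2 ⟨ha.1, hlt⟩)
  have g2 : |∑ n ∈ Icc 1 N, lio (val a n) * cF N r x (F W) (val a n)| ≤ ε' * N := by
    by_contra hlt
    push Not at hlt
    exact n2 (mem_filter.2 ⟨ha.1, hlt⟩)
  have hvN : ∀ n ∈ Icc 1 N, val a n < N ^ 3 := fun n hn =>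
    UNIDM.val_lt hNK hA2 ha.1 (mem_Icc.1 hn).2
  have hmN : ∀ m ∈ Icc 1 (N ^ 2), m < N ^ 3 := by
    intro m hm
    rw [mem_Icc] at hm
    have h9 : N ^ 3 = N * N ^ 2 := by ring
    have h10 : 2 * N ^ 2 ≤ N * N ^ 2 := Nat.mul_le_mul_right _ hN2
    have h11 : 0 < N ^ 2 := by positivity
    omega
  set S1 := ∑ n ∈ Icc 1 N, cF N r x (F W) (val a n) with hS1
  set S2 := ∑ n ∈ Icc 1 N, lio (val a n) * cF N r x (F W) (val a n) with hS2
  set S3 := ∑ n ∈ Icc 1 N, (if vec N r x (val a n) ∈ E ∧ val a n = 0 then (1 : ℝ) else 0) with hS3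
  have hcW : (cW N a r x E s : ℝ) = 1 / 2 * S1 + (s : ℝ) / 2 * S2 - 1 / 2 * S3 := by
    have h1 : (cW N a r x E s : ℝ) = ∑ n ∈ Icc 1 N, (if vec N r x (val a n) ∈ E ∧
        ArithmeticFunction.liouville (val a n) = s then (1 : ℝ) else 0) := by
      unfold cW
      rw [← sum_filter, sum_const, nsmul_eq_mul, mul_one]
    rw [h1, hS1, hS2, hS3, mul_sum, mul_sum, mul_sum, ← sum_add_distrib, ← sum_sub_distrib]
    refine sum_congr rfl fun n hn => ?_
    rw [hFE (val a n) (hvN n hn)]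
    exact pointwise (val a n) (vec N r x (val a n) ∈ E) s hs
  have hcV : (cV N r x E : ℝ) = ∑ m ∈ Icc 1 (N ^ 2), cF N r x (F W) m := by
    have h1 : (cV N r x E : ℝ) = ∑ m ∈ Icc 1 (N ^ 2), (if vec N r x m ∈ E then (1 : ℝ) else 0) := by
      unfold cV
      rw [← sum_filter, sum_const, nsmul_eq_mul, mul_one]
    rw [h1]
    exact sum_congr rfl fun m hm => (hFE m (hmN m hm)).symm
  have hS3' : S3 ≤ 1 := zeros a N (fun n => vec N r x (val a n) ∈ E)
  have hS3'' : 0 ≤ S3 := sum_nonneg fun n _ => by split_ifs <;> norm_num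
  rw [hcW, hcV]
  have e1 : 1 / 2 * S1 + (s : ℝ) / 2 * S2 - 1 / 2 * S3 - (∑ m ∈ Icc 1 (N ^ 2), cF N r x (F W) m) / (2 * N)
      = 1 / 2 * (S1 - (∑ m ∈ Icc 1 (N ^ 2), cF N r x (F W) m) / N) + ((s : ℝ) / 2 * S2 - 1 / 2 * S3) := by
    field_simp
    ring
  rw [e1]
  have e2 : |(s : ℝ) / 2 * S2| ≤ 1 / 2 * (ε' * N) := by
    have : |(s : ℝ) / 2| = 1 / 2 := by
      rcases hs with rfl | rfl
      · rw [abs_of_nonneg] <;> norm_num
      · rw [abs_of_nonpos] <;> norm_num
    rw [abs_mul, this]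
    exact mul_le_mul_of_nonneg_left g2 (by norm_num)
  have e3 : |1 / 2 * (S1 - (∑ m ∈ Icc 1 (N ^ 2), cF N r x (F W) m) / N)| ≤ 1 / 2 * (ε' * N) := by
    rw [abs_mul, abs_of_pos (by norm_num : (0 : ℝ) < 1 / 2)]
    exact mul_le_mul_of_nonneg_left g1 (by norm_num)
  have e4 : |1 / 2 * S3| ≤ 1 / 2 := by
    rw [abs_of_nonneg (by positivity)]
    linarith
  refine (abs_add_le _ _).trans ?_
  have e5 := abs_sub ((s : ℝ) / 2 * S2) (1 / 2 * S3)
  have e6 : ε' * N ≤ ε / 4 * N := mul_le_mul_of_nonneg_right hε'1 (by linarith)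
  linarith

end

end Pool.Agent.Lib.MP391708.QPA.C
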