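import Pool.Agent.Lib.MP_391708_nt.QPA.C.UNID

/-!
# QPA/C, module UNIM: the joint law uniformly in the thresholds and in the length `M ≤ N`
-/

set_option autoImplicit false

namespace Pool.Agent.Lib.MP391708.QPA.C

open Finset Filter Topology
open Pool.Agent.Lib.MP391708.QPA
open Pool.Agent.Lib.MP391708.QPA.H
open scoped Classical

noncomputable section

/-- `#{n ≤ M : vec_N (|n²+a|) ∈ E, λ(|n²+a|) = s}` -/
def cWM (N M : ℕ) (a : ℤ) (r : ℕ) (x : Fin r → ℝ) (E : Set (Fin r → ℕ)) (s : ℤ) : ℕ :=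
  ((Icc 1 M).filter (fun n : ℕ => vec N r x (val a n) ∈ E ∧
    ArithmeticFunction.liouville (val a n) = s)).card

/-- `#{m ≤ M² : vec_N m ∈ E}` -/
def cVM (N M r : ℕ) (x : Fin r → ℝ) (E : Set (Fin r → ℕ)) : ℕ :=
  ((Icc 1 (M ^ 2)).filter (fun m : ℕ => vec N r x m ∈ E)).card

/-- the law for all lengths `M ≤ N`, all thresholds `≥ δ`, all sets `E`, both signs -/
def SpecUNIM : Prop := ∀ (θ δ ε : ℝ) (r : ℕ), 5 / 6 < θ → 0 < δ → 0 < ε →
  ∃ N₀ : ℕ, ∀ N A : ℕ, N₀ ≤ N → (N : ℝ) ^ θ ≤ A → A ≤ N →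
  (((IA A).filter (fun a => ¬ ∀ M : ℕ, M ≤ N → ∀ (x : Fin r → ℝ), (∀ j, δ ≤ x j) →
    ∀ (E : Set (Fin r → ℕ)) (s : ℤ), (s = 1 ∨ s = -1) →
    |(cWM N M a r x E s : ℝ) - (cVM N M r x E : ℝ) / (2 * M)| ≤ ε * N)).card : ℝ) ≤ ε * A

namespace UNIMM

/-- change of the base of the thresholds -/
lemma vec_base {N M r : ℕ} {x : Fin r → ℝ} (hM : 2 ≤ M) (hMN : M ≤ N) (m : ℕ) :
    vec N r x m = vec M r (fun j => x j * (Real.log N / Real.log M)) m := by
  have hM1 : (1 : ℝ) < M := by exact_mod_cast (by omega : 1 < M)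
  have hN1 : (1 : ℝ) < N := by exact_mod_cast (by omega : 1 < N)
  have hlM : Real.log M ≠ 0 := (Real.log_pos hM1).ne'
  funext j
  unfold vec Cn
  have h : (M : ℝ) ^ (x j * (Real.log N / Real.log M)) = (N : ℝ) ^ (x j) := by
    rw [Real.rpow_def_of_pos (by linarith), Real.rpow_def_of_pos (by linarith)]
    congr 1
    field_simp
  rw [h]

lemma ratio_ge {N M : ℕ} (hM : 2 ≤ M) (hMN : M ≤ N) : 1 ≤ Real.log N / Real.log M := by
  have hM1 : (1 : ℝ) < M := by exact_mod_cast (by omega : 1 < M)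
  rw [one_le_div (Real.log_pos hM1)]
  exact Real.log_le_log (by linarith) (by exact_mod_cast hMN)

lemma cWM_le (N M : ℕ) (a : ℤ) (r : ℕ) (x : Fin r → ℝ) (E : Set (Fin r → ℕ)) (s : ℤ) :
    (cWM N M a r x E s : ℝ) ≤ M := by
  unfold cWM
  have := card_filter_le (Icc 1 M) (fun n : ℕ => vec N r x (val a n) ∈ E ∧
    ArithmeticFunction.liouville (val a n) = s)
  rw [Nat.card_Icc, Nat.add_sub_cancel] at this
  exact_mod_cast this

lemma cVM_le (N M r : ℕ) (x : Fin r → ℝ) (E : Set (Fin r → ℕ)) :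
    (cVM N M r x E : ℝ) ≤ (M : ℝ) ^ 2 := by
  unfold cVM
  have := card_filter_le (Icc 1 (M ^ 2)) (fun m : ℕ => vec N r x m ∈ E)
  rw [Nat.card_Icc, Nat.add_sub_cancel] at this
  exact_mod_cast this

lemma cWM_diff {N M M' : ℕ} (h : M' ≤ M) (a : ℤ) (r : ℕ) (x : Fin r → ℝ) (E : Set (Fin r → ℕ))
    (s : ℤ) : (cWM N M' a r x E s : ℝ) ≤ cWM N M a r x E s ∧
      (cWM N M a r x E s : ℝ) ≤ cWM N M' a r x E s + (M - M') := by
  unfold cWM
  constructor
  · apply Nat.cast_le.2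
    apply card_le_card
    exact filter_subset_filter _ (Icc_subset_Icc_right h)
  · have h1 : (Icc 1 M).filter (fun n : ℕ => vec N r x (val a n) ∈ E ∧
        ArithmeticFunction.liouville (val a n) = s) ⊆
        (Icc 1 M').filter (fun n : ℕ => vec N r x (val a n) ∈ E ∧
        ArithmeticFunction.liouville (val a n) = s) ∪ Ioc M' M := by
      intro n hn
      rw [mem_filter, mem_Icc] at hn
      rw [mem_union, mem_filter, mem_Icc, mem_Ioc]
      by_cases hn' : n ≤ M'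
      · exact Or.inl ⟨⟨hn.1.1, hn'⟩, hn.2⟩
      · exact Or.inr ⟨by omega, hn.1.2⟩
    have h2 := (card_le_card h1).trans (card_union_le _ _)
    rw [Nat.card_Ioc] at h2
    have h3 : (((Icc 1 M).filter (fun n : ℕ => vec N r x (val a n) ∈ E ∧
        ArithmeticFunction.liouville (val a n) = s)).card : ℝ) ≤
        (((Icc 1 M').filter (fun n : ℕ => vec N r x (val a n) ∈ E ∧
        ArithmeticFunction.liouville (val a n) = s)).card : ℝ) + ((M - M' : ℕ) : ℝ) := by
      exact_mod_cast h2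
    rwa [Nat.cast_sub h] at h3

lemma cVM_diff {N M M' : ℕ} (h : M' ≤ M) (r : ℕ) (x : Fin r → ℝ) (E : Set (Fin r → ℕ)) :
    (cVM N M' r x E : ℝ) ≤ cVM N M r x E ∧
      (cVM N M r x E : ℝ) ≤ cVM N M' r x E + ((M : ℝ) ^ 2 - (M' : ℝ) ^ 2) := by
  have hsq : M' ^ 2 ≤ M ^ 2 := Nat.pow_le_pow_left h 2
  unfold cVM
  constructor
  · apply Nat.cast_le.2
    apply card_le_card
    exact filter_subset_filter _ (Icc_subset_Icc_right hsq)
  · have h1 : (Icc 1 (M ^ 2)).filter (fun m : ℕ => vec N r x m ∈ E) ⊆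
        (Icc 1 (M' ^ 2)).filter (fun m : ℕ => vec N r x m ∈ E) ∪ Ioc (M' ^ 2) (M ^ 2) := by
      intro n hn
      rw [mem_filter, mem_Icc] at hn
      rw [mem_union, mem_filter, mem_Icc, mem_Ioc]
      by_cases hn' : n ≤ M' ^ 2
      · exact Or.inl ⟨⟨hn.1.1, hn'⟩, hn.2⟩
      · exact Or.inr ⟨by omega, hn.1.2⟩
    have h2 := (card_le_card h1).trans (card_union_le _ _)
    rw [Nat.card_Ioc] at h2
    have h3 : (((Icc 1 (M ^ 2)).filter (fun m : ℕ => vec N r x m ∈ E)).card : ℝ) ≤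
        (((Icc 1 (M' ^ 2)).filter (fun m : ℕ => vec N r x m ∈ E)).card : ℝ)
          + ((M ^ 2 - M' ^ 2 : ℕ) : ℝ) := by
      exact_mod_cast h2
    rw [Nat.cast_sub hsq] at h3
    push_cast at h3
    exact h3

/-- from a grid point `M'` to `M` -/
lemma step {N M M' : ℕ} (hM' : 1 ≤ M') (h : M' ≤ M) (a : ℤ) (r : ℕ) (x : Fin r → ℝ)
    (E : Set (Fin r → ℕ)) (s : ℤ) :
    |(cWM N M a r x E s : ℝ) - (cVM N M r x E : ℝ) / (2 * M)| ≤
      |(cWM N M' a r x E s : ℝ) - (cVM N M' r x E : ℝ) / (2 * M')| + 3 * ((M : ℝ) - M') := by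
  obtain ⟨h1, h2⟩ := cWM_diff (N := N) h a r x E s
  obtain ⟨h3, h4⟩ := cVM_diff (N := N) h r x E
  have h5 := cVM_le N M' r x E
  have hM'r : (1 : ℝ) ≤ M' := by exact_mod_cast hM'
  have hr : (M' : ℝ) ≤ M := by exact_mod_cast h
  have hM0 : (0 : ℝ) < M := by linarith
  have hM'0 : (0 : ℝ) < M' := by linarith
  set V := (cVM N M r x E : ℝ) with hV
  set V' := (cVM N M' r x E : ℝ) with hV'
  have hV0 : 0 ≤ V' := Nat.cast_nonneg _
  have e1 : V / (2 * M) ≤ V' / (2 * M') + ((M : ℝ) - M') := by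
    have h6 : V / (2 * M) ≤ (V' + ((M : ℝ) ^ 2 - (M' : ℝ) ^ 2)) / (2 * M) := by gcongr
    have h7 : (V' + ((M : ℝ) ^ 2 - (M' : ℝ) ^ 2)) / (2 * M) = V' / (2 * M)
        + ((M : ℝ) - M') * ((M + M') / (2 * M)) := by
      field_simp
      ring
    have h8 : V' / (2 * M) ≤ V' / (2 * M') := by gcongr
    have h9 : ((M : ℝ) + M') / (2 * M) ≤ 1 := by
      rw [div_le_one (by positivity)]
      linarith
    have h10 : ((M : ℝ) - M') * ((M + M') / (2 * M)) ≤ ((M : ℝ) - M') * 1 :=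
      mul_le_mul_of_nonneg_left h9 (by linarith)
    linarith
  have e2 : V' / (2 * M') - ((M : ℝ) - M') ≤ V / (2 * M) := by
    have h6 : V' / (2 * M) ≤ V / (2 * M) := by gcongr
    have h7 : V' / (2 * M') - V' / (2 * M) ≤ (M : ℝ) - M' := by
      have h8 : V' / (2 * M') - V' / (2 * M) = V' * ((M : ℝ) - M') / (2 * M * M') := by
        field_simp
      rw [h8, div_le_iff₀ (by positivity)]
      have h9 : V' * ((M : ℝ) - M') ≤ (M' : ℝ) ^ 2 * ((M : ℝ) - M') :=
        mul_le_mul_of_nonneg_right h5 (by linarith)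
      have h10 : (M' : ℝ) ^ 2 * ((M : ℝ) - M') ≤ ((M : ℝ) - M') * (2 * M * M') := by
        have h11 : (M' : ℝ) ^ 2 ≤ 2 * M * M' := by nlinarith
        nlinarith [mul_le_mul_of_nonneg_left h11 (show (0 : ℝ) ≤ (M : ℝ) - M' by linarith)]
      linarith
    linarith
  have g := abs_le.1 (le_refl |(cWM N M' a r x E s : ℝ) - V' / (2 * M')|)
  rw [abs_le]
  constructor <;> linarith [g.1, g.2]

/-- short lengths -/
lemma short {N M : ℕ} (a : ℤ) (r : ℕ) (x : Fin r → ℝ) (E : Set (Fin r → ℕ)) (s : ℤ) :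
    |(cWM N M a r x E s : ℝ) - (cVM N M r x E : ℝ) / (2 * M)| ≤ M := by
  rcases Nat.eq_zero_or_pos M with h | h
  · subst h
    have h1 : cWM N 0 a r x E s = 0 := by unfold cWM; simp
    have h2 : cVM N 0 r x E = 0 := by unfold cVM; simp
    rw [h1, h2]
    simp
  · have hM0 : (0 : ℝ) < M := by exact_mod_cast h
    have h1 := cWM_le N M a r x E s
    have h2 : (cVM N M r x E : ℝ) / (2 * M) ≤ M := by
      rw [div_le_iff₀ (by positivity)]
      have := cVM_le N M r x E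
      nlinarith
    have h3 : (0 : ℝ) ≤ (cVM N M r x E : ℝ) / (2 * M) := by positivity
    have h4 : (0 : ℝ) ≤ (cWM N M a r x E s : ℝ) := Nat.cast_nonneg _
    rw [abs_le]
    constructor <;> linarith

end UNIMM

open UNIMM in
theorem specUNIM (hU : SpecUNID) : SpecUNIM := by
  intro θ δ ε r hθ hδ hε
  obtain ⟨J, hJ⟩ := exists_nat_gt (max 1 (16 / ε))
  have hJ1' : (1 : ℝ) < J := (le_max_left _ _).trans_lt hJ
  have hJ1 : 1 ≤ J := by exact_mod_cast hJ1'.le
  have hJ0 : (0 : ℝ) < J := by linarith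
  have hJε : (1 : ℝ) / J ≤ ε / 16 := by
    have h1 : 16 / ε < J := (le_max_right _ _).trans_lt hJ
    rw [div_lt_iff₀ hε] at h1
    rw [div_le_div_iff₀ hJ0 (by norm_num)]
    linarith
  set ε₁ : ℝ := ε / (4 * J) with hε₁
  have hε₁0 : 0 < ε₁ := by positivity
  have hε₁1 : ε₁ ≤ ε / 4 := by
    rw [hε₁]
    apply div_le_div_of_nonneg_left hε.le (by norm_num)
    linarith
  obtain ⟨N₁, hN₁⟩ := hU θ δ ε₁ r (2 * J) hθ hδ hε₁0 (by omega)
  obtain ⟨N₂, hN₂⟩ := exists_nat_gt (16 / ε)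
  refine ⟨max (2 * J * (N₁ + 2)) N₂, fun N A hN hA1 hA2 => ?_⟩
  have hNa : 2 * J * (N₁ + 2) ≤ N := (le_max_left _ _).trans hN
  have hNb : N₂ ≤ N := (le_max_right _ _).trans hN
  have hNε : 1 ≤ ε / 16 * N := by
    have h1 : (N₂ : ℝ) ≤ N := by exact_mod_cast hNb
    have h2 : 16 / ε < N := hN₂.trans_le h1
    rw [div_lt_iff₀ hε] at h2
    linarith
  have hNpos : 0 < N := lt_of_lt_of_le (by positivity) hNa
  have hNr : (0 : ℝ) < N := by exact_mod_cast hNpos
  have hA0 : (0 : ℝ) ≤ A := Nat.cast_nonneg _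
  set g : ℕ → ℕ := fun j => j * N / J with hg
  have hgN : ∀ j ∈ Icc 1 J, g j ≤ N ∧ N ≤ 2 * J * g j ∧ N₁ ≤ g j ∧ 2 ≤ g j := by
    intro j hj
    rw [mem_Icc] at hj
    have h1 : g j ≤ N := by
      rw [hg]
      simp only
      rw [Nat.div_le_iff_le_mul_add_pred (by omega)]
      have h6 : j * N ≤ J * N := Nat.mul_le_mul_right _ hj.2
      omega
    have h2 : j * N < J * (g j + 1) := Nat.lt_mul_div_succ _ (by omega)
    have h3 : N ≤ j * N := Nat.le_mul_of_pos_left _ (by omega)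
    have h4 : N₁ + 2 ≤ g j := by
      by_contra hcon
      push Not at hcon
      have h5 : J * (g j + 1) ≤ J * (N₁ + 2) := Nat.mul_le_mul_left _ (by omega)
      have h6 : J * (N₁ + 2) ≤ 2 * J * (N₁ + 2) := Nat.mul_le_mul_right _ (by omega)
      omega
    refine ⟨h1, ?_, by omega, by omega⟩
    have h5 : J * (g j + 1) ≤ 2 * J * g j := by
      have : J * 1 ≤ J * g j := Nat.mul_le_mul_left _ (by omega)
      calc J * (g j + 1) = J * g j + J * 1 := by ring
        _ ≤ J * g j + J * g j := by omega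
        _ = 2 * J * g j := by ring
    omega
  set Bad : ℕ → Finset ℤ := fun j => (IA A).filter (fun a => ¬ ∀ (x : Fin r → ℝ), (∀ i, δ ≤ x i) →
    ∀ (E : Set (Fin r → ℕ)) (s : ℤ), (s = 1 ∨ s = -1) →
    |(cW (g j) a r x E s : ℝ) - (cV (g j) r x E : ℝ) / (2 * (g j : ℕ))| ≤ ε₁ * (g j : ℕ)) with hBad
  have hBadc : ∀ j ∈ Icc 1 J, ((Bad j).card : ℝ) ≤ ε₁ * A := by
    intro j hj
    obtain ⟨h1, h2, h3, h4⟩ := hgN j hj
    refine hN₁ (g j) A h3 (le_trans ?_ hA1) (hA2.trans h2)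
    exact Real.rpow_le_rpow (Nat.cast_nonneg _) (by exact_mod_cast h1) (by linarith)
  have hB : ((((Icc 1 J).biUnion Bad).card : ℕ) : ℝ) ≤ ε * A := by
    calc ((((Icc 1 J).biUnion Bad).card : ℕ) : ℝ) ≤ ∑ j ∈ Icc 1 J, ((Bad j).card : ℝ) := by
          exact_mod_cast card_biUnion_le
      _ ≤ ∑ j ∈ Icc 1 J, ε₁ * A := sum_le_sum hBadc
      _ = ε / 4 * A := by
          rw [sum_const, Nat.card_Icc, nsmul_eq_mul, Nat.add_sub_cancel, hε₁]
          field_simp
      _ ≤ ε * A := mul_le_mul_of_nonneg_right (by linarith) hA0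
  refine le_trans ?_ hB
  apply Nat.cast_le.2
  apply card_le_card
  intro a ha
  rw [mem_filter] at ha
  by_contra hcon
  apply ha.2
  intro M hM x hx E s hs
  rw [mem_biUnion] at hcon
  push Not at hcon
  have hgood : ∀ j ∈ Icc 1 J, |(cWM N (g j) a r x E s : ℝ) - (cVM N (g j) r x E : ℝ) / (2 * (g j : ℕ))|
      ≤ ε₁ * N := by
    intro j hj
    obtain ⟨h1, h2, h3, h4⟩ := hgN j hj
    have h5 := hcon j hj
    rw [hBad, mem_filter] at h5
    push Not at h5
    have hrat := ratio_ge h4 h1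
    have h6 := h5 ha.1 (fun i => x i * (Real.log N / Real.log (g j : ℕ))) (fun i => by
      have := hx i
      nlinarith) E s hs
    have h7 : cWM N (g j) a r x E s
        = cW (g j) a r (fun i => x i * (Real.log N / Real.log (g j : ℕ))) E s := by
      unfold cWM cW
      simp only [vec_base (x := x) h4 h1]
    have h8 : cVM N (g j) r x E = cV (g j) r (fun i => x i * (Real.log N / Real.log (g j : ℕ))) E := by
      unfold cVM cV
      simp only [vec_base (x := x) h4 h1]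
    rw [h7, h8]
    refine h6.trans ?_
    exact mul_le_mul_of_nonneg_left (by exact_mod_cast h1) hε₁0.le
  have hNJ : (N : ℝ) / J ≤ ε / 16 * N := by
    calc (N : ℝ) / J = 1 / J * N := by ring
      _ ≤ ε / 16 * N := mul_le_mul_of_nonneg_right hJε hNr.le
  set j : ℕ := M * J / N with hj
  have hj2 : M * J < N * (j + 1) := Nat.lt_mul_div_succ _ hNpos
  rcases Nat.eq_zero_or_pos j with h0 | hpos
  · -- short
    rw [h0] at hj2
    have h1 : (M : ℝ) * J < N := by
      have : M * J < N := by omega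
      exact_mod_cast this
    have h2 : (M : ℝ) ≤ N / J := by
      rw [le_div_iff₀ hJ0]
      exact h1.le
    refine (short a r x E s).trans ?_
    have : ε / 16 * N ≤ ε * N := by nlinarith
    linarith
  · have hjJ : j ≤ J := by
      rw [hj, Nat.div_le_iff_le_mul_add_pred hNpos]
      have : M * J ≤ N * J := Nat.mul_le_mul_right _ hM
      omega
    have hjm : j ∈ Icc 1 J := mem_Icc.2 ⟨hpos, hjJ⟩
    obtain ⟨h1, h2, h3, h4⟩ := hgN j hjm
    have hj1 : j * N ≤ M * J := Nat.div_mul_le_self _ _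
    have hxM : g j ≤ M := by
      rw [hg]
      simp only
      rw [Nat.div_le_iff_le_mul_add_pred (by omega)]
      have : J * M = M * J := Nat.mul_comm _ _
      omega
    have hxM2 : (M : ℝ) - (g j : ℕ) ≤ N / J + 1 := by
      have h1 : j * N < J * (g j + 1) := Nat.lt_mul_div_succ _ (by omega)
      have h2 : (j : ℝ) * N < J * (((g j : ℕ) : ℝ) + 1) := by exact_mod_cast h1
      have h3 : (M : ℝ) * J < N * ((j : ℝ) + 1) := by exact_mod_cast hj2
      have h4 : ((M : ℝ) - (g j : ℕ) - 1) * J ≤ N := by nlinarith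
      have h5 : (M : ℝ) - (g j : ℕ) - 1 ≤ N / J := by
        rw [le_div_iff₀ hJ0]
        exact h4
      linarith
    have h5 := step (N := N) (by omega : 1 ≤ g j) hxM a r x E s
    have h6 := hgood j hjm
    have h7 : ε₁ * N ≤ ε / 4 * N := mul_le_mul_of_nonneg_right hε₁1 hNr.le
    have h8 : ε / 16 * N = (ε * N) / 16 := by ring
    have h9 : ε / 4 * N = (ε * N) / 4 := by ring
    linarith

end

end Pool.Agent.Lib.MP391708.QPA.C
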