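import Pool.Agent.Lib.MP_391708_nt.QPA.C.AllD
import Pool.Agent.Lib.MP_391708_nt.QPA.C.UNIM
import Pool.Agent.Lib.MP_391708_nt.QPA.C.EXTV

/-!
# QPA phase 4: the final form of the joint law
-/

set_option autoImplicit false

namespace Pool.Agent.Lib.MP391708.QPA.C

open Pool.Agent.Lib.MP391708.QPA
open Pool.Agent.Lib.MP391708.QPA.H

/-- monotonicity of the number of exceptions, for all decidability instances -/
theorem card_mono (S : Finset ℤ) {p q : ℤ → Prop} {hp : DecidablePred p} {hq : DecidablePred q}
    (h : ∀ a ∈ S, p a → q a) : (@Finset.filter _ p hp S).card ≤ (@Finset.filter _ q hq S).card := by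
  refine Finset.card_le_card (fun a ha => ?_)
  rw [Finset.mem_filter] at ha ⊢
  exact ⟨ha.1, h a ha.1 ha.2⟩

/-- the joint law uniformly in `M ≤ N` and the thresholds -/
theorem allUNIM : SpecUNIM :=
  specUNIM (specUNID (specEXTV (specFINDK allCHWD allPWIN allPWINM allSLOW)) specMER)

end Pool.Agent.Lib.MP391708.QPA.C
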