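import Pool.Agent.Lib.MP_391708_nt.QPA.BasM
import Pool.Agent.Lib.MP_391708_nt.QPA.H.SpecH
import Pool.Agent.Lib.MP_391708_nt.QPA.Mta
import Pool.Agent.Lib.MP_391708_nt.QPA.SHM

/-!
# QPA phase 4 (joint law), module MTAD: the main term for the function `flat` (no sieve weight)
-/

set_option autoImplicit false

namespace Pool.Agent.Lib.MP391708.QPA.C

open Finset Filter Topology
open Pool.Agent.Lib.MP391708.QPA
open Pool.Agent.Lib.MP391708.QPA.H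
open scoped Classical

namespace BLKDM

/-- the function with the value `Dav β i` on the `i`-th piece -/
noncomputable def flat (L η : ℝ) (J : ℕ) (β : ℕ → ℝ) (l : ℕ) : ℝ :=
  ∑ i ∈ range J, if l ∈ pc L η J i then Dav L η J β i else 0

/-- MTAH without the hypothesis `2 ≤ w` -/
theorem mta_gen (hC : SpecRHOC) (hM : SpecRHOM) (hA : SpecRAV) (θ e e0 B κ η : ℝ) (w J : ℕ)
    (hθ : 1 / 2 < θ) (he : 0 < e) (he0 : 0 < e0) (hB : 0 < B) (hκ : 0 < κ) (hη : 0 < η)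
    (hη4 : η ≤ 1 / 4) (hJ : 1 ≤ J) :
    ∃ N₀ : ℕ, ∀ N A : ℕ, N₀ ≤ N → Adm θ N A → ∀ K L : ℝ,
    (N : ℝ) ^ (1 / 2 : ℝ) ≤ K → K ≤ (N : ℝ) ^ (1 - e) → (N : ℝ) ^ 2 / 2 ≤ K * L →
    K * L ≤ 5 * (N : ℝ) ^ 2 → ∀ α β : ℕ → ℝ, (∀ k, |α k| ≤ B * rInd ((N : ℝ) ^ e0) k) →
    (∀ k, α k ≠ 0 → K < (k : ℝ) ∧ (k : ℝ) ≤ 5 / 4 * K) → (∀ l, |β l| ≤ B) →
    ∑ a ∈ IA A, |bil (8 * N) a α (sharp w L η J β)
        - Gw w a * ∑ i ∈ range J, Dav L η J β i * ∑ k ∈ Ioc ⌊K⌋₊ ⌊5 / 4 * K⌋₊, α k * ((rho a k : ℝ) / k)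
          * (√(k * (L * (1 + η * (i + 1) / J))) - √(k * (L * (1 + η * i / J))))|
      ≤ κ * A * N / (Real.log N) ^ 2 := by
  set ee : ℝ := min (θ - 1 / 2) (1 / 10) with hee
  have hee0 : 0 < ee := lt_min (by linarith) (by norm_num)
  have hee1 : ee ≤ θ - 1 / 2 := min_le_left _ _
  have hee2 : ee ≤ 1 / 10 := min_le_right _ _
  obtain ⟨C, hC0, hCr⟩ := hA ee hee0
  have hV := Mta.Vw_pos w
  have hE := Mta.E_one_le w
  have hJ0 : (0 : ℝ) < J := by exact_mod_cast hJ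
  set M : ℝ := 2 * B ^ 2 * Vw w * (Mta.E w + 5) * J * (3 + 2 * C) * (5 / 4) with hMdef
  have hM0 : 0 < M := by positivity
  have lim1 : Tendsto (fun N : ℕ => (N : ℝ) ^ e0) atTop atTop :=
    (tendsto_rpow_atTop he0).comp tendsto_natCast_atTop_atTop
  have lim2 : ∀ᶠ N : ℕ in atTop, Real.log N ≤ (N : ℝ) / 8 := by
    have h1 := (isLittleO_log_rpow_atTop (r := 1) one_pos).bound
      (show (0 : ℝ) < 1 / 8 by norm_num)
    have h2 : ∀ᶠ x : ℝ in atTop, Real.log x ≤ x / 8 := by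
      filter_upwards [h1, eventually_ge_atTop 1] with x a1 a2
      rw [Real.norm_of_nonneg (Real.log_nonneg a2), Real.rpow_one, Real.norm_of_nonneg (by linarith)]
        at a1
      linarith
    exact tendsto_natCast_atTop_atTop.eventually h2
  obtain ⟨N₀, hN₀⟩ := eventually_atTop.1 (((((lim1.eventually_ge_atTop ((w : ℝ) + 1)).and
    lim2).and (Mob.log_pow_small he (show 0 < κ / M by positivity))).and
    (tendsto_natCast_atTop_atTop.eventually_ge_atTop (2 * J / η : ℝ))).and (eventually_ge_atTop 2))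
  refine ⟨N₀, fun N A hN hAdm K L hK1 hK2 hKL1 hKL2 α β hα hαs hβ => ?_⟩
  obtain ⟨⟨⟨⟨hz, hlog⟩, hsmall⟩, hNJ⟩, hN2⟩ := hN₀ N hN
  have hNr : (2 : ℝ) ≤ N := by exact_mod_cast hN2
  have hN0 : (0 : ℝ) < N := by linarith
  have hlog0 : 0 < Real.log N := Real.log_pos (by linarith)
  have hK0 : 0 < K := lt_of_lt_of_le (by positivity) hK1
  have hL0 : 0 < L := by
    by_contra hcon
    rw [not_lt] at hcon
    have : K * L ≤ 0 := mul_nonpos_of_nonneg_of_nonpos hK0.le hcon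
    have : 0 < (N : ℝ) ^ 2 / 2 := by positivity
    linarith
  have hKN : K ≤ N := by
    refine hK2.trans ?_
    calc (N : ℝ) ^ (1 - e) ≤ (N : ℝ) ^ (1 : ℝ) :=
          Real.rpow_le_rpow_of_exponent_le (by linarith) (by linarith)
      _ = N := Real.rpow_one _
  have hLN : (N : ℝ) / 2 ≤ L := by
    have h1 : (N : ℝ) ^ 2 / 2 ≤ N * L := hKL1.trans (mul_le_mul_of_nonneg_right hKN hL0.le)
    nlinarith
  have hLJ : 1 ≤ η * L / J := by
    rw [le_div_iff₀ hJ0, one_mul]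
    rw [div_le_iff₀ hη] at hNJ
    nlinarith
  have hA1 : (1 : ℝ) ≤ A := (Real.one_le_rpow (by linarith) (by linarith)).trans hAdm.1
  have hA8 : (A : ℝ) ≤ (N : ℝ) ^ 2 / 8 := by
    refine hAdm.2.trans ?_
    nlinarith
  have hAN : 4 * (A : ℝ) / N ≤ 4 * Real.log N := by
    rw [div_le_iff₀ hN0]
    have := hAdm.2
    linarith
  have hA06 : (N : ℝ) ^ (1 / 2 + ee) ≤ A :=
    (Real.rpow_le_rpow_of_exponent_le (by linarith) (by linarith)).trans hAdm.1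
  have hone := Mta.hone hC hM hη hη4 hB hJ hz hNr hK0 hL0 hKL1 hKL2 hA8 hAN α hα hαs
  have hDav : ∀ i, |Dav L η J β i| ≤ 2 * B := Mta.abs_Dav_le hL0 hη hB.le hJ hLJ β hβ
  have ha1 : ∀ a ∈ IA A, |bil (8 * N) a α (sharp w L η J β)
      - Gw w a * ∑ i ∈ range J, Dav L η J β i * ∑ k ∈ Ioc ⌊K⌋₊ ⌊5 / 4 * K⌋₊, α k * ((rho a k : ℝ) / k)
        * (√(k * (L * (1 + η * (i + 1) / J))) - √(k * (L * (1 + η * i / J))))|
      ≤ ∑ k ∈ Ioc ⌊K⌋₊ ⌊5 / 4 * K⌋₊,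
        2 * B * J * (B * Vw w * (Mta.E w + 5) * (1 + Real.log N)) * (rho a k : ℝ) := by
    intro a ha
    rw [Mta.bil_eq hL0.le hη.le hK0.le N a w J α β hαs]
    have e1 : Gw w a * ∑ i ∈ range J, Dav L η J β i * ∑ k ∈ Ioc ⌊K⌋₊ ⌊5 / 4 * K⌋₊,
        α k * ((rho a k : ℝ) / k)
          * (√(k * (L * (1 + η * (i + 1) / J))) - √(k * (L * (1 + η * i / J)))) =
        ∑ i ∈ range J, Dav L η J β i * ∑ k ∈ Ioc ⌊K⌋₊ ⌊5 / 4 * K⌋₊, Gw w a * (α k * ((rho a k : ℝ) / k)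
          * (√(k * (L * (1 + η * (i + 1) / J))) - √(k * (L * (1 + η * i / J))))) := by
      rw [mul_sum]
      refine sum_congr rfl fun i _ => ?_
      rw [← mul_sum]
      ring
    rw [e1, ← sum_sub_distrib]
    have e2 : ∀ i ∈ range J, |Dav L η J β i * ∑ k ∈ Ioc ⌊K⌋₊ ⌊5 / 4 * K⌋₊, α k *
          (Vw w * Mta.Cn N a w k (Mta.xl L η J i) (Mta.xr L η J i)) -
        Dav L η J β i * ∑ k ∈ Ioc ⌊K⌋₊ ⌊5 / 4 * K⌋₊, Gw w a * (α k * ((rho a k : ℝ) / k)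
          * (√(k * (L * (1 + η * (i + 1) / J))) - √(k * (L * (1 + η * i / J)))))| ≤
        2 * B * ∑ k ∈ Ioc ⌊K⌋₊ ⌊5 / 4 * K⌋₊,
          B * Vw w * (Mta.E w + 5) * (1 + Real.log N) * rho a k := by
      intro i hi
      rw [← mul_sub, ← sum_sub_distrib, abs_mul]
      apply mul_le_mul (hDav i) _ (abs_nonneg _) (by positivity)
      exact (abs_sum_le_sum_abs _ _).trans (sum_le_sum fun k hk => hone a ha i hi k hk)
    refine (abs_sum_le_sum_abs _ _).trans ((sum_le_sum e2).trans (le_of_eq ?_))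
    rw [sum_const, card_range, nsmul_eq_mul, mul_sum, mul_sum]
    refine sum_congr rfl fun k _ => ?_
    ring
  refine (sum_le_sum ha1).trans ?_
  rw [sum_comm]
  have hk2 : ∀ k ∈ Ioc ⌊K⌋₊ ⌊5 / 4 * K⌋₊, ∑ a ∈ IA A,
      2 * B * J * (B * Vw w * (Mta.E w + 5) * (1 + Real.log N)) * (rho a k : ℝ) ≤
      2 * B * J * (B * Vw w * (Mta.E w + 5) * (1 + Real.log N)) * ((3 + 2 * C) * A) := by
    intro k hk
    rw [mem_Ioc] at hk
    rw [← mul_sum]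
    apply mul_le_mul_of_nonneg_left _ (by positivity)
    have hk1 : 1 ≤ k := by omega
    have h1 := (abs_le.1 (hCr k A hk1)).2
    have hkK : (k : ℝ) ≤ 5 / 4 * K := (Nat.le_floor_iff (by positivity)).1 hk.2
    have h2 : (k : ℝ) ^ (1 / 2 + ee) ≤ 2 * A := by
      calc (k : ℝ) ^ (1 / 2 + ee) ≤ (2 * N : ℝ) ^ (1 / 2 + ee) :=
            Real.rpow_le_rpow (Nat.cast_nonneg _) (by linarith) (by linarith)
        _ = (2 : ℝ) ^ (1 / 2 + ee) * (N : ℝ) ^ (1 / 2 + ee) :=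
            Real.mul_rpow (by norm_num) hN0.le
        _ ≤ 2 * A := by
            apply mul_le_mul _ hA06 (by positivity) (by norm_num)
            calc (2 : ℝ) ^ (1 / 2 + ee) ≤ (2 : ℝ) ^ (1 : ℝ) :=
                  Real.rpow_le_rpow_of_exponent_le (by norm_num) (by linarith)
              _ = 2 := Real.rpow_one _
    have h3 := mul_le_mul_of_nonneg_left h2 hC0.le
    linarith
  refine (sum_le_sum hk2).trans ?_
  rw [sum_const, nsmul_eq_mul]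
  have hcard : ((Ioc ⌊K⌋₊ ⌊5 / 4 * K⌋₊).card : ℝ) ≤ 5 / 4 * K := by
    rw [Nat.card_Ioc]
    calc ((⌊5 / 4 * K⌋₊ - ⌊K⌋₊ : ℕ) : ℝ) ≤ (⌊5 / 4 * K⌋₊ : ℝ) := by
          exact_mod_cast Nat.sub_le _ _
      _ ≤ _ := Nat.floor_le (by positivity)
  have hNe : (N : ℝ) ^ (1 - e) = N * (N : ℝ) ^ (-e) := by
    rw [sub_eq_add_neg, Real.rpow_add hN0, Real.rpow_one]
  have hNe0 : 0 < (N : ℝ) ^ (-e) := by positivity
  calc ((Ioc ⌊K⌋₊ ⌊5 / 4 * K⌋₊).card : ℝ) *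
        (2 * B * J * (B * Vw w * (Mta.E w + 5) * (1 + Real.log N)) * ((3 + 2 * C) * A))
      ≤ (5 / 4 * (N * (N : ℝ) ^ (-e))) *
        (2 * B * J * (B * Vw w * (Mta.E w + 5) * (1 + Real.log N)) * ((3 + 2 * C) * A)) := by
        apply mul_le_mul_of_nonneg_right _ (by positivity)
        rw [← hNe]
        linarith
    _ = M * (1 + Real.log N) * (N : ℝ) ^ (-e) * (A * N) := by
        rw [hMdef]
        ring
    _ ≤ κ / (Real.log N) ^ 2 * (A * N) := by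
        apply mul_le_mul_of_nonneg_right _ (by positivity)
        rw [le_div_iff₀ (by positivity)]
        have h1 : (1 + Real.log N) * (Real.log N) ^ 2 ≤ (1 + Real.log N) ^ 4 := by
          have h2 : (Real.log N) ^ 2 ≤ (1 + Real.log N) ^ 2 :=
            pow_le_pow_left₀ hlog0.le (by linarith) 2
          have h3 : (1 + Real.log N) ≤ (1 + Real.log N) ^ 2 := by nlinarith
          calc (1 + Real.log N) * (Real.log N) ^ 2 ≤ (1 + Real.log N) ^ 2 * (1 + Real.log N) ^ 2 :=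
                mul_le_mul h3 h2 (by positivity) (by positivity)
            _ = _ := by ring
        calc M * (1 + Real.log N) * (N : ℝ) ^ (-e) * (Real.log N) ^ 2
            = M * (((1 + Real.log N) * (Real.log N) ^ 2) * (N : ℝ) ^ (-e)) := by ring
          _ ≤ M * ((1 + Real.log N) ^ 4 * (N : ℝ) ^ (-e)) := by
              apply mul_le_mul_of_nonneg_left _ hM0.le
              exact mul_le_mul_of_nonneg_right h1 hNe0.le
          _ ≤ M * (κ / M) := mul_le_mul_of_nonneg_left hsmall hM0.le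
          _ = κ := by field_simp
    _ = _ := by ring


lemma PB_zero : PB (((0 : ℕ) : ℝ) + 1) = ∅ := by
  rw [BasM.PB_eq, filter_eq_empty_iff]
  intro x hx
  have h0 : x = 0 := by
    rw [mem_range] at hx
    omega
  subst h0
  exact Nat.not_prime_zero

lemma Vw_zero : Vw 0 = 1 := by
  unfold Vw
  rw [PB_zero, prod_empty]

lemma Gw_zero (a : ℤ) : Gw 0 a = 1 := by
  unfold Gw
  rw [PB_zero, prod_empty]

lemma rInd_one' (l : ℕ) : rInd (((0 : ℕ) : ℝ) + 1) l = 1 := by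
  refine BasM.rInd_of fun p hp _ => ?_
  have : (1 : ℝ) ≤ p := by exact_mod_cast hp.one_le
  simpa using this

lemma sharp_zero' (L η : ℝ) (J : ℕ) (β : ℕ → ℝ) : sharp 0 L η J β = flat L η J β := by
  funext l
  unfold sharp flat
  refine sum_congr rfl fun i _ => ?_
  rw [Vw_zero, rInd_one', mul_one, mul_one]

/-- the main term for `flat` -/
theorem mtad (hC : SpecRHOC) (hM : SpecRHOM) (hA : SpecRAV) (θ e e0 B κ η : ℝ) (J : ℕ)
    (hθ : 1 / 2 < θ) (he : 0 < e) (he0 : 0 < e0) (hB : 0 < B) (hκ : 0 < κ) (hη : 0 < η)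
    (hη4 : η ≤ 1 / 4) (hJ : 1 ≤ J) :
    ∃ N₀ : ℕ, ∀ N A : ℕ, N₀ ≤ N → Adm θ N A → ∀ K L : ℝ,
    (N : ℝ) ^ (1 / 2 : ℝ) ≤ K → K ≤ (N : ℝ) ^ (1 - e) → (N : ℝ) ^ 2 / 2 ≤ K * L →
    K * L ≤ 5 * (N : ℝ) ^ 2 → ∀ α β : ℕ → ℝ, (∀ k, |α k| ≤ B * rInd ((N : ℝ) ^ e0) k) →
    (∀ k, α k ≠ 0 → K < (k : ℝ) ∧ (k : ℝ) ≤ 5 / 4 * K) → (∀ l, |β l| ≤ B) →
    ∑ a ∈ IA A, |bil (8 * N) a α (flat L η J β)
        - ∑ i ∈ range J, Dav L η J β i * ∑ k ∈ Ioc ⌊K⌋₊ ⌊5 / 4 * K⌋₊, α k * ((rho a k : ℝ) / k)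
          * (√(k * (L * (1 + η * (i + 1) / J))) - √(k * (L * (1 + η * i / J))))|
      ≤ κ * A * N / (Real.log N) ^ 2 := by
  obtain ⟨N₀, h⟩ := mta_gen hC hM hA θ e e0 B κ η 0 J hθ he he0 hB hκ hη hη4 hJ
  refine ⟨N₀, fun N A hN hA' K L h1 h2 h3 h4 α β h5 h6 h7 => ?_⟩
  have h8 := h N A hN hA' K L h1 h2 h3 h4 α β h5 h6 h7
  simp only [sharp_zero', Gw_zero, one_mul] at h8
  exact h8

end BLKDM

end Pool.Agent.Lib.MP391708.QPA.C
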