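import Pool.Agent.Lib.MP_391708_nt.QPA.C.SpecD
import Pool.Agent.Lib.MP_391708_nt.QPA.C.BLKC
import Pool.Agent.Lib.MP_391708_nt.QPA.C.MTAD
import Pool.Agent.Lib.MP_391708_nt.QPA.BLK2
import Pool.Agent.Lib.MP_391708_nt.QPA.Bt

/-!
# QPA/C, module BLKD, first part: class sums of `β - flat β`, Type II
-/

set_option autoImplicit false

namespace Pool.Agent.Lib.MP391708.QPA.C

open Finset Filter Topology
open Pool.Agent.Lib.MP391708.QPA
open Pool.Agent.Lib.MP391708.QPA.H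
open scoped Classical

namespace BLKDM

open BasM SHM

/-! ### the convolution with the indicator of the smooth numbers -/

lemma ism_nonneg (z S : ℝ) (s : ℕ) : 0 ≤ ism z S s := by
  unfold ism; split_ifs <;> norm_num

lemma ism_le_one (z S : ℝ) (s : ℕ) : ism z S s ≤ 1 := by
  unfold ism; split_ifs <;> norm_num

lemma convi_nonneg (hFFB : SpecFFB) {e0 : ℝ} (he0 : 0 < e0) {Q : ℕ} (hQ : 1 ≤ Q) {c : Multiset ℕ}
    (hc : ∀ i ∈ c, Q ≤ i) {N : ℕ} (hN : 2 ≤ N) (S : ℝ) (m : ℕ) :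
    0 ≤ conv (fun m => FF N (e0 / Q) c m) (ism ((N : ℝ) ^ e0) S) m :=
  sum_nonneg fun k _ => mul_nonneg (FF_facts hFFB he0 hQ hc hN k).1 (ism_nonneg _ _ _)

lemma convi_le (hFFB : SpecFFB) {e0 : ℝ} (he0 : 0 < e0) {Q : ℕ} (hQ : 1 ≤ Q) {c : Multiset ℕ}
    (hc : ∀ i ∈ c, Q ≤ i) {N : ℕ} (hN : 2 ≤ N) (S : ℝ) (m : ℕ) :
    conv (fun m => FF N (e0 / Q) c m) (ism ((N : ℝ) ^ e0) S) m ≤
      ((Multiset.card c).factorial : ℝ) := by
  have hterm : ∀ k, FF N (e0 / Q) c k * ism ((N : ℝ) ^ e0) S (m / k) ≤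
      ((Multiset.card c).factorial : ℝ) := by
    intro k
    obtain ⟨h1, h2⟩ := FF_facts hFFB he0 hQ hc hN k
    have h3 := rInd_le_one ((N : ℝ) ^ e0) k
    have h4 : (0 : ℝ) ≤ ((Multiset.card c).factorial : ℝ) := by positivity
    calc FF N (e0 / Q) c k * ism ((N : ℝ) ^ e0) S (m / k)
        ≤ ((Multiset.card c).factorial : ℝ) * 1 :=
          mul_le_mul (h2.trans (by nlinarith)) (ism_le_one _ _ _) (ism_nonneg _ _ _) h4
      _ = _ := mul_one _
  unfold conv
  by_cases hex : ∃ k ∈ m.divisors, FF N (e0 / Q) c k * ism ((N : ℝ) ^ e0) S (m / k) ≠ 0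
  · obtain ⟨k, hk, hk0⟩ := hex
    rw [sum_eq_single_of_mem k hk]
    · exact hterm k
    · intro k' hk' hne
      by_contra h0
      apply hne
      have hm : m ≠ 0 := (Nat.mem_divisors.1 hk).2
      have nz : ∀ j, FF N (e0 / Q) c j * ism ((N : ℝ) ^ e0) S (m / j) ≠ 0 →
          Rough ((N : ℝ) ^ e0) j ∧ Smooth ((N : ℝ) ^ e0) (m / j) := by
        intro j hj
        obtain ⟨h1, h2⟩ := FF_facts hFFB he0 hQ hc hN j
        constructor
        · by_contra hr
          have : rInd ((N : ℝ) ^ e0) j = 0 := by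
            unfold rInd
            rw [if_neg hr]
          rw [this, mul_zero] at h2
          exact hj (by rw [le_antisymm h2 h1, zero_mul])
        · by_contra hs
          apply hj
          unfold ism
          rw [if_neg (fun h => hs h.2.2), mul_zero]
      exact BLKCM.rough_unique hm (Nat.mem_divisors.1 hk').1 (Nat.mem_divisors.1 hk).1 (nz k' h0).1
        (nz k hk0).1 (nz k' h0).2 (nz k hk0).2
  · push Not at hex
    rw [sum_eq_zero hex]
    positivity

/-! ### residue classes on the pieces -/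

/-- a residue class in an interval -/
lemma card_mod {a b r c : ℕ} (hr : 1 ≤ r) (hc : c < r) (hab : a ≤ b) :
    |(((Ioc a b).filter (fun u => u % r = c)).card : ℝ) - ((b : ℝ) - a) / r| ≤ 1 := by
  obtain ⟨H, rfl⟩ := Nat.exists_eq_add_of_le hab
  have h := BT.count_crt a H r c 1 hr one_pos hc (Nat.coprime_one_left r)
  have h1 : (Ioc a (a + H)).filter (fun u => u % r = c ∧ 1 ∣ u)
      = (Ioc a (a + H)).filter (fun u => u % r = c) :=
    filter_congr fun u _ => ⟨fun h => h.1, fun h => ⟨h, one_dvd _⟩⟩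
  rw [h1] at h
  push_cast at h ⊢
  rw [one_mul] at h
  have h2 : ((a : ℝ) + H - a) / r = (H : ℝ) / r := by ring
  rw [h2]
  exact h

/-- one complete piece -/
lemma piece_full {β : ℕ → ℝ} {a b r c : ℕ} {p B δ : ℝ} (hr : 1 ≤ r) (hc : c < r) (hab : a ≤ b)
    (hp : 1 ≤ p) (hbp : |((b : ℝ) - a) - p| ≤ 1) (hB : 0 ≤ B) (hβ : ∀ u, |β u| ≤ B)
    (hδ : |∑ u ∈ (Ioc a b).filter (fun u => u % r = c), β u - (∑ u ∈ Ioc a b, β u) / r| ≤ δ) :
    |∑ u ∈ (Ioc a b).filter (fun u => u % r = c), (β u - (∑ u ∈ Ioc a b, β u) / p)|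
      ≤ δ + 4 * B := by
  set S := ∑ u ∈ Ioc a b, β u with hS
  set n : ℝ := (((Ioc a b).filter (fun u => u % r = c)).card : ℝ) with hn
  have hp0 : 0 < p := by linarith
  have hr0 : (1 : ℝ) ≤ r := by exact_mod_cast hr
  have hSB : |S / p| ≤ 2 * B := by
    rw [abs_div, abs_of_pos hp0, div_le_iff₀ hp0]
    calc |S| ≤ ∑ u ∈ Ioc a b, |β u| := abs_sum_le_sum_abs _ _
      _ ≤ ∑ u ∈ Ioc a b, B := sum_le_sum fun u _ => hβ u
      _ = ((b : ℝ) - a) * B := by
          rw [sum_const, Nat.card_Ioc, nsmul_eq_mul, Nat.cast_sub hab]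
      _ ≤ (2 * p) * B := by
          apply mul_le_mul_of_nonneg_right _ hB
          have := (abs_le.1 hbp).2
          linarith
      _ = 2 * B * p := by ring
  have h1 := card_mod hr hc hab
  rw [← hn] at h1
  have h2 : |p / r - n| ≤ 2 := by
    have h3 : |p / r - ((b : ℝ) - a) / r| ≤ 1 := by
      rw [← sub_div, abs_div, abs_of_pos (by linarith : (0 : ℝ) < r), abs_sub_comm]
      exact (div_le_self (abs_nonneg _) hr0).trans hbp
    have h4 : p / r - n = (p / r - ((b : ℝ) - a) / r) - (n - ((b : ℝ) - a) / r) := by ring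
    rw [h4]
    refine (abs_sub _ _).trans ?_
    linarith
  rw [sum_sub_distrib, sum_const, nsmul_eq_mul, ← hn]
  have h5 : ∑ u ∈ (Ioc a b).filter (fun u => u % r = c), β u - n * (S / p)
      = (∑ u ∈ (Ioc a b).filter (fun u => u % r = c), β u - S / r) + S / p * (p / r - n) := by
    field_simp
    ring
  rw [h5]
  refine (abs_add_le _ _).trans (add_le_add hδ ?_)
  rw [abs_mul]
  calc |S / p| * |p / r - n| ≤ (2 * B) * 2 := mul_le_mul hSB h2 (abs_nonneg _) (by positivity)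
    _ = 4 * B := by ring

lemma flat_eq {L η : ℝ} {J : ℕ} {β : ℕ → ℝ} (hL : 0 ≤ L) (hη : 0 ≤ η) {i l : ℕ} (hi : i < J)
    (hl : l ∈ pc L η J i) : flat L η J β l = Dav L η J β i := by
  unfold flat
  rw [sum_eq_single_of_mem i (mem_range.2 hi), if_pos hl]
  intro j _ hij
  rw [if_neg]
  exact fun h => hij (BLK2.pc_unique hL hη h hl)

lemma flat_zero {L η : ℝ} {J : ℕ} {β : ℕ → ℝ} {l : ℕ} (h : ∀ i < J, l ∉ pc L η J i) :
    flat L η J β l = 0 := by
  unfold flat
  exact sum_eq_zero fun i hi => if_neg (h i (mem_range.1 hi))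

lemma flat_abs {L η B : ℝ} {J : ℕ} {β : ℕ → ℝ} (hL : 0 < L) (hη : 0 < η) (hB : 0 ≤ B) (hJ : 1 ≤ J)
    (hp : 1 ≤ η * L / J) (hβ : ∀ l, |β l| ≤ B) (l : ℕ) : |flat L η J β l| ≤ 2 * B := by
  by_cases h : ∃ i < J, l ∈ pc L η J i
  · obtain ⟨i, hi, hl⟩ := h
    rw [flat_eq hL.le hη.le hi hl]
    exact Mta.abs_Dav_le hL hη hB hJ hp β hβ i
  · push Not at h
    rw [flat_zero h, abs_zero]
    positivity

/-- the class sums of `β - flat β` -/
lemma flat_class {β : ℕ → ℝ} {L η B δ : ℝ} {J r c x y : ℕ} (hL : 0 < L) (hη : 0 < η) (hJ : 1 ≤ J)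
    (hp : 1 ≤ η * L / J) (hr : 1 ≤ r) (hc : c < r) (hB : 0 ≤ B) (hδ0 : 0 ≤ δ)
    (hβ : ∀ u, |β u| ≤ B)
    (hsupp : ∀ u, β u ≠ 0 → L < (u : ℝ) ∧ (u : ℝ) ≤ (1 + η) * L)
    (hδ : ∀ i < J, |∑ u ∈ (pc L η J i).filter (fun u => u % r = c), β u
      - (∑ u ∈ pc L η J i, β u) / r| ≤ δ) :
    |∑ u ∈ (Ioc x y).filter (fun u => u % r = c), (β u - flat L η J β u)|
      ≤ J * (δ + 4 * B) + 2 * (3 * B * (η * L / J + 1)) := by
  set p : ℝ := η * L / J with hpdef
  set E : ℝ := 3 * B * (p + 1) with hE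
  have hE0 : 0 ≤ E := by rw [hE]; positivity
  set g : ℕ → ℝ := fun u => if x < u ∧ u ≤ y ∧ u % r = c then β u - flat L η J β u else 0 with hg
  have hb3 : ∀ u, |β u - flat L η J β u| ≤ 3 * B := fun u =>
    (abs_sub _ _).trans (by linarith [hβ u, flat_abs hL hη hB hJ hp hβ u])
  have hout : ∀ u, u ∉ Ioc ⌊L⌋₊ ⌊(1 + η) * L⌋₊ → β u - flat L η J β u = 0 := by
    intro u hu
    have h1 : β u = 0 := by
      by_contra h
      obtain ⟨h2, h3⟩ := hsupp u h
      apply hu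
      rw [mem_Ioc]
      exact ⟨(Nat.floor_lt hL.le).2 h2, Nat.le_floor h3⟩
    have h2 : flat L η J β u = 0 := by
      refine flat_zero fun i hi hl => hu ?_
      obtain ⟨h2, h3⟩ := BLK2.pc_range hL.le hη.le hJ hi hl
      rw [mem_Ioc]
      exact ⟨(Nat.floor_lt hL.le).2 h2, Nat.le_floor h3⟩
    rw [h1, h2, sub_zero]
  have h1 : ∑ u ∈ (Ioc x y).filter (fun u => u % r = c), (β u - flat L η J β u)
      = ∑ u ∈ Ioc ⌊L⌋₊ ⌊(1 + η) * L⌋₊, g u := by
    rw [hg, ← sum_filter]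
    symm
    apply sum_subset
    · intro u hu
      rw [mem_filter] at hu ⊢
      rw [mem_Ioc]
      exact ⟨⟨hu.2.1, hu.2.2.1⟩, hu.2.2.2⟩
    · intro u hu hu2
      rw [mem_filter, mem_Ioc] at hu
      rw [mem_filter] at hu2
      apply hout
      intro h3
      exact hu2 ⟨h3, hu.1.1, hu.1.2, hu.2⟩
  rw [h1, ← sum_pc hL.le hη.le hJ]
  refine (abs_sum_le_sum_abs _ _).trans ?_
  have hone : ∀ i ∈ range J, |∑ u ∈ pc L η J i, g u| ≤ (δ + 4 * B)
      + ((if x ∈ pc L η J i then E else 0) + (if y ∈ pc L η J i then E else 0)) := by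
    intro i hi
    rw [mem_range] at hi
    have hif : ∀ v : ℕ, 0 ≤ (if v ∈ pc L η J i then E else 0) := fun v => by
      split_ifs
      · exact hE0
      · exact le_rfl
    have hpc := pc_eq L η J i
    have hxx : xx L η J (i + 1) = xx L η J i + p := xx_succ L η J i hJ
    have hx0 : 0 ≤ xx L η J i := by unfold xx; positivity
    have hx1 : 0 ≤ xx L η J (i + 1) := by rw [hxx]; linarith
    have hab : ⌊xx L η J i⌋₊ ≤ ⌊xx L η J (i + 1)⌋₊ := Nat.floor_mono (by rw [hxx]; linarith)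
    have hbp : |((⌊xx L η J (i + 1)⌋₊ : ℝ) - ⌊xx L η J i⌋₊) - p| ≤ 1 := by
      have a1 := Nat.floor_le hx0
      have a2 := Nat.lt_floor_add_one (xx L η J i)
      have a3 := Nat.floor_le hx1
      have a4 := Nat.lt_floor_add_one (xx L η J (i + 1))
      rw [abs_le]
      constructor <;> linarith
    by_cases hfull : ∀ u ∈ pc L η J i, x < u ∧ u ≤ y
    · have h2 : ∑ u ∈ pc L η J i, g u = ∑ u ∈ (Ioc ⌊xx L η J i⌋₊ ⌊xx L η J (i + 1)⌋₊).filter
          (fun u => u % r = c), (β u - (∑ u ∈ Ioc ⌊xx L η J i⌋₊ ⌊xx L η J (i + 1)⌋₊, β u) / p) := by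
        rw [← hpc, sum_filter]
        refine sum_congr rfl fun u hu => ?_
        obtain ⟨h3, h4⟩ := hfull u hu
        simp only [hg]
        rw [flat_eq hL.le hη.le hi hu]
        by_cases hcc : u % r = c
        · rw [if_pos ⟨h3, h4, hcc⟩, if_pos hcc]
          rfl
        · rw [if_neg (fun h => hcc h.2.2), if_neg hcc]
      have h3 := hδ i hi
      rw [hpc] at h3
      rw [h2]
      have h4 := piece_full hr hc hab hp hbp hB hβ h3
      linarith [hif x, hif y]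
    · by_cases hnone : ∀ u ∈ pc L η J i, ¬ (x < u ∧ u ≤ y)
      · have h2 : ∑ u ∈ pc L η J i, g u = 0 := by
          refine sum_eq_zero fun u hu => ?_
          simp only [hg]
          rw [if_neg]
          intro h
          exact hnone u hu ⟨h.1, h.2.1⟩
        rw [h2, abs_zero]
        have := hif x
        have := hif y
        positivity
      · push Not at hfull hnone
        obtain ⟨u₂, hu₂, hu₂'⟩ := hfull
        obtain ⟨u₁, hu₁, hu₁a, hu₁b⟩ := hnone
        have h2 : |∑ u ∈ pc L η J i, g u| ≤ E := by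
          calc |∑ u ∈ pc L η J i, g u| ≤ ∑ u ∈ pc L η J i, |g u| := abs_sum_le_sum_abs _ _
            _ ≤ ∑ u ∈ pc L η J i, 3 * B := by
                refine sum_le_sum fun u _ => ?_
                simp only [hg]
                split_ifs
                · exact hb3 u
                · rw [abs_zero]; positivity
            _ = ((⌊xx L η J (i + 1)⌋₊ : ℝ) - ⌊xx L η J i⌋₊) * (3 * B) := by
                rw [sum_const, hpc, Nat.card_Ioc, nsmul_eq_mul, Nat.cast_sub hab]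
            _ ≤ (p + 1) * (3 * B) := by
                apply mul_le_mul_of_nonneg_right _ (by positivity)
                have := (abs_le.1 hbp).2
                linarith
            _ = E := by rw [hE]; ring
        have h3 : x ∈ pc L η J i ∨ y ∈ pc L η J i := by
          rw [hpc, mem_Ioc] at hu₁ hu₂
          rw [hpc, mem_Ioc, mem_Ioc]
          by_cases hx : x < u₂
          · right
            have := hu₂' hx
            omega
          · left
            omega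
        have h4 : 0 ≤ δ + 4 * B := by positivity
        rcases h3 with h3 | h3
        · rw [if_pos h3]
          linarith [hif y]
        · rw [if_pos h3]
          linarith [hif x]
  refine (sum_le_sum hone).trans ?_
  simp only [sum_add_distrib, sum_const, card_range, nsmul_eq_mul]
  have huniq : ∀ v : ℕ, ∑ i ∈ range J, (if v ∈ pc L η J i then E else 0) ≤ E := by
    intro v
    by_cases h : ∃ i ∈ range J, v ∈ pc L η J i
    · obtain ⟨i, hi, hv⟩ := h
      rw [sum_eq_single_of_mem i hi, if_pos hv]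
      intro j _ hij
      rw [if_neg]
      exact fun h => hij (BLK2.pc_unique hL.le hη.le h hv)
    · push Not at h
      rw [sum_eq_zero fun i hi => if_neg (h i hi)]
      exact hE0
  have h8 := huniq x
  have h9 := huniq y
  have h10 : (J : ℝ) * δ + J * (4 * B) = J * (δ + 4 * B) := by ring
  linarith

/-- the class sums of one parity class of a function -/
lemma par_class {b : ℕ → ℝ} {M : ℝ} {par r c x y : ℕ} (hr : 1 ≤ r) (hM : 0 ≤ M)
    (h : ∀ c' < 2 * r, |∑ u ∈ (Ioc x y).filter (fun u => u % (2 * r) = c'), b u| ≤ M) :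
    |∑ u ∈ (Ioc x y).filter (fun u => u % r = c), (if u % 2 = par then b u else 0)|
      ≤ 2 * r * M := by
  rw [← sum_filter, filter_filter]
  have hmaps : ∀ u ∈ (Ioc x y).filter (fun u => u % r = c ∧ u % 2 = par), u % (2 * r) ∈ range (2 * r) :=
    fun u _ => mem_range.2 (Nat.mod_lt _ (by omega))
  rw [← sum_fiberwise_of_maps_to hmaps]
  refine (abs_sum_le_sum_abs _ _).trans ?_
  have hone : ∀ c' ∈ range (2 * r), |∑ u ∈ ((Ioc x y).filter
      (fun u => u % r = c ∧ u % 2 = par)).filter (fun u => u % (2 * r) = c'), b u| ≤ M := by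
    intro c' hc'
    have h1 : ∀ u, u % (2 * r) % r = u % r := fun u => Nat.mod_mod_of_dvd u ⟨2, by ring⟩
    have h2 : ∀ u, u % (2 * r) % 2 = u % 2 := fun u => Nat.mod_mod_of_dvd u ⟨r, rfl⟩
    by_cases hc : c' % r = c ∧ c' % 2 = par
    · have h3 : ((Ioc x y).filter (fun u => u % r = c ∧ u % 2 = par)).filter
          (fun u => u % (2 * r) = c') = (Ioc x y).filter (fun u => u % (2 * r) = c') := by
        rw [filter_filter]
        refine filter_congr fun u _ => ?_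
        constructor
        · exact fun h => h.2
        · intro h
          refine ⟨?_, h⟩
          rw [← h1 u, ← h2 u, h]
          exact hc
      rw [h3]
      exact h c' (mem_range.1 hc')
    · have h3 : ((Ioc x y).filter (fun u => u % r = c ∧ u % 2 = par)).filter
          (fun u => u % (2 * r) = c') = ∅ := by
        rw [filter_filter, filter_eq_empty_iff]
        intro u _ h
        apply hc
        rw [← h.2, h1, h2]
        exact h.1
      rw [h3, sum_empty, abs_zero]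
      exact hM
  refine (sum_le_sum hone).trans ?_
  rw [sum_const, card_range, nsmul_eq_mul]
  push_cast
  exact le_rfl

/-- the difference of two prefix sums -/
lemma prefix_diff {f : ℕ → ℝ} {r c a b : ℕ} {κ : ℝ}
    (ha : |(∑ u ∈ (Icc 1 a).filter (fun u => u % r = c), f u) - (∑ u ∈ Icc 1 a, f u) / r| ≤ κ * a)
    (hb : |(∑ u ∈ (Icc 1 b).filter (fun u => u % r = c), f u) - (∑ u ∈ Icc 1 b, f u) / r| ≤ κ * b)
    (hab : a ≤ b) :
    |∑ u ∈ (Ioc a b).filter (fun u => u % r = c), f u - (∑ u ∈ Ioc a b, f u) / r|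
      ≤ κ * a + κ * b := by
  have h1 : Icc 1 b = Icc 1 a ∪ Ioc a b := by
    ext u
    simp only [mem_union, mem_Icc, mem_Ioc]
    omega
  have hd : Disjoint (Icc 1 a) (Ioc a b) := by
    rw [disjoint_left]
    intro u hu hu2
    rw [mem_Icc] at hu
    rw [mem_Ioc] at hu2
    omega
  have h2 : ∑ u ∈ (Icc 1 b).filter (fun u => u % r = c), f u =
      ∑ u ∈ (Icc 1 a).filter (fun u => u % r = c), f u +
      ∑ u ∈ (Ioc a b).filter (fun u => u % r = c), f u := by
    rw [h1, filter_union, sum_union (disjoint_filter_filter hd)]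
  have h3 : ∑ u ∈ Icc 1 b, f u = ∑ u ∈ Icc 1 a, f u + ∑ u ∈ Ioc a b, f u := by
    rw [h1, sum_union hd]
  rw [h2, h3] at hb
  have h5 := abs_le.1 hb
  have h6 := abs_le.1 ha
  rw [add_div] at h5
  rw [abs_le]
  constructor <;> linarith [h5.1, h5.2, h6.1, h6.2]


/-- the sum for `b = β - flat β` is small -/
lemma partA (hTWOP : SpecTWOP) (hWBC : SpecWBC) (hEQD : SpecEQD) (hFFB : SpecFFB)
    {θ κ e e0 η₁ η ϖ : ℝ} {Q : ℕ} {c₁ c₂ : Multiset ℕ} (hθ : 1 / 2 < θ) (hκ : 3 / 5 < κ)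
    (hθκ : 3 / 2 < θ + κ) (he : 0 < e) (he0 : 0 < e0) (he0' : e0 ≤ 1 / 10) (hη : 0 < η)
    (hη4 : η ≤ 1 / 4) (hη₁ : 0 < η₁) (hη₁4 : η₁ ≤ 1 / 4) (hϖ : 0 < ϖ) (hQ : 1 ≤ Q)
    (hc₁ : ∀ i ∈ c₁, Q ≤ i) (hc₂ : ∀ i ∈ c₂, Q ≤ i) (hc₂0 : c₂ ≠ 0) :
    ∃ J₀ : ℕ, ∀ J : ℕ, J₀ ≤ J → 1 ≤ J → ∃ N₀ : ℕ, ∀ N A : ℕ, N₀ ≤ N → Adm θ N A → ∀ K L : ℝ,
      (N : ℝ) ^ κ ≤ K → K ≤ (N : ℝ) ^ (1 - e) → (N : ℝ) ^ 2 / 2 ≤ K * L → K * L ≤ 5 * (N : ℝ) ^ 2 →
      ∑ a ∈ IA A, |bil (8 * N) a (cut K ((1 + η₁) * K) (fun m => FF N (e0 / Q) c₁ m))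
        (fun u => cut L ((1 + η₁) * L)
            (conv (fun m => FF N (e0 / Q) c₂ m) (ism ((N : ℝ) ^ e0) ((N : ℝ) ^ η))) u
          - flat L η₁ J (cut L ((1 + η₁) * L)
            (conv (fun m => FF N (e0 / Q) c₂ m) (ism ((N : ℝ) ^ e0) ((N : ℝ) ^ η)))) u)|
        ≤ ϖ * A * N / Real.log N := by
  set B : ℝ := ((Multiset.card c₁).factorial : ℝ) + ((Multiset.card c₂).factorial : ℝ) with hB
  have hB1 : ((Multiset.card c₁).factorial : ℝ) ≤ B := by
    rw [hB]
    have : (0 : ℝ) ≤ ((Multiset.card c₂).factorial : ℝ) := by positivity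
    linarith
  have hB2 : ((Multiset.card c₂).factorial : ℝ) ≤ B := by
    rw [hB]
    have : (0 : ℝ) ≤ ((Multiset.card c₁).factorial : ℝ) := by positivity
    linarith
  have hB0 : 0 < B := lt_of_lt_of_le (by exact_mod_cast Nat.factorial_pos _) hB1
  obtain ⟨C, hC, hT⟩ := hTWOP θ κ e e0 (3 * B) hθ (by linarith) hθκ he he0 (by positivity)
  have hw : 0 < ϖ ^ 2 / (40 * C) := by positivity
  obtain ⟨N₁, hN₁⟩ := hT _ hw
  obtain ⟨R, κ', hκ', N₂, hN₂⟩ := hWBC (3 * B) (ϖ ^ 2 / (40 * C)) (e / 2) η₁ (by positivity) hw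
    (half_pos he) hη₁ hη₁4
  obtain ⟨J₀, hJ₀⟩ := exists_nat_ge (48 * R * B * η₁ / κ')
  refine ⟨J₀, fun J hJ hJ1 => ?_⟩
  have hJr : (0 : ℝ) < J := by exact_mod_cast hJ1
  have hRr : (0 : ℝ) ≤ R := Nat.cast_nonneg R
  set κ₁ : ℝ := κ' / (32 * (R + 1) * J) with hκ₁
  have hκ₁0 : 0 < κ₁ := by positivity
  obtain ⟨N₄, hN₄⟩ := hEQD e0 η κ₁ Q c₂ he0 he0' hη hη4 hκ₁0 hQ hc₂0 hc₂ (2 * R)
  obtain ⟨N₃, hN₃⟩ := eventually_atTop.1 (BLKCM.geo he hκ)
  obtain ⟨N₅, hN₅⟩ := exists_nat_ge (max ((J : ℝ) / η₁) (2 * (2 * R * (4 * B * J + 6 * B)) / κ'))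
  refine ⟨max (max N₁ N₂) (max (max N₃ N₄) (max N₅ 3)), fun N A hN hA K L hK1 hK2 hKL1 hKL2 => ?_⟩
  have hNN₁ : N₁ ≤ N := (le_max_left _ _).trans ((le_max_left _ _).trans hN)
  have hNN₂ : N₂ ≤ N := (le_max_right _ _).trans ((le_max_left _ _).trans hN)
  have hNN₃ : N₃ ≤ N := (le_max_left _ _).trans ((le_max_left _ _).trans ((le_max_right _ _).trans hN))
  have hNN₄ : N₄ ≤ N := (le_max_right _ _).trans ((le_max_left _ _).trans ((le_max_right _ _).trans hN))
  have hNN₅ : N₅ ≤ N := (le_max_left _ _).trans ((le_max_right _ _).trans ((le_max_right _ _).trans hN))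
  have hN3 : 3 ≤ N := (le_max_right _ _).trans ((le_max_right _ _).trans ((le_max_right _ _).trans hN))
  obtain ⟨hK, hKL, hLN, hL3, hg3, hg4⟩ := hN₃ N hNN₃ K L hK1 hK2 hKL1 hKL2
  have hN3' : (3 : ℝ) ≤ N := by exact_mod_cast hN3
  have hN5r : max ((J : ℝ) / η₁) (2 * (2 * R * (4 * B * J + 6 * B)) / κ') ≤ N :=
    hN₅.trans (by exact_mod_cast hNN₅)
  have hlog : 1 ≤ Real.log N := by
    rw [← Real.log_exp 1]
    apply Real.log_le_log (Real.exp_pos 1)
    have := Real.exp_one_lt_d9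
    linarith
  have hlog0 : 0 < Real.log N := by linarith
  have hL0 : 0 < L := by linarith
  have hK0 : 0 < K := by linarith
  have hp : 1 ≤ η₁ * L / J := by
    rw [le_div_iff₀ hJr, one_mul]
    have h1 := (le_max_left _ _).trans hN5r
    rw [div_le_iff₀ hη₁] at h1
    nlinarith
  set f : ℕ → ℝ := conv (fun m => FF N (e0 / Q) c₂ m) (ism ((N : ℝ) ^ e0) ((N : ℝ) ^ η)) with hf
  set α : ℕ → ℝ := cut K ((1 + η₁) * K) (fun m => FF N (e0 / Q) c₁ m) with hα
  set β : ℕ → ℝ := cut L ((1 + η₁) * L) f with hβ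
  have hfB : ∀ u, |f u| ≤ B := fun u => by
    rw [abs_of_nonneg (convi_nonneg hFFB he0 hQ hc₂ (by omega) _ u)]
    exact (convi_le hFFB he0 hQ hc₂ (by omega) _ u).trans hB2
  have hβB : ∀ u, |β u| ≤ B := by
    intro u
    rw [hβ]
    unfold cut
    split_ifs
    · exact hfB u
    · rw [abs_zero]; exact hB0.le
  have hβs : ∀ u, β u ≠ 0 → L < (u : ℝ) ∧ (u : ℝ) ≤ (1 + η₁) * L := fun u hu => BLK2.cut_ne hu
  have hfl : ∀ u, |flat L η₁ J β u| ≤ 2 * B := flat_abs hL0 hη₁ hB0.le hJ1 hp hβB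
  set b : ℕ → ℝ := fun u => β u - flat L η₁ J β u with hb
  have hb3 : ∀ u, |b u| ≤ 3 * B := fun u =>
    (abs_sub _ _).trans (by linarith [hβB u, hfl u])
  have hbsupp : ∀ u, b u ≠ 0 → L < (u : ℝ) ∧ (u : ℝ) ≤ (1 + η₁) * L := by
    intro u hu
    by_cases h : β u = 0
    · have h2 : flat L η₁ J β u ≠ 0 := by
        intro h3; apply hu; simp only [hb]; rw [h, h3, sub_zero]
      have h3 : ∃ i < J, u ∈ pc L η₁ J i := by
        by_contra h4
        push Not at h4
        exact h2 (flat_zero h4)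
      obtain ⟨i, hi, hui⟩ := h3
      exact BLK2.pc_range hL0.le hη₁.le hJ1 hi hui
    · exact hβs u h
  have hone : ∀ q c' : ℕ, 1 ≤ q → q ≤ 2 * R → c' < q → ∀ i < J,
      |∑ u ∈ (pc L η₁ J i).filter (fun u => u % q = c'), β u - (∑ u ∈ pc L η₁ J i, β u) / q|
        ≤ 4 * κ₁ * L := by
    intro q c' hq hqR hc' i hi
    obtain ⟨hx1, hx2⟩ := BLK2.xx_bounds (J := J) hL0.le hη₁.le hJ1 hi
    have hxx := xx_succ L η₁ J i hJ1
    have hβf : ∀ u ∈ Ioc ⌊xx L η₁ J i⌋₊ ⌊xx L η₁ J (i + 1)⌋₊, β u = f u := by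
      intro u hu
      have hu' : u ∈ pc L η₁ J i := by rw [pc_eq]; exact hu
      obtain ⟨h3, h4⟩ := BLK2.pc_range hL0.le hη₁.le hJ1 hi hu'
      exact BLK2.cut_of h3 h4
    have hx0 : 0 ≤ xx L η₁ J i := by linarith
    have hx0' : 0 ≤ xx L η₁ J (i + 1) := by rw [hxx]; linarith
    have hx2' : xx L η₁ J (i + 1) ≤ 2 * L := by nlinarith
    have hxi : xx L η₁ J i ≤ 2 * L := by rw [hxx] at hx2'; linarith
    have hab : ⌊xx L η₁ J i⌋₊ ≤ ⌊xx L η₁ J (i + 1)⌋₊ := Nat.floor_mono (by rw [hxx]; linarith)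
    have ha1 : N ≤ ⌊xx L η₁ J i⌋₊ := Nat.le_floor (by linarith)
    have ha2 : (⌊xx L η₁ J i⌋₊ : ℝ) ≤ 2 * L := (Nat.floor_le hx0).trans hxi
    have hb2 : (⌊xx L η₁ J (i + 1)⌋₊ : ℝ) ≤ 2 * L := (Nat.floor_le hx0').trans hx2'
    rw [pc_eq, sum_congr rfl (fun u hu => hβf u (mem_filter.1 hu).1), sum_congr rfl hβf]
    refine (prefix_diff
      (hN₄ N hNN₄ q c' ⌊xx L η₁ J i⌋₊ hq hqR hc' ha1 (ha2.trans hL3))
      (hN₄ N hNN₄ q c' ⌊xx L η₁ J (i + 1)⌋₊ hq hqR hc' (ha1.trans hab) (hb2.trans hL3)) hab).trans ?_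
    nlinarith
  set M : ℝ := J * (4 * κ₁ * L + 4 * B) + 2 * (3 * B * (η₁ * L / J + 1)) with hM
  have hM0 : 0 ≤ M := by rw [hM]; positivity
  have hMκ : 2 * R * M ≤ κ' * L := by
    have h1 : 2 * R * (J * (4 * κ₁ * L)) ≤ κ' / 4 * L := by
      have : 2 * R * (J * (4 * κ₁ * L)) = κ' / 4 * L * (R / (R + 1)) := by
        rw [hκ₁]
        field_simp
        ring
      rw [this]
      have h3 : (R : ℝ) / (R + 1) ≤ 1 := by
        rw [div_le_one (by positivity)]
        linarith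
      have h4 : 0 ≤ κ' / 4 * L := by positivity
      nlinarith
    have h2 : 2 * R * (2 * (3 * B * (η₁ * L / J))) ≤ κ' / 4 * L := by
      have h3 := hJ₀.trans (show (J₀ : ℝ) ≤ J by exact_mod_cast hJ)
      rw [div_le_iff₀ hκ'] at h3
      have h4 : 2 * R * (2 * (3 * B * (η₁ * L / J))) = (12 * R * B * η₁) * L / J := by ring
      rw [h4, div_le_iff₀ hJr]
      nlinarith
    have h3 : 2 * R * (4 * B * J + 6 * B) ≤ κ' / 2 * L := by
      have h4 := (le_max_right _ _).trans hN5r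
      rw [div_le_iff₀ hκ'] at h4
      nlinarith
    have h4 : 2 * R * M = 2 * R * (J * (4 * κ₁ * L)) + 2 * R * (2 * (3 * B * (η₁ * L / J)))
        + 2 * R * (4 * B * J + 6 * B) := by
      rw [hM]; ring
    rw [h4]
    linarith
  have hcls : ∀ par r c x y : ℕ, 1 ≤ r → r ≤ R →
      |∑ u ∈ (Ioc x y).filter (fun u => u % r = c), (if u % 2 = par then b u else 0)| ≤ κ' * L := by
    intro par r c x y hr hrR
    have h1 := par_class (b := b) (par := par) (r := r) (c := c) (x := x) (y := y) (M := M) hr hM0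
      (fun c' hc' => flat_class hL0 hη₁ hJ1 hp (by omega : 1 ≤ 2 * r) hc' hB0.le
        (by positivity : 0 ≤ 4 * κ₁ * L) hβB hβs
        (fun i hi => hone (2 * r) c' (by omega) (by omega) hc' i hi))
    refine h1.trans ?_
    have hrR' : (r : ℝ) ≤ R := by exact_mod_cast hrR
    calc 2 * (r : ℝ) * M ≤ 2 * R * M := by gcongr
      _ ≤ κ' * L := hMκ
  have hαB : ∀ k, |α k| ≤ 3 * B * rInd ((N : ℝ) ^ e0) k := by
    intro k
    have hr : 0 ≤ rInd ((N : ℝ) ^ e0) k := rInd_nonneg _ _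
    rw [hα]
    unfold cut
    split_ifs
    · obtain ⟨h1, h2⟩ := FF_facts hFFB he0 hQ hc₁ (by omega : 2 ≤ N) k
      rw [abs_of_nonneg h1]
      exact h2.trans (mul_le_mul_of_nonneg_right (by linarith) hr)
    · rw [abs_zero]
      exact mul_nonneg (by positivity) hr
  have hαs : ∀ k, α k ≠ 0 → K < (k : ℝ) ∧ (k : ℝ) ≤ 5 / 4 * K := by
    intro k hk
    obtain ⟨h1, h2⟩ := BLK2.cut_ne hk
    exact ⟨h1, h2.trans (by nlinarith)⟩
  have hpart : ∀ par, ∑ a ∈ IA A, |bil (8 * N) a α (fun u => if u % 2 = par then b u else 0)|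
      ≤ ϖ / 2 * A * N / Real.log N := by
    intro par
    have hbp : ∀ u, |(if u % 2 = par then b u else 0)| ≤ 3 * B := by
      intro u
      split_ifs
      · exact hb3 u
      · rw [abs_zero]; positivity
    have hW : |Wsum K L (fun u => if u % 2 = par then b u else 0)| ≤ ϖ ^ 2 / (40 * C) * L := by
      refine hN₂ N K L _ hNN₂ hK hKL hLN hKL1 hKL2 hg3 hg4 hbp (fun u hu => ?_) ?_
      · split_ifs at hu with h
        · exact hbsupp u hu
        · exact absurd rfl hu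
      · intro r c x y hr hrR _ _
        exact hcls par r c x y hr hrR
    have hM := hN₁ N A hNN₁ hA K L hK1 hK2 hKL1 hKL2 par α
      (fun u => if u % 2 = par then b u else 0) hαB hαs hbp
      (by
        intro u hu
        split_ifs at hu with h
        · obtain ⟨h2, h3⟩ := hbsupp u hu
          refine ⟨h, h2, h3.trans ?_⟩
          nlinarith
        · exact absurd rfl hu)
    set S := ∑ a ∈ IA A, |bil (8 * N) a α (fun u => if u % 2 = par then b u else 0)| with hS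
    have hS0 : 0 ≤ S := sum_nonneg fun _ _ => abs_nonneg _
    have hR0 : 0 ≤ ϖ / 2 * A * N / Real.log N := by positivity
    rw [← sq_le_sq₀ hS0 hR0]
    refine hM.trans ?_
    have h1 : ϖ ^ 2 / (40 * C) * L / (Real.log N) ^ 2 ≤ ϖ ^ 2 / (40 * C) * L := by
      apply div_le_self (by positivity)
      nlinarith
    have h2 : |Wsum K L (fun u => if u % 2 = par then b u else 0)|
        + ϖ ^ 2 / (40 * C) * L / (Real.log N) ^ 2 ≤ 2 * (ϖ ^ 2 / (40 * C) * L) := by linarith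
    calc C * ((A : ℝ) ^ 2 * K / (Real.log N) ^ 2) *
          (|Wsum K L (fun u => if u % 2 = par then b u else 0)|
            + ϖ ^ 2 / (40 * C) * L / (Real.log N) ^ 2)
        ≤ C * ((A : ℝ) ^ 2 * K / (Real.log N) ^ 2) * (2 * (ϖ ^ 2 / (40 * C) * L)) := by gcongr
      _ = ϖ ^ 2 / 4 * (A : ℝ) ^ 2 / (Real.log N) ^ 2 * (K * L / 5) := by field_simp; ring
      _ ≤ ϖ ^ 2 / 4 * (A : ℝ) ^ 2 / (Real.log N) ^ 2 * ((N : ℝ) ^ 2) := by
          gcongr
          linarith
      _ = (ϖ / 2 * A * N / Real.log N) ^ 2 := by field_simp; ring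
  have hsplit : b = fun u => (if u % 2 = 0 then b u else 0) + (if u % 2 = 1 then b u else 0) := by
    funext u
    rcases Nat.mod_two_eq_zero_or_one u with h | h
    · rw [if_pos h, if_neg (by omega), add_zero]
    · rw [if_neg (by omega), if_pos h, zero_add]
  calc ∑ a ∈ IA A, |bil (8 * N) a α b|
      ≤ ∑ a ∈ IA A, (|bil (8 * N) a α (fun u => if u % 2 = 0 then b u else 0)|
          + |bil (8 * N) a α (fun u => if u % 2 = 1 then b u else 0)|) := by
        refine sum_le_sum fun a _ => ?_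
        have h := bil_add (8 * N) a α (fun u => if u % 2 = 0 then b u else 0)
          (fun u => if u % 2 = 1 then b u else 0)
        rw [← hsplit] at h
        rw [h]
        exact abs_add_le _ _
    _ = ∑ a ∈ IA A, |bil (8 * N) a α (fun u => if u % 2 = 0 then b u else 0)|
        + ∑ a ∈ IA A, |bil (8 * N) a α (fun u => if u % 2 = 1 then b u else 0)| := sum_add_distrib
    _ ≤ ϖ / 2 * A * N / Real.log N + ϖ / 2 * A * N / Real.log N := add_le_add (hpart 0) (hpart 1)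
    _ = ϖ * A * N / Real.log N := by ring

end BLKDM

end Pool.Agent.Lib.MP391708.QPA.C
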