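import Pool.Agent.Lib.MP_391708_nt.QPA.C.SpecD
import Pool.Agent.Lib.MP_391708_nt.QPA.C.CHWC
import Pool.Agent.Lib.MP_391708_nt.QPA.C.T2D

/-!
# CHWD, part a: linear functionals, the Markov step, pointwise identities
-/

set_option autoImplicit false

namespace Pool.Agent.Lib.MP391708.QPA.C.CHWDM

open Finset Filter Topology
open Pool.Agent.Lib.MP391708.QPA
open Pool.Agent.Lib.MP391708.QPA.H
open Pool.Agent.Lib.MP391708.QPA.C
open scoped Classical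

noncomputable section

/-! ### the functional `cnt - σ model` -/

/-- `cnt - σ model` -/
def dv (σ : ℝ) (N : ℕ) (a : ℤ) (f : ℕ → ℝ) : ℝ := cnt N a f - σ * model N f

theorem dv_add (σ : ℝ) (N : ℕ) (a : ℤ) (f g : ℕ → ℝ) :
    dv σ N a (fun m => f m + g m) = dv σ N a f + dv σ N a g := by
  unfold dv
  rw [BLK.cnt_add, BLK.model_add]
  ring

theorem dv_smul (σ : ℝ) (N : ℕ) (a : ℤ) (c : ℝ) (f : ℕ → ℝ) :
    dv σ N a (fun m => c * f m) = c * dv σ N a f := by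
  unfold dv
  rw [BLK.cnt_smul, BLK.model_smul]
  ring

theorem dv_sum {ι : Type*} (σ : ℝ) (N : ℕ) (a : ℤ) (S : Finset ι) (f : ι → ℕ → ℝ) :
    dv σ N a (fun m => ∑ i ∈ S, f i m) = ∑ i ∈ S, dv σ N a (f i) := by
  unfold dv
  rw [BLK.cnt_sum, BLK.model_sum, Finset.sum_sub_distrib, Finset.mul_sum]

theorem dv_abs_le {N A : ℕ} {a : ℤ} {σ : ℝ} (hσ : 0 ≤ σ) (ha : a ∈ IA A)
    (hA : (A : ℝ) ≤ (N : ℝ) ^ 2 / 2)
    (R B : ℕ → ℝ) (h : ∀ m : ℕ, (N : ℝ) ^ 2 / 2 ≤ m → (m : ℝ) ≤ 5 * (N : ℝ) ^ 2 → |R m| ≤ B m) :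
    |dv σ N a R| ≤ cnt N a B + σ * model N B := by
  unfold dv
  have h1 := BLK.cnt_abs_le ha hA R B h
  have h2 := BLK.model_abs_le R B h
  have h3 : |σ * model N R| ≤ σ * model N B := by
    rw [abs_mul, abs_of_nonneg hσ]
    exact mul_le_mul_of_nonneg_left h2 hσ
  calc |cnt N a R - σ * model N R| ≤ |cnt N a R| + |σ * model N R| := abs_sub _ _
    _ ≤ _ := add_le_add h1 h3

theorem dv_zero (N : ℕ) (a : ℤ) (f : ℕ → ℝ) : dv 0 N a f = cnt N a f := by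
  unfold dv
  ring

theorem dv_one (N : ℕ) (a : ℤ) (f : ℕ → ℝ) : dv 1 N a f = cnt N a f - model N f := by
  unfold dv
  ring

/-- the pointwise inequality -/
theorem dv_pointwise {N A : ℕ} {a : ℤ} {σ : ℝ} (hσ : 0 ≤ σ) (G P B : ℕ → ℝ) {ι : Type*}
    (T' : Finset ι) (t : ι → ℝ) (H : ι → ℕ → ℝ)
    (ha : a ∈ IA A) (hA : (A : ℝ) ≤ (N : ℝ) ^ 2 / 2)
    (hT2 : ∀ m : ℕ, (N : ℝ) ^ 2 / 2 ≤ m → (m : ℝ) ≤ 5 * (N : ℝ) ^ 2 →
      |G m - P m - ∑ c ∈ T', t c * H c m| ≤ B m) :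
    |dv σ N a G| ≤ |dv σ N a P| + (∑ c ∈ T', |t c| * |dv σ N a (H c)|
      + (cnt N a B + σ * model N B)) := by
  set R : ℕ → ℝ := fun m => G m - P m - ∑ c ∈ T', t c * H c m with hR
  have hdec : G = fun m => (P m + ∑ c ∈ T', t c * H c m) + R m := by
    funext m
    simp only [hR]
    ring
  have h1 : dv σ N a G = dv σ N a P + ∑ c ∈ T', t c * dv σ N a (H c) + dv σ N a R := by
    conv_lhs => rw [hdec]
    rw [dv_add σ N a (fun m => P m + ∑ c ∈ T', t c * H c m) R,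
      dv_add σ N a P, dv_sum σ N a T' (fun c m => t c * H c m)]
    congr 2
    exact Finset.sum_congr rfl (fun c _ => dv_smul σ N a (t c) _)
  have h3 : |dv σ N a R| ≤ cnt N a B + σ * model N B := dv_abs_le hσ ha hA R _ hT2
  have h6 : |∑ c ∈ T', t c * dv σ N a (H c)| ≤ ∑ c ∈ T', |t c| * |dv σ N a (H c)| := by
    refine (Finset.abs_sum_le_sum_abs _ _).trans (Finset.sum_le_sum (fun c _ => ?_))
    rw [abs_mul]
  rw [h1]
  calc |dv σ N a P + ∑ c ∈ T', t c * dv σ N a (H c) + dv σ N a R|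
      ≤ |dv σ N a P + ∑ c ∈ T', t c * dv σ N a (H c)| + |dv σ N a R| := abs_add_le _ _
    _ ≤ |dv σ N a P| + |∑ c ∈ T', t c * dv σ N a (H c)| + |dv σ N a R| := by
        linarith [abs_add_le (dv σ N a P) (∑ c ∈ T', t c * dv σ N a (H c))]
    _ ≤ _ := by linarith

theorem card_IA_le {A : ℕ} (hA : 1 ≤ A) : ((IA A).card : ℝ) ≤ 3 * A := by
  have h1 : (IA A).card = 2 * A + 1 := by
    unfold IA
    rw [Int.card_Icc]
    omega
  rw [h1]
  have : (1 : ℝ) ≤ A := by exact_mod_cast hA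
  push_cast
  linarith

/-- the Markov step -/
theorem block {N A : ℕ} (σ ε : ℝ) (hσ : 0 ≤ σ) (hε : 0 < ε) (hN : 0 < N) (hA1 : 1 ≤ A)
    (hAN : (A : ℝ) ≤ (N : ℝ) ^ 2 / 2) (G P B : ℕ → ℝ) {ι : Type*} (T' : Finset ι)
    (t : ι → ℝ) (H : ι → ℕ → ℝ)
    (hpt : ∀ m : ℕ, (N : ℝ) ^ 2 / 2 ≤ m → (m : ℝ) ≤ 5 * (N : ℝ) ^ 2 →
      |G m - P m - ∑ c ∈ T', t c * H c m| ≤ B m)
    (hB0 : ∀ m, 0 ≤ B m)
    (h1 : (((IA A).filter (fun a => ε / 2 * N < |dv σ N a P|)).card : ℝ) ≤ ε / 2 * A)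
    (h2 : ∑ a ∈ IA A, ∑ c ∈ T', |t c| * |dv σ N a (H c)| ≤ ε ^ 2 / 12 * (A * N))
    (h3 : ∑ a ∈ IA A, cnt N a B ≤ ε ^ 2 / 12 * (A * N))
    (h4 : 3 * A * (σ * model N B) ≤ ε ^ 2 / 12 * (A * N)) :
    (((IA A).filter (fun a => ε * N < |dv σ N a G|)).card : ℝ) ≤ ε * A := by
  have hN0 : (0 : ℝ) < N := by exact_mod_cast hN
  set U : ℝ := A * N with hU
  set f : ℤ → ℝ := fun a => ∑ c ∈ T', |t c| * |dv σ N a (H c)| + (cnt N a B + σ * model N B)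
    with hf
  have hm0 : 0 ≤ σ * model N B := mul_nonneg hσ (BLK.model_nonneg hB0)
  have hf0 : ∀ a ∈ IA A, 0 ≤ f a := by
    intro a _
    simp only [hf]
    have h5 := BLK.cnt_nonneg (N := N) (a := a) hB0
    have h6 : 0 ≤ ∑ c ∈ T', |t c| * |dv σ N a (H c)| :=
      Finset.sum_nonneg (fun c _ => by positivity)
    linarith
  have hSum : ∑ a ∈ IA A, f a ≤ ε ^ 2 / 4 * U := by
    have h5 : ∑ a ∈ IA A, f a
        = ∑ a ∈ IA A, ∑ c ∈ T', |t c| * |dv σ N a (H c)|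
          + (∑ a ∈ IA A, cnt N a B + (IA A).card * (σ * model N B)) := by
      simp only [hf]
      rw [Finset.sum_add_distrib, Finset.sum_add_distrib, Finset.sum_const, nsmul_eq_mul]
    have h6 : (IA A).card * (σ * model N B) ≤ 3 * A * (σ * model N B) :=
      mul_le_mul_of_nonneg_right (card_IA_le hA1) hm0
    rw [h5]
    linarith
  have hMk := BLK.markov (IA A) f hf0 (ε / 2 * N) (ε ^ 2 / 4 * U) (by positivity) hSum
  have hcard2 : (((IA A).filter (fun a => ε / 2 * N < f a)).card : ℝ) ≤ ε / 2 * A := by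
    have hpos : 0 < ε / 2 * (N : ℝ) := by positivity
    have h5 : ε ^ 2 / 4 * U = (ε / 2 * A) * (ε / 2 * N) := by
      rw [hU]
      ring
    rw [h5] at hMk
    exact le_of_mul_le_mul_right hMk hpos
  have hsub : (IA A).filter (fun a => ε * N < |dv σ N a G|)
      ⊆ (IA A).filter (fun a => ε / 2 * N < |dv σ N a P|)
        ∪ (IA A).filter (fun a => ε / 2 * N < f a) := by
    intro a ha
    rw [Finset.mem_filter] at ha
    rw [Finset.mem_union, Finset.mem_filter, Finset.mem_filter]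
    by_contra hcon
    push Not at hcon
    obtain ⟨n1, n2⟩ := hcon
    have n1 := n1 ha.1
    have n2 := n2 ha.1
    have h5 := dv_pointwise hσ G P B T' t H ha.1 hAN hpt
    have h6 := ha.2
    simp only [hf] at n2
    linarith
  calc (((IA A).filter (fun a => ε * N < |dv σ N a G|)).card : ℝ)
      ≤ (((IA A).filter (fun a => ε / 2 * N < |dv σ N a P|)
        ∪ (IA A).filter (fun a => ε / 2 * N < f a)).card : ℝ) := by
        exact_mod_cast Finset.card_le_card hsub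
    _ ≤ (((IA A).filter (fun a => ε / 2 * N < |dv σ N a P|)).card : ℝ)
        + (((IA A).filter (fun a => ε / 2 * N < f a)).card : ℝ) := by
        exact_mod_cast Finset.card_union_le _ _
    _ ≤ ε / 2 * A + ε / 2 * A := add_le_add h1 hcard2
    _ = ε * A := by ring

/-! ### one half of the theorem -/

theorem nearA_of_good {κ : ℝ} {N A : ℕ} {e2 e : ℝ} {c c₁ : Multiset ℕ}
    (h : GoodD κ (Real.logb N A) e2 e c) (hc : c₁ ≤ c) : NearA N A e2 e c₁ := by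
  intro s hs hs0
  exact h s (hs.trans hc) hs0 _ (by simp)

theorem half (θ κ e2 e ε σ C : ℝ) (hθ : 1 / 2 < θ) (hε : 0 < ε) (hC : 0 < C) (hσ : 0 ≤ σ)
    (T : Finset (Multiset ℕ)) (t : Multiset ℕ → ℝ) (htC : ∀ c ∈ T, |t c| ≤ C)
    (G P : ℕ → ℕ → ℝ) (B : ℕ → ℝ → ℕ → ℝ) (H : ℕ → Multiset ℕ → ℕ → ℝ)
    (hpt : ∃ N₀ : ℕ, ∀ N : ℕ, N₀ ≤ N → ∀ x₀ : ℝ, 1 / 2 ≤ x₀ → x₀ ≤ 5 / 4 →
      (∀ m : ℕ, (N : ℝ) ^ 2 / 2 ≤ m → (m : ℝ) ≤ 5 * (N : ℝ) ^ 2 →
        |G N m - P N m - ∑ c ∈ T.filter (fun c => GoodD κ x₀ e2 e c), t c * H N c m| ≤ B N x₀ m) ∧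
      (∀ c ∈ T, GoodD κ x₀ e2 e c → t c ≠ 0 →
        ∃ c₁ c₂ : Multiset ℕ, c₁ + c₂ = c ∧ c₂ ≠ 0 ∧ MidK κ e2 e c₁))
    (hB0 : ∀ N x₀ m, 0 ≤ B N x₀ m)
    (hTI : ∃ N₀ : ℕ, ∀ N A : ℕ, N₀ ≤ N → Adm θ N A →
      (((IA A).filter (fun a => ε / 2 * N < |dv σ N a (P N)|)).card : ℝ) ≤ ε / 2 * A)
    (hTII : ∀ c ∈ T, (∃ c₁ c₂ : Multiset ℕ, c₁ + c₂ = c ∧ c₂ ≠ 0 ∧ MidK κ e2 e c₁) →
      ∃ N₀ : ℕ, ∀ N A : ℕ, N₀ ≤ N → Adm θ N A → GoodD κ (Real.logb N A) e2 e c →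
        ∑ a ∈ IA A, |dv σ N a (H N c)| ≤ ε ^ 2 / (12 * (T.card + 1) * C) * (A * N))
    (hE : ∃ N₀ : ℕ, ∀ N A : ℕ, N₀ ≤ N → Adm θ N A →
      ∑ a ∈ IA A, cnt N a (B N (Real.logb N A)) ≤ ε ^ 2 / 12 * (A * N) ∧
      3 * A * (σ * model N (B N (Real.logb N A))) ≤ ε ^ 2 / 12 * (A * N)) :
    ∃ N₀ : ℕ, ∀ N A : ℕ, N₀ ≤ N → Adm θ N A →
      (((IA A).filter (fun a => ε * N < |dv σ N a (G N)|)).card : ℝ) ≤ ε * A := by
  set ϖ : ℝ := ε ^ 2 / (12 * (T.card + 1) * C) with hϖ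
  have hϖ0 : 0 < ϖ := by positivity
  have hII : ∀ c ∈ T, ∀ᶠ N : ℕ in atTop, ∀ A : ℕ, Adm θ N A →
      GoodD κ (Real.logb N A) e2 e c →
      (∃ c₁ c₂ : Multiset ℕ, c₁ + c₂ = c ∧ c₂ ≠ 0 ∧ MidK κ e2 e c₁) →
      ∑ a ∈ IA A, |dv σ N a (H N c)| ≤ ϖ * (A * N) := by
    intro c hc
    by_cases h : ∃ c₁ c₂ : Multiset ℕ, c₁ + c₂ = c ∧ c₂ ≠ 0 ∧ MidK κ e2 e c₁
    · obtain ⟨N₀, hN⟩ := hTII c hc h
      exact eventually_atTop.2 ⟨N₀, fun N hNN A hA hg _ => hN N A hNN hA hg⟩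
    · exact Eventually.of_forall (fun N A _ _ h' => absurd h' h)
  have hII' := (Filter.eventually_all_finset T).2 hII
  obtain ⟨N1, hpt⟩ := hpt
  obtain ⟨N2, hTI⟩ := hTI
  obtain ⟨N3, hE⟩ := hE
  obtain ⟨N₀, hN₀⟩ := eventually_atTop.1 (hII'.and ((BLKEM.adm_ev θ hθ).and
    ((BLKEM.adm_large θ hθ 1).and ((eventually_ge_atTop N1).and ((eventually_ge_atTop N2).and
      (eventually_ge_atTop N3))))))
  refine ⟨N₀, fun N A hN hA => ?_⟩
  obtain ⟨hE2, hadm, hlarge, hN1, hN2, hN3⟩ := hN₀ N hN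
  obtain ⟨hNN, hα1, hα2, hAN⟩ := hadm A hA
  have hA1 : 1 ≤ A := hlarge A hA
  obtain ⟨hT2a, hT2b⟩ := hpt N hN1 (Real.logb N A) hα1 hα2
  obtain ⟨hE3, hE4⟩ := hE N A hN3 hA
  have hU0 : (0 : ℝ) ≤ A * N := by positivity
  refine block σ ε hσ hε (by omega) hA1 hAN (G N) (P N) (B N (Real.logb N A))
    (T.filter (fun c => GoodD κ (Real.logb N A) e2 e c)) t (H N) hT2a (hB0 N _)
    (hTI N A hN2 hA) ?_ hE3 hE4
  rw [Finset.sum_comm]
  calc ∑ c ∈ T.filter (fun c => GoodD κ (Real.logb N A) e2 e c),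
        ∑ a ∈ IA A, |t c| * |dv σ N a (H N c)|
      ≤ ∑ c ∈ T.filter (fun c => GoodD κ (Real.logb N A) e2 e c), C * (ϖ * (A * N)) := by
        apply Finset.sum_le_sum
        intro c hc
        rw [Finset.mem_filter] at hc
        rw [← Finset.mul_sum]
        by_cases ht0 : t c = 0
        · rw [ht0, abs_zero, zero_mul]
          positivity
        · exact mul_le_mul (htC c hc.1) (hE2 c hc.1 A hA hc.2 (hT2b c hc.1 hc.2 ht0))
            (Finset.sum_nonneg (fun _ _ => abs_nonneg _)) hC.le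
    _ = (T.filter (fun c => GoodD κ (Real.logb N A) e2 e c)).card * (C * (ϖ * (A * N))) := by
        rw [Finset.sum_const, nsmul_eq_mul]
    _ ≤ (T.card + 1) * (C * (ϖ * (A * N))) := by
        apply mul_le_mul_of_nonneg_right _ (by positivity)
        have h5 : (T.filter (fun c => GoodD κ (Real.logb N A) e2 e c)).card ≤ T.card :=
          Finset.card_filter_le _ _
        have h6 : ((T.filter (fun c => GoodD κ (Real.logb N A) e2 e c)).card : ℝ) ≤ T.card := by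
          exact_mod_cast h5
        linarith
    _ = ε ^ 2 / 12 * (A * N) := by
        rw [hϖ]
        field_simp

/-! ### the functions -/

/-- convolution of a function on rough numbers with a function on smooth numbers -/
theorem conv_eq' (z : ℝ) (F g : ℕ → ℝ) (hF : ∀ k, F k ≠ 0 → Rough z k)
    (hg : ∀ s, g s ≠ 0 → Smooth z s) (m : ℕ) (hm : m ≠ 0) :
    conv F g m = F (T2CM.rgp z m) * g (smp z m) := by
  have h := T2CM.smp_mul_rgp z m hm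
  have hr0 : 0 < T2CM.rgp z m :=
    Nat.pos_of_ne_zero (fun h0 => hm (by rw [← h, h0, mul_zero]))
  rw [conv, Finset.sum_eq_single (T2CM.rgp z m)]
  · congr 2
    exact Nat.div_eq_of_eq_mul_left hr0 h.symm
  · intro k hk hne
    by_contra hcon
    have h1 := hF k (left_ne_zero_of_mul hcon)
    have h2 := hg _ (right_ne_zero_of_mul hcon)
    have h4 := Nat.div_mul_cancel (Nat.mem_divisors.mp hk).1
    exact hne (T2CM.unique_parts z m k (m / k) hm h4 h1 h2).1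
  · intro hn
    exact absurd (Nat.mem_divisors.mpr ⟨Dvd.intro_left _ h, hm⟩) hn

/-- the numbers with a prime factor in a window -/
def pwn (N : ℕ) (x w : ℝ) (m : ℕ) : ℝ := if PWn N x w m then 1 else 0

theorem pwn_nonneg (N : ℕ) (x w : ℝ) (m : ℕ) : 0 ≤ pwn N x w m := by
  unfold pwn; split_ifs <;> norm_num

/-- the error function -/
def errD (N r : ℕ) (x : Fin r → ℝ) (e0 η κ e C x₀ : ℝ) (m : ℕ) : ℝ :=
  (CHWCM.bigs N e0 η m + C * (BLK.nsq N e0 m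
    + ∑ y ∈ ({κ, 1, x₀} : Finset ℝ), CHWCM.rwin N e0 y (2 * e) m))
    + 2 * ∑ j, pwn N (x j) (2 * η) m

theorem errD_nonneg (N r : ℕ) (x : Fin r → ℝ) (e0 η κ e x₀ : ℝ) {C : ℝ} (hC : 0 ≤ C) (m : ℕ) :
    0 ≤ errD N r x e0 η κ e C x₀ m := by
  unfold errD
  exact add_nonneg (add_nonneg (CHWCM.bigs_nonneg _ _ _ _) (mul_nonneg hC (add_nonneg
    (CHWCM.nsq_nonneg _ _ _) (Finset.sum_nonneg (fun y _ => CHWCM.rwin_nonneg _ _ _ _ _)))))
    (mul_nonneg (by norm_num) (Finset.sum_nonneg (fun j _ => pwn_nonneg _ _ _ _)))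

theorem cnt_errD (N r : ℕ) (a : ℤ) (x : Fin r → ℝ) (e0 η κ e C x₀ : ℝ) :
    cnt N a (errD N r x e0 η κ e C x₀)
      = (cnt N a (CHWCM.bigs N e0 η) + C * (cnt N a (BLK.nsq N e0)
        + ∑ y ∈ ({κ, 1, x₀} : Finset ℝ), cnt N a (CHWCM.rwin N e0 y (2 * e))))
        + 2 * ∑ j, cnt N a (pwn N (x j) (2 * η)) := by
  unfold errD
  rw [BLK.cnt_add, BLK.cnt_add, BLK.cnt_smul, BLK.cnt_add, BLK.cnt_sum, BLK.cnt_smul,
    BLK.cnt_sum]

theorem model_errD (N r : ℕ) (x : Fin r → ℝ) (e0 η κ e C x₀ : ℝ) :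
    model N (errD N r x e0 η κ e C x₀)
      = (model N (CHWCM.bigs N e0 η) + C * (model N (BLK.nsq N e0)
        + ∑ y ∈ ({κ, 1, x₀} : Finset ℝ), model N (CHWCM.rwin N e0 y (2 * e))))
        + 2 * ∑ j, model N (pwn N (x j) (2 * η)) := by
  unfold errD
  rw [BLK.model_add, BLK.model_add, BLK.model_smul, BLK.model_add, BLK.model_sum,
    BLK.model_smul, BLK.model_sum]

/-! ### the sign -/

theorem tyF_sign (N Q : ℕ) (e0 κ : ℝ) (Φ Φ' : Multiset ℕ → ℝ) (m : ℕ)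
    (h1 : T2CM.rgp ((N : ℝ) ^ e0) m ≠ 1) :
    tyF N Q e0 κ (fun c => (-1) ^ Multiset.card c * Φ c)
        (fun c => -((-1) ^ Multiset.card c * Φ' c)) m
      = lio (T2CM.rgp ((N : ℝ) ^ e0) m) * tyF N Q e0 κ Φ Φ' m := by
  unfold tyF
  set t := T2CM.rgp ((N : ℝ) ^ e0) m with ht
  by_cases hsq : Squarefree t
  · rw [if_neg (not_not.2 hsq), if_neg (not_not.2 hsq)]
    have ht0 : t ≠ 0 := hsq.ne_zero
    by_cases hk : ∃ k : ℕ, k ∣ t ∧ (N : ℝ) ^ κ < k ∧ k ≤ N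
    · rw [if_pos hk, if_pos hk, T2CM.lio_apply t ht0]
      beta_reduce
      rw [T2.card_typ]
    · rw [if_neg hk, if_neg hk]
      have hne : t.primeFactors.Nonempty := by
        rw [Nat.nonempty_primeFactors]
        omega
      obtain ⟨p, hp, hpe⟩ := Finset.exists_mem_eq_sup t.primeFactors hne id
      have hlp : lpf t = p := hpe
      have hpp := Nat.mem_primeFactors.mp hp
      rw [hlp]
      obtain ⟨k, hk'⟩ := hpp.2.1
      have hk0 : k ≠ 0 := fun h0 => ht0 (by rw [hk', h0, mul_zero])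
      have hdiv : t / p = k := by rw [hk', Nat.mul_div_cancel_left _ hpp.1.pos]
      have hl : lio t = - lio k := by
        rw [hk', T2CM.lio_mul, T2CM.lio_apply p hpp.1.ne_zero,
          Nat.primeFactorsList_prime hpp.1]
        simp
      rw [hdiv, hl, T2CM.lio_apply k hk0]
      beta_reduce
      rw [T2.card_typ]
      ring
  · rw [if_pos hsq, if_pos hsq, mul_zero]

end

end Pool.Agent.Lib.MP391708.QPA.C.CHWDM
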