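import Pool.Agent.Lib.MP_391708_nt.QPA.C.FIND

/-!
# QPA/C, module FINDK: FIND for `A ≤ K₀ N`
-/

set_option autoImplicit false

namespace Pool.Agent.Lib.MP391708.QPA.C

open Finset Filter Topology
open Pool.Agent.Lib.MP391708.QPA
open Pool.Agent.Lib.MP391708.QPA.H
open scoped Classical

noncomputable section

/-- FIND for `N^θ ≤ A ≤ K₀ N` -/
def SpecFINDK : Prop := ∀ (θ ε : ℝ) (r : ℕ) (x : Fin r → ℝ) (F : (Fin r → ℕ) → ℝ) (K₀ : ℕ), 5 / 6 < θ → 0 < ε →
  (∀ j, 0 < x j) → (∀ v, |F v| ≤ 1) → 1 ≤ K₀ →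
  ∃ N₀ : ℕ, ∀ N A : ℕ, N₀ ≤ N → (N : ℝ) ^ θ ≤ A → A ≤ K₀ * N →
  (((IA A).filter (fun a => ε * N < |∑ n ∈ Icc 1 N, cF N r x F (val a n)
      - (∑ m ∈ Icc 1 (N ^ 2), cF N r x F m) / N|)).card : ℝ) ≤ ε * A ∧
  (((IA A).filter (fun a => ε * N < |∑ n ∈ Icc 1 N, lio (val a n) * cF N r x F (val a n)|)).card : ℝ) ≤ ε * A

namespace FINDM

/-- all blocks together -/
theorem genK (hP : SpecPWIN) (hPM : SpecPWINM) (θ : ℝ) (r : ℕ) (x : Fin r → ℝ) (F : (Fin r → ℕ) → ℝ)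
    (hθ : 5 / 6 < θ) (hx : ∀ j, 0 < x j) (hF : ∀ v, |F v| ≤ 1) (s : ℕ → ℝ) (hs : ∀ m, |s m| ≤ 1)
    (t : ℝ) (ht0 : 0 ≤ t) (ht1 : t ≤ 1)
    (hCH : ∀ δ : ℝ, 0 < δ → ∃ N₀ : ℕ, ∀ M A : ℕ, N₀ ≤ M → Adm θ M A →
      (((IA A).filter (fun a => δ * M < |cnt M a (fun m => s m * cF M r x F m)
        - t * model M (fun m => s m * cF M r x F m)|)).card : ℝ) ≤ δ * A) :
    ∀ ε : ℝ, 0 < ε → ∀ K₀ : ℕ, 1 ≤ K₀ → ∃ N₀ : ℕ, ∀ N A : ℕ, N₀ ≤ N → (N : ℝ) ^ θ ≤ A → A ≤ K₀ * N →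
      (((IA A).filter (fun a => ε * N < |DD t (fun m => s m * cF N r x F m) a N|)).card : ℝ) ≤ ε * A := by
  intro ε hε K₀ hK₀
  obtain ⟨u, hu0, hu⟩ := exists_u r x hx
  obtain ⟨C1, hC1, hP⟩ := hP θ u hθ hu0
  obtain ⟨C2, hC2, hPM⟩ := hPM u hu0
  -- the number of blocks
  obtain ⟨I, hI⟩ : ∃ I : ℕ, (1 / 2 : ℝ) ^ I < ε / 32 :=
    exists_pow_lt_of_lt_one (by positivity) (by norm_num)
  have hq1 : (1 : ℝ) / 2 ^ I ≤ ε / 32 := by
    rw [one_div_pow] at hI
    exact hI.le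
  have hIr : (0 : ℝ) ≤ I := Nat.cast_nonneg _
  set δ : ℝ := min (ε / 32) (ε / (4 * (I + 1))) with hδ
  have hδ0 : 0 < δ := lt_min (by positivity) (by positivity)
  have hδ1 : δ ≤ ε / 32 := min_le_left _ _
  have hδ2 : (I : ℝ) * δ ≤ ε / 4 := by
    have h1 : δ ≤ ε / (4 * (I + 1)) := min_le_right _ _
    calc (I : ℝ) * δ ≤ (I + 1 : ℝ) * (ε / (4 * (I + 1))) := by
          apply mul_le_mul _ h1 hδ0.le (by positivity)
          linarith
      _ = ε / 4 := by field_simp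
  set w : ℝ := min (min (u / 4) (1 / 1000)) (min (δ ^ 2 / (r * C1 + 1)) (δ / (r * C2 + 1))) with hw
  have hw0 : 0 < w := lt_min (lt_min (by positivity) (by norm_num)) (lt_min (by positivity) (by positivity))
  have hw1 : w ≤ u / 4 := (min_le_left _ _).trans (min_le_left _ _)
  have hw2 : w ≤ 1 / 1000 := (min_le_left _ _).trans (min_le_right _ _)
  have hw3 : r * C1 * w ≤ δ ^ 2 := by
    have h1 : w ≤ δ ^ 2 / (r * C1 + 1) := (min_le_right _ _).trans (min_le_left _ _)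
    rw [le_div_iff₀ (by positivity)] at h1
    nlinarith
  have hw4 : r * C2 * w ≤ δ := by
    have h1 : w ≤ δ / (r * C2 + 1) := (min_le_right _ _).trans (min_le_right _ _)
    rw [le_div_iff₀ (by positivity)] at h1
    nlinarith
  set K : ℕ := 2 ^ I with hK
  have hK1 : 1 ≤ K := Nat.one_le_two_pow
  obtain ⟨M₁, hCH⟩ := hCH δ hδ0
  obtain ⟨M₂, hP⟩ := hP w hw0 hw1 hw2
  obtain ⟨M₃, hPM⟩ := hPM w hw0 hw1 hw2
  have hev : ∀ᶠ M : ℕ in atTop, ∀ j, (2 * K : ℝ) ^ (x j) ≤ (M : ℝ) ^ w :=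
    eventually_all.2 fun j => ((tendsto_rpow_atTop hw0).comp tendsto_natCast_atTop_atTop).eventually_ge_atTop _
  obtain ⟨M₄, hM₄⟩ := eventually_atTop.1 hev
  set M₀ : ℕ := M₁ + M₂ + M₃ + M₄ + 1 with hM₀
  have hevI : ∀ᶠ N : ℕ in atTop, 3 * (I : ℝ) ≤ ε / 8 * N := by
    have h1 : Tendsto (fun N : ℕ => ε / 8 * (N : ℝ)) atTop atTop :=
      tendsto_natCast_atTop_atTop.const_mul_atTop (by positivity)
    exact h1.eventually_ge_atTop _
  have hevL : ∀ᶠ N : ℕ in atTop, ∀ M : ℕ, K₀ * N ≤ K₀ * K * (M + 1) →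
      ((K₀ * N : ℕ) : ℝ) ≤ M * Real.log M :=
    (tendsto_id.const_mul_atTop' (by omega : 0 < K₀)).eventually
      (FINCM.ev_log (K₀ * K) (Nat.one_le_iff_ne_zero.2 (Nat.mul_ne_zero (by omega) (by omega))))
  obtain ⟨N₀, hN₀⟩ := Filter.eventually_atTop.1 ((hevL.and hevI).and
    (eventually_ge_atTop (K * (M₀ + 1) + 1)))
  refine ⟨N₀, fun N A hN hA1 hA2 => ?_⟩
  obtain ⟨⟨hlog, hIN⟩, hNK⟩ := hN₀ N hN
  have hNpos : 0 < N := by omega
  have hNr : (0 : ℝ) < N := by exact_mod_cast hNpos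
  have hA0 : (0 : ℝ) ≤ A := Nat.cast_nonneg _
  set m : ℕ → ℕ := fun i => N / 2 ^ (i + 1) with hm
  have hmN : ∀ i ∈ range I, N ≤ K * (m i + 1) ∧ m i ≤ N ∧ M₀ ≤ m i := by
    intro i hi
    rw [mem_range] at hi
    have h2 : N < 2 ^ (i + 1) * (m i + 1) := Nat.lt_mul_div_succ _ (by positivity)
    have h3 : 2 ^ (i + 1) * (m i + 1) ≤ K * (m i + 1) :=
      Nat.mul_le_mul_right _ (Nat.pow_le_pow_right (by norm_num) (by omega))
    refine ⟨by omega, Nat.div_le_self _ _, ?_⟩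
    by_contra hcon
    push Not at hcon
    have h6 : K * (m i + 1) ≤ K * M₀ := Nat.mul_le_mul_left _ (by omega)
    have h7 : K * M₀ ≤ K * (M₀ + 1) := Nat.mul_le_mul_left _ (by omega)
    omega
  have hadm : ∀ i ∈ range I, Adm θ (m i) A := by
    intro i hi
    obtain ⟨g1, g2, _⟩ := hmN i hi
    refine ⟨le_trans ?_ hA1, le_trans (by exact_mod_cast hA2) (hlog (m i) ?_)⟩
    swap
    · calc K₀ * N ≤ K₀ * (K * (m i + 1)) := Nat.mul_le_mul_left _ g1
        _ = K₀ * K * (m i + 1) := by ring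
    exact Real.rpow_le_rpow (Nat.cast_nonneg _) (by exact_mod_cast g2) (by linarith)
  set E1 : ℕ → Finset ℤ := fun i => (IA A).filter (fun a => δ * (m i : ℕ) <
    |cnt (m i) a (fun k => s k * cF (m i) r x F k) - t * model (m i) (fun k => s k * cF (m i) r x F k)|) with hE1
  set E2 : ℕ → Finset ℤ := fun i => (IA A).filter (fun a => δ * (m i : ℕ) < cnt (m i) a (ed (m i) r x w)) with hE2
  have hc1 : ∀ i ∈ range I, ((E1 i).card : ℝ) ≤ δ * A := by
    intro i hi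
    obtain ⟨_, _, g3⟩ := hmN i hi
    exact hCH (m i) A (by omega) (hadm i hi)
  have hc2 : ∀ i ∈ range I, ((E2 i).card : ℝ) ≤ δ * A := by
    intro i hi
    obtain ⟨_, _, g3⟩ := hmN i hi
    have hm0 : (0 : ℝ) < (m i : ℕ) := by exact_mod_cast (by omega : 0 < m i)
    have h1 : ∑ a ∈ IA A, cnt (m i) a (ed (m i) r x w) ≤ r * C1 * w * A * (m i : ℕ) := by
      simp only [cnt_ed]
      rw [sum_comm]
      have h2 : ∀ j ∈ (univ : Finset (Fin r)), ∑ a ∈ IA A, cnt (m i) a (fun k => if PWn (m i) (x j) w k then 1 else 0)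
          ≤ C1 * w * A * (m i : ℕ) := fun j _ => hP (m i) A (by omega) (hadm i hi) (x j) (hu j)
      refine (sum_le_sum h2).trans (le_of_eq ?_)
      rw [sum_const, card_univ, Fintype.card_fin, nsmul_eq_mul]
      ring
    refine (TI.markov (IA A) (fun a => cnt (m i) a (ed (m i) r x w)) (δ * (m i : ℕ)) _ (by positivity)
      (fun a _ => ?_) h1).trans ?_
    · unfold cnt ed
      exact sum_nonneg fun _ _ => sum_nonneg fun _ _ => by positivity
    · rw [div_le_iff₀ (by positivity)]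
      calc r * C1 * w * A * (m i : ℕ) ≤ δ ^ 2 * A * (m i : ℕ) := by gcongr
        _ = δ * A * (δ * (m i : ℕ)) := by ring
  have hmod : ∀ i ∈ range I, model (m i) (ed (m i) r x w) ≤ δ * (m i : ℕ) := by
    intro i hi
    obtain ⟨_, _, g3⟩ := hmN i hi
    rw [model_ed]
    have h2 : ∀ j ∈ (univ : Finset (Fin r)), model (m i) (fun k => if PWn (m i) (x j) w k then 1 else 0)
        ≤ C2 * w * (m i : ℕ) := fun j _ => hPM (m i) (by omega) (x j) (hu j)
    refine (sum_le_sum h2).trans ?_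
    rw [sum_const, card_univ, Fintype.card_fin, nsmul_eq_mul]
    calc (r : ℝ) * (C2 * w * (m i : ℕ)) = r * C2 * w * (m i : ℕ) := by ring
      _ ≤ δ * (m i : ℕ) := by gcongr
  set B := (range I).biUnion (fun i => E1 i ∪ E2 i) with hB
  have hBc : (B.card : ℝ) ≤ ε * A := by
    calc (B.card : ℝ) ≤ ∑ i ∈ range I, ((E1 i ∪ E2 i).card : ℝ) := by
          exact_mod_cast card_biUnion_le
      _ ≤ ∑ i ∈ range I, (δ * A + δ * A) := by
          refine sum_le_sum fun i hi => ?_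
          have h1 : ((E1 i ∪ E2 i).card : ℝ) ≤ (E1 i).card + (E2 i).card := by
            exact_mod_cast card_union_le _ _
          linarith [hc1 i hi, hc2 i hi]
      _ = 2 * (I * δ) * A := by
          rw [sum_const, card_range, nsmul_eq_mul]
          ring
      _ ≤ ε * A := by
          refine mul_le_mul_of_nonneg_right ?_ hA0
          linarith
  refine le_trans ?_ hBc
  apply Nat.cast_le.2
  apply card_le_card
  intro a ha
  rw [mem_filter] at ha
  obtain ⟨haI, hlt⟩ := ha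
  by_contra hcon
  refine absurd hlt (not_lt.2 ?_)
  have hg : ∀ k, |s k * cF N r x F k| ≤ 1 := by
    intro k
    rw [abs_mul]
    exact mul_le_one₀ (hs k) (abs_nonneg _) (hF _)
  have h1 := chain t ht0 ht1 (fun k => s k * cF N r x F k) hg a N I
  have h2 := base t ht0 ht1 (fun k => s k * cF N r x F k) hg a (N / 2 ^ I)
  have h3 : ((N / 2 ^ I : ℕ) : ℝ) ≤ ε / 32 * N := by
    calc ((N / 2 ^ I : ℕ) : ℝ) ≤ (N : ℝ) / ((2 ^ I : ℕ) : ℝ) := Nat.cast_div_le
      _ = 1 / 2 ^ I * N := by push_cast; ring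
      _ ≤ ε / 32 * N := mul_le_mul_of_nonneg_right hq1 hNr.le
  have h4 : ∑ i ∈ range I, |cnt (N / 2 ^ (i + 1)) a (fun k => s k * cF N r x F k)
      - t * model (N / 2 ^ (i + 1)) (fun k => s k * cF N r x F k)| ≤ 5 * (ε / 32) * N := by
    calc _ ≤ ∑ i ∈ range I, 5 * δ * ((N / 2 ^ (i + 1) : ℕ) : ℝ) := by
          refine sum_le_sum fun i hi => ?_
          obtain ⟨g1, g2, g3⟩ := hmN i hi
          have hM1 : 1 ≤ m i := by omega
          have hMr : (1 : ℝ) ≤ (m i : ℕ) := by exact_mod_cast hM1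
          have hMp : (0 : ℝ) < (m i : ℕ) := by linarith
          have hNM : ∀ j, (N : ℝ) ^ (x j) ≤ ((m i : ℕ) : ℝ) ^ (x j + w) := by
            intro j
            have e1 : (N : ℝ) ≤ 2 * K * (m i : ℕ) := by
              have : (N : ℝ) ≤ K * ((m i : ℕ) + 1) := by exact_mod_cast g1
              have hKr : (1 : ℝ) ≤ K := by exact_mod_cast hK1
              nlinarith
            calc (N : ℝ) ^ (x j) ≤ (2 * K * (m i : ℕ) : ℝ) ^ (x j) :=
                  Real.rpow_le_rpow hNr.le e1 (hx j).le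
              _ = (2 * K : ℝ) ^ (x j) * ((m i : ℕ) : ℝ) ^ (x j) := by
                  rw [Real.mul_rpow (by positivity) hMp.le]
              _ ≤ ((m i : ℕ) : ℝ) ^ w * ((m i : ℕ) : ℝ) ^ (x j) :=
                  mul_le_mul_of_nonneg_right (hM₄ (m i) (by omega) j) (by positivity)
              _ = ((m i : ℕ) : ℝ) ^ (x j + w) := by rw [← Real.rpow_add hMp, add_comm]
          have h5 := block N (m i) r x F hF w g2 hM1 (fun j => (hx j).le) hw0.le hNM s hs t ht0 ht1 a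
          have h6 : |cnt (m i) a (fun k => s k * cF (m i) r x F k)
              - t * model (m i) (fun k => s k * cF (m i) r x F k)| ≤ δ * (m i : ℕ) := by
            by_contra hlt
            push Not at hlt
            apply hcon
            rw [hB, mem_biUnion]
            exact ⟨i, hi, mem_union_left _ (mem_filter.2 ⟨haI, hlt⟩)⟩
          have h7 : cnt (m i) a (ed (m i) r x w) ≤ δ * (m i : ℕ) := by
            by_contra hlt
            push Not at hlt
            apply hcon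
            rw [hB, mem_biUnion]
            exact ⟨i, hi, mem_union_right _ (mem_filter.2 ⟨haI, hlt⟩)⟩
          have h8 := hmod i hi
          have h9 : N / 2 ^ (i + 1) = m i := rfl
          rw [h9]
          linarith
      _ = 5 * δ * ∑ i ∈ range I, ((N / 2 ^ (i + 1) : ℕ) : ℝ) := by rw [mul_sum]
      _ ≤ 5 * δ * N := mul_le_mul_of_nonneg_left (FINCM.sum_half I N) (by positivity)
      _ ≤ 5 * (ε / 32) * N := by gcongr
  have h5 : 0 ≤ ε * N := by positivity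
  linarith

end FINDM

open FINDM in
theorem specFINDK (hC : SpecCHWD) (hP : SpecPWIN) (hPM : SpecPWINM) (hS : SpecSLOW) : SpecFINDK := by
  intro θ ε r x F K₀ hθ hε hx hF hK₀
  have hIcc : ∀ X : ℕ, Icc 1 X = Ioc 0 X := fun X => by
    ext n
    simp only [mem_Icc, mem_Ioc]
    omega
  obtain ⟨N₁, h1⟩ := genK hP hPM θ r x F hθ hx hF (fun _ => 1) (fun _ => by simp) 1 zero_le_one le_rfl
    (fun δ hδ => by
      obtain ⟨N₀, h⟩ := hC θ δ r x F hθ hδ hx hF
      refine ⟨N₀, fun M A hM hA => ?_⟩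
      have h2 := (h M A hM hA).1
      simp only [one_mul]
      exact h2) (ε / 2) (by positivity) K₀ hK₀
  obtain ⟨N₂, h2⟩ := genK hP hPM θ r x F hθ hx hF lio FINCM.abs_lio_le 0 le_rfl zero_le_one
    (fun δ hδ => by
      obtain ⟨N₀, h⟩ := hC θ δ r x F hθ hδ hx hF
      refine ⟨N₀, fun M A hM hA => ?_⟩
      have h2 := (h M A hM hA).2
      simp only [zero_mul, sub_zero]
      exact h2) ε hε K₀ hK₀
  obtain ⟨N₃, h3⟩ := hS (ε / 2) r x F (by positivity) hx hF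
  refine ⟨N₁ + N₂ + N₃, fun N A hN hA1 hA2 => ⟨?_, ?_⟩⟩
  · have hA0 : (0 : ℝ) ≤ A := Nat.cast_nonneg _
    refine le_trans ?_ ((h1 N A (by omega) hA1 hA2).trans (mul_le_mul_of_nonneg_right (by linarith) hA0))
    apply Nat.cast_le.2
    apply card_le_card
    intro a ha
    rw [mem_filter] at ha ⊢
    refine ⟨ha.1, ?_⟩
    by_contra hcon
    push Not at hcon
    have h4 := h3 N (by omega)
    have h5 : ∑ n ∈ Icc 1 N, cF N r x F (val a n) - (∑ m ∈ Icc 1 (N ^ 2), cF N r x F m) / N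
        = DD 1 (fun m => 1 * cF N r x F m) a N
          + ((∑ m ∈ Icc 1 (N ^ 2), cF N r x F m / (2 * √(m : ℝ))) - (∑ m ∈ Icc 1 (N ^ 2), cF N r x F m) / N) := by
      unfold DD
      simp only [one_mul]
      rw [hIcc N, hIcc (N ^ 2)]
      ring
    have h6 := ha.2
    rw [h5] at h6
    have h7 := abs_add_le (DD 1 (fun m => 1 * cF N r x F m) a N)
      ((∑ m ∈ Icc 1 (N ^ 2), cF N r x F m / (2 * √(m : ℝ))) - (∑ m ∈ Icc 1 (N ^ 2), cF N r x F m) / N)
    linarith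
  · refine le_trans ?_ (h2 N A (by omega) hA1 hA2)
    apply Nat.cast_le.2
    apply card_le_card
    intro a ha
    rw [mem_filter] at ha ⊢
    refine ⟨ha.1, ?_⟩
    have h6 := ha.2
    have h7 : DD 0 (fun m => lio m * cF N r x F m) a N = ∑ n ∈ Icc 1 N, lio (val a n) * cF N r x F (val a n) := by
      unfold DD
      rw [hIcc N, zero_mul, sub_zero]
    rw [h7]
    exact h6

end

end Pool.Agent.Lib.MP391708.QPA.C
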