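import Pool.Agent.Lib.MP_391708_nt.QPA.C.FLCc

/-!
# Module FLC: the Liouville function of the part of `n²+a` with primes in `(w, z)`, in residue classes
-/

set_option autoImplicit false

namespace Pool.Agent.Lib.MP391708.QPA.C.FLCM

open Finset Filter Topology
open Pool.Agent.Lib.MP391708.QPA
open Pool.Agent.Lib.MP391708.QPA.H
open scoped Classical

noncomputable section

/-- at most one `n` with `n² + a = 0` -/
lemma card_zero (a : ℤ) (S : Finset ℕ) : (S.filter (fun n => val a n = 0)).card ≤ 1 := by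
  rw [card_le_one]
  intro n hn m hm
  have h1 := (mem_filter.1 hn).2
  have h2 := (mem_filter.1 hm).2
  unfold val at h1 h2
  rw [Int.natAbs_eq_zero] at h1 h2
  have h3 : (n : ℤ) ^ 2 = (m : ℤ) ^ 2 := by linarith
  have h4 : n ^ 2 = m ^ 2 := by exact_mod_cast h3
  exact Nat.pow_left_injective (by norm_num : (2 : ℕ) ≠ 0) h4

/-- the signed indicator for a set of primes -/
def sg (S : ℝ) (T : Finset ℕ) : ℝ := if ((∏ p ∈ T, p : ℕ) : ℝ) ≤ S then (-1 : ℝ) ^ T.card else 0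

lemma abs_sg (S : ℝ) (T : Finset ℕ) : |sg S T| ≤ 1 := by
  unfold sg
  split_ifs
  · rw [abs_pow, abs_neg, abs_one, one_pow]
  · simp

/-- from `PW2` to `DD` -/
lemma to_DD (a : ℤ) (w : ℕ) (z S : ℝ) (I : Finset ℕ) :
    |∑ n ∈ I, sg S (PW2 w z (val a n))| ≤ |∑ n ∈ I, sg S (DD w z (val a n))| + 2 := by
  have h1 : |∑ n ∈ I, sg S (PW2 w z (val a n)) - ∑ n ∈ I, sg S (DD w z (val a n))| ≤ 2 := by
    rw [← sum_sub_distrib]
    refine (abs_sum_le_sum_abs _ _).trans ?_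
    have h2 : ∀ n ∈ I, |sg S (PW2 w z (val a n)) - sg S (DD w z (val a n))|
        ≤ if val a n = 0 then 2 else 0 := by
      intro n _
      split_ifs with h
      · have e1 := abs_sg S (PW2 w z (val a n))
        have e2 := abs_sg S (DD w z (val a n))
        refine (abs_sub _ _).trans ?_
        linarith
      · rw [PW2_eq w z _ h, sub_self, abs_zero]
    refine (sum_le_sum h2).trans ?_
    rw [← sum_filter, sum_const, nsmul_eq_mul]
    have h3 : ((I.filter (fun n => val a n = 0)).card : ℝ) ≤ 1 := by exact_mod_cast card_zero a I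
    linarith
  have h2 := abs_sub_abs_le_abs_sub (∑ n ∈ I, sg S (PW2 w z (val a n)))
    (∑ n ∈ I, sg S (DD w z (val a n)))
  linarith

/-- the number of sets of primes with a bounded product -/
lemma card_T (w : ℕ) (z S : ℝ) (hS : 0 ≤ S) :
    (((PP w z).powerset.filter (fun T => ((∏ p ∈ T, p : ℕ) : ℝ) ≤ S)).card : ℝ) ≤ S := by
  have h1 : ((PP w z).powerset.filter (fun T => ((∏ p ∈ T, p : ℕ) : ℝ) ≤ S)).card
      ≤ (Icc 1 ⌊S⌋₊).card := by
    apply card_le_card_of_injOn (fun T => ∏ p ∈ T, p)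
    · intro T hT
      have hT' := mem_filter.1 (mem_coe.1 hT)
      have hTs := mem_powerset.1 hT'.1
      have h0 : ∏ p ∈ T, p ≠ 0 := (sqf_prod fun p hp => (mem_PP.1 (hTs hp)).1).ne_zero
      rw [mem_coe, mem_Icc]
      exact ⟨Nat.pos_of_ne_zero h0, Nat.le_floor hT'.2⟩
    · intro T hT T' hT' h
      have e1 := mem_powerset.1 (mem_filter.1 (mem_coe.1 hT)).1
      have e2 := mem_powerset.1 (mem_filter.1 (mem_coe.1 hT')).1
      have e3 := Nat.primeFactors_prod (fun p hp => (mem_PP.1 (e1 hp)).1)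
      have e4 := Nat.primeFactors_prod (fun p hp => (mem_PP.1 (e2 hp)).1)
      have h' : ∏ p ∈ T, p = ∏ p ∈ T', p := h
      rw [← e3, ← e4, h']
  rw [Nat.card_Icc, Nat.add_sub_cancel] at h1
  calc _ ≤ ((⌊S⌋₊ : ℕ) : ℝ) := by exact_mod_cast h1
    _ ≤ S := Nat.floor_le hS

/-- expansion over the sets of primes -/
lemma expand (w : ℕ) (z S : ℝ) (a : ℤ) (I : Finset ℕ) :
    ∑ n ∈ I, sg S (DD w z (val a n)) = ∑ T ∈ (PP w z).powerset, (if ((∏ p ∈ T, p : ℕ) : ℝ) ≤ S then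
      (-1 : ℝ) ^ T.card * ∑ n ∈ I, (if (∏ p ∈ T, p) ∣ val a n then 1 else 0) *
        rInd z (vT w z T (val a n)) else 0) := by
  have h1 : ∀ n ∈ I, sg S (DD w z (val a n)) = ∑ T ∈ (PP w z).powerset, sg S T *
      (if DD w z (val a n) = T then 1 else 0) := by
    intro n _
    have hD : DD w z (val a n) ∈ (PP w z).powerset := mem_powerset.2 (filter_subset _ _)
    rw [Finset.sum_eq_single (DD w z (val a n))]
    · rw [if_pos rfl, mul_one]
    · intro T _ hT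
      rw [if_neg (fun h => hT h.symm), mul_zero]
    · intro h
      exact absurd hD h
  rw [sum_congr rfl h1, sum_comm]
  refine sum_congr rfl fun T hT => ?_
  rw [← mul_sum]
  have h2 : ∑ n ∈ I, (if DD w z (val a n) = T then (1 : ℝ) else 0)
      = ∑ n ∈ I, (if (∏ p ∈ T, p) ∣ val a n then 1 else 0) * rInd z (vT w z T (val a n)) :=
    sum_congr rfl fun n _ => ind_eq w z T (mem_powerset.1 hT) _
  rw [h2]
  unfold sg
  split_ifs
  · rfl
  · rw [zero_mul]

end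

end Pool.Agent.Lib.MP391708.QPA.C.FLCM

namespace Pool.Agent.Lib.MP391708.QPA.C

open Finset Filter Topology
open Pool.Agent.Lib.MP391708.QPA
open Pool.Agent.Lib.MP391708.QPA.H
open scoped Classical
open FLCM

theorem specFLC (hFL : SpecFL) (h1 : SpecRHO1) (hM : SpecRHOM) (hS : SpecRHOS) : SpecFLC := by
  obtain ⟨C, hC0, hFL⟩ := hFL
  refine ⟨C + Real.exp 36, by positivity, ?_⟩
  intro b w Q e0 κ η hw hQ hQw he0 heb hη hη20 hκ
  obtain ⟨Cd, hCd, hdiv⟩ := Pool.Agent.Lib.MP_391708_nt.Div.card_divisors_le_rpow (1 / 100) (by norm_num)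
  obtain ⟨N₁, hN₁, hlog⟩ := FLA.log_le (C * (Cd * Cd) * (2 : ℝ) ^ (1 / e0) + 2) (17 / 100) (1 / 4) (by norm_num)
  obtain ⟨N₂, hN₂⟩ := eventually_atTop.1
    (((tendsto_rpow_atTop he0).comp tendsto_natCast_atTop_atTop).eventually_ge_atTop
      (Real.exp 1 + w + 1))
  refine ⟨max N₁ N₂, ?_⟩
  intro N hN a ν k hν hk hkr hkN S hS1 hS2
  have hNN₁ : N₁ ≤ N := le_trans (le_max_left _ _) hN
  have hz2 : Real.exp 1 + w + 1 ≤ (N : ℝ) ^ e0 := hN₂ N (le_trans (le_max_right _ _) hN)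
  have hlogN := hlog N hNN₁
  have hN2 : 2 ≤ N := le_trans hN₁ hNN₁
  have hN1 : (1 : ℝ) < N := by exact_mod_cast (by omega : 1 < N)
  have hN0 : (0 : ℝ) < N := by linarith
  set z : ℝ := (N : ℝ) ^ e0 with hz
  have hw0 : (0 : ℝ) ≤ w := Nat.cast_nonneg w
  have hexp : (0 : ℝ) < Real.exp 1 := Real.exp_pos 1
  have hexp2 : (2 : ℝ) ≤ Real.exp 1 := by have := Real.add_one_le_exp (1 : ℝ); linarith
  have hze : Real.exp 1 ≤ z := by linarith
  have hwz : (w : ℝ) < z := by linarith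
  have hzz : (2 : ℝ) ≤ z := by linarith
  have hk0 : k ≠ 0 := hk.ne_zero
  have hkpos : (0 : ℝ) < k := by exact_mod_cast Nat.pos_of_ne_zero hk0
  have hQpos : (0 : ℝ) < Q := by exact_mod_cast hQ
  have hSpos : 0 < S := lt_of_lt_of_le (by positivity) hS1
  -- local densities
  set h : ℕ → ℝ := fun p => (rho a p : ℝ) / p with hh
  have hrho2 : ∀ p : ℕ, p.Prime → (rho a p : ℝ) ≤ 2 := fun p hp => by
    exact_mod_cast RHO.rho_prime_le a p hp
  have hPP5 : ∀ p ∈ PP w z, (5 : ℝ) ≤ p := fun p hp => by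
    have := (mem_PP.1 hp).2.1
    exact_mod_cast (by omega : 5 ≤ p)
  have hh0 : ∀ p ∈ PP w z, 0 ≤ h p := fun p _ => by positivity
  have hh2 : ∀ p ∈ PP w z, h p ≤ 2 / (p : ℝ) := fun p hp => by
    have e1 := hrho2 p (mem_PP.1 hp).1
    have e2 := hPP5 p hp
    exact div_le_div_of_nonneg_right e1 (by linarith)
  have hh25 : ∀ p ∈ PP w z, h p ≤ 2 / 5 := fun p hp => by
    refine (hh2 p hp).trans ?_
    have e2 := hPP5 p hp
    rw [div_le_div_iff₀ (by linarith) (by norm_num)]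
    linarith
  set I : Finset ℕ := (Ioc N (2 * N)).filter (fun n => n % Q = ν ∧ k ∣ val a n) with hI
  set M : ℝ := (N : ℝ) / Q * ((rho a k : ℝ) / k) with hMdef
  have hM0 : 0 ≤ M := by positivity
  set R1 : ℝ := C * (1 + Real.log N) * ((N : ℝ) ^ (1 / 10 : ℝ) *
    ((2 : ℝ) ^ (1 / e0) * (Cd * (N : ℝ) ^ (1 / 100 : ℝ)) * (Cd * (N : ℝ) ^ (1 / 100 : ℝ)))) with hR1
  have hl : 0 ≤ Real.log N := Real.log_nonneg hN1.le
  have hR10 : 0 ≤ R1 := by positivity
  -- the number of prime factors of k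
  have hωk : (rho a k : ℝ) ≤ (2 : ℝ) ^ (1 / e0) := by
    have h3 := FLA.card_primeFactors_le hN2 he0 hk0 hkr hkN
    have h4 : (k.primeFactors.card : ℝ) ≤ 1 / e0 := by
      rw [le_div_iff₀ he0]
      linarith
    have h5 : (rho a k : ℝ) ≤ (2 : ℝ) ^ k.primeFactors.card := by exact_mod_cast hS a k hk
    refine h5.trans ?_
    rw [← Real.rpow_natCast]
    exact Real.rpow_le_rpow_of_exponent_le (by norm_num) h4
  have hρs : ∀ q : ℕ, Squarefree q → (q : ℝ) ≤ N → (rho a q : ℝ) ≤ Cd * (N : ℝ) ^ (1 / 100 : ℝ) := by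
    intro q hq hqN
    have h7 : (rho a q : ℝ) ≤ (2 : ℝ) ^ q.primeFactors.card := by exact_mod_cast hS a q hq
    have h8 : ((2 : ℝ) ^ q.primeFactors.card) ≤ q.divisors.card := by
      exact_mod_cast FLA.two_pow_le q hq.ne_zero
    refine h7.trans (h8.trans ((hdiv q (Nat.pos_of_ne_zero hq.ne_zero)).trans ?_))
    refine mul_le_mul_of_nonneg_left ?_ hCd.le
    exact Real.rpow_le_rpow (Nat.cast_nonneg q) hqN (by norm_num)
  -- the level
  have hlev : z ^ (8 * b + 16) ≤ (N : ℝ) ^ (1 / 10 : ℝ) := by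
    rw [hz, ← Real.rpow_natCast, ← Real.rpow_mul hN0.le]
    refine Real.rpow_le_rpow_of_exponent_le hN1.le ?_
    push_cast
    linarith
  have hlogz : Real.log z ≤ Real.log N := by
    rw [hz, Real.log_rpow hN0]
    have : e0 ≤ 1 := by
      have hb0 : (0 : ℝ) ≤ b := by positivity
      nlinarith
    nlinarith
  have hlogz0 : 0 ≤ Real.log z := Real.log_nonneg (by linarith)
  have hNle : ∀ x : ℝ, x ≤ 1 → (N : ℝ) ^ x ≤ N := fun x hx => by
    calc (N : ℝ) ^ x ≤ (N : ℝ) ^ (1 : ℝ) := Real.rpow_le_rpow_of_exponent_le hN1.le hx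
      _ = N := Real.rpow_one _
  have hSN : S ≤ (N : ℝ) ^ (1 / 20 : ℝ) := hS2.trans (Real.rpow_le_rpow_of_exponent_le hN1.le hη20)
  -- FL for every T
  have key : ∀ T ∈ (PP w z).powerset, ((∏ p ∈ T, p : ℕ) : ℝ) ≤ S →
      |(∑ n ∈ I, (if (∏ p ∈ T, p) ∣ val a n then 1 else 0) * rInd z (vT w z T (val a n)))
        - M * ((∏ p ∈ T, h p) * ∏ p ∈ PP w z \ T, (1 - h p))|
      ≤ C * Real.exp (-(b : ℝ)) * M * ((∏ p ∈ T, h p) * ∏ p ∈ PP w z \ T, (1 - h p)) + R1 := by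
    intro T hT hTS
    have hT' := mem_powerset.1 hT
    have hTp : ∀ p ∈ T, p.Prime := fun p hp => (mem_PP.1 (hT' hp)).1
    have hX : 0 ≤ M * ∏ p ∈ T, h p := mul_nonneg hM0 (prod_nonneg fun p hp => hh0 p (hT' hp))
    have hg : ∀ p : ℕ, p.Prime → 0 ≤ (if p ∈ PP w z \ T then h p else 0) ∧
        (if p ∈ PP w z \ T then h p else 0) ≤ 2 / (p : ℝ) ∧
        (if p ∈ PP w z \ T then h p else 0) ≤ 2 / 3 := by
      intro p hp
      have hp0 : (0 : ℝ) < p := by exact_mod_cast hp.pos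
      split_ifs with hc
      · have hc' := (mem_sdiff.1 hc).1
        exact ⟨hh0 p hc', hh2 p hc', (hh25 p hc').trans (by norm_num)⟩
      · exact ⟨le_rfl, by positivity, by norm_num⟩
    have k1 := hFL b z hzz I (fun n => vT w z T (val a n))
      (fun n => if (∏ p ∈ T, p) ∣ val a n then 1 else 0) (M * ∏ p ∈ T, h p)
      (fun p => if p ∈ PP w z \ T then h p else 0) hX (fun _ _ => by positivity) hg
    rw [prod_g w z T h] at k1
    rw [show M * ((∏ p ∈ T, h p) * ∏ p ∈ PP w z \ T, (1 - h p))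
      = M * (∏ p ∈ T, h p) * ∏ p ∈ PP w z \ T, (1 - h p) by ring]
    refine k1.trans ?_
    rw [show C * Real.exp (-(b : ℝ)) * M * ((∏ p ∈ T, h p) * ∏ p ∈ PP w z \ T, (1 - h p))
      = C * Real.exp (-(b : ℝ)) * (M * ∏ p ∈ T, h p) * ∏ p ∈ PP w z \ T, (1 - h p) by ring]
    refine add_le_add le_rfl ?_
    have hterm : ∀ δ ∈ (Icc 1 ⌊z ^ (8 * b + 16)⌋₊).filter
        (fun δ => Squarefree δ ∧ ∀ p : ℕ, p.Prime → p ∣ δ → (p : ℝ) < z),
        |(∑ i ∈ I.filter (fun i => δ ∣ vT w z T (val a i)),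
            (if (∏ p ∈ T, p) ∣ val a i then (1 : ℝ) else 0))
          - (M * ∏ p ∈ T, h p) * ∏ p ∈ δ.primeFactors, (if p ∈ PP w z \ T then h p else 0)|
        ≤ (2 : ℝ) ^ (1 / e0) * (Cd * (N : ℝ) ^ (1 / 100 : ℝ)) * (Cd * (N : ℝ) ^ (1 / 100 : ℝ)) := by
      intro δ hδ
      rw [Finset.mem_filter, Finset.mem_Icc] at hδ
      obtain ⟨⟨hδ1, hδ2⟩, hδs, hδz⟩ := hδ
      have k2 := rem h1 hM a N Q ν k w z T δ hQ hν hQw hwz hk hkr hT' hδs
      refine k2.trans ?_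
      have h9 : (δ : ℝ) ≤ N := by
        refine le_trans (le_trans (by exact_mod_cast hδ2) (Nat.floor_le (by positivity))) ?_
        exact hlev.trans (hNle _ (by norm_num))
      have h10 : ((∏ p ∈ T, p : ℕ) : ℝ) ≤ N := hTS.trans (hSN.trans (hNle _ (by norm_num)))
      gcongr
      · exact hρs _ (sqf_prod hTp) h10
      · exact hρs δ hδs h9
    have hsum := Finset.sum_le_sum hterm
    rw [Finset.sum_const, nsmul_eq_mul] at hsum
    have hcard : ((((Icc 1 ⌊z ^ (8 * b + 16)⌋₊).filter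
        (fun δ => Squarefree δ ∧ ∀ p : ℕ, p.Prime → p ∣ δ → (p : ℝ) < z)).card : ℕ) : ℝ)
        ≤ (N : ℝ) ^ (1 / 10 : ℝ) := by
      refine le_trans (Nat.cast_le.2 (Finset.card_filter_le _ _)) ?_
      rw [Nat.card_Icc, Nat.add_sub_cancel]
      exact (Nat.floor_le (by positivity)).trans hlev
    rw [hR1]
    refine mul_le_mul ?_ (hsum.trans ?_) (Finset.sum_nonneg fun _ _ => abs_nonneg _) (by positivity)
    · exact mul_le_mul_of_nonneg_left (by linarith) hC0.le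
    · exact mul_le_mul_of_nonneg_right hcard (by positivity)
  -- conclusion
  have e0' : ∑ n ∈ I, (if ((∏ p ∈ PW2 w z (val a n), p : ℕ) : ℝ) ≤ S
      then (-1 : ℝ) ^ (PW2 w z (val a n)).card else 0) = ∑ n ∈ I, sg S (PW2 w z (val a n)) := rfl
  rw [e0']
  refine (to_DD a w z S I).trans ?_
  rw [expand]
  set U : Finset ℕ → ℝ := fun T => (∏ p ∈ T, h p) * ∏ p ∈ PP w z \ T, (1 - h p) with hU
  have hU0 : ∀ T ∈ (PP w z).powerset, 0 ≤ U T := by
    intro T hT
    have hT' := mem_powerset.1 hT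
    exact mul_nonneg (prod_nonneg fun p hp => hh0 p (hT' hp))
      (prod_nonneg fun p hp => by linarith [hh25 p (mem_sdiff.1 hp).1])
  have m1 : |∑ T ∈ (PP w z).powerset, (if ((∏ p ∈ T, p : ℕ) : ℝ) ≤ S then
      (-1 : ℝ) ^ T.card * ∑ n ∈ I, (if (∏ p ∈ T, p) ∣ val a n then 1 else 0) *
        rInd z (vT w z T (val a n)) else 0)
      - ∑ T ∈ (PP w z).powerset, (if ((∏ p ∈ T, p : ℕ) : ℝ) ≤ S then
      (-1 : ℝ) ^ T.card * (M * U T) else 0)|
      ≤ C * Real.exp (-(b : ℝ)) * M + S * R1 := by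
    rw [← sum_sub_distrib]
    refine (abs_sum_le_sum_abs _ _).trans ?_
    have m2 : ∀ T ∈ (PP w z).powerset, |(if ((∏ p ∈ T, p : ℕ) : ℝ) ≤ S then
        (-1 : ℝ) ^ T.card * ∑ n ∈ I, (if (∏ p ∈ T, p) ∣ val a n then 1 else 0) *
          rInd z (vT w z T (val a n)) else 0)
        - (if ((∏ p ∈ T, p : ℕ) : ℝ) ≤ S then (-1 : ℝ) ^ T.card * (M * U T) else 0)|
        ≤ C * Real.exp (-(b : ℝ)) * M * U T + (if ((∏ p ∈ T, p : ℕ) : ℝ) ≤ S then R1 else 0) := by
      intro T hT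
      split_ifs with hc
      · rw [← mul_sub, abs_mul, abs_pow, abs_neg, abs_one, one_pow, one_mul]
        exact key T hT hc
      · rw [sub_zero, abs_zero]
        have := hU0 T hT
        positivity
    refine (sum_le_sum m2).trans ?_
    rw [sum_add_distrib, ← mul_sum, hU, sum_one, mul_one, ← sum_filter, sum_const, nsmul_eq_mul]
    refine add_le_add le_rfl (mul_le_mul_of_nonneg_right (card_T w z S hSpos.le) hR10)
  have m3 : |∑ T ∈ (PP w z).powerset, (if ((∏ p ∈ T, p : ℕ) : ℝ) ≤ S then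
      (-1 : ℝ) ^ T.card * (M * U T) else 0)| ≤ M * (VC w z a + Real.exp 36 *
        Real.exp (-(η / (2 * e0)))) := by
    have m4 : ∑ T ∈ (PP w z).powerset, (if ((∏ p ∈ T, p : ℕ) : ℝ) ≤ S then
      (-1 : ℝ) ^ T.card * (M * U T) else 0) = M * ∑ T ∈ (PP w z).powerset,
        (if ((∏ p ∈ T, p : ℕ) : ℝ) ≤ S then (-1 : ℝ) ^ T.card * U T else 0) := by
      rw [mul_sum]
      refine sum_congr rfl fun T _ => ?_
      split_ifs <;> ring
    rw [m4, abs_mul, abs_of_nonneg hM0]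
    refine mul_le_mul_of_nonneg_left ?_ hM0
    refine (main_term w z S h hze hSpos hh0 (fun p hp => by linarith [hh25 p hp]) hh2).trans ?_
    have m5 : ∏ p ∈ PP w z, (1 - 2 * h p) = VC w z a := by
      rw [VC_eq]
      exact prod_congr rfl fun p _ => by rw [hh, mul_div_assoc]
    rw [m5]
    refine add_le_add le_rfl (mul_le_mul_of_nonneg_left ?_ (Real.exp_pos _).le)
    have hlz : Real.log z = e0 * Real.log N := by rw [hz, Real.log_rpow hN0]
    have hlN : 0 < Real.log N := Real.log_pos hN1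
    have hzl : 0 < Real.log z := by rw [hlz]; positivity
    calc S ^ (-(1 / Real.log z)) ≤ ((N : ℝ) ^ (η / 2)) ^ (-(1 / Real.log z)) := by
          apply Real.rpow_le_rpow_of_nonpos (by positivity) hS1
          rw [neg_nonpos]
          positivity
      _ = Real.exp (-(η / (2 * e0))) := by
          rw [← Real.rpow_mul hN0.le, Real.rpow_def_of_pos hN0, hlz]
          congr 1
          field_simp
  have m6 : S * R1 + 2 ≤ (N : ℝ) ^ (1 / 4 : ℝ) := by
    refine le_trans ?_ hlogN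
    have m7 : S * R1 ≤ (N : ℝ) ^ (1 / 20 : ℝ) * R1 := mul_le_mul_of_nonneg_right hSN hR10
    have m8 : (N : ℝ) ^ (1 / 20 : ℝ) * R1 = C * (Cd * Cd) * (2 : ℝ) ^ (1 / e0) * (1 + Real.log N) *
        (N : ℝ) ^ (17 / 100 : ℝ) := by
      rw [hR1, show (N : ℝ) ^ (1 / 20 : ℝ) * (C * (1 + Real.log N) * ((N : ℝ) ^ (1 / 10 : ℝ) *
        ((2 : ℝ) ^ (1 / e0) * (Cd * (N : ℝ) ^ (1 / 100 : ℝ)) * (Cd * (N : ℝ) ^ (1 / 100 : ℝ)))))
        = C * (Cd * Cd) * (2 : ℝ) ^ (1 / e0) * (1 + Real.log N) * (((N : ℝ) ^ (1 / 20 : ℝ) *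
          (N : ℝ) ^ (1 / 10 : ℝ)) * ((N : ℝ) ^ (1 / 100 : ℝ) * (N : ℝ) ^ (1 / 100 : ℝ))) by ring,
        ← Real.rpow_add hN0, ← Real.rpow_add hN0, ← Real.rpow_add hN0]
      norm_num
    have m9 : (2 : ℝ) ≤ 2 * (1 + Real.log N) * (N : ℝ) ^ (17 / 100 : ℝ) := by
      have u1 : (1 : ℝ) ≤ (N : ℝ) ^ (17 / 100 : ℝ) := Real.one_le_rpow hN1.le (by norm_num)
      nlinarith
    calc S * R1 + 2 ≤ C * (Cd * Cd) * (2 : ℝ) ^ (1 / e0) * (1 + Real.log N) *
        (N : ℝ) ^ (17 / 100 : ℝ) + 2 * (1 + Real.log N) * (N : ℝ) ^ (17 / 100 : ℝ) := by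
          rw [← m8]
          exact add_le_add m7 m9
      _ = _ := by ring
  have m10 := abs_sub_abs_le_abs_sub (∑ T ∈ (PP w z).powerset, (if ((∏ p ∈ T, p : ℕ) : ℝ) ≤ S then
      (-1 : ℝ) ^ T.card * ∑ n ∈ I, (if (∏ p ∈ T, p) ∣ val a n then 1 else 0) *
        rInd z (vT w z T (val a n)) else 0))
      (∑ T ∈ (PP w z).powerset, (if ((∏ p ∈ T, p : ℕ) : ℝ) ≤ S then
      (-1 : ℝ) ^ T.card * (M * U T) else 0))
  have m11 : 0 ≤ Real.exp 36 * Real.exp (-(b : ℝ)) * M := by positivity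
  have m12 : 0 ≤ C * Real.exp (-(η / (2 * e0))) * M := by positivity
  have m13 : M * (VC w z a + (C + Real.exp 36) * Real.exp (-(b : ℝ)) +
      (C + Real.exp 36) * Real.exp (-(η / (2 * e0))))
      = M * (VC w z a + Real.exp 36 * Real.exp (-(η / (2 * e0)))) + C * Real.exp (-(b : ℝ)) * M
        + Real.exp 36 * Real.exp (-(b : ℝ)) * M + C * Real.exp (-(η / (2 * e0))) * M := by ring
  rw [m13]
  linarith

end Pool.Agent.Lib.MP391708.QPA.C
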