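import Pool.Agent.Lib.MP_391708_nt.QPA.C.SpecC
import Pool.Agent.Lib.MP_391708_nt.QPA.P3M
import Pool.Agent.Lib.MP_391708_nt.QPA.FLA
import Pool.Agent.Lib.MP_391708_nt.QPA.Mta
import Pool.Agent.Lib.MP_391708_nt.QPA.Rho

/-!
# Module FLC, lemmas: counting in residue classes, the decomposition by the primes in `(w, z)`, Rankin's bound
-/

set_option autoImplicit false

namespace Pool.Agent.Lib.MP391708.QPA.C.FLCM

open Finset Filter Topology
open Pool.Agent.Lib.MP391708.QPA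
open Pool.Agent.Lib.MP391708.QPA.H
open scoped Classical

noncomputable section

/-- the number of elements of a residue class in an interval -/
lemma card_class (k c x H : ℕ) (hk : 1 ≤ k) :
    |(((Ioc x (x + H)).filter (fun n => n ≡ c [MOD k])).card : ℝ) - (H : ℝ) / k| ≤ 1 := by
  have hk' : 0 < k := hk
  have hc := Nat.Ioc_filter_modEq_card (a := x) (b := x + H) hk' c
  set n := ((Ioc x (x + H)).filter (fun n => n ≡ c [MOD k])).card with hcdef
  set u : ℚ := (((x + H : ℕ) : ℚ) - c) / k with hu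
  set v : ℚ := ((x : ℚ) - c) / k with hv
  have huv : v ≤ u := by
    rw [hu, hv]
    gcongr
    push_cast
    linarith [(Nat.cast_nonneg H : (0 : ℚ) ≤ H)]
  have hfl : ⌊v⌋ ≤ ⌊u⌋ := Int.floor_mono huv
  have hc2 : (n : ℤ) = ⌊u⌋ - ⌊v⌋ := by
    rw [hcdef, hc]
    exact max_eq_left (by linarith)
  have hd : u - v = (H : ℚ) / k := by
    rw [hu, hv]
    push_cast
    ring
  have h4 : |((n : ℤ) : ℚ) - (H : ℚ) / k| ≤ 1 := by
    rw [hc2, ← hd]
    push_cast
    rw [abs_le]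
    have e1 := Int.floor_le u
    have e2 := Int.lt_floor_add_one u
    have e3 := Int.floor_le v
    have e4 := Int.lt_floor_add_one v
    constructor <;> linarith
  have h5 : ((|((n : ℤ) : ℚ) - (H : ℚ) / k| : ℚ) : ℝ) ≤ ((1 : ℚ) : ℝ) := by exact_mod_cast h4
  push_cast at h5
  exact h5

lemma dvd_val_iff (a : ℤ) (q n : ℕ) : q ∣ val a n ↔ (q : ℤ) ∣ (n : ℤ) ^ 2 + a := by
  unfold val
  rw [Int.natCast_dvd]

lemma dvd_congr (a : ℤ) (q n m : ℕ) (h : n ≡ m [MOD q]) :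
    ((q : ℤ) ∣ (n : ℤ) ^ 2 + a ↔ (q : ℤ) ∣ (m : ℤ) ^ 2 + a) := by
  have h2 : (q : ℤ) ∣ (n : ℤ) - m := by
    have := (Int.natCast_modEq_iff.2 h).symm.dvd
    simpa using this
  have h3 : (q : ℤ) ∣ ((n : ℤ) ^ 2 + a) - ((m : ℤ) ^ 2 + a) := by
    have : ((n : ℤ) ^ 2 + a) - ((m : ℤ) ^ 2 + a) = ((n : ℤ) - m) * (n + m) := by ring
    rw [this]
    exact Dvd.dvd.mul_right h2 _
  constructor
  · intro h
    have h5 := dvd_sub h h3
    rwa [sub_sub_cancel] at h5
  · intro h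
    have h5 := dvd_add h3 h
    rwa [sub_add_cancel] at h5

/-- the number of `n` in a class modulo `Q` with `q ∣ n²+a` -/
lemma count (a : ℤ) (q Q ν x H : ℕ) (hq : 1 ≤ q) (hQ : 1 ≤ Q) (hc : Nat.Coprime Q q) (hν : ν < Q) :
    |(((Ioc x (x + H)).filter (fun n => n % Q = ν ∧ q ∣ val a n)).card : ℝ)
      - (H : ℝ) / Q * ((rho a q : ℝ) / q)| ≤ rho a q := by
  have hq0 : (0 : ℝ) < q := by exact_mod_cast hq
  have hQ0 : (0 : ℝ) < Q := by exact_mod_cast hQ
  set R := (range q).filter (fun μ : ℕ => (q : ℤ) ∣ (μ : ℤ) ^ 2 + a) with hR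
  have hcard : rho a q = R.card := rfl
  have hmR : ∀ μ, μ ∈ R ↔ μ < q ∧ (q : ℤ) ∣ (μ : ℤ) ^ 2 + a := by
    intro μ
    rw [hR, mem_filter, mem_range]
  have h1 : (Ioc x (x + H)).filter (fun n => n % Q = ν ∧ q ∣ val a n)
      = R.biUnion (fun μ => (Ioc x (x + H)).filter
        (fun n => n ≡ (Nat.chineseRemainder hc ν μ : ℕ) [MOD Q * q])) := by
    ext n
    simp only [mem_filter, mem_biUnion]
    constructor
    · rintro ⟨hn, hd1, hd2⟩
      refine ⟨n % q, (hmR _).2 ⟨Nat.mod_lt _ hq, ?_⟩, hn, ?_⟩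
      · exact (dvd_congr a q n (n % q) (Nat.mod_modEq n q).symm).1 ((dvd_val_iff a q n).1 hd2)
      · refine (Nat.modEq_and_modEq_iff_modEq_mul hc).1 ⟨?_, ?_⟩
        · refine Nat.ModEq.trans ?_ (Nat.chineseRemainder hc ν (n % q)).2.1.symm
          rw [← hd1]
          exact (Nat.mod_modEq n Q).symm
        · refine Nat.ModEq.trans ?_ (Nat.chineseRemainder hc ν (n % q)).2.2.symm
          exact (Nat.mod_modEq n q).symm
    · rintro ⟨μ, h3, hn, h4⟩
      obtain ⟨h5, h6⟩ := (Nat.modEq_and_modEq_iff_modEq_mul hc).2 h4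
      have h7 := h5.trans (Nat.chineseRemainder hc ν μ).2.1
      have h8 := h6.trans (Nat.chineseRemainder hc ν μ).2.2
      refine ⟨hn, ?_, ?_⟩
      · rw [Nat.ModEq, Nat.mod_eq_of_lt hν] at h7
        exact h7
      · exact (dvd_val_iff a q n).2 ((dvd_congr a q n μ h8).2 ((hmR μ).1 h3).2)
  have h2 : (((Ioc x (x + H)).filter (fun n => n % Q = ν ∧ q ∣ val a n)).card : ℝ)
      = ∑ μ ∈ R, (((Ioc x (x + H)).filter
        (fun n => n ≡ (Nat.chineseRemainder hc ν μ : ℕ) [MOD Q * q])).card : ℝ) := by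
    rw [h1, card_biUnion]
    · push_cast
      rfl
    · intro μ hμ μ' hμ' hne
      show Disjoint _ _
      rw [disjoint_left]
      intro n hn1 hn2
      rw [mem_filter] at hn1 hn2
      have e1 := (hmR μ).1 (Finset.mem_coe.1 hμ)
      have e2 := (hmR μ').1 (Finset.mem_coe.1 hμ')
      apply hne
      have h3 := ((Nat.modEq_and_modEq_iff_modEq_mul hc).2 hn1.2).2.trans
        (Nat.chineseRemainder hc ν μ).2.2
      have h4 := ((Nat.modEq_and_modEq_iff_modEq_mul hc).2 hn2.2).2.trans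
        (Nat.chineseRemainder hc ν μ').2.2
      have h5 := h3.symm.trans h4
      rwa [Nat.ModEq, Nat.mod_eq_of_lt e1.1, Nat.mod_eq_of_lt e2.1] at h5
  have hQq : 1 ≤ Q * q := Nat.mul_pos hQ hq
  rw [h2, hcard]
  have h4 : (∑ μ ∈ R, (((Ioc x (x + H)).filter
        (fun n => n ≡ (Nat.chineseRemainder hc ν μ : ℕ) [MOD Q * q])).card : ℝ))
      - (H : ℝ) / Q * ((R.card : ℝ) / q)
      = ∑ μ ∈ R, ((((Ioc x (x + H)).filter
        (fun n => n ≡ (Nat.chineseRemainder hc ν μ : ℕ) [MOD Q * q])).card : ℝ)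
          - (H : ℝ) / ((Q * q : ℕ) : ℝ)) := by
    rw [sum_sub_distrib, sum_const, nsmul_eq_mul]
    push_cast
    field_simp
  rw [h4]
  calc _ ≤ ∑ μ ∈ R, |(((Ioc x (x + H)).filter
        (fun n => n ≡ (Nat.chineseRemainder hc ν μ : ℕ) [MOD Q * q])).card : ℝ)
          - (H : ℝ) / ((Q * q : ℕ) : ℝ)| := abs_sum_le_sum_abs _ _
    _ ≤ ∑ μ ∈ R, 1 := sum_le_sum fun μ _ => card_class (Q * q) _ x H hQq
    _ = R.card := by rw [sum_const, nsmul_eq_mul, mul_one]

/-- the primes `w < p < z` -/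
def PP (w : ℕ) (z : ℝ) : Finset ℕ := (PB z).filter (fun p => w < p)

lemma mem_PP {w : ℕ} {z : ℝ} {p : ℕ} : p ∈ PP w z ↔ p.Prime ∧ w < p ∧ (p : ℝ) < z := by
  unfold PP PB
  rw [mem_filter, mem_filter, mem_range, Nat.lt_ceil]
  tauto

lemma VC_eq (w : ℕ) (z : ℝ) (a : ℤ) : VC w z a = ∏ p ∈ PP w z, (1 - 2 * (rho a p : ℝ) / p) := rfl

/-- the primes `w < p < z` that divide `m` -/
def DD (w : ℕ) (z : ℝ) (m : ℕ) : Finset ℕ := (PP w z).filter (fun p => p ∣ m)

lemma PW2_eq (w : ℕ) (z : ℝ) (m : ℕ) (hm : m ≠ 0) : PW2 w z m = DD w z m := by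
  ext p
  unfold PW2 DD
  rw [mem_filter, mem_filter, mem_PP, Nat.mem_primeFactors]
  tauto

/-- `∏_{p ∣ m, p ∈ PP \ T} p` -/
def vT (w : ℕ) (z : ℝ) (T : Finset ℕ) (m : ℕ) : ℕ := ∏ p ∈ ((PP w z) \ T).filter (fun p => p ∣ m), p

/-- `DD = T` if and only if `∏ T ∣ m` and `vT` is rough -/
lemma ind_eq (w : ℕ) (z : ℝ) (T : Finset ℕ) (hT : T ⊆ PP w z) (m : ℕ) :
    (if DD w z m = T then (1 : ℝ) else 0) = (if (∏ p ∈ T, p) ∣ m then 1 else 0) * rInd z (vT w z T m) := by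
  have hTp : ∀ p ∈ T, p.Prime := fun p hp => (mem_PP.1 (hT hp)).1
  have h1 : (∏ p ∈ T, p) ∣ m ↔ ∀ p ∈ T, p ∣ m := Mta.prod_dvd_iff hTp m
  have h2 : Rough z (vT w z T m) ↔ ∀ p ∈ PP w z \ T, ¬ p ∣ m := by
    constructor
    · intro h p hp hpm
      have hp' := mem_PP.1 (mem_sdiff.1 hp).1
      have h3 : p ∣ vT w z T m := by
        unfold vT
        exact dvd_prod_of_mem _ (mem_filter.2 ⟨hp, hpm⟩)
      have := h p hp'.1 h3
      linarith [hp'.2.2]
    · intro h p hp hpv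
      exfalso
      have h3 : vT w z T m = 1 := by
        unfold vT
        rw [filter_eq_empty_iff.2 (fun q hq => h q hq), prod_empty]
      rw [h3] at hpv
      exact hp.one_lt.ne' (Nat.dvd_one.1 hpv)
  by_cases h3 : DD w z m = T
  · rw [if_pos h3, if_pos, rInd, if_pos, mul_one]
    · rw [h2]
      intro p hp hpm
      have := mem_sdiff.1 hp
      apply this.2
      rw [← h3]
      exact mem_filter.2 ⟨this.1, hpm⟩
    · rw [h1]
      intro p hp
      rw [← h3] at hp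
      exact (mem_filter.1 hp).2
  · rw [if_neg h3]
    by_cases h4 : (∏ p ∈ T, p) ∣ m
    · rw [if_pos h4, rInd, if_neg, mul_zero]
      intro h5
      rw [h2] at h5
      rw [h1] at h4
      apply h3
      ext p
      constructor
      · intro hp
        by_contra hpT
        have hp' := mem_filter.1 hp
        exact h5 p (mem_sdiff.2 ⟨hp'.1, hpT⟩) hp'.2
      · intro hp
        exact mem_filter.2 ⟨hT hp, h4 p hp⟩
    · rw [if_neg h4, zero_mul]

/-- the divisors of `vT` -/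
lemma dvd_vT (w : ℕ) (z : ℝ) (T : Finset ℕ) (δ m : ℕ) (hδ : Squarefree δ) :
    δ ∣ vT w z T m ↔ δ.primeFactors ⊆ PP w z \ T ∧ δ ∣ m := by
  constructor
  · intro h
    have h1 : ∀ p ∈ δ.primeFactors, p ∈ (PP w z \ T).filter (fun p => p ∣ m) := by
      intro p hp
      have hpp := Nat.prime_of_mem_primeFactors hp
      have h2 : p ∣ vT w z T m := (Nat.dvd_of_mem_primeFactors hp).trans h
      unfold vT at h2
      obtain ⟨q, hq, hpq⟩ := (hpp.prime.dvd_finsetProd_iff _).1 h2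
      have hq' := mem_PP.1 (mem_sdiff.1 (mem_filter.1 hq).1).1
      have := (Nat.prime_dvd_prime_iff_eq hpp hq'.1).1 hpq
      rw [this]
      exact hq
    refine ⟨fun p hp => (mem_filter.1 (h1 p hp)).1, ?_⟩
    rw [← Nat.prod_primeFactors_of_squarefree hδ]
    exact Finset.prod_primes_dvd m (fun p hp => (Nat.prime_of_mem_primeFactors hp).prime)
      (fun p hp => (mem_filter.1 (h1 p hp)).2)
  · rintro ⟨h1, h2⟩
    rw [← Nat.prod_primeFactors_of_squarefree hδ]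
    unfold vT
    apply Finset.prod_dvd_prod_of_subset
    intro p hp
    exact mem_filter.2 ⟨h1 hp, (Nat.dvd_of_mem_primeFactors hp).trans h2⟩

end

end Pool.Agent.Lib.MP391708.QPA.C.FLCM
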