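import Pool.Agent.Lib.MP_391708_nt.QPA.C.FLCa

/-!
# Module FLC, lemmas: the main term
-/

set_option autoImplicit false

namespace Pool.Agent.Lib.MP391708.QPA.C.FLCM

open Finset Filter Topology
open Pool.Agent.Lib.MP391708.QPA
open Pool.Agent.Lib.MP391708.QPA.H
open scoped Classical

noncomputable section

/-- `∑_{p<z} log p/p ≤ log z + 8` -/
lemma sum_log_PP (w : ℕ) (z : ℝ) (hz : 1 ≤ z) :
    ∑ p ∈ PP w z, Real.log p / (p : ℝ) ≤ Real.log z + 8 := by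
  have h := P3M.mert 1 z le_rfl hz
  rw [Real.log_one, sub_zero] at h
  refine le_trans ?_ h
  apply Finset.sum_le_sum_of_subset_of_nonneg
  · intro p hp
    have hp' := mem_PP.1 hp
    rw [mem_filter, mem_Ioc]
    refine ⟨⟨?_, Nat.le_floor hp'.2.2.le⟩, hp'.1⟩
    rw [Nat.floor_one]
    exact hp'.1.one_lt
  · intro p hp _
    rw [mem_filter, mem_Ioc] at hp
    exact div_nonneg (Real.log_nonneg (by exact_mod_cast hp.2.one_lt.le)) (Nat.cast_nonneg _)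

/-- Rankin's bound -/
lemma rankin (w : ℕ) (z S : ℝ) (h : ℕ → ℝ) (hz : Real.exp 1 ≤ z) (hS : 0 < S)
    (h0 : ∀ p ∈ PP w z, 0 ≤ h p) (h1 : ∀ p ∈ PP w z, h p ≤ 1) (h2 : ∀ p ∈ PP w z, h p ≤ 2 / (p : ℝ)) :
    ∑ T ∈ (PP w z).powerset, (if ((∏ p ∈ T, p : ℕ) : ℝ) ≤ S then 0 else
      (∏ p ∈ T, h p) * ∏ p ∈ PP w z \ T, (1 - h p)) ≤ Real.exp 36 * S ^ (-(1 / Real.log z)) := by
  have hlz : 1 ≤ Real.log z := by
    rw [Real.le_log_iff_exp_le (lt_of_lt_of_le (Real.exp_pos 1) hz)]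
    exact hz
  have hz1 : 1 ≤ z := le_trans (by have := Real.add_one_le_exp (1 : ℝ); linarith) hz
  set τ : ℝ := 1 / Real.log z with hτ
  have hτ0 : 0 < τ := by positivity
  have hτ1 : τ * Real.log z = 1 := by rw [hτ]; field_simp
  have hpp : ∀ p ∈ PP w z, (1 : ℝ) < p := fun p hp => by exact_mod_cast (mem_PP.1 hp).1.one_lt
  have step : ∀ T ∈ (PP w z).powerset, (if ((∏ p ∈ T, p : ℕ) : ℝ) ≤ S then 0 else
      (∏ p ∈ T, h p) * ∏ p ∈ PP w z \ T, (1 - h p))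
      ≤ S ^ (-τ) * ((∏ p ∈ T, h p * (p : ℝ) ^ τ) * ∏ p ∈ PP w z \ T, (1 - h p)) := by
    intro T hT
    have hT' := mem_powerset.1 hT
    have e0 : 0 ≤ ∏ p ∈ T, h p := prod_nonneg fun p hp => h0 p (hT' hp)
    have e1 : 0 ≤ ∏ p ∈ PP w z \ T, (1 - h p) :=
      prod_nonneg fun p hp => by linarith [h1 p (mem_sdiff.1 hp).1]
    have e2 : ∏ p ∈ T, h p * (p : ℝ) ^ τ = (∏ p ∈ T, h p) * ((∏ p ∈ T, p : ℕ) : ℝ) ^ τ := by
      rw [prod_mul_distrib]
      congr 1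
      push_cast
      rw [Real.finsetProd_rpow]
      intro p _
      exact Nat.cast_nonneg p
    rw [e2]
    split_ifs with h3
    · positivity
    · push Not at h3
      have e3 : 1 ≤ S ^ (-τ) * ((∏ p ∈ T, p : ℕ) : ℝ) ^ τ := by
        rw [Real.rpow_neg hS.le, ← div_eq_inv_mul, ← Real.div_rpow (by positivity) hS.le]
        apply Real.one_le_rpow _ hτ0.le
        rw [le_div_iff₀ hS, one_mul]
        exact h3.le
      calc (∏ p ∈ T, h p) * ∏ p ∈ PP w z \ T, (1 - h p)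
          = 1 * ((∏ p ∈ T, h p) * ∏ p ∈ PP w z \ T, (1 - h p)) := by ring
        _ ≤ (S ^ (-τ) * ((∏ p ∈ T, p : ℕ) : ℝ) ^ τ) *
            ((∏ p ∈ T, h p) * ∏ p ∈ PP w z \ T, (1 - h p)) := by gcongr
        _ = _ := by ring
  refine (sum_le_sum step).trans ?_
  rw [← mul_sum, ← prod_add, mul_comm]
  have hS0 : 0 ≤ S ^ (-τ) := by positivity
  refine mul_le_mul_of_nonneg_right ?_ hS0
  have e4 : ∀ p ∈ PP w z, h p * (p : ℝ) ^ τ + (1 - h p) ≤ Real.exp (4 * τ * (Real.log p / p)) := by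
    intro p hp
    have hp1 := hpp p hp
    have hp0 : (0 : ℝ) < p := by linarith
    have hlp : 0 ≤ Real.log p := Real.log_nonneg hp1.le
    have e5 : τ * Real.log p ≤ 1 := by
      rw [← hτ1]
      apply mul_le_mul_of_nonneg_left _ hτ0.le
      exact Real.log_le_log hp0 (mem_PP.1 hp).2.2.le
    have e6 : 0 ≤ τ * Real.log p := by positivity
    have e7 : (p : ℝ) ^ τ ≤ 1 + 2 * (τ * Real.log p) := by
      rw [Real.rpow_def_of_pos hp0, mul_comm (Real.log p)]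
      have := Real.abs_exp_sub_one_sub_id_le (x := τ * Real.log p) (by rw [abs_le]; constructor <;> linarith)
      rw [abs_le] at this
      nlinarith [this.2]
    have e8 : h p * (p : ℝ) ^ τ + (1 - h p) ≤ 1 + h p * (2 * (τ * Real.log p)) := by
      have := mul_le_mul_of_nonneg_left e7 (h0 p hp)
      linarith
    have e9 : h p * (2 * (τ * Real.log p)) ≤ 4 * τ * (Real.log p / p) := by
      have := mul_le_mul_of_nonneg_right (h2 p hp) (show 0 ≤ 2 * (τ * Real.log p) by positivity)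
      refine this.trans (le_of_eq ?_)
      field_simp
      ring
    have e10 := Real.add_one_le_exp (4 * τ * (Real.log p / p))
    linarith
  have e5 : ∀ p ∈ PP w z, 0 ≤ h p * (p : ℝ) ^ τ + (1 - h p) := by
    intro p hp
    have := h0 p hp
    have := h1 p hp
    have : (0 : ℝ) ≤ (p : ℝ) ^ τ := by positivity
    nlinarith [mul_nonneg (h0 p hp) this]
  refine (prod_le_prod e5 e4).trans ?_
  rw [← Real.exp_sum, ← mul_sum]
  apply Real.exp_le_exp.2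
  have e6 := sum_log_PP w z hz1
  have e7 : 4 * τ * ∑ p ∈ PP w z, Real.log p / (p : ℝ) ≤ 4 * τ * (Real.log z + 8) := by gcongr
  have e8 : τ ≤ 1 := by
    rw [hτ, div_le_one (by linarith)]
    exact hlz
  nlinarith

/-- the main term -/
lemma main_term (w : ℕ) (z S : ℝ) (h : ℕ → ℝ) (hz : Real.exp 1 ≤ z) (hS : 0 < S)
    (h0 : ∀ p ∈ PP w z, 0 ≤ h p) (h1 : ∀ p ∈ PP w z, 2 * h p ≤ 1) (h2 : ∀ p ∈ PP w z, h p ≤ 2 / (p : ℝ)) :
    |∑ T ∈ (PP w z).powerset, (if ((∏ p ∈ T, p : ℕ) : ℝ) ≤ S then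
      (-1 : ℝ) ^ T.card * ((∏ p ∈ T, h p) * ∏ p ∈ PP w z \ T, (1 - h p)) else 0)|
      ≤ (∏ p ∈ PP w z, (1 - 2 * h p)) + Real.exp 36 * S ^ (-(1 / Real.log z)) := by
  have hr := rankin w z S h hz hS h0 (fun p hp => by linarith [h1 p hp, h0 p hp]) h2
  have e1 : ∑ T ∈ (PP w z).powerset, (if ((∏ p ∈ T, p : ℕ) : ℝ) ≤ S then
      (-1 : ℝ) ^ T.card * ((∏ p ∈ T, h p) * ∏ p ∈ PP w z \ T, (1 - h p)) else 0)
      = (∏ p ∈ PP w z, (1 - 2 * h p)) - ∑ T ∈ (PP w z).powerset, (-1 : ℝ) ^ T.card *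
        (if ((∏ p ∈ T, p : ℕ) : ℝ) ≤ S then 0 else
          (∏ p ∈ T, h p) * ∏ p ∈ PP w z \ T, (1 - h p)) := by
    have e2 : ∏ p ∈ PP w z, (1 - 2 * h p) = ∏ p ∈ PP w z, (-h p + (1 - h p)) :=
      prod_congr rfl fun p _ => by ring
    rw [e2, prod_add, ← sum_sub_distrib]
    refine sum_congr rfl fun T _ => ?_
    rw [prod_neg]
    split_ifs <;> ring
  have e2 : |∑ T ∈ (PP w z).powerset, (-1 : ℝ) ^ T.card *
        (if ((∏ p ∈ T, p : ℕ) : ℝ) ≤ S then 0 else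
          (∏ p ∈ T, h p) * ∏ p ∈ PP w z \ T, (1 - h p))| ≤ Real.exp 36 * S ^ (-(1 / Real.log z)) := by
    refine (abs_sum_le_sum_abs _ _).trans (le_trans (sum_le_sum fun T hT => ?_) hr)
    have hT' := mem_powerset.1 hT
    rw [abs_mul, abs_pow, abs_neg, abs_one, one_pow, one_mul, abs_of_nonneg]
    split_ifs
    · exact le_rfl
    · exact mul_nonneg (prod_nonneg fun p hp => h0 p (hT' hp))
        (prod_nonneg fun p hp => by linarith [h1 p (mem_sdiff.1 hp).1, h0 p (mem_sdiff.1 hp).1])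
  have e3 : 0 ≤ ∏ p ∈ PP w z, (1 - 2 * h p) := prod_nonneg fun p hp => by linarith [h1 p hp]
  rw [e1]
  refine (abs_sub _ _).trans ?_
  rw [abs_of_nonneg e3]
  linarith

/-- the weights sum up to `1` -/
lemma sum_one (w : ℕ) (z : ℝ) (h : ℕ → ℝ) :
    ∑ T ∈ (PP w z).powerset, (∏ p ∈ T, h p) * ∏ p ∈ PP w z \ T, (1 - h p) = 1 := by
  rw [← prod_add]
  exact prod_eq_one fun p _ => by ring

end

end Pool.Agent.Lib.MP391708.QPA.C.FLCM
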