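import Pool.Agent.Lib.MP_391708_nt.QPA.C.FLCb

/-!
# Module FLC, lemmas: the remainders
-/

set_option autoImplicit false

namespace Pool.Agent.Lib.MP391708.QPA.C.FLCM

open Finset Filter Topology
open Pool.Agent.Lib.MP391708.QPA
open Pool.Agent.Lib.MP391708.QPA.H
open scoped Classical

noncomputable section

/-- a product of distinct primes is squarefree -/
lemma sqf_prod {T : Finset ℕ} (hT : ∀ p ∈ T, p.Prime) : Squarefree (∏ p ∈ T, p) := by
  induction T using Finset.induction_on with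
  | empty => simp
  | insert p t hp ih =>
    rw [prod_insert hp, Nat.squarefree_mul_iff]
    refine ⟨?_, (hT p (mem_insert_self _ _)).squarefree, ih fun q hq => hT q (mem_insert_of_mem hq)⟩
    apply Nat.Coprime.prod_right
    intro q hq
    rw [Nat.coprime_primes (hT p (mem_insert_self _ _)) (hT q (mem_insert_of_mem hq))]
    rintro rfl
    exact hp hq

/-- the local densities of a finite set of primes -/
lemma prod_rho_T (h1 : SpecRHO1) (hM : SpecRHOM) (a : ℤ) {T : Finset ℕ} (hT : ∀ p ∈ T, p.Prime) :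
    ∏ p ∈ T, ((rho a p : ℝ) / p) = (rho a (∏ p ∈ T, p) : ℝ) / ((∏ p ∈ T, p : ℕ) : ℝ) := by
  have h := FLA.prod_rho h1 hM a (∏ p ∈ T, p) (sqf_prod hT)
  rwa [Nat.primeFactors_prod hT] at h

/-- the remainder terms -/
lemma rem (h1 : SpecRHO1) (hM : SpecRHOM) (a : ℤ) (N Q ν k w : ℕ) (z : ℝ) (T : Finset ℕ) (δ : ℕ)
    (hQ : 1 ≤ Q) (hν : ν < Q) (hQw : ∀ p : ℕ, p.Prime → p ∣ Q → p ≤ w) (hwz : (w : ℝ) < z)
    (hk : Squarefree k) (hkr : Rough z k) (hT : T ⊆ PP w z) (hδ : Squarefree δ) :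
    |(∑ i ∈ ((Ioc N (2 * N)).filter (fun n => n % Q = ν ∧ k ∣ val a n)).filter
          (fun i => δ ∣ vT w z T (val a i)), (if (∏ p ∈ T, p) ∣ val a i then (1 : ℝ) else 0))
      - ((N : ℝ) / Q * ((rho a k : ℝ) / k) * ∏ p ∈ T, ((rho a p : ℝ) / p)) *
        ∏ p ∈ δ.primeFactors, (if p ∈ PP w z \ T then (rho a p : ℝ) / p else 0)|
      ≤ (rho a k : ℝ) * (rho a (∏ p ∈ T, p) : ℝ) * (rho a δ : ℝ) := by
  have hTp : ∀ p ∈ T, p.Prime := fun p hp => (mem_PP.1 (hT hp)).1
  have hk0 : k ≠ 0 := hk.ne_zero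
  have hδ0 : δ ≠ 0 := hδ.ne_zero
  set t : ℕ := ∏ p ∈ T, p with ht
  have hts : Squarefree t := sqf_prod hTp
  have ht0 : t ≠ 0 := hts.ne_zero
  have htf : t.primeFactors = T := Nat.primeFactors_prod hTp
  by_cases hc : δ.primeFactors ⊆ PP w z \ T
  · -- coprimality
    have c1 : Nat.Coprime t δ := by
      refine Nat.coprime_of_dvd fun p hp hpt hpδ => ?_
      have h3 : p ∈ T := by
        rw [← htf]
        exact Nat.mem_primeFactors.2 ⟨hp, hpt, ht0⟩
      have h4 := hc (Nat.mem_primeFactors.2 ⟨hp, hpδ, hδ0⟩)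
      exact (mem_sdiff.1 h4).2 h3
    have hpf : ∀ p : ℕ, p.Prime → p ∣ t * δ → w < p ∧ (p : ℝ) < z := by
      intro p hp hpd
      rcases (Nat.Prime.dvd_mul hp).1 hpd with h | h
      · have h3 : p ∈ T := by
          rw [← htf]
          exact Nat.mem_primeFactors.2 ⟨hp, h, ht0⟩
        exact (mem_PP.1 (hT h3)).2
      · have h4 := hc (Nat.mem_primeFactors.2 ⟨hp, h, hδ0⟩)
        exact (mem_PP.1 (mem_sdiff.1 h4).1).2
    have c2 : Nat.Coprime k (t * δ) := by
      refine Nat.coprime_of_dvd fun p hp hpk hpd => ?_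
      have h3 := hkr p hp hpk
      have h4 := (hpf p hp hpd).2
      linarith
    have c3 : Nat.Coprime Q (k * (t * δ)) := by
      refine Nat.coprime_of_dvd fun p hp hpQ hpd => ?_
      have h3 := hQw p hp hpQ
      rcases (Nat.Prime.dvd_mul hp).1 hpd with h | h
      · have h4 := hkr p hp h
        have h5 : (p : ℝ) ≤ w := by exact_mod_cast h3
        linarith
      · have h4 := (hpf p hp h).1
        omega
    have htδ : 1 ≤ t * δ := Nat.mul_pos (Nat.pos_of_ne_zero ht0) (Nat.pos_of_ne_zero hδ0)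
    have hq : 1 ≤ k * (t * δ) := Nat.mul_pos (Nat.pos_of_ne_zero hk0) htδ
    have hcount := count a (k * (t * δ)) Q ν N N hq hQ c3 hν
    have e1 : ∑ i ∈ ((Ioc N (2 * N)).filter (fun n => n % Q = ν ∧ k ∣ val a n)).filter
          (fun i => δ ∣ vT w z T (val a i)), (if t ∣ val a i then (1 : ℝ) else 0)
        = (((Ioc N (N + N)).filter (fun n => n % Q = ν ∧ k * (t * δ) ∣ val a n)).card : ℝ) := by
      rw [← sum_filter, filter_filter, filter_filter, sum_const, nsmul_eq_mul, mul_one, two_mul]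
      congr 2
      refine filter_congr fun n _ => ?_
      rw [dvd_vT w z T δ _ hδ]
      constructor
      · rintro ⟨⟨u1, u2⟩, ⟨_, u3⟩, u4⟩
        exact ⟨u1, c2.mul_dvd_of_dvd_of_dvd u2 (c1.mul_dvd_of_dvd_of_dvd u4 u3)⟩
      · rintro ⟨u1, u2⟩
        have u3 : t * δ ∣ val a n := (Dvd.intro_left _ rfl).trans u2
        exact ⟨⟨u1, (Dvd.intro _ rfl).trans u2⟩, ⟨hc, (Dvd.intro_left _ rfl).trans u3⟩,
          (Dvd.intro _ rfl).trans u3⟩
    have e2 : ∏ p ∈ δ.primeFactors, (if p ∈ PP w z \ T then (rho a p : ℝ) / p else 0)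
        = (rho a δ : ℝ) / δ := by
      rw [← FLA.prod_rho h1 hM a δ hδ]
      exact prod_congr rfl fun p hp => by rw [if_pos (hc hp)]
    have e3 : (rho a (k * (t * δ)) : ℝ) = (rho a k : ℝ) * (rho a t : ℝ) * (rho a δ : ℝ) := by
      have u1 := hM a k (t * δ) c2 (Nat.pos_of_ne_zero hk0) htδ
      have u2 := hM a t δ c1 (Nat.pos_of_ne_zero ht0) (Nat.pos_of_ne_zero hδ0)
      rw [u1, u2]
      push_cast
      ring
    rw [e1, e2, prod_rho_T h1 hM a hTp, ← ht, ← e3]
    refine le_trans (le_of_eq ?_) hcount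
    congr 1
    rw [e3]
    have k1 : (k : ℝ) ≠ 0 := by exact_mod_cast hk0
    have k2 : (t : ℝ) ≠ 0 := by exact_mod_cast ht0
    have k3 : (δ : ℝ) ≠ 0 := by exact_mod_cast hδ0
    have k4 : (Q : ℝ) ≠ 0 := by exact_mod_cast (by omega : Q ≠ 0)
    push_cast
    field_simp
  · have e1 : ∑ i ∈ ((Ioc N (2 * N)).filter (fun n => n % Q = ν ∧ k ∣ val a n)).filter
          (fun i => δ ∣ vT w z T (val a i)), (if t ∣ val a i then (1 : ℝ) else 0) = 0 := by
      apply sum_eq_zero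
      intro i hi
      exfalso
      exact hc ((dvd_vT w z T δ _ hδ).1 (mem_filter.1 hi).2).1
    have e2 : ∏ p ∈ δ.primeFactors, (if p ∈ PP w z \ T then (rho a p : ℝ) / p else 0) = 0 := by
      rw [Finset.not_subset] at hc
      obtain ⟨p, hp, hpn⟩ := hc
      exact prod_eq_zero hp (if_neg hpn)
    rw [e1, e2, mul_zero, sub_zero, abs_zero]
    positivity

/-- the product of the densities over the primes `< z` -/
lemma prod_g (w : ℕ) (z : ℝ) (T : Finset ℕ) (h : ℕ → ℝ) :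
    ∏ p ∈ PB z, (1 - (if p ∈ PP w z \ T then h p else 0)) = ∏ p ∈ PP w z \ T, (1 - h p) := by
  have hsub : PP w z \ T ⊆ PB z := fun p hp => (mem_filter.1 (mem_sdiff.1 hp).1).1
  rw [← prod_subset hsub (f := fun p => (1 - (if p ∈ PP w z \ T then h p else 0)))]
  · exact prod_congr rfl fun p hp => by rw [if_pos hp]
  · intro p _ hp
    rw [if_neg hp, sub_zero]

end

end Pool.Agent.Lib.MP391708.QPA.C.FLCM
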