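import Pool.Agent.Lib.MP_391708_nt.QPA.C.SpecD
import Pool.Agent.Lib.MP_391708_nt.QPA.WIN
import Pool.Agent.Lib.MP_391708_nt.QPA.P3M
import Pool.Agent.Lib.MP_391708_nt.QPA.NSFM

/-!
# PWIN: the values `n² + a` with a prime factor in a window
-/

set_option autoImplicit false

namespace Pool.Agent.Lib.MP391708.QPA.C

open Finset Filter Topology
open Pool.Agent.Lib.MP391708.QPA
open scoped Classical

noncomputable section

namespace PWINM

/-- the primes of the window -/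
def SP (N : ℕ) (x w : ℝ) : Finset ℕ :=
  (Icc ⌈(N : ℝ) ^ (x - w)⌉₊ ⌊(N : ℝ) ^ (x + w)⌋₊).filter Nat.Prime

theorem mem_SP {N : ℕ} {x w : ℝ} {p : ℕ} : p ∈ SP N x w ↔
    p.Prime ∧ (N : ℝ) ^ (x - w) ≤ p ∧ (p : ℝ) ≤ (N : ℝ) ^ (x + w) := by
  unfold SP
  rw [mem_filter, mem_Icc]
  constructor
  · rintro ⟨⟨h1, h2⟩, h3⟩
    refine ⟨h3, Nat.ceil_le.1 h1, ?_⟩
    exact (Nat.le_floor_iff (by positivity)).1 h2
  · rintro ⟨h3, h1, h2⟩
    exact ⟨⟨Nat.ceil_le.2 h1, Nat.le_floor h2⟩, h3⟩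

/-- Mertens for windows, uniform in `x` -/
theorem sum_inv_prime (u w : ℝ) (hu : 0 < u) (hw : 0 < w) (hwu : w ≤ u / 2) : ∃ N₀ : ℕ,
    ∀ N : ℕ, N₀ ≤ N → ∀ x : ℝ, u ≤ x → ∑ p ∈ SP N x w, 1 / (p : ℝ) ≤ 5 / u * w := by
  have ht : Tendsto (fun N : ℕ => (N : ℝ)) atTop atTop := tendsto_natCast_atTop_atTop
  have hlt : Tendsto (fun N : ℕ => Real.log (N : ℝ)) atTop atTop :=
    Real.tendsto_log_atTop.comp ht
  have hev : ∀ᶠ N : ℕ in atTop, 2 ≤ (N : ℝ) ^ (u / 2) ∧ 18 / w ≤ Real.log N ∧ 3 ≤ (N : ℝ) :=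
    (ht.eventually ((tendsto_rpow_atTop (by positivity)).eventually_ge_atTop _)).and
      ((hlt.eventually_ge_atTop _).and (ht.eventually_ge_atTop _))
  obtain ⟨N₀, hN₀⟩ := eventually_atTop.1 hev
  refine ⟨N₀, fun N hN x hx => ?_⟩
  obtain ⟨h2, hlog, hN3⟩ := hN₀ N hN
  have hNp : (0 : ℝ) < N := by linarith
  have hN1 : (1 : ℝ) < N := by linarith
  have hL : 0 < Real.log N := Real.log_pos hN1
  set X₁ : ℝ := (N : ℝ) ^ (x - w) with hX₁
  set X₂ : ℝ := (N : ℝ) ^ (x + w) with hX₂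
  have hX1 : 2 ≤ X₁ := h2.trans (Real.rpow_le_rpow_of_exponent_le hN1.le (by linarith))
  have hX12 : X₁ ≤ X₂ := Real.rpow_le_rpow_of_exponent_le hN1.le (by linarith)
  have hX1p : 0 < X₁ := by linarith
  have hX2p : 0 < X₂ := by linarith
  have hm := P3M.mert (X₁ / 2) X₂ (by linarith) (by linarith)
  have hl1 : Real.log X₁ = (x - w) * Real.log N := Real.log_rpow hNp _
  have hl2 : Real.log X₂ = (x + w) * Real.log N := Real.log_rpow hNp _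
  have hl3 : Real.log (X₁ / 2) = (x - w) * Real.log N - Real.log 2 := by
    rw [Real.log_div hX1p.ne' (by norm_num), hl1]
  have hlog2 : Real.log 2 ≤ 1 := by
    have := Real.log_two_lt_d9
    linarith
  have hterm : ∀ p ∈ SP N x w, 1 / (p : ℝ) ≤ (2 / (u * Real.log N)) * (Real.log p / (p : ℝ)) := by
    intro p hp
    rw [mem_SP] at hp
    obtain ⟨hpp, hp1, hp2⟩ := hp
    have hp0 : (0 : ℝ) < p := by exact_mod_cast hpp.pos
    have h3 : u / 2 * Real.log N ≤ Real.log p := by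
      have h4 : Real.log X₁ ≤ Real.log p := Real.log_le_log hX1p hp1
      rw [hl1] at h4
      have h5 : u / 2 * Real.log N ≤ (x - w) * Real.log N := by
        apply mul_le_mul_of_nonneg_right _ hL.le
        linarith
      linarith
    have h6 : 1 ≤ 2 / (u * Real.log N) * Real.log p := by
      rw [div_mul_eq_mul_div, le_div_iff₀ (by positivity)]
      linarith
    calc 1 / (p : ℝ) ≤ (2 / (u * Real.log N) * Real.log p) / p := by gcongr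
      _ = _ := by ring
  have hsub : SP N x w ⊆ (Ioc ⌊X₁ / 2⌋₊ ⌊X₂⌋₊).filter Nat.Prime := by
    intro p hp
    rw [mem_SP] at hp
    obtain ⟨hpp, hp1, hp2⟩ := hp
    rw [mem_filter, mem_Ioc]
    refine ⟨⟨?_, Nat.le_floor hp2⟩, hpp⟩
    rw [Nat.floor_lt (by positivity)]
    have : X₁ ≤ p := hp1
    linarith
  have hnn : ∀ p ∈ (Ioc ⌊X₁ / 2⌋₊ ⌊X₂⌋₊).filter Nat.Prime, p ∉ SP N x w →
      0 ≤ Real.log p / (p : ℝ) := by
    intro p _ _
    have := Real.log_natCast_nonneg p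
    positivity
  calc ∑ p ∈ SP N x w, 1 / (p : ℝ)
      ≤ ∑ p ∈ SP N x w, (2 / (u * Real.log N)) * (Real.log p / (p : ℝ)) := sum_le_sum hterm
    _ = (2 / (u * Real.log N)) * ∑ p ∈ SP N x w, (Real.log p / (p : ℝ)) := by rw [mul_sum]
    _ ≤ (2 / (u * Real.log N)) *
        ∑ p ∈ (Ioc ⌊X₁ / 2⌋₊ ⌊X₂⌋₊).filter Nat.Prime, (Real.log p / (p : ℝ)) := by
        gcongr
    _ ≤ (2 / (u * Real.log N)) * (2 * w * Real.log N + 9) := by
        gcongr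
        refine hm.trans ?_
        rw [hl2, hl3]
        linarith
    _ ≤ (2 / (u * Real.log N)) * (5 / 2 * w * Real.log N) := by
        gcongr
        rw [div_le_iff₀ hw] at hlog
        linarith
    _ = 5 / u * w := by
        field_simp

/-- the model version -/
theorem model_le (u w : ℝ) (hu : 0 < u) (hw : 0 < w) (hwu : w ≤ u / 2) : ∃ N₀ : ℕ,
    ∀ N : ℕ, N₀ ≤ N → ∀ x : ℝ, u ≤ x →
      model N (fun m => if PWn N x w m then 1 else 0) ≤ 10 / u * w * N := by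
  obtain ⟨N₀, hN₀⟩ := sum_inv_prime u w hu hw hwu
  refine ⟨max N₀ 1, fun N hN x hx => ?_⟩
  have h1 := hN₀ N ((le_max_left _ _).trans hN) x hx
  have hN1 : 1 ≤ N := (le_max_right _ _).trans hN
  have hNp : (0 : ℝ) < N := by exact_mod_cast hN1
  have hterm : ∀ m ∈ Ioc (N ^ 2) (4 * N ^ 2),
      (if PWn N x w m then (1 : ℝ) else 0) / (2 * √(m : ℝ)) ≤
        1 / (2 * N) * ∑ p ∈ SP N x w, if p ∣ m then 1 else 0 := by
    intro m hm
    rw [mem_Ioc] at hm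
    have hsum0 : (0 : ℝ) ≤ ∑ p ∈ SP N x w, if p ∣ m then (1 : ℝ) else 0 :=
      sum_nonneg (fun p _ => by positivity)
    have hsq : (N : ℝ) ≤ √(m : ℝ) := by
      apply Real.le_sqrt_of_sq_le
      exact_mod_cast hm.1.le
    split_ifs with hc
    · obtain ⟨p, hp1, hp2, hp3, hp4⟩ := hc
      have hpS : p ∈ SP N x w := mem_SP.2 ⟨hp1, hp3, hp4⟩
      have h3 : (1 : ℝ) ≤ ∑ p ∈ SP N x w, if p ∣ m then (1 : ℝ) else 0 := by
        have h4 := single_le_sum (f := fun p : ℕ => if p ∣ m then (1 : ℝ) else 0)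
          (fun p _ => by positivity) hpS
        simp only [if_pos hp2] at h4
        exact h4
      calc (1 : ℝ) / (2 * √(m : ℝ)) ≤ 1 / (2 * N) := by gcongr
        _ = 1 / (2 * N) * 1 := by ring
        _ ≤ _ := by gcongr
    · rw [zero_div]
      positivity
  have hcount : ∀ p ∈ SP N x w, (∑ m ∈ Ioc (N ^ 2) (4 * N ^ 2), if p ∣ m then (1 : ℝ) else 0)
      ≤ 4 * (N : ℝ) ^ 2 * (1 / (p : ℝ)) := by
    intro p hp
    rw [mem_SP] at hp
    have hp0 : 0 < p := hp.1.pos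
    have hp0' : (0 : ℝ) < p := by exact_mod_cast hp0
    rw [← sum_filter, sum_const, nsmul_eq_mul, mul_one]
    have h3 : ((Ioc (N ^ 2) (4 * N ^ 2)).filter (fun m => p ∣ m)).card ≤ 4 * N ^ 2 / p := by
      rw [← Nat.Ioc_filter_dvd_card_eq_div (4 * N ^ 2) p]
      apply card_le_card
      intro m hm
      rw [mem_filter, mem_Ioc] at hm ⊢
      exact ⟨⟨by omega, hm.1.2⟩, hm.2⟩
    calc (((Ioc (N ^ 2) (4 * N ^ 2)).filter (fun m => p ∣ m)).card : ℝ)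
        ≤ ((4 * N ^ 2 / p : ℕ) : ℝ) := by exact_mod_cast h3
      _ ≤ ((4 * N ^ 2 : ℕ) : ℝ) / p := Nat.cast_div_le
      _ = 4 * (N : ℝ) ^ 2 * (1 / (p : ℝ)) := by
          push_cast
          ring
  calc model N (fun m => if PWn N x w m then 1 else 0)
      ≤ ∑ m ∈ Ioc (N ^ 2) (4 * N ^ 2), 1 / (2 * N) * ∑ p ∈ SP N x w, (if p ∣ m then (1 : ℝ) else 0) :=
        sum_le_sum hterm
    _ = 1 / (2 * N) * ∑ p ∈ SP N x w, ∑ m ∈ Ioc (N ^ 2) (4 * N ^ 2), (if p ∣ m then (1 : ℝ) else 0) := by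
        rw [← mul_sum, sum_comm]
    _ ≤ 1 / (2 * N) * ∑ p ∈ SP N x w, 4 * (N : ℝ) ^ 2 * (1 / (p : ℝ)) := by
        gcongr with p hp
        exact hcount p hp
    _ = 2 * N * ∑ p ∈ SP N x w, 1 / (p : ℝ) := by
        rw [← mul_sum]
        field_simp
        ring
    _ ≤ 2 * N * (5 / u * w) := by gcongr
    _ = 10 / u * w * N := by ring

/-- small primes, by QG -/
theorem small (hQ : SpecQG) (u w : ℝ) (hu : 0 < u) (hw : 0 < w) (hwu : w ≤ u / 2)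
    (hw1 : w ≤ 1 / 100) : ∃ N₀ : ℕ, ∀ N A : ℕ, N₀ ≤ N → (N : ℝ) ^ (5 / 6 : ℝ) ≤ A →
    ∀ x : ℝ, u ≤ x → x ≤ 6 / 5 →
      ∑ a ∈ IA A, cnt N a (fun m => if PWn N x w m then 1 else 0) ≤ (15 / u + 1) * w * A * N := by
  obtain ⟨N₁, hN₁⟩ := sum_inv_prime u w hu hw hwu
  obtain ⟨CQ, hCQ, hQG⟩ := hQ (1 / 200) (by norm_num)
  have ht : Tendsto (fun N : ℕ => (N : ℝ)) atTop atTop := tendsto_natCast_atTop_atTop
  have hev : ∀ᶠ N : ℕ in atTop, 3 * CQ / w ≤ (N : ℝ) ^ (1 / 120 : ℝ) ∧ 3 ≤ (N : ℝ) :=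
    (ht.eventually ((tendsto_rpow_atTop (by positivity)).eventually_ge_atTop _)).and
      (ht.eventually_ge_atTop _)
  obtain ⟨N₂, hN₂⟩ := eventually_atTop.1 hev
  refine ⟨max N₁ N₂, fun N A hN hA1 x hx1 hx2 => ?_⟩
  have hmert := hN₁ N ((le_max_left _ _).trans hN) x hx1
  obtain ⟨hbig, hN3⟩ := hN₂ N ((le_max_right _ _).trans hN)
  have hNp : (0 : ℝ) < N := by linarith
  have hN1 : (1 : ℝ) < N := by linarith
  have hAp : (0 : ℝ) < A := lt_of_lt_of_le (Real.rpow_pos_of_pos hNp _) hA1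
  have hAone : (1 : ℝ) ≤ A := by
    have : 0 < A := by exact_mod_cast hAp
    exact_mod_cast this
  set X₁ : ℝ := (N : ℝ) ^ (x - w) with hX₁
  set X₂ : ℝ := (N : ℝ) ^ (x + w) with hX₂
  have hX1p : 0 < X₁ := by positivity
  have hX2p : 0 < X₂ := by positivity
  set S := SP N x w with hSdef
  set P := (Ioc N (N + N)) ×ˢ (IA A) with hP
  set E : ℕ → ℝ := fun k => CQ * X₂ ^ (1 / 200 : ℝ) * (N * (1 / √(k : ℝ)) + √X₂) with hEdef
  have hone : ∀ k ∈ S, ((P.filter (fun t => k ∣ val t.2 t.1)).card : ℝ)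
      ≤ 3 * A * N * (1 / (k : ℝ)) + E k := by
    intro k hk
    rw [hSdef, mem_SP] at hk
    obtain ⟨hkp', hk1', hk2'⟩ := hk
    have hk0 : 1 ≤ k := hkp'.pos
    have hkp : (0 : ℝ) < k := by exact_mod_cast hk0
    have h := hQG k N N A hk0
    rw [abs_le] at h
    have h1 := h.2
    have h2 : CQ * (k : ℝ) ^ (1 / 200 : ℝ) * (N / √(k : ℝ) + √(k : ℝ)) ≤ E k := by
      show _ ≤ CQ * X₂ ^ (1 / 200 : ℝ) * (N * (1 / √(k : ℝ)) + √X₂)
      have h3 : (k : ℝ) ^ (1 / 200 : ℝ) ≤ X₂ ^ (1 / 200 : ℝ) :=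
        Real.rpow_le_rpow hkp.le hk2' (by norm_num)
      have h4 : √(k : ℝ) ≤ √X₂ := Real.sqrt_le_sqrt hk2'
      have h5 : (N : ℝ) / √(k : ℝ) = N * (1 / √(k : ℝ)) := by ring
      rw [h5]
      gcongr
    have h3 : (2 * (A : ℝ) + 1) * N / k ≤ 3 * A * N * (1 / (k : ℝ)) := by
      rw [mul_one_div]
      have h4 : (2 * (A : ℝ) + 1) * N ≤ 3 * A * N := by gcongr; linarith
      exact div_le_div_of_nonneg_right h4 hkp.le
    linarith
  have hred : ∑ a ∈ IA A, cnt N a (fun m => if PWn N x w m then 1 else 0)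
      ≤ ∑ k ∈ S, ((P.filter (fun t => k ∣ val t.2 t.1)).card : ℝ) := by
    have h1 : ∑ a ∈ IA A, cnt N a (fun m => if PWn N x w m then 1 else 0)
        = ∑ t ∈ P, (if PWn N x w (val t.2 t.1) then (1 : ℝ) else 0) := by
      rw [hP, sum_product_right]
      unfold cnt
      rw [two_mul]
    rw [h1]
    simp_rw [card_filter, Nat.cast_sum]
    rw [sum_comm]
    refine sum_le_sum fun t _ => ?_
    have hnn : ∀ k ∈ S, (0 : ℝ) ≤ (((if k ∣ val t.2 t.1 then 1 else 0 : ℕ)) : ℝ) := by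
      intro k _
      positivity
    split_ifs with hc
    · obtain ⟨k, hk1, hk2, hk3, hk4⟩ := hc
      have hkS : k ∈ S := mem_SP.2 ⟨hk1, hk3, hk4⟩
      have h2 := single_le_sum hnn hkS
      refine le_trans ?_ h2
      rw [if_pos hk2]
      norm_num
    · exact sum_nonneg hnn
  have hn1 : (⌊X₂⌋₊ : ℝ) ≤ X₂ := Nat.floor_le hX2p.le
  have hsub : S ⊆ Icc 1 ⌊X₂⌋₊ := by
    intro k hk
    rw [hSdef, mem_SP] at hk
    rw [mem_Icc]
    exact ⟨hk.1.pos, Nat.le_floor hk.2.2⟩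
  have hsq : ∑ k ∈ S, 1 / √(k : ℝ) ≤ 2 * √X₂ := by
    calc ∑ k ∈ S, 1 / √(k : ℝ) ≤ ∑ k ∈ Icc 1 ⌊X₂⌋₊, 1 / √(k : ℝ) :=
          sum_le_sum_of_subset_of_nonneg hsub fun _ _ _ => by positivity
      _ ≤ 2 * √((⌊X₂⌋₊ : ℕ) : ℝ) := WIN.sum_inv_sqrt _
      _ ≤ 2 * √X₂ := by
          have := Real.sqrt_le_sqrt hn1
          linarith
  have hcard : (S.card : ℝ) ≤ X₂ := by
    have h1 : S.card ≤ ⌊X₂⌋₊ := by
      have := card_le_card hsub
      simpa using this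
    exact le_trans (by exact_mod_cast h1) hn1
  -- the exponents
  have hX2a : X₂ ≤ (N : ℝ) ^ (121 / 100 : ℝ) :=
    Real.rpow_le_rpow_of_exponent_le hN1.le (by linarith)
  have hX2b : √X₂ ≤ (N : ℝ) ^ (121 / 200 : ℝ) := by
    rw [Real.sqrt_le_left (by positivity)]
    refine hX2a.trans (le_of_eq ?_)
    rw [← Real.rpow_natCast, ← Real.rpow_mul hNp.le]
    congr 1
    push_cast
    ring
  have hX2c : X₂ ^ (1 / 200 : ℝ) ≤ (N : ℝ) ^ (1 / 100 : ℝ) := by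
    calc X₂ ^ (1 / 200 : ℝ) ≤ ((N : ℝ) ^ (121 / 100 : ℝ)) ^ (1 / 200 : ℝ) := by gcongr
      _ = (N : ℝ) ^ ((121 / 100 : ℝ) * (1 / 200)) := by rw [← Real.rpow_mul hNp.le]
      _ ≤ (N : ℝ) ^ (1 / 100 : ℝ) := Real.rpow_le_rpow_of_exponent_le hN1.le (by norm_num)
  have hsumE : ∑ k ∈ S, E k ≤ 3 * CQ * (N : ℝ) ^ (73 / 40 : ℝ) := by
    have h1 : ∑ k ∈ S, E k = CQ * X₂ ^ (1 / 200 : ℝ) *
        (N * ∑ k ∈ S, 1 / √(k : ℝ) + S.card * √X₂) := by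
      rw [hEdef, ← mul_sum, sum_add_distrib, ← mul_sum, sum_const, nsmul_eq_mul]
    rw [h1]
    have h2 : (N : ℝ) ≤ (N : ℝ) ^ (121 / 100 : ℝ) := by
      calc (N : ℝ) = (N : ℝ) ^ (1 : ℝ) := (Real.rpow_one _).symm
        _ ≤ _ := Real.rpow_le_rpow_of_exponent_le hN1.le (by norm_num)
    calc CQ * X₂ ^ (1 / 200 : ℝ) * (N * ∑ k ∈ S, 1 / √(k : ℝ) + S.card * √X₂)
        ≤ CQ * (N : ℝ) ^ (1 / 100 : ℝ) * ((N : ℝ) ^ (121 / 100 : ℝ) * (2 * (N : ℝ) ^ (121 / 200 : ℝ))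
            + (N : ℝ) ^ (121 / 100 : ℝ) * (N : ℝ) ^ (121 / 200 : ℝ)) := by
          have hS1 : ∑ k ∈ S, 1 / √(k : ℝ) ≤ 2 * (N : ℝ) ^ (121 / 200 : ℝ) :=
            hsq.trans (by linarith)
          have hS2 : (S.card : ℝ) ≤ (N : ℝ) ^ (121 / 100 : ℝ) := hcard.trans hX2a
          have hS3 : 0 ≤ ∑ k ∈ S, 1 / √(k : ℝ) := sum_nonneg fun _ _ => by positivity
          gcongr
      _ = 3 * CQ * ((N : ℝ) ^ (1 / 100 : ℝ) * (N : ℝ) ^ (121 / 100 : ℝ) *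
            (N : ℝ) ^ (121 / 200 : ℝ)) := by ring
      _ = 3 * CQ * (N : ℝ) ^ (73 / 40 : ℝ) := by
          rw [← Real.rpow_add hNp, ← Real.rpow_add hNp]
          congr 2
          norm_num
  have hfin : 3 * CQ * (N : ℝ) ^ (73 / 40 : ℝ) ≤ w * A * N := by
    have h1 : 3 * CQ ≤ w * (N : ℝ) ^ (1 / 120 : ℝ) := by
      rw [div_le_iff₀ hw] at hbig
      linarith
    calc 3 * CQ * (N : ℝ) ^ (73 / 40 : ℝ)
        ≤ w * (N : ℝ) ^ (1 / 120 : ℝ) * (N : ℝ) ^ (73 / 40 : ℝ) := by gcongr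
      _ = w * ((N : ℝ) ^ (5 / 6 : ℝ) * N) := by
          rw [mul_assoc, ← Real.rpow_add hNp]
          nth_rw 3 [← Real.rpow_one (N : ℝ)]
          rw [← Real.rpow_add hNp]
          congr 2
          norm_num
      _ ≤ w * (A * N) := by gcongr
      _ = w * A * N := by ring
  calc ∑ a ∈ IA A, cnt N a (fun m => if PWn N x w m then 1 else 0)
      ≤ ∑ k ∈ S, (3 * A * N * (1 / (k : ℝ)) + E k) := hred.trans (sum_le_sum hone)
    _ = 3 * A * N * ∑ k ∈ S, 1 / (k : ℝ) + ∑ k ∈ S, E k := by rw [sum_add_distrib, ← mul_sum]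
    _ ≤ 3 * A * N * (5 / u * w) + w * A * N := by
        have := hsumE.trans hfin
        gcongr
    _ = (15 / u + 1) * w * A * N := by ring

end PWINM

end

end Pool.Agent.Lib.MP391708.QPA.C
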