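import Pool.Agent.Lib.MP_391708_nt.QPA.C.PWINa

/-!
# PWIN: large prime factors, by the Brun-Titchmarsh bound
-/

set_option autoImplicit false

namespace Pool.Agent.Lib.MP391708.QPA.C

open Finset Filter Topology
open Pool.Agent.Lib.MP391708.QPA
open scoped Classical

noncomputable section

namespace PWINM

theorem sum_inv_Icc (a b : ℕ) (ha : 1 ≤ a) (hab : a ≤ b) :
    ∑ k ∈ Icc a b, 1 / (k : ℝ) ≤ 1 + Real.log ((b : ℝ) / a) := by
  induction b, hab using Nat.le_induction with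
  | base =>
    have ha' : (1 : ℝ) ≤ a := by exact_mod_cast ha
    rw [Icc_self, sum_singleton, div_self (by linarith), Real.log_one, add_zero]
    rw [div_le_one (by linarith)]
    exact ha'
  | succ b hab ih =>
    have ha' : (1 : ℝ) ≤ a := by exact_mod_cast ha
    have hb' : (1 : ℝ) ≤ b := by
      have : 1 ≤ b := ha.trans hab
      exact_mod_cast this
    rw [← insert_Icc_right_eq_Icc_add_one (by omega : a ≤ b + 1), sum_insert (by simp)]
    have h1 := Real.one_sub_inv_le_log_of_pos (x := ((b : ℝ) + 1) / b) (by positivity)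
    have h2 : 1 - (((b : ℝ) + 1) / b)⁻¹ = 1 / (((b + 1 : ℕ) : ℝ)) := by
      push_cast
      field_simp
      ring
    have h3 : Real.log (((b + 1 : ℕ) : ℝ) / a) = Real.log (((b : ℝ) + 1) / b) +
        Real.log ((b : ℝ) / a) := by
      rw [← Real.log_mul (by positivity) (by positivity)]
      congr 1
      push_cast
      field_simp
    rw [h3]
    rw [h2] at h1
    linarith

/-- sum of `1/k` over a real interval -/
theorem sum_inv_real (K₁ K₂ : ℝ) (h1 : 0 < K₁) (h12 : K₁ ≤ K₂) :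
    ∑ k ∈ Icc ⌈K₁⌉₊ ⌊K₂⌋₊, 1 / (k : ℝ) ≤ 1 + Real.log (K₂ / K₁) := by
  have hlog : 0 ≤ Real.log (K₂ / K₁) := Real.log_nonneg ((one_le_div h1).2 h12)
  rcases Nat.lt_or_ge ⌊K₂⌋₊ ⌈K₁⌉₊ with h | h
  · rw [Icc_eq_empty (by omega), sum_empty]
    linarith
  · have hc : 1 ≤ ⌈K₁⌉₊ := Nat.ceil_pos.2 h1
    refine (sum_inv_Icc _ _ hc h).trans ?_
    have hc' : (0 : ℝ) < ⌈K₁⌉₊ := by exact_mod_cast hc
    have hf : (0 : ℝ) < ⌊K₂⌋₊ := by
      have : 1 ≤ ⌊K₂⌋₊ := hc.trans h
      exact_mod_cast this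
    have h3 : ((⌊K₂⌋₊ : ℕ) : ℝ) / ⌈K₁⌉₊ ≤ K₂ / K₁ := by
      apply div_le_div₀ (by linarith) (Nat.floor_le (by linarith)) h1 (Nat.le_ceil _)
    have h4 := Real.log_le_log (by positivity) h3
    linarith

/-- the prime cofactors `(n² + a)/k` for given `n`, `k` -/
theorem count_prime_cofactor (A n k : ℕ) (Z : ℝ) (hk : 1 ≤ k) (hA : A < n ^ 2) :
    ((IA A).filter (fun a => k ∣ val a n ∧ (val a n / k).Prime ∧ Z ≤ ((val a n / k : ℕ) : ℝ))).card
      ≤ ((Ioc ((n ^ 2 - A) / k - 1) ((n ^ 2 - A) / k - 1 + (2 * A / k + 2))).filter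
          (fun u => u % 1 = 0 ∧ Rough Z u)).card := by
  have hval : ∀ a ∈ IA A, (val a n : ℤ) = (n : ℤ) ^ 2 + a := by
    intro a ha
    unfold IA at ha
    rw [mem_Icc] at ha
    unfold val
    rw [Int.natAbs_of_nonneg]
    have : (A : ℤ) < (n : ℤ) ^ 2 := by exact_mod_cast hA
    omega
  apply card_le_card_of_injOn (fun a => val a n / k)
  · intro a ha
    have ha' : a ∈ (IA A).filter (fun a => k ∣ val a n ∧ (val a n / k).Prime ∧
      Z ≤ ((val a n / k : ℕ) : ℝ)) := ha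
    rw [mem_filter] at ha'
    obtain ⟨ha1, ⟨c, hc⟩, ha3, ha4⟩ := ha'
    have hv := hval a ha1
    unfold IA at ha1
    rw [mem_Icc] at ha1
    have hdiv : val a n / k = c := by
      rw [hc]
      exact Nat.mul_div_cancel_left c hk
    show val a n / k ∈ _
    rw [hdiv] at ha3 ha4 ⊢
    rw [mem_coe, mem_filter, mem_Ioc]
    refine ⟨⟨?_, ?_⟩, Nat.mod_one c, ?_⟩
    · have h1 : (n ^ 2 - A) / k ≤ c := by
        apply Nat.div_le_of_le_mul
        rw [← hc]
        have h2 : ((n ^ 2 - A : ℕ) : ℤ) = (n : ℤ) ^ 2 - A := by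
          rw [Nat.cast_sub hA.le]
          push_cast
          ring
        have h3 : ((n ^ 2 - A : ℕ) : ℤ) ≤ (val a n : ℤ) := by
          rw [h2, hv]
          omega
        exact_mod_cast h3
      have := ha3.pos
      omega
    · set t := (n ^ 2 - A) / k with ht
      set s := 2 * A / k with hs
      have h1 : n ^ 2 - A < k * (t + 1) := Nat.lt_mul_div_succ _ hk
      have h2 : 2 * A < k * (s + 1) := Nat.lt_mul_div_succ _ hk
      have h3 : k * c ≤ (n ^ 2 - A) + 2 * A := by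
        rw [← hc]
        have h4 : (val a n : ℤ) ≤ ((n ^ 2 - A + 2 * A : ℕ) : ℤ) := by
          rw [Nat.cast_add, Nat.cast_sub hA.le, hv]
          push_cast
          omega
        exact_mod_cast h4
      have h5 : k * c < k * (t + s + 2) := by
        calc k * c ≤ (n ^ 2 - A) + 2 * A := h3
          _ < k * (t + 1) + k * (s + 1) := by omega
          _ = k * (t + s + 2) := by ring
      have h6 : c < t + s + 2 := Nat.lt_of_mul_lt_mul_left h5
      omega
    · intro p hp hpc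
      have : p = c := (Nat.prime_dvd_prime_iff_eq hp ha3).1 hpc
      rw [this]
      exact ha4
  · intro a ha b hb hab
    have ha' : a ∈ (IA A).filter (fun a => k ∣ val a n ∧ (val a n / k).Prime ∧
      Z ≤ ((val a n / k : ℕ) : ℝ)) := ha
    have hb' : b ∈ (IA A).filter (fun a => k ∣ val a n ∧ (val a n / k).Prime ∧
      Z ≤ ((val a n / k : ℕ) : ℝ)) := hb
    rw [mem_filter] at ha' hb'
    have h1 := hval a ha'.1
    have h2 := hval b hb'.1
    have h3 : val a n = val b n := by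
      rw [← Nat.div_mul_cancel ha'.2.1, ← Nat.div_mul_cancel hb'.2.1]
      simp only at hab
      rw [hab]
    rw [h3] at h1
    omega

/-- large primes, by BT -/
theorem large (hB : SpecBT) : ∃ C : ℝ, 0 < C ∧ ∀ w : ℝ, 0 < w → w ≤ 1 / 100 → ∃ N₀ : ℕ,
    ∀ N A : ℕ, N₀ ≤ N → (N : ℝ) ^ (5 / 6 : ℝ) ≤ A → (A : ℝ) ≤ (N : ℝ) ^ 2 / 2 →
    ∀ x : ℝ, 6 / 5 ≤ x →
      ∑ a ∈ IA A, cnt N a (fun m => if PWn N x w m then 1 else 0) ≤ C * w * A * N := by
  obtain ⟨C, hC, hBT⟩ := hB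
  refine ⟨2403 * C, by positivity, fun w hw hw1 => ?_⟩
  have ht : Tendsto (fun N : ℕ => (N : ℝ)) atTop atTop := tendsto_natCast_atTop_atTop
  have hlt : Tendsto (fun N : ℕ => Real.log (N : ℝ)) atTop atTop :=
    Real.tendsto_log_atTop.comp ht
  have hev : ∀ᶠ N : ℕ in atTop, 4 / w ≤ Real.log N ∧ 2 ≤ (N : ℝ) ^ (1 / 200 : ℝ) ∧
      5 ≤ (N : ℝ) ^ (7 / 300 : ℝ) ∧ 3 ≤ (N : ℝ) :=
    (hlt.eventually_ge_atTop _).and
      ((ht.eventually ((tendsto_rpow_atTop (by positivity)).eventually_ge_atTop _)).and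
      ((ht.eventually ((tendsto_rpow_atTop (by positivity)).eventually_ge_atTop _)).and
        (ht.eventually_ge_atTop _)))
  obtain ⟨N₁, hN₁⟩ := eventually_atTop.1 hev
  obtain ⟨N₂, hN₂⟩ := NSFM.eventually_rpow (1 / 75) (1 / 5) (by norm_num) (by norm_num)
  refine ⟨max N₁ N₂, fun N A hN hA1 hA2 x hx => ?_⟩
  obtain ⟨hlog, hy2, h5, hN3⟩ := hN₁ N ((le_max_left _ _).trans hN)
  have hsmall := hN₂ N ((le_max_right _ _).trans hN)
  have hNp : (0 : ℝ) < N := by linarith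
  have hN1 : (1 : ℝ) < N := by linarith
  have hL : 0 < Real.log N := Real.log_pos hN1
  have hAp : (0 : ℝ) < A := lt_of_lt_of_le (Real.rpow_pos_of_pos hNp _) hA1
  set y : ℝ := (N : ℝ) ^ (1 / 200 : ℝ) with hy
  have hlogy : Real.log y = 1 / 200 * Real.log N := Real.log_rpow hNp _
  set Z : ℝ := (N : ℝ) ^ (x - w) with hZ
  have hyZ : y < Z := Real.rpow_lt_rpow_of_exponent_lt hN1 (by linarith)
  set K₁ : ℝ := (N : ℝ) ^ (2 - x - w) / 2 with hK₁
  set K₂ : ℝ := 5 * (N : ℝ) ^ (2 - x + w) with hK₂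
  have hK1p : 0 < K₁ := by positivity
  have hK12 : K₁ ≤ K₂ := by
    have : (N : ℝ) ^ (2 - x - w) ≤ (N : ℝ) ^ (2 - x + w) :=
      Real.rpow_le_rpow_of_exponent_le hN1.le (by linarith)
    have h0 : 0 < (N : ℝ) ^ (2 - x - w) := by positivity
    rw [hK₁, hK₂]
    linarith
  have hK2le : K₂ ≤ 5 * (N : ℝ) ^ (81 / 100 : ℝ) := by
    rw [hK₂]
    have : (N : ℝ) ^ (2 - x + w) ≤ (N : ℝ) ^ (81 / 100 : ℝ) :=
      Real.rpow_le_rpow_of_exponent_le hN1.le (by linarith)
    linarith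
  set Ks := Icc ⌈K₁⌉₊ ⌊K₂⌋₊ with hKs
  have hKmem : ∀ k ∈ Ks, 1 ≤ k ∧ (k : ℝ) ≤ K₂ := by
    intro k hk
    rw [hKs, mem_Icc] at hk
    refine ⟨(Nat.ceil_pos.2 hK1p).trans_le hk.1, ?_⟩
    exact (Nat.le_floor_iff (by positivity)).1 hk.2
  -- the count for one pair `n, k`
  have hone : ∀ n ∈ Ioc N (N + N), ∀ k ∈ Ks, (((IA A).filter (fun a => k ∣ val a n ∧
      (val a n / k).Prime ∧ Z ≤ ((val a n / k : ℕ) : ℝ))).card : ℝ) ≤
      801 * C * A / Real.log N * (1 / (k : ℝ)) := by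
    intro n hn k hk
    obtain ⟨hk1, hk2⟩ := hKmem k hk
    have hkp : (0 : ℝ) < k := by exact_mod_cast hk1
    rw [mem_Ioc] at hn
    have hAn : A < n ^ 2 := by
      have h1 : (A : ℝ) < (n : ℝ) ^ 2 := by
        have h2 : (N : ℝ) < n := by exact_mod_cast hn.1
        have h3 : (N : ℝ) ^ 2 < (n : ℝ) ^ 2 := by gcongr
        have h4 : (0 : ℝ) < (N : ℝ) ^ 2 := by positivity
        linarith
      exact_mod_cast h1
    have h1 := count_prime_cofactor A n k Z hk1 hAn
    have h2 := hBT y Z 1 0 ((n ^ 2 - A) / k - 1) (2 * A / k + 2) hy2 hyZ (le_refl _)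
    have h3 : (((IA A).filter (fun a => k ∣ val a n ∧
      (val a n / k).Prime ∧ Z ≤ ((val a n / k : ℕ) : ℝ))).card : ℝ) ≤
      C * ((2 * A / k + 2 : ℕ) : ℝ) / (((Nat.totient 1 : ℕ) : ℝ) * Real.log y) + C * y ^ 2 :=
      le_trans (by exact_mod_cast h1) h2
    -- `N^(7/300)/5 ≤ A/k`
    have hAk : (N : ℝ) ^ (7 / 300 : ℝ) / 5 ≤ A / k := by
      rw [div_le_div_iff₀ (by norm_num) hkp]
      calc (N : ℝ) ^ (7 / 300 : ℝ) * k ≤ (N : ℝ) ^ (7 / 300 : ℝ) * (5 * (N : ℝ) ^ (81 / 100 : ℝ)) := by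
            have := hk2.trans hK2le
            gcongr
        _ = (N : ℝ) ^ (5 / 6 : ℝ) * 5 := by
            rw [mul_comm (5 : ℝ), ← mul_assoc, ← Real.rpow_add hNp]
            norm_num
        _ ≤ A * 5 := by gcongr
    have hAk1 : 1 ≤ (A : ℝ) / k := by
      refine le_trans ?_ hAk
      rw [le_div_iff₀ (by norm_num)]
      linarith
    have hH : ((2 * A / k + 2 : ℕ) : ℝ) ≤ 4 * (A / k) := by
      have h4 : ((2 * A / k : ℕ) : ℝ) ≤ ((2 * A : ℕ) : ℝ) / k := Nat.cast_div_le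
      push_cast at h4 ⊢
      have h5 : 2 * (A : ℝ) / k = 2 * (A / k) := by ring
      rw [h5] at h4
      linarith
    have hy3 : y ^ 2 ≤ A / k / Real.log N := by
      rw [le_div_iff₀ hL]
      have h4 : y ^ 2 = (N : ℝ) ^ (1 / 100 : ℝ) := by
        rw [hy, ← Real.rpow_natCast, ← Real.rpow_mul hNp.le]
        norm_num
      rw [h4]
      have h5 : Real.log N ≤ 1 / 5 * (N : ℝ) ^ (1 / 75 : ℝ) := hsmall
      calc (N : ℝ) ^ (1 / 100 : ℝ) * Real.log N
          ≤ (N : ℝ) ^ (1 / 100 : ℝ) * (1 / 5 * (N : ℝ) ^ (1 / 75 : ℝ)) := by gcongr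
        _ = (N : ℝ) ^ (7 / 300 : ℝ) / 5 := by
            have : (N : ℝ) ^ (7 / 300 : ℝ) = (N : ℝ) ^ (1 / 100 : ℝ) * (N : ℝ) ^ (1 / 75 : ℝ) := by
              rw [← Real.rpow_add hNp]
              norm_num
            rw [this]
            ring
        _ ≤ A / k := hAk
    refine h3.trans ?_
    rw [Nat.totient_one, Nat.cast_one, one_mul, hlogy]
    calc C * ((2 * A / k + 2 : ℕ) : ℝ) / (1 / 200 * Real.log N) + C * y ^ 2
        ≤ C * (4 * (A / k)) / (1 / 200 * Real.log N) + C * (A / k / Real.log N) := by gcongr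
      _ = 801 * C * A / Real.log N * (1 / (k : ℝ)) := by
          field_simp
          ring
  -- reduction
  have hred : ∑ a ∈ IA A, cnt N a (fun m => if PWn N x w m then 1 else 0) ≤
      ∑ n ∈ Ioc N (N + N), ∑ k ∈ Ks, (((IA A).filter (fun a => k ∣ val a n ∧
      (val a n / k).Prime ∧ Z ≤ ((val a n / k : ℕ) : ℝ))).card : ℝ) := by
    unfold cnt
    rw [sum_comm, two_mul]
    refine sum_le_sum fun n hn => ?_
    simp_rw [card_filter, Nat.cast_sum]
    rw [sum_comm]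
    refine sum_le_sum fun a ha => ?_
    have hnn : ∀ k ∈ Ks, (0 : ℝ) ≤ (((if k ∣ val a n ∧
      (val a n / k).Prime ∧ Z ≤ ((val a n / k : ℕ) : ℝ) then 1 else 0 : ℕ)) : ℝ) := by
      intro k _
      positivity
    split_ifs with hc
    · obtain ⟨p, hp1, ⟨c, hcp⟩, hp3, hp4⟩ := hc
      obtain ⟨hv1, hv2⟩ := WIN.val_bounds N A n a hn ha hA2
      have hp0 : 0 < p := hp1.pos
      have hp0' : (0 : ℝ) < p := by exact_mod_cast hp0
      have hcr : (val a n : ℝ) = p * c := by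
        rw [hcp]
        push_cast
        ring
      have hN2 : (N : ℝ) ^ (2 : ℝ) = (N : ℝ) ^ 2 := by
        rw [← Real.rpow_natCast]
        norm_num
      have hc1 : K₁ ≤ c := by
        have h6 : K₁ * p ≤ c * p := by
          calc K₁ * p ≤ K₁ * (N : ℝ) ^ (x + w) := by gcongr
            _ = (N : ℝ) ^ 2 / 2 := by
                rw [hK₁, div_mul_eq_mul_div, ← Real.rpow_add hNp, ← hN2]
                congr 2
                ring
            _ ≤ c * p := by
                rw [mul_comm, ← hcr]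
                exact hv1
        exact le_of_mul_le_mul_right h6 hp0'
      have hc2 : (c : ℝ) ≤ K₂ := by
        have h6 : (c : ℝ) * p ≤ K₂ * p := by
          calc (c : ℝ) * p = val a n := by rw [hcr]; ring
            _ ≤ 5 * (N : ℝ) ^ 2 := hv2
            _ = K₂ * (N : ℝ) ^ (x - w) := by
                rw [hK₂, mul_assoc, ← Real.rpow_add hNp, ← hN2]
                congr 2
                ring
            _ ≤ K₂ * p := by gcongr
        exact le_of_mul_le_mul_right h6 hp0'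
      have hcK : c ∈ Ks := by
        rw [hKs, mem_Icc]
        exact ⟨Nat.ceil_le.2 hc1, Nat.le_floor hc2⟩
      have hc0 : 0 < c := (hKmem c hcK).1
      have hdiv : val a n / c = p := by
        rw [hcp]
        exact Nat.mul_div_cancel p hc0
      have h2 := single_le_sum hnn hcK
      refine le_trans ?_ h2
      rw [if_pos ⟨⟨p, by rw [hcp]; ring⟩, by rw [hdiv]; exact hp1, by rw [hdiv]; exact hp3⟩]
      norm_num
    · exact sum_nonneg hnn
  have hsumk : ∑ k ∈ Ks, 1 / (k : ℝ) ≤ 3 * w * Real.log N := by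
    refine (sum_inv_real K₁ K₂ hK1p hK12).trans ?_
    have h6 : K₂ / K₁ = 10 * (N : ℝ) ^ (2 * w) := by
      rw [hK₁, hK₂]
      have h7 : (N : ℝ) ^ (2 - x + w) = (N : ℝ) ^ (2 - x - w) * (N : ℝ) ^ (2 * w) := by
        rw [← Real.rpow_add hNp]
        congr 1
        ring
      rw [h7]
      have h8 : (N : ℝ) ^ (2 - x - w) ≠ 0 := by positivity
      field_simp
      norm_num
    rw [h6, Real.log_mul (by norm_num) (by positivity), Real.log_rpow hNp]
    have h9 : Real.log 10 ≤ 3 := by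
      have h10 : Real.log 10 ≤ Real.log (2 ^ (4 : ℕ)) := Real.log_le_log (by norm_num) (by norm_num)
      rw [Real.log_pow] at h10
      have := Real.log_two_lt_d9
      push_cast at h10
      linarith
    rw [div_le_iff₀ hw] at hlog
    linarith
  calc ∑ a ∈ IA A, cnt N a (fun m => if PWn N x w m then 1 else 0)
      ≤ ∑ n ∈ Ioc N (N + N), ∑ k ∈ Ks, 801 * C * A / Real.log N * (1 / (k : ℝ)) :=
        hred.trans (sum_le_sum fun n hn => sum_le_sum fun k hk => hone n hn k hk)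
    _ = N * (801 * C * A / Real.log N * ∑ k ∈ Ks, 1 / (k : ℝ)) := by
        rw [sum_const, ← mul_sum, nsmul_eq_mul, Nat.card_Ioc, Nat.add_sub_cancel]
    _ ≤ N * (801 * C * A / Real.log N * (3 * w * Real.log N)) := by gcongr
    _ = 2403 * C * w * A * N := by
        field_simp
        ring

/-- PWIN for the values -/
theorem values (hQ : SpecQG) (hB : SpecBT) (u : ℝ) (hu : 0 < u) : ∃ C : ℝ, 0 < C ∧
    ∀ w : ℝ, 0 < w → w ≤ u / 2 → w ≤ 1 / 100 → ∃ N₀ : ℕ, ∀ N A : ℕ, N₀ ≤ N →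
    (N : ℝ) ^ (5 / 6 : ℝ) ≤ A → (A : ℝ) ≤ (N : ℝ) ^ 2 / 2 → ∀ x : ℝ, u ≤ x →
      ∑ a ∈ IA A, cnt N a (fun m => if PWn N x w m then 1 else 0) ≤ C * w * A * N := by
  obtain ⟨C, hC, hlarge⟩ := large hB
  refine ⟨C + (15 / u + 1), by positivity, fun w hw hwu hw1 => ?_⟩
  obtain ⟨N₁, hN₁⟩ := hlarge w hw hw1
  obtain ⟨N₂, hN₂⟩ := small hQ u w hu hw hwu hw1
  refine ⟨max N₁ N₂, fun N A hN hA1 hA2 x hx => ?_⟩
  have h0 : 0 ≤ w * A * N := by positivity
  have hpos : 0 ≤ 15 / u + 1 := by positivity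
  rcases le_total x (6 / 5) with h | h
  · refine (hN₂ N A ((le_max_right _ _).trans hN) hA1 x hx h).trans ?_
    calc (15 / u + 1) * w * A * N = (15 / u + 1) * (w * A * N) := by ring
      _ ≤ (C + (15 / u + 1)) * (w * A * N) := mul_le_mul_of_nonneg_right (by linarith) h0
      _ = (C + (15 / u + 1)) * w * A * N := by ring
  · refine (hN₁ N A ((le_max_left _ _).trans hN) hA1 hA2 x h).trans ?_
    calc C * w * A * N = C * (w * A * N) := by ring
      _ ≤ (C + (15 / u + 1)) * (w * A * N) := mul_le_mul_of_nonneg_right (by linarith) h0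
      _ = (C + (15 / u + 1)) * w * A * N := by ring

end PWINM

end

end Pool.Agent.Lib.MP391708.QPA.C
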