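import Pool.Agent.Lib.MP_391708_nt.QPA.C.SpecC
import Pool.Agent.Lib.MP_391708_nt.QPA.P3M

/-!
# Module SMK: integers in an interval with a large smooth part
-/

set_option autoImplicit false

namespace Pool.Agent.Lib.MP391708.QPA.C.SMKM

open Finset Filter Topology
open Pool.Agent.Lib.MP391708.QPA
open Pool.Agent.Lib.MP391708.QPA.H
open scoped Classical

noncomputable section

/-! ### the smooth part and the rough part -/

/-- the rough part -/
def rgp (z : ℝ) (m : ℕ) : ℕ :=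
  ∏ p ∈ m.primeFactors.filter (fun p : ℕ => ¬ (p : ℝ) < z), p ^ m.factorization p

theorem smp_mul_rgp (z : ℝ) (m : ℕ) (hm : m ≠ 0) : smp z m * rgp z m = m := by
  unfold smp rgp
  rw [Finset.prod_filter_mul_prod_filter_not]
  have h := Nat.prod_factorization_pow_eq_self hm
  rwa [Finsupp.prod, Nat.support_factorization] at h

theorem smooth_smp (z : ℝ) (m : ℕ) : Smooth z (smp z m) := by
  intro p hp hpm
  rw [smp, hp.prime.dvd_finsetProd_iff] at hpm
  obtain ⟨q, hq, hpq⟩ := hpm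
  have hq' := mem_filter.mp hq
  have h1 := hp.dvd_of_dvd_pow hpq
  rw [(Nat.prime_dvd_prime_iff_eq hp (Nat.mem_primeFactors.mp hq'.1).1).mp h1]
  exact hq'.2

theorem rough_rgp (z : ℝ) (m : ℕ) : Rough z (rgp z m) := by
  intro p hp hpm
  rw [rgp, hp.prime.dvd_finsetProd_iff] at hpm
  obtain ⟨q, hq, hpq⟩ := hpm
  have hq' := mem_filter.mp hq
  have h1 := hp.dvd_of_dvd_pow hpq
  rw [(Nat.prime_dvd_prime_iff_eq hp (Nat.mem_primeFactors.mp hq'.1).1).mp h1]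
  exact not_lt.mp hq'.2

theorem coprime_sr (z : ℝ) (s t : ℕ) (hs : Smooth z s) (ht : Rough z t) : Nat.Coprime s t := by
  apply Nat.coprime_of_dvd
  intro p hp h1 h2
  exact absurd (hs p hp h1) (not_lt.mpr (ht p hp h2))

theorem unique_smp (z : ℝ) (m k l : ℕ) (hm : m ≠ 0) (hkl : l * k = m) (hk : Rough z k)
    (hl : Smooth z l) : l = smp z m := by
  have h := smp_mul_rgp z m hm
  have h1 : l ∣ smp z m := by
    have h2 : l ∣ smp z m * rgp z m := by rw [h, ← hkl]; exact Dvd.intro k rfl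
    exact (coprime_sr z _ _ hl (rough_rgp z m)).dvd_of_dvd_mul_right h2
  have h2 : smp z m ∣ l := by
    have h3 : smp z m ∣ l * k := by rw [hkl]; exact Dvd.intro _ h
    exact (coprime_sr z _ _ (smooth_smp z m) hk).dvd_of_dvd_mul_right h3
  exact Nat.dvd_antisymm h1 h2

/-! ### the sum over the smooth numbers -/

/-- powers as a monoid homomorphism -/
def pwH (t : ℝ) : ℕ →* ℝ where
  toFun m := (m : ℝ) ^ t
  map_one' := by simp
  map_mul' a b := by
    push_cast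
    exact Real.mul_rpow (Nat.cast_nonneg a) (Nat.cast_nonneg b)

lemma hasSum_smooth (t : ℝ) (ht : t < 0) (z : ℝ) :
    HasSum (fun m : (⌈z⌉₊).smoothNumbers => (((m : ℕ) : ℝ)) ^ t) (∏ p ∈ PB z, (1 - (p : ℝ) ^ t)⁻¹) := by
  have h : ∀ {p : ℕ}, p.Prime → ‖pwH t p‖ < 1 := by
    intro p hp
    have hp1 : (1 : ℝ) < p := by exact_mod_cast hp.one_lt
    have e : pwH t p = (p : ℝ) ^ t := rfl
    rw [e, Real.norm_of_nonneg (by positivity)]
    exact Real.rpow_lt_one_of_one_lt_of_neg hp1 ht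
  exact (EulerProduct.summable_and_hasSum_smoothNumbers_prod_primesBelow_geometric h ⌈z⌉₊).2

/-- the smooth numbers up to `S` -/
def sm (z S : ℝ) : Finset ℕ := (Icc 1 ⌊S⌋₊).filter (Smooth z)

lemma mem_smooth_iff (z : ℝ) (m : ℕ) : m ∈ (⌈z⌉₊).smoothNumbers ↔ Smooth z m := by
  rw [Nat.mem_smoothNumbers']
  unfold Smooth
  constructor
  · intro h p hp hpm
    exact Nat.lt_ceil.1 (h p hp hpm)
  · intro h p hp hpm
    exact Nat.lt_ceil.2 (h p hp hpm)

lemma ne_zero_of_smooth {n : ℕ} (m : n.smoothNumbers) : (m : ℕ) ≠ 0 := Nat.ne_zero_of_mem_smoothNumbers m.2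

lemma sum_sm_le (z S : ℝ) : ∑ s ∈ sm z S, (1 : ℝ) / s ≤ ∏ p ∈ PB z, (1 - 1 / (p : ℝ))⁻¹ := by
  have h := hasSum_smooth (-1) (by norm_num) z
  have e : ∏ p ∈ PB z, (1 - (p : ℝ) ^ (-1 : ℝ))⁻¹ = ∏ p ∈ PB z, (1 - 1 / (p : ℝ))⁻¹ :=
    prod_congr rfl fun p _ => by rw [Real.rpow_neg_one, one_div]
  rw [e] at h
  have hs : ∀ s ∈ sm z S, s ∈ (⌈z⌉₊).smoothNumbers := by
    intro s hs
    unfold sm at hs
    rw [mem_filter, mem_Icc] at hs
    exact (mem_smooth_iff z s).2 hs.2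
  set f : {x // x ∈ sm z S} ↪ (⌈z⌉₊).smoothNumbers := ⟨fun s => ⟨s.1, hs s.1 s.2⟩,
    fun a b hab => Subtype.ext (congrArg (fun t : (⌈z⌉₊).smoothNumbers => (t : ℕ)) hab)⟩ with hf
  have h2 := sum_le_hasSum ((sm z S).attach.map f) (fun i _ => by positivity) h
  rw [sum_map] at h2
  refine le_trans (le_of_eq ?_) h2
  rw [← sum_attach]
  refine sum_congr rfl fun s _ => ?_
  rw [hf, Real.rpow_neg_one, one_div]
  rfl

lemma sum_all_le (z S τ : ℝ) (hS : 0 < S) (hτ : 0 < τ) (hτ1 : τ < 1) :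
    ∏ p ∈ PB z, (1 - 1 / (p : ℝ))⁻¹ ≤ ∑ s ∈ sm z S, (1 : ℝ) / s
      + S ^ (-τ) * ∏ p ∈ PB z, (1 - (p : ℝ) ^ (τ - 1))⁻¹ := by
  have h := hasSum_smooth (-1) (by norm_num) z
  have e : ∏ p ∈ PB z, (1 - (p : ℝ) ^ (-1 : ℝ))⁻¹ = ∏ p ∈ PB z, (1 - 1 / (p : ℝ))⁻¹ :=
    prod_congr rfl fun p _ => by rw [Real.rpow_neg_one, one_div]
  rw [e] at h
  have h2 := hasSum_smooth (τ - 1) (by linarith) z
  refine hasSum_le_of_sum_le h ?_
  intro F
  have h3 := sum_le_hasSum F (fun i _ => by positivity) h2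
  set P : (⌈z⌉₊).smoothNumbers → Prop := fun m => ((m : ℕ) : ℝ) ≤ S with hP
  rw [← sum_filter_add_sum_filter_not F P]
  refine add_le_add ?_ ?_
  · have e2 : ∑ m ∈ F.filter P, ((m : ℕ) : ℝ) ^ (-1 : ℝ)
        = ∑ s ∈ (F.filter P).map (Function.Embedding.subtype _), (1 : ℝ) / s := by
      rw [sum_map]
      refine sum_congr rfl fun m _ => ?_
      rw [Function.Embedding.subtype_apply, Real.rpow_neg_one, one_div]
    rw [e2]
    refine sum_le_sum_of_subset_of_nonneg ?_ fun _ _ _ => by positivity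
    intro s hs
    rw [Finset.mem_map] at hs
    obtain ⟨m, hm, rfl⟩ := hs
    rw [mem_filter] at hm
    unfold sm
    rw [mem_filter, mem_Icc, Function.Embedding.subtype_apply]
    exact ⟨⟨Nat.pos_of_ne_zero (ne_zero_of_smooth m), Nat.le_floor hm.2⟩, (mem_smooth_iff z m).1 m.2⟩
  · have e3 : ∀ m ∈ F.filter (fun m => ¬ P m), ((m : ℕ) : ℝ) ^ (-1 : ℝ)
        ≤ S ^ (-τ) * ((m : ℕ) : ℝ) ^ (τ - 1) := by
      intro m hm
      have hm' := (mem_filter.1 hm).2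
      have hmS : S < ((m : ℕ) : ℝ) := not_le.1 hm'
      have hm0 : (0 : ℝ) < ((m : ℕ) : ℝ) := by linarith
      have e3 : ((m : ℕ) : ℝ) ^ (-1 : ℝ) = ((m : ℕ) : ℝ) ^ (-τ) * ((m : ℕ) : ℝ) ^ (τ - 1) := by
        rw [← Real.rpow_add hm0]
        congr 1
        ring
      rw [e3]
      refine mul_le_mul_of_nonneg_right ?_ (by positivity)
      exact Real.rpow_le_rpow_of_nonpos hS hmS.le (by linarith)
    refine (sum_le_sum e3).trans ?_
    refine (sum_le_sum_of_subset_of_nonneg (filter_subset _ _) fun _ _ _ => by positivity).trans ?_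
    rw [← mul_sum]
    exact mul_le_mul_of_nonneg_left h3 (by positivity)

lemma mem_PB {z : ℝ} {p : ℕ} : p ∈ PB z ↔ p.Prime ∧ (p : ℝ) < z := by
  unfold PB
  rw [mem_filter, mem_range, Nat.lt_ceil]
  tauto

/-- `∑_{p<z} log p/p ≤ log z + 8` -/
lemma sum_log_PB (z : ℝ) (hz : 1 ≤ z) :
    ∑ p ∈ PB z, Real.log p / (p : ℝ) ≤ Real.log z + 8 := by
  have h := P3M.mert 1 z le_rfl hz
  rw [Real.log_one, sub_zero] at h
  refine le_trans ?_ h
  apply Finset.sum_le_sum_of_subset_of_nonneg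
  · intro p hp
    have hp' := mem_PB.1 hp
    rw [mem_filter, mem_Ioc]
    refine ⟨⟨?_, Nat.le_floor hp'.2.le⟩, hp'.1⟩
    rw [Nat.floor_one]
    exact hp'.1.one_lt
  · intro p hp _
    rw [mem_filter, mem_Ioc] at hp
    exact div_nonneg (Real.log_nonneg (by exact_mod_cast hp.2.one_lt.le)) (Nat.cast_nonneg _)

lemma prod_ratio (z : ℝ) (hz : Real.exp 2 ≤ z) :
    (∏ p ∈ PB z, (1 - 1 / (p : ℝ))) * ∏ p ∈ PB z, (1 - (p : ℝ) ^ (1 / Real.log z - 1))⁻¹ ≤ Real.exp 40 := by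
  have hz0 : 0 < z := lt_of_lt_of_le (Real.exp_pos 2) hz
  have hlz : 2 ≤ Real.log z := by
    rw [Real.le_log_iff_exp_le hz0]
    exact hz
  have hz1 : 1 ≤ z := le_trans (by have := Real.add_one_le_exp (2 : ℝ); linarith) hz
  set τ : ℝ := 1 / Real.log z with hτ
  have hτ0 : 0 < τ := by positivity
  have hτ1 : τ * Real.log z = 1 := by rw [hτ]; field_simp
  have hτ2 : τ ≤ 1 / 2 := by
    rw [hτ]
    exact one_div_le_one_div_of_le (by norm_num) hlz
  rw [← prod_mul_distrib]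
  have e4 : ∀ p ∈ PB z, (1 - 1 / (p : ℝ)) * (1 - (p : ℝ) ^ (τ - 1))⁻¹
      ≤ Real.exp (8 * τ * (Real.log p / p)) := by
    intro p hp
    have hp2 : (2 : ℝ) ≤ p := by exact_mod_cast (mem_PB.1 hp).1.two_le
    have hp0 : (0 : ℝ) < p := by linarith
    have hlp : 0 ≤ Real.log p := Real.log_nonneg (by linarith)
    have e5 : τ * Real.log p ≤ 1 := by
      rw [← hτ1]
      apply mul_le_mul_of_nonneg_left _ hτ0.le
      exact Real.log_le_log hp0 (mem_PB.1 hp).2.le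
    have e6 : 0 ≤ τ * Real.log p := by positivity
    have e7 : (p : ℝ) ^ τ ≤ 1 + 2 * (τ * Real.log p) := by
      rw [Real.rpow_def_of_pos hp0, mul_comm (Real.log p)]
      have := Real.abs_exp_sub_one_sub_id_le (x := τ * Real.log p) (by rw [abs_le]; constructor <;> linarith)
      rw [abs_le] at this
      nlinarith [this.2]
    have e8 : (p : ℝ) ^ (τ - 1) = (p : ℝ) ^ τ / p := by
      rw [Real.rpow_sub hp0, Real.rpow_one]
    have e9 : (p : ℝ) ^ (τ - 1) ≤ 3 / 4 := by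
      calc (p : ℝ) ^ (τ - 1) ≤ (p : ℝ) ^ (-(1 / 2) : ℝ) :=
            Real.rpow_le_rpow_of_exponent_le (by linarith) (by linarith)
        _ ≤ (2 : ℝ) ^ (-(1 / 2) : ℝ) := Real.rpow_le_rpow_of_nonpos (by norm_num) hp2 (by norm_num)
        _ ≤ 3 / 4 := by
            rw [Real.rpow_neg (by norm_num), ← Real.sqrt_eq_rpow]
            have h1 : (4 / 3 : ℝ) ≤ √2 := Real.le_sqrt_of_sq_le (by norm_num)
            calc (√2)⁻¹ ≤ (4 / 3 : ℝ)⁻¹ := inv_anti₀ (by norm_num) h1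
              _ = 3 / 4 := by norm_num
    have e10 : (0 : ℝ) < 1 - (p : ℝ) ^ (τ - 1) := by linarith
    have e11 : (1 - 1 / (p : ℝ)) * (1 - (p : ℝ) ^ (τ - 1))⁻¹ ≤ 1 + 8 * τ * (Real.log p / p) := by
      rw [← div_eq_mul_inv, div_le_iff₀ e10]
      have e12 : (p : ℝ) ^ (τ - 1) - 1 / p ≤ 2 * τ * (Real.log p / p) := by
        rw [e8, ← sub_div]
        rw [div_le_iff₀ hp0]
        have : 2 * τ * (Real.log p / p) * p = 2 * (τ * Real.log p) := by field_simp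
        rw [this]
        linarith
      have e13 : 0 ≤ τ * (Real.log p / p) := by positivity
      have e14 : 1 / 4 ≤ 1 - (p : ℝ) ^ (τ - 1) := by linarith
      nlinarith [mul_le_mul_of_nonneg_left e14 e13]
    have e15 := Real.add_one_le_exp (8 * τ * (Real.log p / p))
    linarith
  have e5 : ∀ p ∈ PB z, 0 ≤ (1 - 1 / (p : ℝ)) * (1 - (p : ℝ) ^ (τ - 1))⁻¹ := by
    intro p hp
    have hp2 : (1 : ℝ) < p := by exact_mod_cast (mem_PB.1 hp).1.one_lt
    have h1 : 1 / (p : ℝ) ≤ 1 := by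
      rw [div_le_one (by linarith)]
      exact hp2.le
    have h2 : (p : ℝ) ^ (τ - 1) < 1 := Real.rpow_lt_one_of_one_lt_of_neg hp2 (by linarith)
    exact mul_nonneg (by linarith) (inv_nonneg.2 (by linarith))
  refine (prod_le_prod e5 e4).trans ?_
  rw [← Real.exp_sum, ← mul_sum]
  apply Real.exp_le_exp.2
  have e6 := sum_log_PB z hz1
  have e7 : 8 * τ * ∑ p ∈ PB z, Real.log p / (p : ℝ) ≤ 8 * τ * (Real.log z + 8) := by gcongr
  nlinarith

lemma Wp_pos (z : ℝ) : 0 < Wp z := by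
  unfold Wp
  refine prod_pos fun p hp => ?_
  have hp2 : (1 : ℝ) < p := by exact_mod_cast (mem_PB.1 hp).1.one_lt
  have h1 : 1 / (p : ℝ) < 1 := by
    rw [div_lt_one (by linarith)]
    exact hp2
  linarith

lemma Wp_inv (z : ℝ) : Wp z * ∏ p ∈ PB z, (1 - 1 / (p : ℝ))⁻¹ = 1 := by
  rw [prod_inv_distrib]
  exact mul_inv_cancel₀ (Wp_pos z).ne'

lemma upper (z S : ℝ) : Wp z * ∑ s ∈ sm z S, (1 : ℝ) / s ≤ 1 := by
  have h := mul_le_mul_of_nonneg_left (sum_sm_le z S) (Wp_pos z).le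
  rwa [Wp_inv z] at h

lemma lower (z S : ℝ) (hz : Real.exp 2 ≤ z) (hS : 0 < S) :
    1 - Real.exp 40 * S ^ (-(1 / Real.log z)) ≤ Wp z * ∑ s ∈ sm z S, (1 : ℝ) / s := by
  have hz0 : 0 < z := lt_of_lt_of_le (Real.exp_pos 2) hz
  have hlz : 2 ≤ Real.log z := by
    rw [Real.le_log_iff_exp_le hz0]
    exact hz
  have hτ0 : 0 < 1 / Real.log z := by positivity
  have hτ2 : 1 / Real.log z ≤ 1 / 2 := one_div_le_one_div_of_le (by norm_num) hlz
  have h1 := sum_all_le z S (1 / Real.log z) hS hτ0 (by linarith)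
  have h2 := mul_le_mul_of_nonneg_left h1 (Wp_pos z).le
  rw [Wp_inv z, mul_add] at h2
  have h3 := prod_ratio z hz
  have h4 : Wp z * (S ^ (-(1 / Real.log z)) * ∏ p ∈ PB z, (1 - (p : ℝ) ^ (1 / Real.log z - 1))⁻¹)
      ≤ Real.exp 40 * S ^ (-(1 / Real.log z)) := by
    have h5 : Wp z * (S ^ (-(1 / Real.log z)) * ∏ p ∈ PB z, (1 - (p : ℝ) ^ (1 / Real.log z - 1))⁻¹)
      = ((∏ p ∈ PB z, (1 - 1 / (p : ℝ))) * ∏ p ∈ PB z, (1 - (p : ℝ) ^ (1 / Real.log z - 1))⁻¹)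
        * S ^ (-(1 / Real.log z)) := by
      unfold Wp
      ring
    rw [h5]
    exact mul_le_mul_of_nonneg_right h3 (by positivity)
  linarith

end

end Pool.Agent.Lib.MP391708.QPA.C.SMKM
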