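import Pool.Agent.Lib.MP_391708_nt.QPA.H.SpecH

/-!
# Project QPA, phase 4: `∑_{n≤N} λ(|n²+a|) = o(N)` for almost all `|a| ≤ A`, `A ≥ N^θ`, `θ > 5/6`

`z = N^e0`, smooth: all prime factors `< z`, rough: all prime factors `≥ z`.  `m = |n²+a| = s t`, `s` the smooth part, `t` the
rough part.  Numbers with `s > N^η` are dropped (SMTC).  The level is `Y = N^κ` with a fixed `κ < 2/3`, `κ > 3/2 - θ`,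
`3κ + η < 2`.  For rough squarefree `t` without divisor in `[N^κ, N^(1+e)]` one has `t = p t'`, `p` prime, `t' ≤ Y`, and
`λ(t) = -∑_{k∣t, k≤Y} (-2)^ω(k)`; the other `t` have a divisor in the Type II window `[N^(κ+e), N^(1-e)]`.  There are no main
terms.  Every module `XXX` is a file `QPA/C/XXX.lean` with `theorem specXXX (hYYY : SpecYYY) .. : SpecXXX` in the namespace
`Pool.Agent.Lib.MP391708.QPA.C`, its own lemmas in `Pool.Agent.Lib.MP391708.QPA.C.XXXM`.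
-/

set_option autoImplicit false

namespace Pool.Agent.Lib.MP391708.QPA.C

open Finset Filter Topology
open Pool.Agent.Lib.MP391708.QPA
open Pool.Agent.Lib.MP391708.QPA.H
open scoped Classical

noncomputable section

/-! ## Definitions -/

/-- the `z`-smooth part of `m` -/
def smp (z : ℝ) (m : ℕ) : ℕ := ∏ p ∈ m.primeFactors.filter (fun p : ℕ => (p : ℝ) < z), p ^ m.factorization p

/-- all prime factors of `s` are `< z` -/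
def Smooth (z : ℝ) (s : ℕ) : Prop := ∀ p : ℕ, p.Prime → p ∣ s → (p : ℝ) < z

/-- the Liouville function on the `z`-smooth numbers `1 ≤ s ≤ S` -/
def lsm (z S : ℝ) (s : ℕ) : ℝ := if 1 ≤ s ∧ (s : ℝ) ≤ S ∧ Smooth z s then lio s else 0

/-- `λ(s) 1_{s ≤ N^η}`, `s` the `N^e0`-smooth part of `m` -/
def lamC (N : ℕ) (e0 η : ℝ) (m : ℕ) : ℝ :=
  if ((smp ((N : ℝ) ^ e0) m : ℕ) : ℝ) ≤ (N : ℝ) ^ η then lio (smp ((N : ℝ) ^ e0) m) else 0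

/-- `-∑ (-2)^ω(k)` over the rough squarefree divisors `k ≤ N^κ` of `m` -/
def psiC (N : ℕ) (e0 κ : ℝ) (m : ℕ) : ℝ :=
  -∑ k ∈ m.divisors.filter (fun k : ℕ => (k : ℝ) ≤ (N : ℝ) ^ κ ∧ Rough ((N : ℝ) ^ e0) k ∧ Squarefree k),
    (-2 : ℝ) ^ k.primeFactors.card

/-- `m` has a rough divisor in the window `[N^(x-e), N^(x+e)]` -/
def RWin (N : ℕ) (e0 x e : ℝ) (m : ℕ) : Prop :=
  ∃ k : ℕ, k ∣ m ∧ Rough ((N : ℝ) ^ e0) k ∧ (N : ℝ) ^ (x - e) ≤ k ∧ (k : ℝ) ≤ (N : ℝ) ^ (x + e)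

/-- the type `c` is good: for no nonempty subtype the interval of the sizes of the product meets
`[x-e, x+e]`, `x ∈ {κ, 1}` -/
def GoodC (κ e2 e : ℝ) (c : Multiset ℕ) : Prop :=
  ∀ s : Multiset ℕ, s ≤ c → s ≠ 0 → ∀ x ∈ ({κ, 1} : Finset ℝ),
    (x + e < e2 * (s.sum : ℝ)) ∨ (e2 * ((s.sum : ℝ) + (Multiset.card s : ℝ)) < x - e)

/-- the primes `p` with `w < p < z` that divide `m` -/
def PW2 (w : ℕ) (z : ℝ) (m : ℕ) : Finset ℕ := m.primeFactors.filter (fun p : ℕ => w < p ∧ (p : ℝ) < z)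

/-- `∏_{w < p < z} (1 - 2ρ_a(p)/p)` -/
def VC (w : ℕ) (z : ℝ) (a : ℤ) : ℝ := ∏ p ∈ (PB z).filter (fun p => w < p), (1 - 2 * (rho a p : ℝ) / p)

/-! ## Part P: Type II for `b` supported on one parity class, `κ > 1/2` -/

/-- COUNTP (as COUNT, without parity hypothesis: `4d ∣ v-u` in `prs L d`, so `u ≡ v (mod 2)`; helper21). -/
def SpecCOUNTP : Prop := ∀ e : ℝ, 0 < e → ∃ C : ℝ, 0 < C ∧ ∀ (K L A : ℝ) (d : ℕ), 1 ≤ K → K ≤ L →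
  1 ≤ A → A ≤ K * L / 100 → 1 ≤ d → (d : ℝ) ≤ √(L / K) / 4 →
  ((((Icc 1 ⌊4 * K⌋₊) ×ˢ (prs L d)).filter (fun t =>
    |aq d t.1 t.2.1 t.2.2| ≤ 4 * A)).card : ℝ) ≤ C * (K * L) ^ e * A * √(K * L)

/-- KERP (from BIL, POI, COUNTP): as KER, without parity hypothesis. -/
def SpecKERP : Prop := ∀ τ : ℝ, 0 < τ → ∃ σ : ℝ, 0 < σ ∧ σ < τ ∧ ∃ X₀ : ℝ,
  ∀ (K L A : ℝ) (d D : ℕ) (b : ℕ → ℝ), X₀ ≤ K * L → 1 ≤ K → K ≤ L → 1 ≤ A →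
  A ≤ (K * L) ^ (3 / 4 : ℝ) → L * √(L / K) ≤ A ^ 2 * (K * L) ^ (-τ) →
  √(L / K) ≤ √A * (K * L) ^ (-τ) → Odd D → (D : ℝ) ≤ (K * L) ^ σ →
  √(L / K) * (K * L) ^ (-σ) ≤ d → (d : ℝ) ≤ √(L / K) / 4 → 1 ≤ d →
  (∀ u, |b u| ≤ 1) →
  |Sd K L A d D b - A * gI / (2 * D) * Wd K L d b| ≤ A * √(K * L) * (K * L) ^ (-σ)

/-- SECP (from KERP, COUNTP): as SEC. For `k` odd, `n ≡ n' (mod k)`, `u ≡ v (mod 2)`: `n'² - n² = k(v-u)` is even, so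
`n' - n` is even. -/
def SpecSECP : Prop := ∀ τ : ℝ, 0 < τ → ∃ σ : ℝ, 0 < σ ∧ ∃ X₀ : ℝ,
  ∀ (K L A y : ℝ) (b lam : ℕ → ℝ) (X par : ℕ), X₀ ≤ K * L → 1 ≤ K → K ≤ L → 1 ≤ A →
  A ≤ (K * L) ^ (3 / 4 : ℝ) → L * √(L / K) ≤ A ^ 2 * (K * L) ^ (-τ) →
  √(L / K) ≤ √A * (K * L) ^ (-τ) → (K * L) ^ τ ≤ √(L / K) → 2 * √(K * L) ≤ X →
  1 ≤ y → y ≤ (K * L) ^ σ → (∀ d, |lam d| ≤ 1) →
  (∀ d, lam d ≠ 0 → 1 ≤ d ∧ (d : ℝ) ≤ y ∧ Odd d) →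
  (∀ u, |b u| ≤ 1) → (∀ u, b u ≠ 0 → u % 2 = par ∧ L < (u : ℝ) ∧ (u : ℝ) ≤ 5 / 4 * L) →
  |Q2 X K A lam b - A * gI * QF y lam * Wsum K L b| ≤ A * L * (K * L) ^ (-σ)

/-- TWOP (from SECP, FIRSTH, SELB): as TWOH, for `b` supported on one parity class, and `κ > 1/2` (in `TwoK.params`:
`θ/2 - (1-κ) > 0` as `θ + κ > 3/2`, `κ > 1/2`; in `TwoK.sizes` only `0 ≤ κ` is used). -/
def SpecTWOP : Prop := ∀ θ κ e e0 B : ℝ, 1 / 2 < θ → 1 / 2 < κ → 3 / 2 < θ + κ → 0 < e → 0 < e0 → 0 < B →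
  ∃ C : ℝ, 0 < C ∧ ∀ δ : ℝ, 0 < δ → ∃ N₀ : ℕ, ∀ N A : ℕ, N₀ ≤ N → Adm θ N A → ∀ K L : ℝ,
  (N : ℝ) ^ κ ≤ K → K ≤ (N : ℝ) ^ (1 - e) → (N : ℝ) ^ 2 / 2 ≤ K * L → K * L ≤ 5 * (N : ℝ) ^ 2 →
  ∀ (par : ℕ) (α b : ℕ → ℝ), (∀ k, |α k| ≤ B * rInd ((N : ℝ) ^ e0) k) →
  (∀ k, α k ≠ 0 → K < (k : ℝ) ∧ (k : ℝ) ≤ 5 / 4 * K) →
  (∀ u, |b u| ≤ B) → (∀ u, b u ≠ 0 → u % 2 = par ∧ L < (u : ℝ) ∧ (u : ℝ) ≤ 5 / 4 * L) →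
  (∑ a ∈ IA A, |bil (8 * N) a α b|) ^ 2
    ≤ C * ((A : ℝ) ^ 2 * K / (Real.log N) ^ 2) * (|Wsum K L b| + δ * L / (Real.log N) ^ 2)

/-! ## Part B: one block -/

/-- WBC (from WB, BDHB): the bound of `Wsum` for a bounded function with small sums in the classes modulo `r ≤ R`. As WBL:
WB for `b' = b/(B log N)` and the constant majorant `1/log N`; the pieces `pc L η J i` are intervals `Ioc x y` with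
`L - 1 ≤ x ≤ y ≤ (1+η)L`. -/
def SpecWBC : Prop := ∀ B ϖ e η : ℝ, 0 < B → 0 < ϖ → 0 < e → 0 < η → η ≤ 1 / 4 → ∃ R : ℕ, ∃ κ : ℝ, 0 < κ ∧
  ∃ N₀ : ℕ, ∀ (N : ℕ) (K L : ℝ) (b : ℕ → ℝ), N₀ ≤ N →
  1 ≤ K → K ≤ L → (N : ℝ) ≤ L → (N : ℝ) ^ 2 / 2 ≤ K * L → K * L ≤ 5 * (N : ℝ) ^ 2 → (N : ℝ) ^ e ≤ √(L / K) →
  √(L / K) ≤ (N : ℝ) ^ (2 / 5 : ℝ) → (∀ u, |b u| ≤ B) →
  (∀ u, b u ≠ 0 → L < (u : ℝ) ∧ (u : ℝ) ≤ (1 + η) * L) →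
  (∀ r c x y : ℕ, 1 ≤ r → r ≤ R → x ≤ y → (y : ℝ) ≤ 2 * L →
    |∑ u ∈ (Ioc x y).filter (fun u => u % r = c), b u| ≤ κ * L) →
  |Wsum K L b| ≤ ϖ * L

/-- EQC (from LAMX, RSUM, BT, FFB): `FF c * λ_smooth` has mean value `0` in every residue class. `u = t s`, `t` of type `c`, `s ≤ S`
smooth. For fixed `t` the sum over `s ≤ min (S, X/t)`, `s` smooth, in a class modulo `r` (`t` is prime to `r`): the indicator of the smooth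
numbers is `∑ μ(k)` over the rough divisors `k`, so the sum is `∑_{k rough} μ(k)λ(k) ∑_{s' ≤ ../k, class} λ(s')`: LAMX and RSUM. -/
def SpecEQC : Prop := ∀ (e0 η κ : ℝ) (Q : ℕ) (c : Multiset ℕ), 0 < e0 → e0 ≤ 1 / 10 → 0 < η → η ≤ 1 / 4 → 0 < κ →
  1 ≤ Q → c ≠ 0 → (∀ i ∈ c, Q ≤ i) → ∀ R : ℕ, ∃ N₀ : ℕ, ∀ N : ℕ, N₀ ≤ N → ∀ r c₀ X : ℕ, 1 ≤ r → r ≤ R →
  N ≤ X → (X : ℝ) ≤ (N : ℝ) ^ 3 →
    |∑ u ∈ (Icc 1 X).filter (fun u => u % r = c₀),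
      conv (fun m => FF N (e0 / Q) c m) (lsm ((N : ℝ) ^ e0) ((N : ℝ) ^ η)) u| ≤ κ * X

/-- BLKC (from TWOP, WBC, EQC, FFB): one block. `b` = the cut, split into its even and its odd part; the class sums of these modulo `r`
are class sums modulo `2r` (at most `2` classes each). -/
def SpecBLKC : Prop := ∀ (θ κ e e0 η₁ η ϖ : ℝ) (Q : ℕ) (c₁ c₂ : Multiset ℕ), 1 / 2 < θ → 3 / 5 < κ →
  3 / 2 < θ + κ → 0 < e → 0 < e0 → e0 ≤ 1 / 10 → 0 < η → η ≤ 1 / 4 → 0 < η₁ → η₁ ≤ 1 / 4 → 0 < ϖ → 1 ≤ Q →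
  (∀ i ∈ c₁, Q ≤ i) → (∀ i ∈ c₂, Q ≤ i) → c₂ ≠ 0 → ∃ N₀ : ℕ, ∀ N A : ℕ, N₀ ≤ N → Adm θ N A → ∀ K L : ℝ,
  (N : ℝ) ^ κ ≤ K → K ≤ (N : ℝ) ^ (1 - e) → (N : ℝ) ^ 2 / 2 ≤ K * L → K * L ≤ 5 * (N : ℝ) ^ 2 →
  ∑ a ∈ IA A, |bil (8 * N) a (cut K ((1 + η₁) * K) (fun m => FF N (e0 / Q) c₁ m))
        (cut L ((1 + η₁) * L)
          (conv (fun m => FF N (e0 / Q) c₂ m) (lsm ((N : ℝ) ^ e0) ((N : ℝ) ^ η))))|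
    ≤ ϖ * A * N / Real.log N

/-- TIIC (from BLKC, FFB): the sum over `N < n ≤ 2N`, decomposition into blocks as in `TII.core` of `QPA/TII.lean` and in
`H/TOTL.lean`; `conv (FF (c₁+c₂)) lsm = conv (FF c₁) (conv (FF c₂) lsm)`. The edge blocks: only `n ∈ En N η₁` contribute, each at most
`∑_{k ∣ val} FF c₁ k |conv (FF c₂) lsm (val/k)| ≤ C`. -/
def SpecTIIC : Prop := ∀ (θ κ e e0 η ϖ : ℝ) (Q : ℕ) (c₁ c₂ : Multiset ℕ), 1 / 2 < θ → 3 / 5 < κ →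
  3 / 2 < θ + κ → 0 < e → 0 < e0 → e0 ≤ 1 / 10 → 0 < η → η ≤ 1 / 4 → 0 < ϖ → 1 ≤ Q →
  (∀ i ∈ c₁, Q ≤ i) → (∀ i ∈ c₂, Q ≤ i) → c₂ ≠ 0 → MidK κ (e0 / Q) e c₁ → ∃ N₀ : ℕ, ∀ N A : ℕ, N₀ ≤ N →
  Adm θ N A →
  ∑ a ∈ IA A, |cnt N a (conv (fun m => FF N (e0 / Q) (c₁ + c₂) m) (lsm ((N : ℝ) ^ e0) ((N : ℝ) ^ η)))|
    ≤ ϖ * A * N

/-! ## Part T: the combinatorial identity -/

/-- T2C (from FFB): as T2K / T2E. Let `m = s t`. If `s > N^η` both `λ(m)1_{s≤N^η}`, `lamC` and all `conv (FF c) lsm` vanish. If `s ≤ N^η` then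
`conv (FF c) lsm m = FF c t λ(s)`, `psiC m = psiC t`, so everything is `λ(s)` times the identity for `t ∈ [N^(2-η)/2, 5N²]`:
`t` not squarefree: `NSq`. `t` squarefree of a bad type: `RWin`. `t` squarefree of a good type `c` without `MidK` subtype: let
`D_j` be the product of the `j` smallest primes of `t`, `j` maximal with `D_j ≤ N^(κ-e)`; then `D_(j+1) ≥ N^(1+e)` (good, no Mid), so the
product `B` of the remaining primes is `≤ 5 N^(1-e)`, hence `≤ N^(κ-e)`; all primes of `B` are `≥ D_(j+1)/D_j ≥ N^(1-κ+2e) > N^(κ/2)`, so `B = 1` or `B` is a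
prime `≥ q_(j+1)`; in the last case `t = D_j q_(j+1) B ≤ N^(3κ-3e)`, a contradiction to `3κ + η < 2`. So `t = D_j p`, `D_j ≤ N^κ < p` and
`psiC t = -∑_{k∣D_j} (-2)^ω(k) = -(-1)^ω(D_j) = λ(t)`. For a good type with a `MidK` subtype `t_c = (λ_c - ψ_c)/vf c`. (Types with
`e2 (c.sum + card c) ≤ 1` do not occur, put `t_c = 0` for them.) -/
def SpecT2C : Prop := ∀ κ e0 η : ℝ, 3 / 5 < κ → κ < 2 / 3 → 0 < e0 → e0 ≤ 1 / 10 → 0 < η → η ≤ 1 / 10 → 3 * κ + η < 2 →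
  ∃ C : ℝ, 0 < C ∧ ∀ e : ℝ, 0 < e → e ≤ 1 / 40 →
  ∃ Q : ℕ, 1 ≤ Q ∧ ∃ (T : Finset (Multiset ℕ)) (t : Multiset ℕ → ℝ), (∀ c ∈ T, ∀ i ∈ c, Q ≤ i) ∧
  (∀ c ∈ T, |t c| ≤ C) ∧ ∃ N₀ : ℕ, ∀ N : ℕ, N₀ ≤ N →
  (∀ m : ℕ, (N : ℝ) ^ 2 / 2 ≤ m → (m : ℝ) ≤ 5 * (N : ℝ) ^ 2 →
    |(if ((smp ((N : ℝ) ^ e0) m : ℕ) : ℝ) ≤ (N : ℝ) ^ η then lio m else 0)
        - lamC N e0 η m * psiC N e0 κ m
        - ∑ c ∈ T.filter (fun c => GoodC κ (e0 / Q) e c), t c *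
            conv (fun m => FF N (e0 / Q) c m) (lsm ((N : ℝ) ^ e0) ((N : ℝ) ^ η)) m|
      ≤ C * ((if NSq ((N : ℝ) ^ e0) m then 1 else 0)
        + ∑ x ∈ ({κ, 1} : Finset ℝ), if RWin N e0 x (2 * e) m then 1 else 0)) ∧
  (∀ c ∈ T, GoodC κ (e0 / Q) e c → t c ≠ 0 →
    ∃ c₁ c₂ : Multiset ℕ, c₁ + c₂ = c ∧ c₂ ≠ 0 ∧ MidK κ (e0 / Q) e c₁)

/-! ## Part I: Type I -/

/-- FLC (from FL, RHOM, RHOP, RHO2, RHOS). All prime factors of `Q` are `≤ w`. Sum over `s'` (squarefree, primes in `(w,z)`, `s' ≤ S`),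
`{p ∣ m, w<p<z} = primeFactors s'`: FL with `v` = the product of the `p ∣ m`, `w < p < z`, `p ∤ s'`, `g(p) = ρ(p)/p` for these `p`, `0` otherwise,
`X = (N/Q) ρ(s'k)/(s'k)`; the remainders are `≤ ρ(s'kδ) ≤ N^small` each (`n = ν + Q n₁`). Main term:
`∑_{s'≤S} (-1)^ω(s') ρ(s')/s' ∏_{p∤s'} (1-ρ(p)/p) = VC - tail`, `|tail| ≤ S^(-τ) ∏ (1 + (p^τ - 1)ρ(p)/p) ≤ C e^(-η/(2 e0))`, `τ = 1/log z`,
`p^τ - 1 ≤ 2 τ log p`, `∑_{p<z} log p/p ≤ log z + C`. -/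
def SpecFLC : Prop := ∃ C : ℝ, 0 < C ∧ ∀ (b w Q : ℕ) (e0 κ η : ℝ), 4 ≤ w → 1 ≤ Q → (∀ p : ℕ, p.Prime → p ∣ Q → p ≤ w) →
  0 < e0 → e0 * (8 * b + 16) ≤ 1 / 10 → 0 < η → η ≤ 1 / 20 → κ ≤ 2 / 3 → ∃ N₀ : ℕ, ∀ N : ℕ, N₀ ≤ N →
  ∀ (a : ℤ) (ν k : ℕ), ν < Q → Squarefree k → Rough ((N : ℝ) ^ e0) k → (k : ℝ) ≤ (N : ℝ) ^ κ →
  ∀ S : ℝ, (N : ℝ) ^ (η / 2) ≤ S → S ≤ (N : ℝ) ^ η →
    |∑ n ∈ (Ioc N (2 * N)).filter (fun n => n % Q = ν ∧ k ∣ val a n),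
        (if ((∏ p ∈ PW2 w ((N : ℝ) ^ e0) (val a n), p : ℕ) : ℝ) ≤ S
          then (-1 : ℝ) ^ (PW2 w ((N : ℝ) ^ e0) (val a n)).card else 0)|
      ≤ (N : ℝ) / Q * ((rho a k : ℝ) / k) *
          (VC w ((N : ℝ) ^ e0) a + C * Real.exp (-(b : ℝ)) + C * Real.exp (-(η / (2 * e0))))
        + (N : ℝ) ^ (1 / 4 : ℝ)

/-- TIC (from FLC, PRODK, WMER, MER, GMAX, RHOS): Type I. `C₁ = 3^(3/e0)` bounds `|psiC|` on `[1, 5N²]`. `w` with `10 C₁/w` small, `J` with `10 C₁ w/2^J` small,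
`Q = ∏_{p≤w} p^J`. Outside the `n` with `p² ∣ val`, `w < p < z`, or `p^J ∣ val`, `p ≤ w` (in mean over `a` at most `3A/p²`, `3A/p^J` for every `n`):
`smp z m = gcd(m,Q) ∏_{PW2} p`, `lamC m = λ(gcd(m,Q)) (-1)^|PW2| 1_{..}`, and `gcd(m,Q)` depends only on `n mod Q`. Then FLC for every `k` and `ν`:
the total is `≤ N (VC + C e^(-b) + C e^(-η/(2e0))) ∑_{k≤N^κ} 2^ω(k) ρ_a(k)/k + N^(12/13)`, `∑ ≤ ∏_{z≤p≤N} (1 + 4/p) ≤ (3/e0)^4` by MER; `b = ⌊1/(80 e0)⌋ - 2`.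
`VC ≤ (Wa z a/Wa (w+1) a)²` (`1 - 2x ≤ (1-x)²`), `Wa z a ≤ 2 w' Wp z` for almost all `a` by PRODK. -/
def SpecTIC : Prop := ∀ θ κ η ε : ℝ, 3 / 5 < θ → 3 / 5 < κ → κ < 2 / 3 → 0 < η → η ≤ 1 / 20 → 0 < ε →
  ∃ e1 : ℝ, 0 < e1 ∧ ∀ e0 : ℝ, 0 < e0 → e0 ≤ e1 → ∃ N₀ : ℕ, ∀ N A : ℕ, N₀ ≤ N → Adm θ N A →
    (((IA A).filter (fun a => ε * N <
      |cnt N a (fun m => lamC N e0 η m * psiC N e0 κ m)|)).card : ℝ) ≤ ε * A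

/-! ## Part W: windows and the smooth part -/

/-- WINC (from QG, RSUM): values with a rough divisor in a window. `∑_k #{(n,a) : k ∣ n²+a} ≤ ∑_k (3AN·2/k + error)`, QG with `q = k ≤ N^(1+e)`. -/
def SpecWINC : Prop := ∀ θ : ℝ, 1 / 2 < θ → ∃ C : ℝ, 0 < C ∧ ∀ e0 e : ℝ, 0 < e0 → e0 ≤ 1 / 10 →
  0 < e → e ≤ (θ - 1 / 2) / 4 → ∃ N₀ : ℕ, ∀ N A : ℕ, N₀ ≤ N → Adm θ N A → ∀ x : ℝ, 1 / 2 ≤ x → x ≤ 1 →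
    ∑ a ∈ IA A, cnt N a (fun m => if RWin N e0 x e m then 1 else 0) ≤ C * (e / e0) * A * N

/-- SMTC: the smooth part is small. `log (smp z m) = ∑_{p^j ∣ m, p < z} log p`; for every `n` the number of `|a| ≤ A` with `p^j ∣ n²+a` is `≤ 3A/p^j`
if `p^j ≤ A` and `≤ 3` otherwise; `∑_{p<z} log p/p ≤ log z + C`. -/
def SpecSMTC : Prop := ∃ C : ℝ, 0 < C ∧ ∀ θ e0 η : ℝ, 1 / 2 < θ → 0 < e0 → e0 ≤ 1 / 10 → 0 < η → ∃ N₀ : ℕ,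
  ∀ N A : ℕ, N₀ ≤ N → Adm θ N A →
    ∑ a ∈ IA A, cnt N a (fun m => if (N : ℝ) ^ η < ((smp ((N : ℝ) ^ e0) m : ℕ) : ℝ) then 1 else 0)
      ≤ C * (e0 / η) * A * N

/-! ## Part F: assembly -/

/-- CHWC (from TIC, T2C, TIIC, WINC, SMTC, NSFH). Order: `κ = 2/3 - δ'`, `3/2 < θ + κ`; `η ≤ 1/20`, `3κ + η < 2`; `e0 ≤ e1` (TIC) with `C e0/η` small;
the constant `C(e0)` of T2C; `e` with `C(e0) e/e0` small; `Q, T, t`; TIIC for the finitely many `c ∈ T` with `t c ≠ 0`; NSFH; Markov. -/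
def SpecCHWC : Prop := ∀ θ ε : ℝ, 5 / 6 < θ → 0 < ε → ∃ N₀ : ℕ, ∀ N A : ℕ, N₀ ≤ N → Adm θ N A →
  (((IA A).filter (fun a => ε * N < |cnt N a lio|)).card : ℝ) ≤ ε * A

/-- FINC (from CHWC): blocks `(M_i, 2M_i]`, `M_i = ⌊N/2^i⌋`, as in `H/FINL.lean`. -/
def SpecFINC : Prop := ∀ θ ε : ℝ, 5 / 6 < θ → 0 < ε → ∃ N₀ : ℕ, ∀ N A : ℕ, N₀ ≤ N → (N : ℝ) ^ θ ≤ A → A ≤ N →
  (((Icc (-(A : ℤ)) A).filter (fun a : ℤ => ε * N <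
    |∑ n ∈ Icc 1 N, (ArithmeticFunction.liouville ((n : ℤ) ^ 2 + a).natAbs : ℝ)|)).card : ℝ) ≤ ε * A

end

end Pool.Agent.Lib.MP391708.QPA.C
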