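import Pool.Agent.Lib.MP_391708_nt.QPA.C.T2C

/-!
# Project QPA, phase 4, stage 2: the joint law of the large prime factors of `n² + a`, and independence of the parity

`Cn N y m` = the number of prime factors `> N^y` of `m` (with multiplicity).  For `θ > 5/6`, `x_1, .., x_r > 0` and almost all `|a| ≤ A` the vector
`(Cn N x_j |n²+a|)_j`, `n ≤ N`, has the same distribution up to `o(1)` as `(Cn N x_j m)_j`, `m ≤ N²` (hence the law of the `i`-th largest prime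
factor for every `i`), and `∑_{n≤N} F(Cn ..) λ(|n²+a|) = o(N)` for every bounded `F`.
Notation as in `SpecC`: `z = N^e0`, `m = s t`, `s = smp z m` smooth, `t = rgp z m` rough; `e2 = e0/Q`; `typ N e2 t` = the multiset of the
indices `⌊log p/(e2 log N)⌋` of the prime factors `p` of `t` (`QPA/T2.lean`).  `t` has a divisor in `(N^κ, N]` (class II) or
`t = p t'` with `p > N^κ` the largest prime factor, `t' ≤ N^κ` (class I), up to negligible numbers.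
Files `QPA/C/XXX.lean`, `theorem specXXX (hYYY : SpecYYY) .. : SpecXXX` in the namespace `Pool.Agent.Lib.MP391708.QPA.C`, own lemmas in
`Pool.Agent.Lib.MP391708.QPA.C.XXXM`.
-/

set_option autoImplicit false

namespace Pool.Agent.Lib.MP391708.QPA.C

open Finset Filter Topology
open Pool.Agent.Lib.MP391708.QPA
open Pool.Agent.Lib.MP391708.QPA.H
open scoped Classical

noncomputable section

/-! ## Definitions -/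

/-- indicator of the `z`-smooth numbers `1 ≤ s ≤ S` -/
def ism (z S : ℝ) (s : ℕ) : ℝ := if 1 ≤ s ∧ (s : ℝ) ≤ S ∧ Smooth z s then 1 else 0

/-- `1_{s ≤ N^η}`, `s` the `N^e0`-smooth part of `m` -/
def ismC (N : ℕ) (e0 η : ℝ) (m : ℕ) : ℝ := if ((smp ((N : ℝ) ^ e0) m : ℕ) : ℝ) ≤ (N : ℝ) ^ η then 1 else 0

/-- `∑ c(k)` over the rough squarefree divisors `k ≤ N^κ` of `m` -/
def psiD (N : ℕ) (e0 κ : ℝ) (cf : ℕ → ℝ) (m : ℕ) : ℝ :=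
  ∑ k ∈ m.divisors.filter (fun k : ℕ => (k : ℝ) ≤ (N : ℝ) ^ κ ∧ Rough ((N : ℝ) ^ e0) k ∧ Squarefree k), cf k

/-- the largest prime factor -/
def lpf (m : ℕ) : ℕ := m.primeFactors.sup id

/-- `Φ(type of t)` in class II, `Φ'(type of t/p)`, `p` the largest prime factor, in class I (`t` the rough part of `m`, squarefree) -/
def tyF (N Q : ℕ) (e0 κ : ℝ) (Φ Φ' : Multiset ℕ → ℝ) (m : ℕ) : ℝ :=
  if ¬ Squarefree (T2CM.rgp ((N : ℝ) ^ e0) m) then 0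
  else if ∃ k : ℕ, k ∣ T2CM.rgp ((N : ℝ) ^ e0) m ∧ (N : ℝ) ^ κ < k ∧ k ≤ N then
    Φ (T2.typ N (e0 / Q) (T2CM.rgp ((N : ℝ) ^ e0) m))
  else Φ' (T2.typ N (e0 / Q) (T2CM.rgp ((N : ℝ) ^ e0) m / lpf (T2CM.rgp ((N : ℝ) ^ e0) m)))

/-- good types, with the additional critical exponent `x₀ = log A/log N` -/
def GoodD (κ x₀ e2 e : ℝ) (c : Multiset ℕ) : Prop :=
  ∀ s : Multiset ℕ, s ≤ c → s ≠ 0 → ∀ x ∈ ({κ, 1, x₀} : Finset ℝ),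
    (x + e < e2 * (s.sum : ℝ)) ∨ (e2 * ((s.sum : ℝ) + (Multiset.card s : ℝ)) < x - e)

/-- `m` has a prime factor in `[N^(x-w), N^(x+w)]` -/
def PWn (N : ℕ) (x w : ℝ) (m : ℕ) : Prop :=
  ∃ p : ℕ, p.Prime ∧ p ∣ m ∧ (N : ℝ) ^ (x - w) ≤ p ∧ (p : ℝ) ≤ (N : ℝ) ^ (x + w)

/-- the number of prime factors `> N^y` of `m`, with multiplicity -/
def Cn (N : ℕ) (y : ℝ) (m : ℕ) : ℕ := (m.primeFactorsList.filter (fun p : ℕ => decide ((N : ℝ) ^ y < (p : ℝ)))).length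

/-- a function of the numbers of prime factors `> N^(x_j)` -/
def cF (N r : ℕ) (x : Fin r → ℝ) (F : (Fin r → ℕ) → ℝ) (m : ℕ) : ℝ := F (fun j => Cn N (x j) m)

/-! ## Type II with main term -/

/-- EQD (from RSUM, FFB; as EQC, with `EQCM.gen`, `EQCM.conv_rearr`): `FF c * 1_smooth` is equidistributed in the residue classes. `u = t s`, `t` prime to `r`:
for fixed `t` the sum over smooth `s ≤ y` of `1_{ts ≡ c₀} - 1/r` is `∑_{k rough} μ(k) ∑_{s' ≤ y/k} (1_{kts' ≡ c₀} - 1/r)`, and the inner sums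
are `≤ 1` in absolute value. -/
def SpecEQD : Prop := ∀ (e0 η κ : ℝ) (Q : ℕ) (c : Multiset ℕ), 0 < e0 → e0 ≤ 1 / 10 → 0 < η → η ≤ 1 / 4 → 0 < κ →
  1 ≤ Q → c ≠ 0 → (∀ i ∈ c, Q ≤ i) → ∀ R : ℕ, ∃ N₀ : ℕ, ∀ N : ℕ, N₀ ≤ N → ∀ r c₀ X : ℕ, 1 ≤ r → r ≤ R → c₀ < r →
  N ≤ X → (X : ℝ) ≤ (N : ℝ) ^ 3 →
    |(∑ u ∈ (Icc 1 X).filter (fun u => u % r = c₀),
        conv (fun m => FF N (e0 / Q) c m) (ism ((N : ℝ) ^ e0) ((N : ℝ) ^ η)) u)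
      - (∑ u ∈ Icc 1 X, conv (fun m => FF N (e0 / Q) c m) (ism ((N : ℝ) ^ e0) ((N : ℝ) ^ η)) u) / r| ≤ κ * X

/-- BLKD (from TWOP, WBC, EQD, MTBH, RAV, RHOC, SHM, BT, FFB): one block with main term. `β = conv (FF c₂) ism` on `(L, (1+η₁)L]`, `b = β - ∑_i D_i 1_{pc i}`, `D_i` = Dav L η₁ J β i:
the class sums of `b` on an interval are `≤ κL` (`J` large; on the complete pieces EQD twice), so TWOP + WBC for the even and the odd part of `b`.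
Main term: `#{n : k ∣ val, val/k ∈ (x,x']} = (ρ_a(k)/k)(√(kx') - √(kx)) + O(ρ_a(k)(1 + A/N))` (RHOC), RAV for the sum over `a`, then
`∑_k FF c₁ k (ρ_a(k)-1)/√k` by MTBH, then SHM. As `BLK2.core` of `QPA/BLK2.lean` with `Gw`, `Vw`, `rInd (w+1)` replaced by `1`. -/
def SpecBLKD : Prop := ∀ (θ κ e e0 η₁ η ϖ : ℝ) (Q : ℕ) (c₁ c₂ : Multiset ℕ), 1 / 2 < θ → 3 / 5 < κ →
  3 / 2 < θ + κ → 0 < e → 0 < e0 → e0 ≤ 1 / 10 → 0 < η → η ≤ 1 / 4 → 0 < η₁ → η₁ ≤ 1 / 4 → 0 < ϖ → 1 ≤ Q →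
  (∀ i ∈ c₁, Q ≤ i) → (∀ i ∈ c₂, Q ≤ i) → c₂ ≠ 0 → ∃ N₀ : ℕ, ∀ N A : ℕ, N₀ ≤ N → Adm θ N A →
  NearA N A (e0 / Q) e c₁ → ∀ K L : ℝ,
  (N : ℝ) ^ κ ≤ K → K ≤ (N : ℝ) ^ (1 - e) → (N : ℝ) ^ 2 / 2 ≤ K * L → K * L ≤ 5 * (N : ℝ) ^ 2 →
  ∑ a ∈ IA A, |bil (8 * N) a (cut K ((1 + η₁) * K) (fun m => FF N (e0 / Q) c₁ m))
        (cut L ((1 + η₁) * L)
          (conv (fun m => FF N (e0 / Q) c₂ m) (ism ((N : ℝ) ^ e0) ((N : ℝ) ^ η))))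
      - ∑ k ∈ Ioc ⌊K⌋₊ ⌊(1 + η₁) * K⌋₊, ∑ l ∈ Ioc ⌊L⌋₊ ⌊(1 + η₁) * L⌋₊,
          FF N (e0 / Q) c₁ k * conv (fun m => FF N (e0 / Q) c₂ m) (ism ((N : ℝ) ^ e0) ((N : ℝ) ^ η)) l
            / (2 * √((k : ℝ) * l))|
    ≤ ϖ * A * N / Real.log N

/-- TIID (from BLKD, FFB): as TIIC / `TII.core`, with main term. -/
def SpecTIID : Prop := ∀ (θ κ e e0 η ϖ : ℝ) (Q : ℕ) (c₁ c₂ : Multiset ℕ), 1 / 2 < θ → 3 / 5 < κ →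
  3 / 2 < θ + κ → 0 < e → 0 < e0 → e0 ≤ 1 / 10 → 0 < η → η ≤ 1 / 4 → 0 < ϖ → 1 ≤ Q →
  (∀ i ∈ c₁, Q ≤ i) → (∀ i ∈ c₂, Q ≤ i) → c₂ ≠ 0 → MidK κ (e0 / Q) e c₁ → ∃ N₀ : ℕ, ∀ N A : ℕ, N₀ ≤ N →
  Adm θ N A → NearA N A (e0 / Q) e c₁ →
  ∑ a ∈ IA A, |cnt N a (conv (fun m => FF N (e0 / Q) (c₁ + c₂) m) (ism ((N : ℝ) ^ e0) ((N : ℝ) ^ η)))
      - model N (conv (fun m => FF N (e0 / Q) (c₁ + c₂) m) (ism ((N : ℝ) ^ e0) ((N : ℝ) ^ η)))|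
    ≤ ϖ * A * N

/-! ## Type I -/

/-- TICG: TIC for general coefficients, uniformly in them. -/
def SpecTICG : Prop := ∀ θ κ η ε : ℝ, 3 / 5 < θ → 3 / 5 < κ → κ < 2 / 3 → 0 < η → η ≤ 1 / 20 → 0 < ε →
  ∃ e1 : ℝ, 0 < e1 ∧ ∀ e0 : ℝ, 0 < e0 → e0 ≤ e1 → ∃ N₀ : ℕ, ∀ N A : ℕ, N₀ ≤ N → Adm θ N A →
    ∀ cf : ℕ → ℝ, (∀ k, |cf k| ≤ 2 ^ k.primeFactors.card) →
    (((IA A).filter (fun a => ε * N <
      |cnt N a (fun m => lamC N e0 η m * psiD N e0 κ cf m)|)).card : ℝ) ≤ ε * A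

/-- MOBD (from SML, RHOD, RSUM): `∑_k cf(k)(ρ_a(k)-1)/k = ∑_{e>1} γ_e (-a|e)/e`, `|γ_e| ≤ C log N`, `e ≥ z` rough odd squarefree, `e ≤ N^κ < A N^(-1/6)`: SML
on the dyadic blocks. As MOBK without LRG. -/
def SpecMOBD : Prop := ∀ θ κ e0 δ : ℝ, 5 / 6 < θ → 0 < κ → κ < 2 / 3 → 0 < e0 → e0 ≤ 1 / 10 → 0 < δ →
  ∃ N₀ : ℕ, ∀ N A : ℕ, N₀ ≤ N → Adm θ N A → ∀ cf : ℕ → ℝ, (∀ k, |cf k| ≤ 2 ^ k.primeFactors.card) →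
    (((IA A).filter (fun a => ¬ |∑ k ∈ (Icc 1 ⌊(N : ℝ) ^ κ⌋₊).filter
        (fun k => Rough ((N : ℝ) ^ e0) k ∧ Squarefree k), cf k * ((rho a k : ℝ) - 1) / k| ≤ δ)).card : ℝ) ≤ δ * A

/-- SMK (from FL): integers with large smooth part in any interval. `#{s(m) ≤ N^η} = ∑_{s≤N^η smooth} #{m : s ∣ m, m/s rough} ≥
∑_s (H/s) W(z)(1 - C e^(-b)) - N^(1/9)`, `W(z) ∑_{s>S} 1/s ≤ S^(-τ) ∏ (1-1/p)/(1-p^(τ-1)) ≤ C e^(-η/(2e0))`, `τ = 1/(2 log z)`. -/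
def SpecSMK : Prop := ∃ C : ℝ, 0 < C ∧ ∀ (b : ℕ) (e0 η : ℝ), 0 < e0 → e0 * (8 * b + 16) ≤ 1 / 20 → 0 < η → η ≤ 1 / 20 →
  ∃ N₀ : ℕ, ∀ N : ℕ, N₀ ≤ N → ∀ x H : ℕ, (N : ℝ) ^ (1 / 8 : ℝ) ≤ H → ((x + H : ℕ) : ℝ) ≤ (N : ℝ) ^ 3 →
    (((Ioc x (x + H)).filter (fun m => (N : ℝ) ^ η < ((smp ((N : ℝ) ^ e0) m : ℕ) : ℝ))).card : ℝ)
      ≤ C * (Real.exp (-(b : ℝ)) + Real.exp (-(η / (2 * e0)))) * H

/-- TID (from SMK, MOBD, RHOC, RHOS, MER): Type I without parity. `cnt (ismC · psiD) = cnt psiD - (s > N^η part)`. `cnt psiD = ∑_k cf(k)(N ρ_a(k)/k + O(ρ_a(k)))`,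
`model psiD = ∑_k cf(k)(N/k + O(1))`, the difference by MOBD. The part `s > N^η`: in mean over `a`, for fixed `n` and `k ≤ N^κ`: the numbers
`(n²+a)/k`, `|a| ≤ A`, form an interval of length about `2A/k ≥ N^(1/7)`, `smp z (k m') = smp z m'` (`k` rough): SMK; the sum over `k` of `2^ω(k)/k` is `≤ (3/e0)²` by MER;
`b = ⌊1/(160 e0)⌋ - 2`. The same for the model. -/
def SpecTID : Prop := ∀ θ κ η ε : ℝ, 5 / 6 < θ → 3 / 5 < κ → κ < 2 / 3 → 0 < η → η ≤ 1 / 20 → 0 < ε →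
  ∃ e1 : ℝ, 0 < e1 ∧ ∀ e0 : ℝ, 0 < e0 → e0 ≤ e1 → ∃ N₀ : ℕ, ∀ N A : ℕ, N₀ ≤ N → Adm θ N A →
    ∀ cf : ℕ → ℝ, (∀ k, |cf k| ≤ 2 ^ k.primeFactors.card) →
    (((IA A).filter (fun a => ε * N <
      |cnt N a (fun m => ismC N e0 η m * psiD N e0 κ cf m)
        - model N (fun m => ismC N e0 η m * psiD N e0 κ cf m)|)).card : ℝ) ≤ ε * A

/-! ## Combinatorics -/

/-- T2D (as T2C). `cf N k = ∑_{j ∣ k} μ(k/j) Φ'(typ N e2 j)` for squarefree `k`; in class I (`t = p t'`, `t' ≤ N^κ < p`) one has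
`psiD = ∑_{k∣t'} cf k = Φ'(typ t')`; in class II `t_c = (Φ(c) - ψ_c)/vf c`, `ψ_c` = the sum of the coefficients over the small subtypes.
(For good types: a divisor in `(N^κ, N]` exists if and only if there is a `MidK` subtype.) -/
def SpecT2D : Prop := ∀ κ e0 η : ℝ, 3 / 5 < κ → κ < 2 / 3 → 0 < e0 → e0 ≤ 1 / 10 → 0 < η → η ≤ 1 / 10 → 3 * κ + η < 2 →
  ∃ C : ℝ, 0 < C ∧ ∀ e : ℝ, 0 < e → e ≤ 1 / 40 → ∀ Q : ℕ, 1 ≤ Q → 3 ≤ Q * e →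
  ∀ Φ Φ' : Multiset ℕ → ℝ, (∀ c, |Φ c| ≤ 1) → (∀ c, |Φ' c| ≤ 1) →
  ∃ (T : Finset (Multiset ℕ)) (t : Multiset ℕ → ℝ) (cf : ℕ → ℕ → ℝ), (∀ c ∈ T, ∀ i ∈ c, Q ≤ i) ∧
  (∀ c ∈ T, |t c| ≤ C) ∧ (∀ N k, |cf N k| ≤ 2 ^ k.primeFactors.card) ∧ ∃ N₀ : ℕ, ∀ N : ℕ, N₀ ≤ N →
  ∀ x₀ : ℝ, 1 / 2 ≤ x₀ → x₀ ≤ 5 / 4 →
  (∀ m : ℕ, (N : ℝ) ^ 2 / 2 ≤ m → (m : ℝ) ≤ 5 * (N : ℝ) ^ 2 →
    ((smp ((N : ℝ) ^ e0) m : ℕ) : ℝ) ≤ (N : ℝ) ^ η →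
    |tyF N Q e0 κ Φ Φ' m - psiD N e0 κ (cf N) m
        - ∑ c ∈ T.filter (fun c => GoodD κ x₀ (e0 / Q) e c), t c *
            FF N (e0 / Q) c (T2CM.rgp ((N : ℝ) ^ e0) m)|
      ≤ C * ((if NSq ((N : ℝ) ^ e0) m then 1 else 0)
        + ∑ x ∈ ({κ, 1, x₀} : Finset ℝ), if RWin N e0 x (2 * e) m then 1 else 0)) ∧
  (∀ c ∈ T, GoodD κ x₀ (e0 / Q) e c → t c ≠ 0 →
    ∃ c₁ c₂ : Multiset ℕ, c₁ + c₂ = c ∧ c₂ ≠ 0 ∧ MidK κ (e0 / Q) e c₁)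

/-- BOXC: `cF` is a type function up to edges. `Φ(c) = F(j ↦ #{i ∈ c : x_j ≤ e2 i})`, `Φ'(c') = F(j ↦ #{i ∈ c' : x_j ≤ e2 i} + [e2 c'.sum < 2 - x_j])`. Class I: no divisor
of `t` in `(N^κ, N]`, no `RWin` at `κ` and `1`: then `t = p t'`, `p = lpf t`, `t' ≤ N^κ` (`T2CM.struct`), `log p/log N ∈ [2 - e2 Σ - 2η, 2 - e2 Σ + small]`, as
`t' ∈ [N^(e2 Σ), N^(e2 (Σ + card))]`, `e2 card ≤ e`. A prime `q` of index `i` with `e2 i < x_j < e2 (i+1)` is in the window of `x_j` (`e2 ≤ 2η`). The primes of the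
smooth part are `< N^e0 < N^(x_j)`. -/
def SpecBOXC : Prop := ∀ (r : ℕ) (x : Fin r → ℝ) (F : (Fin r → ℕ) → ℝ) (u κ e0 η e : ℝ) (Q : ℕ), (∀ j, u ≤ x j) → 0 < u →
  (∀ v, |F v| ≤ 1) →
  3 / 5 < κ → κ < 2 / 3 → 0 < e0 → e0 < u → e0 ≤ 1 / 10 → e0 ≤ η → 0 < η → η ≤ 1 / 20 → 3 * κ + η < 2 → 0 < e → e ≤ 1 / 40 →
  e ≤ η / 4 → 1 ≤ Q → 3 ≤ Q * e → ∃ Φ Φ' : Multiset ℕ → ℝ, (∀ c, |Φ c| ≤ 1) ∧ (∀ c, |Φ' c| ≤ 1) ∧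
  ∃ N₀ : ℕ, ∀ N : ℕ, N₀ ≤ N → ∀ m : ℕ, (N : ℝ) ^ 2 / 2 ≤ m → (m : ℝ) ≤ 5 * (N : ℝ) ^ 2 →
    ((smp ((N : ℝ) ^ e0) m : ℕ) : ℝ) ≤ (N : ℝ) ^ η → ¬ NSq ((N : ℝ) ^ e0) m →
    ¬ RWin N e0 κ (2 * e) m → ¬ RWin N e0 1 (2 * e) m →
    |cF N r x F m - tyF N Q e0 κ Φ Φ' m| ≤ 2 * ∑ j, (if PWn N (x j) (2 * η) m then 1 else 0)

/-! ## Edges -/

/-- PWIN (from QG, MER, BT): values with a PRIME factor in a window. `x + w ≤ 6/5`: QG and `∑ 1/p ≤ log((x+w)/(x-w)) + small` (MER);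
`x + w > 6/5`: `p = val/k`, `k ≤ 5 N^(4/5 + 2w) `, for fixed `n, k` the numbers `(n²+a)/k`, `|a| ≤ A`, form an interval of length `≥ N^(1/100)` (`θ > 5/6`): BT, and
`∑ 1/k` over `k ∈ [N^(2-x-w)/2, 5N^(2-x+w)]` is `≤ 3w log N`. -/
def SpecPWIN : Prop := ∀ θ u : ℝ, 5 / 6 < θ → 0 < u → ∃ C : ℝ, 0 < C ∧ ∀ w : ℝ, 0 < w → w ≤ u / 4 → w ≤ 1 / 1000 →
  ∃ N₀ : ℕ, ∀ N A : ℕ, N₀ ≤ N → Adm θ N A → ∀ x : ℝ, u ≤ x →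
    ∑ a ∈ IA A, cnt N a (fun m => if PWn N x w m then 1 else 0) ≤ C * w * A * N

/-- PWINM: the same for the model (`#{m ≤ 4N² : p ∣ m} ≤ 4N²/p`, MER). -/
def SpecPWINM : Prop := ∀ u : ℝ, 0 < u → ∃ C : ℝ, 0 < C ∧ ∀ w : ℝ, 0 < w → w ≤ u / 4 → w ≤ 1 / 1000 →
  ∃ N₀ : ℕ, ∀ N : ℕ, N₀ ≤ N → ∀ x : ℝ, u ≤ x →
    model N (fun m => if PWn N x w m then 1 else 0) ≤ C * w * N

/-- WINM2: the model versions of WINC, SMTC, NSF. -/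
def SpecWINM2 : Prop := ∃ C : ℝ, 0 < C ∧ ∀ e0 : ℝ, 0 < e0 → e0 ≤ 1 / 10 →
  (∀ e : ℝ, 0 < e → e ≤ 1 / 20 → ∃ N₀ : ℕ, ∀ N : ℕ, N₀ ≤ N → ∀ x : ℝ, 1 / 2 ≤ x → x ≤ 5 / 4 →
    model N (fun m => if RWin N e0 x e m then 1 else 0) ≤ C * (e / e0) * N) ∧
  (∀ η : ℝ, 0 < η → ∃ N₀ : ℕ, ∀ N : ℕ, N₀ ≤ N →
    model N (fun m => if (N : ℝ) ^ η < ((smp ((N : ℝ) ^ e0) m : ℕ) : ℝ) then 1 else 0) ≤ C * (e0 / η) * N) ∧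
  (∀ δ : ℝ, 0 < δ → ∃ N₀ : ℕ, ∀ N : ℕ, N₀ ≤ N →
    model N (fun m => if NSq ((N : ℝ) ^ e0) m then 1 else 0) ≤ δ * N)

/-- WIND: WINC for `x ≤ 5/4` (the exponent `x₀ = log A/log N` is `≤ 1 + small`, so `x ≤ 1 + small` is enough: `x ≤ 1 + (θ - 1/2)/8`, same proof). -/
def SpecWIND : Prop := ∀ θ : ℝ, 1 / 2 < θ → ∃ C : ℝ, 0 < C ∧ ∀ e0 e : ℝ, 0 < e0 → e0 ≤ 1 / 10 →
  0 < e → e ≤ (θ - 1 / 2) / 8 → ∃ N₀ : ℕ, ∀ N A : ℕ, N₀ ≤ N → Adm θ N A → ∀ x : ℝ, 1 / 2 ≤ x →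
    x ≤ 1 + (θ - 1 / 2) / 8 →
    ∑ a ∈ IA A, cnt N a (fun m => if RWin N e0 x e m then 1 else 0) ≤ C * (e / e0) * A * N

/-! ## Assembly -/

/-- CHWD (from TICG, TID, T2D, BOXC, TIIC, TIID, WIND, SMTC, NSFH, PWIN, PWINM, WINM2): one block. Order: `u = min x_j`, `κ`, `η` small against `ε` (edges
`C η r`), `e0 ≤ e1` with `e0 < u`, `C e0/η` small, `C(e0)` of T2D, `e` with `C(e0) e/e0` small, `Q = ⌈3/e⌉`, `Φ, Φ'` (BOXC), `T, t, cf` (T2D), TIIC and TIID for `c ∈ T`,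
`x₀ = logb N A`, `GoodD` gives `NearA`. Multiply T2D by `ismC` resp. `lamC` (`T2CM.conv_eq`). -/
def SpecCHWD : Prop := ∀ (θ ε : ℝ) (r : ℕ) (x : Fin r → ℝ) (F : (Fin r → ℕ) → ℝ), 5 / 6 < θ → 0 < ε → (∀ j, 0 < x j) → (∀ v, |F v| ≤ 1) →
  ∃ N₀ : ℕ, ∀ N A : ℕ, N₀ ≤ N → Adm θ N A →
  (((IA A).filter (fun a => ε * N < |cnt N a (cF N r x F) - model N (cF N r x F)|)).card : ℝ) ≤ ε * A ∧
  (((IA A).filter (fun a => ε * N < |cnt N a (fun m => lio m * cF N r x F m)|)).card : ℝ) ≤ ε * A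

/-- SLOW (from RSUM): the harmonic and the natural mean of `cF` agree. We may take `F ≥ 0`. `H(y) = ∑_{m≤y} cF m`, `u = min x_j`. `m = t v`, `t` `N^u`-rough, `v` `N^u`-smooth, `cF m = cF t`.
For fixed `q` and `y ≤ N²`: `|q H(y/q) - H(y)| ≤ ε y + small`: for smooth `v ≤ y'`: `q Ψ(y'/q) - Ψ(y') = ∑_{j rough} μ(j)(q⌊y'/(qj)⌋ - ⌊y'/j⌋)`, inner differences `≤ q`: `EQCM.gen`
twice, as in EQC. Hence `H(λy) = λH(y) + o(N²)` for real `λ ∈ [δ,1]`, `y ∈ [δN², N²]` (`H` is monotone), then partial summation. -/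
def SpecSLOW : Prop := ∀ (ε : ℝ) (r : ℕ) (x : Fin r → ℝ) (F : (Fin r → ℕ) → ℝ), 0 < ε → (∀ j, 0 < x j) → (∀ v, |F v| ≤ 1) →
  ∃ N₀ : ℕ, ∀ N : ℕ, N₀ ≤ N →
    |(∑ m ∈ Icc 1 (N ^ 2), cF N r x F m / (2 * √(m : ℝ))) - (∑ m ∈ Icc 1 (N ^ 2), cF N r x F m) / N| ≤ ε * N

/-- FIND (from CHWD, PWIN, PWINM, SLOW): `n ≤ N`. Blocks `(M_i, 2M_i]`, `M_i = ⌊N/2^i⌋`, `i ≤ I`; on a block replace the thresholds `N^(x_j)` by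
`M^(x_j)`: the counts differ only if there is a prime factor in `[M^(x_j - w), M^(x_j + w)]`. -/
def SpecFIND : Prop := ∀ (θ ε : ℝ) (r : ℕ) (x : Fin r → ℝ) (F : (Fin r → ℕ) → ℝ), 5 / 6 < θ → 0 < ε → (∀ j, 0 < x j) → (∀ v, |F v| ≤ 1) →
  ∃ N₀ : ℕ, ∀ N A : ℕ, N₀ ≤ N → (N : ℝ) ^ θ ≤ A → A ≤ N →
  (((IA A).filter (fun a => ε * N < |∑ n ∈ Icc 1 N, cF N r x F (val a n)
      - (∑ m ∈ Icc 1 (N ^ 2), cF N r x F m) / N|)).card : ℝ) ≤ ε * A ∧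
  (((IA A).filter (fun a => ε * N < |∑ n ∈ Icc 1 N, lio (val a n) * cF N r x F (val a n)|)).card : ℝ) ≤ ε * A

end

end Pool.Agent.Lib.MP391708.QPA.C
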