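import Pool.Agent.Lib.MP_391708_nt.QPA.C.FLC

/-!
# Module TIC, lemmas: pointwise statements
-/

set_option autoImplicit false

namespace Pool.Agent.Lib.MP391708.QPA.C.TICM

open Finset Filter Topology
open Pool.Agent.Lib.MP391708.QPA
open Pool.Agent.Lib.MP391708.QPA.H
open scoped Classical
open FLCM

noncomputable section

/-- `∏_{p ≤ w} p^J` -/
def QJ (w J : ℕ) : ℕ := ∏ p ∈ PB ((w : ℝ) + 1), p ^ J

lemma QJ_pos (w J : ℕ) : 1 ≤ QJ w J := by
  unfold QJ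
  apply Nat.one_le_iff_ne_zero.2
  exact prod_ne_zero_iff.2 fun p hp => pow_ne_zero _ (Mta.mem_S.1 hp).1.ne_zero

lemma prime_dvd_QJ (w J p : ℕ) (hp : p.Prime) (h : p ∣ QJ w J) : p ≤ w := by
  unfold QJ at h
  obtain ⟨q, hq, hpq⟩ := (hp.prime.dvd_finsetProd_iff _).1 h
  have hq' := Mta.mem_S.1 hq
  have := (Nat.prime_dvd_prime_iff_eq hp hq'.1).1 (hp.dvd_of_dvd_pow hpq)
  rw [this]
  exact hq'.2

/-- no high power of a small prime, no square of a prime in `(w, z)` divides `m` -/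
def Gd (w J : ℕ) (z : ℝ) (m : ℕ) : Prop :=
  (∀ p : ℕ, p.Prime → p ≤ w → ¬ p ^ J ∣ m) ∧
    (∀ p : ℕ, p.Prime → w < p → (p : ℝ) < z → ¬ p ^ 2 ∣ m)

/-- the smooth part of a good number -/
lemma smp_eq (w J : ℕ) (z : ℝ) (m : ℕ) (hm : m ≠ 0) (hwz : (w : ℝ) < z) (hG : Gd w J z m) :
    smp z m = Nat.gcd m (QJ w J) * ∏ p ∈ PW2 w z m, p := by
  have hQ0 : QJ w J ≠ 0 := Nat.one_le_iff_ne_zero.1 (QJ_pos w J)
  have hg0 : Nat.gcd m (QJ w J) ≠ 0 := Nat.gcd_ne_zero_left hm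
  have hJ : ∀ p : ℕ, p.Prime → p ≤ w → m.factorization p < J := by
    intro p hp hpw
    by_contra hcon
    push Not at hcon
    exact hG.1 p hp hpw ((hp.pow_dvd_iff_le_factorization hm).2 hcon)
  -- the part with the small primes
  have h1 : ∏ p ∈ m.primeFactors.filter (fun p => p ≤ w), p ^ m.factorization p
      = Nat.gcd m (QJ w J) := by
    have h2 := Nat.prod_factorization_pow_eq_self hg0
    rw [Finsupp.prod, Nat.support_factorization] at h2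
    rw [← h2]
    symm
    apply prod_congr
    · ext p
      rw [mem_filter, Nat.mem_primeFactors, Nat.mem_primeFactors]
      constructor
      · rintro ⟨hp, hd, _⟩
        exact ⟨⟨hp, hd.trans (Nat.gcd_dvd_left _ _), hm⟩,
          prime_dvd_QJ w J p hp (hd.trans (Nat.gcd_dvd_right _ _))⟩
      · rintro ⟨⟨hp, hd, _⟩, hpw⟩
        refine ⟨hp, Nat.dvd_gcd hd ?_, hg0⟩
        have hJ1 := hJ p hp hpw
        have h3 : p ^ J ∣ QJ w J := dvd_prod_of_mem _ (Mta.mem_S.2 ⟨hp, hpw⟩)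
        exact (dvd_pow_self p (by omega)).trans h3
    · intro p hp
      rw [mem_filter, Nat.mem_primeFactors] at hp
      obtain ⟨⟨hpp, hd, _⟩, hpw⟩ := hp
      congr 1
      rw [Nat.factorization_gcd hm hQ0, Finsupp.inf_apply, min_eq_left]
      refine (hJ p hpp hpw).le.trans ?_
      rw [← hpp.pow_dvd_iff_le_factorization hQ0]
      exact dvd_prod_of_mem _ (Mta.mem_S.2 ⟨hpp, hpw⟩)
  have h2 : ∏ p ∈ PW2 w z m, p ^ m.factorization p = ∏ p ∈ PW2 w z m, p := by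
    refine prod_congr rfl fun p hp => ?_
    unfold PW2 at hp
    rw [mem_filter, Nat.mem_primeFactors] at hp
    obtain ⟨⟨hpp, hd, _⟩, hpw, hpz⟩ := hp
    have h3 : 1 ≤ m.factorization p := hpp.factorization_pos_of_dvd hm hd
    have h4 : ¬ 2 ≤ m.factorization p := fun h =>
      hG.2 p hpp hpw hpz ((hpp.pow_dvd_iff_le_factorization hm).2 h)
    have h5 : m.factorization p = 1 := by omega
    rw [h5, pow_one]
  have h3 : smp z m = ∏ p ∈ m.primeFactors.filter (fun p : ℕ => (p : ℝ) < z), p ^ m.factorization p := rfl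
  rw [h3, ← prod_filter_mul_prod_filter_not _ (fun p : ℕ => p ≤ w), filter_filter, filter_filter,
    ← h1, ← h2]
  congr 1
  · apply prod_congr _ fun _ _ => rfl
    apply filter_congr
    intro p _
    constructor
    · exact fun h => h.2
    · intro h
      refine ⟨?_, h⟩
      have : (p : ℝ) ≤ w := by exact_mod_cast h
      linarith
  · apply prod_congr _ fun _ _ => rfl
    unfold PW2
    apply filter_congr
    intro p _
    rw [not_le]
    tauto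

lemma lio_mul (m n : ℕ) : lio (m * n) = lio m * lio n := by
  unfold lio
  rw [ArithmeticFunction.liouville_apply_mul]
  push_cast
  rfl

lemma lio_prime (p : ℕ) (hp : p.Prime) : lio p = -1 := by
  unfold lio
  rw [ArithmeticFunction.liouville_apply hp.ne_zero,
    ArithmeticFunction.cardFactors_apply_prime hp]
  norm_num

lemma lio_one : lio 1 = 1 := by
  unfold lio
  rw [ArithmeticFunction.liouville_apply_one]
  norm_num

lemma abs_lio (n : ℕ) : |lio n| ≤ 1 := by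
  unfold lio
  rcases Nat.eq_zero_or_pos n with h | h
  · subst h
    simp
  · rw [ArithmeticFunction.liouville_apply h.ne']
    push_cast
    rw [abs_pow, abs_neg, abs_one, one_pow]

lemma lio_prod (T : Finset ℕ) (hT : ∀ p ∈ T, p.Prime) : lio (∏ p ∈ T, p) = (-1 : ℝ) ^ T.card := by
  induction T using Finset.induction_on with
  | empty => simp [lio_one]
  | insert p t hp ih =>
    rw [prod_insert hp, lio_mul, card_insert_of_notMem hp, ih fun q hq => hT q (mem_insert_of_mem hq),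
      lio_prime p (hT p (mem_insert_self _ _))]
    ring

/-- the comparison function -/
def FC (N : ℕ) (e0 η : ℝ) (w J : ℕ) (m : ℕ) : ℝ :=
  lio (Nat.gcd m (QJ w J)) * sg ((N : ℝ) ^ η / (Nat.gcd m (QJ w J) : ℝ)) (PW2 w ((N : ℝ) ^ e0) m)

lemma abs_FC (N : ℕ) (e0 η : ℝ) (w J m : ℕ) : |FC N e0 η w J m| ≤ 1 := by
  unfold FC
  rw [abs_mul]
  exact mul_le_one₀ (abs_lio _) (abs_nonneg _) (abs_sg _ _)

lemma abs_lamC (N : ℕ) (e0 η : ℝ) (m : ℕ) : |lamC N e0 η m| ≤ 1 := by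
  unfold lamC
  split_ifs
  · exact abs_lio _
  · simp

/-- `lamC` at good numbers -/
lemma lamC_eq (N : ℕ) (e0 η : ℝ) (w J m : ℕ) (hm : m ≠ 0) (hwz : (w : ℝ) < (N : ℝ) ^ e0)
    (hG : Gd w J ((N : ℝ) ^ e0) m) : lamC N e0 η m = FC N e0 η w J m := by
  have hp : ∀ p ∈ PW2 w ((N : ℝ) ^ e0) m, p.Prime := fun p hp => by
    unfold PW2 at hp
    exact Nat.prime_of_mem_primeFactors (mem_filter.1 hp).1
  have hg0 : (0 : ℝ) < (Nat.gcd m (QJ w J) : ℝ) := by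
    exact_mod_cast Nat.gcd_pos_of_pos_left _ (Nat.pos_of_ne_zero hm)
  unfold lamC FC sg
  rw [smp_eq w J _ m hm hwz hG, lio_mul, lio_prod _ hp]
  have h1 : (((Nat.gcd m (QJ w J) * ∏ p ∈ PW2 w ((N : ℝ) ^ e0) m, p : ℕ) : ℝ) ≤ (N : ℝ) ^ η) ↔
      (((∏ p ∈ PW2 w ((N : ℝ) ^ e0) m, p : ℕ) : ℝ) ≤ (N : ℝ) ^ η / (Nat.gcd m (QJ w J) : ℝ)) := by
    rw [le_div_iff₀ hg0]
    push_cast
    rw [mul_comm]
  simp only [h1]
  split_ifs
  · rfl
  · rw [mul_zero]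

/-- `gcd(n²+a, Q)` depends on `n` modulo `Q` -/
lemma gcd_mod (a : ℤ) (Q n ν : ℕ) (h : n % Q = ν) : Nat.gcd (val a n) Q = Nat.gcd (val a ν) Q := by
  have hm : n ≡ ν [MOD Q] := by
    rw [← h]
    exact (Nat.mod_modEq n Q).symm
  have key : ∀ x y : ℕ, x ≡ y [MOD Q] → Nat.gcd (val a x) Q ∣ Nat.gcd (val a y) Q := by
    intro x y hxy
    refine Nat.dvd_gcd ?_ (Nat.gcd_dvd_right _ _)
    have h1 : x ≡ y [MOD Nat.gcd (val a x) Q] := hxy.of_dvd (Nat.gcd_dvd_right _ _)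
    exact (dvd_val_iff a _ y).2 ((dvd_congr a _ x y h1).1 ((dvd_val_iff a _ x).1 (Nat.gcd_dvd_left _ _)))
  exact Nat.dvd_antisymm (key n ν hm) (key ν n hm.symm)

/-- sums over squarefree numbers -/
lemma sum_sqf (K P : Finset ℕ) (g : ℕ → ℝ) (hg : ∀ p ∈ P, 0 ≤ g p)
    (hK : ∀ k ∈ K, Squarefree k ∧ k.primeFactors ⊆ P) :
    ∑ k ∈ K, ∏ p ∈ k.primeFactors, g p ≤ ∏ p ∈ P, (1 + g p) := by
  have hinj : Set.InjOn Nat.primeFactors (K : Set ℕ) := by
    intro k hk l hl h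
    rw [← Nat.prod_primeFactors_of_squarefree (hK k hk).1,
      ← Nat.prod_primeFactors_of_squarefree (hK l hl).1, h]
  have h1 : ∑ k ∈ K, ∏ p ∈ k.primeFactors, g p = ∑ T ∈ K.image Nat.primeFactors, ∏ p ∈ T, g p := by
    rw [sum_image hinj]
  rw [h1, prod_one_add]
  apply sum_le_sum_of_subset_of_nonneg
  · intro T hT
    obtain ⟨k, hk, rfl⟩ := mem_image.1 hT
    exact mem_powerset.2 (hK k hk).2
  · intro T hT _
    exact prod_nonneg fun p hp => hg p (mem_powerset.1 hT hp)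

/-- the divisors in `psiC` -/
def KC (N : ℕ) (e0 κ : ℝ) : Finset ℕ :=
  (Icc 1 ⌊(N : ℝ) ^ κ⌋₊).filter (fun k => Rough ((N : ℝ) ^ e0) k ∧ Squarefree k)

lemma mem_KC {N : ℕ} {e0 κ : ℝ} {k : ℕ} : k ∈ KC N e0 κ ↔ 1 ≤ k ∧ (k : ℝ) ≤ (N : ℝ) ^ κ ∧
    Rough ((N : ℝ) ^ e0) k ∧ Squarefree k := by
  unfold KC
  rw [mem_filter, mem_Icc, Nat.le_floor_iff (by positivity)]
  tauto

lemma psiC_eq (N : ℕ) (e0 κ : ℝ) (m : ℕ) (hm : m ≠ 0) :
    psiC N e0 κ m = -∑ k ∈ KC N e0 κ, (if k ∣ m then (-2 : ℝ) ^ k.primeFactors.card else 0) := by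
  unfold psiC
  rw [← sum_filter]
  congr 1
  apply sum_congr _ fun _ _ => rfl
  ext k
  rw [mem_filter, mem_filter, mem_KC, Nat.mem_divisors]
  constructor
  · rintro ⟨⟨h1, _⟩, h2, h3, h4⟩
    exact ⟨⟨Nat.pos_of_ne_zero h4.ne_zero, h2, h3, h4⟩, h1⟩
  · rintro ⟨⟨_, h2, h3, h4⟩, h1⟩
    exact ⟨⟨h1, hm⟩, h2, h3, h4⟩

/-- the number of rough prime factors -/
lemma card_rough (N : ℕ) (e0 : ℝ) (m : ℕ) (hN : 2 ≤ N) (he0 : 0 < e0) (hm : m ≠ 0)
    (hmN : (m : ℝ) ≤ (N : ℝ) ^ (3 : ℝ)) :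
    ((m.primeFactors.filter (fun p : ℕ => (N : ℝ) ^ e0 ≤ p)).card : ℝ) ≤ 3 / e0 := by
  set P := m.primeFactors.filter (fun p : ℕ => (N : ℝ) ^ e0 ≤ p) with hP
  have hPp : ∀ p ∈ P, p.Prime := fun p hp => Nat.prime_of_mem_primeFactors (mem_filter.1 hp).1
  have h1 := FLA.card_primeFactors_le (N := N) (k := ∏ p ∈ P, p) (e0 := e0) (x := 3) hN he0
    (sqf_prod hPp).ne_zero ?_ ?_
  · rw [Nat.primeFactors_prod hPp] at h1
    rw [le_div_iff₀ he0]
    exact h1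
  · intro p hp hd
    obtain ⟨q, hq, hpq⟩ := (hp.prime.dvd_finsetProd_iff _).1 hd
    rw [(Nat.prime_dvd_prime_iff_eq hp (hPp q hq)).1 hpq]
    exact (mem_filter.1 hq).2
  · refine le_trans ?_ hmN
    have h2 : ∏ p ∈ P, p ∣ m := Finset.prod_primes_dvd m (fun p hp => (hPp p hp).prime)
      (fun p hp => Nat.dvd_of_mem_primeFactors (mem_filter.1 hp).1)
    exact_mod_cast Nat.le_of_dvd (Nat.pos_of_ne_zero hm) h2

/-- the bound for `psiC` -/
lemma abs_psiC (N : ℕ) (e0 κ : ℝ) (m : ℕ) (hN : 2 ≤ N) (he0 : 0 < e0) (hm : m ≠ 0)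
    (hmN : (m : ℝ) ≤ (N : ℝ) ^ (3 : ℝ)) : |psiC N e0 κ m| ≤ (3 : ℝ) ^ (3 / e0) := by
  unfold psiC
  rw [abs_neg]
  refine (abs_sum_le_sum_abs _ _).trans ?_
  have h1 : ∀ k : ℕ, |(-2 : ℝ) ^ k.primeFactors.card| = ∏ p ∈ k.primeFactors, (2 : ℝ) := by
    intro k
    rw [abs_pow, abs_neg, prod_const]
    norm_num
  simp only [h1]
  refine (sum_sqf _ (m.primeFactors.filter (fun p : ℕ => (N : ℝ) ^ e0 ≤ p)) (fun _ => 2)
    (fun _ _ => by norm_num) ?_).trans ?_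
  · intro k hk
    rw [mem_filter, Nat.mem_divisors] at hk
    obtain ⟨⟨hd, _⟩, _, hr, hs⟩ := hk
    refine ⟨hs, fun p hp => ?_⟩
    have hpp := Nat.prime_of_mem_primeFactors hp
    have hpd := Nat.dvd_of_mem_primeFactors hp
    exact mem_filter.2 ⟨Nat.mem_primeFactors.2 ⟨hpp, hpd.trans hd, hm⟩, hr p hpp hpd⟩
  · rw [prod_const, show (1 : ℝ) + 2 = 3 by norm_num, ← Real.rpow_natCast]
    exact Real.rpow_le_rpow_of_exponent_le (by norm_num) (card_rough N e0 m hN he0 hm hmN)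

end

end Pool.Agent.Lib.MP391708.QPA.C.TICM
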