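import Pool.Agent.Lib.MP_391708_nt.QPA.C.TICa

/-!
# Module TIC, lemmas: the bad values, the densities, the constants
-/

set_option autoImplicit false

namespace Pool.Agent.Lib.MP391708.QPA.C.TICM

open Finset Filter Topology
open Pool.Agent.Lib.MP391708.QPA
open Pool.Agent.Lib.MP391708.QPA.H
open scoped Classical
open FLCM

noncomputable section

/-- for given `n` the number of `|a| ≤ A` with `q ∣ n² + a` -/
lemma card_a (n q A : ℕ) (hq : 1 ≤ q) :
    (((IA A).filter (fun a => q ∣ val a n)).card : ℝ) ≤ (2 * A + 1) / (q : ℝ) + 1 := by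
  have hq' : (0 : ℤ) < q := by exact_mod_cast hq
  have h1 : (IA A).filter (fun a => q ∣ val a n)
      = (Ioc (-(A : ℤ) - 1) A).filter (fun a => a ≡ -(n : ℤ) ^ 2 [ZMOD q]) := by
    ext a
    rw [mem_filter, mem_filter, IA, mem_Icc, mem_Ioc, dvd_val_iff]
    have h2 : (q : ℤ) ∣ (n : ℤ) ^ 2 + a ↔ a ≡ -(n : ℤ) ^ 2 [ZMOD q] := by
      rw [Int.modEq_comm, Int.modEq_iff_dvd]
      have : a - -(n : ℤ) ^ 2 = (n : ℤ) ^ 2 + a := by ring
      rw [this]
    rw [h2]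
    constructor
    · rintro ⟨h3, h4⟩
      exact ⟨by omega, h4⟩
    · rintro ⟨h3, h4⟩
      exact ⟨by omega, h4⟩
  have hc := Int.Ioc_filter_modEq_card (-(A : ℤ) - 1) A hq' (-(n : ℤ) ^ 2)
  rw [← h1] at hc
  set c := ((IA A).filter (fun a => q ∣ val a n)).card with hcdef
  set u : ℚ := (((A : ℤ) : ℚ) - ((-(n : ℤ) ^ 2 : ℤ) : ℚ)) / ((q : ℤ) : ℚ) with hu
  set v : ℚ := (((-(A : ℤ) - 1 : ℤ) : ℚ) - ((-(n : ℤ) ^ 2 : ℤ) : ℚ)) / ((q : ℤ) : ℚ) with hv
  have hq0 : (0 : ℚ) < ((q : ℤ) : ℚ) := by exact_mod_cast hq'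
  have hd : u - v = (2 * (A : ℚ) + 1) / (q : ℚ) := by
    rw [hu, hv]
    push_cast
    ring
  have hd0 : 0 ≤ u - v := by rw [hd]; positivity
  have hfl : ⌊v⌋ ≤ ⌊u⌋ := Int.floor_mono (by linarith)
  have hc2 : (c : ℤ) = ⌊u⌋ - ⌊v⌋ := by
    rw [hc]
    exact max_eq_left (by linarith)
  have h4 : ((c : ℤ) : ℚ) ≤ (2 * (A : ℚ) + 1) / (q : ℚ) + 1 := by
    rw [hc2, ← hd]
    push_cast
    have e1 := Int.floor_le u
    have e4 := Int.lt_floor_add_one v
    linarith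
  have h5 : ((((c : ℤ) : ℚ) : ℚ) : ℝ) ≤ (((2 * (A : ℚ) + 1) / (q : ℚ) + 1 : ℚ) : ℝ) := by
    exact_mod_cast h4
  push_cast at h5
  exact h5

/-- the same for small `q` -/
lemma card_a' (n q A : ℕ) (hq : 1 ≤ q) (hqA : (q : ℝ) ≤ A) :
    (((IA A).filter (fun a => q ∣ val a n)).card : ℝ) ≤ 4 * A * (1 / (q : ℝ)) := by
  refine (card_a n q A hq).trans ?_
  have hq1 : (1 : ℝ) ≤ q := by exact_mod_cast hq
  have hq0 : (0 : ℝ) < q := by linarith
  rw [mul_one_div, div_add_one hq0.ne']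
  apply div_le_div_of_nonneg_right _ hq0.le
  linarith

/-- the bad values, for one `n` -/
lemma bad_n (n A w J : ℕ) (z : ℝ) (hw : 1 ≤ w) (hwz : (w : ℝ) ≤ z) (hzA : z ^ 2 ≤ A)
    (hwA : ((w : ℝ)) ^ J ≤ A) :
    ∑ a ∈ IA A, (if Gd w J z (val a n) then (0 : ℝ) else 1)
      ≤ 4 * A * ((w : ℝ) / 2 ^ J + 1 / w) := by
  have hA0 : (0 : ℝ) ≤ A := by positivity
  have h1 : ∀ a ∈ IA A, (if Gd w J z (val a n) then (0 : ℝ) else 1)
      ≤ (∑ p ∈ PB ((w : ℝ) + 1), if p ^ J ∣ val a n then 1 else 0)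
        + ∑ p ∈ PP w z, if p ^ 2 ∣ val a n then 1 else 0 := by
    intro a _
    have n1 : (0 : ℝ) ≤ ∑ p ∈ PB ((w : ℝ) + 1), if p ^ J ∣ val a n then 1 else 0 :=
      sum_nonneg fun p _ => by positivity
    have n2 : (0 : ℝ) ≤ ∑ p ∈ PP w z, if p ^ 2 ∣ val a n then 1 else 0 :=
      sum_nonneg fun p _ => by positivity
    split_ifs with hG
    · linarith
    · unfold Gd at hG
      rw [not_and_or] at hG
      rcases hG with h | h
      · push Not at h
        obtain ⟨p, hp, hpw, hd⟩ := h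
        have hmem : p ∈ PB ((w : ℝ) + 1) := Mta.mem_S.2 ⟨hp, hpw⟩
        have := single_le_sum (s := PB ((w : ℝ) + 1))
          (f := fun p : ℕ => if p ^ J ∣ val a n then (1 : ℝ) else 0)
          (fun q _ => by positivity) hmem
        simp only [hd, if_true] at this
        linarith
      · push Not at h
        obtain ⟨p, hp, hpw, hpz, hd⟩ := h
        have := single_le_sum (f := fun p : ℕ => if p ^ 2 ∣ val a n then (1 : ℝ) else 0)
          (fun q _ => by positivity) (mem_PP.2 ⟨hp, hpw, hpz⟩ : p ∈ PP w z)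
        simp only [hd, if_true] at this
        linarith
  refine (sum_le_sum h1).trans ?_
  rw [sum_add_distrib, sum_comm, sum_comm (s := IA A) (t := PP w z)]
  have h2 : ∑ p ∈ PB ((w : ℝ) + 1), ∑ a ∈ IA A, (if p ^ J ∣ val a n then (1 : ℝ) else 0)
      ≤ 4 * A * ((w : ℝ) / 2 ^ J) := by
    have h3 : ∀ p ∈ PB ((w : ℝ) + 1), ∑ a ∈ IA A, (if p ^ J ∣ val a n then (1 : ℝ) else 0)
        ≤ 4 * A * (1 / 2 ^ J) := by
      intro p hp
      have hp' := Mta.mem_S.1 hp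
      rw [← sum_filter, sum_const, nsmul_eq_mul, mul_one]
      have hpw : (p : ℝ) ≤ w := by exact_mod_cast hp'.2
      have hp2 : (2 : ℝ) ≤ p := by exact_mod_cast hp'.1.two_le
      refine (card_a' n (p ^ J) A (Nat.one_le_pow _ _ hp'.1.pos) ?_).trans ?_
      · push_cast
        exact (pow_le_pow_left₀ (by positivity) hpw J).trans hwA
      · push_cast
        have : (2 : ℝ) ^ J ≤ (p : ℝ) ^ J := pow_le_pow_left₀ (by norm_num) hp2 J
        gcongr
    refine (sum_le_card_nsmul _ _ _ h3).trans ?_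
    rw [nsmul_eq_mul]
    have h4 : ((PB ((w : ℝ) + 1)).card : ℝ) ≤ w := by
      have : (PB ((w : ℝ) + 1)).card ≤ (Icc 1 w).card := card_le_card fun p hp => by
        have hp' := Mta.mem_S.1 hp
        exact mem_Icc.2 ⟨hp'.1.one_lt.le, hp'.2⟩
      rw [Nat.card_Icc, Nat.add_sub_cancel] at this
      exact_mod_cast this
    calc ((PB ((w : ℝ) + 1)).card : ℝ) * (4 * A * (1 / 2 ^ J)) ≤ w * (4 * A * (1 / 2 ^ J)) :=
          mul_le_mul_of_nonneg_right h4 (by positivity)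
      _ = _ := by ring
  have h3 : ∑ p ∈ PP w z, ∑ a ∈ IA A, (if p ^ 2 ∣ val a n then (1 : ℝ) else 0)
      ≤ 4 * A * (1 / w) := by
    have h4 : ∀ p ∈ PP w z, ∑ a ∈ IA A, (if p ^ 2 ∣ val a n then (1 : ℝ) else 0)
        ≤ 4 * A * (((p : ℝ) ^ 2)⁻¹) := by
      intro p hp
      have hp' := mem_PP.1 hp
      rw [← sum_filter, sum_const, nsmul_eq_mul, mul_one]
      refine (card_a' n (p ^ 2) A (Nat.one_le_pow _ _ hp'.1.pos) ?_).trans (le_of_eq ?_)
      · push_cast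
        exact (pow_le_pow_left₀ (by positivity) hp'.2.2.le 2).trans hzA
      · push_cast
        rw [one_div]
    refine (sum_le_sum h4).trans ?_
    rw [← mul_sum]
    refine mul_le_mul_of_nonneg_left ?_ (by positivity)
    have hsub : PP w z ⊆ Ioc w ⌈z⌉₊ := by
      intro p hp
      have hp' := mem_PP.1 hp
      rw [mem_Ioc]
      refine ⟨hp'.2.1, ?_⟩
      exact_mod_cast (hp'.2.2.le.trans (Nat.le_ceil z))
    have h5 := sum_Ioc_inv_sq_le_sub (α := ℝ) (k := w) (n := ⌈z⌉₊) (by omega)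
      (by exact_mod_cast hwz.trans (Nat.le_ceil z))
    refine (sum_le_sum_of_subset_of_nonneg hsub fun _ _ _ => by positivity).trans (h5.trans ?_)
    rw [one_div]
    have : (0 : ℝ) ≤ ((⌈z⌉₊ : ℕ) : ℝ)⁻¹ := by positivity
    linarith
  rw [mul_add]
  exact add_le_add h2 h3

/-- `VC ≤ (3^(w+1) Wa)²` -/
lemma VC_le (w : ℕ) (z : ℝ) (a : ℤ) (hw : 4 ≤ w) :
    0 ≤ VC w z a ∧ VC w z a ≤ ((3 : ℝ) ^ (w + 1) * Wa z a) ^ 2 := by
  have hrho2 : ∀ p : ℕ, p.Prime → (rho a p : ℝ) ≤ 2 := fun p hp => by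
    exact_mod_cast RHO.rho_prime_le a p hp
  have hh : ∀ p ∈ PP w z, 0 ≤ (rho a p : ℝ) / p ∧ (rho a p : ℝ) / p ≤ 2 / 5 := fun p hp => by
    have h1 := mem_PP.1 hp
    have h2 : (5 : ℝ) ≤ p := by exact_mod_cast (by omega : 5 ≤ p)
    refine ⟨by positivity, ?_⟩
    rw [div_le_div_iff₀ (by linarith) (by norm_num)]
    have := hrho2 p h1.1
    linarith
  have hthird : ∀ p ∈ PB z, (1 : ℝ) / 3 ≤ 1 - (rho a p : ℝ) / p := by
    intro p hp
    have hpp : p.Prime := (mem_filter.1 hp).2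
    by_cases h2 : p = 2
    · subst h2
      rw [RHO.rho_two]
      norm_num
    · have h3 : (3 : ℝ) ≤ p := by
        have := hpp.two_le
        exact_mod_cast (by omega : 3 ≤ p)
      have h4 : (rho a p : ℝ) / p ≤ 2 / 3 := by
        rw [div_le_div_iff₀ (by linarith) (by norm_num)]
        have := hrho2 p hpp
        linarith
      linarith
  rw [VC_eq]
  have e1 : ∀ p ∈ PP w z, 0 ≤ 1 - 2 * (rho a p : ℝ) / p := fun p hp => by
    have := hh p hp
    rw [mul_div_assoc]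
    linarith
  refine ⟨prod_nonneg e1, ?_⟩
  have e2 : ∏ p ∈ PP w z, (1 - 2 * (rho a p : ℝ) / p) ≤ (∏ p ∈ PP w z, (1 - (rho a p : ℝ) / p)) ^ 2 := by
    rw [← prod_pow]
    refine prod_le_prod e1 fun p _ => ?_
    rw [mul_div_assoc]
    nlinarith [sq_nonneg ((rho a p : ℝ) / p)]
  refine e2.trans ?_
  have e3 : 0 ≤ ∏ p ∈ PP w z, (1 - (rho a p : ℝ) / p) :=
    prod_nonneg fun p hp => by linarith [(hh p hp).2]
  refine pow_le_pow_left₀ e3 ?_ 2
  have e4 : Wa z a = (∏ p ∈ PP w z, (1 - (rho a p : ℝ) / p)) *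
      ∏ p ∈ (PB z).filter (fun p => ¬ w < p), (1 - (rho a p : ℝ) / p) := by
    unfold Wa PP
    rw [prod_filter_mul_prod_filter_not]
  have e5 : ((1 : ℝ) / 3) ^ (w + 1) ≤ ∏ p ∈ (PB z).filter (fun p => ¬ w < p), (1 - (rho a p : ℝ) / p) := by
    have e6 : ((PB z).filter (fun p => ¬ w < p)).card ≤ w + 1 := by
      calc _ ≤ (range (w + 1)).card := card_le_card fun p hp => by
            rw [mem_filter] at hp
            rw [mem_range]
            omega
        _ = w + 1 := card_range _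
    calc ((1 : ℝ) / 3) ^ (w + 1) ≤ ((1 : ℝ) / 3) ^ ((PB z).filter (fun p => ¬ w < p)).card :=
          pow_le_pow_of_le_one (by norm_num) (by norm_num) e6
      _ = ∏ p ∈ (PB z).filter (fun p => ¬ w < p), ((1 : ℝ) / 3) := by rw [prod_const]
      _ ≤ _ := prod_le_prod (fun _ _ => by norm_num) fun p hp => hthird p (mem_filter.1 hp).1
  rw [e4]
  have e7 : (3 : ℝ) ^ (w + 1) * ((1 : ℝ) / 3) ^ (w + 1) = 1 := by
    rw [← mul_pow]
    norm_num
  calc ∏ p ∈ PP w z, (1 - (rho a p : ℝ) / p)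
      = (3 : ℝ) ^ (w + 1) * ((∏ p ∈ PP w z, (1 - (rho a p : ℝ) / p)) * ((1 : ℝ) / 3) ^ (w + 1)) := by
        rw [show (3 : ℝ) ^ (w + 1) * ((∏ p ∈ PP w z, (1 - (rho a p : ℝ) / p)) * ((1 : ℝ) / 3) ^ (w + 1))
          = (∏ p ∈ PP w z, (1 - (rho a p : ℝ) / p)) * ((3 : ℝ) ^ (w + 1) * ((1 : ℝ) / 3) ^ (w + 1)) by ring,
          e7, mul_one]
    _ ≤ _ := by
        refine mul_le_mul_of_nonneg_left (mul_le_mul_of_nonneg_left e5 e3) (by positivity)

/-- the sum over the divisors `k` -/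
lemma sum_K (hS : SpecRHOS) (N : ℕ) (e0 κ : ℝ) (hN : 2 ≤ N) (he0 : 0 < e0) (hκ : κ ≤ 1)
    (hmer : ∑ p ∈ PW N (e0 / 2) 1, 1 / (p : ℝ) ≤ Real.log (1 / (e0 / 2)) + 1) (a : ℤ) :
    ∑ k ∈ KC N e0 κ, (2 : ℝ) ^ k.primeFactors.card * ((rho a k : ℝ) / k) ≤ (6 / e0) ^ 4 := by
  have hN1 : (1 : ℝ) < N := by exact_mod_cast (by omega : 1 < N)
  have h1 : ∀ k ∈ KC N e0 κ, (2 : ℝ) ^ k.primeFactors.card * ((rho a k : ℝ) / k)
      ≤ ∏ p ∈ k.primeFactors, (4 / (p : ℝ)) := by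
    intro k hk
    have hks := (mem_KC.1 hk).2.2.2
    have hk0 : (0 : ℝ) < k := by exact_mod_cast Nat.pos_of_ne_zero hks.ne_zero
    have h2 : (rho a k : ℝ) ≤ (2 : ℝ) ^ k.primeFactors.card := by exact_mod_cast hS a k hks
    have h3 : ∏ p ∈ k.primeFactors, (p : ℝ) = k := by
      have := Nat.prod_primeFactors_of_squarefree hks
      calc ∏ p ∈ k.primeFactors, (p : ℝ) = ((∏ p ∈ k.primeFactors, p : ℕ) : ℝ) := by push_cast; rfl
        _ = k := by rw [this]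
    rw [prod_div_distrib, prod_const, h3, ← mul_div_assoc]
    apply div_le_div_of_nonneg_right _ hk0.le
    calc (2 : ℝ) ^ k.primeFactors.card * (rho a k : ℝ)
        ≤ (2 : ℝ) ^ k.primeFactors.card * (2 : ℝ) ^ k.primeFactors.card := by gcongr
      _ = (4 : ℝ) ^ k.primeFactors.card := by rw [← mul_pow]; norm_num
  refine (sum_le_sum h1).trans ?_
  refine (sum_sqf (KC N e0 κ) (PW N (e0 / 2) 1) (fun p => 4 / (p : ℝ)) (fun _ _ => by positivity)
    ?_).trans ?_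
  · intro k hk
    obtain ⟨hk1, hkN, hkr, hks⟩ := mem_KC.1 hk
    refine ⟨hks, fun p hp => ?_⟩
    have hpp := Nat.prime_of_mem_primeFactors hp
    have hpd := Nat.dvd_of_mem_primeFactors hp
    unfold PW
    rw [mem_filter, mem_Ioc]
    refine ⟨⟨?_, ?_⟩, hpp⟩
    · rw [Nat.floor_lt (by positivity)]
      have h2 := hkr p hpp hpd
      have h3 : (N : ℝ) ^ (e0 / 2) < (N : ℝ) ^ e0 := Real.rpow_lt_rpow_of_exponent_lt hN1 (by linarith)
      linarith
    · apply Nat.le_floor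
      have h2 : (p : ℝ) ≤ k := by exact_mod_cast Nat.le_of_dvd (by omega) hpd
      exact h2.trans (hkN.trans (Real.rpow_le_rpow_of_exponent_le hN1.le hκ))
  · have h2 : ∏ p ∈ PW N (e0 / 2) 1, (1 + 4 / (p : ℝ)) ≤ Real.exp (4 * ∑ p ∈ PW N (e0 / 2) 1, 1 / (p : ℝ)) := by
      rw [mul_sum, Real.exp_sum]
      refine prod_le_prod (fun _ _ => by positivity) fun p _ => ?_
      rw [mul_one_div, add_comm]
      exact Real.add_one_le_exp _
    refine h2.trans ?_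
    have h3 : 4 * ∑ p ∈ PW N (e0 / 2) 1, 1 / (p : ℝ) ≤ 4 * (Real.log (2 / e0) + 1) := by
      have : (1 : ℝ) / (e0 / 2) = 2 / e0 := by field_simp
      rw [this] at hmer
      linarith
    calc Real.exp (4 * ∑ p ∈ PW N (e0 / 2) 1, 1 / (p : ℝ)) ≤ Real.exp (4 * (Real.log (2 / e0) + 1)) :=
          Real.exp_le_exp.2 h3
      _ = (2 / e0 * Real.exp 1) ^ 4 := by
          rw [show (4 : ℝ) * (Real.log (2 / e0) + 1) = ((4 : ℕ) : ℝ) * (Real.log (2 / e0) + 1) by norm_num,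
            Real.exp_nat_mul, Real.exp_add, Real.exp_log (by positivity)]
      _ ≤ (6 / e0) ^ 4 := by
          apply pow_le_pow_left₀ (by positivity)
          have h5 : Real.exp 1 ≤ 3 := by linarith [Real.exp_one_lt_d9]
          calc 2 / e0 * Real.exp 1 ≤ 2 / e0 * 3 := by gcongr
            _ = 6 / e0 := by ring

/-- `e^(-y) ≤ 120/y^5` -/
lemma exp_neg_le (y : ℝ) (hy : 0 < y) : Real.exp (-y) ≤ 120 / y ^ 5 := by
  have h2 : y ^ 5 / 120 ≤ Real.exp y := by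
    have := Real.pow_div_factorial_le_exp y hy.le 5
    norm_num [Nat.factorial] at this
    exact this
  rw [Real.exp_neg, ← one_div, div_le_div_iff₀ (Real.exp_pos _) (by positivity)]
  rw [div_le_iff₀ (by norm_num)] at h2
  linarith

/-- the two exponentials are small -/
lemma ex_small (e0 η : ℝ) (he0 : 0 < e0) (hη : 0 < η) :
    Real.exp (-((⌊1 / (100 * e0)⌋₊ : ℕ) : ℝ)) + Real.exp (-(η / (2 * e0)))
      ≤ (3600000000000 + 3840 / η ^ 5) * e0 ^ 5 := by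
  set y : ℝ := 1 / (100 * e0) with hy
  have hy0 : 0 < y := by positivity
  have h1 : y - 1 ≤ (⌊y⌋₊ : ℕ) := by
    have := Nat.lt_floor_add_one y
    linarith
  have h3 : Real.exp (-((⌊y⌋₊ : ℕ) : ℝ)) ≤ Real.exp (1 + -y) := Real.exp_le_exp.2 (by linarith)
  have h4 : Real.exp (1 + -y) ≤ 3 * (120 / y ^ 5) := by
    rw [Real.exp_add]
    have h5 : Real.exp 1 ≤ 3 := by linarith [Real.exp_one_lt_d9]
    exact mul_le_mul h5 (exp_neg_le y hy0) (Real.exp_pos _).le (by norm_num)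
  have h5 : 3 * (120 / y ^ 5) = 3600000000000 * e0 ^ 5 := by
    rw [hy]
    field_simp
    norm_num
  have h6 := exp_neg_le (η / (2 * e0)) (by positivity)
  have h7 : 120 / (η / (2 * e0)) ^ 5 = 3840 / η ^ 5 * e0 ^ 5 := by
    field_simp
    norm_num
  rw [h7] at h6
  rw [add_mul]
  linarith

end

end Pool.Agent.Lib.MP391708.QPA.C.TICM
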