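import Pool.Agent.Lib.MP_391708_nt.QPA.C.SpecD
import Pool.Agent.Lib.MP_391708_nt.QPA.C.TIC
import Pool.Agent.Lib.MP_391708_nt.QPA.FLB
import Pool.Agent.Lib.MP_391708_nt.QPA.EDGE

/-!
# Module TID, lemmas: Type I without parity
-/

set_option autoImplicit false

namespace Pool.Agent.Lib.MP391708.QPA.C.TIDM

open Finset Filter Topology
open Pool.Agent.Lib.MP391708.QPA
open Pool.Agent.Lib.MP391708.QPA.H
open scoped Classical
open TICM

noncomputable section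

lemma psiD_eq (N : ℕ) (e0 κ : ℝ) (cf : ℕ → ℝ) (m : ℕ) (hm : m ≠ 0) :
    psiD N e0 κ cf m = ∑ k ∈ KC N e0 κ, (if k ∣ m then cf k else 0) := by
  unfold psiD
  rw [← sum_filter]
  apply sum_congr _ fun _ _ => rfl
  ext k
  rw [mem_filter, mem_filter, mem_KC, Nat.mem_divisors]
  constructor
  · rintro ⟨⟨h1, _⟩, h2, h3, h4⟩
    exact ⟨⟨Nat.pos_of_ne_zero h4.ne_zero, h2, h3, h4⟩, h1⟩
  · rintro ⟨⟨_, h2, h3, h4⟩, h1⟩
    exact ⟨⟨h1, hm⟩, h2, h3, h4⟩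

/-- the weighted number of the divisors -/
def wt (N : ℕ) (e0 κ : ℝ) (m : ℕ) : ℝ :=
  ∑ k ∈ KC N e0 κ, (if k ∣ m then (2 : ℝ) ^ k.primeFactors.card else 0)

lemma wt_nonneg (N : ℕ) (e0 κ : ℝ) (m : ℕ) : 0 ≤ wt N e0 κ m :=
  sum_nonneg fun k _ => by positivity

/-- the weight, restricted to the numbers with large smooth part -/
def EE (N : ℕ) (e0 η κ : ℝ) (m : ℕ) : ℝ :=
  if (N : ℝ) ^ η < ((smp ((N : ℝ) ^ e0) m : ℕ) : ℝ) then wt N e0 κ m else 0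

lemma EE_nonneg (N : ℕ) (e0 η κ : ℝ) (m : ℕ) : 0 ≤ EE N e0 η κ m := by
  unfold EE
  split_ifs
  · exact wt_nonneg _ _ _ _
  · exact le_rfl

lemma EE_zero (N : ℕ) (e0 η κ : ℝ) (hN : 1 ≤ N) (hη : 0 ≤ η) : EE N e0 η κ 0 = 0 := by
  unfold EE
  rw [if_neg]
  unfold smp
  rw [Nat.primeFactors_zero, filter_empty, prod_empty, Nat.cast_one, not_lt]
  exact Real.one_le_rpow (by exact_mod_cast hN) hη

lemma abs_psiD_le (N : ℕ) (e0 κ : ℝ) (cf : ℕ → ℝ) (hcf : ∀ k, |cf k| ≤ 2 ^ k.primeFactors.card) (m : ℕ) :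
    |psiD N e0 κ cf m| ≤ wt N e0 κ m := by
  rcases Nat.eq_zero_or_pos m with rfl | hm
  · unfold psiD
    rw [Nat.divisors_zero, filter_empty, sum_empty, abs_zero]
    exact wt_nonneg _ _ _ _
  · rw [psiD_eq N e0 κ cf m hm.ne']
    refine (abs_sum_le_sum_abs _ _).trans (sum_le_sum fun k _ => ?_)
    split_ifs
    · exact hcf k
    · rw [abs_zero]

lemma diff_le (N : ℕ) (e0 η κ : ℝ) (cf : ℕ → ℝ) (hcf : ∀ k, |cf k| ≤ 2 ^ k.primeFactors.card) (m : ℕ) :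
    |ismC N e0 η m * psiD N e0 κ cf m - psiD N e0 κ cf m| ≤ EE N e0 η κ m := by
  unfold ismC EE
  split_ifs with h1 h2 h2
  · exact absurd h2 (not_lt.2 h1)
  · rw [one_mul, sub_self, abs_zero]
  · rw [zero_mul, zero_sub, abs_neg]
    exact abs_psiD_le N e0 κ cf hcf m
  · exact absurd (not_le.1 h1) h2

/-- the sum over the divisors `k` -/
lemma sum_K2 (N : ℕ) (e0 κ : ℝ) (hN : 2 ≤ N) (he0 : 0 < e0) (hκ : κ ≤ 1)
    (hmer : ∑ p ∈ PW N (e0 / 2) 1, 1 / (p : ℝ) ≤ Real.log (1 / (e0 / 2)) + 1) :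
    ∑ k ∈ KC N e0 κ, (2 : ℝ) ^ k.primeFactors.card / k ≤ (6 / e0) ^ 2 := by
  have hN1 : (1 : ℝ) < N := by exact_mod_cast (by omega : 1 < N)
  have h1 : ∀ k ∈ KC N e0 κ, (2 : ℝ) ^ k.primeFactors.card / k
      = ∏ p ∈ k.primeFactors, (2 / (p : ℝ)) := by
    intro k hk
    have hks := (mem_KC.1 hk).2.2.2
    have h3 : ∏ p ∈ k.primeFactors, (p : ℝ) = k := by
      have := Nat.prod_primeFactors_of_squarefree hks
      calc ∏ p ∈ k.primeFactors, (p : ℝ) = ((∏ p ∈ k.primeFactors, p : ℕ) : ℝ) := by push_cast; rfl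
        _ = k := by rw [this]
    rw [prod_div_distrib, prod_const, h3]
  rw [sum_congr rfl h1]
  refine (sum_sqf (KC N e0 κ) (PW N (e0 / 2) 1) (fun p => 2 / (p : ℝ)) (fun _ _ => by positivity)
    ?_).trans ?_
  · intro k hk
    obtain ⟨hk1, hkN, hkr, hks⟩ := mem_KC.1 hk
    refine ⟨hks, fun p hp => ?_⟩
    have hpp := Nat.prime_of_mem_primeFactors hp
    have hpd := Nat.dvd_of_mem_primeFactors hp
    unfold PW
    rw [mem_filter, mem_Ioc]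
    refine ⟨⟨?_, ?_⟩, hpp⟩
    · rw [Nat.floor_lt (by positivity)]
      have h2 := hkr p hpp hpd
      have h3 : (N : ℝ) ^ (e0 / 2) < (N : ℝ) ^ e0 := Real.rpow_lt_rpow_of_exponent_lt hN1 (by linarith)
      linarith
    · apply Nat.le_floor
      have h2 : (p : ℝ) ≤ k := by exact_mod_cast Nat.le_of_dvd (by omega) hpd
      exact h2.trans (hkN.trans (Real.rpow_le_rpow_of_exponent_le hN1.le hκ))
  · have h2 : ∏ p ∈ PW N (e0 / 2) 1, (1 + 2 / (p : ℝ)) ≤ Real.exp (2 * ∑ p ∈ PW N (e0 / 2) 1, 1 / (p : ℝ)) := by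
      rw [mul_sum, Real.exp_sum]
      refine prod_le_prod (fun _ _ => by positivity) fun p _ => ?_
      rw [mul_one_div, add_comm]
      exact Real.add_one_le_exp _
    refine h2.trans ?_
    have h3 : 2 * ∑ p ∈ PW N (e0 / 2) 1, 1 / (p : ℝ) ≤ 2 * (Real.log (2 / e0) + 1) := by
      have : (1 : ℝ) / (e0 / 2) = 2 / e0 := by field_simp
      rw [this] at hmer
      linarith
    calc Real.exp (2 * ∑ p ∈ PW N (e0 / 2) 1, 1 / (p : ℝ)) ≤ Real.exp (2 * (Real.log (2 / e0) + 1)) :=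
          Real.exp_le_exp.2 h3
      _ = (2 / e0 * Real.exp 1) ^ 2 := by
          rw [show (2 : ℝ) * (Real.log (2 / e0) + 1) = ((2 : ℕ) : ℝ) * (Real.log (2 / e0) + 1) by norm_num,
            Real.exp_nat_mul, Real.exp_add, Real.exp_log (by positivity)]
      _ ≤ (6 / e0) ^ 2 := by
          apply pow_le_pow_left₀ (by positivity)
          have h5 : Real.exp 1 ≤ 3 := by linarith [Real.exp_one_lt_d9]
          calc 2 / e0 * Real.exp 1 ≤ 2 / e0 * 3 := by gcongr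
            _ = 6 / e0 := by ring

/-- the smooth part of a multiple -/
lemma smp_mul_rough (z : ℝ) (k j : ℕ) (hk : k ≠ 0) (hr : Rough z k) (hj : j ≠ 0) :
    smp z (k * j) = smp z j := by
  have h := T2CM.smp_mul_rgp z j hj
  have h1 : smp z j * (T2CM.rgp z j * k) = k * j := by
    rw [← mul_assoc, h, mul_comm]
  have h2 : Rough z (T2CM.rgp z j * k) := by
    intro p hp hd
    rcases (hp.dvd_mul).1 hd with h3 | h3
    · exact T2CM.rough_rgp z j p hp h3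
    · exact hr p hp h3
  exact (T2CM.unique_parts z (k * j) _ _ (mul_ne_zero hk hj) h1 h2 (T2CM.smooth_smp z j)).2.symm

/-- the multiples of `k` with large smooth part -/
lemma mult_count (z T : ℝ) (x y k : ℕ) (hk : 1 ≤ k) (hr : Rough z k) :
    ∑ m ∈ Ioc x y, (if k ∣ m ∧ T < ((smp z m : ℕ) : ℝ) then (1 : ℝ) else 0)
      = (((Ioc (x / k) (y / k)).filter (fun j => T < ((smp z j : ℕ) : ℝ))).card : ℝ) := by
  rw [← sum_filter, sum_const, nsmul_eq_mul, mul_one]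
  congr 1
  symm
  apply card_bij (fun j _ => k * j)
  · intro j hj
    rw [mem_filter, mem_Ioc] at hj
    rw [mem_filter, mem_Ioc]
    refine ⟨⟨?_, ?_⟩, Dvd.intro _ rfl, ?_⟩
    · have := (Nat.div_lt_iff_lt_mul hk).1 hj.1.1
      linarith [Nat.mul_comm j k]
    · have := (Nat.le_div_iff_mul_le hk).1 hj.1.2
      linarith [Nat.mul_comm j k]
    · rw [smp_mul_rough z k j (by omega) hr (lt_of_le_of_lt (Nat.zero_le _) hj.1.1).ne']
      exact hj.2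
  · intro j _ j' _ h
    exact Nat.eq_of_mul_eq_mul_left hk h
  · intro m hm
    rw [mem_filter, mem_Ioc] at hm
    obtain ⟨⟨h1, h2⟩, ⟨j, rfl⟩, h3⟩ := hm
    have hj0 : j ≠ 0 := by
      rintro rfl
      simp at h1
    refine ⟨j, ?_, rfl⟩
    rw [mem_filter, mem_Ioc]
    refine ⟨⟨(Nat.div_lt_iff_lt_mul hk).2 (by linarith [Nat.mul_comm j k]),
        (Nat.le_div_iff_mul_le hk).2 (by linarith [Nat.mul_comm j k])⟩, ?_⟩
    rwa [smp_mul_rough z k j (by omega) hr hj0] at h3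

/-- the length of the interval of the cofactors -/
lemma div_len (x H k : ℕ) (hk : 1 ≤ k) :
    (H : ℝ) / k - 1 ≤ (((x + H) / k - x / k : ℕ) : ℝ) ∧ (((x + H) / k - x / k : ℕ) : ℝ) ≤ (H : ℝ) / k + 1 := by
  have hk0 : (0 : ℝ) < k := by exact_mod_cast hk
  have h0 : x / k ≤ (x + H) / k := Nat.div_le_div_right (by omega)
  rw [Nat.cast_sub h0]
  have a1 : ((x / k : ℕ) : ℝ) ≤ (x : ℝ) / k := Nat.cast_div_le
  have a2 : (((x + H) / k : ℕ) : ℝ) ≤ ((x + H : ℕ) : ℝ) / k := Nat.cast_div_le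
  have a3 : (x : ℝ) / k < ((x / k : ℕ) : ℝ) + 1 := by
    rw [div_lt_iff₀ hk0]
    have := Nat.lt_mul_div_succ x hk
    have h2 : (x : ℝ) < ((k * (x / k + 1) : ℕ) : ℝ) := by exact_mod_cast this
    push_cast at h2
    linarith
  have a4 : ((x + H : ℕ) : ℝ) / k < (((x + H) / k : ℕ) : ℝ) + 1 := by
    rw [div_lt_iff₀ hk0]
    have := Nat.lt_mul_div_succ (x + H) hk
    have h2 : ((x + H : ℕ) : ℝ) < ((k * ((x + H) / k + 1) : ℕ) : ℝ) := by exact_mod_cast this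
    push_cast at h2 ⊢
    linarith
  have a5 : ((x + H : ℕ) : ℝ) / k = x / k + H / k := by
    push_cast
    rw [add_div]
  rw [a5] at a2 a4
  constructor <;> linarith

/-- the sum of `EE` over an interval -/
lemma sum_EE (N : ℕ) (e0 η κ B S : ℝ) (hN : 1 ≤ N) (hB : 0 ≤ B)
    (hSM : ∀ x H : ℕ, (N : ℝ) ^ (1 / 8 : ℝ) ≤ H → ((x + H : ℕ) : ℝ) ≤ (N : ℝ) ^ 3 →
      (((Ioc x (x + H)).filter (fun m => (N : ℝ) ^ η < ((smp ((N : ℝ) ^ e0) m : ℕ) : ℝ))).card : ℝ) ≤ B * H)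
    (hS : ∑ k ∈ KC N e0 κ, (2 : ℝ) ^ k.primeFactors.card / k ≤ S) (x H : ℕ)
    (hH : (N : ℝ) ^ κ * ((N : ℝ) ^ (1 / 8 : ℝ) + 1) ≤ H) (hx : ((x + H : ℕ) : ℝ) ≤ (N : ℝ) ^ 3) :
    ∑ m ∈ Ioc x (x + H), EE N e0 η κ m ≤ 2 * B * H * S := by
  have hN1 : (1 : ℝ) ≤ N := by exact_mod_cast hN
  have h1 : ∀ m ∈ Ioc x (x + H), EE N e0 η κ m = ∑ k ∈ KC N e0 κ, (2 : ℝ) ^ k.primeFactors.card *
      (if k ∣ m ∧ (N : ℝ) ^ η < ((smp ((N : ℝ) ^ e0) m : ℕ) : ℝ) then (1 : ℝ) else 0) := by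
    intro m _
    unfold EE wt
    by_cases h : (N : ℝ) ^ η < ((smp ((N : ℝ) ^ e0) m : ℕ) : ℝ)
    · rw [if_pos h]
      refine sum_congr rfl fun k _ => ?_
      simp [h]
    · rw [if_neg h]
      symm
      apply sum_eq_zero
      intro k _
      simp [h]
  rw [sum_congr rfl h1, sum_comm]
  have h2 : ∀ k ∈ KC N e0 κ, ∑ m ∈ Ioc x (x + H), (2 : ℝ) ^ k.primeFactors.card *
      (if k ∣ m ∧ (N : ℝ) ^ η < ((smp ((N : ℝ) ^ e0) m : ℕ) : ℝ) then (1 : ℝ) else 0)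
      ≤ 2 * B * H * ((2 : ℝ) ^ k.primeFactors.card / k) := by
    intro k hk
    obtain ⟨hk1, hkN, hkr, hks⟩ := mem_KC.1 hk
    have hk0 : (0 : ℝ) < k := by exact_mod_cast hk1
    rw [← mul_sum, mult_count _ _ _ _ _ hk1 hkr]
    obtain ⟨g1, g2⟩ := div_len x H k hk1
    set H' : ℕ := (x + H) / k - x / k with hH'
    have h0 : x / k ≤ (x + H) / k := Nat.div_le_div_right (by omega)
    have h3 : (x + H) / k = x / k + H' := by omega
    have h4 : (N : ℝ) ^ (1 / 8 : ℝ) + 1 ≤ (H : ℝ) / k := by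
      rw [le_div_iff₀ hk0]
      refine le_trans ?_ hH
      rw [mul_comm]
      exact mul_le_mul_of_nonneg_right hkN (by positivity)
    have h5 := hSM (x / k) H' (by linarith) (by
      rw [← h3]
      refine le_trans ?_ hx
      exact_mod_cast Nat.div_le_self _ _)
    rw [h3]
    have h6 : (H' : ℝ) ≤ 2 * (H / k) := by
      have : (0 : ℝ) ≤ (N : ℝ) ^ (1 / 8 : ℝ) := by positivity
      linarith
    calc (2 : ℝ) ^ k.primeFactors.card * _ ≤ (2 : ℝ) ^ k.primeFactors.card * (B * (2 * (H / k))) := by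
          refine mul_le_mul_of_nonneg_left (h5.trans ?_) (by positivity)
          exact mul_le_mul_of_nonneg_left h6 hB
      _ = _ := by ring
  refine (sum_le_sum h2).trans ?_
  rw [← mul_sum]
  exact mul_le_mul_of_nonneg_left hS (by positivity)

/-- `EE` in the mean over `a` -/
lemma cnt_EE (N A : ℕ) (e0 η κ B S : ℝ) (hN : 1 ≤ N) (hη : 0 ≤ η)
    (hB : 0 ≤ B) (hS0 : 0 ≤ S)
    (hSM : ∀ x H : ℕ, (N : ℝ) ^ (1 / 8 : ℝ) ≤ H → ((x + H : ℕ) : ℝ) ≤ (N : ℝ) ^ 3 →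
      (((Ioc x (x + H)).filter (fun m => (N : ℝ) ^ η < ((smp ((N : ℝ) ^ e0) m : ℕ) : ℝ))).card : ℝ) ≤ B * H)
    (hS : ∑ k ∈ KC N e0 κ, (2 : ℝ) ^ k.primeFactors.card / k ≤ S)
    (hA : (N : ℝ) ^ κ * ((N : ℝ) ^ (1 / 8 : ℝ) + 1) ≤ ((2 * A + 1 : ℕ) : ℝ))
    (hA1 : 1 ≤ A) (hAN : ((4 * N ^ 2 + (2 * A + 1) : ℕ) : ℝ) ≤ (N : ℝ) ^ 3) :
    ∑ a ∈ IA A, cnt N a (EE N e0 η κ) ≤ 12 * B * S * A * N := by
  unfold cnt
  rw [sum_comm]
  have h1 : ∀ n ∈ Ioc N (2 * N), ∑ a ∈ IA A, EE N e0 η κ (val a n) ≤ 12 * B * S * A := by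
    intro n hn
    rw [mem_Ioc] at hn
    have h2 := EDGE.sum_val_le A n (EE N e0 η κ) (EE_nonneg N e0 η κ)
    rw [EE_zero N e0 η κ hN hη, add_zero] at h2
    have hn2 : n ^ 2 ≤ 4 * N ^ 2 := by
      calc n ^ 2 ≤ (2 * N) ^ 2 := Nat.pow_le_pow_left hn.2 2
        _ = 4 * N ^ 2 := by ring
    have h3 := sum_EE N e0 η κ B S hN hB hSM hS (n ^ 2 - (A + 1)) (2 * A + 1) hA (by
      refine le_trans ?_ hAN
      have : n ^ 2 - (A + 1) + (2 * A + 1) ≤ 4 * N ^ 2 + (2 * A + 1) := by omega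
      exact_mod_cast this)
    have h4 := sum_EE N e0 η κ B S hN hB hSM hS 0 (2 * A + 1) hA (by
      refine le_trans ?_ hAN
      have : 0 + (2 * A + 1) ≤ 4 * N ^ 2 + (2 * A + 1) := by omega
      exact_mod_cast this)
    have hA1' : (1 : ℝ) ≤ A := by exact_mod_cast hA1
    have h5 : 2 * B * ((2 * A + 1 : ℕ) : ℝ) * S ≤ 6 * B * S * A := by
      push_cast
      have : 0 ≤ B * S := mul_nonneg hB hS0
      nlinarith
    linarith
  refine (sum_le_card_nsmul _ _ _ h1).trans (le_of_eq ?_)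
  rw [nsmul_eq_mul, Nat.card_Ioc]
  have : 2 * N - N = N := by omega
  rw [this]
  ring

/-- `EE` for the model -/
lemma model_EE (N : ℕ) (e0 η κ B S : ℝ) (hN : 1 ≤ N) (hB : 0 ≤ B)
    (hSM : ∀ x H : ℕ, (N : ℝ) ^ (1 / 8 : ℝ) ≤ H → ((x + H : ℕ) : ℝ) ≤ (N : ℝ) ^ 3 →
      (((Ioc x (x + H)).filter (fun m => (N : ℝ) ^ η < ((smp ((N : ℝ) ^ e0) m : ℕ) : ℝ))).card : ℝ) ≤ B * H)
    (hS : ∑ k ∈ KC N e0 κ, (2 : ℝ) ^ k.primeFactors.card / k ≤ S)
    (hA : (N : ℝ) ^ κ * ((N : ℝ) ^ (1 / 8 : ℝ) + 1) ≤ ((3 * N ^ 2 : ℕ) : ℝ))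
    (hAN : ((N ^ 2 + 3 * N ^ 2 : ℕ) : ℝ) ≤ (N : ℝ) ^ 3) :
    model N (EE N e0 η κ) ≤ 3 * B * S * N := by
  have hN0 : (0 : ℝ) < N := by exact_mod_cast hN
  have h1 := sum_EE N e0 η κ B S hN hB hSM hS (N ^ 2) (3 * N ^ 2) hA hAN
  have h2 : N ^ 2 + 3 * N ^ 2 = 4 * N ^ 2 := by ring
  rw [h2] at h1
  unfold model
  have h3 : ∀ m ∈ Ioc (N ^ 2) (4 * N ^ 2), EE N e0 η κ m / (2 * √(m : ℝ)) ≤ 1 / (2 * N) * EE N e0 η κ m := by
    intro m hm
    rw [mem_Ioc] at hm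
    have h4 : (N : ℝ) ≤ √(m : ℝ) := by
      apply Real.le_sqrt_of_sq_le
      exact_mod_cast hm.1.le
    rw [div_eq_mul_one_div, mul_comm]
    apply mul_le_mul_of_nonneg_right _ (EE_nonneg _ _ _ _ _)
    apply one_div_le_one_div_of_le (by positivity)
    linarith
  refine (sum_le_sum h3).trans ?_
  rw [← mul_sum]
  calc 1 / (2 * (N : ℝ)) * _ ≤ 1 / (2 * (N : ℝ)) * (2 * B * ((3 * N ^ 2 : ℕ) : ℝ) * S) :=
        mul_le_mul_of_nonneg_left h1 (by positivity)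
    _ = 3 * B * S * N := by
        push_cast
        field_simp

/-- the sum over `n` of the divisor sum -/
lemma cnt_psiD (hC : SpecRHOC) (hS : SpecRHOS) (N : ℕ) (a : ℤ) (e0 κ : ℝ) (hN : 2 ≤ N) (he0 : 0 < e0) (hκ : κ ≤ 1)
    (cf : ℕ → ℝ) (hcf : ∀ k, |cf k| ≤ 2 ^ k.primeFactors.card) (hval : ∀ n ∈ Ioc N (2 * N), val a n ≠ 0) :
    |cnt N a (psiD N e0 κ cf) - N * ∑ k ∈ KC N e0 κ, cf k * (rho a k : ℝ) / k|
      ≤ (2 : ℝ) ^ (1 / e0) * ((2 : ℝ) ^ (1 / e0) * (N : ℝ) ^ κ) := by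
  have h1 : cnt N a (psiD N e0 κ cf) = ∑ k ∈ KC N e0 κ, cf k *
      (((Ioc N (N + N)).filter (fun n => k ∣ val a n)).card : ℝ) := by
    unfold cnt
    rw [sum_congr rfl fun n hn => psiD_eq N e0 κ cf _ (hval n hn), sum_comm]
    refine sum_congr rfl fun k _ => ?_
    rw [← sum_filter, sum_const, nsmul_eq_mul, mul_comm, two_mul]
  have h2 : cnt N a (psiD N e0 κ cf) - N * ∑ k ∈ KC N e0 κ, cf k * (rho a k : ℝ) / k
      = ∑ k ∈ KC N e0 κ, cf k * ((((Ioc N (N + N)).filter (fun n => k ∣ val a n)).card : ℝ)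
        - (rho a k : ℝ) * N / k) := by
    rw [h1, mul_sum, ← sum_sub_distrib]
    refine sum_congr rfl fun k _ => ?_
    ring
  rw [h2]
  refine (abs_sum_le_sum_abs _ _).trans ?_
  have h3 : ∀ k ∈ KC N e0 κ, |cf k * ((((Ioc N (N + N)).filter (fun n => k ∣ val a n)).card : ℝ)
        - (rho a k : ℝ) * N / k)| ≤ (2 : ℝ) ^ (1 / e0) * (2 : ℝ) ^ k.primeFactors.card := by
    intro k hk
    obtain ⟨hk1, hkN, hkr, hks⟩ := mem_KC.1 hk
    have h4 : (rho a k : ℝ) ≤ (2 : ℝ) ^ k.primeFactors.card := by exact_mod_cast hS a k hks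
    have h5 : (2 : ℝ) ^ k.primeFactors.card ≤ (2 : ℝ) ^ (1 / e0) := by
      have h3 := FLA.card_primeFactors_le hN he0 (by omega) hkr hkN
      have h4 : (k.primeFactors.card : ℝ) ≤ 1 / e0 := by
        rw [le_div_iff₀ he0]
        linarith
      rw [← Real.rpow_natCast]
      exact Real.rpow_le_rpow_of_exponent_le (by norm_num) h4
    rw [abs_mul, mul_comm]
    exact mul_le_mul ((hC a k N N hk1).trans (h4.trans h5)) (hcf k) (abs_nonneg _) (by positivity)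
  refine (sum_le_sum h3).trans ?_
  rw [← mul_sum]
  exact mul_le_mul_of_nonneg_left (sum_two N e0 κ hN he0 hκ) (by positivity)

/-- the model sum of the divisor sum -/
lemma model_psiD (N : ℕ) (e0 κ : ℝ) (hN : 2 ≤ N) (he0 : 0 < e0) (hκ : κ ≤ 1)
    (cf : ℕ → ℝ) (hcf : ∀ k, |cf k| ≤ 2 ^ k.primeFactors.card) :
    |model N (psiD N e0 κ cf) - N * ∑ k ∈ KC N e0 κ, cf k / k|
      ≤ (2 : ℝ) ^ (1 / e0) * (N : ℝ) ^ κ := by
  have hN0 : (0 : ℝ) < N := by exact_mod_cast (by omega : 0 < N)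
  have hN1 : (1 : ℝ) ≤ N := by exact_mod_cast (by omega : 1 ≤ N)
  have h1 : model N (psiD N e0 κ cf) = ∑ k ∈ KC N e0 κ, cf k *
      (∑ m ∈ (Ioc (N ^ 2) (4 * N ^ 2)).filter (fun m => k ∣ m), 1 / (2 * √(m : ℝ))) := by
    unfold model
    have h2 : ∀ m ∈ Ioc (N ^ 2) (4 * N ^ 2), psiD N e0 κ cf m / (2 * √(m : ℝ))
        = ∑ k ∈ KC N e0 κ, cf k * (if k ∣ m then 1 / (2 * √(m : ℝ)) else 0) := by
      intro m hm
      rw [mem_Ioc] at hm
      rw [psiD_eq N e0 κ cf m (by omega), sum_div]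
      refine sum_congr rfl fun k _ => ?_
      split_ifs
      · rw [div_eq_mul_one_div]
      · rw [zero_div, mul_zero]
    rw [sum_congr rfl h2, sum_comm]
    refine sum_congr rfl fun k _ => ?_
    rw [← mul_sum, sum_filter]
  have h2 : model N (psiD N e0 κ cf) - N * ∑ k ∈ KC N e0 κ, cf k / k
      = ∑ k ∈ KC N e0 κ, cf k * ((∑ m ∈ (Ioc (N ^ 2) (4 * N ^ 2)).filter (fun m => k ∣ m), 1 / (2 * √(m : ℝ)))
        - N / (k : ℝ)) := by
    rw [h1, mul_sum, ← sum_sub_distrib]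
    refine sum_congr rfl fun k _ => ?_
    ring
  rw [h2]
  refine (abs_sum_le_sum_abs _ _).trans ?_
  have h3 : ∀ k ∈ KC N e0 κ, |cf k * ((∑ m ∈ (Ioc (N ^ 2) (4 * N ^ 2)).filter (fun m => k ∣ m), 1 / (2 * √(m : ℝ)))
        - N / (k : ℝ))| ≤ (2 : ℝ) ^ k.primeFactors.card := by
    intro k hk
    have hk1 := (mem_KC.1 hk).1
    have h4 := FLB.mult_sum k N hk1 (by omega)
    have h5 : (1 : ℝ) / N ≤ 1 := by
      rw [div_le_one hN0]
      exact hN1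
    rw [abs_mul]
    calc |cf k| * _ ≤ (2 : ℝ) ^ k.primeFactors.card * 1 :=
          mul_le_mul (hcf k) (h4.trans h5) (abs_nonneg _) (by positivity)
      _ = _ := mul_one _
  exact (sum_le_sum h3).trans (sum_two N e0 κ hN he0 hκ)

/-- the two exponentials are small -/
lemma ex_small2 (e0 η : ℝ) (he0 : 0 < e0) (hη : 0 < η) :
    Real.exp (-((⌊1 / (200 * e0)⌋₊ : ℕ) : ℝ)) + Real.exp (-(η / (2 * e0)))
      ≤ (115200000000000 + 3840 / η ^ 5) * e0 ^ 5 := by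
  set y : ℝ := 1 / (200 * e0) with hy
  have hy0 : 0 < y := by positivity
  have h1 : y - 1 ≤ (⌊y⌋₊ : ℕ) := by
    have := Nat.lt_floor_add_one y
    linarith
  have h3 : Real.exp (-((⌊y⌋₊ : ℕ) : ℝ)) ≤ Real.exp (1 + -y) := Real.exp_le_exp.2 (by linarith)
  have h4 : Real.exp (1 + -y) ≤ 3 * (120 / y ^ 5) := by
    rw [Real.exp_add]
    have h5 : Real.exp 1 ≤ 3 := by linarith [Real.exp_one_lt_d9]
    exact mul_le_mul h5 (exp_neg_le y hy0) (Real.exp_pos _).le (by norm_num)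
  have h5 : 3 * (120 / y ^ 5) = 115200000000000 * e0 ^ 5 := by
    rw [hy]
    field_simp
    norm_num
  have h6 := exp_neg_le (η / (2 * e0)) (by positivity)
  have h7 : 120 / (η / (2 * e0)) ^ 5 = 3840 / η ^ 5 * e0 ^ 5 := by
    field_simp
    norm_num
  rw [h7] at h6
  rw [add_mul]
  linarith

end

end Pool.Agent.Lib.MP391708.QPA.C.TIDM
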