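import Pool.Agent.Lib.MP_391708_nt.QPA.C.SpecD
import Pool.Agent.Lib.MP_391708_nt.QPA.C.SMTC
import Pool.Agent.Lib.MP_391708_nt.QPA.NSFM
import Pool.Agent.Lib.MP_391708_nt.QPA.P3M

/-!
# WINM2: the model versions of WINC, SMTC, NSF
-/

set_option autoImplicit false

namespace Pool.Agent.Lib.MP391708.QPA.C

open Finset Filter Topology
open Pool.Agent.Lib.MP391708.QPA
open Pool.Agent.Lib.MP391708.QPA.H
open scoped Classical

noncomputable section

namespace WINM2M

/-- integers with a rough divisor in a window -/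
theorem card_RWin (N : ℕ) (e0 x e : ℝ) (hN : 1 ≤ N) :
    (((Ioc (N ^ 2) (4 * N ^ 2)).filter (fun m => RWin N e0 x e m)).card : ℝ)
      ≤ 4 * (N : ℝ) ^ 2 * ∑ k ∈ Icc ⌈(N : ℝ) ^ (x - e)⌉₊ ⌊(N : ℝ) ^ (x + e)⌋₊, rInd ((N : ℝ) ^ e0) k / (k : ℝ) := by
  have hNp : (0 : ℝ) < N := by exact_mod_cast hN
  set S := (Icc ⌈(N : ℝ) ^ (x - e)⌉₊ ⌊(N : ℝ) ^ (x + e)⌋₊).filter (fun k => Rough ((N : ℝ) ^ e0) k) with hS
  have h1 : ((Ioc (N ^ 2) (4 * N ^ 2)).filter (fun m => RWin N e0 x e m)).card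
      ≤ ∑ k ∈ S, ((Ioc (N ^ 2) (4 * N ^ 2)).filter (fun m => k ∣ m)).card := by
    refine le_trans (card_le_card ?_) card_biUnion_le
    intro m hm
    rw [mem_filter] at hm
    obtain ⟨hm, k, hk1, hk2, hk3, hk4⟩ := hm
    rw [mem_biUnion]
    refine ⟨k, ?_, mem_filter.2 ⟨hm, hk1⟩⟩
    rw [hS, mem_filter, mem_Icc]
    exact ⟨⟨Nat.ceil_le.2 hk3, Nat.le_floor hk4⟩, hk2⟩
  calc (((Ioc (N ^ 2) (4 * N ^ 2)).filter (fun m => RWin N e0 x e m)).card : ℝ)
      ≤ ∑ k ∈ S, (((Ioc (N ^ 2) (4 * N ^ 2)).filter (fun m => k ∣ m)).card : ℝ) := by exact_mod_cast h1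
    _ ≤ ∑ k ∈ S, 4 * (N : ℝ) ^ 2 * (1 / (k : ℝ)) := by
        refine sum_le_sum fun k _ => ?_
        have := NSFM.card_dvd_le k (N ^ 2) (4 * N ^ 2)
        push_cast at this
        rwa [mul_one_div]
    _ = 4 * (N : ℝ) ^ 2 * ∑ k ∈ S, 1 / (k : ℝ) := by rw [mul_sum]
    _ = _ := by
        congr 1
        rw [hS, sum_filter]
        refine sum_congr rfl fun k _ => ?_
        unfold rInd
        split_ifs <;> simp

/-- integers with a large smooth part -/
theorem card_smp (N : ℕ) (z S : ℝ) (hN : 1 ≤ N) (hz : 1 ≤ z) (hS : 1 < S) :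
    (((Ioc (N ^ 2) (4 * N ^ 2)).filter (fun m => S < ((smp z m : ℕ) : ℝ))).card : ℝ) * Real.log S
      ≤ 8 * (N : ℝ) ^ 2 * (Real.log z + 8) := by
  have hlS : 0 < Real.log S := Real.log_pos hS
  have h1 : (((Ioc (N ^ 2) (4 * N ^ 2)).filter (fun m => S < ((smp z m : ℕ) : ℝ))).card : ℝ) * Real.log S
      ≤ ∑ m ∈ Ioc (N ^ 2) (4 * N ^ 2), ∑ p ∈ PB z, ∑ i ∈ Ico 1 (4 * N ^ 2),
        (if p ^ i ∣ m then Real.log p else 0) := by
    have hnn : ∀ m ∈ Ioc (N ^ 2) (4 * N ^ 2), 0 ≤ ∑ p ∈ PB z, ∑ i ∈ Ico 1 (4 * N ^ 2),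
        (if p ^ i ∣ m then Real.log p else 0) := by
      intro m _
      refine sum_nonneg fun p _ => sum_nonneg fun i _ => ?_
      split_ifs
      · exact Real.log_natCast_nonneg _
      · exact le_rfl
    calc (((Ioc (N ^ 2) (4 * N ^ 2)).filter (fun m => S < ((smp z m : ℕ) : ℝ))).card : ℝ) * Real.log S
        = ∑ m ∈ (Ioc (N ^ 2) (4 * N ^ 2)).filter (fun m => S < ((smp z m : ℕ) : ℝ)), Real.log S := by
          rw [sum_const, nsmul_eq_mul]
      _ ≤ ∑ m ∈ (Ioc (N ^ 2) (4 * N ^ 2)).filter (fun m => S < ((smp z m : ℕ) : ℝ)),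
          ∑ p ∈ PB z, ∑ i ∈ Ico 1 (4 * N ^ 2), (if p ^ i ∣ m then Real.log p else 0) := by
          refine sum_le_sum fun m hm => ?_
          rw [mem_filter, mem_Ioc] at hm
          have hm0 : m ≠ 0 := by omega
          have h2 := SMTCM.log_smp z m (4 * N ^ 2) hm0 (lt_of_le_of_lt hm.1.2 Nat.lt_two_pow_self)
          refine le_trans ?_ h2
          exact Real.log_le_log (by linarith) hm.2.le
      _ ≤ _ := sum_le_sum_of_subset_of_nonneg (filter_subset _ _) fun m hm _ => hnn m hm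
  refine h1.trans ?_
  rw [sum_comm]
  have h2 : ∀ p ∈ PB z, ∑ m ∈ Ioc (N ^ 2) (4 * N ^ 2), ∑ i ∈ Ico 1 (4 * N ^ 2),
        (if p ^ i ∣ m then Real.log p else 0) ≤ 8 * (N : ℝ) ^ 2 * (Real.log p / p) := by
    intro p hp
    have hpp : p.Prime := by
      unfold PB at hp
      exact (mem_filter.1 hp).2
    have hlp : 0 ≤ Real.log p := Real.log_natCast_nonneg _
    have hp0 : (0 : ℝ) < p := by exact_mod_cast hpp.pos
    rw [sum_comm]
    calc ∑ i ∈ Ico 1 (4 * N ^ 2), ∑ m ∈ Ioc (N ^ 2) (4 * N ^ 2), (if p ^ i ∣ m then Real.log p else 0)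
        ≤ ∑ i ∈ Ico 1 (4 * N ^ 2), 4 * (N : ℝ) ^ 2 * Real.log p * (1 / (p : ℝ) ^ i) := by
          refine sum_le_sum fun i _ => ?_
          rw [← sum_filter, sum_const, nsmul_eq_mul]
          have := NSFM.card_dvd_le (p ^ i) (N ^ 2) (4 * N ^ 2)
          push_cast at this
          calc _ ≤ 4 * (N : ℝ) ^ 2 / (p : ℝ) ^ i * Real.log p := mul_le_mul_of_nonneg_right this hlp
            _ = _ := by ring
      _ = 4 * (N : ℝ) ^ 2 * Real.log p * ∑ i ∈ Ico 1 (4 * N ^ 2), 1 / (p : ℝ) ^ i := by rw [mul_sum]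
      _ ≤ 4 * (N : ℝ) ^ 2 * Real.log p * (2 / p) :=
          mul_le_mul_of_nonneg_left (SMTCM.geo_sum hpp.two_le _) (by positivity)
      _ = _ := by ring
  refine (sum_le_sum h2).trans ?_
  rw [← mul_sum]
  refine mul_le_mul_of_nonneg_left ?_ (by positivity)
  have h3 := P3M.mert 1 z le_rfl hz
  rw [Real.log_one, sub_zero] at h3
  refine le_trans ?_ h3
  apply sum_le_sum_of_subset_of_nonneg
  · intro p hp
    unfold PB at hp
    rw [mem_filter, mem_range, Nat.lt_ceil] at hp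
    rw [mem_filter, mem_Ioc, Nat.floor_one]
    exact ⟨⟨hp.2.one_lt, Nat.le_floor hp.1.le⟩, hp.2⟩
  · intro p _ _
    exact div_nonneg (Real.log_natCast_nonneg _) (Nat.cast_nonneg _)

end WINM2M

open WINM2M in
theorem specWINM2 (hR : SpecRSUM) (hNS : SpecNSFM) : SpecWINM2 := by
  obtain ⟨CR, hCR, hRS⟩ := hR
  refine ⟨6 * CR + 8, by positivity, ?_⟩
  intro e0 he0 he0'
  have ht : Tendsto (fun N : ℕ => (N : ℝ)) atTop atTop := tendsto_natCast_atTop_atTop
  have hlt : Tendsto (fun N : ℕ => Real.log (N : ℝ)) atTop atTop :=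
    Real.tendsto_log_atTop.comp ht
  refine ⟨?_, ?_, ?_⟩
  · intro e he he'
    obtain ⟨N₀, hN₀⟩ := eventually_atTop.1
      ((ht.eventually ((tendsto_rpow_atTop he0).eventually_ge_atTop (2 : ℝ))).and
        ((hlt.eventually_ge_atTop (1 / e)).and (eventually_ge_atTop 3)))
    refine ⟨N₀, fun N hN x hx1 hx2 => ?_⟩
    obtain ⟨hz2, hlog, hN3⟩ := hN₀ N hN
    have hN3' : (3 : ℝ) ≤ N := by exact_mod_cast hN3
    have hNp : (0 : ℝ) < N := by linarith
    have hN1 : (1 : ℝ) < N := by linarith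
    have hlogp : 0 < Real.log N := Real.log_pos hN1
    have helog : 1 ≤ e * Real.log N := by
      rw [div_le_iff₀ he] at hlog
      linarith
    have hX1p : 0 < (N : ℝ) ^ (x - e) := by positivity
    have hX2p : 0 < (N : ℝ) ^ (x + e) := by positivity
    have hlogXX : Real.log ((N : ℝ) ^ (x + e) / (N : ℝ) ^ (x - e)) = 2 * e * Real.log N := by
      rw [Real.log_div hX2p.ne' hX1p.ne', Real.log_rpow hNp, Real.log_rpow hNp]
      ring
    have hRS1 := hRS ((N : ℝ) ^ e0) ((N : ℝ) ^ (x - e)) ((N : ℝ) ^ (x + e)) hz2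
      (Real.rpow_le_rpow_of_exponent_le hN1.le (by linarith))
      (Real.rpow_le_rpow_of_exponent_le hN1.le (by linarith))
    rw [hlogXX, Real.log_rpow hNp] at hRS1
    have hRS2 : ∑ k ∈ Icc ⌈(N : ℝ) ^ (x - e)⌉₊ ⌊(N : ℝ) ^ (x + e)⌋₊, rInd ((N : ℝ) ^ e0) k / (k : ℝ)
        ≤ 3 * CR * (e / e0) := by
      refine hRS1.trans ?_
      rw [div_le_iff₀ (by positivity)]
      calc CR * (2 * e * Real.log N + 1) ≤ CR * (3 * (e * Real.log N)) := by
            have : 2 * e * Real.log N + 1 ≤ 3 * (e * Real.log N) := by linarith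
            gcongr
        _ = 3 * CR * (e / e0) * (e0 * Real.log N) := by field_simp
    have h1 := NSFM.model_le N (by omega) (fun m => RWin N e0 x e m)
    have h2 := card_RWin N e0 x e (by omega)
    calc model N (fun m => if RWin N e0 x e m then 1 else 0)
        ≤ (((Ioc (N ^ 2) (4 * N ^ 2)).filter (fun m => RWin N e0 x e m)).card : ℝ) / (2 * N) := by
          convert h1
      _ ≤ (4 * (N : ℝ) ^ 2 * (3 * CR * (e / e0))) / (2 * N) := by
          apply div_le_div_of_nonneg_right _ (by positivity)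
          exact h2.trans (mul_le_mul_of_nonneg_left hRS2 (by positivity))
      _ = 6 * CR * (e / e0) * N := by
          field_simp
          ring
      _ ≤ (6 * CR + 8) * (e / e0) * N := by
          gcongr
          linarith
  · intro η hη
    obtain ⟨N₀, hN₀⟩ := eventually_atTop.1
      ((hlt.eventually_ge_atTop (8 / e0)).and (eventually_ge_atTop 3))
    refine ⟨N₀, fun N hN => ?_⟩
    obtain ⟨hlog, hN3⟩ := hN₀ N hN
    have hN3' : (3 : ℝ) ≤ N := by exact_mod_cast hN3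
    have hNp : (0 : ℝ) < N := by linarith
    have hN1 : (1 : ℝ) < N := by linarith
    have hlogp : 0 < Real.log N := Real.log_pos hN1
    have h8 : 8 ≤ e0 * Real.log N := by
      rw [div_le_iff₀ he0] at hlog
      linarith
    have h1 := NSFM.model_le N (by omega) (fun m => (N : ℝ) ^ η < ((smp ((N : ℝ) ^ e0) m : ℕ) : ℝ))
    have h2 := card_smp N ((N : ℝ) ^ e0) ((N : ℝ) ^ η) (by omega) (Real.one_le_rpow hN1.le he0.le)
      (Real.one_lt_rpow hN1 hη)
    rw [Real.log_rpow hNp, Real.log_rpow hNp] at h2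
    have h3 : (((Ioc (N ^ 2) (4 * N ^ 2)).filter
        (fun m => (N : ℝ) ^ η < ((smp ((N : ℝ) ^ e0) m : ℕ) : ℝ))).card : ℝ) ≤ 16 * (e0 / η) * (N : ℝ) ^ 2 := by
      have h4 : (((Ioc (N ^ 2) (4 * N ^ 2)).filter
        (fun m => (N : ℝ) ^ η < ((smp ((N : ℝ) ^ e0) m : ℕ) : ℝ))).card : ℝ) * (η * Real.log N)
          ≤ (16 * (e0 / η) * (N : ℝ) ^ 2) * (η * Real.log N) := by
        refine h2.trans ?_
        calc 8 * (N : ℝ) ^ 2 * (e0 * Real.log N + 8) ≤ 8 * (N : ℝ) ^ 2 * (2 * (e0 * Real.log N)) := by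
              gcongr
              linarith
          _ = _ := by
              field_simp
              ring
      exact le_of_mul_le_mul_right h4 (by positivity)
    calc model N (fun m => if (N : ℝ) ^ η < ((smp ((N : ℝ) ^ e0) m : ℕ) : ℝ) then 1 else 0)
        ≤ (((Ioc (N ^ 2) (4 * N ^ 2)).filter
        (fun m => (N : ℝ) ^ η < ((smp ((N : ℝ) ^ e0) m : ℕ) : ℝ))).card : ℝ) / (2 * N) := by
          convert h1
      _ ≤ (16 * (e0 / η) * (N : ℝ) ^ 2) / (2 * N) := div_le_div_of_nonneg_right h3 (by positivity)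
      _ = 8 * (e0 / η) * N := by
          field_simp
          ring
      _ ≤ (6 * CR + 8) * (e0 / η) * N := by
          gcongr
          linarith
  · intro δ hδ
    obtain ⟨N₀, hN₀⟩ := hNS e0 δ he0 hδ
    obtain ⟨N₁, hN₁⟩ := eventually_atTop.1 (hlt.eventually_ge_atTop 1)
    refine ⟨max N₀ N₁, fun N hN => ?_⟩
    refine (hN₀ N ((le_max_left _ _).trans hN)).trans ?_
    have := hN₁ N ((le_max_right _ _).trans hN)
    exact div_le_self (by positivity) this

end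

end Pool.Agent.Lib.MP391708.QPA.C
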